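import Pool.Agent.S5.G.Shapes

/-!
# The exact relations of the ends

For an end with two or three half twists the equation of the end is polynomial: with `κ = cos z` at the
end and `k` at its neighbour (conjugated on `A` edges) one has `k = 2 i κ²`, `k = i κ (4 κ² - 1)`.
-/

set_option autoImplicit false

namespace Pool.Agent.S5.K3

open Complex
open Pool.Agent.S5.G (kp CrtM kp_true kp_false)
open Pool.Agent.S3.G (cos_ne sin_ne)

theorem rel_two {k q w : ℂ} (hc : cos w ≠ 0) (hs : sin w ≠ 0) (he : 2 * w = Real.pi + I * q)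
    (hq : sinh q = k * tan w) : k = 2 * I * cos w ^ 2 := by
  have h1 : q = -((2 * w - Real.pi) * I) := by
    linear_combination I * he + q * I_sq
  have h2 : sinh q = 2 * I * (sin w * cos w) := by
    rw [h1, sinh_neg, sinh_mul_I, sin_sub_pi, sin_two_mul]
    ring
  rw [h2, tan_eq_sin_div_cos] at hq
  have h3 : sin w * (k - 2 * I * cos w ^ 2) = 0 := by
    field_simp at hq
    linear_combination (-sin w) * hq
  rcases mul_eq_zero.1 h3 with h | h
  · exact absurd h hs
  · linear_combination h

theorem rel_three {k q w : ℂ} (hc : cos w ≠ 0) (hs : sin w ≠ 0) (he : 3 * w = Real.pi + I * q)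
    (hq : sinh q = k * tan w) : k = I * (cos w * (4 * cos w ^ 2 - 1)) := by
  have h1 : q = -((3 * w - Real.pi) * I) := by
    linear_combination I * he + q * I_sq
  have h2 : sinh q = I * (sin w * (4 * cos w ^ 2 - 1)) := by
    rw [h1, sinh_neg, sinh_mul_I, sin_sub_pi, sin_three_mul]
    have h5 := sin_sq_add_cos_sq w
    linear_combination (-(4 * I * sin w)) * h5
  rw [h2, tan_eq_sin_div_cos] at hq
  have h3 : sin w * (k - I * (cos w * (4 * cos w ^ 2 - 1))) = 0 := by
    field_simp at hq
    linear_combination (-sin w) * hq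
  rcases mul_eq_zero.1 h3 with h | h
  · exact absurd h hs
  · linear_combination h

variable {R : ℕ} {a : ℕ → ℕ} {S : ℕ → Bool} {z ql qr : ℕ → ℂ}

theorem cs_ne (h : CrtM R a S z ql qr) (i : ℕ) (hi : i ≤ R) : cos (z i) ≠ 0 ∧ sin (z i) ≠ 0 :=
  ⟨cos_ne (h.zre i hi), sin_ne (h.zre i hi)⟩

/-- The left end with two half twists. -/
theorem e2l (h : CrtM R a S z ql qr) (h0 : a 0 = 2) :
    kp (S 0) (cos (z 1)) = 2 * I * cos (z 0) ^ 2 := by
  obtain ⟨hc, hs⟩ := cs_ne h 0 (Nat.zero_le _)
  have he := h.eq 0 (Nat.zero_le _)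
  rw [h.l0, h0, zero_add] at he
  exact rel_two hc hs (by exact_mod_cast he) (h.sr 0 h.hR)

/-- The left end with three half twists. -/
theorem e3l (h : CrtM R a S z ql qr) (h0 : a 0 = 3) :
    kp (S 0) (cos (z 1)) = I * (cos (z 0) * (4 * cos (z 0) ^ 2 - 1)) := by
  obtain ⟨hc, hs⟩ := cs_ne h 0 (Nat.zero_le _)
  have he := h.eq 0 (Nat.zero_le _)
  rw [h.l0, h0, zero_add] at he
  exact rel_three hc hs (by exact_mod_cast he) (h.sr 0 h.hR)

/-- The right end with two half twists. -/
theorem e2r (h : CrtM R a S z ql qr) {i : ℕ} (hi : i + 1 = R) (h0 : a (i + 1) = 2) :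
    kp (S i) (cos (z i)) = 2 * I * cos (z (i + 1)) ^ 2 := by
  obtain ⟨hc, hs⟩ := cs_ne h (i + 1) hi.le
  have he := h.eq (i + 1) hi.le
  have h1 : qr (i + 1) = 0 := by rw [hi, h.rR]
  rw [h1, h0, add_zero] at he
  exact rel_two hc hs (by exact_mod_cast he) (h.sl i (by omega))

/-- The right end with three half twists. -/
theorem e3r (h : CrtM R a S z ql qr) {i : ℕ} (hi : i + 1 = R) (h0 : a (i + 1) = 3) :
    kp (S i) (cos (z i)) = I * (cos (z (i + 1)) * (4 * cos (z (i + 1)) ^ 2 - 1)) := by
  obtain ⟨hc, hs⟩ := cs_ne h (i + 1) hi.le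
  have he := h.eq (i + 1) hi.le
  have h1 : qr (i + 1) = 0 := by rw [hi, h.rR]
  rw [h1, h0, add_zero] at he
  exact rel_three hc hs (by exact_mod_cast he) (h.sl i (by omega))

/-! ### In the frame of the neighbour

`k = cos z` at the neighbour `J` of the end, `b` the value of its slot (the number of the end,
conjugated on an `A` edge). -/

theorem kp_kp (s : Bool) (c : ℂ) : kp s (kp s c) = c := by
  rcases s with _ | _
  · rw [kp_false, kp_false, conj_conj]
  · rw [kp_true, kp_true]

/-- The factor `i` (`S` edge) or `-i` (`A` edge). -/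
noncomputable def eI (s : Bool) : ℂ := if s then I else -I

theorem fr_two {s : Bool} {k e : ℂ} (h : kp s k = 2 * I * e ^ 2) :
    k = 2 * eI s * kp s e ^ 2 := by
  rcases s with _ | _
  · rw [kp_false] at h
    have h1 := congrArg (starRingEnd ℂ) h
    rw [conj_conj, map_mul, map_mul, map_pow, conj_I, map_ofNat] at h1
    rw [kp_false, h1]
    simp [eI]
  · rw [kp_true] at h
    rw [kp_true, h]
    simp [eI]

theorem fr_three {s : Bool} {k e : ℂ} (h : kp s k = I * (e * (4 * e ^ 2 - 1))) :
    k = eI s * (kp s e * (4 * kp s e ^ 2 - 1)) := by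
  rcases s with _ | _
  · rw [kp_false] at h
    have h1 := congrArg (starRingEnd ℂ) h
    rw [conj_conj, map_mul, map_mul, map_sub, map_mul, map_pow, conj_I, map_ofNat, map_one] at h1
    rw [kp_false, h1]
    simp [eI]
  · rw [kp_true] at h
    rw [kp_true, h]
    simp [eI]

/-- The right neighbour of the left end, two half twists. -/
theorem j2l (h : CrtM R a S z ql qr) (h0 : a 0 = 2) :
    cos (z 1) = 2 * eI (S 0) * kp (S 0) (cos (z 0)) ^ 2 := fr_two (e2l h h0)

/-- The right neighbour of the left end, three half twists. -/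
theorem j3l (h : CrtM R a S z ql qr) (h0 : a 0 = 3) :
    cos (z 1) = eI (S 0) * (kp (S 0) (cos (z 0)) * (4 * kp (S 0) (cos (z 0)) ^ 2 - 1)) :=
  fr_three (e3l h h0)

/-- The left neighbour of the right end, two half twists. -/
theorem j2r (h : CrtM R a S z ql qr) {i : ℕ} (hi : i + 1 = R) (h0 : a (i + 1) = 2) :
    cos (z i) = 2 * eI (S i) * kp (S i) (cos (z (i + 1))) ^ 2 := fr_two (e2r h hi h0)

/-- The left neighbour of the right end, three half twists. -/
theorem j3r (h : CrtM R a S z ql qr) {i : ℕ} (hi : i + 1 = R) (h0 : a (i + 1) = 3) :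
    cos (z i) = eI (S i) * (kp (S i) (cos (z (i + 1))) *
      (4 * kp (S i) (cos (z (i + 1))) ^ 2 - 1)) := fr_three (e3r h hi h0)

end Pool.Agent.S5.K3
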