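import Pool.Agent.S5.K3.Out
import Pool.Agent.S5.I.LowT

/-!
# A node with three half twists: low edges, from the rectangles of the critical data
-/

set_option autoImplicit false

namespace Pool.Agent.S5.K3

open Complex Pool.Agent.H63.VC3 Pool.Agent.S3

/-! ### Inclusion of rectangles -/

/-- Inclusion. -/
def Iv.le (a b : Iv) : Bool := Nat.ble b.lo a.lo && Nat.ble a.hi b.hi

/-- Inclusion. -/
def Rc.le (a b : Rc) : Bool := a.re.le b.re && a.im.le b.im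

/-- Inclusion of the five rectangles. -/
def OutB.le (a b : OutB) : Bool :=
  a.ly.le b.ly && (a.lb.le b.lb && (a.ys.le b.ys && (a.zs.le b.zs && a.bs.le b.bs)))

theorem Iv.In.mono {a b : Iv} {x : ℝ} (h : a.In x) (hl : a.le b = true) : b.In x := by
  simp only [Iv.le, Bool.and_eq_true, Nat.ble_eq] at hl
  have h1 : (b.lo : ℝ) ≤ a.lo := by exact_mod_cast hl.1
  have h2 : (a.hi : ℝ) ≤ b.hi := by exact_mod_cast hl.2
  exact ⟨by linarith [h.1], by linarith [h.2]⟩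

theorem Rc.In.mono {a b : Rc} {z : ℂ} (h : a.In z) (hl : a.le b = true) : b.In z := by
  simp only [Rc.le, Bool.and_eq_true] at hl
  exact ⟨h.1.mono hl.1, h.2.mono hl.2⟩

theorem OutB.In5.mono {a b : OutB} {ly lb ys zs bs : ℂ} (h : a.In5 ly lb ys zs bs)
    (hl : a.le b = true) : b.In5 ly lb ys zs bs := by
  simp only [OutB.le, Bool.and_eq_true] at hl
  obtain ⟨h1, h2, h3, h4, h5⟩ := hl
  exact ⟨h.cly.mono h1, h.clb.mono h2, h.cy.mono h3, h.cz.mono h4, h.cb.mono h5⟩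

/-! ### Conversion -/

/-- `1000 / 2 ^ 20`, rounded down. -/
def fl (n : ℕ) : ℕ := Nat.div (Nat.mul n 1000) 1048576

/-- `1000 / 2 ^ 20`, rounded up. -/
def ce (n : ℕ) : ℕ := Nat.succ (fl n)

theorem fl_le (n : ℕ) : (fl n : ℝ) / 1000 ≤ (n : ℝ) / 1048576 := by
  have h : fl n * 1048576 ≤ n * 1000 := Nat.div_mul_le_self _ _
  have h2 : (fl n : ℝ) * 1048576 ≤ n * 1000 := by exact_mod_cast h
  rw [div_le_div_iff₀ (by norm_num) (by norm_num)]
  exact h2

theorem le_ce (n : ℕ) : (n : ℝ) / 1048576 ≤ (ce n : ℝ) / 1000 := by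
  have h : n * 1000 < 1048576 * (n * 1000 / 1048576 + 1) := Nat.lt_mul_div_succ _ (by norm_num)
  have h3 : ce n = n * 1000 / 1048576 + 1 := rfl
  rw [← h3] at h
  have h2 : (n : ℝ) * 1000 < 1048576 * ce n := by exact_mod_cast h
  rw [div_le_div_iff₀ (by norm_num) (by norm_num)]
  linarith

theorem fl_pos {n : ℕ} (h : 40 ≤ fl n) : 0 < n := by
  rcases Nat.eq_zero_or_pos n with h0 | h0
  · rw [h0] at h
    exact absurd h (by decide)
  · exact h0

/-- A lower bound. -/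
theorem fl_sub {a b : ℕ} {x : ℝ} (h : 40 ≤ fl (a - b)) (hx : ((a : ℝ) - b) / 1048576 ≤ x) :
    (fl (a - b) : ℝ) / 1000 ≤ x := by
  have h1 : b ≤ a := by
    have := fl_pos h
    omega
  refine (fl_le _).trans (le_trans ?_ hx)
  rw [Nat.cast_sub h1]

/-- An upper bound. -/
theorem ce_sub {a b : ℕ} {x : ℝ} (hx : x ≤ ((a : ℝ) - b) / 1048576) :
    x ≤ (ce (a - b) : ℝ) / 1000 := by
  refine hx.trans (le_trans ?_ (le_ce _))
  apply div_le_div_of_nonneg_right _ (by norm_num)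
  rcases Nat.le_total b a with h | h
  · rw [Nat.cast_sub h]
  · rw [Nat.sub_eq_zero_of_le h]
    have : (a : ℝ) ≤ b := by exact_mod_cast h
    push_cast
    linarith

theorem ce_mono {a b : ℕ} (h : a ≤ b) : (ce a : ℝ) / 1000 ≤ (ce b : ℝ) / 1000 := by
  have h1 : ce a ≤ ce b := Nat.succ_le_succ (Nat.div_le_div_right (Nat.mul_le_mul_right _ h))
  have h2 : (ce a : ℝ) ≤ ce b := by exact_mod_cast h1
  linarith

/-- A bound of the modulus: `x ≤ (a - b) / U`, `-x ≤ (c - d) / U`. -/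
theorem ce_abs {a b c d : ℕ} {x : ℝ} (h1 : x ≤ ((a : ℝ) - b) / 1048576)
    (h2 : -x ≤ ((c : ℝ) - d) / 1048576) : |x| ≤ (ce (max (a - b) (c - d)) : ℝ) / 1000 := by
  rw [abs_le]
  have k1 := (ce_sub h1).trans (ce_mono (le_max_left (a - b) (c - d)))
  have k2 := (ce_sub h2).trans (ce_mono (le_max_right (a - b) (c - d)))
  constructor <;> linarith

/-- The lower bound of a slope. -/
def ilo (n : ℕ) : ℤ := ((n : ℤ) - 67108864) * 1000 / 1048576

/-- The upper bound of a slope. -/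
def ihi (n : ℕ) : ℤ := ((n : ℤ) - 67108864) * 1000 / 1048576 + 1

theorem ilo_ok {n : ℕ} {x : ℝ} (h : (n : ℝ) - 67108864 ≤ 1048576 * x) : (ilo n : ℝ) / 1000 ≤ x := by
  have h1 : ilo n * 1048576 ≤ ((n : ℤ) - 67108864) * 1000 := Int.ediv_mul_le _ (by norm_num)
  have h2 : (ilo n : ℝ) * 1048576 ≤ ((n : ℝ) - 67108864) * 1000 := by exact_mod_cast h1
  linarith

theorem ihi_ok {n : ℕ} {x : ℝ} (h : 1048576 * x ≤ (n : ℝ) - 67108864) : x ≤ (ihi n : ℝ) / 1000 := by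
  have h1 : ((n : ℤ) - 67108864) * 1000 < ihi n * 1048576 :=
    Int.lt_ediv_add_one_mul_self _ (by norm_num)
  have h2 : ((n : ℝ) - 67108864) * 1000 < (ihi n : ℝ) * 1048576 := by exact_mod_cast h1
  linarith

/-- The boxes of `S5.LD`. -/
def OutB.ld (o : OutB) : LD where
  y0 := fl (67633152 - o.ys.re.hi)
  y1 := ce (67633152 - o.ys.re.lo)
  yB := ce (max (o.ys.im.hi - 67108864) (67108864 - o.ys.im.lo))
  l0 := ilo o.ly.re.lo
  l1 := ihi o.ly.re.hi
  b0 := fl (67633152 - o.bs.re.hi)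
  b1 := ce (67633152 - o.bs.re.lo)
  bB := ce (max (o.bs.im.hi - 67108864) (67108864 - o.bs.im.lo))
  m0 := ilo o.lb.re.lo
  m1 := ihi o.lb.re.hi
  g0 := fl (o.ys.re.lo - o.zs.re.hi)
  g1 := ce (o.ys.re.hi - o.zs.re.lo)
  gB := ce (max (o.ys.im.hi - o.zs.im.lo) (o.zs.im.hi - o.ys.im.lo))
  h0 := fl (o.zs.re.lo + o.bs.re.lo - 134217728)
  h1 := ce (o.zs.re.hi + o.bs.re.hi - 134217728)
  hB := ce (max (o.zs.im.hi + o.bs.im.hi - 134217728) (134217728 - (o.zs.im.lo + o.bs.im.lo)))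
  z0 := fl (o.zs.re.lo - 66584576)
  z1 := ce (o.zs.re.hi - 66584576)
  zB := ce (max (o.zs.im.hi - 67108864) (67108864 - o.zs.im.lo))

theorem OutB.ld_in {o : OutB} (h : o.ld.rg = true) {ly lb ys zs bs : ℂ}
    (ho : o.In5 ly lb ys zs bs) : o.ld.In ys zs bs ly.re lb.re := by
  simp only [LD.rg, Bool.and_eq_true, decide_eq_true_eq] at h
  obtain ⟨⟨⟨⟨⟨⟨⟨⟨⟨r1, _⟩, r3⟩, _⟩, r5⟩, _⟩, r8⟩, _⟩, r11⟩, _⟩ := h
  obtain ⟨⟨⟨a1, a2⟩, _⟩, ⟨⟨b1, b2⟩, _⟩, ⟨⟨c1, c2⟩, ⟨c3, c4⟩⟩, ⟨⟨d1, d2⟩, ⟨d3, d4⟩⟩,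
    ⟨⟨e1, e2⟩, ⟨e3, e4⟩⟩⟩ := ho
  have p1 : (1 / 2 - ys).re = 1 / 2 - ys.re := by simp
  have p2 : (1 / 2 - ys).im = -ys.im := by simp
  have p3 : (1 / 2 - bs).re = 1 / 2 - bs.re := by simp
  have p4 : (1 / 2 - bs).im = -bs.im := by simp
  have p5 : (zs + 1 / 2).re = zs.re + 1 / 2 := by simp
  have p6 : (zs + 1 / 2).im = zs.im := by simp
  refine ⟨⟨?_, ?_, ?_⟩, ⟨?_, ?_, ?_⟩, ⟨?_, ?_, ?_⟩, ⟨?_, ?_, ?_⟩, ⟨?_, ?_, ?_⟩, ilo_ok a1, ihi_ok a2,
    ilo_ok b1, ihi_ok b2⟩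
  · rw [p1]
    exact fl_sub r1 (by push_cast; linarith)
  · rw [p1]
    exact ce_sub (by push_cast; linarith)
  · rw [p2, abs_neg]
    exact ce_abs (by push_cast; linarith) (by push_cast; linarith)
  · rw [p3]
    exact fl_sub r3 (by push_cast; linarith)
  · rw [p3]
    exact ce_sub (by push_cast; linarith)
  · rw [p4, abs_neg]
    exact ce_abs (by push_cast; linarith) (by push_cast; linarith)
  · rw [sub_re]
    exact fl_sub r5 (by linarith)
  · rw [sub_re]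
    exact ce_sub (by linarith)
  · rw [sub_im]
    exact ce_abs (by linarith) (by linarith)
  · rw [add_re]
    exact fl_sub r8 (by push_cast; linarith)
  · rw [add_re]
    exact ce_sub (by push_cast; linarith)
  · rw [add_im]
    exact ce_abs (by push_cast; linarith) (by push_cast; linarith)
  · rw [p5]
    exact fl_sub r11 (by push_cast; linarith)
  · rw [p5]
    exact ce_sub (by push_cast; linarith)
  · rw [p6]
    exact ce_abs (by push_cast; linarith) (by push_cast; linarith)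

/-- The test for low edges; `SY`, `SB` are the kinds of the edges. -/
def loO (SY SB : Bool) (o : OutB) : Bool := o.ld.tst o.ld.w3 SY SB

/-- **Low edges at inner nodes with three half twists.** -/
theorem loO_ok {n : Nt} {zs : ℂ} {sy sb : Slt} {o : OutB} (h : loO sy.S sb.S o = true)
    (ho : o.In5 sy.lam sb.lam sy.ys zs sb.ys) (hz : l3z sy.ys zs sb.ys = 0)
    (hly : sy.lam = l3y sy.ys zs) (hlb : sb.lam = l3b zs sb.ys) (hy : sy.ex = true)
    (hb : sb.ex = true) :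
    (∀ (y z b : ℂ) (wy wb : ℝ) (pb : Pc), sy.ex = true → (sb.ex = true → pb.frcT) →
      sy.In .lo y wy → sb.In pb b wb → z.im = 0 → -(1 / 2) ≤ z.re → z.re ≤ 1 / 2 → z.re ≤ y.re →
      0 ≤ z.re + b.re → Ez3 sy.ys zs sb.ys y z b + sy.e n .lo y wy + sb.e n pb b wb < 0) ∧
    (∀ (y z b : ℂ) (wy wb : ℝ) (py : Pc), sb.ex = true → (sy.ex = true → py.frcT) →
      sy.In py y wy → sb.In .lo b wb → z.im = 0 → -(1 / 2) ≤ z.re → z.re ≤ 1 / 2 → z.re ≤ y.re →
      0 ≤ z.re + b.re → Ez3 sy.ys zs sb.ys y z b + sy.e n py y wy + sb.e n .lo b wb < 0) := by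
  have hr : o.ld.rg = true := by
    unfold loO LD.tst at h
    simp only [Bool.and_eq_true] at h
    exact h.1.1
  exact low_z3 h hz hly hlb hy hb (OutB.ld_in hr ho)

end Pool.Agent.S5.K3
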