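import Pool.Agent.S5.K3.Nd
import Pool.Agent.S5.K3.Low

/-!
# Inner nodes with three half twists: the statement from its parts
-/

set_option autoImplicit false

namespace Pool.Agent.S5.K3

open Complex Pool.Agent.H63.VC3 Pool.Agent.S3
open Pool.Agent.S5.G (Sd N3 Slot SF kp lA lB zz3 O3 sy)
open Pool.Agent.S5.E (Vt vL vR)
open Pool.Agent.S5.E.B2 (InR)

/-- The three flat pieces. -/
def FHG (pc : Pc) : Prop := pc = .F ∨ pc = .H ∨ pc = .G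

/-- `U`, except for the flats. -/
def RwU (z1 : ℝ) (zs : ℂ) (sy sb : Slt) : Prop :=
  ∀ (y z b : ℂ) (wy w wb : ℝ) (py pb : Pc), py.free → pb.free → sy.In py y wy →
    sb.In pb b wb → LimR (-z1) z1 (3 / 20) zs.im z w →
    ¬((w = 0 ∧ z.im = zs.im ∧ -z1 ≤ z.re ∧ z.re ≤ z1) ∧ FHG py ∧ FHG pb) →
    Ez3 sy.ys zs sb.ys y z b + sy.e ⟨3, false⟩ py y wy + sb.e ⟨3, false⟩ pb b wb < w

/-- `U` on the flats. -/
def RwF (z1 : ℝ) (zs : ℂ) (sy sb : Slt) : Prop :=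
  ∀ (y z b : ℂ) (wy wb : ℝ) (py pb : Pc), FHG py → FHG pb → sy.In py y wy →
    sb.In pb b wb → z.im = zs.im → -z1 ≤ z.re → z.re ≤ z1 →
    Ez3 sy.ys zs sb.ys y z b + sy.e ⟨3, false⟩ py y wy + sb.e ⟨3, false⟩ pb b wb < 0 ∨
      (y = sy.ys ∧ z = zs ∧ b = sb.ys ∧ py = .F ∧ pb = .F)

/-- `P`. -/
def RwP (z1 : ℝ) (zs : ℂ) (sy sb : Slt) : Prop :=
  ∀ (y z b : ℂ) (wy wb : ℝ) (py pb : Pc), (sy.ex = true → py.frcZ) → pb.free →
    sy.In py y wy → sb.In pb b wb → z.im = 0 → z1 ≤ z.re → z.re ≤ 1 / 2 → z.re ≤ y.re →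
    Ez3 sy.ys zs sb.ys y z b + sy.e ⟨3, false⟩ py y wy + sb.e ⟨3, false⟩ pb b wb < 0

/-- `N`. -/
def RwN (z1 : ℝ) (zs : ℂ) (sy sb : Slt) : Prop :=
  ∀ (y z b : ℂ) (wy wb : ℝ) (py pb : Pc), py.free → (sb.ex = true → pb.frcZ) →
    sy.In py y wy → sb.In pb b wb → z.im = 0 → -(1 / 2) ≤ z.re → z.re ≤ -z1 →
    0 ≤ z.re + b.re →
    Ez3 sy.ys zs sb.ys y z b + sy.e ⟨3, false⟩ py y wy + sb.e ⟨3, false⟩ pb b wb < 0

/-- The quadratic bound. -/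
def RwQ (zs : ℂ) (sy sb : Slt) : Prop :=
  ∃ c : ℝ, 0 < c ∧ ∃ ρ : ℝ, 0 < ρ ∧ ∀ s x t : ℝ, |s| ≤ ρ → |x| ≤ ρ → |t| ≤ ρ →
    (sy.ex = false → s = 0) → (sb.ex = false → t = 0) →
    Ez3 sy.ys zs sb.ys (sy.ys + s) (zs + x) (sb.ys + t) ≤ -(c * (s ^ 2 + x ^ 2 + t ^ 2))

theorem vz_mk {z1 : ℝ} {zs : ℂ} {sy sb : Slt} {o : OutB} (hU : RwU z1 zs sy sb)
    (hF : RwF z1 zs sy sb) (hP : RwP z1 zs sy sb) (hN : RwN z1 zs sy sb) (hQ : RwQ zs sy sb)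
    (h : loO sy.S sb.S o = true) (ho : o.In5 sy.lam sb.lam sy.ys zs sb.ys)
    (hz : l3z sy.ys zs sb.ys = 0) (hly : sy.lam = l3y sy.ys zs) (hlb : sb.lam = l3b zs sb.ys)
    (hy : sy.ex = true) (hb : sb.ex = true) :
    VZ (Ez3 sy.ys zs sb.ys) ⟨3, false⟩ z1 zs sy sb where
  U y z b wy w wb py pb f g i j k := by
    by_cases hc : (w = 0 ∧ z.im = zs.im ∧ -z1 ≤ z.re ∧ z.re ≤ z1) ∧ FHG py ∧ FHG pb
    · obtain ⟨⟨c1, c2, c3, c4⟩, c5, c6⟩ := hc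
      rcases hF y z b wy wb py pb c5 c6 i j c2 c3 c4 with h1 | ⟨h1, h2, h3, h4, h5⟩
      · exact Or.inl (by rw [c1]; exact h1)
      · exact Or.inr ⟨h1, h2, h3, h4, h5, c1⟩
    · exact Or.inl (hU y z b wy w wb py pb f g i j k hc)
  P := hP
  N := hN
  Ty := (loO_ok (n := ⟨3, false⟩) h ho hz hly hlb hy hb).1
  Tb := (loO_ok (n := ⟨3, false⟩) h ho hz hly hlb hy hb).2
  quad := hQ

namespace Lk

variable {ty tb : Bool} {cy cb p r z : ℂ}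

theorem sly (h : Lk ty tb cy cb p r z) :
    2 * (log (kp ty cy) - log (cos z)) = l3y (sy p z) (zz3 p r z) := by
  have e := h.n3.sfp.id h.y h.ky
  have e1 := (z3_slopes h.n3).1
  rw [hh_half_sub] at e
  rw [← e, ← e1]

theorem slb (h : Lk ty tb cy cb p r z) :
    2 * (log (kp tb cb) - log (cos z)) = l3b (zz3 p r z) (sy r z) := by
  have e := h.n3.sfr.id h.b h.kb
  have e1 := (z3_slopes h.n3).2.1
  rw [hh_half_sub] at e
  rw [← e, ← e1]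

theorem slz (h : Lk ty tb cy cb p r z) : l3z (sy p z) (zz3 p r z) (sy r z) = 0 :=
  (z3_slopes h.n3).2.2

/-- The critical data are in the rectangles. -/
theorem inB (h : Lk ty tb cy cb p r z) {fy fb : Bool} {o : OutB}
    (ho : OutB.In fy fb o (oLy (cP p) (cP r)) (oLb (cP p) (cP r)) (oY (cP p) (cP r))
      (oZ (cP p) (cP r)) (oB (cP p) (cP r)) (oHy (cP p) (cP r)) (oHb (cP p) (cP r))) :
    OutB.In fy fb o (2 * (log (kp ty cy) - log (cos z))) (2 * (log (kp tb cb) - log (cos z)))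
      (sy p z) (zz3 p r z) (sy r z) (hh (1 / 2 - sy p z)) (hh (1 / 2 - sy r z)) := by
  rw [h.ly, h.lb, h.ys, h.zs, h.bs]
  have e1 : hh (1 / 2 - oY (cP p) (cP r)) = oHy (cP p) (cP r) := by
    rw [← h.ys, h.hy]
    rfl
  have e2 : hh (1 / 2 - oB (cP p) (cP r)) = oHb (cP p) (cP r) := by
    rw [← h.bs, h.hb]
    rfl
  rw [e1, e2]
  exact ho

end Lk

/-- **The statement of a node from its parts.** -/
theorem vn_mk {ty tb : Bool} {x w : Vt} {z1 zy zb : ℝ} {cy cb p r z : ℂ} {fy fb : Bool} {o : OutB}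
    (L : Lk ty tb cy cb p r z)
    (ho : OutB.In fy fb o (oLy (cP p) (cP r)) (oLb (cP p) (cP r)) (oY (cP p) (cP r))
      (oZ (cP p) (cP r)) (oB (cP p) (cP r)) (oHy (cP p) (cP r)) (oHb (cP p) (cP r)))
    (hl : loO ty tb o = true)
    (hU : RwU z1 (zz3 p r z) (slN ty x zy cy p z) (slN tb w zb cb r z))
    (hF : RwF z1 (zz3 p r z) (slN ty x zy cy p z) (slN tb w zb cb r z))
    (hP : RwP z1 (zz3 p r z) (slN ty x zy cy p z) (slN tb w zb cb r z))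
    (hN : RwN z1 (zz3 p r z) (slN ty x zy cy p z) (slN tb w zb cb r z))
    (hQ : RwQ (zz3 p r z) (slN ty x zy cy p z) (slN tb w zb cb r z)) :
    VN ty tb x w z1 zy zb cy cb p r z := by
  have h5 : o.In5 (slN ty x zy cy p z).lam (slN tb w zb cb r z).lam (slN ty x zy cy p z).ys
      (zz3 p r z) (slN tb w zb cb r z).ys := (L.inB ho).toIn5
  have h1 : l3z (slN ty x zy cy p z).ys (zz3 p r z) (slN tb w zb cb r z).ys = 0 := L.slz
  have h2 : (slN ty x zy cy p z).lam = l3y (slN ty x zy cy p z).ys (zz3 p r z) := L.sly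
  have h3 : (slN tb w zb cb r z).lam = l3b (zz3 p r z) (slN tb w zb cb r z).ys := L.slb
  exact vz_mk (sy := slN ty x zy cy p z) (sb := slN tb w zb cb r z) hU hF hP hN hQ hl h5 h1 h2 h3
    rfl rfl

end Pool.Agent.S5.K3
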