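import Pool.Agent.S5.K3.Cls
import Pool.Agent.S5.K3.Ff.All
import Pool.Agent.S5.E.T.TabF
import Pool.Agent.S5.I.Y3K

/-!
# Inner nodes with three half twists: the cover by the groups of the flats
-/

set_option autoImplicit false

namespace Pool.Agent.S5.K3

theorem covF_fin : covF Y3.fl3k E.Tfin fAll = true := by decide +kernel

theorem flS_fin : FlS Y3.fl3k := fun h1 h2 _ _ _ h3 h4 h5 h6 => Y3.fl3_sound h1 h2 h3 h4 h5 h6

end Pool.Agent.S5.K3
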