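import Pool.Agent.S5.K3.Cls
import Pool.Agent.S5.K3.Lf.All
import Pool.Agent.S5.E.T.TabF

/-!
# Inner nodes with three half twists: the cover by the groups of the rows
-/

set_option autoImplicit false

namespace Pool.Agent.S5.K3

theorem covR_fin : covR E.Tfin gAll = true := by decide +kernel

theorem tab33_fin : C33.tab33 E.Tfin = true := by decide +kernel

end Pool.Agent.S5.K3
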