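import Pool.Agent.S5.K3.Nd
import Pool.Agent.S5.Fld.YQ

/-!
# Inner nodes with three half twists: special pairs
-/

set_option autoImplicit false

namespace Pool.Agent.S5.K3

open Complex
open Pool.Agent.S5.E (Vt vL vR)
open Pool.Agent.S5.E.B2 (InR Sb)

theorem qf33 : Sb (E.QF (me true true)) q33 = true := by decide +kernel

theorem spQ_fin : SpQ E.Tfin := by
  intro R a S r z ql qr zF h i hi a1 a2 a3 s0 s1 s2 s3
  obtain ⟨hQ, -⟩ := E.tabQ_adm h.adm zF h.sol.zr
  have hp := E.pr_chain (R := R) (a := a) (S := S) (j := i + 1) (by omega) a2 a3 s1 s2 s3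
  have eK : (⟨E.nF R a ⟨i + 1, by omega⟩, true, E.kd (E.nlF R S ⟨i + 1, by omega⟩)⟩ : Vt) =
      vR a S (i + 1) := by
    have := E.vR_eq (R := R) (a := a) (S := S) (i := ⟨i + 1, by omega⟩)
    rw [← this, s1]
  have b1 := hQ _ _ _ _ _ hp
  rw [eK, vR_me a1, s1, s0] at b1
  have z1 : z (i + 2) = zF ⟨i + 2, by omega⟩ := h.sol.ez ⟨i + 2, by omega⟩
  rw [← z1] at b1
  exact b1.sub qf33

end Pool.Agent.S5.K3
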