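import Pool.Agent.S5.K3.Loc

/-!
# A node with three half twists: localisation and first order expansion
-/

set_option autoImplicit false

namespace Pool.Agent.S5.K3

open Complex Pool.Agent.H63.VC3 Pool.Agent.S3
open Set
open scoped ComplexConjugate

theorem Dm.fd {P R : ℂ} (h : Dm P R) (k : Fin 8) : fdom (wt P R k) := by
  obtain ⟨z0, z1, z2⟩ := h.zt
  have e0 := zt_re P R
  have e1 := zt_im P R
  have := h.p0
  have := h.p1
  have := h.p3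
  have := h.r0
  have := h.r1
  have := h.r3
  have := h.s
  fin_cases k
  · exact Or.inl h.p1.ne
  · exact Or.inl h.r1.ne
  · exact Or.inl z2.ne'
  · refine Or.inl ?_
    have : (1 / 2 - K3.zt P R : ℂ).im = -(K3.zt P R).im := by simp
    change (1 / 2 - K3.zt P R : ℂ).im ≠ 0
    rw [this]
    linarith
  · refine Or.inr ?_
    change 0 < (P + K3.zt P R).re ∧ (P + K3.zt P R).re < 1
    rw [add_re, e0]
    constructor <;> linarith
  · refine Or.inl ?_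
    change (K3.zt P R - P).im ≠ 0
    rw [sub_im]
    apply ne_of_gt
    linarith
  · refine Or.inr ?_
    change 0 < (R + K3.zt P R).re ∧ (R + K3.zt P R).re < 1
    rw [add_re, e0]
    constructor <;> linarith
  · refine Or.inl ?_
    change (K3.zt P R - R).im ≠ 0
    rw [sub_im]
    apply ne_of_gt
    linarith

theorem wt_seg (P0 R0 u v : ℂ) (t : ℝ) (k : Fin 8) :
    wt (P0 + t * u) (R0 + t * v) k = wt P0 R0 k + t * (da k * u + db k * v) := by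
  fin_cases k <;>
  · simp [wt, da, db, zt]
    try ring

theorem wt_one (P0 R0 P R : ℂ) (k : Fin 8) :
    wt P R k = wt P0 R0 k + (da k * (P - P0) + db k * (R - R0)) := by
  have := wt_seg P0 R0 (P - P0) (R - R0) 1 k
  simpa using this

theorem tau_sq (k : Fin 8) : 0 < tau k ∧ da k ^ 2 + db k ^ 2 ≤ tau k ^ 2 := by
  fin_cases k <;>
  · simp [tau, da, db]
    try norm_num

theorem norm_lin {a b x y D : ℝ} {u v : ℂ} (h : ‖u‖ ^ 2 + ‖v‖ ^ 2 ≤ D ^ 2) (hD : 0 ≤ D)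
    (hx : a ^ 2 + b ^ 2 ≤ x ^ 2) (h0 : 0 ≤ x) {A B : ℂ} (hA : ‖A‖ ≤ a) (hB : ‖B‖ ≤ b) (hy : y = x * D) :
    ‖A * u + B * v‖ ≤ y := by
  rw [hy]
  have n1 := norm_nonneg u
  have n2 := norm_nonneg v
  have n3 := norm_nonneg A
  have n4 := norm_nonneg B
  have h1 : ‖A * u + B * v‖ ≤ a * ‖u‖ + b * ‖v‖ := by
    refine (norm_add_le _ _).trans ?_
    rw [norm_mul, norm_mul]
    exact add_le_add (mul_le_mul_of_nonneg_right hA n1) (mul_le_mul_of_nonneg_right hB n2)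
  refine h1.trans (abs_le_of_sq_le_sq' ?_ (mul_nonneg h0 hD)).2
  have h2 : (a * ‖u‖ + b * ‖v‖) ^ 2 ≤ (a ^ 2 + b ^ 2) * (‖u‖ ^ 2 + ‖v‖ ^ 2) := by
    nlinarith [sq_nonneg (a * ‖v‖ - b * ‖u‖)]
  have h3 : (a ^ 2 + b ^ 2) * (‖u‖ ^ 2 + ‖v‖ ^ 2) ≤ x ^ 2 * D ^ 2 :=
    mul_le_mul hx h (by positivity) (by positivity)
  nlinarith

theorem Bp.fd {P R P0 R0 : ℂ} {ρ : ℝ} {q : Fin 8 → ℝ} (hb : Bp P0 R0 ρ q) (h : Dm P R) (k : Fin 8)
    (t : ℝ) (h0 : 0 ≤ t) (h1 : t ≤ 1) :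
    fdom (wt P0 R0 k + t * (da k * (P - P0) + db k * (R - R0))) := by
  rw [← wt_seg]
  exact (hb.dm.seg h h0 h1).fd k

theorem Bp.dl {P R P0 R0 : ℂ} {ρ : ℝ} {q : Fin 8 → ℝ} (hb : Bp P0 R0 ρ q)
    (hd : ‖P - P0‖ ^ 2 + ‖R - R0‖ ^ 2 ≤ ρ ^ 2) (k : Fin 8) :
    ‖(da k : ℂ) * (P - P0) + db k * (R - R0)‖ ≤ tau k * ρ :=
  norm_lin (a := |da k|) (b := |db k|) (x := tau k) (D := ρ) hd hb.ρ0.le
    (by rw [sq_abs, sq_abs]; exact (tau_sq k).2) (tau_sq k).1.le (by rw [norm_real, Real.norm_eq_abs])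
    (by rw [norm_real, Real.norm_eq_abs]) rfl

theorem Bp.tay {P R P0 R0 : ℂ} {ρ : ℝ} {q : Fin 8 → ℝ} (hb : Bp P0 R0 ρ q) (h : Dm P R)
    (hd : ‖P - P0‖ ^ 2 + ‖R - R0‖ ^ 2 ≤ ρ ^ 2) (k : Fin 8) :
    ‖he (wt P R k) - he (wt P0 R0 k) - ct (wt P0 R0 k) * (da k * (P - P0) + db k * (R - R0))‖ ≤
      mm P0 R0 q k * ρ ^ 2 := by
  have hpi := Real.pi_pos
  have hl := hb.dl hd k
  have h1 := he_tay (w := wt P0 R0 k) (δ := da k * (P - P0) + db k * (R - R0))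
    (σ := Real.pi * tau k * ρ) (q := q k) (hb.fd h k)
    (by rw [mul_assoc]; exact mul_le_mul_of_nonneg_left hl hpi.le) (hb.σ k) (hb.q0 k) (by
      have e : ‖ct (wt P0 R0 k)‖ * (Real.pi * tau k * ρ / Real.pi) =
          ‖ct (wt P0 R0 k)‖ * tau k * ρ := by field_simp
      rw [e]
      exact hb.q1 k)
  rw [← wt_one] at h1
  refine h1.trans ?_
  have h2 : ‖(da k : ℂ) * (P - P0) + db k * (R - R0)‖ ^ 2 ≤ (tau k * ρ) ^ 2 :=
    pow_le_pow_left₀ (norm_nonneg _) hl 2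
  have h3 : 0 ≤ ‖ct (wt P0 R0 k) ^ 2 + (Real.pi : ℂ) ^ 2‖ / q k :=
    div_nonneg (norm_nonneg _) (hb.q0 k).le
  have h4 := mul_le_mul_of_nonneg_left h2 (mul_nonneg (show (0 : ℝ) ≤ 21 / 40 by norm_num) h3)
  refine h4.trans ?_
  unfold mm
  have h5 : 0 ≤ ‖ct (wt P0 R0 k) ^ 2 + (Real.pi : ℂ) ^ 2‖ / q k * (tau k * ρ) ^ 2 := by positivity
  nlinarith

/-- The first order expansion. -/
theorem cell_tay {P R P0 R0 : ℂ} {ρ : ℝ} {q : Fin 8 → ℝ} (h : Dm P R) (hb : Bp P0 R0 ρ q)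
    (hd : ‖P - P0‖ ^ 2 + ‖R - R0‖ ^ 2 ≤ ρ ^ 2) (N : Fin 8 → ℂ) {g : ℝ} (hg0 : 0 ≤ g)
    (hg : ‖∑ k, N k * ct (wt P0 R0 k) * da k‖ ^ 2 + ‖∑ k, N k * ct (wt P0 R0 k) * db k‖ ^ 2 ≤
      g ^ 2) :
    ‖lf N P R - lf N P0 R0‖ ≤ g * ρ + (∑ k, ‖N k‖ * mm P0 R0 q k) * ρ ^ 2 := by
  have e : lf N P R - lf N P0 R0 =
      ((∑ k, N k * ct (wt P0 R0 k) * da k) * (P - P0) +
        (∑ k, N k * ct (wt P0 R0 k) * db k) * (R - R0)) +
      ∑ k, N k * (he (wt P R k) - he (wt P0 R0 k) -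
        ct (wt P0 R0 k) * (da k * (P - P0) + db k * (R - R0))) := by
    unfold lf
    rw [Finset.sum_mul, Finset.sum_mul, ← Finset.sum_sub_distrib, ← Finset.sum_add_distrib,
      ← Finset.sum_add_distrib]
    apply Finset.sum_congr rfl
    intro k _
    ring
  rw [e]
  refine (norm_add_le _ _).trans (add_le_add ?_ ?_)
  · exact norm_lin (x := g) hd hb.ρ0.le hg hg0 le_rfl le_rfl rfl
  · refine (norm_sum_le _ _).trans ?_
    rw [Finset.sum_mul]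
    apply Finset.sum_le_sum
    intro k _
    rw [norm_mul, mul_assoc]
    exact mul_le_mul_of_nonneg_left (hb.tay h hd k) (norm_nonneg _)

/-! ### Localisation -/

theorem lf_der (N : Fin 8 → ℂ) {P0 R0 u v : ℂ} {t : ℝ}
    (h : ∀ k, fdom (wt P0 R0 k + t * (da k * u + db k * v))) :
    HasDerivAt (fun t : ℝ => lf N (P0 + t * u) (R0 + t * v))
      (∑ k, N k * (ct (wt (P0 + t * u) (R0 + t * v) k) * (da k * u + db k * v))) t := by
  have e : (fun t : ℝ => lf N (P0 + t * u) (R0 + t * v)) =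
      fun t : ℝ => ∑ k, N k * he (wt P0 R0 k + t * (da k * u + db k * v)) := by
    funext t
    unfold lf
    apply Finset.sum_congr rfl
    intro k _
    rw [wt_seg]
  rw [e]
  apply HasDerivAt.fun_sum
  intro k _
  rw [wt_seg]
  have h2 : HasDerivAt (fun t : ℝ => wt P0 R0 k + (t : ℂ) * (da k * u + db k * v))
      (da k * u + db k * v) t := by
    have := ((Complex.ofRealCLM.hasDerivAt (x := t)).mul_const (da k * u + db k * v)).const_add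
      (wt P0 R0 k)
    simpa using this
  exact ((he_hasDerivAt (h k)).comp_of_eq t h2 rfl).const_mul (N k)

theorem rt_conj_mul (u A : ℂ) : rt (conj u * (A * u)) = ‖u‖ ^ 2 * rt A := by
  have e : conj u * (A * u) = A * ((‖u‖ ^ 2 : ℝ) : ℂ) := by
    have h : conj u * u = ((‖u‖ ^ 2 : ℝ) : ℂ) := by
      rw [← Complex.normSq_eq_conj_mul_self, Complex.normSq_eq_norm_sq]
    rw [← h]
    ring
  rw [e, rt_mul_ofReal]
  ring

/-- The derivative of the energy. -/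
theorem energy_der (P R u v : ℂ) :
    rt (conj u * (∑ k, nU k * (ct (wt P R k) * (da k * u + db k * v))) +
      conj v * (∑ k, nV k * (ct (wt P R k) * (da k * u + db k * v)))) =
    ‖u‖ ^ 2 * rt (ct P) + ‖v‖ ^ 2 * rt (ct R) +
      ‖u + v‖ ^ 2 * (rt (ct (zt P R) + ct (1 / 2 - zt P R)) / 3) := by
  have e : conj u * (∑ k, nU k * (ct (wt P R k) * (da k * u + db k * v))) +
      conj v * (∑ k, nV k * (ct (wt P R k) * (da k * u + db k * v))) =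
      conj u * (ct P * u) + conj v * (ct R * v) +
        conj (u + v) * ((ct (zt P R) + ct (1 / 2 - zt P R)) * ((1 / 3 : ℝ) : ℂ) * (u + v)) := by
    simp only [Fin.sum_univ_succ, Finset.univ_eq_empty, Finset.sum_empty, nU, nV, wt, da, db, map_add]
    simp [Fin.succ]
    ring
  rw [e, rt_add, rt_add, rt_conj_mul, rt_conj_mul, rt_conj_mul, rt_mul_ofReal]
  ring

theorem lf_zero_one (N : Fin 8 → ℂ) (P0 R0 P R : ℂ) :
    lf N (P0 + ((0 : ℝ) : ℂ) * (P - P0)) (R0 + ((0 : ℝ) : ℂ) * (R - R0)) = lf N P0 R0 ∧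
    lf N (P0 + ((1 : ℝ) : ℂ) * (P - P0)) (R0 + ((1 : ℝ) : ℂ) * (R - R0)) = lf N P R := by
  constructor <;> simp

/-- The localisation. -/
theorem cell_loc {P R P0 R0 : ℂ} {ρ m : ℝ} {q : Fin 8 → ℝ} (h : Dm P R) (hb : Bp P0 R0 ρ q)
    (hl : Lc P0 R0 ρ m q)
    (huv : 25 * (‖lf nU P R - lf nU P0 R0‖ ^ 2 + ‖lf nV P R - lf nV P0 R0‖ ^ 2) < (m * ρ) ^ 2) :
    ‖P - P0‖ ^ 2 + ‖R - R0‖ ^ 2 ≤ ρ ^ 2 := by
  by_contra hc
  rw [not_le] at hc
  have hpi := Real.pi_pos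
  have hρ := hb.ρ0
  have hm := hl.m0
  set u := P - P0 with hu
  set v := R - R0 with hv
  set D := Real.sqrt (‖u‖ ^ 2 + ‖v‖ ^ 2) with hD
  have hD2 : D ^ 2 = ‖u‖ ^ 2 + ‖v‖ ^ 2 := Real.sq_sqrt (by positivity)
  have hD0 : 0 ≤ D := Real.sqrt_nonneg _
  have hDρ : ρ < D := by
    apply lt_of_pow_lt_pow_left₀ 2 hD0
    rw [hD2]
    exact hc
  have hDp : 0 < D := hρ.trans hDρ
  set t1 := ρ / D with ht1
  have t10 : 0 < t1 := div_pos hρ hDp
  have t11 : t1 < 1 := (div_lt_one hDp).2 hDρ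
  have t1D : t1 * D = ρ := div_mul_cancel₀ _ hDp.ne'
  have hdm : ∀ t : ℝ, 0 ≤ t → t ≤ 1 → Dm (P0 + t * u) (R0 + t * v) := fun t h0 h1 =>
    hb.dm.seg h h0 h1
  have hfd : ∀ t : ℝ, 0 ≤ t → t ≤ 1 → ∀ k, fdom (wt P0 R0 k + t * (da k * u + db k * v)) :=
    fun t h0 h1 k => hb.fd h k t h0 h1
  set φ : ℝ → ℝ := fun t => rt (conj u * lf nU (P0 + t * u) (R0 + t * v) +
    conj v * lf nV (P0 + t * u) (R0 + t * v)) with hφ
  set ψ : ℝ → ℝ := fun t => ‖u‖ ^ 2 * rt (ct (P0 + t * u)) + ‖v‖ ^ 2 * rt (ct (R0 + t * v)) +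
      ‖u + v‖ ^ 2 * (rt (ct (zt (P0 + t * u) (R0 + t * v)) +
        ct (1 / 2 - zt (P0 + t * u) (R0 + t * v))) / 3) with hψ
  have hder : ∀ t : ℝ, 0 ≤ t → t ≤ 1 → HasDerivAt φ (ψ t) t := fun t h0 h1 => by
    have d1 := (lf_der nU (hfd t h0 h1)).const_mul (conj u)
    have d2 := (lf_der nV (hfd t h0 h1)).const_mul (conj v)
    have d := d1.add d2
    have r1 := (Complex.reCLM.hasFDerivAt.comp_hasDerivAt t d).const_mul 3
    have r2 := (Complex.imCLM.hasFDerivAt.comp_hasDerivAt t d).const_mul 4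
    have r := r1.add r2
    refine (r.congr_deriv ?_ :)
    rw [hψ]
    dsimp only
    rw [← energy_der]
    rfl
  have hT : ∀ t : ℝ, 0 ≤ t → t ≤ 1 → 0 ≤ ‖u + v‖ ^ 2 *
      (rt (ct (zt (P0 + t * u) (R0 + t * v)) + ct (1 / 2 - zt (P0 + t * u) (R0 + t * v))) / 3) :=
    fun t h0 h1 => by
      obtain ⟨z0, z1, z2⟩ := (hdm t h0 h1).zt
      have := rt_T_nonneg z0 z1 z2
      positivity
  have hψ0 : ∀ t : ℝ, 0 ≤ t → t ≤ 1 → 0 ≤ ψ t := fun t h0 h1 => by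
    have hd := hdm t h0 h1
    have a1 := rt_ct_nonneg hd.p0 hd.p3 hd.p1 hd.p2
    have a2 := rt_ct_nonneg hd.r0 hd.r3 hd.r1 hd.r2
    have a3 := hT t h0 h1
    have a4 : 0 ≤ ‖u‖ ^ 2 * rt (ct (P0 + t * u)) := by positivity
    have a5 : 0 ≤ ‖v‖ ^ 2 * rt (ct (R0 + t * v)) := by positivity
    rw [hψ]
    dsimp only
    linarith
  -- near the base point
  have near : ∀ (w0 w : ℂ) (k : Fin 8), tau k = 1 → wt P0 R0 k = w0 → ‖w‖ ≤ D →
      m ≤ rt (ct w0) - 21 / 4 * (‖ct w0 ^ 2 + (Real.pi : ℂ) ^ 2‖ / q k) * ρ →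
      ∀ t : ℝ, 0 ≤ t → t ≤ t1 → m ≤ rt (ct (w0 + t * w)) := by
    intro w0 w k hk hw0 hw hmk t h0 h1
    have hn : ‖(t : ℂ) * w‖ ≤ ρ := by
      rw [norm_mul, norm_real, Real.norm_of_nonneg h0, ← t1D]
      exact mul_le_mul h1 hw (norm_nonneg _) t10.le
    have hf : fdom w0 := by rw [← hw0]; exact hb.dm.fd k
    have hσ := hb.σ k
    have hq := hb.q1 k
    rw [hk, hw0] at hq
    rw [hk] at hσ
    have := ct_sub hf (δ := t * w) (σ := Real.pi * 1 * ρ) (q := q k)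
      (by rw [mul_one]; exact mul_le_mul_of_nonneg_left hn hpi.le) hσ (hb.q0 k) (by
        have e : ‖ct w0‖ * (Real.pi * 1 * ρ / Real.pi) = ‖ct w0‖ * 1 * ρ := by field_simp
        rw [e]
        exact hq)
    have h3 : 0 ≤ ‖ct w0 ^ 2 + (Real.pi : ℂ) ^ 2‖ / q k := div_nonneg (norm_nonneg _) (hb.q0 k).le
    have h4 := le_rt (ct (w0 + t * w) - ct w0)
    rw [rt_sub] at h4
    have h5 := mul_le_mul_of_nonneg_left hn (mul_nonneg (show (0 : ℝ) ≤ 21 / 20 by norm_num) h3)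
    linarith
  have hψ1 : ∀ t : ℝ, 0 ≤ t → t ≤ t1 → m * D ^ 2 ≤ ψ t := fun t h0 h1 => by
    have n1 : ‖u‖ ≤ D := by
      apply (abs_le_of_sq_le_sq' _ hD0).2
      rw [hD2]
      linarith [sq_nonneg ‖v‖]
    have n2 : ‖v‖ ≤ D := by
      apply (abs_le_of_sq_le_sq' _ hD0).2
      rw [hD2]
      linarith [sq_nonneg ‖u‖]
    have a1 := near P0 u 0 rfl rfl n1 hl.mP t h0 h1
    have a2 := near R0 v 1 rfl rfl n2 hl.mR t h0 h1
    have a3 := hT t h0 (h1.trans t11.le)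
    have a4 := mul_le_mul_of_nonneg_left a1 (sq_nonneg ‖u‖)
    have a5 := mul_le_mul_of_nonneg_left a2 (sq_nonneg ‖v‖)
    rw [hψ, hD2]
    dsimp only
    linarith
  have hcont : ∀ t : ℝ, 0 ≤ t → t ≤ 1 → ContinuousAt φ t := fun t h0 h1 => (hder t h0 h1).continuousAt
  obtain ⟨c1, c1m, hc1⟩ := exists_hasDerivAt_eq_slope φ ψ t10
    (fun t ht => (hcont t ht.1 (ht.2.trans t11.le)).continuousWithinAt)
    (fun t ht => hder t ht.1.le (ht.2.le.trans t11.le))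
  obtain ⟨c2, c2m, hc2⟩ := exists_hasDerivAt_eq_slope φ ψ t11
    (fun t ht => (hcont t (t10.le.trans ht.1) ht.2).continuousWithinAt)
    (fun t ht => hder t (t10.le.trans ht.1.le) ht.2.le)
  have b1 := hψ1 c1 c1m.1.le c1m.2.le
  have b2 := hψ0 c2 (t10.le.trans c2m.1.le) c2m.2.le
  rw [hc1, sub_zero, le_div_iff₀ t10] at b1
  rw [hc2, le_div_iff₀ (by linarith), zero_mul] at b2
  have b3 : m * D * ρ ≤ φ 1 - φ 0 := by
    have : m * D ^ 2 * t1 = m * D * ρ := by rw [← t1D]; ring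
    linarith
  -- the upper bound
  set S := Real.sqrt (‖lf nU P R - lf nU P0 R0‖ ^ 2 + ‖lf nV P R - lf nV P0 R0‖ ^ 2) with hS
  have hS2 : S ^ 2 = ‖lf nU P R - lf nU P0 R0‖ ^ 2 + ‖lf nV P R - lf nV P0 R0‖ ^ 2 :=
    Real.sq_sqrt (by positivity)
  have hS0 : 0 ≤ S := Real.sqrt_nonneg _
  have b4 : φ 1 - φ 0 ≤ 5 * (D * S) := by
    rw [hφ]
    dsimp only
    rw [← rt_sub]
    rw [hu, hv, (lf_zero_one nU P0 R0 P R).1, (lf_zero_one nU P0 R0 P R).2,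
      (lf_zero_one nV P0 R0 P R).1, (lf_zero_one nV P0 R0 P R).2, ← hu, ← hv]
    have e : conj u * lf nU P R + conj v * lf nV P R - (conj u * lf nU P0 R0 + conj v * lf nV P0 R0) =
        conj u * (lf nU P R - lf nU P0 R0) + conj v * (lf nV P R - lf nV P0 R0) := by ring
    rw [e]
    refine (rt_le _).trans (mul_le_mul_of_nonneg_left ?_ (by norm_num))
    refine norm_lin (a := ‖u‖) (b := ‖v‖) (x := D) (D := S) (by rw [hS2]) hS0 (by rw [hD2]) hD0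
      ?_ ?_ rfl
    · rw [RCLike.norm_conj]
    · rw [RCLike.norm_conj]
  have b5 : m * ρ ≤ 5 * S := by
    have : m * ρ * D ≤ 5 * S * D := by nlinarith
    exact le_of_mul_le_mul_right this hDp
  have b6 : (m * ρ) ^ 2 ≤ (5 * S) ^ 2 := pow_le_pow_left₀ (by positivity) b5 2
  rw [← hS2] at huv
  nlinarith

end Pool.Agent.S5.K3
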