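import Pool.Agent.S5.I.NumPk
import Pool.Agent.S3.HeLog

/-!
# Evaluation of `he` and `ct`

All quantities are natural numbers, see `S5/I/NumDef.lean`.
-/

set_option autoImplicit false

namespace Pool.Agent.S5.K3

open Complex Pool.Agent.S5.Num
open Pool.Agent.H63.VC3 hiding KK
open Pool.Agent.S3 hiding UU

/-- The values of `he` and `ct` at `((xp - xn) + i (sp - sn)) / D`: the numbers `l`, `t1`, `t2`,
`eL`, `c1`, `c2`, `d1`, `d2`, `eC`. -/
def atK (xp xn sp sn D : Nat) (k : Nat → Nat → Nat → Nat → Nat → Nat → Nat → Nat → Nat → Bool) :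
    Bool :=
  cond (Nat.ble xn xp)
    (fN (fun x => cond (Nat.ble (Nat.mul 2 x) D)
      (cond (Nat.ble sn sp)
        (fN (fun s => cond (Nat.ble 1 (Nat.add x s)) (ltK x s D (fun l t eL cr ci eC =>
          k l t 4503599627370496 eL cr 4503599627370496 4503599627370496 ci eC)) false)
          (Nat.sub sp sn))
        (fN (fun s => cond (Nat.ble 1 s) (ltK x s D (fun l t eL cr ci eC =>
          k l 4503599627370496 t eL cr 4503599627370496 ci 4503599627370496 eC)) false)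
          (Nat.sub sn sp)))
      (cond (Nat.ble (Nat.succ x) D)
        (fN (fun x => cond (Nat.ble sn sp)
          (fN (fun s => cond (Nat.ble 1 s) (ltK x s D (fun l t eL cr ci eC =>
            k l 4503599627370496 t eL 4503599627370496 cr 4503599627370496 ci eC)) false)
            (Nat.sub sp sn))
          (fN (fun s => cond (Nat.ble 1 s) (ltK x s D (fun l t eL cr ci eC =>
            k l t 4503599627370496 eL 4503599627370496 cr ci 4503599627370496 eC)) false)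
            (Nat.sub sn sp)))
          (Nat.sub D x))
        false))
      (Nat.sub xp xn))
    (fN (fun x => cond (Nat.ble (Nat.succ (Nat.mul 2 x)) D)
      (cond (Nat.ble sn sp)
        (fN (fun s => cond (Nat.ble 1 s) (ltK x s D (fun l t eL cr ci eC =>
          k l 5387879346374051 t eL 4503599627370496 cr 4503599627370496 ci eC)) false)
          (Nat.sub sp sn))
        (fN (fun s => cond (Nat.ble 1 s) (ltK x s D (fun l t eL cr ci eC =>
          k l t 5387879346374051 eL 4503599627370496 cr ci 4503599627370496 eC)) false)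
          (Nat.sub sn sp)))
      false)
      (Nat.sub xn xp))

/-! ### The symmetries -/

theorem ct_eq (z : ℂ) : ct z = Real.pi * cot (Real.pi * z) := by
  unfold ct
  rw [Complex.cot_eq_cos_div_sin]
  ring

theorem ct_conj (z : ℂ) : ct ((starRingEnd ℂ) z) = (starRingEnd ℂ) (ct z) := by
  unfold ct
  have e : (Real.pi : ℂ) * (starRingEnd ℂ) z = (starRingEnd ℂ) (Real.pi * z) := by
    rw [map_mul, conj_ofReal]
  rw [e, cos_conj, sin_conj, map_div₀, map_mul, conj_ofReal]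

theorem ct_neg (z : ℂ) : ct (-z) = -ct z := by
  unfold ct
  rw [mul_neg, cos_neg, sin_neg, div_neg]

theorem ct_one_sub (z : ℂ) : ct (1 - z) = -ct z := by
  unfold ct
  rw [show (Real.pi : ℂ) * (1 - z) = Real.pi - Real.pi * z by ring, cos_pi_sub, sin_pi_sub,
    mul_neg, neg_div]

theorem conj_pt (x s : ℝ) : (starRingEnd ℂ) ((x : ℂ) + s * I) = (x : ℂ) - s * I := by
  rw [map_add, map_mul, conj_ofReal, conj_ofReal, conj_I]
  ring

theorem pt_re (x s : ℝ) : ((x : ℂ) + s * I).re = x := by simp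

theorem pt_im (x s : ℝ) : ((x : ℂ) + s * I).im = s := by simp

theorem he_a {x s : ℝ} (x0 : 0 ≤ x) (x1 : x ≤ 1 / 2) (h : 0 < s ∨ 0 < x) :
    he ((x : ℂ) + s * I) = hh ((x : ℂ) + s * I) := by
  rw [he_eq_log _ (by rw [pt_re]; linarith) (by rw [pt_re]; linarith)]
  · rfl
  · unfold fdom
    rw [pt_re, pt_im]
    rcases h with h | h
    · left; exact h.ne'
    · right; constructor <;> linarith

theorem he_b {x s : ℝ} (x0 : 0 ≤ x) (x1 : x ≤ 1 / 2) (h : 0 < s) :
    he ((x : ℂ) - s * I) = (starRingEnd ℂ) (hh ((x : ℂ) + s * I)) := by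
  rw [← he_a x0 x1 (Or.inl h), ← he_conj (by rw [pt_im]; exact h), conj_pt]

theorem he_d {x s : ℝ} (x0 : 0 < x) (x1 : x ≤ 1 / 2) :
    he (((1 - x : ℝ) : ℂ) - s * I) = hh ((x : ℂ) + s * I) := by
  rw [show (((1 - x : ℝ) : ℂ) - s * I) = 1 - ((x : ℂ) + s * I) by push_cast; ring,
    he_eq_hh (by rw [sub_re, pt_re, one_re]; linarith) (by rw [sub_re, pt_re, one_re]; linarith),
    Pot_hh_reflect]

theorem he_c {x s : ℝ} (x0 : 0 < x) (x1 : x ≤ 1 / 2) (h : 0 < s) :
    he (((1 - x : ℝ) : ℂ) + s * I) = (starRingEnd ℂ) (hh ((x : ℂ) + s * I)) := by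
  have e : ((1 - x : ℝ) : ℂ) + s * I = 1 - ((x : ℂ) - s * I) := by push_cast; ring
  rw [← he_b x0.le x1 h, e,
    he_eq_hh (by rw [sub_re, ← conj_pt, conj_re, pt_re, one_re]; linarith)
      (by rw [sub_re, ← conj_pt, conj_re, pt_re, one_re]; linarith),
    Pot_hh_reflect,
    he_eq_hh (by rw [← conj_pt, conj_re, pt_re]; linarith)
      (by rw [← conj_pt, conj_re, pt_re]; linarith)]

theorem hh_im_pos {x s : ℝ} (x0 : 0 < x) (x1 : x < 1 / 2) (h : 0 < s) :
    0 < (hh ((x : ℂ) + s * I)).im ∧ (hh ((x : ℂ) + s * I)).im ≤ Real.pi := by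
  have hpi := Real.pi_pos
  have h1 := sin_pi_im ((x : ℂ) + s * I)
  rw [pt_re, pt_im] at h1
  have h2 : 0 < (2 * sin (Real.pi * ((x : ℂ) + s * I))).im := by
    rw [h1]
    have h3 : 0 < Real.cos (Real.pi * x) := by
      apply Real.cos_pos_of_mem_Ioo
      constructor <;> nlinarith
    have h4 : 0 < Real.sinh (Real.pi * s) := Real.sinh_pos_iff.2 (mul_pos hpi h)
    positivity
  unfold hh
  rw [log_im]
  refine ⟨lt_of_le_of_ne (arg_nonneg_iff.2 h2.le) ?_, arg_le_pi _⟩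
  intro h3
  have := (arg_eq_zero_iff.1 h3.symm).2
  linarith

theorem exp_hh' {x s : ℝ} (x0 : 0 < x) (x1 : x < 1 / 2) (h : 0 < s) :
    exp (hh ((x : ℂ) + s * I)) = 2 * sin (Real.pi * ((x : ℂ) + s * I)) := by
  rw [← he_a x0.le x1.le (Or.inl h)]
  exact exp_he (Or.inl (by rw [pt_im]; exact h.ne'))

theorem he_e {x s : ℝ} (x0 : 0 < x) (x1 : x < 1 / 2) (h : 0 < s) :
    he (-(x : ℂ) + s * I) = (starRingEnd ℂ) (hh ((x : ℂ) + s * I)) + Real.pi * I := by
  have e1 : -(x : ℂ) + s * I = ((-x : ℝ) : ℂ) + s * I := by push_cast; ring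
  have hb := hh_im_pos x0 x1 h
  rw [e1, he_eq_log (Or.inl (by rw [pt_im]; exact h.ne')) (by rw [pt_re]; linarith)
    (by rw [pt_re]; linarith)]
  symm
  apply eq_log_of
  · rw [exp_add, exp_pi_mul_I, exp_conj, exp_hh' x0 x1 h, map_mul, ← sin_conj, map_mul,
      conj_ofReal, conj_pt, Complex.conj_ofNat,
      show (Real.pi : ℂ) * (((-x : ℝ) : ℂ) + s * I) = -(Real.pi * ((x : ℂ) - s * I)) by
        push_cast; ring, sin_neg]
    ring
  · rw [add_im, conj_im, im_ofReal_mul, I_im]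
    linarith [Real.pi_pos]
  · rw [add_im, conj_im, im_ofReal_mul, I_im]
    linarith [Real.pi_pos]

theorem he_f {x s : ℝ} (x0 : 0 < x) (x1 : x < 1 / 2) (h : 0 < s) :
    he (-(x : ℂ) - s * I) = hh ((x : ℂ) + s * I) - Real.pi * I := by
  have e1 : -(x : ℂ) - s * I = ((-x : ℝ) : ℂ) + ((-s : ℝ) : ℂ) * I := by push_cast; ring
  have hb := hh_im_pos x0 x1 h
  rw [e1, he_eq_log (Or.inl (by rw [pt_im]; linarith)) (by rw [pt_re]; linarith)
    (by rw [pt_re]; linarith)]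
  symm
  apply eq_log_of
  · rw [exp_sub, exp_pi_mul_I, exp_hh' x0 x1 h,
      show (Real.pi : ℂ) * (((-x : ℝ) : ℂ) + ((-s : ℝ) : ℂ) * I) =
        -(Real.pi * ((x : ℂ) + s * I)) by push_cast; ring, sin_neg]
    ring
  · rw [sub_im, im_ofReal_mul, I_im]
    linarith [Real.pi_pos]
  · rw [sub_im, im_ofReal_mul, I_im]
    linarith [Real.pi_pos]

/-! ### Soundness -/

/-- The values at `w`. -/
structure AvOK (w : ℂ) (l t1 t2 eL c1 c2 d1 d2 eC : ℕ) : Prop where
  l : |UU * (he w).re - ((l : ℝ) - KK)| ≤ eL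
  t : |UU * (he w).im - ((t1 : ℝ) - t2)| ≤ (eL : ℝ) + 1
  c : |UU * (ct w).re - ((c1 : ℝ) - c2)| ≤ (eC : ℝ) + 1
  d : |UU * (ct w).im - ((d1 : ℝ) - d2)| ≤ (eC : ℝ) + 1

theorem KK_nat : ((4503599627370496 : ℕ) : ℝ) = KK := by norm_num [KK]

theorem Lg_hh (x s : ℝ) : Lg s x = (hh ((x : ℂ) + s * I)).re := by
  unfold Lg hh
  rw [log_re]

theorem pi_U : |UU * Real.pi - 884279719003555| ≤ 1 := by
  have h1 := Real.pi_gt_d20
  have h2 := Real.pi_lt_d20
  rw [abs_le]
  unfold UU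
  constructor <;> linarith

/-- The base case. -/
theorem av_a {w : ℂ} {x s : ℝ} {l t eL cr ci eC : ℕ} (h : LtOK x s l t eL cr ci eC)
    (h1 : he w = hh ((x : ℂ) + s * I)) (h2 : ct w = ct ((x : ℂ) + s * I)) :
    AvOK w l t 4503599627370496 eL cr 4503599627370496 4503599627370496 ci eC := by
  obtain ⟨a1, a2, a3, a4⟩ := h
  rw [Lg_hh] at a1
  rw [← ct_eq] at a3 a4
  rw [← h1] at a1 a2
  rw [← h2] at a3 a4
  have a1 := abs_le.1 a1
  have a2 := abs_le.1 a2
  have a3 := abs_le.1 a3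
  have a4 := abs_le.1 a4
  constructor <;> rw [abs_le] <;> (try rw [KK_nat]) <;> constructor <;> linarith

/-- The conjugate. -/
theorem av_b {w : ℂ} {x s : ℝ} {l t eL cr ci eC : ℕ} (h : LtOK x s l t eL cr ci eC)
    (h1 : he w = (starRingEnd ℂ) (hh ((x : ℂ) + s * I)))
    (h2 : ct w = (starRingEnd ℂ) (ct ((x : ℂ) + s * I))) :
    AvOK w l 4503599627370496 t eL cr 4503599627370496 ci 4503599627370496 eC := by
  obtain ⟨a1, a2, a3, a4⟩ := h
  rw [Lg_hh] at a1
  rw [← ct_eq] at a3 a4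
  have e1 : (he w).re = (hh ((x : ℂ) + s * I)).re := by rw [h1, conj_re]
  have e2 : (he w).im = -(hh ((x : ℂ) + s * I)).im := by rw [h1, conj_im]
  have e3 : (ct w).re = (ct ((x : ℂ) + s * I)).re := by rw [h2, conj_re]
  have e4 : (ct w).im = -(ct ((x : ℂ) + s * I)).im := by rw [h2, conj_im]
  have a1 := abs_le.1 a1
  have a2 := abs_le.1 a2
  have a3 := abs_le.1 a3
  have a4 := abs_le.1 a4
  constructor <;> rw [abs_le] <;> (try rw [KK_nat]) <;> (try rw [e1]) <;> (try rw [e2]) <;>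
    (try rw [e3]) <;> (try rw [e4]) <;> constructor <;> linarith

/-- The conjugate, reflected. -/
theorem av_c {w : ℂ} {x s : ℝ} {l t eL cr ci eC : ℕ} (h : LtOK x s l t eL cr ci eC)
    (h1 : he w = (starRingEnd ℂ) (hh ((x : ℂ) + s * I)))
    (h2 : ct w = -(starRingEnd ℂ) (ct ((x : ℂ) + s * I))) :
    AvOK w l 4503599627370496 t eL 4503599627370496 cr 4503599627370496 ci eC := by
  obtain ⟨a1, a2, a3, a4⟩ := h
  rw [Lg_hh] at a1
  rw [← ct_eq] at a3 a4
  have e1 : (he w).re = (hh ((x : ℂ) + s * I)).re := by rw [h1, conj_re]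
  have e2 : (he w).im = -(hh ((x : ℂ) + s * I)).im := by rw [h1, conj_im]
  have e3 : (ct w).re = -(ct ((x : ℂ) + s * I)).re := by rw [h2, neg_re, conj_re]
  have e4 : (ct w).im = (ct ((x : ℂ) + s * I)).im := by rw [h2, neg_im, conj_im, neg_neg]
  have a1 := abs_le.1 a1
  have a2 := abs_le.1 a2
  have a3 := abs_le.1 a3
  have a4 := abs_le.1 a4
  constructor <;> rw [abs_le] <;> (try rw [KK_nat]) <;> (try rw [e1]) <;> (try rw [e2]) <;>
    (try rw [e3]) <;> (try rw [e4]) <;> constructor <;> linarith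

/-- Reflected. -/
theorem av_d {w : ℂ} {x s : ℝ} {l t eL cr ci eC : ℕ} (h : LtOK x s l t eL cr ci eC)
    (h1 : he w = hh ((x : ℂ) + s * I)) (h2 : ct w = -ct ((x : ℂ) + s * I)) :
    AvOK w l t 4503599627370496 eL 4503599627370496 cr ci 4503599627370496 eC := by
  obtain ⟨a1, a2, a3, a4⟩ := h
  rw [Lg_hh] at a1
  rw [← ct_eq] at a3 a4
  rw [← h1] at a1 a2
  have e3 : (ct w).re = -(ct ((x : ℂ) + s * I)).re := by rw [h2, neg_re]
  have e4 : (ct w).im = -(ct ((x : ℂ) + s * I)).im := by rw [h2, neg_im]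
  have a1 := abs_le.1 a1
  have a2 := abs_le.1 a2
  have a3 := abs_le.1 a3
  have a4 := abs_le.1 a4
  constructor <;> rw [abs_le] <;> (try rw [KK_nat]) <;>
    (try rw [e3]) <;> (try rw [e4]) <;> constructor <;> linarith

/-- Negative real part, positive imaginary part. -/
theorem av_e {w : ℂ} {x s : ℝ} {l t eL cr ci eC : ℕ} (h : LtOK x s l t eL cr ci eC)
    (h1 : he w = (starRingEnd ℂ) (hh ((x : ℂ) + s * I)) + Real.pi * I)
    (h2 : ct w = -(starRingEnd ℂ) (ct ((x : ℂ) + s * I))) :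
    AvOK w l 5387879346374051 t eL 4503599627370496 cr 4503599627370496 ci eC := by
  obtain ⟨a1, a2, a3, a4⟩ := h
  rw [Lg_hh] at a1
  rw [← ct_eq] at a3 a4
  have e1 : (he w).re = (hh ((x : ℂ) + s * I)).re := by
    rw [h1, add_re, conj_re, re_ofReal_mul, I_re]; ring
  have e2 : (he w).im = Real.pi - (hh ((x : ℂ) + s * I)).im := by
    rw [h1, add_im, conj_im, im_ofReal_mul, I_im]; ring
  have e3 : (ct w).re = -(ct ((x : ℂ) + s * I)).re := by rw [h2, neg_re, conj_re]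
  have e4 : (ct w).im = (ct ((x : ℂ) + s * I)).im := by rw [h2, neg_im, conj_im, neg_neg]
  have a1 := abs_le.1 a1
  have a2 := abs_le.1 a2
  have a3 := abs_le.1 a3
  have a4 := abs_le.1 a4
  have hp := abs_le.1 pi_U
  have e5 : ((5387879346374051 : ℕ) : ℝ) = KK + 884279719003555 := by norm_num [KK]
  constructor <;> rw [abs_le] <;> (try rw [KK_nat]) <;> (try rw [e1]) <;> (try rw [e2, e5]) <;>
    (try rw [e3]) <;> (try rw [e4]) <;> constructor <;> linarith

/-- Negative real part, negative imaginary part. -/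
theorem av_f {w : ℂ} {x s : ℝ} {l t eL cr ci eC : ℕ} (h : LtOK x s l t eL cr ci eC)
    (h1 : he w = hh ((x : ℂ) + s * I) - Real.pi * I) (h2 : ct w = -ct ((x : ℂ) + s * I)) :
    AvOK w l t 5387879346374051 eL 4503599627370496 cr ci 4503599627370496 eC := by
  obtain ⟨a1, a2, a3, a4⟩ := h
  rw [Lg_hh] at a1
  rw [← ct_eq] at a3 a4
  have e1 : (he w).re = (hh ((x : ℂ) + s * I)).re := by
    rw [h1, sub_re, re_ofReal_mul, I_re]; ring
  have e2 : (he w).im = (hh ((x : ℂ) + s * I)).im - Real.pi := by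
    rw [h1, sub_im, im_ofReal_mul, I_im]; ring
  have e3 : (ct w).re = -(ct ((x : ℂ) + s * I)).re := by rw [h2, neg_re]
  have e4 : (ct w).im = -(ct ((x : ℂ) + s * I)).im := by rw [h2, neg_im]
  have a1 := abs_le.1 a1
  have a2 := abs_le.1 a2
  have a3 := abs_le.1 a3
  have a4 := abs_le.1 a4
  have hp := abs_le.1 pi_U
  have e5 : ((5387879346374051 : ℕ) : ℝ) = KK + 884279719003555 := by norm_num [KK]
  constructor <;> rw [abs_le] <;> (try rw [KK_nat]) <;> (try rw [e1]) <;> (try rw [e2, e5]) <;>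
    (try rw [e3]) <;> (try rw [e4]) <;> constructor <;> linarith

/-- The point of `atK`. -/
noncomputable def ptw (xp xn sp sn D : ℕ) : ℂ :=
  ((((xp : ℝ) - xn) / D : ℝ) : ℂ) + ((((sp : ℝ) - sn) / D : ℝ) : ℂ) * I

theorem ltK_sound' {X S D : ℕ} {k : ℕ → ℕ → ℕ → ℕ → ℕ → ℕ → Bool} (h : ltK X S D k = true) :
    1 ≤ D ∧ 2 * X ≤ D ∧ 2 * S ≤ D ∧ ∃ l t eL cr ci eC : ℕ,
      LtOK ((X : ℝ) / D) ((S : ℝ) / D) l t eL cr ci eC ∧ k l t eL cr ci eC = true := by
  have h' := h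
  unfold ltK at h'
  obtain ⟨hD, hX, hS, -⟩ := bsK_sound h'
  exact ⟨hD, hX, hS, ltK_sound h⟩

theorem ptw_eq {xp xn sp sn D : ℕ} {w : ℂ} {x s : ℝ} (hD : 1 ≤ D)
    (hx : (xp : ℝ) - xn = x * D) (hs : (sp : ℝ) - sn = s * D)
    (hw : w = (x : ℂ) + s * I) : ptw xp xn sp sn D = w := by
  have hD' : (D : ℝ) ≠ 0 := by
    have : (0 : ℝ) < D := by exact_mod_cast hD
    exact this.ne'
  unfold ptw
  rw [hx, hs, mul_div_cancel_right₀ _ hD', mul_div_cancel_right₀ _ hD', hw]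

theorem atK_sound {xp xn sp sn D : ℕ}
    {k : ℕ → ℕ → ℕ → ℕ → ℕ → ℕ → ℕ → ℕ → ℕ → Bool} (h : atK xp xn sp sn D k = true) :
    ∃ l t1 t2 eL c1 c2 d1 d2 eC : ℕ, AvOK (ptw xp xn sp sn D) l t1 t2 eL c1 c2 d1 d2 eC ∧
      k l t1 t2 eL c1 c2 d1 d2 eC = true := by
  unfold atK at h
  simp only [fN_eq, Bool.cond_eq_ite, Nat.ble_eq, sub_eq', mul_eq', add_eq', Nat.succ_eq_add_one]
    at h
  split_ifs at h with b1 b2 b3 b4 b4 b5 b6 b7 b7 b8 b9 b10 b10
  · obtain ⟨hD, hX, hS, l, t, eL, cr, ci, eC, h1, h2⟩ := ltK_sound' h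
    have hD' : (0 : ℝ) < D := by exact_mod_cast hD
    have x0 : (0 : ℝ) ≤ ((xp - xn : ℕ) : ℝ) / D := by positivity
    have s0 : (0 : ℝ) ≤ ((sp - sn : ℕ) : ℝ) / D := by positivity
    have x1 : ((xp - xn : ℕ) : ℝ) / D ≤ 1 / 2 := by
      rw [div_le_iff₀ hD']
      have : 2 * ((xp - xn : ℕ) : ℝ) ≤ D := by exact_mod_cast hX
      linarith
    have e : ptw xp xn sp sn D = ((((xp - xn : ℕ) : ℝ) / D : ℝ) : ℂ) +
        ((((sp - sn : ℕ) : ℝ) / D : ℝ) : ℂ) * I := by
      apply ptw_eq hD _ _ rfl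
      · rw [div_mul_cancel₀ _ hD'.ne', Nat.cast_sub b1]
      · rw [div_mul_cancel₀ _ hD'.ne', Nat.cast_sub b3]
    refine ⟨_, _, _, _, _, _, _, _, _, av_a h1 ?_ ?_, h2⟩
    · rw [e]
      apply he_a x0 x1
      rcases Nat.eq_zero_or_pos (sp - sn) with h3 | h3
      · right
        apply div_pos _ hD'
        have : 0 < xp - xn := by omega
        exact_mod_cast this
      · left
        apply div_pos _ hD'
        exact_mod_cast h3
    · rw [e]
  · obtain ⟨hD, hX, hS, l, t, eL, cr, ci, eC, h1, h2⟩ := ltK_sound' h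
    have hD' : (0 : ℝ) < D := by exact_mod_cast hD
    have x0 : (0 : ℝ) ≤ ((xp - xn : ℕ) : ℝ) / D := by positivity
    have s0 : (0 : ℝ) < ((sn - sp : ℕ) : ℝ) / D := by
      apply div_pos _ hD'
      have : 0 < sn - sp := by omega
      exact_mod_cast this
    have x1 : ((xp - xn : ℕ) : ℝ) / D ≤ 1 / 2 := by
      rw [div_le_iff₀ hD']
      have : 2 * ((xp - xn : ℕ) : ℝ) ≤ D := by exact_mod_cast hX
      linarith
    have e : ptw xp xn sp sn D = ((((xp - xn : ℕ) : ℝ) / D : ℝ) : ℂ) -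
        ((((sn - sp : ℕ) : ℝ) / D : ℝ) : ℂ) * I := by
      apply ptw_eq hD (x := ((xp - xn : ℕ) : ℝ) / D) (s := -(((sn - sp : ℕ) : ℝ) / D))
      · rw [div_mul_cancel₀ _ hD'.ne', Nat.cast_sub b1]
      · rw [neg_mul, div_mul_cancel₀ _ hD'.ne', Nat.cast_sub (by omega : sp ≤ sn)]
        ring
      · push_cast
        ring
    refine ⟨_, _, _, _, _, _, _, _, _, av_b h1 ?_ ?_, h2⟩
    · rw [e]
      exact he_b x0 x1 s0
    · rw [e, ← ct_conj, conj_pt]
  · obtain ⟨hD, hX, hS, l, t, eL, cr, ci, eC, h1, h2⟩ := ltK_sound' h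
    have hD' : (0 : ℝ) < D := by exact_mod_cast hD
    have x0 : (0 : ℝ) < ((D - (xp - xn) : ℕ) : ℝ) / D := by
      apply div_pos _ hD'
      have : 0 < D - (xp - xn) := by omega
      exact_mod_cast this
    have s0 : (0 : ℝ) < ((sp - sn : ℕ) : ℝ) / D := by
      apply div_pos _ hD'
      have : 0 < sp - sn := by omega
      exact_mod_cast this
    have x1 : ((D - (xp - xn) : ℕ) : ℝ) / D ≤ 1 / 2 := by
      rw [div_le_iff₀ hD']
      have : 2 * ((D - (xp - xn) : ℕ) : ℝ) ≤ D := by exact_mod_cast hX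
      linarith
    have e : ptw xp xn sp sn D = ((1 - ((D - (xp - xn) : ℕ) : ℝ) / D : ℝ) : ℂ) +
        ((((sp - sn : ℕ) : ℝ) / D : ℝ) : ℂ) * I := by
      apply ptw_eq hD _ _ rfl
      · rw [sub_mul, div_mul_cancel₀ _ hD'.ne', Nat.cast_sub (by omega : xp - xn ≤ D),
          Nat.cast_sub b1]
        ring
      · rw [div_mul_cancel₀ _ hD'.ne', Nat.cast_sub (by omega : sn ≤ sp)]
    refine ⟨_, _, _, _, _, _, _, _, _, av_c h1 ?_ ?_, h2⟩
    · rw [e]
      exact he_c x0 x1 s0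
    · rw [e, ← ct_conj, conj_pt, ← ct_one_sub]
      congr 1
      push_cast
      ring
  · obtain ⟨hD, hX, hS, l, t, eL, cr, ci, eC, h1, h2⟩ := ltK_sound' h
    have hD' : (0 : ℝ) < D := by exact_mod_cast hD
    have x0 : (0 : ℝ) < ((D - (xp - xn) : ℕ) : ℝ) / D := by
      apply div_pos _ hD'
      have : 0 < D - (xp - xn) := by omega
      exact_mod_cast this
    have x1 : ((D - (xp - xn) : ℕ) : ℝ) / D ≤ 1 / 2 := by
      rw [div_le_iff₀ hD']
      have : 2 * ((D - (xp - xn) : ℕ) : ℝ) ≤ D := by exact_mod_cast hX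
      linarith
    have e : ptw xp xn sp sn D = ((1 - ((D - (xp - xn) : ℕ) : ℝ) / D : ℝ) : ℂ) -
        ((((sn - sp : ℕ) : ℝ) / D : ℝ) : ℂ) * I := by
      apply ptw_eq hD (x := 1 - ((D - (xp - xn) : ℕ) : ℝ) / D) (s := -(((sn - sp : ℕ) : ℝ) / D))
      · rw [sub_mul, div_mul_cancel₀ _ hD'.ne', Nat.cast_sub (by omega : xp - xn ≤ D),
          Nat.cast_sub b1]
        ring
      · rw [neg_mul, div_mul_cancel₀ _ hD'.ne', Nat.cast_sub (by omega : sp ≤ sn)]
        ring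
      · push_cast
        ring
    refine ⟨_, _, _, _, _, _, _, _, _, av_d h1 ?_ ?_, h2⟩
    · rw [e]
      exact he_d x0 x1
    · rw [e, ← ct_one_sub]
      congr 1
      push_cast
      ring
  · obtain ⟨hD, hX, hS, l, t, eL, cr, ci, eC, h1, h2⟩ := ltK_sound' h
    have hD' : (0 : ℝ) < D := by exact_mod_cast hD
    have x0 : (0 : ℝ) < ((xn - xp : ℕ) : ℝ) / D := by
      apply div_pos _ hD'
      have : 0 < xn - xp := by omega
      exact_mod_cast this
    have s0 : (0 : ℝ) < ((sp - sn : ℕ) : ℝ) / D := by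
      apply div_pos _ hD'
      have : 0 < sp - sn := by omega
      exact_mod_cast this
    have x1 : ((xn - xp : ℕ) : ℝ) / D < 1 / 2 := by
      rw [div_lt_iff₀ hD']
      have : 2 * ((xn - xp : ℕ) : ℝ) + 1 ≤ D := by exact_mod_cast b8
      linarith
    have e : ptw xp xn sp sn D = -((((xn - xp : ℕ) : ℝ) / D : ℝ) : ℂ) +
        ((((sp - sn : ℕ) : ℝ) / D : ℝ) : ℂ) * I := by
      apply ptw_eq hD (x := -(((xn - xp : ℕ) : ℝ) / D)) (s := ((sp - sn : ℕ) : ℝ) / D)
      · rw [neg_mul, div_mul_cancel₀ _ hD'.ne', Nat.cast_sub (by omega : xp ≤ xn)]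
        ring
      · rw [div_mul_cancel₀ _ hD'.ne', Nat.cast_sub (by omega : sn ≤ sp)]
      · push_cast
        ring
    refine ⟨_, _, _, _, _, _, _, _, _, av_e h1 ?_ ?_, h2⟩
    · rw [e]
      exact he_e x0 x1 s0
    · rw [e, ← ct_conj, conj_pt, ← ct_neg]
      congr 1
      ring
  · obtain ⟨hD, hX, hS, l, t, eL, cr, ci, eC, h1, h2⟩ := ltK_sound' h
    have hD' : (0 : ℝ) < D := by exact_mod_cast hD
    have x0 : (0 : ℝ) < ((xn - xp : ℕ) : ℝ) / D := by
      apply div_pos _ hD'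
      have : 0 < xn - xp := by omega
      exact_mod_cast this
    have s0 : (0 : ℝ) < ((sn - sp : ℕ) : ℝ) / D := by
      apply div_pos _ hD'
      have : 0 < sn - sp := by omega
      exact_mod_cast this
    have x1 : ((xn - xp : ℕ) : ℝ) / D < 1 / 2 := by
      rw [div_lt_iff₀ hD']
      have : 2 * ((xn - xp : ℕ) : ℝ) + 1 ≤ D := by exact_mod_cast b8
      linarith
    have e : ptw xp xn sp sn D = -((((xn - xp : ℕ) : ℝ) / D : ℝ) : ℂ) -
        ((((sn - sp : ℕ) : ℝ) / D : ℝ) : ℂ) * I := by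
      apply ptw_eq hD (x := -(((xn - xp : ℕ) : ℝ) / D)) (s := -(((sn - sp : ℕ) : ℝ) / D))
      · rw [neg_mul, div_mul_cancel₀ _ hD'.ne', Nat.cast_sub (by omega : xp ≤ xn)]
        ring
      · rw [neg_mul, div_mul_cancel₀ _ hD'.ne', Nat.cast_sub (by omega : sp ≤ sn)]
        ring
      · push_cast
        ring
    refine ⟨_, _, _, _, _, _, _, _, _, av_f h1 ?_ ?_, h2⟩
    · rw [e]
      exact he_f x0 x1 s0
    · rw [e, ← ct_neg]
      congr 1
      ring

end Pool.Agent.S5.K3
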