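import Pool.Agent.H25.RK.DGI
import Pool.Agent.H63.GO.MTaylor
import Pool.Agent.H63.VC.Asym
import Pool.Agent.H63.VC.EndB
import Pool.Agent.H63.VC.Riem
import Pool.Agent.H63.VC.SlowL
import Pool.Agent.H63.VC.SlowU
import Pool.Agent.H63.VC3.CritB
import Pool.Agent.H63.VC3.Upper
import Pool.Agent.H63.VC4.GaussN
import Pool.Agent.H63.VC4.KBN
import Pool.Agent.H63.VC4.LaplaceN
import Pool.Agent.H63.VC4.UpperN
import Pool.Agent.H63.VC5.Defs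
import Pool.Agent.H63.VC6.LocU
import Pool.Agent.H63.VC6.SlotU
import Pool.Agent.H63.VC7.Link
import Pool.Agent.S3.Asm.Def
import Pool.Agent.S3.Chain
import Pool.Agent.S3.Pot

/-!
# A node with three half twists in the coordinates of its two slots: definitions

`P`, `R` are `-i / π` times the two slots, `ζ = (1 - P - R) / 3`.
-/

set_option autoImplicit false

namespace Pool.Agent.S5.K3

open Complex Pool.Agent.H63.VC3 Pool.Agent.S3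

/-- The domain of the parameters. -/
structure Dm (P R : ℂ) : Prop where
  p0 : -(1 / 10) < P.re
  p1 : P.im < 0
  p2 : 0 < 3 * P.re - 4 * P.im
  p3 : P.re < 1 / 2
  r0 : -(1 / 10) < R.re
  r1 : R.im < 0
  r2 : 0 < 3 * R.re - 4 * R.im
  r3 : R.re < 1 / 2
  s : P.re + R.re ≤ 1 / 2

/-- The variable of the node. -/
noncomputable def zt (P R : ℂ) : ℂ := (1 - P - R) / 3

/-- The rotated real part. -/
def rt (w : ℂ) : ℝ := 3 * w.re + 4 * w.im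

/-- The eight arguments of `he`. -/
noncomputable def wt (P R : ℂ) : Fin 8 → ℂ :=
  ![P, R, zt P R, 1 / 2 - zt P R, P + zt P R, zt P R - P, R + zt P R, zt P R - R]

/-- Their derivatives with respect to `P`. -/
noncomputable def da : Fin 8 → ℝ := ![1, 0, -1 / 3, 1 / 3, 2 / 3, -4 / 3, -1 / 3, -1 / 3]

/-- Their derivatives with respect to `R`. -/
noncomputable def db : Fin 8 → ℝ := ![0, 1, -1 / 3, 1 / 3, -1 / 3, -1 / 3, 2 / 3, -4 / 3]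

/-- Upper bounds of `√(da ^ 2 + db ^ 2)`. -/
noncomputable def tau : Fin 8 → ℝ := ![1, 1, 4715 / 10000, 4715 / 10000, 7454 / 10000,
  13744 / 10000, 7454 / 10000, 13744 / 10000]

/-- Linear forms in the eight values. -/
noncomputable def lf (N : Fin 8 → ℂ) (P R : ℂ) : ℂ := ∑ k, N k * he (wt P R k)

/-- `log b_y - π i / 2`. -/
def nU : Fin 8 → ℂ := ![1, 0, -1, 1, 0, 0, 0, 0]

/-- `log b_b - π i / 2`. -/
def nV : Fin 8 → ℂ := ![0, 1, -1, 1, 0, 0, 0, 0]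

/-- `λ_y - π i`. -/
def nLy : Fin 8 → ℂ := ![2, 0, -2, 0, 0, 0, 0, 0]

/-- `λ_b - π i`. -/
def nLb : Fin 8 → ℂ := ![0, 2, -2, 0, 0, 0, 0, 0]

/-- `2 π i y* - π i`. -/
def nY : Fin 8 → ℂ := ![0, 0, 0, 0, 1, -1, 0, 0]

/-- `2 π i z*`. -/
def nZ : Fin 8 → ℂ := ![0, 1, 0, 0, -1, 0, 0, 0]

/-- `2 π i b* - π i`. -/
def nB : Fin 8 → ℂ := ![0, 0, 0, 0, 0, 0, 1, -1]

/-- `log κ + log 2`. -/
def nK : Fin 8 → ℂ := ![0, 0, 0, 1, 0, 0, 0, 0]

/-- The conditions on the base point `(P0, R0)`, the radius `ρ` and the numbers `q k`. -/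
structure Bp (P0 R0 : ℂ) (ρ : ℝ) (q : Fin 8 → ℝ) : Prop where
  dm : Dm P0 R0
  ρ0 : 0 < ρ
  σ : ∀ k, Real.pi * tau k * ρ ≤ 1 / 2
  q0 : ∀ k, 0 < q k
  q1 : ∀ k, q k ≤ 1 - 13 / 25 * (Real.pi * tau k * ρ) ^ 2 -
    21 / 20 * (‖ct (wt P0 R0 k)‖ * tau k * ρ)

/-- The second order constants. -/
noncomputable def mm (P0 R0 : ℂ) (q : Fin 8 → ℝ) (k : Fin 8) : ℝ :=
  53 / 100 * (‖ct (wt P0 R0 k) ^ 2 + (Real.pi : ℂ) ^ 2‖ / q k) * tau k ^ 2

/-- The condition of the localisation. -/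
structure Lc (P0 R0 : ℂ) (ρ m : ℝ) (q : Fin 8 → ℝ) : Prop where
  m0 : 0 < m
  mP : m ≤ rt (ct P0) - 21 / 4 * (‖ct P0 ^ 2 + (Real.pi : ℂ) ^ 2‖ / q 0) * ρ
  mR : m ≤ rt (ct R0) - 21 / 4 * (‖ct R0 ^ 2 + (Real.pi : ℂ) ^ 2‖ / q 1) * ρ

end Pool.Agent.S5.K3
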