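import Pool.Agent.S5.K3.At
import Pool.Agent.S5.K3.Def

/-!
# The base points: the program

Units: `2^-24` for the values (offset `2^32`), `2^-10` for `n1`, `n2`, `2^-16` for `ρ`, `m`.
-/

set_option autoImplicit false

namespace Pool.Agent.S5.K3

open Complex Pool.Agent.S5.Num
open Pool.Agent.H63.VC3 hiding KK
open Pool.Agent.S3 hiding UU

/-- The data of one of the eight points. -/
structure At where
  l : Nat
  t : Nat
  c : Nat
  d : Nat
  n1 : Nat
  n2 : Nat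
  T : Nat

/-- `|(p - n) - 2^24 (v - 2^32)| + e ≤ 2^24`. -/
def cmp (p n e v : Nat) : Bool :=
  cond (Nat.ble (Nat.add (Nat.add p e) 72057594037927936)
      (Nat.add n (Nat.mul 16777216 (Nat.succ v))))
    (Nat.ble (Nat.add (Nat.add n e) (Nat.mul 16777216 v)) (Nat.add p 72057594054705152)) false

/-- `10^4 Y^2 - (51323 y^2 + 6720000000 n1 y)`. -/
def qv (y n1 : Nat) : Nat :=
  Nat.sub 4294967296000000000000 (Nat.add (Nat.mul 51323 (Nat.mul y y))
    (Nat.mul 6720000000 (Nat.mul n1 y)))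

/-- The check of the bounds of a point; `y = tk * rho`. -/
def ckN (y : Nat) (a : At) : Bool :=
  cond (Nat.ble (Nat.mul 62832 y) 6553600000000)
  (fN (fun c => fN (fun d => fN (fun m1 =>
    cond (Nat.ble (Nat.add (Nat.mul (Nat.succ c) (Nat.succ c)) (Nat.mul (Nat.succ d) (Nat.succ d)))
      (Nat.mul 268435456 (Nat.mul m1 m1)))
    (fN (fun X => fN (fun Y => fN (fun Z => fN (fun Q =>
      cond (Nat.ble 1 Z) (cond (Nat.ble (Nat.add (Nat.mul X X) (Nat.mul Y Y)) (Nat.mul Z Z))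
      (cond (Nat.ble 1 Q)
      (Nat.ble (Nat.add (Nat.mul 86835200 (Nat.mul a.n2 (Nat.mul y y))) (Nat.mul 3 Q))
        (Nat.mul a.T Q)) false) false) false)
      (qv y m1))
      (Nat.sub (Nat.mul 274877906944 a.n2) (Nat.add (Nat.mul 65536 m1) 4)))
      (Nat.mul 2 (Nat.mul c d)))
      (ds' (Nat.add (Nat.mul c c) 2778046668940015) (Nat.mul d d)))
    false)
    a.n1)
    (ds' a.d 4294967296))
    (ds' a.c 4294967296)) false

/-- The check of the values at a point. -/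
def ckV (xp xn sp sn D : Nat) (a : At) : Bool :=
  atK xp xn sp sn D (fun l t1 t2 eL c1 c2 d1 d2 eC =>
    cond (cmp l 4503599627370496 eL a.l)
      (fN (fun e1 => cond (cmp t1 t2 e1 a.t)
        (fN (fun e2 => cond (cmp c1 c2 e2 a.c) (cmp d1 d2 e2 a.d) false) (Nat.succ eC))
        false) (Nat.succ eL)) false)

/-- A point. -/
def ckA (xp xn sp sn D rho tk : Nat) (a : At) : Bool :=
  cond (fN (fun y => ckN y a) (Nat.mul tk rho)) (ckV xp xn sp sn D a) false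

/-- The condition of the localisation. -/
def ckL (rho mu : Nat) (a : At) : Bool :=
  fN (fun Q => fN (fun W => cond (Nat.ble 1 Q) (cond (Nat.ble 1 W)
    (Nat.ble (Nat.mul 90194313216000000000000 (Nat.mul a.n2 rho)) (Nat.mul 16 (Nat.mul W Q)))
    false) false)
    (Nat.sub (Nat.add (Nat.mul 3 a.c) (Nat.mul 4 a.d)) (Nat.add 30064771079 (Nat.mul 256 mu))))
    (qv (Nat.mul 10000 rho) a.n1)

/-- A base point `P = (p1 - 2 E - i p2) / (2 E)`, `R = (r1 - 2 E - i r2) / (2 E)`. -/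
structure Bs where
  E : Nat
  p1 : Nat
  p2 : Nat
  r1 : Nat
  r2 : Nat
  rho : Nat
  mu : Nat
  a0 : At
  a1 : At
  a2 : At
  a3 : At
  a4 : At
  a5 : At
  a6 : At
  a7 : At

/-- The domain. -/
def ckDm (E p1 p2 r1 r2 : Nat) : Bool :=
  cond (Nat.ble 1 E) (cond (Nat.ble (Nat.succ (Nat.mul 9 E)) (Nat.mul 5 p1))
  (cond (Nat.ble (Nat.succ (Nat.mul 9 E)) (Nat.mul 5 r1)) (cond (Nat.ble 1 p2)
  (cond (Nat.ble 1 r2)
  (cond (Nat.ble (Nat.succ (Nat.mul 6 E)) (Nat.add (Nat.mul 3 p1) (Nat.mul 4 p2)))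
  (cond (Nat.ble (Nat.succ (Nat.mul 6 E)) (Nat.add (Nat.mul 3 r1) (Nat.mul 4 r2)))
  (cond (Nat.ble (Nat.succ p1) (Nat.mul 3 E)) (cond (Nat.ble (Nat.succ r1) (Nat.mul 3 E))
  (Nat.ble (Nat.add p1 r1) (Nat.mul 5 E)) false) false) false) false) false) false) false) false)
  false

/-- The check of a base point. -/
def ckB (b : Bs) : Bool :=
  fN (fun E => fN (fun p1 => fN (fun p2 => fN (fun r1 => fN (fun r2 => fN (fun rho =>
  cond (ckDm E p1 p2 r1 r2) (cond (Nat.ble 1 rho) (cond (Nat.ble 1 b.mu)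
  (cond (ckL rho b.mu b.a0) (cond (ckL rho b.mu b.a1)
  (fN (fun D =>
    cond (ckA (Nat.mul 3 p1) D 0 (Nat.mul 3 p2) D rho 10000 b.a0)
    (cond (ckA (Nat.mul 3 r1) D 0 (Nat.mul 3 r2) D rho 10000 b.a1)
    (cond (ckA D (Nat.add p1 r1) (Nat.add p2 r2) 0 D rho 4715 b.a2)
    (cond (ckA (Nat.add p1 r1) (Nat.mul 3 E) 0 (Nat.add p2 r2) D rho 4715 b.a3)
    (cond (ckA (Nat.mul 2 p1) r1 r2 (Nat.mul 2 p2) D rho 7454 b.a4)
    (cond (ckA (Nat.mul 12 E) (Nat.add (Nat.mul 4 p1) r1) (Nat.add (Nat.mul 4 p2) r2) 0 D rho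
      13744 b.a5)
    (cond (ckA (Nat.mul 2 r1) p1 p2 (Nat.mul 2 r2) D rho 7454 b.a6)
    (ckA (Nat.mul 12 E) (Nat.add (Nat.mul 4 r1) p1) (Nat.add (Nat.mul 4 r2) p2) 0 D rho
      13744 b.a7) false) false) false) false) false) false) false) (Nat.mul 6 E))
  false) false) false) false) false) b.rho) b.r2) b.r1) b.p2) b.p1) b.E

end Pool.Agent.S5.K3
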