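import Pool.Agent.S5.K3.Ba

/-!
# The base points: soundness
-/

set_option autoImplicit false

namespace Pool.Agent.S5.K3

open Complex Pool.Agent.S5.Num
open Pool.Agent.H63.VC3 hiding KK
open Pool.Agent.S3 hiding UU

/-- The number `q`, `η = τ ρ`. -/
noncomputable def qf (n1 : ℕ) (η : ℝ) : ℝ :=
  1 - 13 / 25 * (Real.pi * η) ^ 2 - 21 / 20 * ((n1 : ℝ) / 1024 * η)

/-- The values at a point. -/
structure VlOK (w : ℂ) (a : At) : Prop where
  l : |16777216 * (he w).re - ((a.l : ℝ) - 4294967296)| ≤ 1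
  t : |16777216 * (he w).im - ((a.t : ℝ) - 4294967296)| ≤ 1
  c : |16777216 * (ct w).re - ((a.c : ℝ) - 4294967296)| ≤ 1
  d : |16777216 * (ct w).im - ((a.d : ℝ) - 4294967296)| ≤ 1

/-- The bounds at a point. -/
structure NrOK (w : ℂ) (a : At) (η : ℝ) : Prop where
  n1 : ‖ct w‖ ≤ (a.n1 : ℝ) / 1024
  n2 : ‖ct w ^ 2 + (Real.pi : ℂ) ^ 2‖ ≤ (a.n2 : ℝ) / 1024
  σ : Real.pi * η ≤ 1 / 2
  q0 : 0 < qf a.n1 η
  T : 53 / 100 * (‖ct w ^ 2 + (Real.pi : ℂ) ^ 2‖ / qf a.n1 η) * η ^ 2 + 3 / 16777216 ≤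
    (a.T : ℝ) / 16777216

theorem cmp_sound {p n e v : ℕ} (h : cmp p n e v = true) {x : ℝ}
    (hx : |UU * x - ((p : ℝ) - n)| ≤ e) : |16777216 * x - ((v : ℝ) - 4294967296)| ≤ 1 := by
  unfold cmp at h
  rw [Bool.cond_eq_ite] at h
  split_ifs at h with h1
  have h1 : p + e + 72057594037927936 ≤ n + 16777216 * (v + 1) := Nat.ble_eq.mp h1
  have h2 : n + e + 16777216 * v ≤ p + 72057594054705152 := Nat.ble_eq.mp h
  have h1' : (p : ℝ) + e + 72057594037927936 ≤ n + 16777216 * (v + 1) := by exact_mod_cast h1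
  have h2' : (n : ℝ) + e + 16777216 * v ≤ p + 72057594054705152 := by exact_mod_cast h2
  have h3 := abs_le.1 hx
  unfold UU at h3
  rw [abs_le]
  constructor <;> linarith

theorem ckV_sound {xp xn sp sn D : ℕ} {a : At} (h : ckV xp xn sp sn D a = true) :
    VlOK (ptw xp xn sp sn D) a := by
  unfold ckV at h
  obtain ⟨l, t1, t2, eL, c1, c2, d1, d2, eC, hv, h⟩ := atK_sound h
  simp only [cond_true_iff] at h
  obtain ⟨h1, h2, h3, h4⟩ := h
  refine ⟨cmp_sound h1 ?_, cmp_sound h2 ?_, cmp_sound h3 ?_, cmp_sound h4 ?_⟩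
  · rw [KK_nat]
    exact hv.l
  · refine hv.t.trans (le_of_eq ?_)
    rw [Nat.succ_eq_add_one]
    push_cast
    ring
  · refine hv.c.trans (le_of_eq ?_)
    rw [Nat.succ_eq_add_one]
    push_cast
    ring
  · refine hv.d.trans (le_of_eq ?_)
    rw [Nat.succ_eq_add_one]
    push_cast
    ring

theorem ds'_cast (a b : ℕ) : ((ds' a b : ℕ) : ℝ) = |(a : ℝ) - b| := by
  have e : ds' a b = (a - b) + (b - a) := rfl
  rw [e]
  rcases le_total a b with h | h
  · rw [Nat.sub_eq_zero_of_le h, zero_add, Nat.cast_sub h, abs_of_nonpos]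
    · ring
    · have : (a : ℝ) ≤ b := by exact_mod_cast h
      linarith only [this]
  · rw [Nat.sub_eq_zero_of_le h, add_zero, Nat.cast_sub h, abs_of_nonneg]
    have : (b : ℝ) ≤ a := by exact_mod_cast h
    linarith only [this]

theorem norm_sq_ri (z : ℂ) : ‖z‖ ^ 2 = z.re ^ 2 + z.im ^ 2 := by
  rw [← normSq_eq_norm_sq, normSq_apply]
  ring

theorem norm_le_of {z : ℂ} {r : ℝ} (h : z.re ^ 2 + z.im ^ 2 ≤ r ^ 2) (hr : 0 ≤ r) :
    ‖z‖ ≤ r := by
  apply abs_le_of_sq_le_sq' _ hr |>.2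
  rw [norm_sq_ri]
  exact h

theorem qv_cast {y n1 : ℕ} (h : 1 ≤ qv y n1) : ((qv y n1 : ℕ) : ℝ) =
    4294967296000000000000 - (51323 * ((y : ℝ) * y) + 6720000000 * (n1 * y)) := by
  have e : qv y n1 = 4294967296000000000000 - (51323 * (y * y) + 6720000000 * (n1 * y)) := rfl
  have h1 : 51323 * (y * y) + 6720000000 * (n1 * y) ≤ 4294967296000000000000 := by
    by_contra h2
    rw [e] at h
    omega
  rw [e, Nat.cast_sub h1]
  push_cast
  ring

theorem qf_ge {y n1 : ℕ} (h : 1 ≤ qv y n1) {η : ℝ} (hη : (y : ℝ) = 655360000 * η) :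
    ((qv y n1 : ℕ) : ℝ) / 4294967296000000000000 ≤ qf n1 η := by
  rw [qv_cast h, hη]
  unfold qf
  have h1 := Real.pi_gt_d20
  have h2 := Real.pi_lt_d20
  have h3 : Real.pi ^ 2 ≤ 51323 * 25 / (13 * 10000) * 1 := by
    have : Real.pi ≤ 3.141592654 := by linarith only [h2]
    (refine le_of_not_gt fun hng => ?_; linarith only [h2, h1,
      mul_pos (sub_pos.2 h1) (sub_pos.2 h2), mul_pos (sub_pos.2 hng) (sub_pos.2 h2),
      mul_pos (sub_pos.2 hng) (sub_pos.2 h1)])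
  have h4 : 13 / 25 * (Real.pi * η) ^ 2 ≤ 51323 / 10000 * η ^ 2 := by
    rw [mul_pow]
    linarith only [mul_nonneg (sq_nonneg (η)) (sub_nonneg.2 h3)]
  rw [div_le_iff₀ (by norm_num)]
  linarith only [h4]

theorem ckN_sound {y : ℕ} {a : At} {w : ℂ} {η : ℝ} (hη : (y : ℝ) = 655360000 * η)
    (hv : VlOK w a) (h : ckN y a = true) : NrOK w a η := by
  unfold ckN at h
  simp only [fN_eq, cond_true_iff] at h
  obtain ⟨h1, h2, h3, h4, h5, h6⟩ := h
  have h1 : 62832 * y ≤ 6553600000000 := Nat.ble_eq.mp h1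
  have h2 := Nat.ble_eq.mp h2
  have h3 := Nat.ble_eq.mp h3
  have h4 := Nat.ble_eq.mp h4
  have h5 : 1 ≤ qv y a.n1 := Nat.ble_eq.mp h5
  have h6 := Nat.ble_eq.mp h6
  simp only [sub_eq', mul_eq', add_eq', Nat.succ_eq_add_one] at h2 h3 h4 h6
  have hπ := Real.pi_pos
  have hc := abs_le.1 hv.c
  have hd := abs_le.1 hv.d
  have ec := ds'_cast a.c 4294967296
  have ed := ds'_cast a.d 4294967296
  have c0 : (0 : ℝ) ≤ (ds' a.c 4294967296 : ℕ) := Nat.cast_nonneg _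
  have d0 : (0 : ℝ) ≤ (ds' a.d 4294967296 : ℕ) := Nat.cast_nonneg _
  have eX := ds'_cast (ds' a.c 4294967296 * ds' a.c 4294967296 + 2778046668940015)
    (ds' a.d 4294967296 * ds' a.d 4294967296)
  generalize ds' (ds' a.c 4294967296 * ds' a.c 4294967296 + 2778046668940015)
    (ds' a.d 4294967296 * ds' a.d 4294967296) = X at h4 eX
  generalize ds' a.c 4294967296 = cc at *
  generalize ds' a.d 4294967296 = dd at *
  push_cast at ec ed eX
  set m1 := a.n1 with hm1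
  have m10 : (0 : ℝ) ≤ m1 := Nat.cast_nonneg _
  have z1 : 65536 * m1 + 4 ≤ 274877906944 * a.n2 := by omega
  have h2' : ((cc : ℝ) + 1) * (cc + 1) + (dd + 1) * (dd + 1) ≤ 268435456 * (m1 * m1) := by
    exact_mod_cast h2
  have h4' : (X : ℝ) * X + (2 * (cc * dd)) * (2 * (cc * dd)) ≤
      (274877906944 * a.n2 - (65536 * m1 + 4)) * (274877906944 * a.n2 - (65536 * m1 + 4)) := by
    have e : (((274877906944 * a.n2 - (65536 * m1 + 4) : ℕ)) : ℝ) =
        274877906944 * a.n2 - (65536 * m1 + 4) := by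
      rw [Nat.cast_sub z1]
      push_cast
      ring
    have h4'' : ((X * X + (2 * (cc * dd)) * (2 * (cc * dd)) : ℕ) : ℝ) ≤
        (((274877906944 * a.n2 - (65536 * m1 + 4)) * (274877906944 * a.n2 - (65536 * m1 + 4)) : ℕ) : ℝ) := by
      exact_mod_cast h4
    rw [Nat.cast_mul, e] at h4''
    push_cast at h4''
    linarith only [h4'']
  have h6' : 86835200 * ((a.n2 : ℝ) * (y * y)) + 3 * (qv y m1 : ℕ) ≤ a.T * (qv y m1 : ℕ) := by
    exact_mod_cast h6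
  have g1 : ‖ct w‖ ≤ (m1 : ℝ) / 1024 := by
    apply norm_le_of _ (by positivity)
    have k1 : (16777216 * (ct w).re) ^ 2 ≤ ((cc : ℝ) + 1) ^ 2 := by
      apply sq_le_sq'
      · rw [ec]; linarith only [neg_abs_le ((a.c : ℝ) - 4294967296), hc.1]
      · rw [ec]; linarith only [le_abs_self ((a.c : ℝ) - 4294967296), hc.2]
    have k2 : (16777216 * (ct w).im) ^ 2 ≤ ((dd : ℝ) + 1) ^ 2 := by
      apply sq_le_sq'
      · rw [ed]; linarith only [neg_abs_le ((a.d : ℝ) - 4294967296), hd.1]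
      · rw [ed]; linarith only [le_abs_self ((a.d : ℝ) - 4294967296), hd.2]
    have k3 : ((m1 : ℝ) / 1024) ^ 2 = (268435456 * (m1 * m1)) / 281474976710656 := by ring
    rw [k3, le_div_iff₀ (by norm_num)]
    linarith only [k2, k1, h2']
  have hcc : (cc : ℝ) ^ 2 = ((a.c : ℝ) - 4294967296) ^ 2 := by rw [ec, sq_abs]
  have hdd : (dd : ℝ) ^ 2 = ((a.d : ℝ) - 4294967296) ^ 2 := by rw [ed, sq_abs]
  have g2 : ‖ct w ^ 2 + (Real.pi : ℂ) ^ 2‖ ≤ (a.n2 : ℝ) / 1024 := by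
    obtain ⟨C, hC⟩ : ∃ C : ℂ, C = ((((a.c : ℝ) - 4294967296 : ℝ)) : ℂ) +
      ((((a.d : ℝ) - 4294967296 : ℝ)) : ℂ) * I := ⟨_, rfl⟩
    have Cre : C.re = (a.c : ℝ) - 4294967296 := by rw [hC, pt_re]
    have Cim : C.im = (a.d : ℝ) - 4294967296 := by rw [hC, pt_im]
    have Z0 : (0 : ℝ) ≤ 274877906944 * a.n2 - (65536 * m1 + 4) := by
      have : (65536 * (m1 : ℝ) + 4) ≤ 274877906944 * a.n2 := by exact_mod_cast z1
      linarith only [this]
    have k1 : ‖C ^ 2 + 2778046668940015‖ ≤ 274877906944 * a.n2 - (65536 * m1 + 4) := by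
      apply norm_le_of _ Z0
      have r1 : (C ^ 2 + 2778046668940015).re = C.re ^ 2 - C.im ^ 2 + 2778046668940015 := by
        have : (2778046668940015 : ℂ).re = 2778046668940015 := rfl
        rw [add_re, this, sq, mul_re]
        ring
      have r2 : (C ^ 2 + 2778046668940015).im = 2 * (C.re * C.im) := by
        have : (2778046668940015 : ℂ).im = 0 := rfl
        rw [add_im, this, sq, mul_im]
        ring
      rw [r1, r2]
      have r3 : (X : ℝ) ^ 2 = (C.re ^ 2 - C.im ^ 2 + 2778046668940015) ^ 2 := by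
        rw [eX, sq_abs]
        congr 1
        rw [Cre, Cim, ← hcc, ← hdd]
        ring
      have r4 : (2 * ((cc : ℝ) * dd)) ^ 2 = (2 * (C.re * C.im)) ^ 2 := by
        rw [mul_pow, mul_pow, mul_pow, mul_pow, Cre, Cim, ← hcc, ← hdd]
      linarith only [r4, r3, h4']
    obtain ⟨δ, hδ⟩ : ∃ δ : ℂ, δ = 16777216 * ct w - C := ⟨_, rfl⟩
    have δn : ‖δ‖ ≤ 3 / 2 := by
      apply norm_le_of _ (by norm_num)
      have e1 : δ.re = 16777216 * (ct w).re - ((a.c : ℝ) - 4294967296) := by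
        rw [hδ, sub_re, Cre, mul_re]
        simp
      have e2 : δ.im = 16777216 * (ct w).im - ((a.d : ℝ) - 4294967296) := by
        rw [hδ, sub_im, Cim, mul_im]
        simp
      have k2 : δ.re ^ 2 ≤ 1 ^ 2 := sq_le_sq' (by rw [e1]; linarith only [hc.1]) (by rw [e1]; linarith only [hc.2])
      have k3 : δ.im ^ 2 ≤ 1 ^ 2 := sq_le_sq' (by rw [e2]; linarith only [hd.1]) (by rw [e2]; linarith only [hd.2])
      linarith only [k3, k2]
    have k2 : ‖(((281474976710656 * Real.pi ^ 2 - 2778046668940015 : ℝ)) : ℂ)‖ ≤ 1 := by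
      rw [norm_real, Real.norm_eq_abs, abs_le]
      have p1 := Real.pi_gt_d20
      have p2 := Real.pi_lt_d20
      constructor <;> nlinarith
    have k3 : (281474976710656 : ℂ) * (ct w ^ 2 + (Real.pi : ℂ) ^ 2) =
        (C ^ 2 + 2778046668940015) + δ * (2 * (16777216 * ct w) - δ) +
          (((281474976710656 * Real.pi ^ 2 - 2778046668940015 : ℝ)) : ℂ) := by
      rw [hδ]
      push_cast
      ring
    have k4 : ‖δ * (2 * (16777216 * ct w) - δ)‖ ≤ 3 / 2 * (2 * (16777216 * ((m1 : ℝ) / 1024)) + 3 / 2) := by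
      rw [norm_mul]
      apply mul_le_mul δn _ (norm_nonneg _) (by norm_num)
      refine (norm_sub_le _ _).trans ?_
      apply add_le_add _ δn
      rw [norm_mul, norm_mul]
      have e1 : ‖(2 : ℂ)‖ = 2 := by simp
      have e2 : ‖(16777216 : ℂ)‖ = 16777216 := by simp
      rw [e1, e2]
      linarith only [g1]
    have k5 : 281474976710656 * ‖ct w ^ 2 + (Real.pi : ℂ) ^ 2‖ =
        ‖(281474976710656 : ℂ) * (ct w ^ 2 + (Real.pi : ℂ) ^ 2)‖ := by
      rw [norm_mul]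
      simp
    have k6 := norm_add₃_le (a := C ^ 2 + 2778046668940015) (b := δ * (2 * (16777216 * ct w) - δ))
      (c := (((281474976710656 * Real.pi ^ 2 - 2778046668940015 : ℝ)) : ℂ))
    rw [← k3, ← k5] at k6
    rw [le_div_iff₀ (by norm_num)]
    linarith only [k6, k4, k2, k1, m10]
  have hy0 : (0 : ℝ) ≤ y := Nat.cast_nonneg _
  have hη0 : 0 ≤ η := by linarith only [hη]
  have g3 : Real.pi * η ≤ 1 / 2 := by
    have h1' : 62832 * (y : ℝ) ≤ 6553600000000 := by exact_mod_cast h1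
    have p2 := Real.pi_lt_d20
    have : Real.pi ≤ 3.1416 := by linarith only [p2]
    nlinarith
  have Q1 : (1 : ℝ) ≤ (qv y m1 : ℕ) := by exact_mod_cast h5
  have q1 := qf_ge h5 hη
  have q0 : 0 < qf m1 η := lt_of_lt_of_le (by positivity) q1
  refine ⟨g1, g2, g3, q0, ?_⟩
  have n0 := norm_nonneg (ct w ^ 2 + (Real.pi : ℂ) ^ 2)
  have k1 : ‖ct w ^ 2 + (Real.pi : ℂ) ^ 2‖ / qf m1 η ≤
      ((a.n2 : ℝ) / 1024) / (((qv y m1 : ℕ) : ℝ) / 4294967296000000000000) :=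
    div_le_div₀ (by positivity) g2 (by positivity) q1
  have k2 : 53 / 100 * (‖ct w ^ 2 + (Real.pi : ℂ) ^ 2‖ / qf m1 η) * η ^ 2 ≤
      53 / 100 * (((a.n2 : ℝ) / 1024) / (((qv y m1 : ℕ) : ℝ) / 4294967296000000000000)) * η ^ 2 := by
    apply mul_le_mul_of_nonneg_right _ (sq_nonneg η)
    linarith only [k1]
  refine le_trans (add_le_add_left k2 _) ?_
  have k3 : 53 / 100 * (((a.n2 : ℝ) / 1024) / (((qv y m1 : ℕ) : ℝ) / 4294967296000000000000)) * η ^ 2
      = (86835200 * ((a.n2 : ℝ) * (y * y))) / (16777216 * (qv y m1 : ℕ)) := by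
    have : ((qv y m1 : ℕ) : ℝ) ≠ 0 := by linarith only [Q1]
    rw [hη]
    field_simp
    ring
  have k4 : (3 : ℝ) / 16777216 = (3 * (qv y m1 : ℕ)) / (16777216 * (qv y m1 : ℕ)) := by
    have : ((qv y m1 : ℕ) : ℝ) ≠ 0 := by linarith only [Q1]
    field_simp
  have k5 : (a.T : ℝ) / 16777216 = (a.T * (qv y m1 : ℕ)) / (16777216 * (qv y m1 : ℕ)) := by
    have : ((qv y m1 : ℕ) : ℝ) ≠ 0 := by linarith only [Q1]
    field_simp
  rw [k3, k4, k5, ← add_div]
  exact div_le_div_of_nonneg_right h6' (by positivity)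

theorem ckL_sound {rho mu : ℕ} {a : At} {w : ℂ} {ρ m : ℝ} (hρ : (rho : ℝ) = 65536 * ρ)
    (hm : (mu : ℝ) = 65536 * m) (hv : VlOK w a)
    (hn : ‖ct w ^ 2 + (Real.pi : ℂ) ^ 2‖ ≤ (a.n2 : ℝ) / 1024) (h : ckL rho mu a = true) :
    m ≤ rt (ct w) - 21 / 4 * (‖ct w ^ 2 + (Real.pi : ℂ) ^ 2‖ / qf a.n1 ρ) * ρ := by
  unfold ckL at h
  simp only [fN_eq, cond_true_iff] at h
  obtain ⟨h1, h2, h3⟩ := h
  have h1 : 1 ≤ qv (10000 * rho) a.n1 := Nat.ble_eq.mp h1
  have h2 := Nat.ble_eq.mp h2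
  have h3 := Nat.ble_eq.mp h3
  simp only [sub_eq', mul_eq', add_eq'] at h2 h3
  have z1 : 30064771079 + 256 * mu ≤ 3 * a.c + 4 * a.d := by omega
  have h3' : ((90194313216000000000000 * (a.n2 * rho) : ℕ) : ℝ) ≤
      ((16 * ((3 * a.c + 4 * a.d - (30064771079 + 256 * mu)) * qv (10000 * rho) a.n1) : ℕ) : ℝ) := by
    exact_mod_cast h3
  rw [Nat.cast_mul 16, Nat.cast_mul (_ - _), Nat.cast_sub z1] at h3'
  push_cast at h3'
  have Q1 : (1 : ℝ) ≤ (qv (10000 * rho) a.n1 : ℕ) := by exact_mod_cast h1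
  have q1 := qf_ge h1 (η := ρ) (by push_cast; rw [hρ]; ring)
  have q0 : 0 < qf a.n1 ρ := lt_of_lt_of_le (by positivity) q1
  have hc := abs_le.1 hv.c
  have hd := abs_le.1 hv.d
  have k0 : (((3 * (a.c : ℝ) + 4 * a.d - (30064771079 + 256 * mu))) / 16777216) + m ≤ rt (ct w) := by
    unfold rt
    rw [hm]
    linarith only [hd.1, hc.1]
  have hρ0 : 0 ≤ ρ := by
    have : (0 : ℝ) ≤ rho := Nat.cast_nonneg _
    linarith only [hρ]
  have k1 : ‖ct w ^ 2 + (Real.pi : ℂ) ^ 2‖ / qf a.n1 ρ ≤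
      ((a.n2 : ℝ) / 1024) / (((qv (10000 * rho) a.n1 : ℕ) : ℝ) / 4294967296000000000000) :=
    div_le_div₀ (by positivity) hn (by positivity) q1
  have k2 : 21 / 4 * (‖ct w ^ 2 + (Real.pi : ℂ) ^ 2‖ / qf a.n1 ρ) * ρ ≤
      21 / 4 * (((a.n2 : ℝ) / 1024) / (((qv (10000 * rho) a.n1 : ℕ) : ℝ) /
        4294967296000000000000)) * ρ := by
    apply mul_le_mul_of_nonneg_right _ hρ0
    linarith only [k1]
  have k3 : 21 / 4 * (((a.n2 : ℝ) / 1024) / (((qv (10000 * rho) a.n1 : ℕ) : ℝ) /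
        4294967296000000000000)) * ρ =
      (90194313216000000000000 * ((a.n2 : ℝ) * rho)) /
        (268435456 * (qv (10000 * rho) a.n1 : ℕ)) := by
    have : ((qv (10000 * rho) a.n1 : ℕ) : ℝ) ≠ 0 := by linarith only [Q1]
    rw [hρ]
    field_simp
    ring
  have k4 : (90194313216000000000000 * ((a.n2 : ℝ) * rho)) /
        (268435456 * (qv (10000 * rho) a.n1 : ℕ)) ≤
      (3 * (a.c : ℝ) + 4 * a.d - (30064771079 + 256 * mu)) / 16777216 := by
    rw [div_le_div_iff₀ (by positivity) (by norm_num)]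
    linarith only [h3']
  linarith only [k4, k3, k2, k0]

/-- The base point. -/
noncomputable def Bs.P (b : Bs) : ℂ :=
  ((((b.p1 : ℝ) - 2 * b.E) / (2 * b.E) : ℝ) : ℂ) + ((-(b.p2 : ℝ) / (2 * b.E) : ℝ) : ℂ) * I

/-- The base point. -/
noncomputable def Bs.R (b : Bs) : ℂ :=
  ((((b.r1 : ℝ) - 2 * b.E) / (2 * b.E) : ℝ) : ℂ) + ((-(b.r2 : ℝ) / (2 * b.E) : ℝ) : ℂ) * I

/-- The data of the points. -/
def Bs.A (b : Bs) : Fin 8 → At := ![b.a0, b.a1, b.a2, b.a3, b.a4, b.a5, b.a6, b.a7]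

/-- The radius. -/
noncomputable def Bs.ρ (b : Bs) : ℝ := (b.rho : ℝ) / 65536

/-- The bound of the Jacobian. -/
noncomputable def Bs.m (b : Bs) : ℝ := (b.mu : ℝ) / 65536

/-- The numbers `q`. -/
noncomputable def Bs.q (b : Bs) (k : Fin 8) : ℝ := qf (b.A k).n1 (tau k * b.ρ)

/-- What is known at a base point. -/
structure BsOK (b : Bs) : Prop where
  bp : Bp b.P b.R b.ρ b.q
  lc : Lc b.P b.R b.ρ b.m b.q
  vl : ∀ k, VlOK (wt b.P b.R k) (b.A k)
  tt : ∀ k, mm b.P b.R b.q k * b.ρ ^ 2 + 3 / 16777216 ≤ ((b.A k).T : ℝ) / 16777216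

theorem ckA_sound {xp xn sp sn D rho tk : ℕ} {a : At} {w : ℂ} {τ ρ : ℝ}
    (h : ckA xp xn sp sn D rho tk a = true) (hτ : (tk : ℝ) = 10000 * τ)
    (hρ : (rho : ℝ) = 65536 * ρ) (hw : ptw xp xn sp sn D = w) :
    VlOK w a ∧ NrOK w a (τ * ρ) := by
  unfold ckA at h
  simp only [fN_eq, cond_true_iff] at h
  obtain ⟨h1, h2⟩ := h
  have h3 := ckV_sound h2
  rw [hw] at h3
  refine ⟨h3, ckN_sound ?_ h3 h1⟩
  rw [mul_eq', Nat.cast_mul, hτ, hρ]
  ring

theorem ckDm_sound {b : Bs} (h : ckDm b.E b.p1 b.p2 b.r1 b.r2 = true) :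
    1 ≤ b.E ∧ Dm b.P b.R := by
  unfold ckDm at h
  simp only [cond_true_iff, Nat.ble_eq, mul_eq', add_eq', Nat.succ_eq_add_one] at h
  obtain ⟨h0, h1, h2, h3, h4, h5, h6, h7, h8, h9⟩ := h
  have e0 : (0 : ℝ) < b.E := by exact_mod_cast h0
  have h1 : 9 * (b.E : ℝ) + 1 ≤ 5 * b.p1 := by exact_mod_cast h1
  have h2 : 9 * (b.E : ℝ) + 1 ≤ 5 * b.r1 := by exact_mod_cast h2
  have h3 : (1 : ℝ) ≤ b.p2 := by exact_mod_cast h3
  have h4 : (1 : ℝ) ≤ b.r2 := by exact_mod_cast h4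
  have h5 : 6 * (b.E : ℝ) + 1 ≤ 3 * b.p1 + 4 * b.p2 := by exact_mod_cast h5
  have h6 : 6 * (b.E : ℝ) + 1 ≤ 3 * b.r1 + 4 * b.r2 := by exact_mod_cast h6
  have h7 : (b.p1 : ℝ) + 1 ≤ 3 * b.E := by exact_mod_cast h7
  have h8 : (b.r1 : ℝ) + 1 ≤ 3 * b.E := by exact_mod_cast h8
  have h9 : (b.p1 : ℝ) + b.r1 ≤ 5 * b.E := by exact_mod_cast h9
  have f1 : b.P.re = ((b.p1 : ℝ) - 2 * b.E) / (2 * b.E) := pt_re _ _
  have f2 : b.P.im = -(b.p2 : ℝ) / (2 * b.E) := pt_im _ _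
  have f3 : b.R.re = ((b.r1 : ℝ) - 2 * b.E) / (2 * b.E) := pt_re _ _
  have f4 : b.R.im = -(b.r2 : ℝ) / (2 * b.E) := pt_im _ _
  refine ⟨h0, ?_⟩
  constructor
  · rw [f1, lt_div_iff₀ (by positivity)]; linarith only [h1]
  · rw [f2]; apply div_neg_of_neg_of_pos <;> linarith
  · rw [f1, f2, mul_div_assoc', mul_div_assoc', ← sub_div]; apply div_pos <;> linarith
  · rw [f1, div_lt_iff₀ (by positivity)]; linarith only [h7]
  · rw [f3, lt_div_iff₀ (by positivity)]; linarith only [h2]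
  · rw [f4]; apply div_neg_of_neg_of_pos <;> linarith
  · rw [f3, f4, mul_div_assoc', mul_div_assoc', ← sub_div]; apply div_pos <;> linarith
  · rw [f3, div_lt_iff₀ (by positivity)]; linarith only [h8]
  · rw [f1, f3, ← add_div, div_le_iff₀ (by positivity)]; linarith only [h9]

theorem tau_pos (k : Fin 8) : 0 < tau k := by
  fin_cases k <;> simp [tau]

theorem ckB_sound {b : Bs} (h : ckB b = true) : BsOK b := by
  unfold ckB at h
  simp only [fN_eq, cond_true_iff] at h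
  obtain ⟨h1, h2, h3, h4, h5, h6, h7, h8, h9, h10, h11, h12, h13⟩ := h
  obtain ⟨hE, hd⟩ := ckDm_sound h1
  have hρ : (b.rho : ℝ) = 65536 * b.ρ := by unfold Bs.ρ; ring
  have hm : (b.mu : ℝ) = 65536 * b.m := by unfold Bs.m; ring
  have E0 : (0 : ℝ) < b.E := by exact_mod_cast hE
  have hD : 1 ≤ 6 * b.E := by omega
  have z : zt b.P b.R = (((6 * b.E - (b.p1 + b.r1)) / (6 * b.E) : ℝ) : ℂ) +
      (((b.p2 + b.r2) / (6 * b.E) : ℝ) : ℂ) * I := by
    have : (b.E : ℂ) ≠ 0 := by exact_mod_cast E0.ne'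
    unfold zt Bs.P Bs.R
    push_cast
    field_simp
    ring
  have Ec : (b.E : ℂ) ≠ 0 := by exact_mod_cast E0.ne'
  have w0 : ptw (3 * b.p1) (6 * b.E) (0) (3 * b.p2) (6 * b.E) = wt b.P b.R 0 := by
    apply ptw_eq hD (x := (((3 * b.p1 : ℕ) : ℝ) - ((6 * b.E : ℕ) : ℝ)) / (6 * b.E))
      (s := (((0 : ℕ) : ℝ) - ((3 * b.p2 : ℕ) : ℝ)) / (6 * b.E))
    · push_cast
      field_simp
    · push_cast
      field_simp
    · change b.P = _
      unfold Bs.P
      push_cast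
      field_simp
      ring
  have w1 : ptw (3 * b.r1) (6 * b.E) (0) (3 * b.r2) (6 * b.E) = wt b.P b.R 1 := by
    apply ptw_eq hD (x := (((3 * b.r1 : ℕ) : ℝ) - ((6 * b.E : ℕ) : ℝ)) / (6 * b.E))
      (s := (((0 : ℕ) : ℝ) - ((3 * b.r2 : ℕ) : ℝ)) / (6 * b.E))
    · push_cast
      field_simp
    · push_cast
      field_simp
    · change b.R = _
      unfold Bs.R
      push_cast
      field_simp
      ring
  have w2 : ptw (6 * b.E) (b.p1 + b.r1) (b.p2 + b.r2) (0) (6 * b.E) = wt b.P b.R 2 := by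
    apply ptw_eq hD (x := (((6 * b.E : ℕ) : ℝ) - ((b.p1 + b.r1 : ℕ) : ℝ)) / (6 * b.E))
      (s := (((b.p2 + b.r2 : ℕ) : ℝ) - ((0 : ℕ) : ℝ)) / (6 * b.E))
    · push_cast
      field_simp
    · push_cast
      field_simp
    · change zt b.P b.R = _
      rw [z]
      push_cast
      field_simp
      ring
  have w3 : ptw (b.p1 + b.r1) (3 * b.E) (0) (b.p2 + b.r2) (6 * b.E) = wt b.P b.R 3 := by
    apply ptw_eq hD (x := (((b.p1 + b.r1 : ℕ) : ℝ) - ((3 * b.E : ℕ) : ℝ)) / (6 * b.E))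
      (s := (((0 : ℕ) : ℝ) - ((b.p2 + b.r2 : ℕ) : ℝ)) / (6 * b.E))
    · push_cast
      field_simp
    · push_cast
      field_simp
    · change 1 / 2 - zt b.P b.R = _
      rw [z]
      push_cast
      field_simp
      ring
  have w4 : ptw (2 * b.p1) (b.r1) (b.r2) (2 * b.p2) (6 * b.E) = wt b.P b.R 4 := by
    apply ptw_eq hD (x := (((2 * b.p1 : ℕ) : ℝ) - ((b.r1 : ℕ) : ℝ)) / (6 * b.E))
      (s := (((b.r2 : ℕ) : ℝ) - ((2 * b.p2 : ℕ) : ℝ)) / (6 * b.E))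
    · push_cast
      field_simp
    · push_cast
      field_simp
    · change b.P + zt b.P b.R = _
      rw [z]
      unfold Bs.P
      push_cast
      field_simp
      ring
  have w5 : ptw (12 * b.E) (4 * b.p1 + b.r1) (4 * b.p2 + b.r2) (0) (6 * b.E) = wt b.P b.R 5 := by
    apply ptw_eq hD (x := (((12 * b.E : ℕ) : ℝ) - ((4 * b.p1 + b.r1 : ℕ) : ℝ)) / (6 * b.E))
      (s := (((4 * b.p2 + b.r2 : ℕ) : ℝ) - ((0 : ℕ) : ℝ)) / (6 * b.E))
    · push_cast
      field_simp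
    · push_cast
      field_simp
    · change zt b.P b.R - b.P = _
      rw [z]
      unfold Bs.P
      push_cast
      field_simp
      ring
  have w6 : ptw (2 * b.r1) (b.p1) (b.p2) (2 * b.r2) (6 * b.E) = wt b.P b.R 6 := by
    apply ptw_eq hD (x := (((2 * b.r1 : ℕ) : ℝ) - ((b.p1 : ℕ) : ℝ)) / (6 * b.E))
      (s := (((b.p2 : ℕ) : ℝ) - ((2 * b.r2 : ℕ) : ℝ)) / (6 * b.E))
    · push_cast
      field_simp
    · push_cast
      field_simp
    · change b.R + zt b.P b.R = _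
      rw [z]
      unfold Bs.R
      push_cast
      field_simp
      ring
  have w7 : ptw (12 * b.E) (4 * b.r1 + b.p1) (4 * b.r2 + b.p2) (0) (6 * b.E) = wt b.P b.R 7 := by
    apply ptw_eq hD (x := (((12 * b.E : ℕ) : ℝ) - ((4 * b.r1 + b.p1 : ℕ) : ℝ)) / (6 * b.E))
      (s := (((4 * b.r2 + b.p2 : ℕ) : ℝ) - ((0 : ℕ) : ℝ)) / (6 * b.E))
    · push_cast
      field_simp
    · push_cast
      field_simp
    · change zt b.P b.R - b.R = _
      rw [z]
      unfold Bs.R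
      push_cast
      field_simp
      ring
  have t0 : ((10000 : ℕ) : ℝ) = 10000 * tau 0 := by simp [tau]
  have t1 : ((10000 : ℕ) : ℝ) = 10000 * tau 1 := by simp [tau]
  have t2 : ((4715 : ℕ) : ℝ) = 10000 * tau 2 := by simp [tau]; norm_num
  have t3 : ((4715 : ℕ) : ℝ) = 10000 * tau 3 := by simp [tau]; norm_num
  have t4 : ((7454 : ℕ) : ℝ) = 10000 * tau 4 := by simp [tau]; norm_num
  have t5 : ((13744 : ℕ) : ℝ) = 10000 * tau 5 := by simp [tau]; norm_num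
  have t6 : ((7454 : ℕ) : ℝ) = 10000 * tau 6 := by simp [tau]; norm_num
  have t7 : ((13744 : ℕ) : ℝ) = 10000 * tau 7 := by simp [tau]; norm_num
  have a0 := ckA_sound h6 t0 hρ w0
  have a1 := ckA_sound h7 t1 hρ w1
  have a2 := ckA_sound h8 t2 hρ w2
  have a3 := ckA_sound h9 t3 hρ w3
  have a4 := ckA_sound h10 t4 hρ w4
  have a5 := ckA_sound h11 t5 hρ w5
  have a6 := ckA_sound h12 t6 hρ w6
  have a7 := ckA_sound h13 t7 hρ w7
  have ha : ∀ k, VlOK (wt b.P b.R k) (b.A k) ∧ NrOK (wt b.P b.R k) (b.A k) (tau k * b.ρ) := by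
    intro k
    fin_cases k
    · exact a0
    · exact a1
    · exact a2
    · exact a3
    · exact a4
    · exact a5
    · exact a6
    · exact a7
  have rho1 := Nat.ble_eq.mp h2
  have mu1 := Nat.ble_eq.mp h3
  have ρ0 : 0 < b.ρ := by
    unfold Bs.ρ
    apply div_pos _ (by norm_num)
    exact_mod_cast rho1
  have m0 : 0 < b.m := by
    unfold Bs.m
    apply div_pos _ (by norm_num)
    exact_mod_cast mu1
  refine ⟨⟨hd, ρ0, fun k => ?_, fun k => (ha k).2.q0, fun k => ?_⟩, ⟨m0, ?_, ?_⟩,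
    fun k => (ha k).1, fun k => ?_⟩
  · rw [mul_assoc]
    exact (ha k).2.σ
  · unfold Bs.q qf
    have k1 := (ha k).2.n1
    have k2 : 0 ≤ tau k * b.ρ := mul_nonneg (tau_pos k).le ρ0.le
    have k3 := mul_le_mul_of_nonneg_right k1 k2
    rw [mul_assoc Real.pi, mul_assoc ‖_‖]
    linarith only [k3]
  · have h := ckL_sound hρ hm a0.1 a0.2.n2 h4
    have e : b.q 0 = qf b.a0.n1 b.ρ := by
      unfold Bs.q
      have : tau 0 = 1 := by simp [tau]
      rw [this, one_mul]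
      rfl
    rw [e]
    exact h
  · have h := ckL_sound hρ hm a1.1 a1.2.n2 h5
    have e : b.q 1 = qf b.a1.n1 b.ρ := by
      unfold Bs.q
      have : tau 1 = 1 := by simp [tau]
      rw [this, one_mul]
      rfl
    rw [e]
    exact h
  · refine le_trans (le_of_eq ?_) (ha k).2.T
    unfold mm Bs.q
    ring

end Pool.Agent.S5.K3
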