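import Pool.Agent.S5.K3.LinkE
import Pool.Agent.S5.I.NumLa
import Pool.Agent.S5.I.NumLb
import Pool.Agent.S5.E.B2.Base

/-!
# The rectangles of the known forms from the regions of the table
-/

set_option autoImplicit false

namespace Pool.Agent.S5.K3

open Complex Pool.Agent.S5.Num Pool.Agent.H63.VC3 Pool.Agent.S3
open Pool.Agent.S5.G (kp kp_true kp_false)
open Pool.Agent.S5.E.B2 (InR)
open scoped ComplexConjugate

/-- The real part: `log |b| + log 2` for `k0 / 1000 ≤ |b| ≤ k1 / 1000`. -/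
def ckRe (k0 k1 lo hi : Nat) : Bool :=
  fN (fun L => cond (Nat.ble 1 k0)
    (cond (Nat.ble k1 2000)
    (cond (Nat.ble (Nat.add (Nat.add (Nat.mul 134217728 lo) L) 80)
      (Nat.add 9007199254740992 (lnh (Nat.mul 2 k0))))
    (Nat.ble (Nat.add (Nat.add 9007199254740992 (lnh (Nat.mul 2 k1))) 80)
      (Nat.add (Nat.mul 134217728 hi) L)) false) false) false) (lnh 1000)

/-- The imaginary part `-φ - π / 2` for `t0 / 1000 ≤ tan φ ≤ t1 / 1000`. -/
def ckIS (t0 t1 lo hi : Nat) : Bool :=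
  cond (Nat.ble (Nat.add (Nat.add (Nat.mul 268435456 lo) (atq t1 1000)) 442139859501786)
    18014398509481984)
  (Nat.ble 18014398509481992 (Nat.add (Nat.add (Nat.mul 268435456 hi) (atq t0 1000))
    442139859501776)) false

/-- The imaginary part `φ - π / 2` for `t0 / 1000 ≤ tan φ ≤ t1 / 1000`. -/
def ckIA (t0 t1 lo hi : Nat) : Bool :=
  cond (Nat.ble (Nat.add (Nat.mul 268435456 lo) 442139859501786)
    (Nat.add 18014398509481984 (atq t0 1000)))
  (Nat.ble (Nat.add 18014398509481992 (atq t1 1000)) (Nat.add (Nat.mul 268435456 hi)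
    442139859501776)) false

/-- The imaginary part `-φ` for `t0 / 1000 ≤ tan φ ≤ t1 / 1000`. -/
def ckIK (t0 t1 lo hi : Nat) : Bool :=
  cond (Nat.ble (Nat.add (Nat.add (Nat.mul 268435456 lo) (atq t1 1000)) 8) 18014398509481984)
  (Nat.ble 18014398509481992 (Nat.add (Nat.mul 268435456 hi) (atq t0 1000))) false

/-- The rectangle of `log (kp S c) + log 2 - π / 2 i`. -/
def ckRc (S : Bool) (k0 k1 t0 t1 : Nat) (w : Rc) : Bool :=
  cond (ckRe k0 k1 w.re.lo w.re.hi)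
    (cond S (ckIS t0 t1 w.im.lo w.im.hi) (ckIA t0 t1 w.im.lo w.im.hi)) false

/-- The rectangle of `log c + log 2`. -/
def ckRK (k0 k1 t0 t1 : Nat) (w : Rc) : Bool :=
  cond (ckRe k0 k1 w.re.lo w.re.hi) (ckIK t0 t1 w.im.lo w.im.hi) false

theorem cond_tt {a b : Bool} (h : cond a b false = true) : a = true ∧ b = true := by
  cases a <;> simp_all

theorem le_R {a b : ℕ} (h : Nat.ble a b = true) : (a : ℝ) ≤ b := by
  exact_mod_cast Nat.le_of_ble_eq_true h

theorem lnh_e {v : ℕ} (h0 : 1 ≤ v) (h1 : v ≤ 4000) :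
    |((lnh v : ℕ) : ℝ) - 140737488355328 * Real.log v| ≤ 40 := by
  have h2 : v < 2 ^ 120 := lt_of_le_of_lt h1 (by norm_num)
  have h := lnh_sound (by omega : 0 < v) h2
  have e : Num.UU * (1 / 2 * Real.log v) = 140737488355328 * Real.log v := by
    unfold Num.UU
    ring
  rwa [e] at h

theorem atq_e (p : ℕ) : |((atq p 1000 : ℕ) : ℝ) - 281474976710656 * Real.arctan ((p : ℝ) / 1000)| ≤
    8 := by
  have h := atq_sound (p := p) (q := 1000) (by norm_num)
  have e : Num.UU * Real.arctan ((p : ℝ) / ((1000 : ℕ) : ℝ)) =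
      281474976710656 * Real.arctan ((p : ℝ) / 1000) := by
    unfold Num.UU
    norm_num
  rwa [e] at h

/-- A region: bounds for the norm and the argument. -/
structure Rg3 (k0 k1 t0 t1 : ℕ) (c : ℂ) : Prop where
  n0 : (k0 : ℝ) / 1000 ≤ ‖c‖
  n1 : ‖c‖ ≤ (k1 : ℝ) / 1000
  p0 : Real.arctan ((t0 : ℝ) / 1000) ≤ -c.arg
  p1 : -c.arg ≤ Real.arctan ((t1 : ℝ) / 1000)

theorem Rg3.of {g : E.B2.Rg} {c : ℂ} (h : InR g c.re (-c.im)) (h0 : 0 < c.re) :
    Rg3 g.k0 g.k1 g.t0 g.t1 c := by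
  have hsq : c.re ^ 2 + (-c.im) ^ 2 = ‖c‖ ^ 2 := by
    rw [← Complex.normSq_eq_norm_sq, Complex.normSq_apply]
    ring
  have h1 := abs_lt.1 (abs_arg_lt_pi_div_two_iff.2 (Or.inl h0))
  have harg : -c.arg = Real.arctan (-c.im / c.re) := by
    rw [neg_div, Real.arctan_neg, neg_inj, ← tan_arg, Real.arctan_tan h1.1 h1.2]
  refine ⟨?_, ?_, ?_, ?_⟩
  · have := h.lo
    rw [hsq] at this
    exact (abs_le_of_sq_le_sq' this (norm_nonneg c)).2
  · have := h.hi
    rw [hsq] at this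
    exact (abs_le_of_sq_le_sq' this (by positivity)).2
  · rw [harg]
    apply Real.arctan_mono
    rw [le_div_iff₀ h0]
    exact h.a0
  · rw [harg]
    apply Real.arctan_mono
    rw [div_le_iff₀ h0]
    exact h.a1

theorem ckRe_sound {k0 k1 lo hi : ℕ} (h : ckRe k0 k1 lo hi = true) {n x : ℝ}
    (n0 : (k0 : ℝ) / 1000 ≤ n) (n1 : n ≤ (k1 : ℝ) / 1000) (hx : x = Real.log n + Real.log 2) :
    (⟨lo, hi⟩ : Iv).In x := by
  unfold ckRe at h
  rw [fN_eq] at h
  obtain ⟨h1, h⟩ := cond_tt h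
  obtain ⟨h2, h⟩ := cond_tt h
  obtain ⟨h3, h4⟩ := cond_tt h
  have h1 := Nat.le_of_ble_eq_true h1
  have h2 := Nat.le_of_ble_eq_true h2
  have h5 := le_R h3
  have h6 := le_R h4
  have hk : (1 : ℝ) ≤ k0 := by exact_mod_cast h1
  have hn : 0 < n := lt_of_lt_of_le (by positivity) n0
  have hk1 : (0 : ℝ) < k1 := by
    have := hn.trans_le n1
    linarith
  have hk2 : 1 ≤ k1 := by
    have : 0 < k1 := by exact_mod_cast hk1
    omega
  have hk3 : k0 ≤ k1 := by
    have : (k0 : ℝ) ≤ k1 := by linarith [n0.trans n1]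
    exact_mod_cast this
  have e0 := abs_le.1 (lnh_e (v := 2 * k0) (by omega) (by omega))
  have e1 := abs_le.1 (lnh_e (v := 2 * k1) (by omega) (by omega))
  have e2 := abs_le.1 (lnh_e (v := 1000) (by norm_num) (by norm_num))
  have l0 : Real.log ((2 * k0 : ℕ) : ℝ) - Real.log ((1000 : ℕ) : ℝ) ≤ x := by
    rw [hx, ← Real.log_div (by positivity) (by norm_num), ← Real.log_mul hn.ne' (by norm_num)]
    apply Real.log_le_log (by positivity)
    push_cast
    linarith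
  have l1 : x ≤ Real.log ((2 * k1 : ℕ) : ℝ) - Real.log ((1000 : ℕ) : ℝ) := by
    rw [hx, ← Real.log_div (by positivity) (by norm_num), ← Real.log_mul hn.ne' (by norm_num)]
    apply Real.log_le_log (by positivity)
    push_cast
    linarith
  simp only [Nat.add_eq, Nat.mul_eq] at h5 h6
  push_cast at h5 h6 e0 e1 e2 l0 l1
  constructor
  · show (lo : ℝ) - 67108864 ≤ 1048576 * x
    linarith [e0.1, e0.2, e2.1, e2.2]
  · show 1048576 * x ≤ (hi : ℝ) - 67108864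
    linarith [e1.1, e1.2, e2.1, e2.2]

theorem pi_b : |281474976710656 * (Real.pi / 2) - 442139859501777| ≤ 1 := by
  have pi1 := Real.pi_gt_d20
  have pi2 := Real.pi_lt_d20
  rw [abs_le]
  constructor <;> linarith

theorem ckIS_sound {t0 t1 lo hi : ℕ} (h : ckIS t0 t1 lo hi = true) {φ x : ℝ}
    (n0 : Real.arctan ((t0 : ℝ) / 1000) ≤ φ) (n1 : φ ≤ Real.arctan ((t1 : ℝ) / 1000))
    (hx : x = -φ - Real.pi / 2) : (⟨lo, hi⟩ : Iv).In x := by
  unfold ckIS at h
  obtain ⟨h3, h4⟩ := cond_tt h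
  have h5 := le_R h3
  have h6 := le_R h4
  have e0 := abs_le.1 (atq_e t0)
  have e1 := abs_le.1 (atq_e t1)
  have e2 := abs_le.1 pi_b
  simp only [Nat.add_eq, Nat.mul_eq] at h5 h6
  push_cast at h5 h6
  constructor
  · show (lo : ℝ) - 67108864 ≤ 1048576 * x
    rw [hx]
    linarith [e1.1, e1.2, e2.1, e2.2]
  · show 1048576 * x ≤ (hi : ℝ) - 67108864
    rw [hx]
    linarith [e0.1, e0.2, e2.1, e2.2]

theorem ckIA_sound {t0 t1 lo hi : ℕ} (h : ckIA t0 t1 lo hi = true) {φ x : ℝ}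
    (n0 : Real.arctan ((t0 : ℝ) / 1000) ≤ φ) (n1 : φ ≤ Real.arctan ((t1 : ℝ) / 1000))
    (hx : x = φ - Real.pi / 2) : (⟨lo, hi⟩ : Iv).In x := by
  unfold ckIA at h
  obtain ⟨h3, h4⟩ := cond_tt h
  have h5 := le_R h3
  have h6 := le_R h4
  have e0 := abs_le.1 (atq_e t0)
  have e1 := abs_le.1 (atq_e t1)
  have e2 := abs_le.1 pi_b
  simp only [Nat.add_eq, Nat.mul_eq] at h5 h6
  push_cast at h5 h6
  constructor
  · show (lo : ℝ) - 67108864 ≤ 1048576 * x
    rw [hx]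
    linarith [e0.1, e0.2, e2.1, e2.2]
  · show 1048576 * x ≤ (hi : ℝ) - 67108864
    rw [hx]
    linarith [e1.1, e1.2, e2.1, e2.2]

theorem ckIK_sound {t0 t1 lo hi : ℕ} (h : ckIK t0 t1 lo hi = true) {φ x : ℝ}
    (n0 : Real.arctan ((t0 : ℝ) / 1000) ≤ φ) (n1 : φ ≤ Real.arctan ((t1 : ℝ) / 1000))
    (hx : x = -φ) : (⟨lo, hi⟩ : Iv).In x := by
  unfold ckIK at h
  obtain ⟨h3, h4⟩ := cond_tt h
  have h5 := le_R h3
  have h6 := le_R h4
  have e0 := abs_le.1 (atq_e t0)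
  have e1 := abs_le.1 (atq_e t1)
  simp only [Nat.add_eq, Nat.mul_eq] at h5 h6
  push_cast at h5 h6
  constructor
  · show (lo : ℝ) - 67108864 ≤ 1048576 * x
    rw [hx]
    linarith [e1.1, e1.2]
  · show 1048576 * x ≤ (hi : ℝ) - 67108864
    rw [hx]
    linarith [e0.1, e0.2]

theorem norm_kp (S : Bool) (c : ℂ) : ‖kp S c‖ = ‖c‖ := by
  cases S
  · rw [kp_false, norm_conj]
  · rw [kp_true]

theorem arg_kp {S : Bool} {c : ℂ} (h0 : 0 < c.re) :
    (kp S c).arg = if S = true then -(-c.arg) else -c.arg := by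
  cases S
  · have h1 := abs_lt.1 (abs_arg_lt_pi_div_two_iff.2 (Or.inl h0))
    have hpi := Real.pi_pos
    rw [kp_false, arg_conj, if_neg (by linarith [h1.2]), if_neg (by simp)]
  · rw [kp_true, if_pos rfl, neg_neg]

/-- The rectangle of `log (kp S c) + log 2 - π / 2 i`. -/
theorem ckRc_sound {S : Bool} {k0 k1 t0 t1 : ℕ} {w : Rc} (h : ckRc S k0 k1 t0 t1 w = true)
    {c U : ℂ} (hc : Rg3 k0 k1 t0 t1 c) (h0 : 0 < c.re)
    (hr : U.re = Real.log ‖kp S c‖ + Real.log 2) (hi : U.im = (kp S c).arg - Real.pi / 2) :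
    w.In U := by
  unfold ckRc at h
  obtain ⟨h1, h2⟩ := cond_tt h
  rw [norm_kp] at hr
  rw [arg_kp h0] at hi
  refine ⟨ckRe_sound h1 hc.n0 hc.n1 hr, ?_⟩
  cases S
  · rw [if_neg (by simp)] at hi
    rw [cond_false] at h2
    exact ckIA_sound h2 hc.p0 hc.p1 hi
  · rw [if_pos rfl] at hi
    rw [cond_true] at h2
    exact ckIS_sound h2 hc.p0 hc.p1 hi

/-- The rectangle of `log c + log 2`. -/
theorem ckRK_sound {k0 k1 t0 t1 : ℕ} {w : Rc} (h : ckRK k0 k1 t0 t1 w = true)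
    {c K : ℂ} (hc : Rg3 k0 k1 t0 t1 c) (hK : K = log c + log 2) : w.In K := by
  unfold ckRK at h
  obtain ⟨h1, h2⟩ := cond_tt h
  refine ⟨ckRe_sound h1 hc.n0 hc.n1 ?_, ckIK_sound h2 hc.p0 hc.p1 ?_⟩
  · rw [hK, add_re, log_re, log_re, Complex.norm_ofNat]
  · rw [hK, add_im, log_im, G.log2_im, add_zero, neg_neg]

namespace Lk

variable {ty tb : Bool} {cy cb p r z : ℂ}

/-- The rectangle of the first known form. -/
theorem inU (h : Lk ty tb cy cb p r z) {g : E.B2.Rg} {w : Rc}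
    (hk : ckRc ty g.k0 g.k1 g.t0 g.t1 w = true) (h0 : 0 < cy.re) (hr : InR g cy.re (-cy.im)) :
    w.In (lf nU (cP p) (cP r)) :=
  ckRc_sound hk (Rg3.of hr h0) h0 h.ure h.uim

/-- The rectangle of the second known form. -/
theorem inV (h : Lk ty tb cy cb p r z) {g : E.B2.Rg} {w : Rc}
    (hk : ckRc tb g.k0 g.k1 g.t0 g.t1 w = true) (h0 : 0 < cb.re) (hr : InR g cb.re (-cb.im)) :
    w.In (lf nV (cP p) (cP r)) :=
  ckRc_sound hk (Rg3.of hr h0) h0 h.vre h.vim

/-- The rectangle of the own form. -/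
theorem inK (h : Lk ty tb cy cb p r z) {g : E.B2.Rg} {w : Rc}
    (hk : ckRK g.k0 g.k1 g.t0 g.t1 w = true) (hr : InR g (cos z).re (-(cos z).im)) :
    w.In (lf nK (cP p) (cP r)) := by
  obtain ⟨c1, c2, c3, c4, c5, c6, c7⟩ := G.sincos h.y.z0 h.y.z1 h.y.zi
  have h0 : 0 < (cos z).re := by
    have h5 := h.kim
    rw [lf_nK] at h5
    have e : (log (cos z)).im = (he (1 / 2 - zt (cP p) (cP r))).im := by
      rw [h.log_cos, sub_im, G.log2_im, sub_zero]
    rw [log_im] at e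
    have hn : cos z ≠ 0 := by
      intro h6
      have := h.exp_cos
      rw [h6, mul_zero] at this
      exact exp_ne_zero _ this
    rcases abs_arg_lt_pi_div_two_iff.1 (abs_lt.2 ⟨(by linarith [h5.1] : -(Real.pi / 2) < (cos z).arg),
      (by linarith [h5.2, Real.pi_pos])⟩) with h7 | h7
    · exact h7
    · exact absurd h7 hn
  refine ckRK_sound hk (Rg3.of hr h0) ?_
  rw [lf_nK, h.log_cos]
  ring

end Lk

end Pool.Agent.S5.K3
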