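import Pool.Agent.S5.G.Shapes
import Pool.Agent.S5.G.Sh

/-!
# Exact relations between neighbours

Neighbours of ends with two or three half twists, and the two neighbours of a vertex with two half
twists. `b = kp s κ` is a number seen through an edge of the kind `s`.
-/

set_option autoImplicit false

namespace Pool.Agent.S5.Rel

open Complex
open Pool.Agent.S5 Pool.Agent.S5.G
open scoped ComplexConjugate

theorem kp_kp (s : Bool) (c : ℂ) : kp s (kp s c) = c := by
  cases s
  · rw [kp_false, kp_false, conj_conj]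
  · rw [kp_true, kp_true]

theorem kp_mul (s : Bool) (c d : ℂ) : kp s (c * d) = kp s c * kp s d := by
  cases s
  · rw [kp_false, kp_false, kp_false, map_mul]
  · rw [kp_true, kp_true, kp_true]

/-- The number `i`, seen through an edge. -/
theorem kp_I (s : Bool) : kp s I = if s = true then I else -I := by
  cases s
  · rw [kp_false, conj_I, if_neg (by simp)]
  · rw [kp_true, if_pos rfl]

section general

variable {b q z : ℂ}

theorem sinh_end {n : ℂ} (hz : n * z = Real.pi + I * q) : sinh q = I * sin (n * z) := by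
  have e : q = (Real.pi - n * z) * I := by linear_combination I * hz + q * I_sq
  rw [e, sinh_mul_I, Complex.sin_pi_sub, mul_comm]

/-- The neighbour of an end with two half twists. -/
theorem end_two (hc : cos z ≠ 0) (hs : sin z ≠ 0) (hz : 2 * z = Real.pi + I * q)
    (hq : sinh q = b * tan z) : b = 2 * I * cos z ^ 2 := by
  rw [sinh_end hz, Complex.sin_two_mul, Complex.tan_eq_sin_div_cos] at hq
  have h1 : b * sin z = 2 * I * cos z ^ 2 * sin z := by
    have h2 : b * (sin z / cos z) * cos z = b * sin z := by field_simp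
    rw [← h2, ← hq]
    ring
  exact mul_right_cancel₀ hs h1

/-- The neighbour of an end with three half twists. -/
theorem end_three (hc : cos z ≠ 0) (hs : sin z ≠ 0) (hz : 3 * z = Real.pi + I * q)
    (hq : sinh q = b * tan z) : b = I * cos z * (4 * cos z ^ 2 - 1) := by
  rw [sinh_end hz, Complex.sin_three_mul, Complex.tan_eq_sin_div_cos] at hq
  have h1 : b * sin z = I * cos z * (4 * cos z ^ 2 - 1) * sin z := by
    have h2 : b * (sin z / cos z) * cos z = b * sin z := by field_simp
    rw [← h2, ← hq]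
    linear_combination (-4) * I * sin z * cos z * (Complex.sin_sq_add_cos_sq z)
  exact mul_right_cancel₀ hs h1

/-- The two slots of a vertex with two half twists. -/
theorem two_rel {p r b' : ℂ} (hc : cos z ≠ 0) (hs : sin z ≠ 0)
    (hz : 2 * z = Real.pi + I * (p + r)) (hp : sinh p = b * tan z) (hr : sinh r = b' * tan z) :
    b' = 2 * cos z ^ 2 * (b + I * cosh p) - b := by
  have e : r = (Real.pi - 2 * z) * I - p := by linear_combination I * hz + (p + r) * I_sq
  have e1 : sinh r = I * sin (2 * z) * cosh p + cos (2 * z) * sinh p := by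
    rw [e, sinh_sub, sinh_mul_I, cosh_mul_I, Complex.sin_pi_sub, Complex.cos_pi_sub]
    ring
  rw [hr, hp, Complex.sin_two_mul, Complex.cos_two_mul, Complex.tan_eq_sin_div_cos] at e1
  have h1 : b' * sin z = (2 * cos z ^ 2 * (b + I * cosh p) - b) * sin z := by
    have h2 : b' * (sin z / cos z) * cos z = b' * sin z := by field_simp
    rw [← h2, e1]
    field_simp
    ring
  exact mul_right_cancel₀ hs h1

/-- The number `cosh p` of a slot. -/
theorem cosh_slot {p : ℂ} (hc : cos z ≠ 0) (hp : sinh p = b * tan z) :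
    cos z ^ 2 * cosh p ^ 2 = cos z ^ 2 + b ^ 2 * (1 - cos z ^ 2) := by
  have h1 := Complex.cosh_sq p
  rw [hp, Complex.tan_eq_sin_div_cos] at h1
  rw [h1]
  have h2 := Complex.sin_sq_add_cos_sq z
  field_simp
  linear_combination b ^ 2 * h2

end general

section chain

variable {R : ℕ} {a : ℕ → ℕ} {S : ℕ → Bool} {z ql qr : ℕ → ℂ}

theorem cz (h : CrtM R a S z ql qr) {i : ℕ} (hi : i ≤ R) : cos (z i) ≠ 0 ∧ sin (z i) ≠ 0 :=
  ⟨Pool.Agent.S3.G.cos_ne (h.zre i hi), Pool.Agent.S3.G.sin_ne (h.zre i hi)⟩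

/-- The left end has two half twists. -/
theorem e2_l (h : CrtM R a S z ql qr) (ha : a 0 = 2) :
    kp (S 0) (cos (z 1)) = 2 * I * cos (z 0) ^ 2 := by
  have hR := h.hR
  have e := h.eq 0 (by omega)
  rw [ha, h.l0, zero_add] at e
  have c := cz h (i := 0) (by omega)
  exact end_two c.1 c.2 (by push_cast at e; exact e) (h.sr 0 (by omega))

/-- The right end has two half twists. -/
theorem e2_r (h : CrtM R a S z ql qr) {i : ℕ} (hi : i + 1 = R) (ha : a (i + 1) = 2) :
    kp (S i) (cos (z i)) = 2 * I * cos (z (i + 1)) ^ 2 := by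
  have e := h.eq (i + 1) (by omega)
  have e0 : qr (i + 1) = 0 := by rw [hi]; exact h.rR
  rw [ha, e0, add_zero] at e
  have c := cz h (i := i + 1) (by omega)
  exact end_two c.1 c.2 (by push_cast at e; exact e) (h.sl i (by omega))

/-- The left end has three half twists. -/
theorem e3_l (h : CrtM R a S z ql qr) (ha : a 0 = 3) :
    kp (S 0) (cos (z 1)) = I * cos (z 0) * (4 * cos (z 0) ^ 2 - 1) := by
  have hR := h.hR
  have e := h.eq 0 (by omega)
  rw [ha, h.l0, zero_add] at e
  have c := cz h (i := 0) (by omega)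
  exact end_three c.1 c.2 (by push_cast at e; exact e) (h.sr 0 (by omega))

/-- The right end has three half twists. -/
theorem e3_r (h : CrtM R a S z ql qr) {i : ℕ} (hi : i + 1 = R) (ha : a (i + 1) = 3) :
    kp (S i) (cos (z i)) = I * cos (z (i + 1)) * (4 * cos (z (i + 1)) ^ 2 - 1) := by
  have e := h.eq (i + 1) (by omega)
  have e0 : qr (i + 1) = 0 := by rw [hi]; exact h.rR
  rw [ha, e0, add_zero] at e
  have c := cz h (i := i + 1) (by omega)
  exact end_three c.1 c.2 (by push_cast at e; exact e) (h.sl i (by omega))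

/-! ### Seen from the neighbour of the end

`κ` the number of the neighbour, `b = kp s κ'` its slot, `κ'` the number of the end. -/

theorem n2_l (h : CrtM R a S z ql qr) (ha : a 0 = 2) :
    cos (z 1) = 2 * kp (S 0) I * kp (S 0) (cos (z 0)) ^ 2 := by
  have h1 := congrArg (kp (S 0)) (e2_l h ha)
  rw [kp_kp, kp_mul, kp_mul, pow_two, kp_mul] at h1
  rw [h1, pow_two]
  cases S 0
  · simp only [kp_false, map_ofNat]
  · simp only [kp_true]

theorem n2_r (h : CrtM R a S z ql qr) {i : ℕ} (hi : i + 1 = R) (ha : a (i + 1) = 2) :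
    cos (z i) = 2 * kp (S i) I * kp (S i) (cos (z (i + 1))) ^ 2 := by
  have h1 := congrArg (kp (S i)) (e2_r h hi ha)
  rw [kp_kp, kp_mul, kp_mul, pow_two, kp_mul] at h1
  rw [h1, pow_two]
  cases S i
  · simp only [kp_false, map_ofNat]
  · simp only [kp_true]

theorem n3_l (h : CrtM R a S z ql qr) (ha : a 0 = 3) :
    cos (z 1) = kp (S 0) I * kp (S 0) (cos (z 0)) * (4 * kp (S 0) (cos (z 0)) ^ 2 - 1) := by
  have h1 := congrArg (kp (S 0)) (e3_l h ha)
  rw [kp_kp, kp_mul, kp_mul] at h1
  rw [h1]
  cases S 0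
  · simp only [kp_false, map_ofNat, map_sub, map_mul, map_pow, map_one]
  · simp only [kp_true]

theorem n3_r (h : CrtM R a S z ql qr) {i : ℕ} (hi : i + 1 = R) (ha : a (i + 1) = 3) :
    cos (z i) = kp (S i) I * kp (S i) (cos (z (i + 1))) *
      (4 * kp (S i) (cos (z (i + 1))) ^ 2 - 1) := by
  have h1 := congrArg (kp (S i)) (e3_r h hi ha)
  rw [kp_kp, kp_mul, kp_mul] at h1
  rw [h1]
  cases S i
  · simp only [kp_false, map_ofNat, map_sub, map_mul, map_pow, map_one]
  · simp only [kp_true]

/-! ### Vertices with two half twists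

`J = i + 1` has two half twists. From the numbers of `J` and of one of its neighbours to the number of
the other neighbour; `c = cosh` of the slot. -/

/-- From the left neighbour to the right one. -/
theorem two_lr (h : CrtM R a S z ql qr) {i : ℕ} (hi : i + 1 < R) (ha : a (i + 1) = 2) :
    ∃ c : ℂ, 0 < c.re ∧ cos (z (i + 1)) ^ 2 * c ^ 2 =
      cos (z (i + 1)) ^ 2 + kp (S i) (cos (z i)) ^ 2 * (1 - cos (z (i + 1)) ^ 2) ∧
      kp (S (i + 1)) (cos (z (i + 2))) = 2 * cos (z (i + 1)) ^ 2 *
        (kp (S i) (cos (z i)) + I * c) - kp (S i) (cos (z i)) := by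
  have e := h.eq (i + 1) hi.le
  rw [ha] at e
  have c := cz h (i := i + 1) hi.le
  have h1 := h.sl i (by omega)
  have h2 := h.sr (i + 1) hi
  refine ⟨cosh (ql (i + 1)), ?_, cosh_slot c.1 h1, two_rel c.1 c.2 (by push_cast at e; exact e)
    h1 h2⟩
  rw [G.cosh_re]
  exact mul_pos (Real.cosh_pos _) (Real.cos_pos_of_mem_Ioo (h.lim i (by omega)))

/-- From the right neighbour to the left one. -/
theorem two_rl (h : CrtM R a S z ql qr) {i : ℕ} (hi : i + 1 < R) (ha : a (i + 1) = 2) :
    ∃ c : ℂ, 0 < c.re ∧ cos (z (i + 1)) ^ 2 * c ^ 2 =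
      cos (z (i + 1)) ^ 2 + kp (S (i + 1)) (cos (z (i + 2))) ^ 2 * (1 - cos (z (i + 1)) ^ 2) ∧
      kp (S i) (cos (z i)) = 2 * cos (z (i + 1)) ^ 2 *
        (kp (S (i + 1)) (cos (z (i + 2))) + I * c) - kp (S (i + 1)) (cos (z (i + 2))) := by
  have e := h.eq (i + 1) hi.le
  rw [ha] at e
  have c := cz h (i := i + 1) hi.le
  have h1 := h.sl i (by omega)
  have h2 := h.sr (i + 1) hi
  refine ⟨cosh (qr (i + 1)), ?_, cosh_slot c.1 h2, two_rel c.1 c.2 (by
    push_cast at e; linear_combination e) h2 h1⟩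
  rw [G.cosh_re]
  exact mul_pos (Real.cosh_pos _) (Real.cos_pos_of_mem_Ioo (h.rim (i + 1) hi))

end chain

end Pool.Agent.S5.Rel
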