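import Pool.Agent.S5.K3.C3C
import Pool.Agent.S5.K3.Rel
import Pool.Agent.S5.Ctx

/-!
# The region of the third vertex of the chains `3 S 3 S 2 A 2 S ..`
-/

set_option autoImplicit false

namespace Pool.Agent.S5.C33

open Complex
open Pool.Agent.S5 Pool.Agent.S5.G Pool.Agent.S5.Rel
open Pool.Agent.S5.E (Vt kd vL vR types mem_types)
open Pool.Agent.S5.E.B2 (InR)
open scoped ComplexConjugate

/-! ### The relations -/

/-- The two slots of a vertex with three half twists. -/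
theorem three_rel {p r b b' z : ℂ} (hc : cos z ≠ 0) (hs : sin z ≠ 0)
    (hz : 3 * z = Real.pi + I * (p + r)) (hp : sinh p = b * tan z) (hr : sinh r = b' * tan z) :
    b' = (4 * cos z ^ 3 - 3 * cos z) * b + I * (4 * cos z ^ 2 - 1) * (cos z * cosh p) := by
  have e : r = (Real.pi - 3 * z) * I - p := by linear_combination I * hz + (p + r) * I_sq
  have e1 : sinh r = I * sin (3 * z) * cosh p + cos (3 * z) * sinh p := by
    rw [e, sinh_sub, sinh_mul_I, cosh_mul_I, Complex.sin_pi_sub, Complex.cos_pi_sub]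
    ring
  rw [hr, hp, Complex.sin_three_mul, Complex.cos_three_mul, Complex.tan_eq_sin_div_cos] at e1
  have hq := Complex.sin_sq_add_cos_sq z
  have h1 : b' * sin z = ((4 * cos z ^ 3 - 3 * cos z) * b +
      I * (4 * cos z ^ 2 - 1) * (cos z * cosh p)) * sin z := by
    have h2 : b' * (sin z / cos z) * cos z = b' * sin z := by field_simp
    have h3 : b * (sin z / cos z) * cos z = b * sin z := by field_simp
    have h4 : b' * (sin z / cos z) * cos z = (I * (3 * sin z - 4 * sin z ^ 3) * cosh p) * cos z +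
        (4 * cos z ^ 3 - 3 * cos z) * (b * (sin z / cos z) * cos z) := by
      rw [e1]
      ring
    rw [h2, h3] at h4
    rw [h4]
    linear_combination (-4 * I * sin z * cosh p * cos z) * hq
  exact mul_right_cancel₀ hs h1

theorem rels_mk {k0 k1 k2 k3 k4 c1 c2 c3 : ℂ} (n1 : k1 ≠ 0) (n2 : k2 ≠ 0) (n3 : k3 ≠ 0)
    (h1 : k1 = I * k0 * (4 * k0 ^ 2 - 1)) (p1 : 0 < c1.re)
    (q1 : k1 ^ 2 * c1 ^ 2 = k1 ^ 2 + k0 ^ 2 * (1 - k1 ^ 2))
    (h2 : k2 = (4 * k1 ^ 3 - 3 * k1) * k0 + I * (4 * k1 ^ 2 - 1) * (k1 * c1)) (p2 : 0 < c2.re)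
    (q2 : k2 ^ 2 * c2 ^ 2 = k2 ^ 2 + k1 ^ 2 * (1 - k2 ^ 2))
    (h3 : conj k3 = 2 * k2 ^ 2 * (k1 + I * c2) - k1) (p3 : 0 < c3.re)
    (q3 : k3 ^ 2 * c3 ^ 2 = k3 ^ 2 + (conj k2) ^ 2 * (1 - k3 ^ 2))
    (h4 : k4 = 2 * k3 ^ 2 * (conj k2 + I * c3) - conj k2) :
    Rels k0 k1 k2 (conj k3) (conj k4) (k1 * c1) (k2 * c2) (conj (k3 * c3)) := by
  have pos : ∀ {k c : ℂ}, k ≠ 0 → 0 < c.re → 0 < (k * c * conj k).re := by
    intro k c hk hc
    have e : k * c * conj k = ((normSq k : ℝ) : ℂ) * c := by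
      rw [← mul_conj]
      ring
    rw [e, re_ofReal_mul]
    exact mul_pos (normSq_pos.2 hk) hc
  refine ⟨h1, ?_, pos n1 p1, h2, ?_, pos n2 p2, ?_, ?_, ?_, ?_⟩
  · rw [mul_pow]
    exact q1
  · rw [mul_pow]
    exact q2
  · rw [h3]
    ring
  · have h5 := congrArg conj q3
    rw [map_mul, map_add, map_mul, map_sub, map_one, map_pow, map_pow, map_pow, conj_conj] at h5
    rw [map_mul, mul_pow]
    exact h5
  · have h6 : (conj (k3 * c3) * conj (conj k3)).re = (k3 * c3 * conj k3).re := by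
      rw [← map_mul, conj_re]
    rw [h6]
    exact pos n3 p3
  · have h5 := congrArg conj h4
    rw [map_sub, map_mul, map_mul, map_add, map_mul, map_pow, conj_conj, conj_I, map_ofNat] at h5
    rw [h5, map_mul]
    ring

/-! ### The regions -/

/-- The region `g` of the table is in `b`. -/
def sub (g : E.B2.Rg) (b : Bd) : Bool :=
  decide (b.k0 ≤ g.k0) && (decide ((g.k1 : ℤ) ≤ b.k1) && (decide (b.t0 ≤ g.t0) &&
    decide ((g.t1 : ℤ) ≤ b.t1)))

theorem sub_sound {g : E.B2.Rg} {b : Bd} (h : sub g b = true) {k : ℂ} {y : ℝ} (hy : y ^ 2 = k.im ^ 2)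
    (hr : InR g k.re y) : b.In ‖k‖ k.re y := by
  unfold sub at h
  simp only [Bool.and_eq_true, decide_eq_true_eq] at h
  obtain ⟨c1, c2, c3, c4⟩ := h
  have c1' : (b.k0 : ℝ) ≤ (g.k0 : ℝ) := by exact_mod_cast c1
  have c2' : (g.k1 : ℝ) ≤ (b.k1 : ℝ) := by exact_mod_cast c2
  have c3' : (b.t0 : ℝ) ≤ (g.t0 : ℝ) := by exact_mod_cast c3
  have c4' : (g.t1 : ℝ) ≤ (b.t1 : ℝ) := by exact_mod_cast c4
  have hn : ‖k‖ ^ 2 = k.re ^ 2 + y ^ 2 := by
    rw [hy, ← normSq_eq_norm_sq, normSq_apply]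
    ring
  have h0 := hr.lo
  have h1 := hr.hi
  rw [← hn] at h0 h1
  have e0 := (pow_le_pow_iff_left₀ (by positivity) (norm_nonneg k) two_ne_zero).1 h0
  have e1 := (pow_le_pow_iff_left₀ (norm_nonneg k) (by positivity) two_ne_zero).1 h1
  have m0 := mul_le_mul_of_nonneg_right c3' hr.x0
  have m1 := mul_le_mul_of_nonneg_right c4' hr.x0
  have a0 := hr.a0
  have a1 := hr.a1
  exact ⟨by linarith, by linarith, by linarith, by linarith⟩

/-- The check of a table. -/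
def tab33 (T : Vt → Vt → E.B2.Rg) : Bool :=
  sub (T ⟨3, true, none⟩ ⟨3, true, some true⟩) b0 &&
  ((sub (T ⟨3, true, some true⟩ ⟨3, true, none⟩) ⟨745, 854, 413, 612⟩ &&
    sub (T ⟨3, true, some true⟩ ⟨2, true, some false⟩) ⟨783, 901, 419, 624⟩) &&
  ((sub (T ⟨2, true, some false⟩ ⟨3, true, some true⟩) ⟨781, 946, 460, 713⟩ &&
    sub (T ⟨2, false, some true⟩ ⟨2, false, some true⟩) b3) &&
  (types true).all fun J => !J.ok || b4.any fun b => sub (T J ⟨2, true, some false⟩) b))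

/-- The conclusion as a region of a table. -/
theorem inR {b : Bd} {g : E.B2.Rg} (e0 : (g.k0 : ℤ) = b.k0) (e1 : (g.k1 : ℤ) = b.k1)
    (e2 : (g.t0 : ℤ) = b.t0) (e3 : (g.t1 : ℤ) = b.t1) (e4 : g.m = 0) (ht : b.t0 < b.t1)
    {k : ℂ} (h : b.In ‖k‖ k.re (-k.im)) : InR g k.re (-k.im) := by
  obtain ⟨lo, hi, a0, a1⟩ := h
  have f0 : (g.k0 : ℝ) = b.k0 := by exact_mod_cast e0
  have f1 : (g.k1 : ℝ) = b.k1 := by exact_mod_cast e1
  have f2 : (g.t0 : ℝ) = b.t0 := by exact_mod_cast e2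
  have f3 : (g.t1 : ℝ) = b.t1 := by exact_mod_cast e3
  have ht' : (b.t0 : ℝ) < b.t1 := by exact_mod_cast ht
  rw [← f0] at lo
  rw [← f1] at hi
  rw [← f2] at a0 ht'
  rw [← f3] at a1 ht'
  have x0 : 0 ≤ k.re := by
    by_contra hc
    push Not at hc
    nlinarith
  have y0 : 0 ≤ -k.im := by
    have := mul_nonneg (Nat.cast_nonneg (α := ℝ) g.t0) x0
    linarith
  have hn : k.re ^ 2 + (-k.im) ^ 2 = ‖k‖ ^ 2 := by
    rw [← normSq_eq_norm_sq, normSq_apply]
    ring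
  refine ⟨x0, y0, ?_, ?_, by linarith, by linarith, ?_⟩
  · rw [hn]
    exact pow_le_pow_left₀ (by positivity) (by linarith) 2
  · rw [hn]
    exact pow_le_pow_left₀ (norm_nonneg _) (by linarith) 2
  · rw [e4]
    have := mul_nonneg x0 y0
    push_cast
    linarith

theorem Outs.r2 {k0 k1 k2 : ℂ} (h : Outs k0 k1 k2) :
    InR ⟨833, 889, 552, 630, 0⟩ k2.re (-k2.im) := inR rfl rfl rfl rfl rfl (by decide) h.o2

theorem Outs.r1 {k0 k1 k2 : ℂ} (h : Outs k0 k1 k2) :
    InR ⟨808, 822, 556, 577, 0⟩ k1.re (-k1.im) := inR rfl rfl rfl rfl rfl (by decide) h.o1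

theorem Outs.r0 {k0 k1 k2 : ℂ} (h : Outs k0 k1 k2) :
    InR ⟨630, 633, 505, 512, 0⟩ k0.re (-k0.im) := inR rfl rfl rfl rfl rfl (by decide) h.o0

variable {T : Vt → Vt → E.B2.Rg} {R : ℕ} {a : ℕ → ℕ} {S : ℕ → Bool} {z ql qr : ℕ → ℂ}
  {zF : Fin (R + 1) → ℂ}

theorem regs {k0 k1 k2 k3 k4 : ℂ} (hT : tab33 T = true)
    (g0 : InR (T ⟨3, true, none⟩ ⟨3, true, some true⟩) k0.re (-k0.im))
    (g1 : InR (T ⟨3, true, some true⟩ ⟨3, true, none⟩) k1.re (-k1.im))
    (g1' : InR (T ⟨3, true, some true⟩ ⟨2, true, some false⟩) k1.re (-k1.im))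
    (g2 : InR (T ⟨2, true, some false⟩ ⟨3, true, some true⟩) k2.re (-k2.im))
    (g2' : InR (T ⟨2, false, some true⟩ ⟨2, false, some true⟩) k2.re (-k2.im))
    (g3 : InR (T ⟨2, false, some true⟩ ⟨2, false, some true⟩) k3.re (-k3.im))
    {J : Vt} (hJ : J.ok = true) (hs : J.s = true)
    (g4 : InR (T J ⟨2, true, some false⟩) k4.re (-k4.im)) :
    Regs k0 k1 k2 (conj k3) (conj k4) := by
  unfold tab33 at hT
  simp only [Bool.and_eq_true] at hT
  obtain ⟨c0, ⟨c1, c1'⟩, ⟨c2, c2'⟩, c4⟩ := hT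
  have sq : ∀ {k : ℂ}, (-k.im) ^ 2 = k.im ^ 2 := fun {k} => neg_sq k.im
  have r0 := sub_sound c0 sq g0
  have r1 := sub_sound c1 sq g1
  have r1' := sub_sound c1' sq g1'
  have r2 := sub_sound c2 sq g2
  have r2' := sub_sound c2' sq g2'
  have r3 := sub_sound c2' sq g3
  refine ⟨r0, ⟨?_, ?_, ?_, ?_⟩, ⟨?_, ?_, ?_, ?_⟩, ?_, ?_⟩
  · exact le_trans (by norm_num [b1]) r1'.lo
  · exact r1.hi
  · have := r1'.a0
    norm_num [b1] at this ⊢
    exact this
  · have := r1.a1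
    norm_num [b1] at this ⊢
    exact this
  · exact r2.lo
  · exact r2.hi
  · exact r2.a0
  · exact r2.a1
  · rw [norm_conj, conj_re, conj_im]
    exact r3
  · have h1 := mem_types hJ
    rw [hs] at h1
    have h2 := List.all_eq_true.1 c4 J h1
    rw [hJ, Bool.not_true, Bool.false_or, List.any_eq_true] at h2
    obtain ⟨b, hb, h3⟩ := h2
    refine ⟨b, hb, ?_⟩
    rw [norm_conj, conj_re, conj_im]
    exact sub_sound h3 sq g4

/-- **From the left end.** -/
theorem left (hT : tab33 T = true) (h : Pre T R a S z ql qr zF) (hR : 4 ≤ R) (a0 : a 0 = 3)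
    (a1 : a 1 = 3) (a2 : a 2 = 2) (a3 : a 3 = 2) (s0 : S 0 = true) (s1 : S 1 = true)
    (s2 : S 2 = false) (s3 : S 3 = true) :
    Outs (cos (z 0)) (cos (z 1)) (cos (z 2)) := by
  have hc := h.sol.crt
  have v0 : vR a S 0 = ⟨3, true, none⟩ := by
    unfold E.vR
    rw [a0, s0, if_pos rfl]
    rfl
  have v1 : vL R a S 1 = ⟨3, true, some true⟩ := by
    unfold E.vL
    rw [a1, if_neg (by omega), s1]
    show (⟨min 3 8, S 0, some true⟩ : Vt) = _
    rw [s0]
    rfl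
  have v1' : vR a S 1 = ⟨3, true, some true⟩ := by
    unfold E.vR
    rw [a1, if_neg (by omega), s1]
    show (⟨min 3 8, true, some (S 0)⟩ : Vt) = _
    rw [s0]
    rfl
  have v2 : vL R a S 2 = ⟨2, true, some false⟩ := by
    unfold E.vL
    rw [a2, if_neg (by omega), s2]
    show (⟨min 2 8, S 1, some false⟩ : Vt) = _
    rw [s1]
    rfl
  have v2' : vR a S 2 = ⟨2, false, some true⟩ := by
    unfold E.vR
    rw [a2, if_neg (by omega), s2]
    show (⟨min 2 8, false, some (S 1)⟩ : Vt) = _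
    rw [s1]
    rfl
  have v3 : vL R a S 3 = ⟨2, false, some true⟩ := by
    unfold E.vL
    rw [a3, if_neg (by omega), s3]
    show (⟨min 2 8, S 2, some true⟩ : Vt) = _
    rw [s2]
    rfl
  have v3' : vR a S 3 = ⟨2, true, some false⟩ := by
    unfold E.vR
    rw [a3, if_neg (by omega), s3]
    show (⟨min 2 8, true, some (S 2)⟩ : Vt) = _
    rw [s2]
    rfl
  have s4 : (vL R a S 4).s = true := s3
  have g0 := h.rl (i := 0) (by omega)
  have g1 := h.rr (i := 0) (by omega)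
  have g1' := h.rl (i := 1) (by omega)
  have g2 := h.rr (i := 1) (by omega)
  have g2' := h.rl (i := 2) (by omega)
  have g3 := h.rr (i := 2) (by omega)
  have g4 := h.rr (i := 3) (by omega)
  have o4 := h.ok_l (i := 3) (by omega)
  simp only [zero_add, Nat.reduceAdd] at g0 g1 g1' g2 g2' g3 g4 o4
  rw [v0, v1] at g0 g1
  rw [v1', v2] at g1' g2
  rw [v2', v3] at g2' g3
  rw [v3'] at g4
  have G := regs hT g0 g1 g1' g2 g2' g3 o4 s4 g4
  have e1 := hc.eq 1 (by omega)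
  rw [a1] at e1
  push_cast at e1
  have n0 := cz hc (i := 0) (by omega)
  have n1 := cz hc (i := 1) (by omega)
  have n2 := cz hc (i := 2) (by omega)
  have n3 := cz hc (i := 3) (by omega)
  have l1 := hc.sl 0 (by omega)
  have r1 := hc.sr 1 (by omega)
  simp only [zero_add, Nat.reduceAdd] at l1 r1
  rw [s0, kp_true] at l1
  rw [s1, kp_true] at r1
  have f0 := e3_l hc a0
  rw [s0, kp_true] at f0
  have p1 : 0 < (cosh (ql 1)).re := by
    rw [Pool.Agent.S5.G.cosh_re]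
    exact mul_pos (Real.cosh_pos _) (Real.cos_pos_of_mem_Ioo (hc.lim 0 (by omega)))
  obtain ⟨c2, p2, q2, h3⟩ := two_lr hc (i := 1) (by omega) a2
  obtain ⟨c3, p3, q3, h4⟩ := two_lr hc (i := 2) (by omega) a3
  simp only [Nat.reduceAdd] at q2 h3 q3 h4
  rw [s1, kp_true] at q2
  rw [s2, s1, kp_true, kp_false] at h3
  rw [s2, kp_false] at q3
  rw [s3, s2, kp_true, kp_false] at h4
  exact core (rels_mk n1.1 n2.1 n3.1 f0 p1 (cosh_slot n1.1 l1) (three_rel n1.1 n1.2 e1 l1 r1)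
    p2 q2 h3 p3 q3 h4) G

/-- **From the right end.** -/
theorem right (hT : tab33 T = true) (h : Pre T R a S z ql qr zF) {i : ℕ} (hR : i + 4 = R)
    (a0 : a (i + 4) = 3) (a1 : a (i + 3) = 3) (a2 : a (i + 2) = 2) (a3 : a (i + 1) = 2)
    (s0 : S (i + 3) = true) (s1 : S (i + 2) = true) (s2 : S (i + 1) = false) (s3 : S i = true) :
    Outs (cos (z (i + 4))) (cos (z (i + 3))) (cos (z (i + 2))) := by
  have hc := h.sol.crt
  have v0 : vL R a S (i + 4) = ⟨3, true, none⟩ := by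
    unfold E.vL
    rw [a0, if_pos hR]
    show (⟨min 3 8, S (i + 3), none⟩ : Vt) = _
    rw [s0]
    rfl
  have v1 : vR a S (i + 3) = ⟨3, true, some true⟩ := by
    unfold E.vR
    rw [a1, if_neg (by omega), s0]
    show (⟨min 3 8, true, some (S (i + 2))⟩ : Vt) = _
    rw [s1]
    rfl
  have v1' : vL R a S (i + 3) = ⟨3, true, some true⟩ := by
    unfold E.vL
    rw [a1, if_neg (by omega), s0]
    show (⟨min 3 8, S (i + 2), some true⟩ : Vt) = _
    rw [s1]
    rfl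
  have v2 : vR a S (i + 2) = ⟨2, true, some false⟩ := by
    unfold E.vR
    rw [a2, if_neg (by omega), s1]
    show (⟨min 2 8, true, some (S (i + 1))⟩ : Vt) = _
    rw [s2]
    rfl
  have v2' : vL R a S (i + 2) = ⟨2, false, some true⟩ := by
    unfold E.vL
    rw [a2, if_neg (by omega), s1]
    show (⟨min 2 8, S (i + 1), some true⟩ : Vt) = _
    rw [s2]
    rfl
  have v3 : vR a S (i + 1) = ⟨2, false, some true⟩ := by
    unfold E.vR
    rw [a3, if_neg (by omega), s2]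
    show (⟨min 2 8, false, some (S i)⟩ : Vt) = _
    rw [s3]
    rfl
  have v3' : vL R a S (i + 1) = ⟨2, true, some false⟩ := by
    unfold E.vL
    rw [a3, if_neg (by omega), s2]
    show (⟨min 2 8, S i, some false⟩ : Vt) = _
    rw [s3]
    rfl
  have s4 : (vR a S i).s = true := s3
  have g0 := h.rr (i := i + 3) (by omega)
  have g1 := h.rl (i := i + 3) (by omega)
  have g1' := h.rr (i := i + 2) (by omega)
  have g2 := h.rl (i := i + 2) (by omega)
  have g2' := h.rr (i := i + 1) (by omega)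
  have g3 := h.rl (i := i + 1) (by omega)
  have g4 := h.rl (i := i) (by omega)
  have o4 := h.ok_r (i := i) (by omega)
  simp only [add_assoc, Nat.reduceAdd] at g0 g1 g1' g2 g2' g3 g4 o4
  rw [v0, v1] at g0 g1
  rw [v1', v2] at g1' g2
  rw [v2', v3] at g2' g3
  rw [v3'] at g4
  have G := regs hT g0 g1 g1' g2 g2' g3 o4 s4 g4
  have e1 := hc.eq (i + 3) (by omega)
  rw [a1] at e1
  push_cast at e1
  have n1 := cz hc (i := i + 3) (by omega)
  have n2 := cz hc (i := i + 2) (by omega)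
  have n3 := cz hc (i := i + 1) (by omega)
  have l1 := hc.sr (i + 3) (by omega)
  have r1 := hc.sl (i + 2) (by omega)
  simp only [add_assoc, Nat.reduceAdd] at l1 r1
  rw [s0, kp_true] at l1
  rw [s1, kp_true] at r1
  have f0 := e3_r hc (i := i + 3) (by omega) (by simpa only [add_assoc, Nat.reduceAdd] using a0)
  simp only [add_assoc, Nat.reduceAdd] at f0
  rw [s0, kp_true] at f0
  have p1 : 0 < (cosh (qr (i + 3))).re := by
    rw [Pool.Agent.S5.G.cosh_re]
    exact mul_pos (Real.cosh_pos _) (Real.cos_pos_of_mem_Ioo (hc.rim (i + 3) (by omega)))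
  obtain ⟨c2, p2, q2, h3⟩ := two_rl hc (i := i + 1) (by omega)
    (by simpa only [add_assoc, Nat.reduceAdd] using a2)
  obtain ⟨c3, p3, q3, h4⟩ := two_rl hc (i := i) (by omega) a3
  simp only [add_assoc, Nat.reduceAdd] at q2 h3 q3 h4
  rw [s1, kp_true] at q2
  rw [s2, s1, kp_true, kp_false] at h3
  rw [s2, kp_false] at q3
  rw [s3, s2, kp_true, kp_false] at h4
  exact core (rels_mk n1.1 n2.1 n3.1 f0 p1 (cosh_slot n1.1 l1)
    (three_rel n1.1 n1.2 (by linear_combination e1) l1 r1) p2 q2 h3 p3 q3 h4) G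

end Pool.Agent.S5.C33
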