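import Mathlib

/-!
# First order expansions with remainder on a small rectangle

The unit is `1 / 2 ^ 32`. `T.Ok h x`: the number `x` is `a + b i + (c + d i) h` up to `r`.
-/

set_option autoImplicit false

namespace Pool.Agent.S5.C33

open Complex

/-- An expansion. -/
structure TM where
  a : ℤ
  b : ℤ
  c : ℤ
  d : ℤ
  r : ℤ

/-- The unit. -/
def su : ℤ := 4294967296

/-- A complex integer. -/
noncomputable def ci (a b : ℤ) : ℂ := (a : ℂ) + (b : ℂ) * I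

theorem ci_re (a b : ℤ) : (ci a b).re = a := by simp [ci]

theorem ci_im (a b : ℤ) : (ci a b).im = b := by simp [ci]

/-- The meaning. -/
def TM.Ok (X : TM) (h x : ℂ) : Prop :=
  ‖(4294967296 : ℂ) * x - (ci X.a X.b + ci X.c X.d * h)‖ ≤ X.r

/-- The absolute value. -/
def ia (a : ℤ) : ℤ := Int.ofNat a.natAbs

theorem ia_eq (a : ℤ) : ((ia a : ℤ) : ℝ) = |(a : ℝ)| := by
  unfold ia
  rw [Int.ofNat_eq_natCast, Int.natCast_natAbs]
  push_cast
  rfl

theorem norm_ci_le (a b : ℤ) : ‖ci a b‖ ≤ ((ia a + ia b : ℤ) : ℝ) := by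
  push_cast
  rw [ia_eq, ia_eq, ← ci_re a b, ← ci_im a b]
  have := Complex.norm_le_abs_re_add_abs_im (ci a b)
  rw [ci_re, ci_im] at this ⊢
  exact this

namespace TM

/-- The sum. -/
def add (X Y : TM) : TM := ⟨X.a + Y.a, X.b + Y.b, X.c + Y.c, X.d + Y.d, X.r + Y.r⟩

/-- The difference. -/
def sub (X Y : TM) : TM := ⟨X.a - Y.a, X.b - Y.b, X.c - Y.c, X.d - Y.d, X.r + Y.r⟩

/-- An integer multiple, `0 ≤ n`. -/
def nmul (n : ℤ) (X : TM) : TM := ⟨n * X.a, n * X.b, n * X.c, n * X.d, n * X.r⟩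

/-- The opposite. -/
def neg (X : TM) : TM := ⟨-X.a, -X.b, -X.c, -X.d, X.r⟩

/-- The product with `i`. -/
def mI (X : TM) : TM := ⟨-X.b, X.a, -X.d, X.c, X.r⟩

/-- An integer. -/
def cst (n : ℤ) : TM := ⟨n * 4294967296, 0, 0, 0, 0⟩

/-- The product; `ρ` bounds `|h|`. -/
def mul (ρ : ℤ) (X Y : TM) : TM :=
  let e1 := (ia X.c + ia X.d) * ρ / 4294967296 + 1
  let e2 := (ia Y.c + ia Y.d) * ρ / 4294967296 + 1
  ⟨(X.a * Y.a - X.b * Y.b) / 4294967296, (X.a * Y.b + X.b * Y.a) / 4294967296,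
    (X.a * Y.c - X.b * Y.d + X.c * Y.a - X.d * Y.b) / 4294967296,
    (X.a * Y.d + X.b * Y.c + X.c * Y.b + X.d * Y.a) / 4294967296,
    (e1 * e2 + X.r * (ia Y.a + ia Y.b + e2 + Y.r) + Y.r * (ia X.a + ia X.b + e1)) / 4294967296 + 4⟩

end TM

theorem div_lo (a : ℤ) : (a : ℝ) / 4294967296 - 1 ≤ ((a / 4294967296 : ℤ) : ℝ) := by
  have h : a < 4294967296 * (a / 4294967296 + 1) := by omega
  have h2 : (a : ℝ) < 4294967296 * (((a / 4294967296 : ℤ) : ℝ) + 1) := by exact_mod_cast h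
  linarith

theorem div_hi (a : ℤ) : ((a / 4294967296 : ℤ) : ℝ) ≤ (a : ℝ) / 4294967296 := by
  have h : 4294967296 * (a / 4294967296) ≤ a := by omega
  have h2 : 4294967296 * ((a / 4294967296 : ℤ) : ℝ) ≤ (a : ℝ) := by exact_mod_cast h
  linarith

theorem ci_div (a b : ℤ) :
    ‖ci a b - 4294967296 * ci (a / 4294967296) (b / 4294967296)‖ ≤ 2 * 4294967296 := by
  refine (Complex.norm_le_abs_re_add_abs_im _).trans ?_
  have e1 : (ci a b - 4294967296 * ci (a / 4294967296) (b / 4294967296)).re =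
      a - 4294967296 * ((a / 4294967296 : ℤ) : ℝ) := by
    simp [ci]
  have e2 : (ci a b - 4294967296 * ci (a / 4294967296) (b / 4294967296)).im =
      b - 4294967296 * ((b / 4294967296 : ℤ) : ℝ) := by
    simp [ci]
  rw [e1, e2]
  have h1 := div_lo a
  have h2 := div_hi a
  have h3 := div_lo b
  have h4 := div_hi b
  have k1 : |(a : ℝ) - 4294967296 * ((a / 4294967296 : ℤ) : ℝ)| ≤ 4294967296 := by
    rw [abs_le]
    constructor <;> linarith
  have k2 : |(b : ℝ) - 4294967296 * ((b / 4294967296 : ℤ) : ℝ)| ≤ 4294967296 := by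
    rw [abs_le]
    constructor <;> linarith
  linarith

section ops

variable {X Y : TM} {h x y : ℂ}

theorem TM.Ok.r0 (hx : X.Ok h x) : (0 : ℝ) ≤ X.r := (norm_nonneg _).trans hx

theorem TM.Ok.add (hx : X.Ok h x) (hy : Y.Ok h y) : (X.add Y).Ok h (x + y) := by
  unfold TM.Ok TM.add at *
  simp only
  have e : (4294967296 : ℂ) * (x + y) - (ci (X.a + Y.a) (X.b + Y.b) +
      ci (X.c + Y.c) (X.d + Y.d) * h) = (4294967296 * x - (ci X.a X.b + ci X.c X.d * h)) +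
      (4294967296 * y - (ci Y.a Y.b + ci Y.c Y.d * h)) := by
    unfold ci
    push_cast
    ring
  rw [e]
  push_cast
  exact (norm_add_le _ _).trans (add_le_add hx hy)

theorem TM.Ok.sub (hx : X.Ok h x) (hy : Y.Ok h y) : (X.sub Y).Ok h (x - y) := by
  unfold TM.Ok TM.sub at *
  simp only
  have e : (4294967296 : ℂ) * (x - y) - (ci (X.a - Y.a) (X.b - Y.b) +
      ci (X.c - Y.c) (X.d - Y.d) * h) = (4294967296 * x - (ci X.a X.b + ci X.c X.d * h)) -
      (4294967296 * y - (ci Y.a Y.b + ci Y.c Y.d * h)) := by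
    unfold ci
    push_cast
    ring
  rw [e]
  push_cast
  exact (norm_sub_le _ _).trans (add_le_add hx hy)

theorem TM.Ok.neg (hx : X.Ok h x) : X.neg.Ok h (-x) := by
  unfold TM.Ok TM.neg at *
  simp only
  have e : (4294967296 : ℂ) * (-x) - (ci (-X.a) (-X.b) + ci (-X.c) (-X.d) * h) =
      -(4294967296 * x - (ci X.a X.b + ci X.c X.d * h)) := by
    unfold ci
    push_cast
    ring
  rw [e, norm_neg]
  exact hx

theorem TM.Ok.nmul (hx : X.Ok h x) (n : ℤ) (hn : 0 ≤ n) : (TM.nmul n X).Ok h (n * x) := by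
  unfold TM.Ok TM.nmul at *
  simp only
  have e : (4294967296 : ℂ) * (n * x) - (ci (n * X.a) (n * X.b) + ci (n * X.c) (n * X.d) * h) =
      (n : ℂ) * (4294967296 * x - (ci X.a X.b + ci X.c X.d * h)) := by
    unfold ci
    push_cast
    ring
  rw [e, norm_mul, Complex.norm_intCast, abs_of_nonneg (by exact_mod_cast hn)]
  push_cast
  exact mul_le_mul_of_nonneg_left hx (by exact_mod_cast hn)

theorem TM.Ok.mI (hx : X.Ok h x) : X.mI.Ok h (I * x) := by
  unfold TM.Ok TM.mI at *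
  simp only
  have e : (4294967296 : ℂ) * (I * x) - (ci (-X.b) X.a + ci (-X.d) X.c * h) =
      I * (4294967296 * x - (ci X.a X.b + ci X.c X.d * h)) := by
    unfold ci
    push_cast
    linear_combination ((X.b : ℂ) + X.d * h) * I_sq
  rw [e, norm_mul, Complex.norm_I, one_mul]
  exact hx

theorem cst_ok (n : ℤ) (h : ℂ) : (TM.cst n).Ok h n := by
  unfold TM.Ok TM.cst ci
  simp only
  have e : (4294967296 : ℂ) * n - (((n * 4294967296 : ℤ) : ℂ) + ((0 : ℤ) : ℂ) * I +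
      (((0 : ℤ) : ℂ) + ((0 : ℤ) : ℂ) * I) * h) = 0 := by
    push_cast
    ring
  rw [e, norm_zero]
  simp

/-- **The product.** -/
theorem TM.Ok.mul {ρ : ℤ} (hx : X.Ok h x) (hy : Y.Ok h y) (hρ : ‖h‖ * 4294967296 ≤ ρ)
    (hh : ‖h‖ ≤ 1 / 2) : (TM.mul ρ X Y).Ok h (x * y) := by
  have rX := hx.r0
  have rY := hy.r0
  unfold TM.Ok at hx hy ⊢
  obtain ⟨A, hA⟩ : ∃ A, A = ci X.a X.b := ⟨_, rfl⟩
  obtain ⟨C, hC⟩ : ∃ C, C = ci X.c X.d := ⟨_, rfl⟩
  obtain ⟨A', hA'⟩ : ∃ A', A' = ci Y.a Y.b := ⟨_, rfl⟩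
  obtain ⟨C', hC'⟩ : ∃ C', C' = ci Y.c Y.d := ⟨_, rfl⟩
  have nA : ‖A‖ ≤ ((ia X.a + ia X.b : ℤ) : ℝ) := by rw [hA]; exact norm_ci_le _ _
  have nC : ‖C‖ ≤ ((ia X.c + ia X.d : ℤ) : ℝ) := by rw [hC]; exact norm_ci_le _ _
  have nA' : ‖A'‖ ≤ ((ia Y.a + ia Y.b : ℤ) : ℝ) := by rw [hA']; exact norm_ci_le _ _
  have nC' : ‖C'‖ ≤ ((ia Y.c + ia Y.d : ℤ) : ℝ) := by rw [hC']; exact norm_ci_le _ _
  rw [← hA, ← hC] at hx
  rw [← hA', ← hC'] at hy
  obtain ⟨e, he⟩ : ∃ e, e = 4294967296 * x - (A + C * h) := ⟨_, rfl⟩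
  obtain ⟨e', he'⟩ : ∃ e', e' = 4294967296 * y - (A' + C' * h) := ⟨_, rfl⟩
  rw [← he] at hx
  rw [← he'] at hy
  obtain ⟨e1, h1⟩ : ∃ e1 : ℤ, e1 = (ia X.c + ia X.d) * ρ / 4294967296 + 1 := ⟨_, rfl⟩
  obtain ⟨e2, h2⟩ : ∃ e2 : ℤ, e2 = (ia Y.c + ia Y.d) * ρ / 4294967296 + 1 := ⟨_, rfl⟩
  have hn := norm_nonneg h
  have c1 : ‖C * h‖ ≤ e1 := by
    rw [norm_mul, h1]
    have k := div_lo ((ia X.c + ia X.d) * ρ)
    push_cast at k ⊢
    have k2 : ‖C‖ * (‖h‖ * 4294967296) ≤ ((ia X.c + ia X.d : ℤ) : ℝ) * ρ :=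
      mul_le_mul nC hρ (by positivity) ((norm_nonneg _).trans nC)
    push_cast at k2
    linarith
  have c2 : ‖C' * h‖ ≤ e2 := by
    rw [norm_mul, h2]
    have k := div_lo ((ia Y.c + ia Y.d) * ρ)
    push_cast at k ⊢
    have k2 : ‖C'‖ * (‖h‖ * 4294967296) ≤ ((ia Y.c + ia Y.d : ℤ) : ℝ) * ρ :=
      mul_le_mul nC' hρ (by positivity) ((norm_nonneg _).trans nC')
    push_cast at k2
    linarith
  obtain ⟨Q, hQ⟩ : ∃ Q : ℤ, Q = e1 * e2 + X.r * (ia Y.a + ia Y.b + e2 + Y.r) +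
    Y.r * (ia X.a + ia X.b + e1) := ⟨_, rfl⟩
  have hm : TM.mul ρ X Y = ⟨(X.a * Y.a - X.b * Y.b) / 4294967296,
      (X.a * Y.b + X.b * Y.a) / 4294967296,
      (X.a * Y.c - X.b * Y.d + X.c * Y.a - X.d * Y.b) / 4294967296,
      (X.a * Y.d + X.b * Y.c + X.c * Y.b + X.d * Y.a) / 4294967296, Q / 4294967296 + 4⟩ := by
    rw [hQ, h1, h2]
    rfl
  rw [hm]
  simp only
  obtain ⟨D1, hD1⟩ : ∃ D1, D1 = ci ((X.a * Y.a - X.b * Y.b) / 4294967296)
    ((X.a * Y.b + X.b * Y.a) / 4294967296) := ⟨_, rfl⟩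
  obtain ⟨D2, hD2⟩ : ∃ D2, D2 = ci ((X.a * Y.c - X.b * Y.d + X.c * Y.a - X.d * Y.b) / 4294967296)
    ((X.a * Y.d + X.b * Y.c + X.c * Y.b + X.d * Y.a) / 4294967296) := ⟨_, rfl⟩
  have q1 := ci_div (X.a * Y.a - X.b * Y.b) (X.a * Y.b + X.b * Y.a)
  have q2 := ci_div (X.a * Y.c - X.b * Y.d + X.c * Y.a - X.d * Y.b)
    (X.a * Y.d + X.b * Y.c + X.c * Y.b + X.d * Y.a)
  rw [← hD1] at q1 ⊢
  rw [← hD2] at q2 ⊢
  have p1 : ci (X.a * Y.a - X.b * Y.b) (X.a * Y.b + X.b * Y.a) = A * A' := by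
    rw [hA, hA']
    unfold ci
    push_cast
    linear_combination (-((X.b : ℂ) * Y.b)) * I_sq
  have p2 : ci (X.a * Y.c - X.b * Y.d + X.c * Y.a - X.d * Y.b)
      (X.a * Y.d + X.b * Y.c + X.c * Y.b + X.d * Y.a) = A * C' + C * A' := by
    rw [hA, hA', hC, hC']
    unfold ci
    push_cast
    linear_combination (-((X.b : ℂ) * Y.d) - X.d * Y.b) * I_sq
  rw [p1] at q1
  rw [p2] at q2
  have key : (4294967296 : ℂ) * (4294967296 * (x * y) - (D1 + D2 * h)) =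
      (A * A' - 4294967296 * D1) + (A * C' + C * A' - 4294967296 * D2) * h +
      (C * h) * (C' * h) + e * (A' + C' * h + e') + e' * (A + C * h) := by
    rw [he, he']
    ring
  have n1 : ‖(4294967296 : ℂ) * (4294967296 * (x * y) - (D1 + D2 * h))‖ ≤
      2 * 4294967296 + 2 * 4294967296 * (1 / 2) + e1 * e2 +
      X.r * ((ia Y.a + ia Y.b : ℤ) + e2 + Y.r) + Y.r * ((ia X.a + ia X.b : ℤ) + e1) := by
    rw [key]
    refine (norm_add_le _ _).trans (add_le_add ((norm_add_le _ _).trans (add_le_add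
      ((norm_add_le _ _).trans (add_le_add ((norm_add_le _ _).trans (add_le_add q1 ?_)) ?_))
        ?_)) ?_)
    · rw [norm_mul]
      exact mul_le_mul q2 hh hn (by norm_num)
    · rw [norm_mul]
      exact mul_le_mul c1 c2 (norm_nonneg _) ((norm_nonneg _).trans c1)
    · rw [norm_mul]
      refine mul_le_mul hx ?_ (norm_nonneg _) rX
      exact (norm_add_le _ _).trans (add_le_add ((norm_add_le _ _).trans (add_le_add nA' c2)) hy)
    · rw [norm_mul]
      refine mul_le_mul hy ?_ (norm_nonneg _) rY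
      exact (norm_add_le _ _).trans (add_le_add nA c1)
  rw [norm_mul] at n1
  have n2 : ‖(4294967296 : ℂ)‖ = 4294967296 := by simp
  rw [n2] at n1
  have k := div_lo Q
  push_cast at k ⊢
  rw [hQ] at k
  push_cast at k n1
  rw [hQ]
  push_cast
  linarith

/-! ### Functionals -/

/-- A lower bound of `p re + q im`; `|re h| ≤ hx`, `|im h| ≤ hy`. -/
def lmin (hx hy : ℤ) (X : TM) (p q : ℤ) : ℤ :=
  p * X.a + q * X.b - (ia (p * X.c + q * X.d) * hx + ia (q * X.c - p * X.d) * hy) / 4294967296 - 1 -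
    (ia p + ia q) * X.r

theorem lmin_le {hx hy p q : ℤ} (ok : X.Ok h x) (h1 : |h.re| * 4294967296 ≤ hx)
    (h2 : |h.im| * 4294967296 ≤ hy) :
    (lmin hx hy X p q : ℝ) ≤ 4294967296 * (p * x.re + q * x.im) := by
  unfold TM.Ok at ok
  obtain ⟨e, he⟩ : ∃ e, e = 4294967296 * x - (ci X.a X.b + ci X.c X.d * h) := ⟨_, rfl⟩
  rw [← he] at ok
  have r1 := (Complex.abs_re_le_norm e).trans ok
  have r2 := (Complex.abs_im_le_norm e).trans ok
  have e1 : e.re = 4294967296 * x.re - (X.a + (X.c * h.re - X.d * h.im)) := by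
    rw [he, sub_re, add_re, mul_re (ci _ _), ci_re, ci_re, ci_im]
    simp
  have e2 : e.im = 4294967296 * x.im - (X.b + (X.c * h.im + X.d * h.re)) := by
    rw [he, sub_im, add_im, mul_im (ci _ _), ci_im, ci_re, ci_im]
    simp
  have s1 : 4294967296 * (p * x.re + q * x.im) = p * X.a + q * X.b +
      ((p * X.c + q * X.d) * h.re + (q * X.c - p * X.d) * h.im) + (p * e.re + q * e.im) := by
    rw [e1, e2]
    ring
  have s2 : -(|(p : ℝ)| * X.r + |(q : ℝ)| * X.r) ≤ p * e.re + q * e.im := by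
    have k1 : |p * e.re| ≤ |(p : ℝ)| * X.r := by
      rw [abs_mul]
      exact mul_le_mul_of_nonneg_left r1 (abs_nonneg _)
    have k2 : |q * e.im| ≤ |(q : ℝ)| * X.r := by
      rw [abs_mul]
      exact mul_le_mul_of_nonneg_left r2 (abs_nonneg _)
    have k3 := (abs_le.1 k1).1
    have k4 := (abs_le.1 k2).1
    linarith
  have s3 : -(|((p * X.c + q * X.d : ℤ) : ℝ)| * hx + |((q * X.c - p * X.d : ℤ) : ℝ)| * hy) ≤
      4294967296 * ((p * X.c + q * X.d) * h.re + (q * X.c - p * X.d) * h.im) := by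
    have k1 : |((p * X.c + q * X.d : ℤ) : ℝ) * (h.re * 4294967296)| ≤
        |((p * X.c + q * X.d : ℤ) : ℝ)| * hx := by
      rw [abs_mul, abs_mul, abs_of_pos (show (0 : ℝ) < 4294967296 by norm_num)]
      exact mul_le_mul_of_nonneg_left h1 (abs_nonneg _)
    have k2 : |((q * X.c - p * X.d : ℤ) : ℝ) * (h.im * 4294967296)| ≤
        |((q * X.c - p * X.d : ℤ) : ℝ)| * hy := by
      rw [abs_mul, abs_mul, abs_of_pos (show (0 : ℝ) < 4294967296 by norm_num)]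
      exact mul_le_mul_of_nonneg_left h2 (abs_nonneg _)
    have k3 := (abs_le.1 k1).1
    have k4 := (abs_le.1 k2).1
    push_cast at k3 k4 ⊢
    linarith
  have s4 := div_lo (ia (p * X.c + q * X.d) * hx + ia (q * X.c - p * X.d) * hy)
  unfold lmin
  push_cast at s4 ⊢
  simp only [ia_eq] at s4 ⊢
  push_cast at s3 s4 ⊢
  rw [s1]
  linarith

/-- An upper bound of the square of the centre part. -/
def umax (hx hy : ℤ) (X : TM) : ℤ :=
  X.a * X.a + X.b * X.b + (2 * (ia (X.a * X.c + X.b * X.d) * hx +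
    ia (X.b * X.c - X.a * X.d) * hy)) / 4294967296 + 1 +
    ((X.c * X.c + X.d * X.d) * (hx * hx + hy * hy)) / 4294967296 / 4294967296 + 2

theorem umax_ge {hx hy : ℤ} (h1 : |h.re| * 4294967296 ≤ hx) (h2 : |h.im| * 4294967296 ≤ hy) :
    ‖ci X.a X.b + ci X.c X.d * h‖ ^ 2 ≤ (umax hx hy X : ℝ) := by
  rw [← normSq_eq_norm_sq, normSq_apply]
  have e1 : (ci X.a X.b + ci X.c X.d * h).re = X.a + (X.c * h.re - X.d * h.im) := by
    rw [add_re, mul_re (ci _ _), ci_re, ci_re, ci_im]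
  have e2 : (ci X.a X.b + ci X.c X.d * h).im = X.b + (X.c * h.im + X.d * h.re) := by
    rw [add_im, mul_im (ci _ _), ci_im, ci_re, ci_im]
  rw [e1, e2]
  have s1 : ((X.a : ℝ) + (X.c * h.re - X.d * h.im)) * (X.a + (X.c * h.re - X.d * h.im)) +
      (X.b + (X.c * h.im + X.d * h.re)) * (X.b + (X.c * h.im + X.d * h.re)) =
      X.a * X.a + X.b * X.b + 2 * ((X.a * X.c + X.b * X.d) * h.re +
        (X.b * X.c - X.a * X.d) * h.im) + (X.c * X.c + X.d * X.d) * (h.re ^ 2 + h.im ^ 2) := by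
    ring
  rw [s1]
  have k1 : ((X.a * X.c + X.b * X.d : ℤ) : ℝ) * (h.re * 4294967296) ≤
      |((X.a * X.c + X.b * X.d : ℤ) : ℝ)| * hx := by
    refine (le_abs_self _).trans ?_
    rw [abs_mul, abs_mul, abs_of_pos (show (0 : ℝ) < 4294967296 by norm_num)]
    exact mul_le_mul_of_nonneg_left h1 (abs_nonneg _)
  have k2 : ((X.b * X.c - X.a * X.d : ℤ) : ℝ) * (h.im * 4294967296) ≤
      |((X.b * X.c - X.a * X.d : ℤ) : ℝ)| * hy := by
    refine (le_abs_self _).trans ?_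
    rw [abs_mul, abs_mul, abs_of_pos (show (0 : ℝ) < 4294967296 by norm_num)]
    exact mul_le_mul_of_nonneg_left h2 (abs_nonneg _)
  have k3 : (h.re ^ 2 + h.im ^ 2) * (4294967296 * 4294967296) ≤ hx * hx + hy * hy := by
    have m1 := mul_le_mul h1 h1 (by positivity) ((by positivity : (0 : ℝ) ≤ |h.re| * 4294967296).trans h1)
    have m2 := mul_le_mul h2 h2 (by positivity) ((by positivity : (0 : ℝ) ≤ |h.im| * 4294967296).trans h2)
    have n1 := sq_abs h.re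
    have n2 := sq_abs h.im
    rw [← n1, ← n2]
    linarith
  have k4 := mul_le_mul_of_nonneg_left k3 (show (0 : ℝ) ≤ (X.c * X.c + X.d * X.d) by
    nlinarith [mul_self_nonneg (X.c : ℝ), mul_self_nonneg (X.d : ℝ)])
  have d1 := div_lo (2 * (ia (X.a * X.c + X.b * X.d) * hx + ia (X.b * X.c - X.a * X.d) * hy))
  have d2 := div_lo ((X.c * X.c + X.d * X.d) * (hx * hx + hy * hy))
  have d3 := div_lo (((X.c * X.c + X.d * X.d) * (hx * hx + hy * hy)) / 4294967296)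
  unfold umax
  push_cast at d1 d2 d3 k1 k2 ⊢
  rw [ia_eq, ia_eq] at d1
  push_cast at d1
  linarith

/-- The number is less than `k / 1000`. -/
theorem lt_of_umax {hx hy k : ℤ} (ok : X.Ok h x) (h1 : |h.re| * 4294967296 ≤ hx)
    (h2 : |h.im| * 4294967296 ≤ hy) (h3 : 0 ≤ k * 4294967296 - 1000 * X.r)
    (h4 : 1000000 * umax hx hy X <
      (k * 4294967296 - 1000 * X.r) * (k * 4294967296 - 1000 * X.r)) :
    1000 * ‖x‖ < k := by
  have h5 := umax_ge (X := X) h1 h2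
  have h3' : (0 : ℝ) ≤ k * 4294967296 - 1000 * X.r := by exact_mod_cast h3
  have h4' : 1000000 * (umax hx hy X : ℝ) <
      (k * 4294967296 - 1000 * X.r) * (k * 4294967296 - 1000 * X.r) := by exact_mod_cast h4
  have h6 : 1000 * ‖ci X.a X.b + ci X.c X.d * h‖ < k * 4294967296 - 1000 * X.r := by
    apply lt_of_pow_lt_pow_left₀ 2 h3'
    rw [mul_pow]
    nlinarith
  unfold TM.Ok at ok
  have h7 : ‖(4294967296 : ℂ) * x‖ ≤ ‖ci X.a X.b + ci X.c X.d * h‖ + X.r := by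
    have : (4294967296 : ℂ) * x = (ci X.a X.b + ci X.c X.d * h) +
      (4294967296 * x - (ci X.a X.b + ci X.c X.d * h)) := by ring
    rw [this]
    exact (norm_add_le _ _).trans (add_le_add_right ok _)
  rw [norm_mul] at h7
  have n2 : ‖(4294967296 : ℂ)‖ = 4294967296 := by simp
  rw [n2] at h7
  linarith

/-- The number is greater than `k / 1000`. -/
theorem gt_of_lmin {hx hy k p q : ℤ} (ok : X.Ok h x) (h1 : |h.re| * 4294967296 ≤ hx)
    (h2 : |h.im| * 4294967296 ≤ hy) (h3 : 0 < lmin hx hy X p q) (hk : 0 ≤ k)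
    (h4 : (k * 4294967296) * (k * 4294967296) * (p * p + q * q) <
      (1000 * lmin hx hy X p q) * (1000 * lmin hx hy X p q)) :
    (k : ℝ) < 1000 * ‖x‖ := by
  have h5 := lmin_le (p := p) (q := q) ok h1 h2
  have h3' : (0 : ℝ) < lmin hx hy X p q := by exact_mod_cast h3
  have h4' : ((k : ℝ) * 4294967296) * (k * 4294967296) * (p * p + q * q) <
      (1000 * lmin hx hy X p q) * (1000 * lmin hx hy X p q) := by exact_mod_cast h4
  have hk' : (0 : ℝ) ≤ k := by exact_mod_cast hk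
  -- `(p re + q im)² ≤ (p² + q²) |x|²`
  have h6 : ((p : ℝ) * x.re + q * x.im) ^ 2 ≤ (p * p + q * q) * ‖x‖ ^ 2 := by
    rw [← normSq_eq_norm_sq, normSq_apply]
    nlinarith [sq_nonneg ((p : ℝ) * x.im - q * x.re)]
  set m : ℝ := (lmin hx hy X p q : ℝ) with hm
  set v : ℝ := (p : ℝ) * x.re + q * x.im with hv
  have h7 : m ^ 2 ≤ (4294967296 * v) ^ 2 := pow_le_pow_left₀ h3'.le h5 2
  have hn : (0 : ℝ) < p * p + q * q := by
    by_contra hc
    push Not at hc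
    have h8 : (p * p + q * q : ℝ) * ‖x‖ ^ 2 ≤ 0 := mul_nonpos_of_nonpos_of_nonneg hc (sq_nonneg _)
    have h9 : 0 < m ^ 2 := by positivity
    nlinarith
  have h8 : ((k : ℝ) * 4294967296) ^ 2 * (p * p + q * q) <
      (1000 * 4294967296 * ‖x‖) ^ 2 * (p * p + q * q) := by nlinarith
  have h9 := lt_of_mul_lt_mul_right h8 hn.le
  have h10 := (pow_lt_pow_iff_left₀ (by positivity) (by positivity) two_ne_zero).1 h9
  linarith

/-- The real part of `x conj y` is positive. -/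
def posT (ρ : ℤ) (X Y : TM) : Bool :=
  let dX := (ia X.c + ia X.d) * ρ / 4294967296 + 1 + X.r
  let dY := (ia Y.c + ia Y.d) * ρ / 4294967296 + 1 + Y.r
  decide ((ia X.a + ia X.b) * dY + (ia Y.a + ia Y.b) * dX + dX * dY < X.a * Y.a + X.b * Y.b)

theorem dev_le {ρ : ℤ} (ok : X.Ok h x) (hρ : ‖h‖ * 4294967296 ≤ ρ) :
    ‖(4294967296 : ℂ) * x - ci X.a X.b‖ ≤
      (((ia X.c + ia X.d) * ρ / 4294967296 + 1 + X.r : ℤ) : ℝ) := by
  have nC := norm_ci_le X.c X.d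
  have c1 : ‖ci X.c X.d * h‖ ≤ (((ia X.c + ia X.d) * ρ / 4294967296 + 1 : ℤ) : ℝ) := by
    rw [norm_mul]
    have k := div_lo ((ia X.c + ia X.d) * ρ)
    push_cast at k ⊢
    have k2 : ‖ci X.c X.d‖ * (‖h‖ * 4294967296) ≤ ((ia X.c + ia X.d : ℤ) : ℝ) * ρ :=
      mul_le_mul nC hρ (by positivity) ((norm_nonneg _).trans nC)
    push_cast at k2
    linarith
  have e : (4294967296 : ℂ) * x - ci X.a X.b = ci X.c X.d * h +
      (4294967296 * x - (ci X.a X.b + ci X.c X.d * h)) := by ring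
  rw [e]
  push_cast at c1 ⊢
  exact (norm_add_le _ _).trans (add_le_add c1 ok)

theorem posT_sound {ρ : ℤ} (hx : X.Ok h x) (hy : Y.Ok h y) (hρ : ‖h‖ * 4294967296 ≤ ρ)
    (hc : posT ρ X Y = true) : 0 < (x * (starRingEnd ℂ) y).re := by
  unfold posT at hc
  have hc' := of_decide_eq_true hc
  have dx := dev_le hx hρ
  have dy := dev_le hy hρ
  obtain ⟨DX, hDX⟩ : ∃ D : ℤ, D = (ia X.c + ia X.d) * ρ / 4294967296 + 1 + X.r := ⟨_, rfl⟩
  obtain ⟨DY, hDY⟩ : ∃ D : ℤ, D = (ia Y.c + ia Y.d) * ρ / 4294967296 + 1 + Y.r := ⟨_, rfl⟩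
  rw [← hDX] at dx
  rw [← hDY] at dy
  simp only [← hDX, ← hDY] at hc'
  have hr : ((ia X.a : ℝ) + ia X.b) * DY + ((ia Y.a : ℝ) + ia Y.b) * DX + DX * DY <
      X.a * Y.a + X.b * Y.b := by exact_mod_cast hc'
  obtain ⟨A, hA⟩ : ∃ A, A = ci X.a X.b := ⟨_, rfl⟩
  obtain ⟨B, hB⟩ : ∃ B, B = ci Y.a Y.b := ⟨_, rfl⟩
  have nA : ‖A‖ ≤ ((ia X.a + ia X.b : ℤ) : ℝ) := by rw [hA]; exact norm_ci_le _ _
  have nB : ‖B‖ ≤ ((ia Y.a + ia Y.b : ℤ) : ℝ) := by rw [hB]; exact norm_ci_le _ _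
  rw [← hA] at dx
  rw [← hB] at dy
  obtain ⟨u, hu⟩ : ∃ u, u = 4294967296 * x - A := ⟨_, rfl⟩
  obtain ⟨v, hv⟩ : ∃ v, v = 4294967296 * y - B := ⟨_, rfl⟩
  rw [← hu] at dx
  rw [← hv] at dy
  have key : (4294967296 * x * (starRingEnd ℂ) (4294967296 * y)) = A * (starRingEnd ℂ) B +
      (A * (starRingEnd ℂ) v + u * (starRingEnd ℂ) B + u * (starRingEnd ℂ) v) := by
    have e1 : (4294967296 : ℂ) * x = A + u := by rw [hu]; ring
    have e2 : (4294967296 : ℂ) * y = B + v := by rw [hv]; ring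
    rw [e1, e2, map_add]
    ring
  have n1 : ‖A * (starRingEnd ℂ) v + u * (starRingEnd ℂ) B + u * (starRingEnd ℂ) v‖ ≤
      ((ia X.a + ia X.b : ℤ) : ℝ) * DY + DX * ((ia Y.a + ia Y.b : ℤ) : ℝ) + DX * DY := by
    refine (norm_add_le _ _).trans (add_le_add ((norm_add_le _ _).trans (add_le_add ?_ ?_)) ?_)
    · rw [norm_mul, norm_conj]
      exact mul_le_mul nA dy (norm_nonneg _) ((norm_nonneg _).trans nA)
    · rw [norm_mul, norm_conj]
      exact mul_le_mul dx nB (norm_nonneg _) ((norm_nonneg _).trans dx)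
    · rw [norm_mul, norm_conj]
      exact mul_le_mul dx dy (norm_nonneg _) ((norm_nonneg _).trans dx)
  have r1 : (A * (starRingEnd ℂ) B).re = X.a * Y.a + X.b * Y.b := by
    rw [hA, hB, mul_re, conj_re, conj_im, ci_re, ci_re, ci_im, ci_im]
    ring
  have r2 := (abs_le.1 ((Complex.abs_re_le_norm _).trans n1)).1
  have r3 : (4294967296 * x * (starRingEnd ℂ) (4294967296 * y)).re =
      4294967296 * 4294967296 * (x * (starRingEnd ℂ) y).re := by
    rw [map_mul]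
    have e1 : (starRingEnd ℂ) (4294967296 : ℂ) = 4294967296 := by
      rw [show (4294967296 : ℂ) = ((4294967296 : ℝ) : ℂ) by push_cast; rfl, conj_ofReal]
    rw [e1]
    have e2 : (4294967296 : ℂ) * x * (4294967296 * (starRingEnd ℂ) y) =
        ((4294967296 * 4294967296 : ℝ) : ℂ) * (x * (starRingEnd ℂ) y) := by
      push_cast
      ring
    rw [e2, re_ofReal_mul]
  rw [key, add_re, r1] at r3
  push_cast at r2
  have h9 : 0 < 4294967296 * 4294967296 * (x * (starRingEnd ℂ) y).re := by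
    rw [← r3]
    linarith
  exact (mul_pos_iff_of_pos_left (by norm_num)).1 h9

end ops

end Pool.Agent.S5.C33
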