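import Pool.Agent.S5.K3.C3A

/-!
# The chain `3, 3, 2, 2` from its end

`k0, k1, k2` the numbers of the first three vertices, `l3, l4` the conjugates of the next two.
All of them are polynomials of `k0`.
-/

set_option autoImplicit false

namespace Pool.Agent.S5.C33

open Complex

/-- A region, in `1 / 1000`. -/
structure Bd where
  k0 : ℤ
  k1 : ℤ
  t0 : ℤ
  t1 : ℤ

/-- The meaning; `n` is the absolute value. -/
structure Bd.In (b : Bd) (n x y : ℝ) : Prop where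
  lo : (b.k0 : ℝ) ≤ 1000 * n
  hi : 1000 * n ≤ b.k1
  a0 : (b.t0 : ℝ) * x ≤ 1000 * y
  a1 : 1000 * y ≤ b.t1 * x

/-- The regions of the table. -/
def b0 : Bd := ⟨603, 658, 438, 538⟩
def b1 : Bd := ⟨783, 854, 419, 612⟩
def b2 : Bd := ⟨781, 946, 460, 713⟩
def b3 : Bd := ⟨750, 962, 393, 743⟩

/-- The regions of the last number. -/
def b4 : List Bd := [⟨776, 962, 419, 743⟩, ⟨744, 898, 279, 477⟩, ⟨591, 660, 451, 577⟩,
  ⟨697, 740, 170, 230⟩, ⟨780, 870, 156, 356⟩, ⟨790, 815, 78, 108⟩, ⟨818, 886, 85, 203⟩,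
  ⟨846, 916, 32, 127⟩, ⟨884, 1000, 0, 80⟩]

/-- The conclusions. -/
def w0 : Bd := ⟨630, 633, 505, 512⟩
def w1 : Bd := ⟨808, 822, 556, 577⟩
def w2 : Bd := ⟨833, 889, 552, 630⟩

/-- The relations. -/
structure Rels (k0 k1 k2 l3 l4 e1 e2 e3 : ℂ) : Prop where
  h1 : k1 = I * k0 * (4 * k0 ^ 2 - 1)
  q1 : e1 ^ 2 = k1 ^ 2 + k0 ^ 2 * (1 - k1 ^ 2)
  s1 : 0 < (e1 * (starRingEnd ℂ) k1).re
  h2 : k2 = (4 * k1 ^ 3 - 3 * k1) * k0 + I * (4 * k1 ^ 2 - 1) * e1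
  q2 : e2 ^ 2 = k2 ^ 2 + k1 ^ 2 * (1 - k2 ^ 2)
  s2 : 0 < (e2 * (starRingEnd ℂ) k2).re
  h3 : l3 = (2 * k2 ^ 2 - 1) * k1 + 2 * I * k2 * e2
  q3 : e3 ^ 2 = l3 ^ 2 + k2 ^ 2 * (1 - l3 ^ 2)
  s3 : 0 < (e3 * (starRingEnd ℂ) l3).re
  h4 : l4 = (2 * l3 ^ 2 - 1) * k2 - 2 * I * l3 * e3

/-- The regions. -/
structure Regs (k0 k1 k2 l3 l4 : ℂ) : Prop where
  r0 : b0.In ‖k0‖ k0.re (-k0.im)
  r1 : b1.In ‖k1‖ k1.re (-k1.im)
  r2 : b2.In ‖k2‖ k2.re (-k2.im)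
  r3 : b3.In ‖l3‖ l3.re l3.im
  r4 : ∃ b ∈ b4, b.In ‖l4‖ l4.re l4.im

theorem eq_of_sq {e E k : ℂ} (h : e ^ 2 = E ^ 2) (h1 : 0 < (e * (starRingEnd ℂ) k).re)
    (h2 : 0 < (E * (starRingEnd ℂ) k).re) : e = E := by
  rcases sq_eq_sq_iff_eq_or_eq_neg.1 h with h3 | h3
  · exact h3
  · rw [h3, neg_mul, neg_re] at h1
    linarith

section rels

variable {k0 k1 k2 l3 l4 e1 e2 e3 : ℂ}

/-- The first edge. -/
theorem Rels.e1_eq (h : Rels k0 k1 k2 l3 l4 e1 e2 e3)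
    (hp : 0 < (k0 * k0 * (3 - 4 * (k0 * k0)) * (starRingEnd ℂ) k1).re) :
    e1 = k0 * k0 * (3 - 4 * (k0 * k0)) := by
  refine eq_of_sq ?_ h.s1 hp
  rw [h.q1, h.h1]
  linear_combination (k0 ^ 2 * (4 * k0 ^ 2 - 1) ^ 2 * (1 - k0 ^ 2)) * I_sq

/-- The second edge. -/
theorem Rels.e2_eq (h : Rels k0 k1 k2 l3 l4 e1 e2 e3)
    (hp : 0 < (-(k1 * (4 * (k1 * k1) - 3) * e1 +
      I * ((4 * (k1 * k1) - 1) * ((1 - k1 * k1) * k0))) * (starRingEnd ℂ) k2).re) :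
    e2 = -(k1 * (4 * (k1 * k1) - 3) * e1 + I * ((4 * (k1 * k1) - 1) * ((1 - k1 * k1) * k0))) := by
  refine eq_of_sq ?_ h.s2 hp
  rw [h.q2, h.h2]
  have h1 := h.q1
  linear_combination (-1 : ℂ) * h1 + ((1 - k1 ^ 2) * (4 * k1 ^ 2 - 1) ^ 2 * (e1 ^ 2 - (1 - k1 ^ 2) * k0 ^ 2)) * I_sq

/-- The third edge. -/
theorem Rels.e3_eq (h : Rels k0 k1 k2 l3 l4 e1 e2 e3)
    (hp : 0 < (-((2 * (k2 * k2) - 1) * e2 +
      I * (2 * (k2 * ((1 - k2 * k2) * k1)))) * (starRingEnd ℂ) l3).re) :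
    e3 = -((2 * (k2 * k2) - 1) * e2 + I * (2 * (k2 * ((1 - k2 * k2) * k1)))) := by
  refine eq_of_sq ?_ h.s3 hp
  rw [h.q3, h.h3]
  have h1 := h.q2
  linear_combination (-1 : ℂ) * h1 + ((1 - k2 ^ 2) * (2 * k2) ^ 2 * (e2 ^ 2 - (1 - k2 ^ 2) * k1 ^ 2)) * I_sq

end rels

/-! ### The program -/

/-- `k ≤ 1000 |x|` fails on the cell. -/
def f0 (hx hy : ℤ) (X : TM) (k : ℤ) : Bool :=
  let m := k * 4294967296 - 1000 * X.r
  decide (0 ≤ m) && decide (1000000 * umax hx hy X < m * m)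

/-- `k < 1000 |x|` on the cell. -/
def f1 (hx hy : ℤ) (X : TM) (k : ℤ) : Bool :=
  let p := X.a / 4194304
  let q := X.b / 4194304
  let m := lmin hx hy X p q
  decide (0 < m) && (decide (0 ≤ k) &&
    decide ((k * 4294967296) * (k * 4294967296) * (p * p + q * q) < (1000 * m) * (1000 * m)))

/-- One of the four conditions fails; `g` is the sign of the imaginary part. -/
def fl (hx hy : ℤ) (X : TM) (g : ℤ) (b : Bd) (t : ℕ) : Bool :=
  match t with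
  | 0 => f0 hx hy X b.k0
  | 1 => f1 hx hy X b.k1
  | 2 => decide (0 < lmin hx hy X b.t0 (-(g * 1000)))
  | 3 => decide (0 < lmin hx hy X (-b.t1) (g * 1000))
  | _ => false

/-- The cell is in the region. -/
def ins (hx hy : ℤ) (X : TM) (b : Bd) : Bool :=
  f0 hx hy X b.k1 && (f1 hx hy X b.k0 && (decide (0 < lmin hx hy X (-b.t0) (-1000)) &&
    decide (0 < lmin hx hy X b.t1 1000)))

/-- All regions of the last number fail. -/
def fls (hx hy : ℤ) (X : TM) : List Bd → ℕ → Bool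
  | [], _ => true
  | b :: l, n => fl hx hy X 1 b (n % 4) && fls hx hy X l (n / 4)

/-- The leaf of type `t`. -/
def leaf (t : ℕ) (cx cy hx hy : ℤ) : Bool :=
  let ρ := (hx + hy) * 3 / 4 + 1
  let K0 : TM := ⟨cx, -cy, 4294967296, 0, 0⟩
  decide (0 ≤ hx) && (decide (0 ≤ hy) && (decide (hx * hx + hy * hy ≤ ρ * ρ) &&
  (decide (2 * ρ ≤ 4294967296) &&
  (if t < 4 then fl hx hy K0 (-1) b0 t else
    let u := TM.mul ρ K0 K0
    let K1 := TM.mI (TM.mul ρ K0 (TM.sub (TM.nmul 4 u) (TM.cst 1)))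
    if t < 8 then fl hx hy K1 (-1) b1 (t - 4) else
    let E1 := TM.mul ρ u (TM.sub (TM.cst 3) (TM.nmul 4 u))
    let v := TM.mul ρ K1 K1
    let U := TM.sub (TM.nmul 4 v) (TM.cst 1)
    let T := TM.mul ρ K1 (TM.sub (TM.nmul 4 v) (TM.cst 3))
    let K2 := TM.add (TM.mul ρ T K0) (TM.mI (TM.mul ρ U E1))
    posT ρ E1 K1 &&
    (if t < 12 then fl hx hy K2 (-1) b2 (t - 8) else
    if t = 12 then ins hx hy K0 w0 && (ins hx hy K1 w1 && ins hx hy K2 w2) else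
    let E2 := TM.neg (TM.add (TM.mul ρ T E1)
      (TM.mI (TM.mul ρ U (TM.mul ρ (TM.sub (TM.cst 1) v) K0))))
    let w := TM.mul ρ K2 K2
    let T2 := TM.sub (TM.nmul 2 w) (TM.cst 1)
    let L3 := TM.add (TM.mul ρ T2 K1) (TM.mI (TM.nmul 2 (TM.mul ρ K2 E2)))
    posT ρ E2 K2 &&
    (if t < 17 then fl hx hy L3 1 b3 (t - 13) else
    let E3 := TM.neg (TM.add (TM.mul ρ T2 E2)
      (TM.mI (TM.nmul 2 (TM.mul ρ K2 (TM.mul ρ (TM.sub (TM.cst 1) w) K1)))))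
    let x := TM.mul ρ L3 L3
    let T3 := TM.sub (TM.nmul 2 x) (TM.cst 1)
    let L4 := TM.sub (TM.mul ρ T3 K2) (TM.mI (TM.nmul 2 (TM.mul ρ L3 E3)))
    posT ρ E3 L3 && fls hx hy L4 b4 (t - 17)))))))

/-! ### Soundness -/

section sound

variable {hx hy : ℤ} {X : TM} {h x : ℂ}

theorem f0_sound {k : ℤ} (hc : f0 hx hy X k = true) (ok : X.Ok h x)
    (h1 : |h.re| * 4294967296 ≤ hx) (h2 : |h.im| * 4294967296 ≤ hy) : 1000 * ‖x‖ < k := by
  unfold f0 at hc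
  simp only [Bool.and_eq_true, decide_eq_true_eq] at hc
  exact lt_of_umax ok h1 h2 hc.1 hc.2

theorem f1_sound {k : ℤ} (hc : f1 hx hy X k = true) (ok : X.Ok h x)
    (h1 : |h.re| * 4294967296 ≤ hx) (h2 : |h.im| * 4294967296 ≤ hy) : k < 1000 * ‖x‖ := by
  unfold f1 at hc
  simp only [Bool.and_eq_true, decide_eq_true_eq] at hc
  exact gt_of_lmin ok h1 h2 hc.1 hc.2.1 hc.2.2

theorem lm_sound {p q : ℤ} (hc : 0 < lmin hx hy X p q) (ok : X.Ok h x)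
    (h1 : |h.re| * 4294967296 ≤ hx) (h2 : |h.im| * 4294967296 ≤ hy) :
    0 < (p : ℝ) * x.re + q * x.im := by
  have h3 := lmin_le (p := p) (q := q) ok h1 h2
  have h4 : (0 : ℝ) < lmin hx hy X p q := by exact_mod_cast hc
  linarith

theorem fl_sound {g : ℤ} {b : Bd} {t : ℕ} (hc : fl hx hy X g b t = true) (ok : X.Ok h x)
    (h1 : |h.re| * 4294967296 ≤ hx) (h2 : |h.im| * 4294967296 ≤ hy)
    (hb : b.In ‖x‖ x.re (g * x.im)) : False := by
  unfold fl at hc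
  split at hc
  · have := f0_sound hc ok h1 h2
    linarith [hb.lo]
  · have := f1_sound hc ok h1 h2
    linarith [hb.hi]
  · have := lm_sound (of_decide_eq_true hc) ok h1 h2
    push_cast at this
    linarith [hb.a0]
  · have := lm_sound (of_decide_eq_true hc) ok h1 h2
    push_cast at this
    linarith [hb.a1]
  · exact absurd hc (by simp)

theorem ins_sound {b : Bd} (hc : ins hx hy X b = true) (ok : X.Ok h x)
    (h1 : |h.re| * 4294967296 ≤ hx) (h2 : |h.im| * 4294967296 ≤ hy) :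
    b.In ‖x‖ x.re (-x.im) := by
  unfold ins at hc
  simp only [Bool.and_eq_true, decide_eq_true_eq] at hc
  obtain ⟨c1, c2, c3, c4⟩ := hc
  have k1 := f0_sound c1 ok h1 h2
  have k2 := f1_sound c2 ok h1 h2
  have k3 := lm_sound c3 ok h1 h2
  have k4 := lm_sound c4 ok h1 h2
  push_cast at k3 k4
  exact ⟨k2.le, k1.le, by linarith, by linarith⟩

theorem fls_sound (ok : X.Ok h x) (h1 : |h.re| * 4294967296 ≤ hx)
    (h2 : |h.im| * 4294967296 ≤ hy) : ∀ (l : List Bd) (n : ℕ), fls hx hy X l n = true →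
      ∀ b ∈ l, ¬ b.In ‖x‖ x.re x.im := by
  intro l
  induction l with
  | nil => intro n _ b hb; exact absurd hb (by simp)
  | cons c l ih =>
    intro n hc b hb
    unfold fls at hc
    rw [Bool.and_eq_true] at hc
    rcases List.mem_cons.1 hb with hb | hb
    · intro hi
      rw [hb] at hi
      exact fl_sound hc.1 ok h1 h2 (by rw [Int.cast_one, one_mul]; exact hi)
    · exact ih _ hc.2 b hb

end sound

/-- The conclusion. -/
structure Outs (k0 k1 k2 : ℂ) : Prop where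
  o0 : w0.In ‖k0‖ k0.re (-k0.im)
  o1 : w1.In ‖k1‖ k1.re (-k1.im)
  o2 : w2.In ‖k2‖ k2.re (-k2.im)

theorem leaf_sound {t : ℕ} {cx cy hx hy : ℤ} (hc : leaf t cx cy hx hy = true)
    {k0 k1 k2 l3 l4 e1 e2 e3 : ℂ} (R : Rels k0 k1 k2 l3 l4 e1 e2 e3) (G : Regs k0 k1 k2 l3 l4)
    (hcx : |k0.re * 4294967296 - cx| ≤ hx) (hcy : |-k0.im * 4294967296 - cy| ≤ hy) :
    Outs k0 k1 k2 := by
  obtain ⟨h, hh⟩ : ∃ h : ℂ, h = k0 - ci cx (-cy) / 4294967296 := ⟨_, rfl⟩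
  obtain ⟨ρ, hρ⟩ : ∃ ρ : ℤ, ρ = (hx + hy) * 3 / 4 + 1 := ⟨_, rfl⟩
  unfold leaf at hc
  simp only [← hρ] at hc
  rw [Bool.and_eq_true, Bool.and_eq_true, Bool.and_eq_true, Bool.and_eq_true, decide_eq_true_eq,
    decide_eq_true_eq, decide_eq_true_eq, decide_eq_true_eq] at hc
  obtain ⟨c1, c2, c3, c4, hc⟩ := hc
  have e4 : (4294967296 : ℂ) = ((4294967296 : ℝ) : ℂ) := by push_cast; rfl
  have hre : h.re * 4294967296 = k0.re * 4294967296 - cx := by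
    rw [hh, sub_re, e4, div_ofReal_re, ci_re]
    field_simp
  have him : h.im * 4294967296 = -(-k0.im * 4294967296 - cy) := by
    rw [hh, sub_im, e4, div_ofReal_im, ci_im]
    push_cast
    field_simp
    ring
  have h1 : |h.re| * 4294967296 ≤ hx := by
    have : |h.re * 4294967296| ≤ hx := by rw [hre]; exact hcx
    rwa [abs_mul, abs_of_pos (show (0 : ℝ) < 4294967296 by norm_num)] at this
  have h2 : |h.im| * 4294967296 ≤ hy := by
    have : |h.im * 4294967296| ≤ hy := by rw [him, abs_neg]; exact hcy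
    rwa [abs_mul, abs_of_pos (show (0 : ℝ) < 4294967296 by norm_num)] at this
  have c1' : (0 : ℝ) ≤ hx := by exact_mod_cast c1
  have c2' : (0 : ℝ) ≤ hy := by exact_mod_cast c2
  have c3' : (hx : ℝ) * hx + hy * hy ≤ ρ * ρ := by exact_mod_cast c3
  have c4' : 2 * (ρ : ℝ) ≤ 4294967296 := by exact_mod_cast c4
  have c5' : (0 : ℝ) ≤ ρ := by
    have : 0 ≤ ρ := by omega
    exact_mod_cast this
  have h3 : ‖h‖ * 4294967296 ≤ ρ := by
    apply le_of_sq_le_sq _ c5'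
    rw [mul_pow, ← normSq_eq_norm_sq, normSq_apply]
    have m1 := mul_le_mul h1 h1 (by positivity) c1'
    have m2 := mul_le_mul h2 h2 (by positivity) c2'
    have n1 := abs_mul_abs_self h.re
    have n2 := abs_mul_abs_self h.im
    rw [← n1, ← n2]
    nlinarith
  have h4 : ‖h‖ ≤ 1 / 2 := by linarith
  obtain ⟨K0, hK0⟩ : ∃ K0 : TM, K0 = ⟨cx, -cy, 4294967296, 0, 0⟩ := ⟨_, rfl⟩
  have o0 : K0.Ok h k0 := by
    rw [hK0]
    unfold TM.Ok
    simp only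
    have : (4294967296 : ℂ) * k0 - (ci cx (-cy) + ci 4294967296 0 * h) = 0 := by
      rw [hh]
      have : ci 4294967296 0 = 4294967296 := by simp [ci]
      rw [this]
      field_simp
      ring
    rw [this, norm_zero]
    simp
  rw [← hK0] at hc
  have mu : ∀ {X Y : TM} {x y : ℂ}, X.Ok h x → Y.Ok h y → (TM.mul ρ X Y).Ok h (x * y) :=
    fun a b => a.mul b h3 h4
  have cn : ∀ n : ℤ, (TM.cst n).Ok h n := fun n => cst_ok n h
  have gm : ∀ {w : ℂ}, -w.im = (((-1 : ℤ) : ℝ)) * w.im := by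
    intro w
    push_cast
    ring
  have g1 : ∀ {w : ℂ}, w.im = (((1 : ℤ) : ℝ)) * w.im := by
    intro w
    push_cast
    ring
  by_cases t4 : t < 4
  · rw [if_pos t4] at hc
    exact (fl_sound hc o0 h1 h2 (by rw [← gm]; exact G.r0)).elim
  rw [if_neg t4] at hc
  obtain ⟨u, hu⟩ : ∃ u, u = TM.mul ρ K0 K0 := ⟨_, rfl⟩
  rw [← hu] at hc
  have ou : u.Ok h (k0 * k0) := by rw [hu]; exact mu o0 o0
  obtain ⟨K1, hK1⟩ : ∃ K1, K1 = TM.mI (TM.mul ρ K0 (TM.sub (TM.nmul 4 u) (TM.cst 1))) := ⟨_, rfl⟩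
  rw [← hK1] at hc
  have o1 : K1.Ok h k1 := by
    have := (mu o0 ((ou.nmul 4 (by norm_num)).sub (cn 1))).mI
    rw [← hK1] at this
    convert this using 1
    rw [R.h1]
    push_cast
    ring
  by_cases t8 : t < 8
  · rw [if_pos t8] at hc
    exact (fl_sound hc o1 h1 h2 (by rw [← gm]; exact G.r1)).elim
  rw [if_neg t8] at hc
  obtain ⟨E1, hE1⟩ : ∃ E1, E1 = TM.mul ρ u (TM.sub (TM.cst 3) (TM.nmul 4 u)) := ⟨_, rfl⟩
  rw [← hE1] at hc
  have oE1' : E1.Ok h (k0 * k0 * (3 - 4 * (k0 * k0))) := by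
    have := mu ou ((cn 3).sub (ou.nmul 4 (by norm_num)))
    rw [← hE1] at this
    convert this using 1
    push_cast
    ring
  obtain ⟨v, hv⟩ : ∃ v, v = TM.mul ρ K1 K1 := ⟨_, rfl⟩
  rw [← hv] at hc
  have ov : v.Ok h (k1 * k1) := by rw [hv]; exact mu o1 o1
  obtain ⟨U, hU⟩ : ∃ U, U = TM.sub (TM.nmul 4 v) (TM.cst 1) := ⟨_, rfl⟩
  rw [← hU] at hc
  have oU : U.Ok h (4 * (k1 * k1) - 1) := by
    have := (ov.nmul 4 (by norm_num)).sub (cn 1)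
    rw [← hU] at this
    convert this using 1
    push_cast
    ring
  obtain ⟨T, hT⟩ : ∃ T, T = TM.mul ρ K1 (TM.sub (TM.nmul 4 v) (TM.cst 3)) := ⟨_, rfl⟩
  rw [← hT] at hc
  have oT : T.Ok h (k1 * (4 * (k1 * k1) - 3)) := by
    have := mu o1 ((ov.nmul 4 (by norm_num)).sub (cn 3))
    rw [← hT] at this
    convert this using 1
    push_cast
    ring
  obtain ⟨K2, hK2⟩ : ∃ K2, K2 = TM.add (TM.mul ρ T K0) (TM.mI (TM.mul ρ U E1)) := ⟨_, rfl⟩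
  rw [← hK2, Bool.and_eq_true] at hc
  obtain ⟨p1, hc⟩ := hc
  have q1 := R.e1_eq (posT_sound oE1' o1 h3 p1)
  have oE1 : E1.Ok h e1 := by rw [q1]; exact oE1'
  have o2 : K2.Ok h k2 := by
    have := (mu oT o0).add (mu oU oE1).mI
    rw [← hK2] at this
    convert this using 1
    rw [R.h2]
    ring
  by_cases t12 : t < 12
  · rw [if_pos t12] at hc
    exact (fl_sound hc o2 h1 h2 (by rw [← gm]; exact G.r2)).elim
  rw [if_neg t12] at hc
  by_cases t12' : t = 12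
  · rw [if_pos t12', Bool.and_eq_true, Bool.and_eq_true] at hc
    exact ⟨ins_sound hc.1 o0 h1 h2, ins_sound hc.2.1 o1 h1 h2, ins_sound hc.2.2 o2 h1 h2⟩
  rw [if_neg t12'] at hc
  obtain ⟨E2, hE2⟩ : ∃ E2, E2 = TM.neg (TM.add (TM.mul ρ T E1)
      (TM.mI (TM.mul ρ U (TM.mul ρ (TM.sub (TM.cst 1) v) K0)))) := ⟨_, rfl⟩
  rw [← hE2] at hc
  have oE2' : E2.Ok h (-(k1 * (4 * (k1 * k1) - 3) * e1 +
      I * ((4 * (k1 * k1) - 1) * ((1 - k1 * k1) * k0)))) := by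
    have := ((mu oT oE1).add (mu oU (mu ((cn 1).sub ov) o0)).mI).neg
    rw [← hE2] at this
    convert this using 1
    push_cast
    ring
  obtain ⟨w, hw⟩ : ∃ w, w = TM.mul ρ K2 K2 := ⟨_, rfl⟩
  rw [← hw] at hc
  have ow : w.Ok h (k2 * k2) := by rw [hw]; exact mu o2 o2
  obtain ⟨T2, hT2⟩ : ∃ T2, T2 = TM.sub (TM.nmul 2 w) (TM.cst 1) := ⟨_, rfl⟩
  rw [← hT2] at hc
  have oT2 : T2.Ok h (2 * (k2 * k2) - 1) := by
    have := (ow.nmul 2 (by norm_num)).sub (cn 1)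
    rw [← hT2] at this
    convert this using 1
    push_cast
    ring
  obtain ⟨L3, hL3⟩ : ∃ L3, L3 = TM.add (TM.mul ρ T2 K1)
    (TM.mI (TM.nmul 2 (TM.mul ρ K2 E2))) := ⟨_, rfl⟩
  rw [← hL3, Bool.and_eq_true] at hc
  obtain ⟨p2, hc⟩ := hc
  have q2 := R.e2_eq (posT_sound oE2' o2 h3 p2)
  have oE2 : E2.Ok h e2 := by rw [q2]; exact oE2'
  have o3 : L3.Ok h l3 := by
    have := (mu oT2 o1).add ((mu o2 oE2).nmul 2 (by norm_num)).mI
    rw [← hL3] at this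
    convert this using 1
    rw [R.h3]
    push_cast
    ring
  by_cases t17 : t < 17
  · rw [if_pos t17] at hc
    exact (fl_sound hc o3 h1 h2 (by rw [← g1]; exact G.r3)).elim
  rw [if_neg t17] at hc
  obtain ⟨E3, hE3⟩ : ∃ E3, E3 = TM.neg (TM.add (TM.mul ρ T2 E2)
      (TM.mI (TM.nmul 2 (TM.mul ρ K2 (TM.mul ρ (TM.sub (TM.cst 1) w) K1))))) := ⟨_, rfl⟩
  rw [← hE3] at hc
  have oE3' : E3.Ok h (-((2 * (k2 * k2) - 1) * e2 +
      I * (2 * (k2 * ((1 - k2 * k2) * k1))))) := by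
    have := ((mu oT2 oE2).add ((mu o2 (mu ((cn 1).sub ow) o1)).nmul 2 (by norm_num)).mI).neg
    rw [← hE3] at this
    convert this using 1
    push_cast
    ring
  obtain ⟨x, hx'⟩ : ∃ x, x = TM.mul ρ L3 L3 := ⟨_, rfl⟩
  rw [← hx'] at hc
  have ox : x.Ok h (l3 * l3) := by rw [hx']; exact mu o3 o3
  obtain ⟨T3, hT3⟩ : ∃ T3, T3 = TM.sub (TM.nmul 2 x) (TM.cst 1) := ⟨_, rfl⟩
  rw [← hT3] at hc
  have oT3 : T3.Ok h (2 * (l3 * l3) - 1) := by
    have := (ox.nmul 2 (by norm_num)).sub (cn 1)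
    rw [← hT3] at this
    convert this using 1
    push_cast
    ring
  obtain ⟨L4, hL4⟩ : ∃ L4, L4 = TM.sub (TM.mul ρ T3 K2)
    (TM.mI (TM.nmul 2 (TM.mul ρ L3 E3))) := ⟨_, rfl⟩
  rw [← hL4, Bool.and_eq_true] at hc
  obtain ⟨p3, hc⟩ := hc
  have q3 := R.e3_eq (posT_sound oE3' o3 h3 p3)
  have oE3 : E3.Ok h e3 := by rw [q3]; exact oE3'
  have o4 : L4.Ok h l4 := by
    have := (mu oT3 o2).sub ((mu o3 oE3).nmul 2 (by norm_num)).mI
    rw [← hL4] at this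
    convert this using 1
    rw [R.h4]
    push_cast
    ring
  obtain ⟨b, hb, hi⟩ := G.r4
  exact (fls_sound o4 h1 h2 _ _ hc b hb hi).elim

end Pool.Agent.S5.C33
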