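import Pool.Agent.S5.K3.C3B

/-!
# The chain `3, 3, 2, 2` from its end: branch and bound
-/

set_option autoImplicit false

namespace Pool.Agent.S5.C33

open Complex

/-- The certificate. -/
inductive Tr where
  | l (t : ℕ)
  | x (a b : Tr)
  | y (a b : Tr)

/-- The check of a rectangle. -/
def chk : Tr → ℤ → ℤ → ℤ → ℤ → Bool
  | .l t, cx, cy, hx, hy => leaf t cx cy hx hy
  | .x a b, cx, cy, hx, hy => decide (2 * (hx / 2) = hx) &&
      (chk a (cx - hx / 2) cy (hx / 2) hy && chk b (cx + hx / 2) cy (hx / 2) hy)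
  | .y a b, cx, cy, hx, hy => decide (2 * (hy / 2) = hy) &&
      (chk a cx (cy - hy / 2) hx (hy / 2) && chk b cx (cy + hy / 2) hx (hy / 2))

theorem half {c w : ℤ} {x : ℝ} (hw : 2 * (w / 2) = w) (h : |x - c| ≤ w) :
    |x - ((c - w / 2 : ℤ) : ℝ)| ≤ ((w / 2 : ℤ) : ℝ) ∨
      |x - ((c + w / 2 : ℤ) : ℝ)| ≤ ((w / 2 : ℤ) : ℝ) := by
  have hw' : 2 * ((w / 2 : ℤ) : ℝ) = w := by exact_mod_cast hw
  obtain ⟨h1, h2⟩ := abs_le.1 h
  push_cast
  rcases le_total x c with h3 | h3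
  · left
    rw [abs_le]
    constructor <;> linarith
  · right
    rw [abs_le]
    constructor <;> linarith

theorem chk_sound {k0 k1 k2 l3 l4 e1 e2 e3 : ℂ} (R : Rels k0 k1 k2 l3 l4 e1 e2 e3)
    (G : Regs k0 k1 k2 l3 l4) : ∀ (T : Tr) (cx cy hx hy : ℤ), chk T cx cy hx hy = true →
      |k0.re * 4294967296 - cx| ≤ hx → |-k0.im * 4294967296 - cy| ≤ hy → Outs k0 k1 k2 := by
  intro T
  induction T with
  | l t => intro cx cy hx hy h h1 h2; exact leaf_sound h R G h1 h2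
  | x a b iha ihb =>
    intro cx cy hx hy h h1 h2
    unfold chk at h
    rw [Bool.and_eq_true, Bool.and_eq_true, decide_eq_true_eq] at h
    rcases half h.1 h1 with h3 | h3
    · exact iha _ _ _ _ h.2.1 h3 h2
    · exact ihb _ _ _ _ h.2.2 h3 h2
  | y a b iha ihb =>
    intro cx cy hx hy h h1 h2
    unfold chk at h
    rw [Bool.and_eq_true, Bool.and_eq_true, decide_eq_true_eq] at h
    rcases half h.1 h2 with h3 | h3
    · exact iha _ _ _ _ h.2.1 h1 h3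
    · exact ihb _ _ _ _ h.2.2 h1 h3

/-- The certificate. -/
def tr : Tr :=
  (.x (.y (.x (.l 4) (.y (.l 4) (.x (.l 4) (.y (.l 4) (.l 8))))) (.x (.y (.l 7) (.l 3)) (.y (.x
  (.y (.x (.l 11) (.y (.l 8) (.x (.l 11) (.l 13)))) (.x (.l 7) (.y (.l 11) (.l 7)))) (.y (.x (.y
  (.l 8) (.x (.y (.l 13) (.x (.l 13) (.l 13))) (.y (.x (.l 13) (.y (.l 65) (.x (.l 17) (.l 17))))
  (.x (.y (.l 17) (.l 17)) (.y (.x (.l 17) (.y (.l 17) (.l 17))) (.x (.y (.l 17) (.l 17)) (.y (.x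
  (.l 17) (.y (.l 17) (.l 12))) (.l 49)))))))) (.y (.x (.y (.l 8) (.l 16)) (.y (.l 8) (.l 16)))
  (.x (.y (.x (.y (.l 16400) (.x (.l 65) (.l 1040))) (.y (.l 16) (.l 262160))) (.x (.y (.x (.y (.l
  65) (.x (.y (.l 65) (.x (.l 17) (.l 65))) (.y (.l 65) (.l 65)))) (.y (.l 269) (.x (.l 257) (.y
  (.l 237) (.l 12))))) (.x (.y (.x (.y (.x (.y (.x (.l 17) (.l 17)) (.l 12)) (.y (.x (.y (.x (.y
  (.l 17) (.l 12)) (.y (.l 65) (.l 12))) (.l 12)) (.l 12)) (.l 12))) (.l 12)) (.l 12)) (.l 12))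
  (.l 12))) (.y (.x (.y (.l 262128) (.x (.y (.l 16368) (.l 12)) (.y (.l 65392) (.l 262000)))) (.y
  (.l 262000) (.x (.l 259952) (.l 251248)))) (.x (.l 12) (.y (.x (.y (.x (.y (.l 251248) (.l 12))
  (.y (.l 218472) (.x (.y (.l 218472) (.l 12)) (.y (.l 218472) (.x (.y (.l 218472) (.x (.l 12) (.l
  218470))) (.l 218470)))))) (.x (.l 12) (.y (.x (.l 12) (.l 218470)) (.l 12)))) (.y (.x (.y (.l
  218472) (.l 218470)) (.l 218470)) (.l 218470))) (.x (.l 12) (.l 218470))))))) (.y (.x (.y (.l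
  16) (.l 262128)) (.y (.l 16) (.l 16))) (.x (.y (.x (.y (.l 251248) (.l 218472)) (.l 218472)) (.x
  (.y (.l 218470) (.l 87398)) (.l 87398))) (.y (.l 218470) (.l 87398))))))) (.x (.y (.x (.y (.x
  (.l 11) (.y (.l 49) (.l 11))) (.l 11)) (.y (.x (.y (.x (.l 49) (.l 49)) (.l 174779)) (.y (.x (.y
  (.l 49) (.l 177)) (.y (.x (.l 49) (.y (.l 49) (.l 177))) (.x (.l 185) (.l 10939)))) (.x (.l
  174779) (.y (.l 174779) (.l 174699))))) (.x (.l 15) (.y (.l 15) (.l 15))))) (.x (.l 11) (.y (.l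
  15) (.l 9)))) (.y (.x (.y (.x (.y (.x (.y (.x (.y (.x (.y (.l 12) (.l 161)) (.l 12)) (.x (.l
  169) (.y (.l 12) (.l 171)))) (.l 12)) (.x (.y (.x (.l 2731) (.y (.x (.l 619) (.y (.l 619) (.l
  2667))) (.l 2667))) (.l 43627)) (.y (.x (.y (.l 12) (.l 10859)) (.l 12)) (.x (.y (.x (.l 43627)
  (.y (.x (.l 42603) (.l 12)) (.l 42603))) (.x (.l 42603) (.y (.l 42603) (.l 173675)))) (.y (.l
  12) (.x (.y (.x (.l 42603) (.l 12)) (.l 173419)) (.l 12))))))) (.l 12)) (.x (.y (.x (.l 174699)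
  (.y (.x (.l 173675) (.l 173419)) (.l 169323))) (.l 173675)) (.y (.x (.y (.x (.y (.l 12) (.l
  152935)) (.y (.l 12) (.x (.l 152934) (.y (.l 12) (.l 152934))))) (.l 152935)) (.y (.x (.y (.l
  12) (.x (.y (.x (.y (.l 12) (.l 87398)) (.l 87398)) (.l 87398)) (.l 87398))) (.y (.l 87398) (.l
  87398))) (.l 87398))) (.x (.l 152934) (.l 87398))))) (.y (.x (.y (.l 12) (.x (.y (.l 12) (.x (.l
  12) (.l 87398))) (.l 218470))) (.y (.x (.l 12) (.l 87398)) (.l 87398))) (.x (.y (.x (.l 87398)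
  (.l 87398)) (.l 87398)) (.l 87398)))) (.x (.y (.x (.l 15) (.l 152934)) (.l 15)) (.y (.x (.l
  87398) (.l 87398)) (.l 15)))) (.y (.x (.y (.x (.l 218470) (.l 87398)) (.l 87398)) (.y (.l 87398)
  (.l 14))) (.x (.y (.l 87398) (.l 14)) (.l 14)))) (.x (.y (.l 15) (.l 9)) (.l 9)))))) (.x (.l 7)
  (.y (.x (.y (.l 7) (.l 7)) (.l 9)) (.l 3)))))) (.y (.x (.y (.l 4) (.x (.y (.l 4) (.l 10)) (.l
  10))) (.l 6)) (.x (.y (.x (.y (.x (.y (.l 10) (.x (.y (.x (.l 10) (.l 10)) (.x (.y (.l 14) (.l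
  14)) (.l 14))) (.l 10))) (.l 10)) (.x (.y (.x (.y (.x (.l 14) (.l 14)) (.l 14)) (.y (.l 14) (.l
  9))) (.l 9)) (.y (.x (.l 9) (.l 9)) (.l 5)))) (.y (.l 10) (.x (.l 9) (.l 5)))) (.l 5)) (.y (.x
  (.l 10) (.l 5)) (.l 5)))))

set_option maxRecDepth 100000 in
theorem tr_ok : chk tr 2435246336 1187558400 167772160 167772160 = true := by decide +kernel

/-- The root. -/
theorem root {k : ℂ} (h : b0.In ‖k‖ k.re (-k.im)) :
    |k.re * 4294967296 - (2435246336 : ℤ)| ≤ (167772160 : ℤ) ∧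
      |-k.im * 4294967296 - (1187558400 : ℤ)| ≤ (167772160 : ℤ) := by
  obtain ⟨lo, hi, a0, a1⟩ := h
  obtain ⟨n, hn⟩ : ∃ n, n = ‖k‖ := ⟨_, rfl⟩
  obtain ⟨x, hx⟩ : ∃ x, x = k.re := ⟨_, rfl⟩
  obtain ⟨y, hy⟩ : ∃ y, y = -k.im := ⟨_, rfl⟩
  have hs : n ^ 2 = x ^ 2 + y ^ 2 := by
    rw [hn, hx, hy, ← normSq_eq_norm_sq, normSq_apply]
    ring
  rw [← hn] at lo hi
  rw [← hx, ← hy] at a0 a1
  rw [← hx, ← hy]
  unfold b0 at lo hi a0 a1
  push_cast at lo hi a0 a1 ⊢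
  have x0 : 0 ≤ x := by linarith
  have y0 : 0 ≤ y := by linarith
  have n1 : (603 / 1000 : ℝ) ^ 2 ≤ n ^ 2 := by
    apply pow_le_pow_left₀ (by norm_num)
    linarith
  have n2 : n ^ 2 ≤ (658 / 1000 : ℝ) ^ 2 := by
    apply pow_le_pow_left₀ (by linarith)
    linarith
  have y1 : y ^ 2 ≤ (538 / 1000 * x) ^ 2 := by
    apply pow_le_pow_left₀ y0
    linarith
  have y2 : (438 / 1000 * x) ^ 2 ≤ y ^ 2 := by
    apply pow_le_pow_left₀ (by positivity)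
    linarith
  have X1 : 5309 / 10000 ≤ x := by
    apply le_of_sq_le_sq _ x0
    nlinarith
  have X2 : x ≤ 6028 / 10000 := by
    apply le_of_sq_le_sq _ (by norm_num)
    nlinarith
  have Y1 : 2418 / 10000 ≤ y := by
    apply le_of_sq_le_sq _ y0
    nlinarith
  have Y2 : y ≤ 3119 / 10000 := by
    apply le_of_sq_le_sq _ (by norm_num)
    nlinarith
  rw [abs_le, abs_le]
  constructor <;> constructor <;> linarith

/-- **The triple region.** -/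
theorem core {k0 k1 k2 l3 l4 e1 e2 e3 : ℂ} (R : Rels k0 k1 k2 l3 l4 e1 e2 e3)
    (G : Regs k0 k1 k2 l3 l4) : Outs k0 k1 k2 :=
  chk_sound R G tr _ _ _ _ tr_ok (root G.r0).1 (root G.r0).2

end Pool.Agent.S5.C33
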