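import Pool.Agent.S5.K3.CkES

/-!
# Cells with additional known forms: soundness of the cells and of the tree
-/

set_option autoImplicit false

namespace Pool.Agent.S5.K3

open Complex Pool.Agent.S5.Num
open Pool.Agent.H63.VC3 hiding KK
open Pool.Agent.S3 hiding UU

theorem wP_sound {c1 c2 : ℕ} {b : Bs} {c : Kd} {f1 f2 : Bool} {w1 w2 : Kw} {F : Fm}
    {n : Fin 8 → ℂ} {o : Ow} {w : Rc} {κ : ℝ} (hF : FmOK b n F) (hk : KdOK b c)
    (h : wP c1 c2 c (Nat.mul 2 b.a3.c) (Nat.mul 2 b.a3.d) f1 f2 w1 w2 F o w = true)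
    (h1 : (c1 : ℝ) ≤ 137438953472 * κ) (h2 : 137438953472 * κ ≤ c2) {P R : ℂ} (hb : BsOK b)
    (hd : Dm P R) (hc : CpOK b c P R) (hw : WpOK b f1 f2 w1 w2 P R) :
    w.In (lf n P R + κ * I) := by
  unfold wP at h
  obtain ⟨M1, M2, R1, N1, N2, R2, h3, h4⟩ := ckOw_sound hF hk h
  obtain ⟨h5, h6⟩ := h3 hb hd hc hw
  rw [cond_true_iff] at h4
  obtain ⟨h7, h8⟩ := h4
  constructor
  · have := fP_sound (κ := 0) h7 h5 (by norm_num) (by norm_num)
    rw [add_re, re_ofReal_mul, I_re, mul_zero]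
    exact this
  · have := fP_sound h8 h6 h1 h2
    rw [add_im, im_ofReal_mul, I_im, mul_one]
    exact this

theorem wD_sound {s : ℕ} {b : Bs} {c : Kd} {f1 f2 : Bool} {w1 w2 : Kw} {F : Fm}
    {n : Fin 8 → ℂ} {o : Ow} {w : Rc} {σ : ℝ} (hF : FmOK b n F) (hk : KdOK b c)
    (h : wD s c (Nat.mul 2 b.a3.c) (Nat.mul 2 b.a3.d) f1 f2 w1 w2 F o w = true)
    (hs : (s : ℝ) = 67108864 + 1048576 * σ) (hs1 : s ≤ 134217728) {P R : ℂ} (hb : BsOK b)
    (hd : Dm P R) (hc : CpOK b c P R) (hw : WpOK b f1 f2 w1 w2 P R) :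
    w.In (lf n P R / (2 * Real.pi * I) + σ) := by
  unfold wD at h
  obtain ⟨M1, M2, R1, N1, N2, R2, h3, h4⟩ := ckOw_sound hF hk h
  obtain ⟨h5, h6⟩ := h3 hb hd hc hw
  rw [cond_true_iff] at h4
  obtain ⟨h7, h8⟩ := h4
  constructor
  · have := fD_sound h7 hs hs1 h6
    rw [add_re, div_2pi_re, ofReal_re, add_comm]
    exact this
  · have h9 : |137438953472 * (-(lf n P R).re) - ((M2 : ℝ) - M1)| ≤ R1 := by
      rw [← abs_neg]
      refine le_trans (le_of_eq ?_) h5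
      congr 1
      ring
    have := fD_sound (σ := 0) h8 (by norm_num) (by norm_num) h9
    rw [add_im, div_2pi_im, ofReal_im, add_comm]
    exact this

/-- The value of an additional form. -/
noncomputable def tK (sr si : ℕ) (K U : ℂ) : ℂ := K - z4 sr 4096 si 4096 / 64 * U

theorem H_z4 (a : At) : 16777216 * a.H = z4 a.l 4294967296 a.t 4294967296 := by
  unfold At.H z4
  push_cast
  ring

theorem mkWs_sound {b : Bs} {sr si : ℕ} {W1 : Rc} {tr ti : ℕ} {W2 : Rc} {k : Kw → Kw → Bool}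
    (h : mkWs b sr si W1 tr ti W2 k = true) : ∃ w1 w2 : Kw, k w1 w2 = true ∧ w1.sr = sr ∧
      w1.si = si ∧ w2.sr = tr ∧ w2.si = ti ∧ ∀ {P R : ℂ} {f1 f2 : Bool},
      (f1 = true → W1.In (tK sr si (lf nK P R) (lf nU P R))) →
      (f2 = true → W2.In (tK tr ti (lf nK P R) (lf nV P R))) → WpOK b f1 f2 w1 w2 P R := by
  unfold mkWs at h
  simp only [fN_eq] at h
  obtain ⟨w1, h, e1, e2, h1⟩ := mkW_sound h
  obtain ⟨w2, h, e3, e4, h2⟩ := mkW_sound h
  refine ⟨w1, w2, h, e1, e2, e3, e4, fun {P R f1 f2} g1 g2 => ⟨?_, ?_⟩⟩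
  · intro hf
    rw [e1, e2]
    have k1 : ∑ k, nK k * (b.A k).H = b.a3.H := by
      simp [Fin.sum_univ_eight, nK, Bs.A]
    rw [k1, sumU]
    change DwOK (_ - (b.a3.H - _ * (b.a0.H - b.a2.H + b.a3.H))).re _ _ _ ∧
      DwOK (_ - (b.a3.H - _ * (b.a0.H - b.a2.H + b.a3.H))).im _ _ _
    refine h1 (g1 hf) (H_z4 _) ?_ true rfl
    rw [mul_add, mul_sub, H_z4, H_z4, H_z4]
    unfold z4
    simp only [add_eq']
    push_cast
    ring
  · intro hf
    rw [e3, e4]
    have k1 : ∑ k, nK k * (b.A k).H = b.a3.H := by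
      simp [Fin.sum_univ_eight, nK, Bs.A]
    rw [k1, sumV]
    change DwOK (_ - (b.a3.H - _ * (b.a1.H - b.a2.H + b.a3.H))).re _ _ _ ∧
      DwOK (_ - (b.a3.H - _ * (b.a1.H - b.a2.H + b.a3.H))).im _ _ _
    refine h2 (g2 hf) (H_z4 _) ?_ true rfl
    rw [mul_add, mul_sub, H_z4, H_z4, H_z4]
    unfold z4
    simp only [add_eq']
    push_cast
    ring

/-- Soundness of the check of a cell. -/
theorem ckCE_sound {b : Bs} {U V : Rc} {f1 f2 : Bool} {sr si : ℕ} {W1 : Rc} {tr ti : ℕ} {W2 : Rc}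
    {fy fb : Bool} {o : Ows} {w : OutB}
    (h : ckCE b U V f1 f2 sr si W1 tr ti W2 fy fb o w = true) {P R : ℂ} (hb : BsOK b)
    (hd : Dm P R) (hU : U.In (lf nU P R)) (hV : V.In (lf nV P R))
    (g1 : f1 = true → W1.In (tK sr si (lf nK P R) (lf nU P R)))
    (g2 : f2 = true → W2.In (tK tr ti (lf nK P R) (lf nV P R))) :
    OutB.In fy fb w (oLy P R) (oLb P R) (oY P R) (oZ P R) (oB P R) (oHy P R) (oHb P R) := by
  unfold ckCE at h
  obtain ⟨h1, h2⟩ := mkKd_sound h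
  have hc := h2 hb hd hU hV
  have hk := kdOf_ok b U V
  obtain ⟨w1, w2, h3, -, -, -, -, h4⟩ := mkWs_sound h1
  have hw := h4 g1 g2
  simp only [fN_eq, cond_true_iff] at h3
  obtain ⟨g1, g2, g3, g4, g5, g6, g7⟩ := h3
  have p1 := pi_37
  have p2 := hpi_37
  refine ⟨⟨?_, ?_, ?_, ?_, ?_⟩, ?_, ?_⟩
  · exact wP_sound (κ := Real.pi) (fLy_ok b) hk g1 (by push_cast; exact p1.1)
      (by push_cast; exact p1.2) hb hd hc hw
  · exact wP_sound (κ := Real.pi) (fLb_ok b) hk g2 (by push_cast; exact p1.1)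
      (by push_cast; exact p1.2) hb hd hc hw
  · rw [oY_eq]
    exact wD_sound (fY_ok b) hk g3 (by norm_num) (by norm_num) hb hd hc hw
  · rw [oZ_eq]
    exact wD_sound (fZ_ok b) hk g4 (by norm_num) (by norm_num) hb hd hc hw
  · rw [oB_eq]
    exact wD_sound (fB_ok b) hk g5 (by norm_num) (by norm_num) hb hd hc hw
  · intro hf
    rw [hf] at g6
    have := wP_sound (κ := Real.pi / 2) (fHy_ok b) hk g6 (by push_cast; exact p2.1)
      (by push_cast; exact p2.2) hb hd hc hw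
    push_cast at this
    exact this
  · intro hf
    rw [hf] at g7
    have := wP_sound (κ := Real.pi / 2) (fHb_ok b) hk g7 (by push_cast; exact p2.1)
      (by push_cast; exact p2.2) hb hd hc hw
    push_cast at this
    exact this

theorem xtW_sound {b : Bs} {c : Kd} {w : Kw} {o : Ou} {E : ℕ} (h : xtW c w o E = true)
    {zU zV z er : ℂ} (u1 : DvOK zU.re c.up c.un c.ur) (u2 : DvOK zU.im c.wp c.wn c.ui)
    (v1 : DvOK zV.re c.vp c.vn c.vr) (v2 : DvOK zV.im c.zp c.zn c.vi)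
    (w1 : DwOK z.re w.dp w.dn w.r1) (w2 : DwOK z.im w.ep w.en w.r2)
    (he : 137438953472 * ‖er‖ ≤ E)
    (main : 137438953472 * z = (z4 o.ar 65536 o.ai 65536 * (33554432 * zU) +
      z4 o.br 65536 o.bi 65536 * (33554432 * zV)) + 137438953472 * er) : False := by
  unfold xtW at h
  simp only [fN_eq, cond_true_or] at h
  obtain ⟨mU1, mU2⟩ := z4_mul_sub o.ar o.ai u1 u2
  obtain ⟨mV1, mV2⟩ := z4_mul_sub o.br o.bi v1 v2
  have cr' : ((137438953472 : ℂ)) = ((137438953472 : ℝ) : ℂ) := by push_cast; rfl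
  have r1 := abs_re_le_norm er
  have r2 := abs_im_le_norm er
  have main1 := congrArg Complex.re main
  have main2 := congrArg Complex.im main
  rw [cr'] at main1 main2
  simp only [add_re, re_ofReal_mul] at main1
  simp only [add_im, im_ofReal_mul] at main2
  have m1 := mr_cast o.ar o.ai c.up c.un c.wp c.wn
  have m2 := mr_cast o.br o.bi c.vp c.vn c.zp c.zn
  have m3 := mi_cast o.ar o.ai c.up c.un c.wp c.wn
  have m4 := mi_cast o.br o.bi c.vp c.vn c.zp c.zn
  have d1 := ds'_cast o.ar 65536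
  have d2 := ds'_cast o.ai 65536
  have d3 := ds'_cast o.br 65536
  have d4 := ds'_cast o.bi 65536
  have a1 := abs_le.1 mU1
  have a2 := abs_le.1 mU2
  have a3 := abs_le.1 mV1
  have a4 := abs_le.1 mV2
  have a5 := abs_le.1 r1
  have a6 := abs_le.1 r2
  have a7 := abs_le.1 w1.h
  have a8 := abs_le.1 w2.h
  clear mU1 mU2 mV1 mV2 r1 r2
  simp only [add_eq', mul_eq', Nat.succ_eq_add_one, Nat.ble_eq] at h
  push_cast at d1 d2 d3 d4
  rcases h with h | h | h | h
  · have h' := (Nat.cast_le (α := ℝ)).2 h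
    push_cast at h'
    rw [d1, d2, d3, d4] at h'
    linarith
  · have h' := (Nat.cast_le (α := ℝ)).2 h
    push_cast at h'
    rw [d1, d2, d3, d4] at h'
    linarith
  · have h' := (Nat.cast_le (α := ℝ)).2 h
    push_cast at h'
    rw [d1, d2, d3, d4] at h'
    linarith
  · have h' := (Nat.cast_le (α := ℝ)).2 h
    push_cast at h'
    rw [d1, d2, d3, d4] at h'
    linarith

theorem ckX1_sound {b : Bs} {U V : Rc} {sr si : ℕ} {W : Rc} {o : Ou}
    (h : ckX1 b U V sr si W o = true) {P R : ℂ} (hb : BsOK b)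
    (hd : Dm P R) (hU : U.In (lf nU P R)) (hV : V.In (lf nV P R))
    (g1 : W.In (tK sr si (lf nK P R) (lf nU P R))) : False := by
  unfold ckX1 at h
  obtain ⟨h1, h2⟩ := mkKd_sound h
  have hc := h2 hb hd hU hV
  have hk := kdOf_ok b U V
  obtain ⟨w1, w2, h3, i1, i2, -, -, h4⟩ := mkWs_sound h1
  have hw := (h4 (P := P) (R := R) (f1 := true) (f2 := false) (fun _ => g1) (by simp)).h1 rfl
  obtain ⟨ar, e1, h⟩ := sbK_sound h3
  obtain ⟨ai, e2, h⟩ := sbK_sound h
  rw [cond_true_iff] at h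
  obtain ⟨h5, h6⟩ := h
  have err := ckR_sound (fK_ok b) hk h5 hb hd hc
  have ea : z4 ar 65536 ai 65536 = z4 o.ar 65536 o.ai 65536 + 64 * z4 sr 4096 si 4096 := by
    have c4 : ((64 : ℂ)) = ((64 : ℝ) : ℂ) := by push_cast; rfl
    simp only [add_eq', mul_eq'] at e1 e2
    push_cast at e1 e2
    rw [c4]
    apply Complex.ext
    · rw [add_re, re_ofReal_mul]
      simp only [z4_re]
      push_cast
      linarith
    · rw [add_im, im_ofReal_mul]
      simp only [z4_im]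
      push_cast
      linarith
  have ec : z4 65536 65536 65536 65536 = 0 := by simp [z4]
  rw [Nw_lf, Nw_sum, ea, ec] at err
  rw [i1, i2] at hw
  refine xtW_sound (b := b) h6 hc.ur hc.ui hc.vr hc.vi hw.1 hw.2 err ?_
  ring

theorem ckX2_sound {b : Bs} {U V : Rc} {sr si : ℕ} {W : Rc} {o : Ou}
    (h : ckX2 b U V sr si W o = true) {P R : ℂ} (hb : BsOK b)
    (hd : Dm P R) (hU : U.In (lf nU P R)) (hV : V.In (lf nV P R))
    (g1 : W.In (tK sr si (lf nK P R) (lf nV P R))) : False := by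
  unfold ckX2 at h
  obtain ⟨h1, h2⟩ := mkKd_sound h
  have hc := h2 hb hd hU hV
  have hk := kdOf_ok b U V
  obtain ⟨w1, w2, h3, -, -, i1, i2, h4⟩ := mkWs_sound h1
  have hw := (h4 (P := P) (R := R) (f1 := false) (f2 := true) (by simp) (fun _ => g1)).h2 rfl
  obtain ⟨br, e1, h⟩ := sbK_sound h3
  obtain ⟨bi, e2, h⟩ := sbK_sound h
  rw [cond_true_iff] at h
  obtain ⟨h5, h6⟩ := h
  have err := ckR_sound (fK_ok b) hk h5 hb hd hc
  have ea : z4 br 65536 bi 65536 = z4 o.br 65536 o.bi 65536 + 64 * z4 sr 4096 si 4096 := by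
    have c4 : ((64 : ℂ)) = ((64 : ℝ) : ℂ) := by push_cast; rfl
    simp only [add_eq', mul_eq'] at e1 e2
    push_cast at e1 e2
    rw [c4]
    apply Complex.ext
    · rw [add_re, re_ofReal_mul]
      simp only [z4_re]
      push_cast
      linarith
    · rw [add_im, im_ofReal_mul]
      simp only [z4_im]
      push_cast
      linarith
  have ec : z4 65536 65536 65536 65536 = 0 := by simp [z4]
  rw [Nw_lf, Nw_sum, ea, ec] at err
  rw [i1, i2] at hw
  refine xtW_sound (b := b) h6 hc.ur hc.ui hc.vr hc.vi hw.1 hw.2 err ?_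
  ring

end Pool.Agent.S5.K3
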