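import Pool.Agent.S5.K3.OutT

/-!
# The cells: soundness
-/

set_option autoImplicit false

namespace Pool.Agent.S5.K3

open Complex Pool.Agent.S5.Num
open Pool.Agent.H63.VC3 hiding KK
open Pool.Agent.S3 hiding UU

theorem fP_sound {c1 c2 M1 M2 r lo hi : ℕ} {x κ : ℝ} (h : fP c1 c2 M1 M2 r lo hi = true)
    (hx : |137438953472 * x - ((M1 : ℝ) - M2)| ≤ r) (h1 : (c1 : ℝ) ≤ 137438953472 * κ)
    (h2 : 137438953472 * κ ≤ c2) : (⟨lo, hi⟩ : Iv).In (x + κ) := by
  unfold fP at h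
  rw [cond_true_iff] at h
  obtain ⟨g1, g2⟩ := h
  have g1 : 131072 * lo + (M2 + r) ≤ M1 + (8796093022208 + c1) := Nat.ble_eq.mp g1
  have g2 : M1 + (r + (8796093022208 + c2)) ≤ M2 + 131072 * hi := Nat.ble_eq.mp g2
  have g1 : 131072 * (lo : ℝ) + (M2 + r) ≤ M1 + (8796093022208 + c1) := by exact_mod_cast g1
  have g2 : (M1 : ℝ) + (r + (8796093022208 + c2)) ≤ M2 + 131072 * hi := by exact_mod_cast g2
  have g3 := abs_le.1 hx
  constructor
  · change (lo : ℝ) - 67108864 ≤ 1048576 * (x + κ)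
    linarith
  · change 1048576 * (x + κ) ≤ (hi : ℝ) - 67108864
    linarith

theorem two_pi_27 : |2 * Real.pi * 134217728 - 843314856| ≤ 1 := by
  have h1 := Real.pi_gt_d20
  have h2 := Real.pi_lt_d20
  rw [abs_le]
  constructor <;> linarith

theorem fD_sound {s M1 M2 r lo hi : ℕ} {x σ : ℝ} (h : fD s M1 M2 r lo hi = true)
    (hs : (s : ℝ) = 67108864 + 1048576 * σ) (hs1 : s ≤ 134217728)
    (hx : |137438953472 * x - ((M1 : ℝ) - M2)| ≤ r) :
    (⟨lo, hi⟩ : Iv).In (σ + x / (2 * Real.pi)) := by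
  unfold fD at h
  simp only [cond_true_iff] at h
  obtain ⟨g1, g2, g3, g4⟩ := h
  have g1 : lo ≤ 134217728 := Nat.ble_eq.mp g1
  have g2 : hi ≤ 134217728 := Nat.ble_eq.mp g2
  have g3 : 843314856 * lo + (134217728 + 1024 * (M2 + r)) ≤ 843314856 * s + 1024 * M1 :=
    Nat.ble_eq.mp g3
  have g4 : 843314856 * s + (134217728 + 1024 * (M1 + r)) ≤ 843314856 * hi + 1024 * M2 :=
    Nat.ble_eq.mp g4
  have g1 : (lo : ℝ) ≤ 134217728 := by exact_mod_cast g1
  have g2 : (hi : ℝ) ≤ 134217728 := by exact_mod_cast g2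
  have g3 : 843314856 * (lo : ℝ) + (134217728 + 1024 * (M2 + r)) ≤ 843314856 * s + 1024 * M1 := by
    exact_mod_cast g3
  have g4 : 843314856 * (s : ℝ) + (134217728 + 1024 * (M1 + r)) ≤ 843314856 * hi + 1024 * M2 := by
    exact_mod_cast g4
  have hs1 : (s : ℝ) ≤ 134217728 := by exact_mod_cast hs1
  have l0 : (0 : ℝ) ≤ lo := Nat.cast_nonneg _
  have i0 : (0 : ℝ) ≤ hi := Nat.cast_nonneg _
  have s0 : (0 : ℝ) ≤ s := Nat.cast_nonneg _
  have hp := Real.pi_pos
  have hp2 : 0 < 2 * Real.pi := by positivity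
  have hx' := abs_le.1 hx
  have e := two_pi_27
  have f1 : |((lo : ℝ) - s) * (2 * Real.pi * 134217728 - 843314856)| ≤ 134217728 * 1 := by
    rw [abs_mul]
    apply mul_le_mul _ e (abs_nonneg _) (by norm_num)
    rw [abs_le]
    constructor <;> linarith
  have f2 : |((hi : ℝ) - s) * (2 * Real.pi * 134217728 - 843314856)| ≤ 134217728 * 1 := by
    rw [abs_mul]
    apply mul_le_mul _ e (abs_nonneg _) (by norm_num)
    rw [abs_le]
    constructor <;> linarith
  have f1 := abs_le.1 f1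
  have f2 := abs_le.1 f2
  constructor
  · change (lo : ℝ) - 67108864 ≤ 1048576 * (σ + x / (2 * Real.pi))
    have : ((lo : ℝ) - s) / 1048576 ≤ x / (2 * Real.pi) := by
      rw [le_div_iff₀ hp2]
      linarith
    linarith
  · change 1048576 * (σ + x / (2 * Real.pi)) ≤ (hi : ℝ) - 67108864
    have : x / (2 * Real.pi) ≤ ((hi : ℝ) - s) / 1048576 := by
      rw [div_le_iff₀ hp2]
      linarith
    linarith

theorem div_2pi_re (z : ℂ) : (z / (2 * Real.pi * I)).re = z.im / (2 * Real.pi) := by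
  have e : z / (2 * Real.pi * I) = ((1 / (2 * Real.pi) : ℝ) : ℂ) * (-(I * z)) := by
    have hp : (Real.pi : ℂ) ≠ 0 := ofReal_ne_zero.2 Real.pi_ne_zero
    push_cast
    field_simp
    linear_combination z * I_sq
  rw [e, re_ofReal_mul, neg_re, mul_re, I_re, I_im]
  ring

theorem div_2pi_im (z : ℂ) : (z / (2 * Real.pi * I)).im = -z.re / (2 * Real.pi) := by
  have e : z / (2 * Real.pi * I) = ((1 / (2 * Real.pi) : ℝ) : ℂ) * (-(I * z)) := by
    have hp : (Real.pi : ℂ) ≠ 0 := ofReal_ne_zero.2 Real.pi_ne_zero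
    push_cast
    field_simp
    linear_combination z * I_sq
  rw [e, im_ofReal_mul, neg_im, mul_im, I_re, I_im]
  ring

theorem pi_37 : (431777206544 : ℝ) ≤ 137438953472 * Real.pi ∧
    137438953472 * Real.pi ≤ 431777206545 := by
  have h1 := Real.pi_gt_d20
  have h2 := Real.pi_lt_d20
  constructor <;> linarith

theorem hpi_37 : (215888603272 : ℝ) ≤ 137438953472 * (Real.pi / 2) ∧
    137438953472 * (Real.pi / 2) ≤ 215888603273 := by
  have h1 := Real.pi_gt_d20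
  have h2 := Real.pi_lt_d20
  constructor <;> linarith

theorem oP_sound {c1 c2 : ℕ} {b : Bs} {c : Kd} {F : Fm} {n : Fin 8 → ℂ} {o : Ou} {w : Rc} {κ : ℝ}
    (hF : FmOK b n F) (hk : KdOK b c) (h : oP c1 c2 c F o w = true)
    (h1 : (c1 : ℝ) ≤ 137438953472 * κ) (h2 : 137438953472 * κ ≤ c2) {P R : ℂ} (hb : BsOK b)
    (hd : Dm P R) (hc : CpOK b c P R) : w.In (lf n P R + κ * I) := by
  unfold oP at h
  obtain ⟨M1, M2, R1, N1, N2, R2, h3, h4⟩ := ckO_sound hF hk h
  obtain ⟨h5, h6⟩ := h3 hb hd hc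
  rw [cond_true_iff] at h4
  obtain ⟨h7, h8⟩ := h4
  constructor
  · have := fP_sound (κ := 0) h7 h5 (by norm_num) (by norm_num)
    rw [add_re, re_ofReal_mul, I_re, mul_zero]
    exact this
  · have := fP_sound h8 h6 h1 h2
    rw [add_im, im_ofReal_mul, I_im, mul_one]
    exact this

theorem oD_sound {s : ℕ} {b : Bs} {c : Kd} {F : Fm} {n : Fin 8 → ℂ} {o : Ou} {w : Rc} {σ : ℝ}
    (hF : FmOK b n F) (hk : KdOK b c) (h : oD s c F o w = true)
    (hs : (s : ℝ) = 67108864 + 1048576 * σ) (hs1 : s ≤ 134217728) {P R : ℂ} (hb : BsOK b)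
    (hd : Dm P R) (hc : CpOK b c P R) : w.In (lf n P R / (2 * Real.pi * I) + σ) := by
  unfold oD at h
  obtain ⟨M1, M2, R1, N1, N2, R2, h3, h4⟩ := ckO_sound hF hk h
  obtain ⟨h5, h6⟩ := h3 hb hd hc
  rw [cond_true_iff] at h4
  obtain ⟨h7, h8⟩ := h4
  constructor
  · have := fD_sound h7 hs hs1 h6
    rw [add_re, div_2pi_re, ofReal_re, add_comm]
    exact this
  · have h9 : |137438953472 * (-(lf n P R).re) - ((M2 : ℝ) - M1)| ≤ R1 := by
      rw [← abs_neg]
      refine le_trans (le_of_eq ?_) h5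
      congr 1
      ring
    have := fD_sound (σ := 0) h8 (by norm_num) (by norm_num) h9
    rw [add_im, div_2pi_im, ofReal_im, add_comm]
    exact this

theorem cond_true_or (a b : Bool) : cond a true b = true ↔ a = true ∨ b = true := by
  cases a <;> simp

theorem oX_sound {b : Bs} {c : Kd} {F : Fm} {n : Fin 8 → ℂ} {o : Ou} {w : Rc}
    (hF : FmOK b n F) (hk : KdOK b c) (h : oX c F o w = true) {P R : ℂ} (hb : BsOK b)
    (hd : Dm P R) (hc : CpOK b c P R) (hw : w.In (lf n P R)) : False := by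
  unfold oX at h
  obtain ⟨M1, M2, R1, N1, N2, R2, h3, h4⟩ := ckO_sound hF hk h
  obtain ⟨h5, h6⟩ := h3 hb hd hc
  have h5 := abs_le.1 h5
  have h6 := abs_le.1 h6
  obtain ⟨⟨w1, w2⟩, ⟨w3, w4⟩⟩ := hw
  simp only [cond_true_or] at h4
  have w1 : (w.re.lo : ℝ) - 67108864 ≤ 1048576 * (lf n P R).re := w1
  have w2 : 1048576 * (lf n P R).re ≤ (w.re.hi : ℝ) - 67108864 := w2
  have w3 : (w.im.lo : ℝ) - 67108864 ≤ 1048576 * (lf n P R).im := w3
  have w4 : 1048576 * (lf n P R).im ≤ (w.im.hi : ℝ) - 67108864 := w4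
  rcases h4 with h4 | h4 | h4 | h4
  · have h4 : M1 + (R1 + 8796093022208) + 1 ≤ M2 + 131072 * w.re.lo := Nat.ble_eq.mp h4
    have h4 : (M1 : ℝ) + (R1 + 8796093022208) + 1 ≤ M2 + 131072 * w.re.lo := by exact_mod_cast h4
    linarith [h5.2]
  · have h4 : M2 + (R1 + 131072 * w.re.hi) + 1 ≤ M1 + 8796093022208 := Nat.ble_eq.mp h4
    have h4 : (M2 : ℝ) + (R1 + 131072 * w.re.hi) + 1 ≤ M1 + 8796093022208 := by exact_mod_cast h4
    linarith [h5.1]
  · have h4 : N1 + (R2 + 8796093022208) + 1 ≤ N2 + 131072 * w.im.lo := Nat.ble_eq.mp h4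
    have h4 : (N1 : ℝ) + (R2 + 8796093022208) + 1 ≤ N2 + 131072 * w.im.lo := by exact_mod_cast h4
    linarith [h6.2]
  · have h4 : N2 + (R2 + 131072 * w.im.hi) + 1 ≤ N1 + 8796093022208 := Nat.ble_eq.mp h4
    have h4 : (N2 : ℝ) + (R2 + 131072 * w.im.hi) + 1 ≤ N1 + 8796093022208 := by exact_mod_cast h4
    linarith [h6.1]

theorem oY_eq (P R : ℂ) : oY P R = lf nY P R / (2 * Real.pi * I) + (1 / 2 : ℝ) := by
  unfold oY
  have hp : (Real.pi : ℂ) ≠ 0 := ofReal_ne_zero.2 Real.pi_ne_zero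
  have hI : I ≠ 0 := I_ne_zero
  push_cast
  field_simp

theorem oB_eq (P R : ℂ) : oB P R = lf nB P R / (2 * Real.pi * I) + (1 / 2 : ℝ) := by
  unfold oB
  have hp : (Real.pi : ℂ) ≠ 0 := ofReal_ne_zero.2 Real.pi_ne_zero
  have hI : I ≠ 0 := I_ne_zero
  push_cast
  field_simp

theorem oZ_eq (P R : ℂ) : oZ P R = lf nZ P R / (2 * Real.pi * I) + (0 : ℝ) := by
  unfold oZ
  push_cast
  ring

/-- Soundness of the check of a cell. -/
theorem ckC_sound {b : Bs} {U V : Rc} {fy fb : Bool} {o : Ous} {w : OutB}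
    (h : ckC b U V fy fb o w = true) {P R : ℂ} (hb : BsOK b) (hd : Dm P R)
    (hU : U.In (lf nU P R)) (hV : V.In (lf nV P R)) :
    OutB.In fy fb w (oLy P R) (oLb P R) (oY P R) (oZ P R) (oB P R) (oHy P R) (oHb P R) := by
  unfold ckC at h
  obtain ⟨h1, h2⟩ := mkKd_sound h
  have hc := h2 hb hd hU hV
  have hk := kdOf_ok b U V
  simp only [cond_true_iff] at h1
  obtain ⟨g1, g2, g3, g4, g5, g6, g7⟩ := h1
  have p1 := pi_37
  have p2 := hpi_37
  refine ⟨⟨?_, ?_, ?_, ?_, ?_⟩, ?_, ?_⟩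
  · exact oP_sound (κ := Real.pi) (fLy_ok b) hk g1 (by push_cast; exact p1.1)
      (by push_cast; exact p1.2) hb hd hc
  · exact oP_sound (κ := Real.pi) (fLb_ok b) hk g2 (by push_cast; exact p1.1)
      (by push_cast; exact p1.2) hb hd hc
  · rw [oY_eq]
    exact oD_sound (fY_ok b) hk g3 (by norm_num) (by norm_num) hb hd hc
  · rw [oZ_eq]
    exact oD_sound (fZ_ok b) hk g4 (by norm_num) (by norm_num) hb hd hc
  · rw [oB_eq]
    exact oD_sound (fB_ok b) hk g5 (by norm_num) (by norm_num) hb hd hc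
  · intro hf
    rw [hf] at g6
    have := oP_sound (κ := Real.pi / 2) (fHy_ok b) hk g6 (by push_cast; exact p2.1)
      (by push_cast; exact p2.2) hb hd hc
    push_cast at this
    exact this
  · intro hf
    rw [hf] at g7
    have := oP_sound (κ := Real.pi / 2) (fHb_ok b) hk g7 (by push_cast; exact p2.1)
      (by push_cast; exact p2.2) hb hd hc
    push_cast at this
    exact this

/-- Soundness of the check of an empty cell. -/
theorem ckX_sound {b : Bs} {U V : Rc} {o : Ou} {w : Rc} (h : ckX b U V o w = true) {P R : ℂ}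
    (hb : BsOK b) (hd : Dm P R) (hU : U.In (lf nU P R)) (hV : V.In (lf nV P R))
    (hw : w.In (lf nK P R)) : False := by
  unfold ckX at h
  obtain ⟨h1, h2⟩ := mkKd_sound h
  exact oX_sound (fK_ok b) (kdOf_ok b U V) h1 hb hd (h2 hb hd hU hV) hw

end Pool.Agent.S5.K3
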