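import Pool.Agent.S5.K3.CellE

/-!
# Cells with additional known forms: soundness of the tree
-/

set_option autoImplicit false

namespace Pool.Agent.S5.K3

open Complex Pool.Agent.S5.Num
open Pool.Agent.H63.VC3 hiding KK
open Pool.Agent.S3 hiding UU

/-- A function giving an additional form is correct: `Q` is the relation between the values of
`nK` and of `nU` or `nV`. -/
def KnOK (f : Bool) (kn : Kn) (Q : ℂ → ℂ → Prop) : Prop :=
  ∀ (U : Rc) (n : ℕ) (k : ℕ → ℕ → Rc → ℕ → Bool), kn U n k = true →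
    ∃ (sr si : ℕ) (W : Rc) (n' : ℕ), k sr si W n' = true ∧
      (f = true → ∀ {K X : ℂ}, Q K X → U.In X → W.In (tK sr si K X))

theorem knZ_ok (Q : ℂ → ℂ → Prop) : KnOK false knZ Q := by
  intro U n k h
  exact ⟨_, _, _, _, h, fun hf => absurd hf (by simp)⟩

/-- What is proved for a box: every point has an output which is accepted. -/
def BxE (G : OutB → Prop) (fy fb : Bool) (W : Rc) (f1 f2 : Bool) (Q1 Q2 : ℂ → ℂ → Prop)
    (U V : Rc) : Prop :=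
  ∀ {P R : ℂ}, Dm P R → (f1 = true → Q1 (lf nK P R) (lf nU P R)) →
    (f2 = true → Q2 (lf nK P R) (lf nV P R)) → U.In (lf nU P R) → V.In (lf nV P R) →
    W.In (lf nK P R) → ∃ o : OutB, G o ∧
      OutB.In fy fb o (oLy P R) (oLb P R) (oY P R) (oZ P R) (oB P R) (oHy P R) (oHb P R)

theorem rdOw_true {n i : ℕ} {k : Ow → Bool} (h : rdOw n i k = true) : ∃ o, k o = true := by
  unfold rdOw at h
  obtain ⟨o, h⟩ := rdOu_true h
  simp only [fN_eq] at h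
  exact ⟨_, h⟩

theorem rdCE_true {n : ℕ} {k : Ows → OutB → Bool} (h : rdCE n k = true) :
    ∃ o w, k o w = true := by
  unfold rdCE at h
  obtain ⟨o1, h⟩ := rdOw_true h
  obtain ⟨o2, h⟩ := rdOw_true h
  obtain ⟨o3, h⟩ := rdOw_true h
  obtain ⟨o4, h⟩ := rdOw_true h
  obtain ⟨o5, h⟩ := rdOw_true h
  obtain ⟨o6, h⟩ := rdOw_true h
  obtain ⟨o7, h⟩ := rdOw_true h
  obtain ⟨w1, h⟩ := rdRc_true h
  obtain ⟨w2, h⟩ := rdRc_true h
  obtain ⟨w3, h⟩ := rdRc_true h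
  obtain ⟨w4, h⟩ := rdRc_true h
  obtain ⟨w5, h⟩ := rdRc_true h
  obtain ⟨w6, h⟩ := rdRc_true h
  obtain ⟨w7, h⟩ := rdRc_true h
  exact ⟨_, _, h⟩

theorem goE_succ (chk : OutB → ℕ → (ℕ → Bool) → Bool) (fy fb : Bool) (W : Rc) (f1 f2 : Bool)
    (kn1 kn2 : Kn) (fuel : ℕ) (b : Bs)
    (n a0 a1 a2 a3 a4 a5 a6 a7 : ℕ) (k : Bs → ℕ → Bool) :
    goE chk fy fb W f1 f2 kn1 kn2 (fuel + 1) b n a0 a1 a2 a3 a4 a5 a6 a7 k =
      cut 3 n (fun op r =>
      cond (Nat.ble op 3)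
        (cond (Nat.ble op 1)
          (cond (Nat.ble op 0)
            (fN (fun m => goE chk fy fb W f1 f2 kn1 kn2 fuel b r a0 m a2 a3 a4 a5 a6 a7 (fun b r =>
              goE chk fy fb W f1 f2 kn1 kn2 fuel b r m a1 a2 a3 a4 a5 a6 a7 k)) (Nat.div (Nat.add a0 a1) 2))
            (fN (fun m => goE chk fy fb W f1 f2 kn1 kn2 fuel b r a0 a1 a2 m a4 a5 a6 a7 (fun b r =>
              goE chk fy fb W f1 f2 kn1 kn2 fuel b r a0 a1 m a3 a4 a5 a6 a7 k)) (Nat.div (Nat.add a2 a3) 2)))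
          (cond (Nat.ble op 2)
            (fN (fun m => goE chk fy fb W f1 f2 kn1 kn2 fuel b r a0 a1 a2 a3 a4 m a6 a7 (fun b r =>
              goE chk fy fb W f1 f2 kn1 kn2 fuel b r a0 a1 a2 a3 m a5 a6 a7 k)) (Nat.div (Nat.add a4 a5) 2))
            (fN (fun m => goE chk fy fb W f1 f2 kn1 kn2 fuel b r a0 a1 a2 a3 a4 a5 a6 m (fun b r =>
              goE chk fy fb W f1 f2 kn1 kn2 fuel b r a0 a1 a2 a3 a4 a5 m a7 k)) (Nat.div (Nat.add a6 a7) 2))))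
        (cond (Nat.ble op 4)
          (cut 360 r (fun c r => rdOu c 0 (fun o =>
            cond (ckX b ⟨⟨a0, a1⟩, ⟨a2, a3⟩⟩ ⟨⟨a4, a5⟩, ⟨a6, a7⟩⟩ o W) (k b r) false)))
        (cond (Nat.ble op 5)
          (kn1 ⟨⟨a0, a1⟩, ⟨a2, a3⟩⟩ r (fun sr si W1 r => kn2 ⟨⟨a4, a5⟩, ⟨a6, a7⟩⟩ r
            (fun tr ti W2 r => cut 4760 r (fun c r => rdCE c (fun o w =>
            cond (ckCE b ⟨⟨a0, a1⟩, ⟨a2, a3⟩⟩ ⟨⟨a4, a5⟩, ⟨a6, a7⟩⟩ f1 f2 sr si W1 tr ti W2 fy fb o w)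
              (chk w r (fun r => k b r)) false)))))
        (cond (Nat.ble op 6)
          (cut 2520 r (fun c r => rdBs c (fun b => cond (ckB b)
            (goE chk fy fb W f1 f2 kn1 kn2 fuel b r a0 a1 a2 a3 a4 a5 a6 a7 k) false)))
          (cut 1 r (fun t r => cond (Nat.ble t 0)
            (cond f1 (kn1 ⟨⟨a0, a1⟩, ⟨a2, a3⟩⟩ r (fun sr si W1 r => cut 360 r (fun c r =>
              rdOu c 0 (fun o => cond (ckX1 b ⟨⟨a0, a1⟩, ⟨a2, a3⟩⟩ ⟨⟨a4, a5⟩, ⟨a6, a7⟩⟩ sr si W1 o)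
                (k b r) false)))) false)
            (cond f2 (kn2 ⟨⟨a4, a5⟩, ⟨a6, a7⟩⟩ r (fun sr si W2 r => cut 360 r (fun c r =>
              rdOu c 0 (fun o => cond (ckX2 b ⟨⟨a0, a1⟩, ⟨a2, a3⟩⟩ ⟨⟨a4, a5⟩, ⟨a6, a7⟩⟩ sr si W2 o)
                (k b r) false)))) false))))))) := by
  unfold goE
  rfl

theorem goE_sound {chk : OutB → ℕ → (ℕ → Bool) → Bool} {G : OutB → Prop} {fy fb : Bool} {W : Rc}
    {f1 f2 : Bool} {kn1 kn2 : Kn} {Q1 Q2 : ℂ → ℂ → Prop}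
    (hchk : ∀ (o : OutB) (n : ℕ) (k : ℕ → Bool), chk o n k = true → G o ∧ ∃ n', k n' = true)
    (hk1 : KnOK f1 kn1 Q1) (hk2 : KnOK f2 kn2 Q2)
    (fuel : ℕ) : ∀ (b : Bs) (n a0 a1 a2 a3 a4 a5 a6 a7 : ℕ) (k : Bs → ℕ → Bool), BsOK b →
      goE chk fy fb W f1 f2 kn1 kn2 fuel b n a0 a1 a2 a3 a4 a5 a6 a7 k = true →
      BxE G fy fb W f1 f2 Q1 Q2 ⟨⟨a0, a1⟩, ⟨a2, a3⟩⟩ ⟨⟨a4, a5⟩, ⟨a6, a7⟩⟩ ∧
        ∃ b' n', BsOK b' ∧ k b' n' = true := by
  induction fuel with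
  | zero =>
    intro b n a0 a1 a2 a3 a4 a5 a6 a7 k hb h
    exact absurd h Bool.false_ne_true
  | succ fuel ih =>
    intro b n a0 a1 a2 a3 a4 a5 a6 a7 k hb h
    rw [goE_succ] at h
    obtain ⟨op, r, h⟩ := cut_true h
    rw [Bool.cond_eq_ite] at h
    split_ifs at h with o1
    · rw [Bool.cond_eq_ite] at h
      split_ifs at h with o2
      · rw [Bool.cond_eq_ite] at h
        split_ifs at h with o3
        · rw [fN_eq] at h
          obtain ⟨g1, b', n', hb', h⟩ := ih _ _ _ _ _ _ _ _ _ _ _ hb h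
          obtain ⟨g2, h⟩ := ih _ _ _ _ _ _ _ _ _ _ _ hb' h
          refine ⟨fun {P R} hd q1 q2 hU hV hW => ?_, h⟩
          obtain ⟨hU1, hU2⟩ := hU
          rcases Iv.split _ hU1 with h5 | h5
          · exact g1 hd q1 q2 ⟨h5, hU2⟩ hV hW
          · exact g2 hd q1 q2 ⟨h5, hU2⟩ hV hW
        · rw [fN_eq] at h
          obtain ⟨g1, b', n', hb', h⟩ := ih _ _ _ _ _ _ _ _ _ _ _ hb h
          obtain ⟨g2, h⟩ := ih _ _ _ _ _ _ _ _ _ _ _ hb' h
          refine ⟨fun {P R} hd q1 q2 hU hV hW => ?_, h⟩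
          obtain ⟨hU1, hU2⟩ := hU
          rcases Iv.split _ hU2 with h5 | h5
          · exact g1 hd q1 q2 ⟨hU1, h5⟩ hV hW
          · exact g2 hd q1 q2 ⟨hU1, h5⟩ hV hW
      · rw [Bool.cond_eq_ite] at h
        split_ifs at h with o3
        · rw [fN_eq] at h
          obtain ⟨g1, b', n', hb', h⟩ := ih _ _ _ _ _ _ _ _ _ _ _ hb h
          obtain ⟨g2, h⟩ := ih _ _ _ _ _ _ _ _ _ _ _ hb' h
          refine ⟨fun {P R} hd q1 q2 hU hV hW => ?_, h⟩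
          obtain ⟨hV1, hV2⟩ := hV
          rcases Iv.split _ hV1 with h5 | h5
          · exact g1 hd q1 q2 hU ⟨h5, hV2⟩ hW
          · exact g2 hd q1 q2 hU ⟨h5, hV2⟩ hW
        · rw [fN_eq] at h
          obtain ⟨g1, b', n', hb', h⟩ := ih _ _ _ _ _ _ _ _ _ _ _ hb h
          obtain ⟨g2, h⟩ := ih _ _ _ _ _ _ _ _ _ _ _ hb' h
          refine ⟨fun {P R} hd q1 q2 hU hV hW => ?_, h⟩
          obtain ⟨hV1, hV2⟩ := hV
          rcases Iv.split _ hV2 with h5 | h5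
          · exact g1 hd q1 q2 hU ⟨hV1, h5⟩ hW
          · exact g2 hd q1 q2 hU ⟨hV1, h5⟩ hW
    · rw [Bool.cond_eq_ite] at h
      split_ifs at h with o2
      · obtain ⟨c, r, h⟩ := cut_true h
        obtain ⟨o, h⟩ := rdOu_true h
        rw [cond_true_iff] at h
        obtain ⟨h1, h2⟩ := h
        exact ⟨fun {P R} hd _ _ hU hV hW => (ckX_sound h1 hb hd hU hV hW).elim, b, r, hb, h2⟩
      · rw [Bool.cond_eq_ite] at h
        split_ifs at h with o3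
        · obtain ⟨sr, si, W1, r, h, k1⟩ := hk1 _ _ _ h
          obtain ⟨tr, ti, W2, r, h, k2⟩ := hk2 _ _ _ h
          obtain ⟨c, r, h⟩ := cut_true h
          obtain ⟨o, w, h⟩ := rdCE_true h
          rw [cond_true_iff] at h
          obtain ⟨h1, h2⟩ := h
          obtain ⟨h3, n', h4⟩ := hchk _ _ _ h2
          exact ⟨fun {P R} hd q1 q2 hU hV _ => ⟨w, h3, ckCE_sound h1 hb hd hU hV
            (fun hf => k1 hf (q1 hf) hU) (fun hf => k2 hf (q2 hf) hV)⟩, b, n', hb, h4⟩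
        · rw [Bool.cond_eq_ite] at h
          split_ifs at h with o4
          · obtain ⟨c, r, h⟩ := cut_true h
            obtain ⟨b', h⟩ := rdBs_true h
            rw [cond_true_iff] at h
            obtain ⟨h1, h2⟩ := h
            exact ih _ _ _ _ _ _ _ _ _ _ _ (ckB_sound h1) h2
          · obtain ⟨t, r, h⟩ := cut_true h
            rw [Bool.cond_eq_ite] at h
            split_ifs at h with o5
            · rw [cond_true_iff] at h
              obtain ⟨hf, h⟩ := h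
              obtain ⟨sr, si, W1, r, h, k1⟩ := hk1 _ _ _ h
              obtain ⟨c, r, h⟩ := cut_true h
              obtain ⟨o, h⟩ := rdOu_true h
              rw [cond_true_iff] at h
              obtain ⟨h1, h2⟩ := h
              exact ⟨fun {P R} hd q1 _ hU hV _ =>
                (ckX1_sound h1 hb hd hU hV (k1 hf (q1 hf) hU)).elim, b, r, hb, h2⟩
            · rw [cond_true_iff] at h
              obtain ⟨hf, h⟩ := h
              obtain ⟨sr, si, W1, r, h, k1⟩ := hk2 _ _ _ h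
              obtain ⟨c, r, h⟩ := cut_true h
              obtain ⟨o, h⟩ := rdOu_true h
              rw [cond_true_iff] at h
              obtain ⟨h1, h2⟩ := h
              exact ⟨fun {P R} hd _ q2 hU hV _ =>
                (ckX2_sound h1 hb hd hU hV (k1 hf (q2 hf) hV)).elim, b, r, hb, h2⟩

/-- Soundness of the whole tree. -/
theorem goEC_sound {chk : OutB → ℕ → (ℕ → Bool) → Bool} {G : OutB → Prop} {fy fb : Bool} {W : Rc}
    {f1 f2 : Bool} {kn1 kn2 : Kn} {Q1 Q2 : ℂ → ℂ → Prop}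
    (hchk : ∀ (o : OutB) (n : ℕ) (k : ℕ → Bool), chk o n k = true → G o ∧ ∃ n', k n' = true)
    (hk1 : KnOK f1 kn1 Q1) (hk2 : KnOK f2 kn2 Q2)
    {n a0 a1 a2 a3 a4 a5 a6 a7 : ℕ}
    (h : goEC chk fy fb W f1 f2 kn1 kn2 n a0 a1 a2 a3 a4 a5 a6 a7 = true) :
    BxE G fy fb W f1 f2 Q1 Q2 ⟨⟨a0, a1⟩, ⟨a2, a3⟩⟩ ⟨⟨a4, a5⟩, ⟨a6, a7⟩⟩ := by
  unfold goEC at h
  obtain ⟨c, r, h⟩ := cut_true h
  obtain ⟨b, h⟩ := rdBs_true h
  rw [cond_true_iff] at h
  obtain ⟨h1, h2⟩ := h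
  exact (goE_sound hchk hk1 hk2 _ _ _ _ _ _ _ _ _ _ _ _ (ckB_sound h1) h2).1

end Pool.Agent.S5.K3
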