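import Pool.Agent.S5.K3.GoF
import Pool.Agent.S5.K3.GoE

/-!
# The tree of the cells with the boxes of the neighbours: soundness
-/

set_option autoImplicit false

namespace Pool.Agent.S5.K3

open Complex Pool.Agent.S5.Num
open Pool.Agent.H63.VC3 hiding KK
open Pool.Agent.S3 hiding UU

/-- What is proved for a box: every point of the products of the boxes of the lists has an output
which is accepted. -/
def BxF (G : OutB → Prop) (fy fb : Bool) (W : Rc) (f1 f2 : Bool) (Q1 Q2 : ℂ → ℂ → Prop)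
    (L1 L2 : List Rc) (U V : Rc) : Prop :=
  ∀ {P R : ℂ}, Dm P R → (f1 = true → Q1 (lf nK P R) (lf nU P R)) →
    (f2 = true → Q2 (lf nK P R) (lf nV P R)) → (∃ u ∈ L1, u.In (lf nU P R)) →
    (∃ v ∈ L2, v.In (lf nV P R)) → U.In (lf nU P R) → V.In (lf nV P R) →
    W.In (lf nK P R) → ∃ o : OutB, G o ∧
      OutB.In fy fb o (oLy P R) (oLb P R) (oY P R) (oZ P R) (oB P R) (oHy P R) (oHb P R)

theorem dj_sound {a b c d : ℕ} {r : Rc} (h : dj a b c d r = true) {z : ℂ} (hz : r.In z)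
    (hU : (⟨⟨a, b⟩, ⟨c, d⟩⟩ : Rc).In z) : False := by
  obtain ⟨⟨g1, g2⟩, ⟨g3, g4⟩⟩ := hz
  obtain ⟨⟨k1, k2⟩, ⟨k3, k4⟩⟩ := hU
  unfold dj at h
  have key : ∀ {m n : ℕ}, Nat.ble (Nat.succ m) n = true → (m : ℝ) + 1 ≤ n := by
    intro m n hmn
    exact_mod_cast Nat.le_of_ble_eq_true hmn
  have k1 : (a : ℝ) - 67108864 ≤ 1048576 * z.re := k1
  have k2 : 1048576 * z.re ≤ (b : ℝ) - 67108864 := k2
  have k3 : (c : ℝ) - 67108864 ≤ 1048576 * z.im := k3
  have k4 : 1048576 * z.im ≤ (d : ℝ) - 67108864 := k4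
  rw [Bool.cond_eq_ite] at h
  split_ifs at h with h1
  · linarith [key h1]
  · rw [Bool.cond_eq_ite] at h
    split_ifs at h with h2
    · linarith [key h2]
    · rw [Bool.cond_eq_ite] at h
      split_ifs at h with h3
      · linarith [key h3]
      · linarith [key h]

theorem djs_sound {a b c d : ℕ} {L : List Rc} (h : djs a b c d L = true) {z : ℂ}
    (hz : ∃ u ∈ L, u.In z) (hU : (⟨⟨a, b⟩, ⟨c, d⟩⟩ : Rc).In z) : False := by
  obtain ⟨u, hu, hz⟩ := hz
  induction L with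
  | nil => exact absurd hu (by simp)
  | cons r L ih =>
    have h' : cond (dj a b c d r) (djs a b c d L) false = true := h
    rw [cond_true_iff] at h'
    rcases List.mem_cons.1 hu with e | e
    · rw [← e] at h'
      exact dj_sound h'.1 hz hU
    · exact ih h'.2 e

theorem hul_sound {a b c d : ℕ} {L : List Rc} (h : hul a b c d L = true) {z : ℂ}
    (hz : ∃ u ∈ L, u.In z) : (⟨⟨a, b⟩, ⟨c, d⟩⟩ : Rc).In z := by
  obtain ⟨u, hu, hz⟩ := hz
  induction L with
  | nil => exact absurd hu (by simp)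
  | cons r L ih =>
    have h' : cond (cond (Nat.ble a r.re.lo) (cond (Nat.ble r.re.hi b) (cond (Nat.ble c r.im.lo)
      (Nat.ble r.im.hi d) false) false) false) (hul a b c d L) false = true := h
    rw [cond_true_iff] at h'
    rcases List.mem_cons.1 hu with e | e
    · rw [← e] at h'
      obtain ⟨h1, -⟩ := h'
      simp only [cond_true_iff] at h1
      obtain ⟨h1, h2, h3, h4⟩ := h1
      have h1 : (a : ℝ) ≤ u.re.lo := by exact_mod_cast Nat.le_of_ble_eq_true h1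
      have h2 : (u.re.hi : ℝ) ≤ b := by exact_mod_cast Nat.le_of_ble_eq_true h2
      have h3 : (c : ℝ) ≤ u.im.lo := by exact_mod_cast Nat.le_of_ble_eq_true h3
      have h4 : (u.im.hi : ℝ) ≤ d := by exact_mod_cast Nat.le_of_ble_eq_true h4
      obtain ⟨⟨g1, g2⟩, ⟨g3, g4⟩⟩ := hz
      refine ⟨⟨?_, ?_⟩, ⟨?_, ?_⟩⟩
      · show (a : ℝ) - 67108864 ≤ 1048576 * z.re
        linarith
      · show 1048576 * z.re ≤ (b : ℝ) - 67108864
        linarith
      · show (c : ℝ) - 67108864 ≤ 1048576 * z.im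
        linarith
      · show 1048576 * z.im ≤ (d : ℝ) - 67108864
        linarith
    · exact ih h'.2 e

theorem goF_succ (chk : OutB → ℕ → (ℕ → Bool) → Bool) (el fy fb : Bool) (W : Rc) (f1 f2 : Bool)
    (kn1 kn2 : Kn) (L1 L2 : List Rc) (fuel : ℕ) (b : Bs)
    (n a0 a1 a2 a3 a4 a5 a6 a7 : ℕ) (k : Bs → ℕ → Bool) :
    goF chk el fy fb W f1 f2 kn1 kn2 L1 L2 (fuel + 1) b n a0 a1 a2 a3 a4 a5 a6 a7 k =
      cut 3 n (fun op r =>
      cond (Nat.ble op 3)
        (cond (Nat.ble op 1)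
          (cond (Nat.ble op 0)
            (fN (fun m => goF chk el fy fb W f1 f2 kn1 kn2 L1 L2 fuel b r a0 m a2 a3 a4 a5 a6 a7
              (fun b r => goF chk el fy fb W f1 f2 kn1 kn2 L1 L2 fuel b r m a1 a2 a3 a4 a5 a6 a7 k))
              (Nat.div (Nat.add a0 a1) 2))
            (fN (fun m => goF chk el fy fb W f1 f2 kn1 kn2 L1 L2 fuel b r a0 a1 a2 m a4 a5 a6 a7
              (fun b r => goF chk el fy fb W f1 f2 kn1 kn2 L1 L2 fuel b r a0 a1 m a3 a4 a5 a6 a7 k))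
              (Nat.div (Nat.add a2 a3) 2)))
          (cond (Nat.ble op 2)
            (fN (fun m => goF chk el fy fb W f1 f2 kn1 kn2 L1 L2 fuel b r a0 a1 a2 a3 a4 m a6 a7
              (fun b r => goF chk el fy fb W f1 f2 kn1 kn2 L1 L2 fuel b r a0 a1 a2 a3 m a5 a6 a7 k))
              (Nat.div (Nat.add a4 a5) 2))
            (fN (fun m => goF chk el fy fb W f1 f2 kn1 kn2 L1 L2 fuel b r a0 a1 a2 a3 a4 a5 a6 m
              (fun b r => goF chk el fy fb W f1 f2 kn1 kn2 L1 L2 fuel b r a0 a1 a2 a3 a4 a5 m a7 k))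
              (Nat.div (Nat.add a6 a7) 2))))
        (cond (Nat.ble op 4)
          (cut 360 r (fun c r => rdOu c 0 (fun o =>
            cond (ckX b ⟨⟨a0, a1⟩, ⟨a2, a3⟩⟩ ⟨⟨a4, a5⟩, ⟨a6, a7⟩⟩ o W) (k b r) false)))
        (cond (Nat.ble op 5)
          (cond el
            (kn1 ⟨⟨a0, a1⟩, ⟨a2, a3⟩⟩ r (fun sr si W1 r => kn2 ⟨⟨a4, a5⟩, ⟨a6, a7⟩⟩ r
              (fun tr ti W2 r => cut 4760 r (fun c r => rdCE c (fun o w =>
              cond (ckCE b ⟨⟨a0, a1⟩, ⟨a2, a3⟩⟩ ⟨⟨a4, a5⟩, ⟨a6, a7⟩⟩ f1 f2 sr si W1 tr ti W2 fy fb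
                o w)
                (chk w r (fun r => k b r)) false)))))
            (cut 3640 r (fun c r => rdCl c (fun o w =>
              cond (ckC b ⟨⟨a0, a1⟩, ⟨a2, a3⟩⟩ ⟨⟨a4, a5⟩, ⟨a6, a7⟩⟩ fy fb o w)
                (chk w r (fun r => k b r)) false))))
        (cond (Nat.ble op 6)
          (cut 2520 r (fun c r => rdBs c (fun b => cond (ckB b)
            (goF chk el fy fb W f1 f2 kn1 kn2 L1 L2 fuel b r a0 a1 a2 a3 a4 a5 a6 a7 k) false)))
          (cut 2 r (fun t r => cond (Nat.ble t 1)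
            (cond (Nat.ble t 0)
              (cond f1 (kn1 ⟨⟨a0, a1⟩, ⟨a2, a3⟩⟩ r (fun sr si W1 r => cut 360 r (fun c r =>
                rdOu c 0 (fun o => cond (ckX1 b ⟨⟨a0, a1⟩, ⟨a2, a3⟩⟩ ⟨⟨a4, a5⟩, ⟨a6, a7⟩⟩ sr si W1 o)
                  (k b r) false)))) false)
              (cond f2 (kn2 ⟨⟨a4, a5⟩, ⟨a6, a7⟩⟩ r (fun sr si W2 r => cut 360 r (fun c r =>
                rdOu c 0 (fun o => cond (ckX2 b ⟨⟨a0, a1⟩, ⟨a2, a3⟩⟩ ⟨⟨a4, a5⟩, ⟨a6, a7⟩⟩ sr si W2 o)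
                  (k b r) false)))) false))
            (cond (djp a0 a1 a2 a3 a4 a5 a6 a7 L1 L2) (k b r) false))))))) := by
  unfold goF
  rfl

theorem goF_sound {chk : OutB → ℕ → (ℕ → Bool) → Bool} {G : OutB → Prop} {el fy fb : Bool} {W : Rc}
    {f1 f2 : Bool} {kn1 kn2 : Kn} {Q1 Q2 : ℂ → ℂ → Prop} {L1 L2 : List Rc}
    (hchk : ∀ (o : OutB) (n : ℕ) (k : ℕ → Bool), chk o n k = true → G o ∧ ∃ n', k n' = true)
    (hk1 : KnOK f1 kn1 Q1) (hk2 : KnOK f2 kn2 Q2)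
    (fuel : ℕ) : ∀ (b : Bs) (n a0 a1 a2 a3 a4 a5 a6 a7 : ℕ) (k : Bs → ℕ → Bool), BsOK b →
      goF chk el fy fb W f1 f2 kn1 kn2 L1 L2 fuel b n a0 a1 a2 a3 a4 a5 a6 a7 k = true →
      BxF G fy fb W f1 f2 Q1 Q2 L1 L2 ⟨⟨a0, a1⟩, ⟨a2, a3⟩⟩ ⟨⟨a4, a5⟩, ⟨a6, a7⟩⟩ ∧
        ∃ b' n', BsOK b' ∧ k b' n' = true := by
  induction fuel with
  | zero =>
    intro b n a0 a1 a2 a3 a4 a5 a6 a7 k hb h
    exact absurd h Bool.false_ne_true
  | succ fuel ih =>
    intro b n a0 a1 a2 a3 a4 a5 a6 a7 k hb h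
    rw [goF_succ] at h
    obtain ⟨op, r, h⟩ := cut_true h
    rw [Bool.cond_eq_ite] at h
    split_ifs at h with o1
    · rw [Bool.cond_eq_ite] at h
      split_ifs at h with o2
      · rw [Bool.cond_eq_ite] at h
        split_ifs at h with o3
        · rw [fN_eq] at h
          obtain ⟨g1, b', n', hb', h⟩ := ih _ _ _ _ _ _ _ _ _ _ _ hb h
          obtain ⟨g2, h⟩ := ih _ _ _ _ _ _ _ _ _ _ _ hb' h
          refine ⟨fun {P R} hd q1 q2 l1 l2 hU hV hW => ?_, h⟩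
          obtain ⟨hU1, hU2⟩ := hU
          rcases Iv.split _ hU1 with h5 | h5
          · exact g1 hd q1 q2 l1 l2 ⟨h5, hU2⟩ hV hW
          · exact g2 hd q1 q2 l1 l2 ⟨h5, hU2⟩ hV hW
        · rw [fN_eq] at h
          obtain ⟨g1, b', n', hb', h⟩ := ih _ _ _ _ _ _ _ _ _ _ _ hb h
          obtain ⟨g2, h⟩ := ih _ _ _ _ _ _ _ _ _ _ _ hb' h
          refine ⟨fun {P R} hd q1 q2 l1 l2 hU hV hW => ?_, h⟩
          obtain ⟨hU1, hU2⟩ := hU
          rcases Iv.split _ hU2 with h5 | h5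
          · exact g1 hd q1 q2 l1 l2 ⟨hU1, h5⟩ hV hW
          · exact g2 hd q1 q2 l1 l2 ⟨hU1, h5⟩ hV hW
      · rw [Bool.cond_eq_ite] at h
        split_ifs at h with o3
        · rw [fN_eq] at h
          obtain ⟨g1, b', n', hb', h⟩ := ih _ _ _ _ _ _ _ _ _ _ _ hb h
          obtain ⟨g2, h⟩ := ih _ _ _ _ _ _ _ _ _ _ _ hb' h
          refine ⟨fun {P R} hd q1 q2 l1 l2 hU hV hW => ?_, h⟩
          obtain ⟨hV1, hV2⟩ := hV
          rcases Iv.split _ hV1 with h5 | h5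
          · exact g1 hd q1 q2 l1 l2 hU ⟨h5, hV2⟩ hW
          · exact g2 hd q1 q2 l1 l2 hU ⟨h5, hV2⟩ hW
        · rw [fN_eq] at h
          obtain ⟨g1, b', n', hb', h⟩ := ih _ _ _ _ _ _ _ _ _ _ _ hb h
          obtain ⟨g2, h⟩ := ih _ _ _ _ _ _ _ _ _ _ _ hb' h
          refine ⟨fun {P R} hd q1 q2 l1 l2 hU hV hW => ?_, h⟩
          obtain ⟨hV1, hV2⟩ := hV
          rcases Iv.split _ hV2 with h5 | h5
          · exact g1 hd q1 q2 l1 l2 hU ⟨hV1, h5⟩ hW
          · exact g2 hd q1 q2 l1 l2 hU ⟨hV1, h5⟩ hW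
    · rw [Bool.cond_eq_ite] at h
      split_ifs at h with o2
      · obtain ⟨c, r, h⟩ := cut_true h
        obtain ⟨o, h⟩ := rdOu_true h
        rw [cond_true_iff] at h
        obtain ⟨h1, h2⟩ := h
        exact ⟨fun {P R} hd _ _ _ _ hU hV hW => (ckX_sound h1 hb hd hU hV hW).elim, b, r, hb, h2⟩
      · rw [Bool.cond_eq_ite] at h
        split_ifs at h with o3
        · cases el
          · rw [cond_false] at h
            obtain ⟨c, r, h⟩ := cut_true h
            obtain ⟨o, w, h⟩ := rdCl_true h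
            rw [cond_true_iff] at h
            obtain ⟨h1, h2⟩ := h
            obtain ⟨h3, n', h4⟩ := hchk _ _ _ h2
            exact ⟨fun {P R} hd _ _ _ _ hU hV _ => ⟨w, h3, ckC_sound h1 hb hd hU hV⟩, b, n', hb, h4⟩
          · rw [cond_true] at h
            obtain ⟨sr, si, W1, r, h, k1⟩ := hk1 _ _ _ h
            obtain ⟨tr, ti, W2, r, h, k2⟩ := hk2 _ _ _ h
            obtain ⟨c, r, h⟩ := cut_true h
            obtain ⟨o, w, h⟩ := rdCE_true h
            rw [cond_true_iff] at h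
            obtain ⟨h1, h2⟩ := h
            obtain ⟨h3, n', h4⟩ := hchk _ _ _ h2
            exact ⟨fun {P R} hd q1 q2 _ _ hU hV _ => ⟨w, h3, ckCE_sound h1 hb hd hU hV
              (fun hf => k1 hf (q1 hf) hU) (fun hf => k2 hf (q2 hf) hV)⟩, b, n', hb, h4⟩
        · rw [Bool.cond_eq_ite] at h
          split_ifs at h with o4
          · obtain ⟨c, r, h⟩ := cut_true h
            obtain ⟨b', h⟩ := rdBs_true h
            rw [cond_true_iff] at h
            obtain ⟨h1, h2⟩ := h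
            exact ih _ _ _ _ _ _ _ _ _ _ _ (ckB_sound h1) h2
          · obtain ⟨t, r, h⟩ := cut_true h
            rw [Bool.cond_eq_ite] at h
            split_ifs at h with o5
            · rw [Bool.cond_eq_ite] at h
              split_ifs at h with o6
              · rw [cond_true_iff] at h
                obtain ⟨hf, h⟩ := h
                obtain ⟨sr, si, W1, r, h, k1⟩ := hk1 _ _ _ h
                obtain ⟨c, r, h⟩ := cut_true h
                obtain ⟨o, h⟩ := rdOu_true h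
                rw [cond_true_iff] at h
                obtain ⟨h1, h2⟩ := h
                exact ⟨fun {P R} hd q1 _ _ _ hU hV _ =>
                  (ckX1_sound h1 hb hd hU hV (k1 hf (q1 hf) hU)).elim, b, r, hb, h2⟩
              · rw [cond_true_iff] at h
                obtain ⟨hf, h⟩ := h
                obtain ⟨sr, si, W1, r, h, k1⟩ := hk2 _ _ _ h
                obtain ⟨c, r, h⟩ := cut_true h
                obtain ⟨o, h⟩ := rdOu_true h
                rw [cond_true_iff] at h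
                obtain ⟨h1, h2⟩ := h
                exact ⟨fun {P R} hd _ q2 _ _ hU hV _ =>
                  (ckX2_sound h1 hb hd hU hV (k1 hf (q2 hf) hV)).elim, b, r, hb, h2⟩
            · rw [cond_true_iff] at h
              obtain ⟨h1, h2⟩ := h
              unfold djp at h1
              rw [Bool.cond_eq_ite] at h1
              refine ⟨fun {P R} _ _ _ l1 l2 hU hV _ => ?_, b, r, hb, h2⟩
              exfalso
              split_ifs at h1 with o6
              · exact djs_sound o6 l1 hU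
              · exact djs_sound h1 l2 hV

/-- What is proved for a group. -/
def BxG (G : OutB → Prop) (fy fb : Bool) (W : Rc) (f1 f2 : Bool) (Q1 Q2 : ℂ → ℂ → Prop)
    (L1 L2 : List Rc) : Prop :=
  ∀ {P R : ℂ}, Dm P R → (f1 = true → Q1 (lf nK P R) (lf nU P R)) →
    (f2 = true → Q2 (lf nK P R) (lf nV P R)) → (∃ u ∈ L1, u.In (lf nU P R)) →
    (∃ v ∈ L2, v.In (lf nV P R)) → W.In (lf nK P R) → ∃ o : OutB, G o ∧
      OutB.In fy fb o (oLy P R) (oLb P R) (oY P R) (oZ P R) (oB P R) (oHy P R) (oHb P R)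

/-- Soundness of the check of a group. -/
theorem goG_sound {chk : OutB → ℕ → (ℕ → Bool) → Bool} {G : OutB → Prop} {el fy fb : Bool} {W : Rc}
    {f1 f2 : Bool} {kn1 kn2 : Kn} {Q1 Q2 : ℂ → ℂ → Prop} {L1 L2 : List Rc}
    (hchk : ∀ (o : OutB) (n : ℕ) (k : ℕ → Bool), chk o n k = true → G o ∧ ∃ n', k n' = true)
    (hk1 : KnOK f1 kn1 Q1) (hk2 : KnOK f2 kn2 Q2)
    {n a0 a1 a2 a3 a4 a5 a6 a7 : ℕ}
    (h : goG chk el fy fb W f1 f2 kn1 kn2 L1 L2 n a0 a1 a2 a3 a4 a5 a6 a7 = true) :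
    BxG G fy fb W f1 f2 Q1 Q2 L1 L2 := by
  unfold goG at h
  simp only [cond_true_iff] at h
  obtain ⟨h1, h2, h⟩ := h
  unfold goFC at h
  obtain ⟨c, r, h⟩ := cut_true h
  obtain ⟨b, h⟩ := rdBs_true h
  rw [cond_true_iff] at h
  obtain ⟨h3, h4⟩ := h
  obtain ⟨h5, -⟩ := goF_sound (el := el) hchk hk1 hk2 _ _ _ _ _ _ _ _ _ _ _ _ (ckB_sound h3) h4
  intro P R hd q1 q2 l1 l2 hW
  exact h5 hd q1 q2 l1 l2 (hul_sound h1 l1) (hul_sound h2 l2) hW

end Pool.Agent.S5.K3
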