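import Pool.Agent.S5.K3.PyT
import Pool.Agent.S5.K3.Low
import Pool.Agent.S5.K3.GoFS

/-!
# The test of a cell of a node with three half twists
-/

set_option autoImplicit false

namespace Pool.Agent.S5.K3

open Pool.Agent.S5.Num Pool.Agent.S5.G3

/-- What the test of a cell gives. -/
def G3c (py pb : Py) (J1 : Nat) (SY SB : Bool) (o : OutB) : Prop :=
  (∃ p : BP, rows3 py pb p J1 o = true) ∧ loO SY SB o = true

/-- The test of a cell: six digits for the base point. -/
def chk3 (py pb : Py) (J1 : Nat) (SY SB : Bool) (o : OutB) (n : Nat) (k : Nat → Bool) : Bool :=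
  cut 8 n (fun iy n => cut 8 n (fun jy n => cut 8 n (fun iz n => cut 8 n (fun jz n =>
    cut 8 n (fun ib n => cut 8 n (fun jb n =>
      cond (rows3 py pb ⟨iy, jy, iz, jz, ib, jb⟩ J1 o) (cond (loO SY SB o) (k n) false) false))))))

theorem chk3_sound (py pb : Py) (J1 : Nat) (SY SB : Bool) (o : OutB) (n : ℕ) (k : ℕ → Bool)
    (h : chk3 py pb J1 SY SB o n k = true) : G3c py pb J1 SY SB o ∧ ∃ n', k n' = true := by
  unfold chk3 at h
  obtain ⟨iy, n, h⟩ := cut_true h
  obtain ⟨jy, n, h⟩ := cut_true h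
  obtain ⟨iz, n, h⟩ := cut_true h
  obtain ⟨jz, n, h⟩ := cut_true h
  obtain ⟨ib, n, h⟩ := cut_true h
  obtain ⟨jb, n, h⟩ := cut_true h
  rw [cond_true_iff, cond_true_iff] at h
  exact ⟨⟨⟨_, h.1⟩, h.2.1⟩, n, h.2.2⟩

end Pool.Agent.S5.K3
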