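import Pool.Agent.S5.K3.Def

/-!
# A node with three half twists: the rectangles of the critical data
-/

set_option autoImplicit false

namespace Pool.Agent.S5.K3

open Complex Pool.Agent.H63.VC3 Pool.Agent.S3

/-- An interval, in units `2 ^ (-20)`, with the offset `2 ^ 26`. -/
structure Iv where
  lo : ℕ
  hi : ℕ

/-- Membership. -/
def Iv.In (v : Iv) (x : ℝ) : Prop :=
  (v.lo : ℝ) - 67108864 ≤ 1048576 * x ∧ 1048576 * x ≤ (v.hi : ℝ) - 67108864

/-- A rectangle, in units `2 ^ (-20)`. -/
structure Rc where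
  re : Iv
  im : Iv

/-- Membership. -/
def Rc.In (v : Rc) (z : ℂ) : Prop := v.re.In z.re ∧ v.im.In z.im

/-- The rectangles of the slopes `λ_y`, `λ_b`, of the critical point `y*, z*, b*` and of
`hh (1/2 - y*)`, `hh (1/2 - b*)`. -/
structure OutB where
  ly : Rc
  lb : Rc
  ys : Rc
  zs : Rc
  bs : Rc
  hy : Rc
  hb : Rc

/-- Membership, without the last two entries. -/
structure OutB.In5 (o : OutB) (ly lb ys zs bs : ℂ) : Prop where
  cly : o.ly.In ly
  clb : o.lb.In lb
  cy : o.ys.In ys
  cz : o.zs.In zs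
  cb : o.bs.In bs

/-- Membership; the last two entries only if the flags say so. -/
structure OutB.In (fy fb : Bool) (o : OutB) (ly lb ys zs bs hy hb : ℂ) : Prop
    extends OutB.In5 o ly lb ys zs bs where
  chy : fy = true → o.hy.In hy
  chb : fb = true → o.hb.In hb

/-- `hh (1/2 - y*)`, up to a multiple of `π i`. -/
noncomputable def nHy : Fin 8 → ℂ := ![1, 0, 0, 1, -1 / 2, -1 / 2, 0, 0]

/-- `hh (1/2 - b*)`, up to a multiple of `π i`. -/
noncomputable def nHb : Fin 8 → ℂ := ![0, 1, 0, 1, 0, 0, -1 / 2, -1 / 2]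

/-- The data as functions of `P`, `R`. -/
noncomputable def oLy (P R : ℂ) : ℂ := lf nLy P R + Real.pi * I

/-- The data as functions of `P`, `R`. -/
noncomputable def oLb (P R : ℂ) : ℂ := lf nLb P R + Real.pi * I

/-- The data as functions of `P`, `R`. -/
noncomputable def oY (P R : ℂ) : ℂ := (lf nY P R + Real.pi * I) / (2 * Real.pi * I)

/-- The data as functions of `P`, `R`. -/
noncomputable def oZ (P R : ℂ) : ℂ := lf nZ P R / (2 * Real.pi * I)

/-- The data as functions of `P`, `R`. -/
noncomputable def oB (P R : ℂ) : ℂ := (lf nB P R + Real.pi * I) / (2 * Real.pi * I)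

/-- `hh (1/2 - y*)`. -/
noncomputable def oHy (P R : ℂ) : ℂ := lf nHy P R + Real.pi / 2 * I

/-- `hh (1/2 - b*)`. -/
noncomputable def oHb (P R : ℂ) : ℂ := lf nHb P R + Real.pi / 2 * I

end Pool.Agent.S5.K3
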