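import Pool.Agent.S5.K3.Ba
import Pool.Agent.S5.K3.Out

/-!
# The cells: the program
-/

set_option autoImplicit false

namespace Pool.Agent.S5.K3

open Pool.Agent.S5.Num

/-- The positive part of `(a - 2^16) (p - n)`. -/
def rp (a p n : Nat) : Nat := Nat.add (Nat.mul a p) (Nat.mul 65536 n)

/-- The positive part of `Re ((a - 2^16 + (b - 2^16) i) ((x - x') + (y - y') i))`. -/
def mr (a b x x' y y' : Nat) : Nat := Nat.add (rp a x x') (rp b y' y)

/-- The positive part of `Im ((a - 2^16 + (b - 2^16) i) ((x - x') + (y - y') i))`. -/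
def mi (a b x x' y y' : Nat) : Nat := Nat.add (rp a y y') (rp b x x')

/-- The data of a cell with respect to its base: the radius, the numbers `T`, six times the
derivatives of the two known forms, the deviations and radii of the two known values. -/
structure Kd where
  rho : Nat
  T0 : Nat
  T1 : Nat
  T2 : Nat
  T3 : Nat
  X1 : Nat
  Y1 : Nat
  X2 : Nat
  Y2 : Nat
  X3 : Nat
  Y3 : Nat
  up : Nat
  un : Nat
  wp : Nat
  wn : Nat
  ur : Nat
  ui : Nat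
  vp : Nat
  vn : Nat
  zp : Nat
  zn : Nat
  vr : Nat
  vi : Nat

/-- A linear form at a base: twice the value, six times the derivatives, the coefficients, twice
the remainder of the last four values. -/
structure Fm where
  v1 : Nat
  v2 : Nat
  u1 : Nat
  u2 : Nat
  p1 : Nat
  p2 : Nat
  q1 : Nat
  q2 : Nat
  r1 : Nat
  r2 : Nat
  s1 : Nat
  s2 : Nat
  e0 : Nat
  e1 : Nat
  e2 : Nat
  e3 : Nat
  tl : Nat

/-- The multipliers of an output, the bound of the derivative, the norms. -/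
structure Ou where
  ar : Nat
  ai : Nat
  br : Nat
  bi : Nat
  g : Nat
  h0 : Nat
  h1 : Nat
  h2 : Nat
  h3 : Nat

/-- The deviation of a known value from `lp - ln - 2^32`: center (in units `2^-25`), radius. -/
def dvK (lo hi lp ln : Nat) (k : Nat → Nat → Nat → Bool) : Bool :=
  fN (fun p => fN (fun n => fN (fun d => fN (fun d' => fN (fun r => k d d' r)
    (Nat.mul 16 (Nat.sub hi lo))) (Nat.sub n p)) (Nat.sub p n))
    (Nat.mul 2 lp))
    (Nat.add 6442450944 (Nat.add (Nat.mul 16 (Nat.add lo hi)) (Nat.mul 2 ln)))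

/-- The square of the deviation. -/
def sq6 (d d' r : Nat) : Nat :=
  fN (fun e => Nat.mul e e) (Nat.add 6 (Nat.add r (Nat.add d d')))

/-- The data of a cell, with the condition of the localisation. -/
def mkKd (b : Bs) (U V : Rc) (k : Kd → Bool) : Bool :=
  fN (fun rho => fN (fun l2 => fN (fun t2 => fN (fun l3 => fN (fun t3 =>
  dvK U.re.lo U.re.hi (Nat.add b.a0.l l3) l2 (fun up un ur =>
  dvK U.im.lo U.im.hi (Nat.add b.a0.t t3) t2 (fun wp wn ui =>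
  dvK V.re.lo V.re.hi (Nat.add b.a1.l l3) l2 (fun vp vn vr =>
  dvK V.im.lo V.im.hi (Nat.add b.a1.t t3) t2 (fun zp zn vi =>
  cond (fN (fun M => Nat.ble (Nat.succ (Nat.mul 409600 (Nat.add
      (Nat.add (sq6 up un ur) (sq6 wp wn ui)) (Nat.add (sq6 vp vn vr) (sq6 zp zn vi)))))
      (Nat.mul M M)) (Nat.mul b.mu rho))
    (fN (fun X2 => fN (fun Y2 => fN (fun X1 => fN (fun Y1 => fN (fun X3 => fN (fun Y3 =>
      fN (fun T0 => fN (fun T1 => fN (fun T2 => fN (fun T3 =>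
      k ⟨rho, T0, T1, T2, T3, X1, Y1, X2, Y2, X3, Y3, up, un, wp, wn, ur, ui, vp, vn, zp, zn,
        vr, vi⟩)
      b.a3.T) b.a2.T) b.a1.T) b.a0.T)
      (Nat.add (Nat.mul 6 b.a1.d) Y2)) (Nat.add (Nat.mul 6 b.a1.c) X2))
      (Nat.add (Nat.mul 6 b.a0.d) Y2)) (Nat.add (Nat.mul 6 b.a0.c) X2))
      (Nat.mul 2 (Nat.add b.a2.d b.a3.d))) (Nat.mul 2 (Nat.add b.a2.c b.a3.c)))
    false))))) b.a3.t) b.a3.l) b.a2.t) b.a2.l) b.rho

/-- `h ^ 2 ≥ (a - a') ^ 2 + (b - b') ^ 2`. -/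
def nrm (h a a' b b' : Nat) : Bool :=
  fN (fun x => fN (fun y => Nat.ble (Nat.add (Nat.mul x x) (Nat.mul y y)) (Nat.mul h h))
    (ds' b b')) (ds' a a')

/-- The values of an output: twice the real and the imaginary part, in units `2^-36`, their
radii. -/
def ckO (c : Kd) (F : Fm) (o : Ou) (k : Nat → Nat → Nat → Nat → Nat → Nat → Bool) : Bool :=
  fN (fun ar => fN (fun ai => fN (fun br => fN (fun bi => fN (fun g =>
  fN (fun h0 => fN (fun h1 => fN (fun h2 => fN (fun h3 =>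
  cond (nrm h0 F.e0 ar 65536 ai) (cond (nrm h1 F.e1 br 65536 bi)
  (cond (fN (fun ab => fN (fun ab' =>
      cond (nrm h2 ab F.e2 ab' 131072) (nrm h3 F.e3 ab 131072 ab') false)
      (Nat.add ai bi)) (Nat.add ar br))
  (cond (fN (fun a1 => fN (fun a2 => fN (fun a3 => fN (fun a4 => fN (fun G =>
      Nat.ble (Nat.add (Nat.add (Nat.mul a1 a1) (Nat.mul a2 a2))
        (Nat.add (Nat.mul a3 a3) (Nat.mul a4 a4))) (Nat.mul G G)) (Nat.mul 100663296 g))
      (ds' (Nat.add (Nat.mul 4096 F.s1) (Nat.add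
        (mi ar ai 17179869184 c.X2 17179869184 c.Y2) (mi br bi 42949672960 c.X3 42949672960 c.Y3)))
        (Nat.add (Nat.mul 4096 F.s2) (Nat.add
        (mi ar ai c.X2 17179869184 c.Y2 17179869184) (mi br bi c.X3 42949672960 c.Y3 42949672960)))))
      (ds' (Nat.add (Nat.mul 4096 F.r1) (Nat.add
        (mr ar ai 17179869184 c.X2 17179869184 c.Y2) (mr br bi 42949672960 c.X3 42949672960 c.Y3)))
        (Nat.add (Nat.mul 4096 F.r2) (Nat.add
        (mr ar ai c.X2 17179869184 c.Y2 17179869184) (mr br bi c.X3 42949672960 c.Y3 42949672960)))))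
      (ds' (Nat.add (Nat.mul 4096 F.q1) (Nat.add
        (mi ar ai 42949672960 c.X1 42949672960 c.Y1) (mi br bi 17179869184 c.X2 17179869184 c.Y2)))
        (Nat.add (Nat.mul 4096 F.q2) (Nat.add
        (mi ar ai c.X1 42949672960 c.Y1 42949672960) (mi br bi c.X2 17179869184 c.Y2 17179869184)))))
      (ds' (Nat.add (Nat.mul 4096 F.p1) (Nat.add
        (mr ar ai 42949672960 c.X1 42949672960 c.Y1) (mr br bi 17179869184 c.X2 17179869184 c.Y2)))
        (Nat.add (Nat.mul 4096 F.p2) (Nat.add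
        (mr ar ai c.X1 42949672960 c.Y1 42949672960) (mr br bi c.X2 17179869184 c.Y2 17179869184)))))
  (fN (fun E => fN (fun xr => fN (fun xi => fN (fun yr => fN (fun yi =>
    fN (fun M1 => fN (fun M2 => fN (fun N1 => fN (fun N2 => fN (fun R1 => fN (fun R2 =>
      k M1 M2 R1 N1 N2 R2)
      (Nat.add E (Nat.add (Nat.add (Nat.mul xr c.ui) (Nat.mul xi c.ur))
        (Nat.add (Nat.mul yr c.vi) (Nat.mul yi c.vr)))))
      (Nat.add E (Nat.add (Nat.add (Nat.mul xr c.ur) (Nat.mul xi c.ui))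
        (Nat.add (Nat.mul yr c.vr) (Nat.mul yi c.vi)))))
      (Nat.add (Nat.mul 4096 F.u2) (Nat.add (mi ar ai c.un c.up c.wn c.wp)
        (mi br bi c.vn c.vp c.zn c.zp))))
      (Nat.add (Nat.mul 4096 F.u1) (Nat.add (mi ar ai c.up c.un c.wp c.wn)
        (mi br bi c.vp c.vn c.zp c.zn))))
      (Nat.add (Nat.mul 4096 F.v2) (Nat.add (mr ar ai c.un c.up c.wn c.wp)
        (mr br bi c.vn c.vp c.zn c.zp))))
      (Nat.add (Nat.mul 4096 F.v1) (Nat.add (mr ar ai c.up c.un c.wp c.wn)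
        (mr br bi c.vp c.vn c.zp c.zn))))
    (ds' bi 65536)) (ds' br 65536)) (ds' ai 65536)) (ds' ar 65536))
    (Nat.add (Nat.mul 512 (Nat.mul g c.rho)) (Nat.add (Nat.mul 4096 F.tl)
      (Nat.mul 2 (Nat.add (Nat.add (Nat.mul h0 c.T0) (Nat.mul h1 c.T1))
        (Nat.add (Nat.mul h2 c.T2) (Nat.mul h3 c.T3)))))))
  false) false) false) false)
  o.h3) o.h2) o.h1) o.h0) o.g) o.bi) o.br) o.ai) o.ar

/-- The final comparison, without division: `x = (M1 - M2) / 2^37` up to `r / 2^37`, plus a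
constant between `c1 / 2^37` and `c2 / 2^37`. -/
def fP (c1 c2 : Nat) (M1 M2 r lo hi : Nat) : Bool :=
  cond (Nat.ble (Nat.add (Nat.mul 131072 lo) (Nat.add M2 r))
      (Nat.add M1 (Nat.add 8796093022208 c1)))
    (Nat.ble (Nat.add M1 (Nat.add r (Nat.add 8796093022208 c2)))
      (Nat.add M2 (Nat.mul 131072 hi))) false

/-- The final comparison, divided by `2 π`; `s = 2^26` or `2^26 + 2^19`. -/
def fD (s : Nat) (M1 M2 r lo hi : Nat) : Bool :=
  cond (Nat.ble lo 134217728) (cond (Nat.ble hi 134217728)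
  (cond (Nat.ble (Nat.add (Nat.mul 843314856 lo) (Nat.add 134217728 (Nat.mul 1024 (Nat.add M2 r))))
      (Nat.add (Nat.mul 843314856 s) (Nat.mul 1024 M1)))
    (Nat.ble (Nat.add (Nat.mul 843314856 s) (Nat.add 134217728 (Nat.mul 1024 (Nat.add M1 r))))
      (Nat.add (Nat.mul 843314856 hi) (Nat.mul 1024 M2))) false) false) false

/-! ### The forms -/

/-- `nLy`. -/
def fLy (b : Bs) : Fm :=
  ⟨(Nat.mul 4 b.a0.l), (Nat.mul 4 b.a2.l),
    (Nat.mul 4 b.a0.t), (Nat.mul 4 b.a2.t),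
    (Nat.add (Nat.mul 12 b.a0.c) (Nat.mul 4 b.a2.c)), 68719476736,
    (Nat.add (Nat.mul 12 b.a0.d) (Nat.mul 4 b.a2.d)), 68719476736,
    (Nat.mul 4 b.a2.c), 17179869184,
    (Nat.mul 4 b.a2.d), 17179869184,
    73728, 65536, 139264, 131072, 0⟩

/-- `nLb`. -/
def fLb (b : Bs) : Fm :=
  ⟨(Nat.mul 4 b.a1.l), (Nat.mul 4 b.a2.l),
    (Nat.mul 4 b.a1.t), (Nat.mul 4 b.a2.t),
    (Nat.mul 4 b.a2.c), 17179869184,
    (Nat.mul 4 b.a2.d), 17179869184,
    (Nat.add (Nat.mul 12 b.a1.c) (Nat.mul 4 b.a2.c)), 68719476736,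
    (Nat.add (Nat.mul 12 b.a1.d) (Nat.mul 4 b.a2.d)), 68719476736,
    65536, 73728, 139264, 131072, 0⟩

/-- `nY`. -/
def fY (b : Bs) : Fm :=
  ⟨(Nat.mul 2 b.a4.l), (Nat.mul 2 b.a5.l),
    (Nat.mul 2 b.a4.t), (Nat.mul 2 b.a5.t),
    (Nat.add (Nat.mul 4 b.a4.c) (Nat.mul 8 b.a5.c)), 51539607552,
    (Nat.add (Nat.mul 4 b.a4.d) (Nat.mul 8 b.a5.d)), 51539607552,
    (Nat.mul 2 b.a5.c), (Nat.mul 2 b.a4.c),
    (Nat.mul 2 b.a5.d), (Nat.mul 2 b.a4.d),
    65536, 65536, 131072, 131072, (Nat.add (Nat.mul 2 b.a4.T) (Nat.mul 2 b.a5.T))⟩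

/-- `nZ`. -/
def fZ (b : Bs) : Fm :=
  ⟨(Nat.mul 2 b.a1.l), (Nat.mul 2 b.a4.l),
    (Nat.mul 2 b.a1.t), (Nat.mul 2 b.a4.t),
    17179869184, (Nat.mul 4 b.a4.c),
    17179869184, (Nat.mul 4 b.a4.d),
    (Nat.add (Nat.mul 6 b.a1.c) (Nat.mul 2 b.a4.c)), 34359738368,
    (Nat.add (Nat.mul 6 b.a1.d) (Nat.mul 2 b.a4.d)), 34359738368,
    65536, 69632, 131072, 131072, (Nat.mul 2 b.a4.T)⟩

/-- `nB`. -/
def fB (b : Bs) : Fm :=
  ⟨(Nat.mul 2 b.a6.l), (Nat.mul 2 b.a7.l),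
    (Nat.mul 2 b.a6.t), (Nat.mul 2 b.a7.t),
    (Nat.mul 2 b.a7.c), (Nat.mul 2 b.a6.c),
    (Nat.mul 2 b.a7.d), (Nat.mul 2 b.a6.d),
    (Nat.add (Nat.mul 4 b.a6.c) (Nat.mul 8 b.a7.c)), 51539607552,
    (Nat.add (Nat.mul 4 b.a6.d) (Nat.mul 8 b.a7.d)), 51539607552,
    65536, 65536, 131072, 131072, (Nat.add (Nat.mul 2 b.a6.T) (Nat.mul 2 b.a7.T))⟩

/-- `nK`. -/
def fK (b : Bs) : Fm :=
  ⟨(Nat.mul 2 b.a3.l), 8589934592,
    (Nat.mul 2 b.a3.t), 8589934592,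
    (Nat.mul 2 b.a3.c), 8589934592,
    (Nat.mul 2 b.a3.d), 8589934592,
    (Nat.mul 2 b.a3.c), 8589934592,
    (Nat.mul 2 b.a3.d), 8589934592,
    65536, 65536, 131072, 135168, 0⟩

/-- `nHy`. -/
def fHy (b : Bs) : Fm :=
  ⟨(Nat.add (Nat.mul 2 b.a0.l) (Nat.mul 2 b.a3.l)), (Nat.add (b.a4.l) (Nat.add (b.a5.l) (8589934592))),
    (Nat.add (Nat.mul 2 b.a0.t) (Nat.mul 2 b.a3.t)), (Nat.add (b.a4.t) (Nat.add (b.a5.t) (8589934592))),
    (Nat.add (Nat.mul 6 b.a0.c) (Nat.add (Nat.mul 2 b.a3.c) (Nat.mul 4 b.a5.c))), (Nat.add (Nat.mul 2 b.a4.c) (42949672960)),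
    (Nat.add (Nat.mul 6 b.a0.d) (Nat.add (Nat.mul 2 b.a3.d) (Nat.mul 4 b.a5.d))), (Nat.add (Nat.mul 2 b.a4.d) (42949672960)),
    (Nat.add (Nat.mul 2 b.a3.c) (Nat.add (b.a4.c) (b.a5.c))), 17179869184,
    (Nat.add (Nat.mul 2 b.a3.d) (Nat.add (b.a4.d) (b.a5.d))), 17179869184,
    69632, 65536, 131072, 135168, (Nat.add (b.a4.T) (b.a5.T))⟩

/-- `nHb`. -/
def fHb (b : Bs) : Fm :=
  ⟨(Nat.add (Nat.mul 2 b.a1.l) (Nat.mul 2 b.a3.l)), (Nat.add (b.a6.l) (Nat.add (b.a7.l) (8589934592))),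
    (Nat.add (Nat.mul 2 b.a1.t) (Nat.mul 2 b.a3.t)), (Nat.add (b.a6.t) (Nat.add (b.a7.t) (8589934592))),
    (Nat.add (Nat.mul 2 b.a3.c) (Nat.add (b.a6.c) (b.a7.c))), 17179869184,
    (Nat.add (Nat.mul 2 b.a3.d) (Nat.add (b.a6.d) (b.a7.d))), 17179869184,
    (Nat.add (Nat.mul 6 b.a1.c) (Nat.add (Nat.mul 2 b.a3.c) (Nat.mul 4 b.a7.c))), (Nat.add (Nat.mul 2 b.a6.c) (42949672960)),
    (Nat.add (Nat.mul 6 b.a1.d) (Nat.add (Nat.mul 2 b.a3.d) (Nat.mul 4 b.a7.d))), (Nat.add (Nat.mul 2 b.a6.d) (42949672960)),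
    65536, 69632, 131072, 135168, (Nat.add (b.a6.T) (b.a7.T))⟩

/-- A value plus a multiple of `i`, with the claimed rectangle. -/
def oP (c1 c2 : Nat) (c : Kd) (F : Fm) (o : Ou) (w : Rc) : Bool :=
  ckO c F o (fun M1 M2 R1 N1 N2 R2 =>
    cond (fP 0 0 M1 M2 R1 w.re.lo w.re.hi) (fP c1 c2 N1 N2 R2 w.im.lo w.im.hi) false)

/-- A value divided by `2 π i`, plus `0` or `1 / 2`, with the claimed rectangle. -/
def oD (s : Nat) (c : Kd) (F : Fm) (o : Ou) (w : Rc) : Bool :=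
  ckO c F o (fun M1 M2 R1 N1 N2 R2 =>
    cond (fD s N1 N2 R2 w.re.lo w.re.hi) (fD 67108864 M2 M1 R1 w.im.lo w.im.hi) false)

/-- The condition that a value is outside a rectangle. -/
def oX (c : Kd) (F : Fm) (o : Ou) (w : Rc) : Bool :=
  ckO c F o (fun M1 M2 R1 N1 N2 R2 =>
    cond (Nat.ble (Nat.succ (Nat.add M1 (Nat.add R1 8796093022208)))
      (Nat.add M2 (Nat.mul 131072 w.re.lo))) true
    (cond (Nat.ble (Nat.succ (Nat.add M2 (Nat.add R1 (Nat.mul 131072 w.re.hi))))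
      (Nat.add M1 8796093022208)) true
    (cond (Nat.ble (Nat.succ (Nat.add N1 (Nat.add R2 8796093022208)))
      (Nat.add N2 (Nat.mul 131072 w.im.lo))) true
    (Nat.ble (Nat.succ (Nat.add N2 (Nat.add R2 (Nat.mul 131072 w.im.hi))))
      (Nat.add N1 8796093022208)))))

/-- The multipliers of the seven outputs. -/
structure Ous where
  oLy : Ou
  oLb : Ou
  oY : Ou
  oZ : Ou
  oB : Ou
  oHy : Ou
  oHb : Ou

/-- The check of a cell; the last two outputs only if the flags say so. -/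
def ckC (b : Bs) (U V : Rc) (fy fb : Bool) (o : Ous) (w : OutB) : Bool :=
  mkKd b U V (fun c =>
    cond (oP 431777206544 431777206545 c (fLy b) o.oLy w.ly)
    (cond (oP 431777206544 431777206545 c (fLb b) o.oLb w.lb)
    (cond (oD 67633152 c (fY b) o.oY w.ys)
    (cond (oD 67108864 c (fZ b) o.oZ w.zs)
    (cond (oD 67633152 c (fB b) o.oB w.bs)
    (cond (cond fy (oP 215888603272 215888603273 c (fHy b) o.oHy w.hy) true)
      (cond fb (oP 215888603272 215888603273 c (fHb b) o.oHb w.hb) true) false)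
    false) false) false) false) false)

/-- The check of an empty cell: the value of `nK` is outside the rectangle. -/
def ckX (b : Bs) (U V : Rc) (o : Ou) (w : Rc) : Bool :=
  mkKd b U V (fun c => oX c (fK b) o w)

end Pool.Agent.S5.K3
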