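import Pool.Agent.S5.K3.Go

/-!
# Cells with additional known forms: the program

The known forms are `nU`, `nV`, `W1 = nK - s1 nU`, `W2 = nK - s2 nV`. The numbers `s1`, `s2` and
their multipliers are `(n - 4096) / 64`.
-/

set_option autoImplicit false

namespace Pool.Agent.S5.K3

open Pool.Agent.S5.Num

/-- The positive part of `(a - 4096) (p - n)`. -/
def rq (a p n : Nat) : Nat := Nat.add (Nat.mul a p) (Nat.mul 4096 n)

/-- The positive part of `Re ((a - 4096 + (b - 4096) i) ((x - x') + (y - y') i))`. -/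
def mq (a b x x' y y' : Nat) : Nat := Nat.add (rq a x x') (rq b y' y)

/-- The positive part of `Im ((a - 4096 + (b - 4096) i) ((x - x') + (y - y') i))`. -/
def mj (a b x x' y y' : Nat) : Nat := Nat.add (rq a y y') (rq b x x')

/-- An additional known form: the number `s`, the deviation and the radii (in units `2^-31`). -/
structure Kw where
  sr : Nat
  si : Nat
  dp : Nat
  dn : Nat
  ep : Nat
  en : Nat
  r1 : Nat
  r2 : Nat

/-- The data of an additional known form; `lp - ln`, `tp - tn` is the value of `nU` or `nV` at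
the base (in units `2^-24`). -/
def mkW (l3 t3 lp ln tp tn sr si : Nat) (W : Rc) (k : Kw → Bool) : Bool :=
  fN (fun p => fN (fun n => fN (fun p' => fN (fun n' => fN (fun dp => fN (fun dn => fN (fun ep =>
    fN (fun en => fN (fun r1 => fN (fun r2 => k ⟨sr, si, dp, dn, ep, en, r1, r2⟩)
    (Nat.mul 1024 (Nat.sub W.im.hi W.im.lo))) (Nat.mul 1024 (Nat.sub W.re.hi W.re.lo)))
    (Nat.sub n' p')) (Nat.sub p' n')) (Nat.sub n p)) (Nat.sub p n))
    (Nat.add (Nat.mul 128 t3) (Nat.mul 2 (mj sr si ln lp tn tp))))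
    (Nat.add (Nat.add 412316860416 (Nat.mul 1024 (Nat.add W.im.lo W.im.hi)))
      (Nat.mul 2 (mj sr si lp ln tp tn))))
    (Nat.add (Nat.mul 128 l3) (Nat.mul 2 (mq sr si ln lp tn tp))))
    (Nat.add (Nat.add 412316860416 (Nat.mul 1024 (Nat.add W.re.lo W.re.hi)))
      (Nat.mul 2 (mq sr si lp ln tp tn)))

/-- The condition on the norms and on the derivative of the remainder
`n - c0 nU - c1 nV - c2 nK`. -/
def ckR (c : Kd) (Z Zi : Nat) (F : Fm) (ar ai br bi cr ci g h0 h1 h2 h3 : Nat) : Bool :=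
  cond (nrm h0 F.e0 ar 65536 ai) (cond (nrm h1 F.e1 br 65536 bi)
  (cond (fN (fun ab => fN (fun ab' =>
      cond (nrm h2 ab F.e2 ab' 131072)
        (nrm h3 (Nat.add 65536 F.e3) (Nat.add ab cr) 196608 (Nat.add ab' ci)) false)
      (Nat.add ai bi)) (Nat.add ar br))
  (fN (fun a1 => fN (fun a2 => fN (fun a3 => fN (fun a4 => fN (fun G =>
      Nat.ble (Nat.add (Nat.add (Nat.mul a1 a1) (Nat.mul a2 a2))
        (Nat.add (Nat.mul a3 a3) (Nat.mul a4 a4))) (Nat.mul G G)) (Nat.mul 100663296 g))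
      (ds' (Nat.add (Nat.mul 4096 F.s1) (Nat.add (Nat.add
        (mi ar ai 17179869184 c.X2 17179869184 c.Y2) (mi br bi 42949672960 c.X3 42949672960 c.Y3))
        (mi cr ci 8589934592 Z 8589934592 Zi)))
        (Nat.add (Nat.mul 4096 F.s2) (Nat.add (Nat.add
        (mi ar ai c.X2 17179869184 c.Y2 17179869184) (mi br bi c.X3 42949672960 c.Y3 42949672960))
        (mi cr ci Z 8589934592 Zi 8589934592)))))
      (ds' (Nat.add (Nat.mul 4096 F.r1) (Nat.add (Nat.add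
        (mr ar ai 17179869184 c.X2 17179869184 c.Y2) (mr br bi 42949672960 c.X3 42949672960 c.Y3))
        (mr cr ci 8589934592 Z 8589934592 Zi)))
        (Nat.add (Nat.mul 4096 F.r2) (Nat.add (Nat.add
        (mr ar ai c.X2 17179869184 c.Y2 17179869184) (mr br bi c.X3 42949672960 c.Y3 42949672960))
        (mr cr ci Z 8589934592 Zi 8589934592)))))
      (ds' (Nat.add (Nat.mul 4096 F.q1) (Nat.add (Nat.add
        (mi ar ai 42949672960 c.X1 42949672960 c.Y1) (mi br bi 17179869184 c.X2 17179869184 c.Y2))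
        (mi cr ci 8589934592 Z 8589934592 Zi)))
        (Nat.add (Nat.mul 4096 F.q2) (Nat.add (Nat.add
        (mi ar ai c.X1 42949672960 c.Y1 42949672960) (mi br bi c.X2 17179869184 c.Y2 17179869184))
        (mi cr ci Z 8589934592 Zi 8589934592)))))
      (ds' (Nat.add (Nat.mul 4096 F.p1) (Nat.add (Nat.add
        (mr ar ai 42949672960 c.X1 42949672960 c.Y1) (mr br bi 17179869184 c.X2 17179869184 c.Y2))
        (mr cr ci 8589934592 Z 8589934592 Zi)))
        (Nat.add (Nat.mul 4096 F.p2) (Nat.add (Nat.add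
        (mr ar ai c.X1 42949672960 c.Y1 42949672960) (mr br bi c.X2 17179869184 c.Y2 17179869184))
        (mr cr ci Z 8589934592 Zi 8589934592)))))
  false) false) false

/-- The error, in units `2^-37`. -/
def erR (c : Kd) (F : Fm) (g h0 h1 h2 h3 : Nat) : Nat :=
  Nat.add (Nat.mul 512 (Nat.mul g c.rho)) (Nat.add (Nat.mul 4096 F.tl)
    (Nat.mul 2 (Nat.add (Nat.add (Nat.mul h0 c.T0) (Nat.mul h1 c.T1))
      (Nat.add (Nat.mul h2 c.T2) (Nat.mul h3 c.T3)))))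

/-- The multipliers of an output: of `nU`, `nV` (in `1/4096`, offset `65536`), of `W1`, `W2`. -/
structure Ow where
  o : Ou
  cr : Nat
  ci : Nat
  dr : Nat
  di : Nat

/-- The difference, if it is not negative. -/
def sbK (p n : Nat) (k : Nat → Bool) : Bool := cond (Nat.ble n p) (fN k (Nat.sub p n)) false

/-- The remainder of an output: `c0 = A - C s1`, `c1 = B - D s2`, `c2 = C + D`. -/
def ckRw (c : Kd) (Z Zi : Nat) (w1 w2 : Kw) (F : Fm) (o : Ow) : Bool :=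
  sbK (Nat.add o.o.ar (mq o.cr o.ci 4096 w1.sr 4096 w1.si))
    (mq o.cr o.ci w1.sr 4096 w1.si 4096) (fun ar =>
  sbK (Nat.add o.o.ai (mj o.cr o.ci 4096 w1.sr 4096 w1.si))
    (mj o.cr o.ci w1.sr 4096 w1.si 4096) (fun ai =>
  sbK (Nat.add o.o.br (mq o.dr o.di 4096 w2.sr 4096 w2.si))
    (mq o.dr o.di w2.sr 4096 w2.si 4096) (fun br =>
  sbK (Nat.add o.o.bi (mj o.dr o.di 4096 w2.sr 4096 w2.si))
    (mj o.dr o.di w2.sr 4096 w2.si 4096) (fun bi =>
  sbK (Nat.mul 64 (Nat.add o.cr o.dr)) 458752 (fun cr =>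
  sbK (Nat.mul 64 (Nat.add o.ci o.di)) 458752 (fun ci =>
    ckR c Z Zi F ar ai br bi cr ci o.o.g o.o.h0 o.o.h1 o.o.h2 o.o.h3))))))

/-- The values of an output, twice the real and the imaginary part in units `2^-36`. -/
def vlE (c : Kd) (w1 w2 : Kw) (F : Fm) (o : Ow)
    (k : Nat → Nat → Nat → Nat → Nat → Nat → Bool) : Bool :=
  fN (fun E => fN (fun xr => fN (fun xi => fN (fun yr => fN (fun yi =>
  fN (fun cr => fN (fun ci => fN (fun dr => fN (fun di =>
    fN (fun M1 => fN (fun M2 => fN (fun N1 => fN (fun N2 => fN (fun R1 => fN (fun R2 =>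
      k M1 M2 R1 N1 N2 R2)
      (Nat.add (Nat.add E (Nat.add (Nat.add (Nat.mul xr c.ui) (Nat.mul xi c.ur))
        (Nat.add (Nat.mul yr c.vi) (Nat.mul yi c.vr))))
        (Nat.add (Nat.add (Nat.mul cr w1.r2) (Nat.mul ci w1.r1))
        (Nat.add (Nat.mul dr w2.r2) (Nat.mul di w2.r1)))))
      (Nat.add (Nat.add E (Nat.add (Nat.add (Nat.mul xr c.ur) (Nat.mul xi c.ui))
        (Nat.add (Nat.mul yr c.vr) (Nat.mul yi c.vi))))
        (Nat.add (Nat.add (Nat.mul cr w1.r1) (Nat.mul ci w1.r2))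
        (Nat.add (Nat.mul dr w2.r1) (Nat.mul di w2.r2)))))
      (Nat.add (Nat.mul 4096 F.u2) (Nat.add
        (Nat.add (mi o.o.ar o.o.ai c.un c.up c.wn c.wp) (mi o.o.br o.o.bi c.vn c.vp c.zn c.zp))
        (Nat.add (mj o.cr o.ci w1.dn w1.dp w1.en w1.ep) (mj o.dr o.di w2.dn w2.dp w2.en w2.ep)))))
      (Nat.add (Nat.mul 4096 F.u1) (Nat.add
        (Nat.add (mi o.o.ar o.o.ai c.up c.un c.wp c.wn) (mi o.o.br o.o.bi c.vp c.vn c.zp c.zn))
        (Nat.add (mj o.cr o.ci w1.dp w1.dn w1.ep w1.en) (mj o.dr o.di w2.dp w2.dn w2.ep w2.en)))))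
      (Nat.add (Nat.mul 4096 F.v2) (Nat.add
        (Nat.add (mr o.o.ar o.o.ai c.un c.up c.wn c.wp) (mr o.o.br o.o.bi c.vn c.vp c.zn c.zp))
        (Nat.add (mq o.cr o.ci w1.dn w1.dp w1.en w1.ep) (mq o.dr o.di w2.dn w2.dp w2.en w2.ep)))))
      (Nat.add (Nat.mul 4096 F.v1) (Nat.add
        (Nat.add (mr o.o.ar o.o.ai c.up c.un c.wp c.wn) (mr o.o.br o.o.bi c.vp c.vn c.zp c.zn))
        (Nat.add (mq o.cr o.ci w1.dp w1.dn w1.ep w1.en) (mq o.dr o.di w2.dp w2.dn w2.ep w2.en)))))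
    (ds' o.di 4096)) (ds' o.dr 4096)) (ds' o.ci 4096)) (ds' o.cr 4096))
    (ds' o.o.bi 65536)) (ds' o.o.br 65536)) (ds' o.o.ai 65536)) (ds' o.o.ar 65536))
    (erR c F o.o.g o.o.h0 o.o.h1 o.o.h2 o.o.h3)

/-- A multiplier which must be zero unless the flag is set. -/
def flg (f : Bool) (a b : Nat) : Bool :=
  cond f true (cond (Nat.beq a 4096) (Nat.beq b 4096) false)

/-- The values of an output. -/
def ckOw (c : Kd) (Z Zi : Nat) (f1 f2 : Bool) (w1 w2 : Kw) (F : Fm) (o : Ow)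
    (k : Nat → Nat → Nat → Nat → Nat → Nat → Bool) : Bool :=
  cond (flg f1 o.cr o.ci) (cond (flg f2 o.dr o.di) (cond (ckRw c Z Zi w1 w2 F o)
    (vlE c w1 w2 F o k) false) false) false

/-- A value plus a multiple of `i`, with the claimed rectangle. -/
def wP (c1 c2 : Nat) (c : Kd) (Z Zi : Nat) (f1 f2 : Bool) (w1 w2 : Kw) (F : Fm) (o : Ow)
    (w : Rc) : Bool :=
  ckOw c Z Zi f1 f2 w1 w2 F o (fun M1 M2 R1 N1 N2 R2 =>
    cond (fP 0 0 M1 M2 R1 w.re.lo w.re.hi) (fP c1 c2 N1 N2 R2 w.im.lo w.im.hi) false)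

/-- A value divided by `2 π i`, plus `0` or `1 / 2`, with the claimed rectangle. -/
def wD (s : Nat) (c : Kd) (Z Zi : Nat) (f1 f2 : Bool) (w1 w2 : Kw) (F : Fm) (o : Ow)
    (w : Rc) : Bool :=
  ckOw c Z Zi f1 f2 w1 w2 F o (fun M1 M2 R1 N1 N2 R2 =>
    cond (fD s N1 N2 R2 w.re.lo w.re.hi) (fD 67108864 M2 M1 R1 w.im.lo w.im.hi) false)

/-- The multipliers of the seven outputs. -/
structure Ows where
  oLy : Ow
  oLb : Ow
  oY : Ow
  oZ : Ow
  oB : Ow
  oHy : Ow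
  oHb : Ow

/-- The data of the two additional known forms. -/
def mkWs (b : Bs) (sr si : Nat) (W1 : Rc) (tr ti : Nat) (W2 : Rc) (k : Kw → Kw → Bool) : Bool :=
  fN (fun ln => fN (fun tn =>
    mkW b.a3.l b.a3.t (Nat.add b.a0.l b.a3.l) ln (Nat.add b.a0.t b.a3.t) tn sr si W1 (fun w1 =>
    mkW b.a3.l b.a3.t (Nat.add b.a1.l b.a3.l) ln (Nat.add b.a1.t b.a3.t) tn tr ti W2 (fun w2 =>
      k w1 w2)))
    (Nat.add 4294967296 b.a2.t)) (Nat.add 4294967296 b.a2.l)

/-- The check of a cell. -/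
def ckCE (b : Bs) (U V : Rc) (f1 f2 : Bool) (sr si : Nat) (W1 : Rc) (tr ti : Nat) (W2 : Rc)
    (fy fb : Bool) (o : Ows) (w : OutB) : Bool :=
  mkKd b U V (fun c => mkWs b sr si W1 tr ti W2 (fun w1 w2 => fN (fun Z => fN (fun Zi =>
    cond (wP 431777206544 431777206545 c Z Zi f1 f2 w1 w2 (fLy b) o.oLy w.ly)
    (cond (wP 431777206544 431777206545 c Z Zi f1 f2 w1 w2 (fLb b) o.oLb w.lb)
    (cond (wD 67633152 c Z Zi f1 f2 w1 w2 (fY b) o.oY w.ys)
    (cond (wD 67108864 c Z Zi f1 f2 w1 w2 (fZ b) o.oZ w.zs)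
    (cond (wD 67633152 c Z Zi f1 f2 w1 w2 (fB b) o.oB w.bs)
    (cond (cond fy (wP 215888603272 215888603273 c Z Zi f1 f2 w1 w2 (fHy b) o.oHy w.hy) true)
      (cond fb (wP 215888603272 215888603273 c Z Zi f1 f2 w1 w2 (fHb b) o.oHb w.hb) true) false)
    false) false) false) false) false)
    (Nat.mul 2 b.a3.d)) (Nat.mul 2 b.a3.c)))

/-- The condition that the value of an additional known form, evaluated from `U` and `V`, is
outside its rectangle. -/
def xtW (c : Kd) (w : Kw) (o : Ou) (E : Nat) : Bool :=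
  fN (fun xr => fN (fun xi => fN (fun yr => fN (fun yi =>
    fN (fun R1 => fN (fun R2 => fN (fun M1 => fN (fun M2 => fN (fun N1 => fN (fun N2 =>
    cond (Nat.ble (Nat.succ (Nat.add M1 (Nat.add R1 (Nat.mul 64 (Nat.add w.dn w.r1)))))
      (Nat.add M2 (Nat.mul 64 w.dp))) true
    (cond (Nat.ble (Nat.succ (Nat.add M2 (Nat.add R1 (Nat.mul 64 (Nat.add w.dp w.r1)))))
      (Nat.add M1 (Nat.mul 64 w.dn))) true
    (cond (Nat.ble (Nat.succ (Nat.add N1 (Nat.add R2 (Nat.mul 64 (Nat.add w.en w.r2)))))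
      (Nat.add N2 (Nat.mul 64 w.ep))) true
    (Nat.ble (Nat.succ (Nat.add N2 (Nat.add R2 (Nat.mul 64 (Nat.add w.ep w.r2)))))
      (Nat.add N1 (Nat.mul 64 w.en))))))
      (Nat.add (mi o.ar o.ai c.un c.up c.wn c.wp) (mi o.br o.bi c.vn c.vp c.zn c.zp)))
      (Nat.add (mi o.ar o.ai c.up c.un c.wp c.wn) (mi o.br o.bi c.vp c.vn c.zp c.zn)))
      (Nat.add (mr o.ar o.ai c.un c.up c.wn c.wp) (mr o.br o.bi c.vn c.vp c.zn c.zp)))
      (Nat.add (mr o.ar o.ai c.up c.un c.wp c.wn) (mr o.br o.bi c.vp c.vn c.zp c.zn)))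
      (Nat.add E (Nat.add (Nat.add (Nat.mul xr c.ui) (Nat.mul xi c.ur))
        (Nat.add (Nat.mul yr c.vi) (Nat.mul yi c.vr)))))
      (Nat.add E (Nat.add (Nat.add (Nat.mul xr c.ur) (Nat.mul xi c.ui))
        (Nat.add (Nat.mul yr c.vr) (Nat.mul yi c.vi)))))
    (ds' o.bi 65536)) (ds' o.br 65536)) (ds' o.ai 65536)) (ds' o.ar 65536)

/-- An empty cell, by the first additional form. -/
def ckX1 (b : Bs) (U V : Rc) (sr si : Nat) (W : Rc) (o : Ou) : Bool :=
  mkKd b U V (fun c => mkWs b sr si W 4096 4096 W (fun w _ =>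
    sbK (Nat.add o.ar (Nat.mul 64 sr)) 262144 (fun ar =>
    sbK (Nat.add o.ai (Nat.mul 64 si)) 262144 (fun ai =>
      cond (ckR c (Nat.mul 2 b.a3.c) (Nat.mul 2 b.a3.d) (fK b) ar ai o.br o.bi 65536 65536
        o.g o.h0 o.h1 o.h2 o.h3)
        (xtW c w o (erR c (fK b) o.g o.h0 o.h1 o.h2 o.h3)) false))))

/-- An empty cell, by the second additional form. -/
def ckX2 (b : Bs) (U V : Rc) (sr si : Nat) (W : Rc) (o : Ou) : Bool :=
  mkKd b U V (fun c => mkWs b 4096 4096 W sr si W (fun _ w =>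
    sbK (Nat.add o.br (Nat.mul 64 sr)) 262144 (fun br =>
    sbK (Nat.add o.bi (Nat.mul 64 si)) 262144 (fun bi =>
      cond (ckR c (Nat.mul 2 b.a3.c) (Nat.mul 2 b.a3.d) (fK b) o.ar o.ai br bi 65536 65536
        o.g o.h0 o.h1 o.h2 o.h3)
        (xtW c w o (erR c (fK b) o.g o.h0 o.h1 o.h2 o.h3)) false))))

/-! ### The tree -/

/-- The multipliers of an output, 13 fields. -/
def rdOw {α : Type} (n i : Nat) (k : Ow → α) : α :=
  rdOu n i (fun o => fN (fun cr => fN (fun ci => fN (fun dr => fN (fun di => k ⟨o, cr, ci, dr, di⟩)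
    (fld n (Nat.add i 480))) (fld n (Nat.add i 440))) (fld n (Nat.add i 400)))
    (fld n (Nat.add i 360)))

/-- A cell, 119 fields. -/
def rdCE {α : Type} (n : Nat) (k : Ows → OutB → α) : α :=
  rdOw n 0 (fun o1 => rdOw n 520 (fun o2 => rdOw n 1040 (fun o3 => rdOw n 1560 (fun o4 =>
  rdOw n 2080 (fun o5 => rdOw n 2600 (fun o6 => rdOw n 3120 (fun o7 =>
  rdRc n 3640 (fun w1 => rdRc n 3800 (fun w2 => rdRc n 3960 (fun w3 => rdRc n 4120 (fun w4 =>
  rdRc n 4280 (fun w5 => rdRc n 4440 (fun w6 => rdRc n 4600 (fun w7 =>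
    k ⟨o1, o2, o3, o4, o5, o6, o7⟩ ⟨w1, w2, w3, w4, w5, w6, w7⟩))))))))))))))

/-- The type of the functions which give an additional known form from the rectangle of `U` or
`V`: `s` and the rectangle of `nK - s nU` or `nK - s nV`. -/
abbrev Kn : Type := Rc → Nat → (Nat → Nat → Rc → Nat → Bool) → Bool

/-- The tree. The instructions are those of `go`, but a cell has first the hints of `kn1` and
`kn2` and 119 fields; `7`: an empty cell by an additional form: one bit (`0`: the first, `1`: the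
second form), the hints, nine fields. -/
def goE (chk : OutB → Nat → (Nat → Bool) → Bool) (fy fb : Bool) (W : Rc) (f1 f2 : Bool)
    (kn1 kn2 : Kn) (fuel : Nat) :
    Bs → Nat → Nat → Nat → Nat → Nat → Nat → Nat → Nat → Nat → (Bs → Nat → Bool) → Bool :=
  Nat.rec (fun _ _ _ _ _ _ _ _ _ _ _ => false)
    (fun _ ih b n a0 a1 a2 a3 a4 a5 a6 a7 k => cut 3 n (fun op r =>
      cond (Nat.ble op 3)
        (cond (Nat.ble op 1)
          (cond (Nat.ble op 0)
            (fN (fun m => ih b r a0 m a2 a3 a4 a5 a6 a7 (fun b r =>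
              ih b r m a1 a2 a3 a4 a5 a6 a7 k)) (Nat.div (Nat.add a0 a1) 2))
            (fN (fun m => ih b r a0 a1 a2 m a4 a5 a6 a7 (fun b r =>
              ih b r a0 a1 m a3 a4 a5 a6 a7 k)) (Nat.div (Nat.add a2 a3) 2)))
          (cond (Nat.ble op 2)
            (fN (fun m => ih b r a0 a1 a2 a3 a4 m a6 a7 (fun b r =>
              ih b r a0 a1 a2 a3 m a5 a6 a7 k)) (Nat.div (Nat.add a4 a5) 2))
            (fN (fun m => ih b r a0 a1 a2 a3 a4 a5 a6 m (fun b r =>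
              ih b r a0 a1 a2 a3 a4 a5 m a7 k)) (Nat.div (Nat.add a6 a7) 2))))
        (cond (Nat.ble op 4)
          (cut 360 r (fun c r => rdOu c 0 (fun o =>
            cond (ckX b ⟨⟨a0, a1⟩, ⟨a2, a3⟩⟩ ⟨⟨a4, a5⟩, ⟨a6, a7⟩⟩ o W) (k b r) false)))
        (cond (Nat.ble op 5)
          (kn1 ⟨⟨a0, a1⟩, ⟨a2, a3⟩⟩ r (fun sr si W1 r => kn2 ⟨⟨a4, a5⟩, ⟨a6, a7⟩⟩ r
            (fun tr ti W2 r => cut 4760 r (fun c r => rdCE c (fun o w =>
            cond (ckCE b ⟨⟨a0, a1⟩, ⟨a2, a3⟩⟩ ⟨⟨a4, a5⟩, ⟨a6, a7⟩⟩ f1 f2 sr si W1 tr ti W2 fy fb o w)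
              (chk w r (fun r => k b r)) false)))))
        (cond (Nat.ble op 6)
          (cut 2520 r (fun c r => rdBs c (fun b => cond (ckB b)
            (ih b r a0 a1 a2 a3 a4 a5 a6 a7 k) false)))
          (cut 1 r (fun t r => cond (Nat.ble t 0)
            (cond f1 (kn1 ⟨⟨a0, a1⟩, ⟨a2, a3⟩⟩ r (fun sr si W1 r => cut 360 r (fun c r =>
              rdOu c 0 (fun o => cond (ckX1 b ⟨⟨a0, a1⟩, ⟨a2, a3⟩⟩ ⟨⟨a4, a5⟩, ⟨a6, a7⟩⟩ sr si W1 o)
                (k b r) false)))) false)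
            (cond f2 (kn2 ⟨⟨a4, a5⟩, ⟨a6, a7⟩⟩ r (fun sr si W2 r => cut 360 r (fun c r =>
              rdOu c 0 (fun o => cond (ckX2 b ⟨⟨a0, a1⟩, ⟨a2, a3⟩⟩ ⟨⟨a4, a5⟩, ⟨a6, a7⟩⟩ sr si W2 o)
                (k b r) false)))) false))))))))
    fuel

/-- The whole tree; the first instruction is a base. -/
def goEC (chk : OutB → Nat → (Nat → Bool) → Bool) (fy fb : Bool) (W : Rc) (f1 f2 : Bool)
    (kn1 kn2 : Kn) (n a0 a1 a2 a3 a4 a5 a6 a7 : Nat) : Bool :=
  cut 2520 n (fun c r => rdBs c (fun b => cond (ckB b)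
    (goE chk fy fb W f1 f2 kn1 kn2 10000 b r a0 a1 a2 a3 a4 a5 a6 a7 (fun _ _ => true)) false))

/-- No additional form. -/
def knZ : Kn := fun _ n k => k 4096 4096 ⟨⟨0, 0⟩, ⟨0, 0⟩⟩ n

end Pool.Agent.S5.K3
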