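import Pool.Agent.S5.K3.Ck

/-!
# The tree of the cells: the program

Everything is read from one natural number (from the low end). An instruction has three bits:
`0`, `1`, `2`, `3`: halve the real, imaginary part of `U`, the real, imaginary part of `V`;
`4`: an empty cell (nine fields, the multipliers of `nK`); `5`: a cell (91 fields: the multipliers
of the seven outputs, the seven rectangles), followed by the data of `chk`; `6`: a new base
(63 fields). A field has 40 bits.
-/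

set_option autoImplicit false

namespace Pool.Agent.S5.K3

open Pool.Agent.S5.Num

/-- The field at the bit `i`. -/
def fld (n i : Nat) : Nat := Nat.land (Nat.shiftRight n i) 1099511627775

def rdAt {α : Type} (n i : Nat) (k : At → α) : α :=
  fN (fun l => fN (fun t => fN (fun c => fN (fun d => fN (fun n1 => fN (fun n2 => fN (fun T =>
    k ⟨l, t, c, d, n1, n2, T⟩) (fld n (Nat.add i 240))) (fld n (Nat.add i 200)))
    (fld n (Nat.add i 160))) (fld n (Nat.add i 120))) (fld n (Nat.add i 80)))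
    (fld n (Nat.add i 40))) (fld n i)

/-- A base, 63 fields. -/
def rdBs {α : Type} (n : Nat) (k : Bs → α) : α :=
  fN (fun E => fN (fun p1 => fN (fun p2 => fN (fun r1 => fN (fun r2 => fN (fun rho =>
  fN (fun mu => rdAt n 280 (fun a0 => rdAt n 560 (fun a1 => rdAt n 840 (fun a2 =>
    rdAt n 1120 (fun a3 => rdAt n 1400 (fun a4 => rdAt n 1680 (fun a5 => rdAt n 1960 (fun a6 =>
    rdAt n 2240 (fun a7 => k ⟨E, p1, p2, r1, r2, rho, mu, a0, a1, a2, a3, a4, a5, a6, a7⟩))))))))
  ) (fld n 240)) (fld n 200)) (fld n 160)) (fld n 120)) (fld n 80)) (fld n 40)) (fld n 0)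

/-- The multipliers of an output, 9 fields. -/
def rdOu {α : Type} (n i : Nat) (k : Ou → α) : α :=
  fN (fun ar => fN (fun ai => fN (fun br => fN (fun bi => fN (fun g => fN (fun h0 =>
    fN (fun h1 => fN (fun h2 => fN (fun h3 => k ⟨ar, ai, br, bi, g, h0, h1, h2, h3⟩)
    (fld n (Nat.add i 320))) (fld n (Nat.add i 280)))
    (fld n (Nat.add i 240))) (fld n (Nat.add i 200)))
    (fld n (Nat.add i 160))) (fld n (Nat.add i 120))) (fld n (Nat.add i 80)))
    (fld n (Nat.add i 40))) (fld n i)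

/-- A rectangle, 4 fields. -/
def rdRc {α : Type} (n i : Nat) (k : Rc → α) : α :=
  fN (fun a => fN (fun b => fN (fun c => fN (fun d => k ⟨⟨a, b⟩, ⟨c, d⟩⟩)
    (fld n (Nat.add i 120))) (fld n (Nat.add i 80))) (fld n (Nat.add i 40))) (fld n i)

/-- A cell, 91 fields. -/
def rdCl {α : Type} (n : Nat) (k : Ous → OutB → α) : α :=
  rdOu n 0 (fun o1 => rdOu n 360 (fun o2 => rdOu n 720 (fun o3 => rdOu n 1080 (fun o4 =>
  rdOu n 1440 (fun o5 => rdOu n 1800 (fun o6 => rdOu n 2160 (fun o7 =>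
  rdRc n 2520 (fun w1 => rdRc n 2680 (fun w2 => rdRc n 2840 (fun w3 => rdRc n 3000 (fun w4 =>
  rdRc n 3160 (fun w5 => rdRc n 3320 (fun w6 => rdRc n 3480 (fun w7 =>
    k ⟨o1, o2, o3, o4, o5, o6, o7⟩ ⟨w1, w2, w3, w4, w5, w6, w7⟩))))))))))))))

/-- The first `m` bits of `n` and the rest. -/
def cut (m n : Nat) (k : Nat → Nat → Bool) : Bool :=
  fN (fun a => fN (fun r => k a r) (Nat.shiftRight n m))
    (Nat.land n (Nat.sub (Nat.shiftLeft 1 m) 1))

/-- The tree. `W` is the rectangle of `nK`. -/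
def go (chk : OutB → Nat → (Nat → Bool) → Bool) (fy fb : Bool) (W : Rc) (fuel : Nat) :
    Bs → Nat → Nat → Nat → Nat → Nat → Nat → Nat → Nat → Nat → (Bs → Nat → Bool) → Bool :=
  Nat.rec (fun _ _ _ _ _ _ _ _ _ _ _ => false)
    (fun _ ih b n a0 a1 a2 a3 a4 a5 a6 a7 k => cut 3 n (fun op r =>
      cond (Nat.ble op 3)
        (cond (Nat.ble op 1)
          (cond (Nat.ble op 0)
            (fN (fun m => ih b r a0 m a2 a3 a4 a5 a6 a7 (fun b r =>
              ih b r m a1 a2 a3 a4 a5 a6 a7 k)) (Nat.div (Nat.add a0 a1) 2))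
            (fN (fun m => ih b r a0 a1 a2 m a4 a5 a6 a7 (fun b r =>
              ih b r a0 a1 m a3 a4 a5 a6 a7 k)) (Nat.div (Nat.add a2 a3) 2)))
          (cond (Nat.ble op 2)
            (fN (fun m => ih b r a0 a1 a2 a3 a4 m a6 a7 (fun b r =>
              ih b r a0 a1 a2 a3 m a5 a6 a7 k)) (Nat.div (Nat.add a4 a5) 2))
            (fN (fun m => ih b r a0 a1 a2 a3 a4 a5 a6 m (fun b r =>
              ih b r a0 a1 a2 a3 a4 a5 m a7 k)) (Nat.div (Nat.add a6 a7) 2))))
        (cond (Nat.ble op 4)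
          (cut 360 r (fun c r => rdOu c 0 (fun o =>
            cond (ckX b ⟨⟨a0, a1⟩, ⟨a2, a3⟩⟩ ⟨⟨a4, a5⟩, ⟨a6, a7⟩⟩ o W) (k b r) false)))
        (cond (Nat.ble op 5)
          (cut 3640 r (fun c r => rdCl c (fun o w =>
            cond (ckC b ⟨⟨a0, a1⟩, ⟨a2, a3⟩⟩ ⟨⟨a4, a5⟩, ⟨a6, a7⟩⟩ fy fb o w)
              (chk w r (fun r => k b r)) false)))
          (cut 2520 r (fun c r => rdBs c (fun b => cond (ckB b)
            (ih b r a0 a1 a2 a3 a4 a5 a6 a7 k) false)))))))
    fuel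

/-- The whole tree; the first instruction is a base. -/
def goC (chk : OutB → Nat → (Nat → Bool) → Bool) (fy fb : Bool) (W : Rc)
    (n a0 a1 a2 a3 a4 a5 a6 a7 : Nat) : Bool :=
  cut 2520 n (fun c r => rdBs c (fun b => cond (ckB b)
    (go chk fy fb W 10000 b r a0 a1 a2 a3 a4 a5 a6 a7 (fun _ _ => true)) false))

end Pool.Agent.S5.K3
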