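import Pool.Agent.S5.K3.CellS
import Pool.Agent.S5.K3.Go

/-!
# The tree of the cells: soundness
-/

set_option autoImplicit false

namespace Pool.Agent.S5.K3

open Complex Pool.Agent.S5.Num
open Pool.Agent.H63.VC3 hiding KK
open Pool.Agent.S3 hiding UU

/-- What is proved for a box: every point has an output which is accepted. -/
def Bx (G : OutB → Prop) (fy fb : Bool) (W U V : Rc) : Prop :=
  ∀ {P R : ℂ}, Dm P R → U.In (lf nU P R) → V.In (lf nV P R) → W.In (lf nK P R) →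
    ∃ o : OutB, G o ∧
      OutB.In fy fb o (oLy P R) (oLb P R) (oY P R) (oZ P R) (oB P R) (oHy P R) (oHb P R)

theorem Iv.split {lo hi : ℕ} (m : ℕ) {x : ℝ} (h : (⟨lo, hi⟩ : Iv).In x) :
    (⟨lo, m⟩ : Iv).In x ∨ (⟨m, hi⟩ : Iv).In x := by
  obtain ⟨h1, h2⟩ := h
  rcases le_total (1048576 * x) ((m : ℝ) - 67108864) with h3 | h3
  · exact Or.inl ⟨h1, h3⟩
  · exact Or.inr ⟨h3, h2⟩

theorem cut_true {m n : ℕ} {k : ℕ → ℕ → Bool} (h : cut m n k = true) :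
    ∃ a r : ℕ, k a r = true := by
  unfold cut at h
  simp only [fN_eq] at h
  exact ⟨_, _, h⟩

theorem rdOu_true {n i : ℕ} {k : Ou → Bool} (h : rdOu n i k = true) : ∃ o, k o = true := by
  unfold rdOu at h
  simp only [fN_eq] at h
  exact ⟨_, h⟩

theorem rdRc_true {n i : ℕ} {k : Rc → Bool} (h : rdRc n i k = true) : ∃ o, k o = true := by
  unfold rdRc at h
  simp only [fN_eq] at h
  exact ⟨_, h⟩

theorem rdAt_true {n i : ℕ} {k : At → Bool} (h : rdAt n i k = true) : ∃ o, k o = true := by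
  unfold rdAt at h
  simp only [fN_eq] at h
  exact ⟨_, h⟩

theorem rdBs_true {n : ℕ} {k : Bs → Bool} (h : rdBs n k = true) : ∃ b, k b = true := by
  unfold rdBs at h
  simp only [fN_eq] at h
  obtain ⟨a0, h⟩ := rdAt_true h
  obtain ⟨a1, h⟩ := rdAt_true h
  obtain ⟨a2, h⟩ := rdAt_true h
  obtain ⟨a3, h⟩ := rdAt_true h
  obtain ⟨a4, h⟩ := rdAt_true h
  obtain ⟨a5, h⟩ := rdAt_true h
  obtain ⟨a6, h⟩ := rdAt_true h
  obtain ⟨a7, h⟩ := rdAt_true h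
  exact ⟨_, h⟩

theorem rdCl_true {n : ℕ} {k : Ous → OutB → Bool} (h : rdCl n k = true) :
    ∃ o w, k o w = true := by
  unfold rdCl at h
  obtain ⟨o1, h⟩ := rdOu_true h
  obtain ⟨o2, h⟩ := rdOu_true h
  obtain ⟨o3, h⟩ := rdOu_true h
  obtain ⟨o4, h⟩ := rdOu_true h
  obtain ⟨o5, h⟩ := rdOu_true h
  obtain ⟨o6, h⟩ := rdOu_true h
  obtain ⟨o7, h⟩ := rdOu_true h
  obtain ⟨w1, h⟩ := rdRc_true h
  obtain ⟨w2, h⟩ := rdRc_true h
  obtain ⟨w3, h⟩ := rdRc_true h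
  obtain ⟨w4, h⟩ := rdRc_true h
  obtain ⟨w5, h⟩ := rdRc_true h
  obtain ⟨w6, h⟩ := rdRc_true h
  obtain ⟨w7, h⟩ := rdRc_true h
  exact ⟨_, _, h⟩

theorem go_succ (chk : OutB → ℕ → (ℕ → Bool) → Bool) (fy fb : Bool) (W : Rc) (fuel : ℕ) (b : Bs)
    (n a0 a1 a2 a3 a4 a5 a6 a7 : ℕ) (k : Bs → ℕ → Bool) :
    go chk fy fb W (fuel + 1) b n a0 a1 a2 a3 a4 a5 a6 a7 k =
      cut 3 n (fun op r =>
      cond (Nat.ble op 3)
        (cond (Nat.ble op 1)
          (cond (Nat.ble op 0)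
            (fN (fun m => go chk fy fb W fuel b r a0 m a2 a3 a4 a5 a6 a7 (fun b r =>
              go chk fy fb W fuel b r m a1 a2 a3 a4 a5 a6 a7 k)) (Nat.div (Nat.add a0 a1) 2))
            (fN (fun m => go chk fy fb W fuel b r a0 a1 a2 m a4 a5 a6 a7 (fun b r =>
              go chk fy fb W fuel b r a0 a1 m a3 a4 a5 a6 a7 k)) (Nat.div (Nat.add a2 a3) 2)))
          (cond (Nat.ble op 2)
            (fN (fun m => go chk fy fb W fuel b r a0 a1 a2 a3 a4 m a6 a7 (fun b r =>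
              go chk fy fb W fuel b r a0 a1 a2 a3 m a5 a6 a7 k)) (Nat.div (Nat.add a4 a5) 2))
            (fN (fun m => go chk fy fb W fuel b r a0 a1 a2 a3 a4 a5 a6 m (fun b r =>
              go chk fy fb W fuel b r a0 a1 a2 a3 a4 a5 m a7 k)) (Nat.div (Nat.add a6 a7) 2))))
        (cond (Nat.ble op 4)
          (cut 360 r (fun c r => rdOu c 0 (fun o =>
            cond (ckX b ⟨⟨a0, a1⟩, ⟨a2, a3⟩⟩ ⟨⟨a4, a5⟩, ⟨a6, a7⟩⟩ o W) (k b r) false)))
        (cond (Nat.ble op 5)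
          (cut 3640 r (fun c r => rdCl c (fun o w =>
            cond (ckC b ⟨⟨a0, a1⟩, ⟨a2, a3⟩⟩ ⟨⟨a4, a5⟩, ⟨a6, a7⟩⟩ fy fb o w)
              (chk w r (fun r => k b r)) false)))
          (cut 2520 r (fun c r => rdBs c (fun b => cond (ckB b)
            (go chk fy fb W fuel b r a0 a1 a2 a3 a4 a5 a6 a7 k) false)))))) := by
  unfold go
  rfl

theorem go_sound {chk : OutB → ℕ → (ℕ → Bool) → Bool} {G : OutB → Prop} {fy fb : Bool} {W : Rc}
    (hchk : ∀ (o : OutB) (n : ℕ) (k : ℕ → Bool), chk o n k = true → G o ∧ ∃ n', k n' = true)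
    (fuel : ℕ) : ∀ (b : Bs) (n a0 a1 a2 a3 a4 a5 a6 a7 : ℕ) (k : Bs → ℕ → Bool), BsOK b →
      go chk fy fb W fuel b n a0 a1 a2 a3 a4 a5 a6 a7 k = true →
      Bx G fy fb W ⟨⟨a0, a1⟩, ⟨a2, a3⟩⟩ ⟨⟨a4, a5⟩, ⟨a6, a7⟩⟩ ∧ ∃ b' n', BsOK b' ∧ k b' n' = true := by
  induction fuel with
  | zero =>
    intro b n a0 a1 a2 a3 a4 a5 a6 a7 k hb h
    exact absurd h Bool.false_ne_true
  | succ fuel ih =>
    intro b n a0 a1 a2 a3 a4 a5 a6 a7 k hb h
    rw [go_succ] at h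
    obtain ⟨op, r, h⟩ := cut_true h
    rw [Bool.cond_eq_ite] at h
    split_ifs at h with o1
    · rw [Bool.cond_eq_ite] at h
      split_ifs at h with o2
      · rw [Bool.cond_eq_ite] at h
        split_ifs at h with o3
        · rw [fN_eq] at h
          obtain ⟨g1, b', n', hb', h⟩ := ih _ _ _ _ _ _ _ _ _ _ _ hb h
          obtain ⟨g2, h⟩ := ih _ _ _ _ _ _ _ _ _ _ _ hb' h
          refine ⟨fun {P R} hd hU hV hW => ?_, h⟩
          obtain ⟨hU1, hU2⟩ := hU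
          rcases Iv.split _ hU1 with h5 | h5
          · exact g1 hd ⟨h5, hU2⟩ hV hW
          · exact g2 hd ⟨h5, hU2⟩ hV hW
        · rw [fN_eq] at h
          obtain ⟨g1, b', n', hb', h⟩ := ih _ _ _ _ _ _ _ _ _ _ _ hb h
          obtain ⟨g2, h⟩ := ih _ _ _ _ _ _ _ _ _ _ _ hb' h
          refine ⟨fun {P R} hd hU hV hW => ?_, h⟩
          obtain ⟨hU1, hU2⟩ := hU
          rcases Iv.split _ hU2 with h5 | h5
          · exact g1 hd ⟨hU1, h5⟩ hV hW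
          · exact g2 hd ⟨hU1, h5⟩ hV hW
      · rw [Bool.cond_eq_ite] at h
        split_ifs at h with o3
        · rw [fN_eq] at h
          obtain ⟨g1, b', n', hb', h⟩ := ih _ _ _ _ _ _ _ _ _ _ _ hb h
          obtain ⟨g2, h⟩ := ih _ _ _ _ _ _ _ _ _ _ _ hb' h
          refine ⟨fun {P R} hd hU hV hW => ?_, h⟩
          obtain ⟨hV1, hV2⟩ := hV
          rcases Iv.split _ hV1 with h5 | h5
          · exact g1 hd hU ⟨h5, hV2⟩ hW
          · exact g2 hd hU ⟨h5, hV2⟩ hW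
        · rw [fN_eq] at h
          obtain ⟨g1, b', n', hb', h⟩ := ih _ _ _ _ _ _ _ _ _ _ _ hb h
          obtain ⟨g2, h⟩ := ih _ _ _ _ _ _ _ _ _ _ _ hb' h
          refine ⟨fun {P R} hd hU hV hW => ?_, h⟩
          obtain ⟨hV1, hV2⟩ := hV
          rcases Iv.split _ hV2 with h5 | h5
          · exact g1 hd hU ⟨hV1, h5⟩ hW
          · exact g2 hd hU ⟨hV1, h5⟩ hW
    · rw [Bool.cond_eq_ite] at h
      split_ifs at h with o2
      · obtain ⟨c, r, h⟩ := cut_true h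
        obtain ⟨o, h⟩ := rdOu_true h
        rw [cond_true_iff] at h
        obtain ⟨h1, h2⟩ := h
        exact ⟨fun {P R} hd hU hV hW => (ckX_sound h1 hb hd hU hV hW).elim, b, r, hb, h2⟩
      · rw [Bool.cond_eq_ite] at h
        split_ifs at h with o3
        · obtain ⟨c, r, h⟩ := cut_true h
          obtain ⟨o, w, h⟩ := rdCl_true h
          rw [cond_true_iff] at h
          obtain ⟨h1, h2⟩ := h
          obtain ⟨h3, n', h4⟩ := hchk _ _ _ h2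
          exact ⟨fun {P R} hd hU hV _ => ⟨w, h3, ckC_sound h1 hb hd hU hV⟩, b, n', hb, h4⟩
        · obtain ⟨c, r, h⟩ := cut_true h
          obtain ⟨b', h⟩ := rdBs_true h
          rw [cond_true_iff] at h
          obtain ⟨h1, h2⟩ := h
          exact ih _ _ _ _ _ _ _ _ _ _ _ (ckB_sound h1) h2

/-- Soundness of the whole tree. -/
theorem goC_sound {chk : OutB → ℕ → (ℕ → Bool) → Bool} {G : OutB → Prop} {fy fb : Bool} {W : Rc}
    (hchk : ∀ (o : OutB) (n : ℕ) (k : ℕ → Bool), chk o n k = true → G o ∧ ∃ n', k n' = true)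
    {n a0 a1 a2 a3 a4 a5 a6 a7 : ℕ} (h : goC chk fy fb W n a0 a1 a2 a3 a4 a5 a6 a7 = true) :
    Bx G fy fb W ⟨⟨a0, a1⟩, ⟨a2, a3⟩⟩ ⟨⟨a4, a5⟩, ⟨a6, a7⟩⟩ := by
  unfold goC at h
  obtain ⟨c, r, h⟩ := cut_true h
  obtain ⟨b, h⟩ := rdBs_true h
  rw [cond_true_iff] at h
  obtain ⟨h1, h2⟩ := h
  exact (go_sound hchk _ _ _ _ _ _ _ _ _ _ _ _ (ckB_sound h1) h2).1

end Pool.Agent.S5.K3
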