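import Pool.Agent.S5.K3.CkE
import Pool.Agent.S5.K3.GoS

/-!
# Cells with additional known forms: soundness
-/

set_option autoImplicit false

namespace Pool.Agent.S5.K3

open Complex Pool.Agent.S5.Num
open Pool.Agent.H63.VC3 hiding KK
open Pool.Agent.S3 hiding UU

theorem mq_cast (a b x x' y y' : ℕ) : ((mq a b x x' y y' : ℕ) : ℝ) - (mq a b x' x y' y : ℕ) =
    ((a : ℝ) - 4096) * (x - x') - ((b : ℝ) - 4096) * (y - y') := by
  have e : ∀ x x' y y' : ℕ, mq a b x x' y y' = (a * x + 4096 * x') + (b * y' + 4096 * y) :=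
    fun _ _ _ _ => rfl
  rw [e, e]
  push_cast
  ring

theorem mj_cast (a b x x' y y' : ℕ) : ((mj a b x x' y y' : ℕ) : ℝ) - (mj a b x' x y' y : ℕ) =
    ((a : ℝ) - 4096) * (y - y') + ((b : ℝ) - 4096) * (x - x') := by
  have e : ∀ x x' y y' : ℕ, mj a b x x' y y' = (a * y + 4096 * y') + (b * x + 4096 * x') :=
    fun _ _ _ _ => rfl
  rw [e, e]
  push_cast
  ring

/-- The remainder vector: `n - c0 nU - c1 nV - c2 nK`. -/
noncomputable def Nw (n : Fin 8 → ℂ) (al be ga : ℂ) (k : Fin 8) : ℂ :=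
  n k - (al * nU k + be * nV k + ga * nK k) / 4096

theorem Nw_sum (n : Fin 8 → ℂ) (al be ga : ℂ) (x : Fin 8 → ℂ) :
    ∑ k, Nw n al be ga k * x k = ∑ k, n k * x k - (al * ∑ k, nU k * x k + be * ∑ k, nV k * x k +
      ga * ∑ k, nK k * x k) / 4096 := by
  unfold Nw
  simp only [Fin.sum_univ_eight]
  ring

theorem Nw_lf (n : Fin 8 → ℂ) (al be ga : ℂ) (P R : ℂ) :
    lf (Nw n al be ga) P R = lf n P R - (al * lf nU P R + be * lf nV P R + ga * lf nK P R) / 4096 := by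
  unfold lf
  exact Nw_sum n al be ga _

theorem Nw_norm {b : Bs} {n : Fin 8 → ℂ} {F : Fm} (hF : FmOK b n F)
    {ar ai br bi cr ci h0 h1 h2 h3 : ℕ}
    (k0 : nrm h0 F.e0 ar 65536 ai = true) (k1 : nrm h1 F.e1 br 65536 bi = true)
    (k2 : nrm h2 (Nat.add ar br) F.e2 (Nat.add ai bi) 131072 = true)
    (k3 : nrm h3 (Nat.add 65536 F.e3) (Nat.add (Nat.add ar br) cr) 196608
      (Nat.add (Nat.add ai bi) ci) = true) (k : Fin 8) :
    ‖Nw n (z4 ar 65536 ai 65536) (z4 br 65536 bi 65536) (z4 cr 65536 ci 65536) k‖ ≤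
      (![(h0 : ℝ) / 4096, (h1 : ℝ) / 4096, (h2 : ℝ) / 4096, (h3 : ℝ) / 4096, ‖n 4‖, ‖n 5‖, ‖n 6‖,
        ‖n 7‖] : Fin 8 → ℝ) k := by
  have k0 := nrm_sound k0
  have k1 := nrm_sound k1
  have k2 := nrm_sound k2
  have k3 := nrm_sound k3
  simp only [add_eq'] at k2 k3
  push_cast at k0 k1 k2 k3
  have key : ∀ {z w : ℂ} {h : ℕ}, 4096 * z = w → w.re ^ 2 + w.im ^ 2 ≤ (h : ℝ) ^ 2 →
      ‖z‖ ≤ (h : ℝ) / 4096 := by
    intro z w h hz hw
    have e : ‖w‖ = 4096 * ‖z‖ := by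
      rw [← hz, norm_mul]
      simp
    have h1 := norm_le_of hw (Nat.cast_nonneg h)
    rw [le_div_iff₀ (by norm_num)]
    linarith
  have tail : ∀ k : Fin 8, nU k = 0 → nV k = 0 → nK k = 0 →
      Nw n (z4 ar 65536 ai 65536) (z4 br 65536 bi 65536) (z4 cr 65536 ci 65536) k = n k := by
    intro k h1 h2 h3
    unfold Nw
    rw [h1, h2, h3]
    ring
  fin_cases k
  · apply key (w := z4 F.e0 ar 65536 ai)
    · change 4096 * (n 0 - (z4 ar 65536 ai 65536 * 1 + z4 br 65536 bi 65536 * 0 +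
        z4 cr 65536 ci 65536 * 0) / 4096) = _
      have := hF.e0
      unfold z4
      push_cast at this ⊢
      linear_combination this
    · rw [z4_re, z4_im]
      push_cast
      exact k0
  · apply key (w := z4 F.e1 br 65536 bi)
    · change 4096 * (n 1 - (z4 ar 65536 ai 65536 * 0 + z4 br 65536 bi 65536 * 1 +
        z4 cr 65536 ci 65536 * 0) / 4096) = _
      have := hF.e1
      unfold z4
      push_cast at this ⊢
      linear_combination this
    · rw [z4_re, z4_im]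
      push_cast
      exact k1
  · apply key (w := z4 (ar + br) F.e2 (ai + bi) 131072)
    · change 4096 * (n 2 - (z4 ar 65536 ai 65536 * (-1) + z4 br 65536 bi 65536 * (-1) +
        z4 cr 65536 ci 65536 * 0) / 4096) = _
      have := hF.e2
      unfold z4
      push_cast at this ⊢
      linear_combination this
    · rw [z4_re, z4_im]
      push_cast
      exact k2
  · apply key (w := z4 (65536 + F.e3) (ar + br + cr) 196608 (ai + bi + ci))
    · change 4096 * (n 3 - (z4 ar 65536 ai 65536 * 1 + z4 br 65536 bi 65536 * 1 +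
        z4 cr 65536 ci 65536 * 1) / 4096) = _
      have := hF.e3
      unfold z4
      push_cast at this ⊢
      linear_combination this
    · rw [z4_re, z4_im]
      push_cast
      exact k3
  · exact (congrArg norm (tail 4 rfl rfl rfl)).le
  · exact (congrArg norm (tail 5 rfl rfl rfl)).le
  · exact (congrArg norm (tail 6 rfl rfl rfl)).le
  · exact (congrArg norm (tail 7 rfl rfl rfl)).le

/-- The derivative of the remainder. -/
theorem Nw_grad {n : Fin 8 → ℂ} {x : Fin 8 → ℂ}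
    {ar ai br bi cr ci p1 p2 q1 q2 u1 u2 v1 v2 s1 s2 t1 t2 k1 k2 l1 l2 : ℕ}
    (h1 : 100663296 * ∑ k, n k * x k = z4 p1 p2 q1 q2)
    (h2 : 100663296 * ∑ k, nU k * x k = z4 u1 u2 v1 v2)
    (h3 : 100663296 * ∑ k, nV k * x k = z4 s1 s2 t1 t2)
    (h4 : 100663296 * ∑ k, nK k * x k = z4 k1 k2 l1 l2) :
    412316860416 * ∑ k, Nw n (z4 ar 65536 ai 65536) (z4 br 65536 bi 65536)
      (z4 cr 65536 ci 65536) k * x k =
      z4 (4096 * p1 + (mr ar ai u2 u1 v2 v1 + mr br bi s2 s1 t2 t1 + mr cr ci k2 k1 l2 l1))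
        (4096 * p2 + (mr ar ai u1 u2 v1 v2 + mr br bi s1 s2 t1 t2 + mr cr ci k1 k2 l1 l2))
        (4096 * q1 + (mi ar ai u2 u1 v2 v1 + mi br bi s2 s1 t2 t1 + mi cr ci k2 k1 l2 l1))
        (4096 * q2 + (mi ar ai u1 u2 v1 v2 + mi br bi s1 s2 t1 t2 + mi cr ci k1 k2 l1 l2)) := by
  rw [Nw_sum]
  have e : 412316860416 * (∑ k, n k * x k - (z4 ar 65536 ai 65536 * ∑ k, nU k * x k +
      z4 br 65536 bi 65536 * ∑ k, nV k * x k + z4 cr 65536 ci 65536 * ∑ k, nK k * x k) / 4096) =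
      4096 * (100663296 * ∑ k, n k * x k) -
      (z4 ar 65536 ai 65536 * (100663296 * ∑ k, nU k * x k) +
        z4 br 65536 bi 65536 * (100663296 * ∑ k, nV k * x k) +
        z4 cr 65536 ci 65536 * (100663296 * ∑ k, nK k * x k)) := by ring
  rw [e, h1, h2, h3, h4]
  have m1 := mr_cast ar ai u2 u1 v2 v1
  have m2 := mr_cast br bi s2 s1 t2 t1
  have m3 := mi_cast ar ai u2 u1 v2 v1
  have m4 := mi_cast br bi s2 s1 t2 t1
  have m5 := mr_cast cr ci k2 k1 l2 l1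
  have m6 := mi_cast cr ci k2 k1 l2 l1
  have c4 : ((4096 : ℂ)) = ((4096 : ℝ) : ℂ) := by push_cast; rfl
  apply Complex.ext
  · rw [c4]
    simp only [sub_re, add_re, mul_re, z4_re, z4_im, ofReal_re, ofReal_im]
    push_cast
    linarith
  · rw [c4]
    simp only [sub_im, add_im, mul_im, z4_re, z4_im, ofReal_re, ofReal_im]
    push_cast
    linarith

theorem K_grad (b : Bs) : 100663296 * ∑ k, nK k * ((b.A k).C * da k) =
    z4 (2 * b.a3.c) 8589934592 (2 * b.a3.d) 8589934592 ∧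
    100663296 * ∑ k, nK k * ((b.A k).C * db k) =
    z4 (2 * b.a3.c) 8589934592 (2 * b.a3.d) 8589934592 := by
  constructor
  · simp [Fin.sum_univ_eight, nK, z4, Bs.A, At.C, da]
    ring
  · simp [Fin.sum_univ_eight, nK, z4, Bs.A, At.C, db]
    ring

/-- Soundness of the check of a remainder. -/
theorem ckR_sound {b : Bs} {c : Kd} {F : Fm} {n : Fin 8 → ℂ}
    {ar ai br bi cr ci g h0 h1 h2 h3 : ℕ} (hF : FmOK b n F) (hk : KdOK b c)
    (h : ckR c (Nat.mul 2 b.a3.c) (Nat.mul 2 b.a3.d) F ar ai br bi cr ci g h0 h1 h2 h3 = true)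
    {P R : ℂ} (hb : BsOK b) (hd : Dm P R) (hc : CpOK b c P R) :
    137438953472 * ‖lf (Nw n (z4 ar 65536 ai 65536) (z4 br 65536 bi 65536)
      (z4 cr 65536 ci 65536)) P R - ∑ k, Nw n (z4 ar 65536 ai 65536) (z4 br 65536 bi 65536)
      (z4 cr 65536 ci 65536) k * (b.A k).H‖ ≤ (erR c F g h0 h1 h2 h3 : ℕ) := by
  unfold ckR at h
  simp only [fN_eq, cond_true_iff] at h
  obtain ⟨k0, k1, ⟨k2, k3⟩, kG⟩ := h
  have hN := Nw_norm hF k0 k1 k2 k3
  have gP := Nw_grad (ar := ar) (ai := ai) (br := br) (bi := bi) (cr := cr) (ci := ci)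
    (x := fun k => (b.A k).C * da k) (p1 := F.p1) (p2 := F.p2) (q1 := F.q1) (q2 := F.q2)
    (by simp only [← mul_assoc]; exact hF.p) (by simp only [← mul_assoc]; exact hk.up)
    (by simp only [← mul_assoc]; exact hk.vp) (K_grad b).1
  have gR := Nw_grad (ar := ar) (ai := ai) (br := br) (bi := bi) (cr := cr) (ci := ci)
    (x := fun k => (b.A k).C * db k) (p1 := F.r1) (p2 := F.r2) (q1 := F.s1) (q2 := F.s2)
    (by simp only [← mul_assoc]; exact hF.r) (by simp only [← mul_assoc]; exact hk.ur)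
    (by simp only [← mul_assoc]; exact hk.vr) (K_grad b).2
  have G0 : (0 : ℝ) ≤ (g : ℝ) / 4096 := by positivity
  have kG := Nat.ble_eq.mp kG
  simp only [add_eq', mul_eq'] at kG
  have hG : ‖∑ k, Nw n (z4 ar 65536 ai 65536) (z4 br 65536 bi 65536) (z4 cr 65536 ci 65536) k *
      (b.A k).C * da k‖ ^ 2 + ‖∑ k, Nw n (z4 ar 65536 ai 65536) (z4 br 65536 bi 65536)
      (z4 cr 65536 ci 65536) k * (b.A k).C * db k‖ ^ 2 ≤ ((g : ℝ) / 4096) ^ 2 := by
    have eP := z4_eq_sq gP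
    have eR := z4_eq_sq gR
    simp only [← mul_assoc] at eP eR
    generalize ‖∑ k, Nw n (z4 ar 65536 ai 65536) (z4 br 65536 bi 65536) (z4 cr 65536 ci 65536) k *
      (b.A k).C * da k‖ = SP at *
    generalize ‖∑ k, Nw n (z4 ar 65536 ai 65536) (z4 br 65536 bi 65536) (z4 cr 65536 ci 65536) k *
      (b.A k).C * db k‖ = SR at *
    have kG' := (Nat.cast_le (α := ℝ)).2 kG
    rw [Nat.cast_add, Nat.cast_add, Nat.cast_add, Nat.cast_mul, Nat.cast_mul, Nat.cast_mul,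
      Nat.cast_mul, ← eP, ← eR, Nat.cast_mul, Nat.cast_mul] at kG'
    push_cast at kG'
    rw [div_pow, le_div_iff₀ (by norm_num)]
    nlinarith
  have err := lf_err hb hd hc.loc _ _ hN G0 hG
  have ht := hF.tl
  simp only [Fin.sum_univ_eight (f := fun k => _ * (((b.A k).T : ℝ) / 16777216))] at err
  change _ ≤ (g : ℝ) / 4096 * b.ρ + ((h0 : ℝ) / 4096 * ((b.a0.T : ℝ) / 16777216) +
    (h1 : ℝ) / 4096 * ((b.a1.T : ℝ) / 16777216) + (h2 : ℝ) / 4096 * ((b.a2.T : ℝ) / 16777216) +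
    (h3 : ℝ) / 4096 * ((b.a3.T : ℝ) / 16777216) + ‖n 4‖ * ((b.a4.T : ℝ) / 16777216) +
    ‖n 5‖ * ((b.a5.T : ℝ) / 16777216) + ‖n 6‖ * ((b.a6.T : ℝ) / 16777216) +
    ‖n 7‖ * ((b.a7.T : ℝ) / 16777216)) at err
  have e : erR c F g h0 h1 h2 h3 = 512 * (g * c.rho) + (4096 * F.tl +
      2 * ((h0 * c.T0 + h1 * c.T1) + (h2 * c.T2 + h3 * c.T3))) := rfl
  rw [e, hk.T0, hk.T1, hk.T2, hk.T3, hk.rho]
  unfold Bs.ρ at err
  push_cast
  linarith

/-- The center and the radius of a deviation of an additional form. -/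
structure DwOK (x : ℝ) (d d' r : ℕ) : Prop where
  h : |2147483648 * x - ((d : ℝ) - d')| ≤ r

/-- The deviation of an additional form. -/
def KwOK (f : Bool) (w : Kw) (z : ℂ) : Prop :=
  f = true → DwOK z.re w.dp w.dn w.r1 ∧ DwOK z.im w.ep w.en w.r2

theorem dw_ok {lo hi : ℕ} {x y : ℝ} {p n : ℕ} (hx : (⟨lo, hi⟩ : Iv).In x)
    (hy : 2147483648 * y = (n : ℝ) - p + 1024 * (lo + hi) - 137438953472) :
    DwOK (x - y) (p - n) (n - p) (1024 * (hi - lo)) := by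
  obtain ⟨h1, h2⟩ := hx
  dsimp only at h1 h2
  have h3 : lo ≤ hi := by
    have : (lo : ℝ) ≤ hi := by linarith
    exact_mod_cast this
  constructor
  rw [sub_sub_cast]
  push_cast [Nat.cast_sub h3]
  rw [abs_le]
  constructor <;> linarith

theorem mkW_sound {l3 t3 lp ln tp tn sr si : ℕ} {W : Rc} {k : Kw → Bool}
    (h : mkW l3 t3 lp ln tp tn sr si W k = true) : ∃ w : Kw, k w = true ∧ w.sr = sr ∧ w.si = si ∧
      ∀ {T HK HX : ℂ}, W.In T → 16777216 * HK = z4 l3 4294967296 t3 4294967296 →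
        16777216 * HX = z4 lp ln tp tn → ∀ f : Bool,
        KwOK f w (T - (HK - z4 sr 4096 si 4096 / 64 * HX)) := by
  unfold mkW at h
  simp only [fN_eq, add_eq', mul_eq', sub_eq'] at h
  refine ⟨_, h, rfl, rfl, ?_⟩
  intro T HK HX hT h1 h2 f _
  have e : 2147483648 * (HK - z4 sr 4096 si 4096 / 64 * HX) = 128 * z4 l3 4294967296 t3 4294967296 -
      2 * (z4 sr 4096 si 4096 * z4 lp ln tp tn) := by
    rw [← h1, ← h2]
    ring
  generalize HK - z4 sr 4096 si 4096 / 64 * HX = HW at e ⊢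
  have c0 : ((2147483648 : ℂ)) = ((2147483648 : ℝ) : ℂ) := by push_cast; rfl
  have c1 : ((128 : ℂ)) = ((128 : ℝ) : ℂ) := by push_cast; rfl
  have c2 : ((2 : ℂ)) = ((2 : ℝ) : ℂ) := by push_cast; rfl
  have er := congrArg Complex.re e
  have ei := congrArg Complex.im e
  rw [c0, c1, c2, re_ofReal_mul, sub_re, re_ofReal_mul, re_ofReal_mul, mul_re] at er
  rw [c0, c1, c2, im_ofReal_mul, sub_im, im_ofReal_mul, im_ofReal_mul, mul_im] at ei
  rw [z4_re, z4_re, z4_re, z4_im, z4_im] at er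
  rw [z4_im, z4_re, z4_re, z4_im, z4_im] at ei
  have m1 := mq_cast sr si lp ln tp tn
  have m2 := mj_cast sr si lp ln tp tn
  constructor
  · rw [sub_re]
    apply dw_ok hT.1
    rw [er]
    push_cast
    linarith
  · rw [sub_im]
    apply dw_ok hT.2
    rw [ei]
    push_cast
    linarith

theorem z4_mul_w {f : Bool} {a b : ℕ} {z : ℂ} {w : Kw} (hf : flg f a b = true)
    (hw : KwOK f w z) :
    |(z4 a 4096 b 4096 * (2147483648 * z)).re -
      (((a : ℝ) - 4096) * (w.dp - w.dn) - ((b : ℝ) - 4096) * (w.ep - w.en))| ≤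
      |(a : ℝ) - 4096| * w.r1 + |(b : ℝ) - 4096| * w.r2 ∧
    |(z4 a 4096 b 4096 * (2147483648 * z)).im -
      (((a : ℝ) - 4096) * (w.ep - w.en) + ((b : ℝ) - 4096) * (w.dp - w.dn))| ≤
      |(a : ℝ) - 4096| * w.r2 + |(b : ℝ) - 4096| * w.r1 := by
  have e1 : (2147483648 * z).re = 2147483648 * z.re := by
    rw [mul_re]
    simp
  have e2 : (2147483648 * z).im = 2147483648 * z.im := by
    rw [mul_im]
    simp
  generalize 2147483648 * z = Z at e1 e2 ⊢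
  rw [mul_re, mul_im, z4_re, z4_im, e1, e2]
  push_cast
  cases f
  · unfold flg at hf
    rw [cond_false, cond_true_iff] at hf
    have h1 : a = 4096 := Nat.eq_of_beq_eq_true hf.1
    have h2 : b = 4096 := Nat.eq_of_beq_eq_true hf.2
    rw [h1, h2]
    norm_num
  · obtain ⟨⟨g1⟩, ⟨g2⟩⟩ := hw rfl
    constructor
    · have k : ((a : ℝ) - 4096) * (2147483648 * z.re) - ((b : ℝ) - 4096) * (2147483648 * z.im) -
          (((a : ℝ) - 4096) * (w.dp - w.dn) - ((b : ℝ) - 4096) * (w.ep - w.en)) =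
          ((a : ℝ) - 4096) * (2147483648 * z.re - (w.dp - w.dn)) +
          (-(((b : ℝ) - 4096) * (2147483648 * z.im - (w.ep - w.en)))) := by ring
      rw [k]
      refine (abs_add_le _ _).trans ?_
      rw [abs_neg, abs_mul, abs_mul]
      apply add_le_add
      · exact mul_le_mul_of_nonneg_left g1 (abs_nonneg _)
      · exact mul_le_mul_of_nonneg_left g2 (abs_nonneg _)
    · have k : ((a : ℝ) - 4096) * (2147483648 * z.im) + ((b : ℝ) - 4096) * (2147483648 * z.re) -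
          (((a : ℝ) - 4096) * (w.ep - w.en) + ((b : ℝ) - 4096) * (w.dp - w.dn)) =
          ((a : ℝ) - 4096) * (2147483648 * z.im - (w.ep - w.en)) +
          ((b : ℝ) - 4096) * (2147483648 * z.re - (w.dp - w.dn)) := by ring
      rw [k]
      refine (abs_add_le _ _).trans ?_
      rw [abs_mul, abs_mul]
      apply add_le_add
      · exact mul_le_mul_of_nonneg_left g2 (abs_nonneg _)
      · exact mul_le_mul_of_nonneg_left g1 (abs_nonneg _)

theorem sbK_sound {p n : ℕ} {k : ℕ → Bool} (h : sbK p n k = true) :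
    ∃ x : ℕ, (x : ℝ) = (p : ℝ) - n ∧ k x = true := by
  unfold sbK at h
  rw [cond_true_iff, fN_eq] at h
  obtain ⟨h1, h2⟩ := h
  refine ⟨_, ?_, h2⟩
  rw [sub_eq', Nat.cast_sub (Nat.ble_eq.mp h1)]

theorem ckRw_sound {b : Bs} {c : Kd} {w1 w2 : Kw} {F : Fm} {o : Ow}
    (h : ckRw c (Nat.mul 2 b.a3.c) (Nat.mul 2 b.a3.d) w1 w2 F o = true) :
    ∃ ar ai br bi cr ci : ℕ,
      z4 ar 65536 ai 65536 = z4 o.o.ar 65536 o.o.ai 65536 - z4 o.cr 4096 o.ci 4096 *
        z4 w1.sr 4096 w1.si 4096 ∧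
      z4 br 65536 bi 65536 = z4 o.o.br 65536 o.o.bi 65536 - z4 o.dr 4096 o.di 4096 *
        z4 w2.sr 4096 w2.si 4096 ∧
      z4 cr 65536 ci 65536 = 64 * (z4 o.cr 4096 o.ci 4096 + z4 o.dr 4096 o.di 4096) ∧
      ckR c (Nat.mul 2 b.a3.c) (Nat.mul 2 b.a3.d) F ar ai br bi cr ci o.o.g o.o.h0 o.o.h1 o.o.h2
        o.o.h3 = true := by
  unfold ckRw at h
  obtain ⟨ar, e1, h⟩ := sbK_sound h
  obtain ⟨ai, e2, h⟩ := sbK_sound h
  obtain ⟨br, e3, h⟩ := sbK_sound h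
  obtain ⟨bi, e4, h⟩ := sbK_sound h
  obtain ⟨cr, e5, h⟩ := sbK_sound h
  obtain ⟨ci, e6, h⟩ := sbK_sound h
  simp only [add_eq', mul_eq'] at e1 e2 e3 e4 e5 e6
  push_cast at e1 e2 e3 e4 e5 e6
  have m1 := mq_cast o.cr o.ci w1.sr 4096 w1.si 4096
  have m2 := mj_cast o.cr o.ci w1.sr 4096 w1.si 4096
  have m3 := mq_cast o.dr o.di w2.sr 4096 w2.si 4096
  have m4 := mj_cast o.dr o.di w2.sr 4096 w2.si 4096
  have c4 : ((64 : ℂ)) = ((64 : ℝ) : ℂ) := by push_cast; rfl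
  push_cast at m1 m2 m3 m4
  refine ⟨ar, ai, br, bi, cr, ci, ?_, ?_, ?_, h⟩
  · apply Complex.ext
    · rw [sub_re, mul_re]
      simp only [z4_re, z4_im]
      push_cast
      linarith
    · rw [sub_im, mul_im]
      simp only [z4_re, z4_im]
      push_cast
      linarith
  · apply Complex.ext
    · rw [sub_re, mul_re]
      simp only [z4_re, z4_im]
      push_cast
      linarith
    · rw [sub_im, mul_im]
      simp only [z4_re, z4_im]
      push_cast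
      linarith
  · rw [c4]
    apply Complex.ext
    · rw [re_ofReal_mul, add_re]
      simp only [z4_re, z4_im]
      push_cast
      linarith
    · rw [im_ofReal_mul, add_im]
      simp only [z4_re, z4_im]
      push_cast
      linarith

/-- The deviations of the additional forms at a point. -/
structure WpOK (b : Bs) (f1 f2 : Bool) (w1 w2 : Kw) (P R : ℂ) : Prop where
  h1 : KwOK f1 w1 ((lf nK P R - z4 w1.sr 4096 w1.si 4096 / 64 * lf nU P R) -
    (∑ k, nK k * (b.A k).H - z4 w1.sr 4096 w1.si 4096 / 64 * ∑ k, nU k * (b.A k).H))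
  h2 : KwOK f2 w2 ((lf nK P R - z4 w2.sr 4096 w2.si 4096 / 64 * lf nV P R) -
    (∑ k, nK k * (b.A k).H - z4 w2.sr 4096 w2.si 4096 / 64 * ∑ k, nV k * (b.A k).H))

theorem ckOw_sound {b : Bs} {c : Kd} {f1 f2 : Bool} {w1 w2 : Kw} {F : Fm} {n : Fin 8 → ℂ} {o : Ow}
    {k : ℕ → ℕ → ℕ → ℕ → ℕ → ℕ → Bool} (hF : FmOK b n F) (hk : KdOK b c)
    (h : ckOw c (Nat.mul 2 b.a3.c) (Nat.mul 2 b.a3.d) f1 f2 w1 w2 F o k = true) :
    ∃ M1 M2 R1 N1 N2 R2 : ℕ, (∀ {P R : ℂ}, BsOK b → Dm P R → CpOK b c P R →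
      WpOK b f1 f2 w1 w2 P R →
      |137438953472 * (lf n P R).re - ((M1 : ℝ) - M2)| ≤ R1 ∧
      |137438953472 * (lf n P R).im - ((N1 : ℝ) - N2)| ≤ R2) ∧ k M1 M2 R1 N1 N2 R2 = true := by
  unfold ckOw at h
  simp only [cond_true_iff] at h
  obtain ⟨hf1, hf2, hR, h⟩ := h
  unfold vlE at h
  simp only [fN_eq] at h
  refine ⟨_, _, _, _, _, _, fun {P R} hb hd hc hw => ?_, h⟩
  obtain ⟨ar, ai, br, bi, cr, ci, ea, eb, ec, hR⟩ := ckRw_sound hR
  have err := ckR_sound hF hk hR hb hd hc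
  have gV : 33554432 * ∑ k, n k * (b.A k).H = z4 F.v1 F.v2 F.u1 F.u2 := hF.v
  rw [Nw_lf, Nw_sum, ea, eb, ec] at err
  obtain ⟨zU, hzU⟩ : ∃ z : ℂ, z = lf nU P R - ∑ k, nU k * (b.A k).H := ⟨_, rfl⟩
  obtain ⟨zV, hzV⟩ : ∃ z : ℂ, z = lf nV P R - ∑ k, nV k * (b.A k).H := ⟨_, rfl⟩
  have u1 := hc.ur
  have u2 := hc.ui
  have v1 := hc.vr
  have v2 := hc.vi
  have x1 := hw.h1
  have x2 := hw.h2
  obtain ⟨zX, hzX⟩ : ∃ z : ℂ, z = (lf nK P R - z4 w1.sr 4096 w1.si 4096 / 64 * lf nU P R) -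
    (∑ k, nK k * (b.A k).H - z4 w1.sr 4096 w1.si 4096 / 64 * ∑ k, nU k * (b.A k).H) := ⟨_, rfl⟩
  obtain ⟨zY, hzY⟩ : ∃ z : ℂ, z = (lf nK P R - z4 w2.sr 4096 w2.si 4096 / 64 * lf nV P R) -
    (∑ k, nK k * (b.A k).H - z4 w2.sr 4096 w2.si 4096 / 64 * ∑ k, nV k * (b.A k).H) := ⟨_, rfl⟩
  rw [← hzU] at u1 u2
  rw [← hzV] at v1 v2
  rw [← hzX] at x1
  rw [← hzY] at x2
  obtain ⟨mU1, mU2⟩ := z4_mul_sub o.o.ar o.o.ai u1 u2
  obtain ⟨mV1, mV2⟩ := z4_mul_sub o.o.br o.o.bi v1 v2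
  obtain ⟨mX1, mX2⟩ := z4_mul_w hf1 x1
  obtain ⟨mY1, mY2⟩ := z4_mul_w hf2 x2
  obtain ⟨al, hal⟩ : ∃ z : ℂ, z = z4 o.o.ar 65536 o.o.ai 65536 := ⟨_, rfl⟩
  obtain ⟨be, hbe⟩ : ∃ z : ℂ, z = z4 o.o.br 65536 o.o.bi 65536 := ⟨_, rfl⟩
  obtain ⟨ka, hka⟩ : ∃ z : ℂ, z = z4 o.cr 4096 o.ci 4096 := ⟨_, rfl⟩
  obtain ⟨de, hde⟩ : ∃ z : ℂ, z = z4 o.dr 4096 o.di 4096 := ⟨_, rfl⟩
  obtain ⟨si, hsi⟩ : ∃ z : ℂ, z = z4 w1.sr 4096 w1.si 4096 := ⟨_, rfl⟩
  obtain ⟨ta, hta⟩ : ∃ z : ℂ, z = z4 w2.sr 4096 w2.si 4096 := ⟨_, rfl⟩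
  rw [← hal] at mU1 mU2 err
  rw [← hbe] at mV1 mV2 err
  rw [← hka] at mX1 mX2 err
  rw [← hde] at mY1 mY2 err
  rw [← hsi] at hzX err
  rw [← hta] at hzY err
  generalize lf nU P R = U at *
  generalize lf nV P R = V at *
  generalize lf nK P R = K at *
  generalize ∑ k, nU k * (b.A k).H = HU at *
  generalize ∑ k, nV k * (b.A k).H = HV at *
  generalize ∑ k, nK k * (b.A k).H = HK at *
  generalize ∑ k, n k * (b.A k).H = Hn at *
  obtain ⟨er, her⟩ : ∃ z : ℂ, z = lf n P R - ((al - ka * si) * U + (be - de * ta) * V +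
      64 * (ka + de) * K) / 4096 - (Hn - ((al - ka * si) * HU + (be - de * ta) * HV +
      64 * (ka + de) * HK) / 4096) := ⟨_, rfl⟩
  rw [← her] at err
  have main : 137438953472 * lf n P R = 4096 * z4 F.v1 F.v2 F.u1 F.u2 +
      ((al * (33554432 * zU) + be * (33554432 * zV)) + (ka * (2147483648 * zX) +
        de * (2147483648 * zY))) + 137438953472 * er := by
    rw [← gV, hzU, hzV, hzX, hzY, her]
    ring
  have cr' : ((137438953472 : ℂ)) = ((137438953472 : ℝ) : ℂ) := by push_cast; rfl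
  have c4 : ((4096 : ℂ)) = ((4096 : ℝ) : ℂ) := by push_cast; rfl
  have r1 := abs_re_le_norm er
  have r2 := abs_im_le_norm er
  have main1 := congrArg Complex.re main
  have main2 := congrArg Complex.im main
  rw [cr', c4] at main1 main2
  simp only [add_re, re_ofReal_mul, z4_re] at main1
  simp only [add_im, im_ofReal_mul, z4_im] at main2
  have m1 := mr_cast o.o.ar o.o.ai c.up c.un c.wp c.wn
  have m2 := mr_cast o.o.br o.o.bi c.vp c.vn c.zp c.zn
  have m3 := mi_cast o.o.ar o.o.ai c.up c.un c.wp c.wn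
  have m4 := mi_cast o.o.br o.o.bi c.vp c.vn c.zp c.zn
  have m5 := mq_cast o.cr o.ci w1.dp w1.dn w1.ep w1.en
  have m6 := mj_cast o.cr o.ci w1.dp w1.dn w1.ep w1.en
  have m7 := mq_cast o.dr o.di w2.dp w2.dn w2.ep w2.en
  have m8 := mj_cast o.dr o.di w2.dp w2.dn w2.ep w2.en
  have d1 := ds'_cast o.o.ar 65536
  have d2 := ds'_cast o.o.ai 65536
  have d3 := ds'_cast o.o.br 65536
  have d4 := ds'_cast o.o.bi 65536
  have d5 := ds'_cast o.cr 4096
  have d6 := ds'_cast o.ci 4096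
  have d7 := ds'_cast o.dr 4096
  have d8 := ds'_cast o.di 4096
  simp only [add_eq', mul_eq']
  push_cast at d1 d2 d3 d4 d5 d6 d7 d8 ⊢
  rw [main1, main2, d1, d2, d3, d4, d5, d6, d7, d8]
  have a1 := abs_le.1 mU1
  have a2 := abs_le.1 mU2
  have a3 := abs_le.1 mV1
  have a4 := abs_le.1 mV2
  have a5 := abs_le.1 r1
  have a6 := abs_le.1 r2
  have a7 := abs_le.1 mX1
  have a8 := abs_le.1 mX2
  have a9 := abs_le.1 mY1
  have a10 := abs_le.1 mY2
  clear mU1 mU2 mV1 mV2 mX1 mX2 mY1 mY2 r1 r2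
  constructor
  · rw [abs_le]
    constructor
    · linarith
    · linarith
  · rw [abs_le]
    constructor
    · linarith
    · linarith

end Pool.Agent.S5.K3
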