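import Pool.Agent.S5.K3.BaS
import Pool.Agent.S5.K3.An
import Pool.Agent.S5.K3.Ck

/-!
# The cells: soundness
-/

set_option autoImplicit false

namespace Pool.Agent.S5.K3

open Complex Pool.Agent.S5.Num
open Pool.Agent.H63.VC3 hiding KK
open Pool.Agent.S3 hiding UU

/-- The approximate value of `he` at a point. -/
noncomputable def At.H (a : At) : ℂ :=
  ((((a.l : ℝ) - 4294967296) / 16777216 : ℝ) : ℂ) + ((((a.t : ℝ) - 4294967296) / 16777216 : ℝ) : ℂ) * I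

/-- The approximate value of `ct` at a point. -/
noncomputable def At.C (a : At) : ℂ :=
  ((((a.c : ℝ) - 4294967296) / 16777216 : ℝ) : ℂ) + ((((a.d : ℝ) - 4294967296) / 16777216 : ℝ) : ℂ) * I

theorem VlOK.H {w : ℂ} {a : At} (h : VlOK w a) : ‖he w - a.H‖ ≤ 3 / 2 / 16777216 := by
  have h1 := abs_le.1 h.l
  have h2 := abs_le.1 h.t
  apply norm_le_of _ (by norm_num)
  have e1 : (he w - a.H).re = (he w).re - ((a.l : ℝ) - 4294967296) / 16777216 := by
    rw [sub_re, At.H, pt_re]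
  have e2 : (he w - a.H).im = (he w).im - ((a.t : ℝ) - 4294967296) / 16777216 := by
    rw [sub_im, At.H, pt_im]
  rw [e1, e2]
  have k1 : ((he w).re - ((a.l : ℝ) - 4294967296) / 16777216) ^ 2 ≤ (1 / 16777216) ^ 2 :=
    sq_le_sq' (by linarith) (by linarith)
  have k2 : ((he w).im - ((a.t : ℝ) - 4294967296) / 16777216) ^ 2 ≤ (1 / 16777216) ^ 2 :=
    sq_le_sq' (by linarith) (by linarith)
  linarith

theorem VlOK.C {w : ℂ} {a : At} (h : VlOK w a) : ‖ct w - a.C‖ ≤ 3 / 2 / 16777216 := by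
  have h1 := abs_le.1 h.c
  have h2 := abs_le.1 h.d
  apply norm_le_of _ (by norm_num)
  have e1 : (ct w - a.C).re = (ct w).re - ((a.c : ℝ) - 4294967296) / 16777216 := by
    rw [sub_re, At.C, pt_re]
  have e2 : (ct w - a.C).im = (ct w).im - ((a.d : ℝ) - 4294967296) / 16777216 := by
    rw [sub_im, At.C, pt_im]
  rw [e1, e2]
  have k1 : ((ct w).re - ((a.c : ℝ) - 4294967296) / 16777216) ^ 2 ≤ (1 / 16777216) ^ 2 :=
    sq_le_sq' (by linarith) (by linarith)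
  have k2 : ((ct w).im - ((a.d : ℝ) - 4294967296) / 16777216) ^ 2 ≤ (1 / 16777216) ^ 2 :=
    sq_le_sq' (by linarith) (by linarith)
  linarith

theorem dadb (k : Fin 8) : |da k| + |db k| ≤ 5 / 3 := by
  fin_cases k <;> simp [da, db] <;> norm_num [abs_of_pos, abs_of_neg]

/-- The error of a linear form. -/
theorem lf_err {b : Bs} (hb : BsOK b) {P R : ℂ} (hd : Dm P R)
    (hl : ‖P - b.P‖ ^ 2 + ‖R - b.R‖ ^ 2 ≤ b.ρ ^ 2) (N : Fin 8 → ℂ) (h : Fin 8 → ℝ)
    (hN : ∀ k, ‖N k‖ ≤ h k) {G : ℝ} (G0 : 0 ≤ G)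
    (hG : ‖∑ k, N k * (b.A k).C * da k‖ ^ 2 + ‖∑ k, N k * (b.A k).C * db k‖ ^ 2 ≤ G ^ 2) :
    ‖lf N P R - ∑ k, N k * (b.A k).H‖ ≤ G * b.ρ + ∑ k, h k * (((b.A k).T : ℝ) / 16777216) := by
  have hN0 : ∀ k, 0 ≤ ‖N k‖ := fun k => norm_nonneg _
  obtain ⟨x, hx⟩ : ∃ x : ℝ, x = ∑ k, ‖N k‖ * (3 / 2 / 16777216) * |da k| := ⟨_, rfl⟩
  obtain ⟨y, hy⟩ : ∃ y : ℝ, y = ∑ k, ‖N k‖ * (3 / 2 / 16777216) * |db k| := ⟨_, rfl⟩
  have x0 : 0 ≤ x := by rw [hx]; exact Finset.sum_nonneg fun k _ => by positivity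
  have y0 : 0 ≤ y := by rw [hy]; exact Finset.sum_nonneg fun k _ => by positivity
  have hxy : x + y ≤ ∑ k, ‖N k‖ * (5 / 2 / 16777216) := by
    rw [hx, hy, ← Finset.sum_add_distrib]
    apply Finset.sum_le_sum
    intro k _
    have := mul_le_mul_of_nonneg_left (dadb k) (hN0 k)
    linarith
  have key : ∀ d : Fin 8 → ℝ, ‖∑ k, N k * ct (wt b.P b.R k) * d k‖ ≤
      ‖∑ k, N k * (b.A k).C * d k‖ + ∑ k, ‖N k‖ * (3 / 2 / 16777216) * |d k| := by
    intro d
    have e : ∑ k, N k * ct (wt b.P b.R k) * d k = ∑ k, N k * (b.A k).C * d k +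
        ∑ k, N k * (ct (wt b.P b.R k) - (b.A k).C) * d k := by
      rw [← Finset.sum_add_distrib]
      apply Finset.sum_congr rfl
      intro k _
      ring
    rw [e]
    refine (norm_add_le _ _).trans ?_
    apply add_le_add_right
    refine (norm_sum_le _ _).trans ?_
    apply Finset.sum_le_sum
    intro k _
    rw [norm_mul, norm_mul, norm_real, Real.norm_eq_abs]
    apply mul_le_mul_of_nonneg_right _ (abs_nonneg _)
    exact mul_le_mul_of_nonneg_left (hb.vl k).C (hN0 k)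
  have kx := key da
  have ky := key db
  rw [← hx] at kx
  rw [← hy] at ky
  have n1 := norm_nonneg (∑ k, N k * (b.A k).C * da k)
  have n2 := norm_nonneg (∑ k, N k * (b.A k).C * db k)
  have n3 := norm_nonneg (∑ k, N k * ct (wt b.P b.R k) * da k)
  have n4 := norm_nonneg (∑ k, N k * ct (wt b.P b.R k) * db k)
  have g1 : ‖∑ k, N k * (b.A k).C * da k‖ ≤ G := by
    apply abs_le_of_sq_le_sq' _ G0 |>.2
    nlinarith
  have g2 : ‖∑ k, N k * (b.A k).C * db k‖ ≤ G := by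
    apply abs_le_of_sq_le_sq' _ G0 |>.2
    nlinarith
  have hg : ‖∑ k, N k * ct (wt b.P b.R k) * da k‖ ^ 2 +
      ‖∑ k, N k * ct (wt b.P b.R k) * db k‖ ^ 2 ≤ (G + (x + y)) ^ 2 := by
    have s1 := pow_le_pow_left₀ n3 kx 2
    have s2 := pow_le_pow_left₀ n4 ky 2
    nlinarith [mul_le_mul_of_nonneg_right g1 x0, mul_le_mul_of_nonneg_right g2 y0,
      mul_nonneg x0 y0]
  have t := cell_tay hd hb.bp hl N (by linarith : 0 ≤ G + (x + y)) hg
  have u : ‖lf N b.P b.R - ∑ k, N k * (b.A k).H‖ ≤ ∑ k, ‖N k‖ * (3 / 2 / 16777216) := by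
    have e : lf N b.P b.R - ∑ k, N k * (b.A k).H =
        ∑ k, N k * (he (wt b.P b.R k) - (b.A k).H) := by
      unfold lf
      rw [← Finset.sum_sub_distrib]
      apply Finset.sum_congr rfl
      intro k _
      ring
    rw [e]
    refine (norm_sum_le _ _).trans ?_
    apply Finset.sum_le_sum
    intro k _
    rw [norm_mul]
    exact mul_le_mul_of_nonneg_left (hb.vl k).H (hN0 k)
  have e : lf N P R - ∑ k, N k * (b.A k).H = (lf N P R - lf N b.P b.R) +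
      (lf N b.P b.R - ∑ k, N k * (b.A k).H) := by ring
  rw [e]
  refine (norm_add_le _ _).trans ?_
  have ρ0 := hb.bp.ρ0
  have ρ1 : b.ρ ≤ 1 / 6 := by
    have h1 := hb.bp.σ 0
    have h2 : tau 0 = 1 := by simp [tau]
    rw [h2, mul_one] at h1
    nlinarith [Real.pi_gt_three]
  have f : (G + (x + y)) * b.ρ + (∑ k, ‖N k‖ * mm b.P b.R b.q k) * b.ρ ^ 2 +
      ∑ k, ‖N k‖ * (3 / 2 / 16777216) ≤ G * b.ρ + ∑ k, h k * (((b.A k).T : ℝ) / 16777216) := by
    have f1 : (x + y) * b.ρ ≤ (∑ k, ‖N k‖ * (5 / 2 / 16777216)) * (1 / 6) := by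
      apply mul_le_mul hxy ρ1 ρ0.le
      exact Finset.sum_nonneg fun k _ => by positivity
    have f2 : (∑ k, ‖N k‖ * (5 / 2 / 16777216)) * (1 / 6) +
        (∑ k, ‖N k‖ * mm b.P b.R b.q k) * b.ρ ^ 2 + ∑ k, ‖N k‖ * (3 / 2 / 16777216) ≤
        ∑ k, h k * (((b.A k).T : ℝ) / 16777216) := by
      rw [Finset.sum_mul, Finset.sum_mul, ← Finset.sum_add_distrib, ← Finset.sum_add_distrib]
      apply Finset.sum_le_sum
      intro k _
      have f3 := hb.tt k
      have f4 : ‖N k‖ * (((b.A k).T : ℝ) / 16777216) ≤ h k * (((b.A k).T : ℝ) / 16777216) :=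
        mul_le_mul_of_nonneg_right (hN k) (by positivity)
      have f5 := mul_le_mul_of_nonneg_left f3 (hN0 k)
      have f6 := hN0 k
      nlinarith
    linarith
  linarith

end Pool.Agent.S5.K3
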