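import Pool.Agent.S5.K3.Dsp
import Pool.Agent.S5.I.Y3P

/-!
# Inner nodes with three half twists: all pairs of neighbours
-/

set_option autoImplicit false

namespace Pool.Agent.S5.K3

open Complex Pool.Agent.H63.VC3 Pool.Agent.S3
open Pool.Agent.S5.G (Sd N3 Slot SF kp lA lB zz3 O3 sy)
open Pool.Agent.S5.E (Vt vL vR types mem_types)
open Pool.Agent.S5.E.B2 (InR)
open Pool.Agent.S5.G3

/-- All the pairs. -/
def covA (P : Bool → Bool → Vt → Vt → Bool) : Bool :=
  [(true, true), (true, false), (false, false)].all fun t => (types t.1).all fun x =>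
    (types t.2).all fun w => !prT t.1 t.2 x w || P t.1 t.2 x w

theorem covA_ok {P : Bool → Bool → Vt → Vt → Bool} (h : covA P = true) {ty tb : Bool} {x w : Vt}
    (hp : prT ty tb x w = true) : P ty tb x w = true := by
  have hq := hp
  unfold prT at hq
  simp only [Bool.and_eq_true, beq_iff_eq] at hq
  obtain ⟨h1, h2, h3, h4, h5, -⟩ := hq
  have m1 := mem_types h1
  have m2 := mem_types h2
  rw [h3] at m1
  rw [h4] at m2
  have mt : ((ty, tb) : Bool × Bool) ∈ [(true, true), (true, false), (false, false)] := by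
    revert h5
    cases ty <;> cases tb <;> simp
  unfold covA at h
  simp only [List.all_eq_true] at h
  have := h _ mt x m1 w m2
  rw [Bool.or_eq_true, Bool.not_eq_true'] at this
  rcases this with h6 | h6
  · rw [hp] at h6
    exact absurd h6 (by simp)
  · exact h6

/-- A group for the flats: the arguments of the test. -/
structure FD where
  g : GD
  n : ℕ
  f4 : Bool
  kb : ℕ

/-- What is proved for a group: the flats. -/
def FD.Ok (f : FD) : Prop := f.g.OkG fun o => Y3.fl3 f.n f.f4 f.kb o = true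

/-- The test of a cell. -/
def chkF (n : ℕ) (f4 : Bool) (kb : ℕ) (o : OutB) (m : ℕ) (k : ℕ → Bool) : Bool :=
  cond (Y3.fl3 n f4 kb o) (k m) false

/-- The check of a group. -/
def FD.chk (f : FD) (m : ℕ) : Bool := f.g.chkG (chkF f.n f.f4 f.kb) m

theorem FD.chk_sound {f : FD} {m : ℕ} (h : f.chk m = true) : f.Ok :=
  GD.chkG_sound (fun o m k hc => by
    have hc' := cond_tt hc
    exact ⟨hc'.1, m, hc'.2⟩) h

/-- The soundness of the test of the flats; `K` tells for which neighbours it is right. -/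
def FlS (K : ℕ → Bool → ℕ → Bool → Nt → Bool → Nt → Bool) : Prop :=
  ∀ {n : ℕ} {f4 : Bool} {kb : ℕ} {o : OutB} {sy sb : Slt} {zs : ℂ} {z1 : ℝ},
    Y3.fl3 n f4 kb o = true → o.In5 sy.lam sb.lam sy.ys zs sb.ys → l3z sy.ys zs sb.ys = 0 →
    sy.lam = l3y sy.ys zs → sb.lam = l3b zs sb.ys → sy.ex = true → sb.ex = true →
    K n f4 kb sy.S sy.x sb.S sb.x = true → z1 ≤ 2 / 5 → RwF z1 zs sy sb ∧ RwQ zs sy sb

/-- A pair and a group for the flats. -/
def pairF (K : ℕ → Bool → ℕ → Bool → Nt → Bool → Nt → Bool) (T : Vt → Vt → E.B2.Rg) (f : FD)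
    (ty tb : Bool) (x w : Vt) : Bool :=
  K f.n f.f4 f.kb ty (ntV x) tb (ntV w) && pairG T f.g ty tb x w

variable {T : Vt → Vt → E.B2.Rg} {ty tb : Bool} {x w : Vt} {cy cb p r z : ℂ}

theorem z1T_le : z1T ty tb x w ≤ 2 / 5 := by
  unfold z1T
  split <;> norm_num

theorem flat_pair {K : ℕ → Bool → ℕ → Bool → Nt → Bool → Nt → Bool} (hK : FlS K) {f : FD}
    (hf : f.Ok) (hp : pairF K T f ty tb x w = true) (h : N3c T ty tb x w cy cb p r z) :
    RwF (z1T ty tb x w) (zz3 p r z) (slN ty x (zN ty (ntV x)) cy p z)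
      (slN tb w (zN tb (ntV w)) cb r z) ∧
    RwQ (zz3 p r z) (slN ty x (zN ty (ntV x)) cy p z) (slN tb w (zN tb (ntV w)) cb r z) := by
  unfold pairF at hp
  rw [Bool.and_eq_true] at hp
  obtain ⟨o, ho, hi⟩ := pairG_ok hf hp.2 h
  have h3 : l3z (slN ty x (zN ty (ntV x)) cy p z).ys (zz3 p r z)
    (slN tb w (zN tb (ntV w)) cb r z).ys = 0 := h.lk.slz
  have h4 : (slN ty x (zN ty (ntV x)) cy p z).lam =
    l3y (slN ty x (zN ty (ntV x)) cy p z).ys (zz3 p r z) := h.lk.sly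
  have h5 : (slN tb w (zN tb (ntV w)) cb r z).lam =
    l3b (zz3 p r z) (slN tb w (zN tb (ntV w)) cb r z).ys := h.lk.slb
  have h6 : OutB.In5 o (slN ty x (zN ty (ntV x)) cy p z).lam
    (slN tb w (zN tb (ntV w)) cb r z).lam (slN ty x (zN ty (ntV x)) cy p z).ys (zz3 p r z)
    (slN tb w (zN tb (ntV w)) cb r z).ys := (h.lk.inB hi).toIn5
  exact hK (sy := slN ty x (zN ty (ntV x)) cy p z) (sb := slN tb w (zN tb (ntV w)) cb r z) ho h6 h3
    h4 h5 rfl rfl hp.1 z1T_le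

/-- The cover by the groups of the rows. -/
def covR (T : Vt → Vt → E.B2.Rg) (gs : List GD) : Bool :=
  covA fun ty tb x w => gs.any fun g => pairR g ty tb x w && pairG T g ty tb x w

/-- The cover by the groups of the flats. -/
def covF (K : ℕ → Bool → ℕ → Bool → Nt → Bool → Nt → Bool) (T : Vt → Vt → E.B2.Rg)
    (fs : List FD) : Bool :=
  covA fun ty tb x w => fs.any fun f => pairF K T f ty tb x w

/-- **All pairs.** -/
theorem vn_all {K : ℕ → Bool → ℕ → Bool → Nt → Bool → Nt → Bool} (hK : FlS K) {gs : List GD}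
    {fs : List FD} (hg : ∀ g ∈ gs, g.Ok) (hf : ∀ f ∈ fs, f.Ok) (h1 : covR T gs = true)
    (h2 : covF K T fs = true) (h : N3c T ty tb x w cy cb p r z) :
    VN ty tb x w (z1T ty tb x w) (zN ty (ntV x)) (zN tb (ntV w)) cy cb p r z := by
  have c1 := covA_ok h1 h.pr
  have c2 := covA_ok h2 h.pr
  rw [List.any_eq_true] at c1 c2
  obtain ⟨g, m1, c1⟩ := c1
  obtain ⟨f, m2, c2⟩ := c2
  rw [Bool.and_eq_true] at c1
  obtain ⟨⟨fy, fb, o, k1, k2⟩, k3, k4, k5⟩ := rows_pair (hg g m1) c1.2 c1.1 h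
  obtain ⟨k6, k7⟩ := flat_pair hK (hf f m2) c2 h
  exact vn_mk h.lk k1 k2 k3 k6 k4 k5 k7

/-- **The field `i3`.** -/
theorem i3_all {K : ℕ → Bool → ℕ → Bool → Nt → Bool → Nt → Bool} (hK : FlS K) {gs : List GD}
    {fs : List FD} (hg : ∀ g ∈ gs, g.Ok) (hf : ∀ f ∈ fs, f.Ok) (hQ : SpQ T)
    (hT : C33.tab33 T = true) (h1 : covR T gs = true) (h2 : covF K T fs = true) {R : ℕ} {a : ℕ → ℕ} {S : ℕ → Bool}
    {r : ℕ → ℤ} {z ql qr : ℕ → ℂ} {zF : Fin (R + 1) → ℂ} (h : Ctx T R a S r z ql qr zF) {i : ℕ}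
    (hi : i + 1 < R) (h3 : a (i + 1) = 3) :
    VZ (Ez3 (slB R a S (flO R a S) z ql qr (i + 1)).ys
        (zz3 (qB' (flO R a S) ql qr (i + 1)) (qO' (flO R a S) ql qr (i + 1)) (z (i + 1)))
        (slO R a S (flO R a S) z ql qr (i + 1)).ys) (ntG R a (i + 1)) (z1O R a S (i + 1))
      (zz3 (qB' (flO R a S) ql qr (i + 1)) (qO' (flO R a S) ql qr (i + 1)) (z (i + 1)))
      (slB R a S (flO R a S) z ql qr (i + 1)) (slO R a S (flO R a S) z ql qr (i + 1)) :=
  z3_mk hQ hT (fun _ _ _ _ _ _ _ _ _ hn => vn_all hK hg hf h1 h2 hn) h hi h3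

end Pool.Agent.S5.K3
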