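import Pool.Agent.S5.I.Sad
import Pool.Agent.S3.Gr1

/-!
# The saddle certificate of a node with three half twists, with payments

A part of the two angles at the neighbours is given away.
-/

set_option autoImplicit false

namespace Pool.Agent.S5

open Pool.Agent.H63.VC3 Pool.Agent.S3 Complex

/-- The angle at a neighbour. -/
theorem Td_half (ys y : ℂ) : Td (1 / 2 - ys) (1 / 2 - y) =
    -Rf (1 / 2 - y) + Rf (1 / 2 - ys) - (hh (1 / 2 - ys) * (y - ys)).re := by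
  unfold Td
  have : (1 : ℂ) / 2 - y - (1 / 2 - ys) = -(y - ys) := by ring
  rw [this, mul_neg, neg_re]
  ring

/-- The saddle certificate of a node with three half twists, with the weights `2 - dy` and `1 - db`
at the angles of the neighbours. -/
theorem sad_z3w {y0 z0 b0 ys zs bs : ℂ} (y z b yh bh : ℂ) {e1 e2 e3 e4 e5 dy db : ℝ}
    (hy2 : dy ≤ 2) (hb1 : db ≤ 1) (h : l3z ys zs bs = 0)
    (h1 : An e1 (1 / 2 - y0) (1 / 2 - ys)) (h2 : An e2 (1 / 2 - b0) (1 / 2 - bs))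
    (h3 : An e3 (y0 - z0) (ys - zs)) (h4 : An e4 (z0 + 1 / 2) (zs + 1 / 2))
    (h5 : An e5 (z0 + b0) (zs + bs)) :
    Ez3 ys zs bs y z b + (l3y ys zs * (y - yh)).re + (l3b zs bs * (b - bh)).re -
        dy * Td (1 / 2 - ys) (1 / 2 - y) - db * Td (1 / 2 - bs) (1 / 2 - b) ≤
      (Gz3 y z b + dy * Rf (1 / 2 - y) + db * Rf (1 / 2 - b)) -
        (Gz3 y0 z0 b0 + dy * Rf (1 / 2 - y0) + db * Rf (1 / 2 - b0)) +
        (l3z y0 z0 b0).im * (zs.im - z0.im) +
        ((l3y y0 z0).im - dy * (hh (1 / 2 - y0)).im) * (ys.im - y0.im) -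
        (l3y ys zs * (yh - cr y0 ys)).re + dy * (hh (1 / 2 - ys) * (y - cr y0 ys)).re +
        ((l3b z0 b0).im - db * (hh (1 / 2 - b0)).im) * (bs.im - b0.im) -
        (l3b zs bs * (bh - cr b0 bs)).re + db * (hh (1 / 2 - bs) * (b - cr b0 bs)).re +
        ((2 - dy) * e1 + (1 - db) * e2 + e3 + e4 + e5) := by
  have g1 := Gz3_eq ys zs bs y z b h
  have g3 := Gz3_eq ys zs bs (cr y0 ys) (cr z0 zs) (cr b0 bs) h
  have g4 := Gz3_gen y0 z0 b0 (cr y0 ys) (cr z0 zs) (cr b0 bs)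
  rw [re_mul_cr, re_mul_cr, re_mul_cr] at g4
  have s1 := re_mul_sub3 (l3y ys zs) y yh ys
  have s2 := re_mul_sub3 (l3b zs bs) b bh bs
  have s3 := re_mul_sub3 (l3y ys zs) yh (cr y0 ys) ys
  have s4 := re_mul_sub3 (l3b zs bs) bh (cr b0 bs) bs
  have s5 := re_mul_sub3 (hh (1 / 2 - ys)) y (cr y0 ys) ys
  have s6 := re_mul_sub3 (hh (1 / 2 - bs)) b (cr b0 bs) bs
  have nn : ∀ l u v : ℂ, (l * (u - v)).re = -(l * (v - u)).re := by
    intro l u v
    rw [← neg_re]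
    congr 1
    ring
  have n1 := nn (l3y ys zs) ys yh
  have n2 := nn (l3b zs bs) bs bh
  have n3 := nn (l3y ys zs) ys (cr y0 ys)
  have n4 := nn (l3b zs bs) bs (cr b0 bs)
  have n5 := nn (hh (1 / 2 - ys)) ys (cr y0 ys)
  have n6 := nn (hh (1 / 2 - bs)) bs (cr b0 bs)
  have t1 := Td_half ys y
  have t2 := Td_half bs b
  have t3 := Td_half ys (cr y0 ys)
  have t4 := Td_half bs (cr b0 bs)
  have t5 := Td_half y0 (cr y0 ys)
  have t6 := Td_half b0 (cr b0 bs)
  rw [re_mul_cr] at t5 t6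
  have c1 : Ez3 ys zs bs (cr y0 ys) (cr z0 zs) (cr b0 bs) =
      2 * Td (1 / 2 - ys) (1 / 2 - cr y0 ys) + Td (1 / 2 - bs) (1 / 2 - cr b0 bs) +
        Td (ys - zs) (cr y0 ys - cr z0 zs) + Td (zs + 1 / 2) (cr z0 zs + 1 / 2) +
          Td (zs + bs) (cr z0 zs + cr b0 bs) := by
    unfold Ez3
    have i1 : (cr y0 ys - ys).im = 0 := by simp [cr_im]
    have i2 : (cr z0 zs - zs).im = 0 := by simp [cr_im]
    have i3 : (cr b0 bs - bs).im = 0 := by simp [cr_im]
    have j1 : (((cr y0 ys - ys) + (cr z0 zs - zs)) ^ 2).im = 0 := by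
      rw [pow_two, mul_im, add_im, i1, i2]
      ring
    have j2 : ((cr z0 zs - zs) * (cr b0 bs - bs)).im = 0 := by
      rw [mul_im, i2, i3]
      ring
    rw [j1, j2]
    ring
  have c2 : Ez3 y0 z0 b0 (cr y0 ys) (cr z0 zs) (cr b0 bs) =
      2 * Td (1 / 2 - y0) (1 / 2 - cr y0 ys) + Td (1 / 2 - b0) (1 / 2 - cr b0 bs) +
        Td (y0 - z0) (cr y0 ys - cr z0 zs) + Td (z0 + 1 / 2) (cr z0 zs + 1 / 2) +
          Td (z0 + b0) (cr z0 zs + cr b0 bs) := by
    unfold Ez3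
    have i1 : (cr y0 ys - y0).re = 0 := by simp [cr_re]
    have i2 : (cr z0 zs - z0).re = 0 := by simp [cr_re]
    have i3 : (cr b0 bs - b0).re = 0 := by simp [cr_re]
    have j1 : (((cr y0 ys - y0) + (cr z0 zs - z0)) ^ 2).im = 0 := by
      rw [pow_two, mul_im, add_re, i1, i2]
      ring
    have j2 : ((cr z0 zs - z0) * (cr b0 bs - b0)).im = 0 := by
      rw [mul_im, i2, i3]
      ring
    rw [j1, j2]
    ring
  unfold An at h1 h2 h3 h4 h5
  rw [cr_half_sub] at h1 h2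
  rw [cr_sub] at h3
  rw [cr_add_half] at h4
  rw [cr_add] at h5
  have h1' := mul_le_mul_of_nonneg_left h1 (by linarith : 0 ≤ 2 - dy)
  have h2' := mul_le_mul_of_nonneg_left h2 (by linarith : 0 ≤ 1 - db)
  -- the products with the weights
  have w1 := congrArg (dy * ·) t1
  have w2 := congrArg (db * ·) t2
  have w3 := congrArg (dy * ·) t3
  have w4 := congrArg (db * ·) t4
  have w5 := congrArg (dy * ·) t5
  have w6 := congrArg (db * ·) t6
  have v5 := congrArg (dy * ·) s5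
  have v6 := congrArg (db * ·) s6
  have u5 := congrArg (dy * ·) n5
  have u6 := congrArg (db * ·) n6
  beta_reduce at w1 w2 w3 w4 w5 w6 v5 v6 u5 u6
  linarith

/-! ### The explicit real form -/

theorem nRf_re_im {F : ℝ → ℝ → ℝ} (hF : ∀ u s : ℝ, F u s = -Rf ((u : ℂ) + s * I)) (w : ℂ) :
    -Rf w = F w.re w.im := by
  rw [hF, Complex.re_add_im]

theorem nRf_half {F : ℝ → ℝ → ℝ} (hF : ∀ u s : ℝ, F u s = -Rf ((u : ℂ) + s * I)) (w : ℂ) :
    -Rf (1 / 2 - w) = F (1 / 2 - w.re) w.im := by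
  rw [hF, ← Rf_conj (1 / 2 - w)]
  congr 2
  apply Complex.ext <;> simp

/-- The growth of a node with three half twists in real coordinates, `F u s = -Rf (u + s i)`. -/
theorem Gz3_ex {F : ℝ → ℝ → ℝ} (hF : ∀ u s : ℝ, F u s = -Rf ((u : ℂ) + s * I)) (y z b : ℂ) :
    Gz3 y z b = 2 * F (1 / 2 - y.re) y.im + F (1 / 2 - b.re) b.im +
      F (y.re - z.re) (y.im - z.im) + F (z.re + 1 / 2) z.im + F (z.re + b.re) (z.im + b.im) +
        Real.pi * ((y.re + z.re) * (y.im + z.im) - y.im / 2 - (z.re * b.im + z.im * b.re) -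
          b.im / 2) := by
  have e1 := nRf_half hF y
  have e2 := nRf_half hF b
  have e3 := nRf_re_im hF (y - z)
  have e4 := nRf_re_im hF (z + 1 / 2)
  have e5 := nRf_re_im hF (z + b)
  rw [sub_re, sub_im] at e3
  rw [add_re, add_im, show ((1 : ℂ) / 2).re = 1 / 2 by simp, show ((1 : ℂ) / 2).im = 0 by simp,
    add_zero] at e4
  rw [add_re, add_im] at e5
  rw [← e1, ← e2, ← e3, ← e4, ← e5]
  unfold Gz3 gB gH qB qH
  rw [Rf_half_add y, Rf_half_add b]
  simp only [Int.cast_neg, Int.cast_one, neg_mul, one_mul, sub_re, add_re, neg_re, mul_re, sub_im,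
    add_im, neg_im, mul_im, ofReal_re, ofReal_im, I_re, I_im, div_ofNat_re, div_ofNat_im, one_re,
    one_im, pow_two]
  ring

/-- With the payments. -/
theorem Gz3_exw {F : ℝ → ℝ → ℝ} (hF : ∀ u s : ℝ, F u s = -Rf ((u : ℂ) + s * I)) (y z b : ℂ)
    (dy db : ℝ) : Gz3 y z b + dy * Rf (1 / 2 - y) + db * Rf (1 / 2 - b) =
      (2 - dy) * F (1 / 2 - y.re) y.im + (1 - db) * F (1 / 2 - b.re) b.im +
      F (y.re - z.re) (y.im - z.im) + F (z.re + 1 / 2) z.im + F (z.re + b.re) (z.im + b.im) +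
        Real.pi * ((y.re + z.re) * (y.im + z.im) - y.im / 2 - (z.re * b.im + z.im * b.re) -
          b.im / 2) := by
  have e1 := congrArg (dy * ·) (nRf_half hF y)
  have e2 := congrArg (db * ·) (nRf_half hF b)
  beta_reduce at e1 e2
  rw [Gz3_ex hF]
  linarith

end Pool.Agent.S5
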