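import Pool.Agent.S5.K3.G7
import Pool.Agent.S5.K3.Sad3

/-!
# The rows of a node with three half twists: from the saddle certificate to the slot functions
-/

set_option autoImplicit false

namespace Pool.Agent.S5.G3

open Pool.Agent.H63.VC3 Pool.Agent.S3 Complex MeasureTheory Filter Topology Set
open Pool.Agent.S5.Tb Pool.Agent.S5.K3

/-- The affine part of a slot in the coordinates of the strip. -/
theorem cf_v {s : SD} {r : Sr} {dl : Bool} {pay : ℕ} {σ leg x0 h0 x a e : ℝ}
    (hx : (s.bt : ℝ) = 200 * x0) (hh : ((s.be : ℝ) - 1920) = 12800 * h0) :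
    (cf s r dl pay σ leg).v (40 * x + 10) (12800 * a) (12800 * e) =
      8388608000 * (r.lam.re * (x0 - x) + cond dl r.D1 r.D * (e - h0) - r.lam.im * e +
        leg * r.lam.im * a - Real.pi * σ * a + ((pay : ℝ) - 100) / 100 +
        cond dl (r.hp.re * (x - x0) + r.hp.im * (e - a) + r.F0) 0) := by
  unfold cf Cf.v
  dsimp only
  rw [hx, hh]
  cases dl
  · simp only [cond_false]
    ring
  · simp only [cond_true]
    ring

theorem re_corner (l u y0 ys : ℂ) (x h : ℝ) (hu : u = (x : ℂ) + (h : ℝ) * I) :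
    (l * (u - cr y0 ys)).re = l.re * (x - y0.re) - l.im * (h - ys.im) := by
  subst hu
  rw [mul_re, sub_re, sub_im, cr_re, cr_im]
  simp

theorem re_corner' (l y y0 ys : ℂ) :
    (l * (y - cr y0 ys)).re = l.re * (y.re - y0.re) - l.im * (y.im - ys.im) := by
  rw [mul_re, sub_re, sub_im, cr_re, cr_im]

/-- **From the saddle certificate to the slot functions.** -/
theorem G_glue {ys zs bs y z b yh bh : ℂ} {e1 e2 e3 e4 e5 wy wb σy σb ly lb : ℝ} {dy db : Bool}
    {py pb : ℕ} {p : BP} {sy sb : SD} (h : l3z ys zs bs = 0)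
    (h1 : An e1 (1 / 2 - p.y0) (1 / 2 - ys)) (h2 : An e2 (1 / 2 - p.b0) (1 / 2 - bs))
    (h3 : An e3 (p.y0 - p.z0) (ys - zs)) (h4 : An e4 (p.z0 + 1 / 2) (zs + 1 / 2))
    (h5 : An e5 (p.z0 + p.b0) (zs + bs))
    (hy : yh = (y.re : ℂ) + (ly * y.im : ℝ) * I) (hb : bh = (b.re : ℂ) + (lb * b.im : ℝ) * I)
    (hwy : wy / 2 = Real.pi * (σy * y.im)) (hwb : wb / 2 = Real.pi * (σb * b.im))
    (ty : sy.ty = true) (tb : sb.ty = false) (cy : sy.cu = 2) (cb : sb.cu = 1)
    (bty : sy.bt = p.iy) (btb : sb.bt = p.ib) (bey : sy.be = 64 * p.jy) (beb : sb.be = 64 * p.jb) :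
    8388608000 * (Ez3 ys zs bs y z b +
      ((l3y ys zs * (y - yh)).re - cond dy (Td (1 / 2 - ys) (1 / 2 - y)) 0 +
        ((py : ℝ) - 100) / 100 - wy / 2) +
      ((l3b zs bs * (b - bh)).re - cond db (Td (1 / 2 - bs) (1 / 2 - b)) 0 +
        ((pb : ℝ) - 100) / 100 - wb / 2)) ≤
    SR true (cuR sy dy) (cf sy (srY p ys zs) dy py σy ly) (40 * y.re + 10) (20 - 40 * z.re)
        (12800 * y.im) (-(12800 * z.im)) (12800 * ys.im) - 8388608000 +
      (SR false (cuR sb db) (cf sb (srB p zs bs) db pb σb lb) (40 * b.re + 10) (40 * z.re + 20)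
        (12800 * b.im) (12800 * z.im) (12800 * bs.im) - 8388608000) +
      8388608000 * Fu (z.re + 1 / 2) z.im +
      Zb p zs ((2 - cond dy 1 0) * e1 + (1 - cond db 1 0) * e2 + e3 + e4 + e5) := by
  have H := sad_z3w (dy := cond dy 1 0) (db := cond db 1 0) y z b yh bh
    (by cases dy <;> norm_num) (by cases db <;> norm_num) h h1 h2 h3 h4 h5
  have hF : ∀ u s : ℝ, Fu u s = -Rf ((u : ℂ) + s * I) := fun u s => rfl
  rw [Gz3_exw hF y z b, re_corner (l3y ys zs) yh p.y0 ys _ _ hy,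
    re_corner (l3b zs bs) bh p.b0 bs _ _ hb, re_corner', re_corner'] at H
  have f1 := nRf_half hF p.y0
  have f2 := nRf_half hF p.b0
  have y1 : p.y0.re = (p.iy : ℝ) / 200 := by simp [BP.y0]
  have y2 : p.y0.im = ((p.jy : ℝ) - 30) / 200 := by simp [BP.y0]
  have b1 : p.b0.re = (p.ib : ℝ) / 200 := by simp [BP.b0]
  have b2 : p.b0.im = ((p.jb : ℝ) - 30) / 200 := by simp [BP.b0]
  have vy := cf_v (s := sy) (r := srY p ys zs) (dl := dy) (pay := py) (σ := σy) (leg := ly)
    (x0 := p.y0.re) (h0 := p.y0.im) (x := y.re) (a := y.im) (e := ys.im)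
    (by rw [bty, y1]; ring) (by rw [bey, y2]; push_cast; ring)
  have vb := cf_v (s := sb) (r := srB p zs bs) (dl := db) (pay := pb) (σ := σb) (leg := lb)
    (x0 := p.b0.re) (h0 := p.b0.im) (x := b.re) (a := b.im) (e := bs.im)
    (by rw [btb, b1]; ring) (by rw [beb, b2]; push_cast; ring)
  have q1 : (30 - (40 * y.re + 10)) / 40 = 1 / 2 - y.re := by ring
  have q2 : (40 * y.re + 10 + (20 - 40 * z.re) - 30) / 40 = y.re - z.re := by ring
  have q3 : (12800 * y.im + -(12800 * z.im)) / 12800 = y.im - z.im := by ring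
  have q4 : 12800 * y.im / 12800 = y.im := by ring
  have q5 : (30 - (40 * b.re + 10)) / 40 = 1 / 2 - b.re := by ring
  have q6 : (40 * b.re + 10 + (40 * z.re + 20) - 30) / 40 = z.re + b.re := by ring
  have q7 : (12800 * b.im + 12800 * z.im) / 12800 = z.im + b.im := by ring
  have q8 : 12800 * b.im / 12800 = b.im := by ring
  unfold SR Zb
  rw [vy, vb, q1, q2, q3, q4, q5, q6, q7, q8]
  unfold Qf cuR
  rw [cy, cb, if_pos rfl, if_neg (by simp)]
  have K := mul_le_mul_of_nonneg_left H (show (0 : ℝ) ≤ 8388608000 by norm_num)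
  rw [hwy, hwb]
  cases dy <;> cases db
  · simp only [srY, srB, cond_false] at K ⊢
    push_cast
    linarith
  · simp only [srY, srB, cond_true, cond_false] at K ⊢
    push_cast
    linarith
  · simp only [srY, srB, cond_true, cond_false] at K ⊢
    push_cast
    linarith
  · simp only [srY, srB, cond_true] at K ⊢
    push_cast
    linarith

end Pool.Agent.S5.G3
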