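import Pool.Agent.S5.K3.G7
import Pool.Agent.S5.I.VOK

/-!
# The rows of a node with three half twists: the potentials
-/

set_option autoImplicit false

namespace Pool.Agent.S5.G3

open Pool.Agent.H63.VC3 Pool.Agent.S3 Complex Set
open Pool.Agent.S5.Tb Pool.Agent.S5.K3

/-- The node. -/
abbrev n3 : Nt := ⟨3, false⟩

/-- The flag of a piece. -/
def Py.fl (py : Py) : Pc → Bool
  | .F => py.dF
  | .H => py.dH
  | .G => py.dH
  | .L => py.dH
  | .U => py.dH
  | .u => py.dH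
  | .P => py.dH
  | .p => py.dH
  | _ => false

/-- The literal of a piece. -/
def Py.lit (py : Py) : Pc → ℕ
  | .F => py.F
  | .H => py.H
  | .G => py.G
  | .L => py.L
  | .R => py.R
  | .T => py.T
  | .t => py.t
  | .U => py.U
  | .u => py.u
  | .P => py.P
  | .p => py.p
  | .Q => py.Q
  | .q => py.q
  | .re _ => py.re
  | .rz _ => py.rz
  | .lo => 0

/-- The free pieces. -/
def frL : List Pc := [.F, .H, .G, .L, .R, .T, .t, .U, .u, .P, .p, .Q, .q, .re .far, .rz .far]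

/-- The forced pieces. -/
def owL : List Pc := [.rz .own, .rz .both, .re .far]

/-- The literals bound the potentials of the edge to the neighbour `x`; `z1` is the end of the contour
of the variable of `x`. -/
structure PyOK (py : Py) (S : Bool) (x : Nt) (z1 : ℝ) : Prop where
  d : ∀ pc ∈ frL, dT S n3 x pc = -(cond (py.fl pc) 1 0)
  h : ∀ pc ∈ frL, 100 - 100 * hT S n3 x pc ≤ (py.lit pc : ℝ)
  od : ∀ pc ∈ owL, dT S n3 x pc = 0
  oh : ∀ pc ∈ owL, 100 - 100 * hT S n3 x pc ≤ (py.ow : ℝ)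
  reB : x.e = false → x.a ≤ 4 → py.reB = true
  rzB : x.a = 3 ∨ x = ⟨4, false⟩ → py.rzB = true ∧ (py.rzi : ℝ) ≤ 40 * z1 + 10

/-- The check of the literals. -/
def pyk (py : Py) (S : Bool) (x : Nt) : Bool :=
  (frL.all fun pc => decide (d0 S n3 x pc - d0 S x n3 pc.mir = -(cond (py.fl pc) 1 0)) &&
    decide (100 - (r0 S n3 x pc - r0 S x n3 pc.mir) ≤ (py.lit pc : ℤ))) &&
  ((owL.all fun pc => decide (d0 S n3 x pc - d0 S x n3 pc.mir = 0) &&
    decide (100 - (r0 S n3 x pc - r0 S x n3 pc.mir) ≤ (py.ow : ℤ))) &&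
  ((!(!x.e && decide (x.a ≤ 4)) || py.reB) && (!(decide (x.a = 3) || decide (x = ⟨4, false⟩)) ||
    py.rzB)))

theorem PyOK.of {py : Py} {S : Bool} {x : Nt} {z1 : ℝ} (h : pyk py S x = true)
    (hz : (py.rzi : ℝ) ≤ 40 * z1 + 10) : PyOK py S x z1 := by
  unfold pyk at h
  simp only [Bool.and_eq_true, List.all_eq_true, decide_eq_true_eq] at h
  obtain ⟨h1, h2, h3, h4⟩ := h
  have e : ∀ pc, 100 * hT S n3 x pc = ((r0 S n3 x pc - r0 S x n3 pc.mir : ℤ) : ℝ) := by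
    intro pc
    unfold hT
    ring
  refine ⟨fun pc hpc => ?_, fun pc hpc => ?_, fun pc hpc => ?_, fun pc hpc => ?_, fun a1 a2 => ?_,
    fun a1 => ⟨?_, hz⟩⟩
  · have := (h1 pc hpc).1
    unfold dT
    rw [this]
    cases py.fl pc <;> simp
  · have h5 : ((100 - (r0 S n3 x pc - r0 S x n3 pc.mir) : ℤ) : ℝ) ≤ ((py.lit pc : ℤ) : ℝ) :=
      Int.cast_le.2 (h1 pc hpc).2
    rw [e]
    push_cast at h5 ⊢
    exact h5
  · have := (h2 pc hpc).1
    unfold dT
    rw [this]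
    simp
  · have h5 : ((100 - (r0 S n3 x pc - r0 S x n3 pc.mir) : ℤ) : ℝ) ≤ ((py.ow : ℤ) : ℝ) :=
      Int.cast_le.2 (h2 pc hpc).2
    rw [e]
    push_cast at h5 ⊢
    exact h5
  · rw [a1] at h3
    simpa [a2] using h3
  · rcases a1 with a1 | a1
    · simpa [a1] using h4
    · rw [a1] at h4
      simpa using h4

/-! ### The pieces -/

section Pieces

variable {s : Slt} {py : Py} {y : ℂ} {w : ℝ}

/-- The foot of the tangent plane. -/
noncomputable def ft (leg : ℝ) (y : ℂ) : ℂ := (y.re : ℂ) + (leg * y.im : ℝ) * I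

theorem ft_one (y : ℂ) : ft 1 y = y := by
  unfold ft
  rw [one_mul, re_add_im]

theorem ft_zero (y : ℂ) : ft 0 y = (y.re : ℂ) := by
  unfold ft
  rw [zero_mul]
  simp

/-- The contribution of a slot is bounded with the potential `pay`. -/
def SlB (s : Slt) (pc : Pc) (y : ℂ) (w : ℝ) (dl : Bool) (pay : ℕ) (σ leg : ℝ) : Prop :=
  s.e n3 pc y w ≤ (s.lam * (y - ft leg y)).re - cond dl (Td (1 / 2 - s.ys) (1 / 2 - y)) 0 +
    ((pay : ℝ) - 100) / 100 - w / 2 ∧ w / 2 = Real.pi * (σ * y.im)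

theorem slb_of {pc : Pc} {dl : Bool} {pay : ℕ} {σ leg : ℝ} (ex : s.ex = true)
    (hd : dT s.S n3 s.x pc = -(cond dl 1 0)) (hh : 100 - 100 * hT s.S n3 s.x pc ≤ (pay : ℝ))
    (he : pc.eff y = ft leg y) (hw : w / 2 = Real.pi * (σ * y.im)) :
    SlB s pc y w dl pay σ leg := by
  refine ⟨?_, hw⟩
  unfold Slt.e slE
  rw [if_pos ex, hd, he]
  cases dl
  · simp only [cond_false]
    linarith
  · simp only [cond_true]
    linarith

theorem eff_std {pc : Pc} (hb : pc.box = false) (hl : pc ≠ .lo) (y : ℂ) : pc.eff y = ft 1 y := by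
  unfold Pc.eff
  rw [hb, if_neg (by simp), if_neg hl, ft_one]

theorem eff_box {pc : Pc} (hb : pc.box = true) (y : ℂ) : pc.eff y = ft 0 y := by
  unfold Pc.eff
  rw [hb, if_pos rfl, ft_zero]

theorem hT0_re (x : ℝ) (h : x = -(1 / 4)) : 40 * x + 10 = 0 := by rw [h]; norm_num

theorem hT0_rr (x : ℝ) (h : x = 1 / 2) : 40 * x + 10 = 30 := by rw [h]; norm_num

theorem uIcc_sc {a b : ℝ} (h : a ∈ uIcc 0 b) : 12800 * a ∈ uIcc (0 : ℝ) (12800 * b) := by
  rw [mem_uIcc] at h ⊢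
  rcases h with h | h
  · left
    constructor <;> linarith [h.1, h.2]
  · right
    constructor <;> linarith [h.1, h.2]

theorem sgn_ex (a : ℝ) : ∃ σ : ℝ, (σ = 1 ∨ σ = -1) ∧ σ * a = |a| := by
  rcases le_total 0 a with h | h
  · exact ⟨1, Or.inl rfl, by rw [one_mul, abs_of_nonneg h]⟩
  · exact ⟨-1, Or.inr rfl, by rw [abs_of_nonpos h]; ring⟩

/-- **The free pieces.** -/
theorem slt_free {pc : Pc} (hP : PyOK py s.S s.x s.z1) (ex : s.ex = true) (hpc : pc.free)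
    (h : s.InE pc y w) : ∃ (dl : Bool) (pay : ℕ) (σ leg : ℝ),
      ((OnF py (12800 * s.ys.im) (40 * y.re + 10) (12800 * y.im) dl pay ∧ σ = 0 ∧ leg = 1 ∧
        (pc = .F ∨ pc = .H ∨ pc = .G)) ∨
        OnN py (12800 * s.ys.im) (40 * y.re + 10) (12800 * y.im) dl pay σ leg) ∧
      SlB s pc y w dl pay σ leg := by
  obtain ⟨hin, hrz, hre⟩ := h
  have hmem : pc ∈ frL := by
    unfold Pc.free at hpc
    unfold frL
    rcases hpc with hpc | hpc | hpc
    · cases pc <;> simp_all [Pc.std]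
    · simp [hpc]
    · simp [hpc]
  have hd := hP.d pc hmem
  have hh := hP.h pc hmem
  refine ⟨py.fl pc, py.lit pc, ?_⟩
  cases pc with
  | F =>
    obtain ⟨w0, h1, h2, h3⟩ := hin
    refine ⟨0, 1, Or.inl ⟨?_, rfl, rfl, Or.inl rfl⟩, slb_of ex hd hh (eff_std rfl (by simp) y)
      (by rw [w0]; simp)⟩
    rw [h1]
    exact OnF.F (by linarith) (by linarith)
  | H =>
    obtain ⟨w0, h1, h2, h3⟩ := hin
    refine ⟨0, 1, Or.inl ⟨?_, rfl, rfl, Or.inr (Or.inl rfl)⟩,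
      slb_of ex hd hh (eff_std rfl (by simp) y) (by rw [w0]; simp)⟩
    rw [h1]
    exact OnF.H (by linarith) (by linarith)
  | G =>
    obtain ⟨w0, h1, h2, h3⟩ := hin
    refine ⟨0, 1, Or.inl ⟨?_, rfl, rfl, Or.inr (Or.inr rfl)⟩,
      slb_of ex hd hh (eff_std rfl (by simp) y) (by rw [w0]; simp)⟩
    rw [h1]
    exact OnF.G (by linarith) (by linarith)
  | L =>
    obtain ⟨w0, h1, h2⟩ := hin
    refine ⟨0, 1, Or.inr ?_, slb_of ex hd hh (eff_std rfl (by simp) y) (by rw [w0]; simp)⟩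
    rw [hT0_re _ h1]
    exact OnN.L (uIcc_sc h2)
  | R =>
    obtain ⟨w0, h1, h2⟩ := hin
    refine ⟨0, 1, Or.inr ?_, slb_of ex hd hh (eff_std rfl (by simp) y) (by rw [w0]; simp)⟩
    rw [hT0_rr _ h1]
    exact OnN.R (uIcc_sc h2)
  | T =>
    obtain ⟨w0, h1, h2, h3, h4⟩ := hin
    obtain ⟨σ, hσ, e⟩ := sgn_ex y.im
    refine ⟨σ, 0, Or.inr ?_, slb_of ex hd hh (eff_box rfl y) (by rw [w0, e, h1]; ring)⟩
    exact OnN.T hσ (by linarith) (by nlinarith) (by linarith) (by linarith)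
  | t =>
    obtain ⟨w0, h1, h2, h3, h4⟩ := hin
    obtain ⟨σ, hσ, e⟩ := sgn_ex y.im
    refine ⟨σ, 0, Or.inr ?_, slb_of ex hd hh (eff_box rfl y) (by rw [w0, e, h1]; ring)⟩
    exact OnN.t hσ (by linarith) (by nlinarith) (by linarith) (by linarith)
  | U =>
    obtain ⟨w0, h1, h2, h3, h4⟩ := hin
    obtain ⟨σ, hσ, e⟩ := sgn_ex y.im
    refine ⟨σ, 0, Or.inr ?_, slb_of ex hd hh (eff_box rfl y) (by rw [w0, e, h1]; ring)⟩
    exact OnN.U hσ (by linarith) (by nlinarith) (by linarith) (by linarith)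
  | u =>
    obtain ⟨w0, h1, h2, h3, h4⟩ := hin
    obtain ⟨σ, hσ, e⟩ := sgn_ex y.im
    refine ⟨σ, 0, Or.inr ?_, slb_of ex hd hh (eff_box rfl y) (by rw [w0, e, h1]; ring)⟩
    exact OnN.u hσ (by linarith) (by nlinarith) (by linarith) (by linarith)
  | P =>
    obtain ⟨w0, h1, h2, h3⟩ := hin
    obtain ⟨σ, hσ, e⟩ := sgn_ex y.im
    refine ⟨σ, 0, Or.inr ?_, slb_of ex hd hh (eff_box rfl y) (by rw [w0, e]; ring)⟩
    rw [hT0_re _ h1]
    have := abs_nonneg y.im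
    exact OnN.P hσ (by linarith) (by linarith) (by nlinarith)
  | p =>
    obtain ⟨w0, h1, h2, h3⟩ := hin
    obtain ⟨σ, hσ, e⟩ := sgn_ex y.im
    refine ⟨σ, 0, Or.inr ?_, slb_of ex hd hh (eff_box rfl y) (by rw [w0, e]; ring)⟩
    rw [hT0_re _ h1]
    have := abs_nonneg y.im
    exact OnN.p hσ (by linarith) (by linarith) (by nlinarith)
  | Q =>
    obtain ⟨w0, h1, h2, h3⟩ := hin
    obtain ⟨σ, hσ, e⟩ := sgn_ex y.im
    refine ⟨σ, 0, Or.inr ?_, slb_of ex hd hh (eff_box rfl y) (by rw [w0, e]; ring)⟩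
    rw [hT0_rr _ h1]
    have := abs_nonneg y.im
    exact OnN.Q hσ (by linarith) (by linarith) (by nlinarith)
  | q =>
    obtain ⟨w0, h1, h2, h3⟩ := hin
    obtain ⟨σ, hσ, e⟩ := sgn_ex y.im
    refine ⟨σ, 0, Or.inr ?_, slb_of ex hd hh (eff_box rfl y) (by rw [w0, e]; ring)⟩
    rw [hT0_rr _ h1]
    have := abs_nonneg y.im
    exact OnN.q hσ (by linarith) (by linarith) (by nlinarith)
  | lo =>
    unfold frL at hmem
    simp at hmem
  | re f =>
    have hf : f = .far := by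
      unfold frL at hmem
      simpa using hmem
    subst hf
    obtain ⟨w0, h1, h2, h3⟩ := hin
    obtain ⟨x1, x2⟩ := hre (Or.inl rfl)
    refine ⟨0, 1, Or.inr ?_, slb_of ex hd hh (eff_std rfl (by simp) y) (by rw [w0]; simp)⟩
    rw [h1, mul_zero]
    exact OnN.re (hP.reB x1 x2) (by linarith) (by linarith)
  | rz f =>
    have hf : f = .far := by
      unfold frL at hmem
      simpa using hmem
    subst hf
    obtain ⟨w0, h1, h2, h3⟩ := hin
    obtain ⟨x1, x2⟩ := hrz (Or.inl rfl)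
    obtain ⟨x3, x4⟩ := hP.rzB x1
    refine ⟨0, 1, Or.inr ?_, slb_of ex hd hh (eff_std rfl (by simp) y) (by rw [w0]; simp)⟩
    rw [h1, mul_zero]
    exact OnN.rz x3 (by linarith) (by linarith)

/-- **The forced pieces.** -/
theorem slt_frc {pc : Pc} {J1 : ℕ} (hP : PyOK py s.S s.x s.z1) (ex : s.ex = true)
    (hpc : pc.frcZ) (h : s.InE pc y w) (hJ : 30 - (J1 : ℝ) ≤ 40 * y.re + 10) :
    OnO py J1 (40 * y.re + 10) (12800 * y.im) false py.ow ∧
      SlB s pc y w false py.ow 0 1 := by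
  obtain ⟨hin, -, -⟩ := h
  have hmem : pc ∈ owL := by
    unfold owL
    rcases hpc with hpc | hpc | hpc <;> simp [hpc]
  have hd := hP.od pc hmem
  have hh := hP.oh pc hmem
  have hr : w = 0 ∧ y.im = 0 ∧ y.re ≤ 1 / 2 := by
    rcases hpc with hpc | hpc | hpc
    · rw [hpc] at hin
      exact ⟨hin.1, hin.2.1, hin.2.2.2⟩
    · rw [hpc] at hin
      exact ⟨hin.1, hin.2.1, hin.2.2.2⟩
    · rw [hpc] at hin
      exact ⟨hin.1, hin.2.1, hin.2.2.2⟩
  obtain ⟨w0, h1, h2⟩ := hr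
  refine ⟨?_, slb_of ex (by rw [hd]; simp) hh ?_ (by rw [w0]; simp)⟩
  · rw [h1, mul_zero]
    exact OnO.ow hJ (by linarith)
  · rcases hpc with hpc | hpc | hpc <;> rw [hpc] <;> exact eff_std rfl (by simp) y

end Pieces

end Pool.Agent.S5.G3
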