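import Pool.Agent.S5.K3.G14
import Pool.Agent.S5.K3.G11
import Pool.Agent.S5.K3.PyS

/-!
# The rows of a node with three half twists
-/

set_option autoImplicit false

namespace Pool.Agent.S5.G3

open Pool.Agent.H63.VC3 Pool.Agent.S3 Complex MeasureTheory Filter Topology Set
open Pool.Agent.S5.Tb Pool.Agent.S5.K3

/-- The data of the node fit. -/
structure Nd3 (py pb : Py) (p : BP) (J1 : ℕ) (o : OutB) (ys zs bs : ℂ) : Prop where
  ex : ∃ e3 e4 q : ℝ, Cx py pb p J1 o ys zs bs (e3 + e4) q ∧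
    An 0 (1 / 2 - p.y0) (1 / 2 - ys) ∧ An 0 (1 / 2 - p.b0) (1 / 2 - bs) ∧
      An e3 (p.y0 - p.z0) (ys - zs) ∧ An e4 (p.z0 + 1 / 2) (zs + 1 / 2) ∧
      An 0 (p.z0 + p.b0) (zs + bs)
  hz : l3z ys zs bs = 0

theorem nd3_of {py pb : Py} {p : BP} {J1 : ℕ} {o : OutB} {ys zs bs : ℂ} {fy fb : Bool}
    (h : rows3 py pb p J1 o = true)
    (ho : o.In fy fb (l3y ys zs) (l3b zs bs) ys zs bs (hh (1 / 2 - ys)) (hh (1 / 2 - bs)))
    (hfy : (py.dF || py.dH) = true → fy = true) (hfb : (pb.dF || pb.dH) = true → fb = true)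
    (hz : l3z ys zs bs = 0) : Nd3 py pb p J1 o ys zs bs := by
  have R := rows3_R3 h
  have ho' : o.In (py.dF || py.dH) (pb.dF || pb.dH) (l3y ys zs) (l3b zs bs) ys zs bs
      (hh (1 / 2 - ys)) (hh (1 / 2 - bs)) :=
    ⟨ho.toIn5, fun h => ho.chy (hfy h), fun h => ho.chb (hfb h)⟩
  obtain ⟨e3, e4, q, a1, a2, a3, a4, a5, q0, q1, hq, hw⟩ := C_z R.ok R.oo R.nn ho'
  exact ⟨⟨e3, e4, q, ⟨R, C_y R.ok R.nn ho', C_b R.ok R.nn ho', q0, q1, hq, hw⟩, a1, a2, a3, a4,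
    a5⟩, hz⟩

/-- The two edges on pieces: the value. -/
theorem ed_of {p : BP} {o : OutB} {ys zs bs y z b : ℂ} {dy db : Bool} {pay pab : ℕ}
    {σy σb ly lb wy wb ey eb e3 e4 : ℝ} (hz : l3z ys zs bs = 0)
    (a1 : An 0 (1 / 2 - p.y0) (1 / 2 - ys)) (a2 : An 0 (1 / 2 - p.b0) (1 / 2 - bs))
    (a3 : An e3 (p.y0 - p.z0) (ys - zs)) (a4 : An e4 (p.z0 + 1 / 2) (zs + 1 / 2))
    (a5 : An 0 (p.z0 + p.b0) (zs + bs))
    (hey : ey ≤ (l3y ys zs * (y - ft ly y)).re -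
      cond dy (Td (1 / 2 - ys) (1 / 2 - y)) 0 + ((pay : ℝ) - 100) / 100 - wy / 2 ∧
      wy / 2 = Real.pi * (σy * y.im))
    (heb : eb ≤ (l3b zs bs * (b - ft lb b)).re -
      cond db (Td (1 / 2 - bs) (1 / 2 - b)) 0 + ((pab : ℝ) - 100) / 100 - wb / 2 ∧
      wb / 2 = Real.pi * (σb * b.im)) :
    Ed p o ys zs bs y z b dy db pay pab σy σb ly lb (e3 + e4) (Ez3 ys zs bs y z b + ey + eb) := by
  obtain ⟨hey, hwy⟩ := hey
  obtain ⟨heb, hwb⟩ := heb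
  unfold ft at hey heb
  constructor
  have h := G_glue (z := z) (ly := ly) (lb := lb) (sy := sdY p o) (sb := sdB p o) (dy := dy) (db := db) (py := pay)
    (pb := pab) hz a1 a2 a3 a4 a5 rfl rfl hwy hwb rfl rfl rfl rfl rfl rfl rfl rfl
  have e : (2 - cond dy (1 : ℝ) 0) * 0 + (1 - cond db (1 : ℝ) 0) * 0 + e3 + e4 + 0 = e3 + e4 := by
    ring
  rw [e] at h
  refine le_trans ?_ h
  have : Ez3 ys zs bs y z b + ey + eb ≤ Ez3 ys zs bs y z b +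
      ((l3y ys zs * (y - ((y.re : ℂ) + ((ly * y.im : ℝ) : ℂ) * I))).re -
      cond dy (Td (1 / 2 - ys) (1 / 2 - y)) 0 + ((pay : ℝ) - 100) / 100 - wy / 2) +
      ((l3b zs bs * (b - ((b.re : ℂ) + ((lb * b.im : ℝ) : ℂ) * I))).re -
      cond db (Td (1 / 2 - bs) (1 / 2 - b)) 0 + ((pab : ℝ) - 100) / 100 - wb / 2) := by
    linarith
  exact mul_le_mul_of_nonneg_left this (by norm_num)

/-- **The rows of a node with three half twists.** -/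
theorem rows3_sound {py pb : Py} {p : BP} {J1 : ℕ} {o : OutB} {sy sb : Slt} {zs : ℂ}
    {fy fb : Bool} {z1 : ℝ} (h : rows3 py pb p J1 o = true)
    (hPy : PyOK py sy.S sy.x sy.z1) (hPb : PyOK pb sb.S sb.x sb.z1)
    (ho : o.In fy fb sy.lam sb.lam sy.ys zs sb.ys (hh (1 / 2 - sy.ys)) (hh (1 / 2 - sb.ys)))
    (hfy : (py.dF || py.dH) = true → fy = true) (hfb : (pb.dF || pb.dH) = true → fb = true)
    (hz : l3z sy.ys zs sb.ys = 0) (hly : sy.lam = l3y sy.ys zs) (hlb : sb.lam = l3b zs sb.ys)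
    (hey : sy.ex = true) (heb : sb.ex = true) (hz1 : 40 * z1 = 20 - (J1 : ℝ)) :
    (∀ (y z b : ℂ) (wy w wb : ℝ) (pcy pcb : Pc), pcy.free → pcb.free → sy.In pcy y wy →
      sb.In pcb b wb → LimR (-z1) z1 (3 / 20) zs.im z w →
      ¬((w = 0 ∧ z.im = zs.im ∧ -z1 ≤ z.re ∧ z.re ≤ z1) ∧ (pcy = .F ∨ pcy = .H ∨ pcy = .G) ∧
        (pcb = .F ∨ pcb = .H ∨ pcb = .G)) →
      Ez3 sy.ys zs sb.ys y z b + sy.e ⟨3, false⟩ pcy y wy + sb.e ⟨3, false⟩ pcb b wb < w) ∧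
    (∀ (y z b : ℂ) (wy wb : ℝ) (pcy pcb : Pc), (sy.ex = true → pcy.frcZ) → pcb.free →
      sy.In pcy y wy → sb.In pcb b wb → z.im = 0 → z1 ≤ z.re → z.re ≤ 1 / 2 → z.re ≤ y.re →
      Ez3 sy.ys zs sb.ys y z b + sy.e ⟨3, false⟩ pcy y wy + sb.e ⟨3, false⟩ pcb b wb < 0) ∧
    (∀ (y z b : ℂ) (wy wb : ℝ) (pcy pcb : Pc), pcy.free → (sb.ex = true → pcb.frcZ) →
      sy.In pcy y wy → sb.In pcb b wb → z.im = 0 → -(1 / 2) ≤ z.re → z.re ≤ -z1 →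
      0 ≤ z.re + b.re →
      Ez3 sy.ys zs sb.ys y z b + sy.e ⟨3, false⟩ pcy y wy + sb.e ⟨3, false⟩ pcb b wb < 0) := by
  rw [hly, hlb] at ho
  obtain ⟨⟨e3, e4, q, C, a1, a2, a3, a4, a5⟩, -⟩ := nd3_of h ho hfy hfb hz
  have inY : ∀ {pc : Pc} {y : ℂ} {w : ℝ}, sy.In pc y w → sy.InE pc y w := fun {pc y w} hi => by
    unfold Slt.In at hi
    rw [if_pos hey] at hi
    exact hi
  have inB : ∀ {pc : Pc} {y : ℂ} {w : ℝ}, sb.In pc y w → sb.InE pc y w := fun {pc y w} hi => by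
    unfold Slt.In at hi
    rw [if_pos heb] at hi
    exact hi
  have fr : ∀ {py : Py} {e I a : ℝ} {dl : Bool} {pay : ℕ} {σ leg : ℝ} {pc : Pc},
      ((OnF py e I a dl pay ∧ σ = 0 ∧ leg = 1 ∧ (pc = .F ∨ pc = .H ∨ pc = .G)) ∨
        OnN py e I a dl pay σ leg) → Fr py e I a dl pay σ leg := by
    rintro py e I a dl pay σ leg pc (⟨h1, h2, h3, -⟩ | h1)
    · exact Or.inl ⟨h1, h2, h3⟩
    · exact Or.inr h1
  have nf : ∀ {py : Py} {e I a : ℝ} {dl : Bool} {pay : ℕ} {σ leg : ℝ} {pc : Pc},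
      ((OnF py e I a dl pay ∧ σ = 0 ∧ leg = 1 ∧ (pc = .F ∨ pc = .H ∨ pc = .G)) ∨
        OnN py e I a dl pay σ leg) → ¬(pc = .F ∨ pc = .H ∨ pc = .G) →
        OnN py e I a dl pay σ leg := by
    rintro py e I a dl pay σ leg pc (⟨-, -, -, h4⟩ | h1) h
    · exact absurd h4 h
    · exact h1
  refine ⟨?_, ?_, ?_⟩
  · intro y z b wy w wb pcy pcb fy fb iy ib hl hx
    obtain ⟨dy, pay, σy, ly, y1, y4⟩ := slt_free hPy hey fy (inY iy)
    obtain ⟨db, pab, σb, lb, b1, b4⟩ := slt_free hPb heb fb (inB ib)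
    unfold SlB at y4 b4
    rw [hly] at y4
    rw [hlb] at b4
    refine U_main C (ed_of hz a1 a2 a3 a4 a5 y4 b4) hz1 (fr y1) (fr b1) hl ?_
    by_cases c1 : w = 0 ∧ z.im = zs.im ∧ -z1 ≤ z.re ∧ z.re ≤ z1
    · by_cases c2 : pcy = .F ∨ pcy = .H ∨ pcy = .G
      · by_cases c3 : pcb = .F ∨ pcb = .H ∨ pcb = .G
        · exact absurd ⟨c1, c2, c3⟩ hx
        · exact Or.inr (Or.inr (nf b1 c3))
      · exact Or.inr (Or.inl (nf y1 c2))
    · exact Or.inl c1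
  · intro y z b wy wb pcy pcb fy fb iy ib z0 z2 z3 z4
    obtain ⟨y1, y4⟩ := slt_frc (J1 := J1) hPy hey (fy hey) (inY iy) (by linarith)
    obtain ⟨db, pab, σb, lb, b1, b4⟩ := slt_free hPb heb fb (inB ib)
    unfold SlB at y4 b4
    rw [hly] at y4
    rw [hlb] at b4
    exact P_main C (ed_of hz a1 a2 a3 a4 a5 y4 b4) y1 (fr b1) z0 (by linarith) (by linarith)
  · intro y z b wy wb pcy pcb fy fb iy ib z0 z2 z3 z4
    obtain ⟨dy, pay, σy, ly, y1, y4⟩ := slt_free hPy hey fy (inY iy)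
    obtain ⟨b1, b4⟩ := slt_frc (J1 := J1) hPb heb (fb heb) (inB ib) (by linarith)
    unfold SlB at y4 b4
    rw [hly] at y4
    rw [hlb] at b4
    exact N_main C (ed_of hz a1 a2 a3 a4 a5 y4 b4) (fr y1) b1 z0 (by linarith) (by linarith)

/-- The bound for the end of the contour of the neighbour may be weakened. -/
theorem PyOK.mono {py : Py} {S : Bool} {x : Nt} {z1 z2 : ℝ} (h : PyOK py S x z1) (hz : z1 ≤ z2) :
    PyOK py S x z2 :=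
  ⟨h.d, h.h, h.od, h.oh, h.reB, fun hx => ⟨(h.rzB hx).1, by
    have := (h.rzB hx).2
    linarith⟩⟩

end Pool.Agent.S5.G3
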