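import Pool.Agent.S5.K3.G6

/-!
# The potentials of a slot, for each kind of neighbour

`A`, `S`: kind of the edge; the number is the half twists of the neighbour (`6`: at least `6`); `i`: the
neighbour has another edge, `e`: it is an end.
-/

set_option autoImplicit false

namespace Pool.Agent.S5.G3

/-- Edge `A`, `2` half twists, inner. -/
def pA2i : Py :=
  ⟨false, false, 100, 100, 100, 100, 100, 100, 106, 100, 100, 100, 100, 100, 106,
    true, 85, false, 97, 26, 103⟩

/-- Edge `A`, `2` half twists, end. -/
def pA2e : Py :=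
  ⟨false, false, 100, 100, 100, 113, 100, 100, 113, 100, 113, 113, 113, 100, 100,
    false, 85, false, 97, 26, 102⟩

/-- Edge `A`, `3` half twists, inner. -/
def pA3i : Py :=
  ⟨false, false, 100, 100, 100, 100, 100, 100, 100, 100, 100, 100, 100, 100, 100,
    true, 85, true, 97, 26, 103⟩

/-- Edge `A`, `3` half twists, end. -/
def pA3e : Py :=
  ⟨false, true, 100, 100, 100, 100, 100, 100, 100, 100, 100, 100, 100, 100, 100,
    false, 85, true, 97, 26, 103⟩

/-- Edge `A`, `4` half twists, inner. -/
def pA4i : Py :=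
  ⟨false, false, 100, 100, 100, 100, 100, 100, 100, 100, 100, 100, 100, 100, 100,
    true, 85, true, 97, 26, 103⟩

/-- Edge `A`, `4` half twists, end. -/
def pA4e : Py :=
  ⟨false, false, 100, 100, 100, 100, 100, 100, 100, 100, 100, 100, 100, 100, 100,
    false, 85, false, 97, 26, 103⟩

/-- Edge `A`, `5` half twists, inner. -/
def pA5i : Py :=
  ⟨false, false, 100, 100, 100, 100, 100, 100, 100, 100, 100, 100, 100, 100, 100,
    false, 85, false, 97, 26, 103⟩

/-- Edge `A`, `5` half twists, end. -/
def pA5e : Py :=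
  ⟨false, false, 100, 100, 100, 100, 100, 100, 100, 100, 100, 100, 100, 100, 100,
    false, 85, false, 97, 26, 103⟩

/-- Edge `A`, `6` half twists, inner. -/
def pA6i : Py :=
  ⟨false, false, 100, 100, 100, 97, 100, 100, 97, 100, 100, 97, 97, 100, 100,
    false, 85, false, 97, 26, 103⟩

/-- Edge `A`, `6` half twists, end. -/
def pA6e : Py :=
  ⟨false, false, 100, 100, 100, 97, 100, 100, 97, 100, 100, 97, 97, 100, 100,
    false, 85, false, 97, 26, 103⟩

/-- Edge `S`, `2` half twists, inner. -/
def pS2i : Py :=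
  ⟨false, false, 100, 100, 100, 100, 100, 100, 100, 100, 100, 100, 100, 100, 100,
    true, 80, false, 92, 26, 108⟩

/-- Edge `S`, `2` half twists, end. -/
def pS2e : Py :=
  ⟨false, false, 100, 100, 100, 113, 100, 100, 113, 100, 113, 113, 113, 100, 100,
    false, 80, false, 92, 26, 108⟩

/-- Edge `S`, `3` half twists, inner. -/
def pS3i : Py :=
  ⟨false, false, 100, 100, 100, 100, 100, 100, 100, 100, 100, 100, 100, 100, 100,
    true, 80, true, 92, 25, 108⟩

/-- Edge `S`, `3` half twists, end. -/
def pS3e : Py :=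
  ⟨true, true, 100, 100, 94, 94, 100, 100, 103, 100, 100, 98, 98, 100, 100,
    false, 80, true, 92, 26, 108⟩

/-- Edge `S`, `4` half twists, inner. -/
def pS4i : Py :=
  ⟨false, false, 100, 100, 100, 100, 100, 100, 100, 100, 100, 100, 100, 100, 100,
    true, 80, true, 92, 26, 108⟩

/-- Edge `S`, `4` half twists, end. -/
def pS4e : Py :=
  ⟨false, false, 100, 100, 105, 105, 100, 100, 103, 100, 103, 105, 105, 100, 100,
    false, 80, false, 92, 26, 108⟩

/-- Edge `S`, `5` half twists, inner. -/
def pS5i : Py :=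
  ⟨false, false, 100, 100, 100, 100, 100, 100, 100, 100, 100, 100, 100, 100, 100,
    false, 80, false, 92, 26, 108⟩

/-- Edge `S`, `5` half twists, end. -/
def pS5e : Py :=
  ⟨false, false, 100, 100, 100, 100, 100, 100, 100, 100, 100, 100, 100, 100, 100,
    false, 80, false, 92, 26, 108⟩

/-- Edge `S`, `6` half twists, inner. -/
def pS6i : Py :=
  ⟨false, false, 100, 100, 100, 97, 100, 100, 97, 100, 100, 97, 97, 100, 100,
    false, 80, false, 92, 26, 108⟩

/-- Edge `S`, `6` half twists, end. -/
def pS6e : Py :=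
  ⟨false, false, 100, 100, 100, 97, 100, 100, 97, 100, 100, 97, 97, 100, 100,
    false, 80, false, 92, 26, 108⟩

end Pool.Agent.S5.G3
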