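import Pool.Agent.S5.K3.PyS
import Pool.Agent.S5.K3.PyT
import Pool.Agent.S5.I.OriD

/-!
# The potentials of the slots of a node with three half twists are right
-/

set_option autoImplicit false

namespace Pool.Agent.S5.G3

open Pool.Agent.S5.Tb Pool.Agent.S5.K3

/-! ### The twenty kinds of slots -/

theorem pA2i_ok {z1 : ℝ} (hz : 2 / 5 ≤ z1) : PyOK pA2i false ⟨2, false⟩ z1 := by
  refine PyOK.of (by decide +kernel) ?_
  show ((26 : ℕ) : ℝ) ≤ 40 * z1 + 10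
  push_cast
  linarith

theorem pA2e_ok {z1 : ℝ} (hz : 2 / 5 ≤ z1) : PyOK pA2e false ⟨2, true⟩ z1 := by
  refine PyOK.of (by decide +kernel) ?_
  show ((26 : ℕ) : ℝ) ≤ 40 * z1 + 10
  push_cast
  linarith

theorem pA3i_ok {z1 : ℝ} (hz : 2 / 5 ≤ z1) : PyOK pA3i false ⟨3, false⟩ z1 := by
  refine PyOK.of (by decide +kernel) ?_
  show ((26 : ℕ) : ℝ) ≤ 40 * z1 + 10
  push_cast
  linarith

theorem pA3e_ok {z1 : ℝ} (hz : 2 / 5 ≤ z1) : PyOK pA3e false ⟨3, true⟩ z1 := by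
  refine PyOK.of (by decide +kernel) ?_
  show ((26 : ℕ) : ℝ) ≤ 40 * z1 + 10
  push_cast
  linarith

theorem pA4i_ok {z1 : ℝ} (hz : 2 / 5 ≤ z1) : PyOK pA4i false ⟨4, false⟩ z1 := by
  refine PyOK.of (by decide +kernel) ?_
  show ((26 : ℕ) : ℝ) ≤ 40 * z1 + 10
  push_cast
  linarith

theorem pA4e_ok {z1 : ℝ} (hz : 2 / 5 ≤ z1) : PyOK pA4e false ⟨4, true⟩ z1 := by
  refine PyOK.of (by decide +kernel) ?_
  show ((26 : ℕ) : ℝ) ≤ 40 * z1 + 10
  push_cast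
  linarith

theorem pA5i_ok {z1 : ℝ} (hz : 2 / 5 ≤ z1) : PyOK pA5i false ⟨5, false⟩ z1 := by
  refine PyOK.of (by decide +kernel) ?_
  show ((26 : ℕ) : ℝ) ≤ 40 * z1 + 10
  push_cast
  linarith

theorem pA5e_ok {z1 : ℝ} (hz : 2 / 5 ≤ z1) : PyOK pA5e false ⟨5, true⟩ z1 := by
  refine PyOK.of (by decide +kernel) ?_
  show ((26 : ℕ) : ℝ) ≤ 40 * z1 + 10
  push_cast
  linarith

theorem pA6i_ok {z1 : ℝ} (hz : 2 / 5 ≤ z1) : PyOK pA6i false ⟨6, false⟩ z1 := by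
  refine PyOK.of (by decide +kernel) ?_
  show ((26 : ℕ) : ℝ) ≤ 40 * z1 + 10
  push_cast
  linarith

theorem pA6e_ok {z1 : ℝ} (hz : 2 / 5 ≤ z1) : PyOK pA6e false ⟨6, true⟩ z1 := by
  refine PyOK.of (by decide +kernel) ?_
  show ((26 : ℕ) : ℝ) ≤ 40 * z1 + 10
  push_cast
  linarith

theorem pS2i_ok {z1 : ℝ} (hz : 2 / 5 ≤ z1) : PyOK pS2i true ⟨2, false⟩ z1 := by
  refine PyOK.of (by decide +kernel) ?_
  show ((26 : ℕ) : ℝ) ≤ 40 * z1 + 10
  push_cast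
  linarith

theorem pS2e_ok {z1 : ℝ} (hz : 2 / 5 ≤ z1) : PyOK pS2e true ⟨2, true⟩ z1 := by
  refine PyOK.of (by decide +kernel) ?_
  show ((26 : ℕ) : ℝ) ≤ 40 * z1 + 10
  push_cast
  linarith

theorem pS3i_ok {z1 : ℝ} (hz : 3 / 8 ≤ z1) : PyOK pS3i true ⟨3, false⟩ z1 := by
  refine PyOK.of (by decide +kernel) ?_
  show ((25 : ℕ) : ℝ) ≤ 40 * z1 + 10
  push_cast
  linarith

theorem pS3e_ok {z1 : ℝ} (hz : 2 / 5 ≤ z1) : PyOK pS3e true ⟨3, true⟩ z1 := by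
  refine PyOK.of (by decide +kernel) ?_
  show ((26 : ℕ) : ℝ) ≤ 40 * z1 + 10
  push_cast
  linarith

theorem pS4i_ok {z1 : ℝ} (hz : 2 / 5 ≤ z1) : PyOK pS4i true ⟨4, false⟩ z1 := by
  refine PyOK.of (by decide +kernel) ?_
  show ((26 : ℕ) : ℝ) ≤ 40 * z1 + 10
  push_cast
  linarith

theorem pS4e_ok {z1 : ℝ} (hz : 2 / 5 ≤ z1) : PyOK pS4e true ⟨4, true⟩ z1 := by
  refine PyOK.of (by decide +kernel) ?_
  show ((26 : ℕ) : ℝ) ≤ 40 * z1 + 10
  push_cast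
  linarith

theorem pS5i_ok {z1 : ℝ} (hz : 2 / 5 ≤ z1) : PyOK pS5i true ⟨5, false⟩ z1 := by
  refine PyOK.of (by decide +kernel) ?_
  show ((26 : ℕ) : ℝ) ≤ 40 * z1 + 10
  push_cast
  linarith

theorem pS5e_ok {z1 : ℝ} (hz : 2 / 5 ≤ z1) : PyOK pS5e true ⟨5, true⟩ z1 := by
  refine PyOK.of (by decide +kernel) ?_
  show ((26 : ℕ) : ℝ) ≤ 40 * z1 + 10
  push_cast
  linarith

theorem pS6i_ok {z1 : ℝ} (hz : 2 / 5 ≤ z1) : PyOK pS6i true ⟨6, false⟩ z1 := by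
  refine PyOK.of (by decide +kernel) ?_
  show ((26 : ℕ) : ℝ) ≤ 40 * z1 + 10
  push_cast
  linarith

theorem pS6e_ok {z1 : ℝ} (hz : 2 / 5 ≤ z1) : PyOK pS6e true ⟨6, true⟩ z1 := by
  refine PyOK.of (by decide +kernel) ?_
  show ((26 : ℕ) : ℝ) ≤ 40 * z1 + 10
  push_cast
  linarith

/-! ### The slots of a chain -/

/-- The potentials of a slot, `S`: the sign of the edge, `x`: the neighbour. -/
def pyT (S : Bool) (x : Nt) : Py :=
  match S, x.e, x.a with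
  | false, false, 2 => pA2i
  | false, false, 3 => pA3i
  | false, false, 4 => pA4i
  | false, false, 5 => pA5i
  | false, false, _ => pA6i
  | false, true, 2 => pA2e
  | false, true, 3 => pA3e
  | false, true, 4 => pA4e
  | false, true, 5 => pA5e
  | false, true, _ => pA6e
  | true, false, 2 => pS2i
  | true, false, 3 => pS3i
  | true, false, 4 => pS4i
  | true, false, 5 => pS5i
  | true, false, _ => pS6i
  | true, true, 2 => pS2e
  | true, true, 3 => pS3e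
  | true, true, 4 => pS4e
  | true, true, 5 => pS5e
  | true, true, _ => pS6e

theorem pyT_ok {S : Bool} {x : Nt} {z1 : ℝ} (h2 : 2 ≤ x.a) (h6 : x.a ≤ 6)
    (hz : 2 / 5 ≤ z1 ∨ S = true ∧ x = ⟨3, false⟩ ∧ 3 / 8 ≤ z1) : PyOK (pyT S x) S x z1 := by
  obtain ⟨a, e⟩ := x
  simp only at h2 h6
  rcases hz with hz | ⟨rfl, hx, hz⟩
  · interval_cases a <;> cases S <;> cases e
    · exact pA2i_ok hz
    · exact pA2e_ok hz
    · exact pS2i_ok hz
    · exact pS2e_ok hz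
    · exact pA3i_ok hz
    · exact pA3e_ok hz
    · exact pS3i_ok (by linarith)
    · exact pS3e_ok hz
    · exact pA4i_ok hz
    · exact pA4e_ok hz
    · exact pS4i_ok hz
    · exact pS4e_ok hz
    · exact pA5i_ok hz
    · exact pA5e_ok hz
    · exact pS5i_ok hz
    · exact pS5e_ok hz
    · exact pA6i_ok hz
    · exact pA6e_ok hz
    · exact pS6i_ok hz
    · exact pS6e_ok hz
  · rw [hx]
    exact pS3i_ok hz

theorem z1O_or (m : ℕ) (a : ℕ → ℕ) (S : ℕ → Bool) (j : ℕ) : 2 / 5 ≤ z1O m a S j ∨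
    (S (j - 1) = true ∧ S j = true ∧ ntG m a j = ⟨3, false⟩ ∧ 3 / 8 ≤ z1O m a S j) := by
  unfold z1O
  split
  · next h =>
    refine Or.inr ⟨h.2.2.2.1, h.2.2.2.2.1, ?_, le_refl _⟩
    unfold ntG
    rw [h.2.2.1]
    have e : decide (j = 0 ∨ j = m) = false := by
      rw [decide_eq_false_iff_not]
      rintro (e | e)
      · omega
      · omega
    rw [e]
    rfl
  · exact Or.inl (le_refl _)

/-- The left slot of the node `i`. -/
theorem pyT_left {m : ℕ} {a : ℕ → ℕ} {S : ℕ → Bool} {i : ℕ} (h2 : 2 ≤ a (i - 1)) :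
    PyOK (pyT (S (i - 1)) (ntG m a (i - 1))) (S (i - 1)) (ntG m a (i - 1)) (z1O m a S (i - 1)) := by
  refine pyT_ok (le_min h2 (by norm_num)) (min_le_right _ _) ?_
  rcases z1O_or m a S (i - 1) with h | ⟨-, h1, h2, h3⟩
  · exact Or.inl h
  · exact Or.inr ⟨h1, h2, h3⟩

/-- The right slot of the node `i`. -/
theorem pyT_right {m : ℕ} {a : ℕ → ℕ} {S : ℕ → Bool} {i : ℕ} (h2 : 2 ≤ a (i + 1)) :
    PyOK (pyT (S i) (ntG m a (i + 1))) (S i) (ntG m a (i + 1)) (z1O m a S (i + 1)) := by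
  refine pyT_ok (le_min h2 (by norm_num)) (min_le_right _ _) ?_
  rcases z1O_or m a S (i + 1) with h | ⟨h1, -, h2, h3⟩
  · exact Or.inl h
  · exact Or.inr ⟨h1, h2, h3⟩

end Pool.Agent.S5.G3
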