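import Pool.Agent.S5.K3.Grp
import Pool.Agent.S5.K3.Bx
import Pool.Agent.S5.K3.Vn
import Pool.Agent.S5.K3.G15
import Pool.Agent.S5.K3.PyT2

/-!
# The groups of pairs of neighbours
-/

set_option autoImplicit false

namespace Pool.Agent.S5.K3

open Complex Pool.Agent.H63.VC3 Pool.Agent.S3
open Pool.Agent.S5.G (Sd N3 Slot SF kp lA lB zz3 O3 sy)
open Pool.Agent.S5.E (Vt vL vR)
open Pool.Agent.S5.E.B2 (InR)
open Pool.Agent.S5.G3

/-! ### The regions -/

/-- The pair `3S0 | 2SA`. -/
def spc (ty tb : Bool) (x w : Vt) : Bool :=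
  ty && (tb && (decide (x = ⟨3, true, none⟩) && decide (w = ⟨2, true, some false⟩)))

/-- A vertex with two half twists next to a node with two `S` edges. -/
def spq (ty tb : Bool) (x : Vt) : Bool := ty && (tb && Nat.beq x.a 2)

/-- The region of the first neighbour. -/
def rgY (T : Vt → Vt → E.B2.Rg) (ty tb : Bool) (x w : Vt) : E.B2.Rg :=
  bif spc ty tb x w then E.capR (T x (me ty tb)) ⟨630, 633, 505, 512, 0⟩
    else bif spq ty tb x then E.capR (T x (me ty tb)) q33 else T x (me ty tb)

/-- The region of the second neighbour. -/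
def rgB (T : Vt → Vt → E.B2.Rg) (ty tb : Bool) (x w : Vt) : E.B2.Rg :=
  bif spc ty tb x w then E.capR (T w (me tb ty)) ⟨833, 889, 552, 630, 0⟩ else T w (me tb ty)

/-- The region of the node. -/
def rgK (T : Vt → Vt → E.B2.Rg) (ty tb : Bool) (x w : Vt) : E.B2.Rg :=
  bif spc ty tb x w then E.capR (E.capR (T (me ty tb) x) (T (me tb ty) w)) ⟨808, 822, 556, 577, 0⟩
    else E.capR (T (me ty tb) x) (T (me tb ty) w)

variable {T : Vt → Vt → E.B2.Rg} {ty tb : Bool} {x w : Vt} {cy cb p r z : ℂ}

theorem spc_c0 (h : N3c T ty tb x w cy cb p r z) (hs : spc ty tb x w = true) :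
    C33.Outs cy (cos z) cb := by
  unfold spc at hs
  simp only [Bool.and_eq_true, decide_eq_true_eq] at hs
  exact h.c0 hs.1 hs.2.1 hs.2.2.1 hs.2.2.2

theorem N3c.inY (h : N3c T ty tb x w cy cb p r z) : InR (rgY T ty tb x w) cy.re (-cy.im) := by
  unfold rgY
  cases hs : spc ty tb x w
  · cases hq : spq ty tb x
    · exact h.ry
    · unfold spq at hq
      simp only [Bool.and_eq_true] at hq
      exact E.InR.capR h.ry (h.q2 hq.1 hq.2.1 (Nat.eq_of_beq_eq_true hq.2.2))
  · exact E.InR.capR h.ry (spc_c0 h hs).r0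

theorem N3c.inB (h : N3c T ty tb x w cy cb p r z) : InR (rgB T ty tb x w) cb.re (-cb.im) := by
  unfold rgB
  cases hs : spc ty tb x w
  · exact h.rb
  · exact E.InR.capR h.rb (spc_c0 h hs).r2

theorem N3c.inK (h : N3c T ty tb x w cy cb p r z) :
    InR (rgK T ty tb x w) (cos z).re (-(cos z).im) := by
  unfold rgK
  cases hs : spc ty tb x w
  · exact E.InR.capR h.oy h.ob
  · exact E.InR.capR (E.InR.capR h.oy h.ob) (spc_c0 h hs).r1

/-- The rectangle contains the region of a neighbour. -/
def ckr (s : Bool) (g : E.B2.Rg) (u : Rc) : Bool := ckRc s g.k0 g.k1 g.t0 g.t1 u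

/-! ### The kinds of the neighbours -/

/-- The kind of a neighbour. -/
def kT (x : Vt) : ℕ :=
  bif x.o.isNone then (bif Nat.beq x.a 2 then 2 else bif Nat.beq x.a 3 then (bif x.s then 4 else 3)
    else 0) else 0

/-- The kind is right, or there is no relation; `k0` is the lower bound of the norm. -/
def kOk (k : ℕ) (x : Vt) (k0 : ℕ) : Bool :=
  Nat.beq k 0 || (Nat.beq k (kT x) && (Nat.ble 501 k0 || !(Nat.beq k 4)))

theorem log_pos_of {c : ℂ} {k0 : ℕ} (h : 501 ≤ k0) (hc : (k0 : ℝ) / 1000 ≤ ‖c‖) :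
    0 < Real.log ‖c‖ + Real.log 2 := by
  have h1 : (501 : ℝ) ≤ k0 := by exact_mod_cast h
  have h2 : 0 < ‖c‖ := by linarith
  rw [← Real.log_mul h2.ne' (by norm_num)]
  exact Real.log_pos (by linarith)

theorem wE_eq (U : ℂ) : wE U = 1 / 2 - I * U / Real.pi := by
  unfold wE
  ring

/-- The relation of the first neighbour. -/
theorem rel_y (h : N3c T ty tb x w cy cb p r z) {k : ℕ}
    (hk : kOk k x (rgY T ty tb x w).k0 = true) (hf : fk k = true) :
    Qk k (lf nK (cP p) (cP r)) (lf nU (cP p) (cP r)) := by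
  have hP := h.pr
  unfold prT at hP
  simp only [Bool.and_eq_true, beq_iff_eq] at hP
  obtain ⟨hok, -, hxs, -⟩ := hP
  unfold kOk at hk
  have hk0 : k ≠ 0 := by
    rintro rfl
    exact absurd hf (by decide)
  rw [show Nat.beq k 0 = false from by
    cases e : Nat.beq k 0
    · rfl
    · exact absurd (Nat.eq_of_beq_eq_true e) hk0] at hk
  simp only [Bool.false_or, Bool.and_eq_true] at hk
  obtain ⟨hk1, hk2⟩ := hk
  have hk1 := Nat.eq_of_beq_eq_true hk1
  have hre := h.lk.ure
  obtain ⟨a, s, o⟩ := x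
  unfold kT at hk1
  rcases o with _ | t
  · simp only [Option.isNone_none, cond_true] at hk1
    by_cases h2 : a = 2
    · subst h2
      have hk' : k = 2 := hk1
      subst hk'
      cases s
      · have e : ty = false := hxs.symm
        subst e
        have := h.lk.end2y (h.y2 rfl rfl)
        exact this
      · exact absurd hok (by decide)
    · by_cases h3 : a = 3
      · subst h3
        cases s
        · have hk' : k = 3 := hk1
          subst hk'
          have e : ty = false := hxs.symm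
          subst e
          have := h.lk.end3yA (h.y3 rfl rfl)
          show Q3 1 _ _
          unfold Q3
          rw [this, wE_eq]
          push_cast
          ring
        · have hk' : k = 4 := hk1
          subst hk'
          have e : ty = true := hxs.symm
          subst e
          have hb : Nat.ble 501 (rgY T true tb ⟨3, true, none⟩ w).k0 = true := by simpa using hk2
          have h5 := (Rg3.of h.inY h.lk.y.c0).n0
          have h6 : 0 < (lf nU (cP p) (cP r)).re := by
            rw [hre, norm_kp]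
            exact log_pos_of (Nat.le_of_ble_eq_true hb) h5
          have := h.lk.end3yS (h.y3 rfl rfl) h6
          show Q3 2 _ _
          unfold Q3
          rw [this, wE_eq]
          push_cast
          ring
      · exfalso
        have e2 : Nat.beq a 2 = false := by
          cases e : Nat.beq a 2
          · rfl
          · exact absurd (Nat.eq_of_beq_eq_true e) h2
        have e3 : Nat.beq a 3 = false := by
          cases e : Nat.beq a 3
          · rfl
          · exact absurd (Nat.eq_of_beq_eq_true e) h3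
        rw [e2, e3] at hk1
        exact hk0 hk1
  · exact absurd hk1 hk0

/-- The relation of the second neighbour. -/
theorem rel_b (h : N3c T ty tb x w cy cb p r z) {k : ℕ}
    (hk : kOk k w (rgB T ty tb x w).k0 = true) (hf : fk k = true) :
    Qk k (lf nK (cP p) (cP r)) (lf nV (cP p) (cP r)) := by
  have hP := h.pr
  unfold prT at hP
  simp only [Bool.and_eq_true, beq_iff_eq] at hP
  obtain ⟨-, hok, -, hxs, -⟩ := hP
  unfold kOk at hk
  have hk0 : k ≠ 0 := by
    rintro rfl
    exact absurd hf (by decide)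
  rw [show Nat.beq k 0 = false from by
    cases e : Nat.beq k 0
    · rfl
    · exact absurd (Nat.eq_of_beq_eq_true e) hk0] at hk
  simp only [Bool.false_or, Bool.and_eq_true] at hk
  obtain ⟨hk1, hk2⟩ := hk
  have hk1 := Nat.eq_of_beq_eq_true hk1
  have hre := h.lk.vre
  obtain ⟨a, s, o⟩ := w
  unfold kT at hk1
  rcases o with _ | t
  · simp only [Option.isNone_none, cond_true] at hk1
    by_cases h2 : a = 2
    · subst h2
      have hk' : k = 2 := hk1
      subst hk'
      cases s
      · have e : tb = false := hxs.symm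
        subst e
        have := h.lk.end2b (h.b2 rfl rfl)
        exact this
      · exact absurd hok (by decide)
    · by_cases h3 : a = 3
      · subst h3
        cases s
        · have hk' : k = 3 := hk1
          subst hk'
          have e : tb = false := hxs.symm
          subst e
          have := h.lk.end3bA (h.b3 rfl rfl)
          show Q3 1 _ _
          unfold Q3
          rw [this, wE_eq]
          push_cast
          ring
        · have hk' : k = 4 := hk1
          subst hk'
          have e : tb = true := hxs.symm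
          subst e
          have hb : Nat.ble 501 (rgB T ty true x ⟨3, true, none⟩).k0 = true := by simpa using hk2
          have h5 := (Rg3.of h.inB h.lk.b.c0).n0
          have h6 : 0 < (lf nV (cP p) (cP r)).re := by
            rw [hre, norm_kp]
            exact log_pos_of (Nat.le_of_ble_eq_true hb) h5
          have := h.lk.end3bS (h.b3 rfl rfl) h6
          show Q3 2 _ _
          unfold Q3
          rw [this, wE_eq]
          push_cast
          ring
      · exfalso
        have e2 : Nat.beq a 2 = false := by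
          cases e : Nat.beq a 2
          · rfl
          · exact absurd (Nat.eq_of_beq_eq_true e) h2
        have e3 : Nat.beq a 3 = false := by
          cases e : Nat.beq a 3
          · rfl
          · exact absurd (Nat.eq_of_beq_eq_true e) h3
        rw [e2, e3] at hk1
        exact hk0 hk1
  · exact absurd hk1 hk0

/-! ### A pair and a group -/

/-- The pair is in the group. -/
def pairG (T : Vt → Vt → E.B2.Rg) (g : GD) (ty tb : Bool) (x w : Vt) : Bool :=
  (g.ty == ty) && ((g.tb == tb) && (kOk g.k1 x (rgY T ty tb x w).k0 &&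
    (kOk g.k2 w (rgB T ty tb x w).k0 && (g.L1.any (ckr ty (rgY T ty tb x w)) &&
      (g.L2.any (ckr tb (rgB T ty tb x w)) && ckRK (rgK T ty tb x w).k0 (rgK T ty tb x w).k1
        (rgK T ty tb x w).t0 (rgK T ty tb x w).t1 g.W)))))

theorem pairG_ok {g : GD} {G : OutB → Prop} (hg : g.OkG G) (hp : pairG T g ty tb x w = true)
    (h : N3c T ty tb x w cy cb p r z) : ∃ o : OutB, G o ∧
      OutB.In (f3 g.k1) (f3 g.k2) o (oLy (cP p) (cP r)) (oLb (cP p) (cP r)) (oY (cP p) (cP r))
        (oZ (cP p) (cP r)) (oB (cP p) (cP r)) (oHy (cP p) (cP r)) (oHb (cP p) (cP r)) := by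
  unfold pairG at hp
  simp only [Bool.and_eq_true, List.any_eq_true] at hp
  obtain ⟨-, -, h1, h2, ⟨u, hu, h3⟩, ⟨v, hv, h4⟩, h5⟩ := hp
  exact hg h.lk.dm (fun hf => rel_y h h1 hf) (fun hf => rel_b h h2 hf)
    ⟨u, hu, h.lk.inU h3 h.lk.y.c0 h.inY⟩ ⟨v, hv, h.lk.inV h4 h.lk.b.c0 h.inB⟩
    (h.lk.inK h5 h.inK)

/-! ### The potentials -/

/-- `p` is at most `q`. -/
def pyLe (p q : Py) : Bool :=
  (p.dF == q.dF) && ((p.dH == q.dH) && (Nat.ble p.F q.F && (Nat.ble p.H q.H && (Nat.ble p.G q.G &&
    (Nat.ble p.L q.L && (Nat.ble p.R q.R && (Nat.ble p.T q.T && (Nat.ble p.t q.t &&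
    (Nat.ble p.U q.U && (Nat.ble p.u q.u && (Nat.ble p.P q.P && (Nat.ble p.p q.p &&
    (Nat.ble p.Q q.Q && (Nat.ble p.q q.q && ((!p.reB || q.reB) && (Nat.ble p.re q.re &&
    ((!p.rzB || q.rzB) && (Nat.ble p.rz q.rz && (Nat.ble q.rzi p.rzi &&
      Nat.ble p.ow q.ow)))))))))))))))))))

theorem pyLe_ok {p q : Py} (h : pyLe p q = true) {S : Bool} {x : Nt} {z1 : ℝ}
    (hp : PyOK p S x z1) : PyOK q S x z1 := by
  unfold pyLe at h
  simp only [Bool.and_eq_true, beq_iff_eq, Nat.ble_eq, Bool.or_eq_true, Bool.not_eq_true'] at h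
  obtain ⟨c1, c2, c3, c4, c5, c6, c7, c8, c9, c10, c11, c12, c13, c14, c15, c16, c17, c18, c19,
    c20, c21⟩ := h
  have hl : ∀ pc : Pc, pc ∈ frL → (p.lit pc : ℝ) ≤ (q.lit pc : ℝ) ∧ p.fl pc = q.fl pc := by
    intro pc hpc
    have key : p.lit pc ≤ q.lit pc ∧ p.fl pc = q.fl pc := by
      simp only [frL, List.mem_cons, List.not_mem_nil, or_false] at hpc
      rcases hpc with rfl | rfl | rfl | rfl | rfl | rfl | rfl | rfl | rfl | rfl | rfl | rfl | rfl |
        rfl | rfl <;> exact ⟨by assumption, by first | assumption | rfl⟩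
    exact ⟨by exact_mod_cast key.1, key.2⟩
  refine ⟨fun pc hpc => ?_, fun pc hpc => ?_, hp.od, fun pc hpc => ?_, fun a b => ?_, fun a => ?_⟩
  · rw [← (hl pc hpc).2]
    exact hp.d pc hpc
  · exact (hp.h pc hpc).trans (hl pc hpc).1
  · exact (hp.oh pc hpc).trans (by exact_mod_cast c21)
  · rcases c16 with h | h
    · exact absurd (hp.reB a b) (by rw [h]; simp)
    · exact h
  · obtain ⟨d1, d2⟩ := hp.rzB a
    refine ⟨?_, le_trans (by exact_mod_cast c20) d2⟩
    rcases c18 with h | h
    · exact absurd d1 (by rw [h]; simp)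
    · exact h

/-- The first position of the contour. -/
def jT (ty tb : Bool) (x w : Vt) : ℕ :=
  bif ty && (tb && !(decide (x = ⟨3, true, none⟩) && decide (w = ⟨3, true, none⟩))) then 5 else 4

theorem z1T_jT : 40 * z1T ty tb x w = 20 - (jT ty tb x w : ℝ) := by
  unfold z1T jT
  by_cases h : ty = true ∧ tb = true ∧ ¬(x = ⟨3, true, none⟩ ∧ w = ⟨3, true, none⟩)
  · rw [if_pos h]
    obtain ⟨h1, h2, h3⟩ := h
    have e : (decide (x = ⟨3, true, none⟩) && decide (w = ⟨3, true, none⟩)) = false := by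
      cases e : (decide (x = ⟨3, true, none⟩) && decide (w = ⟨3, true, none⟩))
      · rfl
      · simp only [Bool.and_eq_true, decide_eq_true_eq] at e
        exact absurd e h3
    rw [h1, h2, e]
    norm_num
  · rw [if_neg h]
    have e : (ty && (tb && !(decide (x = ⟨3, true, none⟩) && decide (w = ⟨3, true, none⟩)))) =
        false := by
      cases e : (ty && (tb && !(decide (x = ⟨3, true, none⟩) && decide (w = ⟨3, true, none⟩))))
      · rfl
      · simp only [Bool.and_eq_true, Bool.not_eq_true', Bool.and_eq_false_iff,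
          decide_eq_false_iff_not] at e
        exact absurd ⟨e.1, e.2.1, fun k => e.2.2.elim (fun q => q k.1) (fun q => q k.2)⟩ h
    rw [e]
    norm_num

/-- The potentials of the group are right. -/
def pairR (g : GD) (ty tb : Bool) (x w : Vt) : Bool :=
  Nat.beq g.J1 (jT ty tb x w) && (pyLe (pyT ty (ntV x)) g.py && (pyLe (pyT tb (ntV w)) g.pb &&
    ((!(g.py.dF || g.py.dH) || f3 g.k1) && (!(g.pb.dF || g.pb.dH) || f3 g.k2))))

theorem py_zN {S : Bool} {x : Vt} (hx : x.ok = true) {q : Py} (h : pyLe (pyT S (ntV x)) q = true) :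
    PyOK q S (ntV x) (zN S (ntV x)) := by
  have h2 : 2 ≤ x.a := by
    unfold E.Vt.ok at hx
    simp only [Bool.and_eq_true, Nat.ble_eq] at hx
    exact hx.1
  refine pyLe_ok h (pyT_ok (le_min h2 (by norm_num)) (min_le_right _ _) ?_)
  unfold zN
  split
  · next h3 => exact Or.inr ⟨h3.1, h3.2, le_refl _⟩
  · exact Or.inl (le_refl _)

/-- **The rows of a node.** -/
theorem rows_pair {g : GD} (hg : g.Ok) (hp : pairG T g ty tb x w = true)
    (hr : pairR g ty tb x w = true) (h : N3c T ty tb x w cy cb p r z) :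
    (∃ (fy fb : Bool) (o : OutB), OutB.In fy fb o (oLy (cP p) (cP r)) (oLb (cP p) (cP r))
      (oY (cP p) (cP r)) (oZ (cP p) (cP r)) (oB (cP p) (cP r)) (oHy (cP p) (cP r))
      (oHb (cP p) (cP r)) ∧ loO ty tb o = true) ∧
    RwU (z1T ty tb x w) (zz3 p r z) (slN ty x (zN ty (ntV x)) cy p z)
      (slN tb w (zN tb (ntV w)) cb r z) ∧
    RwP (z1T ty tb x w) (zz3 p r z) (slN ty x (zN ty (ntV x)) cy p z)
      (slN tb w (zN tb (ntV w)) cb r z) ∧
    RwN (z1T ty tb x w) (zz3 p r z) (slN ty x (zN ty (ntV x)) cy p z)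
      (slN tb w (zN tb (ntV w)) cb r z) := by
  obtain ⟨o, ho, hi⟩ := pairG_ok hg hp h
  unfold pairG at hp
  simp only [Bool.and_eq_true, beq_iff_eq] at hp
  obtain ⟨e1, e2, -⟩ := hp
  unfold pairR at hr
  simp only [Bool.and_eq_true] at hr
  obtain ⟨r1, r2, r3, r4, r5⟩ := hr
  obtain ⟨⟨bp, h1⟩, h2⟩ := ho
  rw [e1, e2] at h2
  have hP := h.pr
  unfold prT at hP
  simp only [Bool.and_eq_true] at hP
  have k1 : PyOK g.py ty (ntV x) (zN ty (ntV x)) := py_zN hP.1 r2
  have k2 : PyOK g.pb tb (ntV w) (zN tb (ntV w)) := py_zN hP.2.1 r3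
  have hj := Nat.eq_of_beq_eq_true r1
  have h3 : l3z (slN ty x (zN ty (ntV x)) cy p z).ys (zz3 p r z)
    (slN tb w (zN tb (ntV w)) cb r z).ys = 0 := h.lk.slz
  have h4 : (slN ty x (zN ty (ntV x)) cy p z).lam =
    l3y (slN ty x (zN ty (ntV x)) cy p z).ys (zz3 p r z) := h.lk.sly
  have h5 : (slN tb w (zN tb (ntV w)) cb r z).lam =
    l3b (zz3 p r z) (slN tb w (zN tb (ntV w)) cb r z).ys := h.lk.slb
  have h6 : OutB.In (f3 g.k1) (f3 g.k2) o (slN ty x (zN ty (ntV x)) cy p z).lam
    (slN tb w (zN tb (ntV w)) cb r z).lam (slN ty x (zN ty (ntV x)) cy p z).ys (zz3 p r z)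
    (slN tb w (zN tb (ntV w)) cb r z).ys (hh (1 / 2 - (slN ty x (zN ty (ntV x)) cy p z).ys))
    (hh (1 / 2 - (slN tb w (zN tb (ntV w)) cb r z).ys)) := h.lk.inB hi
  have h7 : 40 * z1T ty tb x w = 20 - (g.J1 : ℝ) := by
    rw [hj]
    exact z1T_jT
  have d1 : (g.py.dF || g.py.dH) = true → f3 g.k1 = true := fun e => by
    rw [e] at r4
    simpa using r4
  have d2 : (g.pb.dF || g.pb.dH) = true → f3 g.k2 = true := fun e => by
    rw [e] at r5
    simpa using r5
  have M := rows3_sound (sy := slN ty x (zN ty (ntV x)) cy p z)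
    (sb := slN tb w (zN tb (ntV w)) cb r z) h1 k1 k2 h6 d1 d2 h3 h4 h5 rfl rfl h7
  exact ⟨⟨_, _, o, hi, h2⟩, M.1, M.2.1, M.2.2⟩

end Pool.Agent.S5.K3
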