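import Pool.Agent.S5.K3.GoE

/-!
# The additional form of a neighbour which is an end with two or three half twists
-/

set_option autoImplicit false

namespace Pool.Agent.S5.K3

open Complex Pool.Agent.S5.Num
open Pool.Agent.H63.VC3 hiding KK
open Pool.Agent.S3 hiding UU

/-- The form for an end with two half twists: `K = 2 X + c`, `W` contains `c`. -/
def knC (W : Rc) : Kn := fun _ n k => k 4224 4096 W n

theorem knC_ok {W : Rc} {c : ℂ} (h : W.In c) (f : Bool) :
    KnOK f (knC W) (fun K X => K = 2 * X + c) := by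
  intro U n k hk
  refine ⟨_, _, _, _, hk, fun _ {K X} hQ _ => ?_⟩
  have e : tK 4224 4096 K X = c := by
    unfold tK
    rw [hQ]
    have : z4 4224 4096 4096 4096 = 128 := by
      unfold z4
      push_cast
      norm_num
    rw [this]
    ring
  rw [e]
  exact h

/-- The check for an end with three half twists. -/
def ck3 (c1 c2 : Nat) (U : Rc) (D x s : Nat) (a : At) (y g sr si : Nat) (W : Rc) : Bool :=
  cond (Nat.ble 67108865 U.re.lo) (cond (Nat.ble 1 s) (cond (Nat.ble s D)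
  (cond (Nat.ble (Nat.mul 2 x) (Nat.mul 3 D))
  (cond (Nat.ble sr 8192) (cond (Nat.ble si 8192)
  (cond (ckN y a) (cond (ckV x D 0 s D a)
  (fN (fun m => fN (fun m' =>
    cond (fN (fun d => fN (fun e => Nat.ble (Nat.mul 10000000000000000 (Nat.add (Nat.mul d d)
        (Nat.mul e e))) (fN (fun Y => Nat.mul Y Y) (Nat.mul 16084954 y)))
        (Nat.add (ds' (Nat.add (Nat.mul 16 (Nat.add U.im.lo U.im.hi)) m') 2147483648)
          (Nat.add 2 (Nat.mul 16 (Nat.sub U.im.hi U.im.lo)))))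
        (Nat.add (ds' (Nat.mul 16 (Nat.add U.re.lo U.re.hi)) (Nat.add 2147483648 m))
          (Nat.add 2 (Nat.mul 16 (Nat.sub U.re.hi U.re.lo)))))
    (cond (fN (fun p => fN (fun q => Nat.ble (Nat.add (Nat.mul p p) (Nat.mul q q))
        (fN (fun G => Nat.mul G G) (Nat.mul 262144 g)))
        (Nat.add 16384 (ds' (Nat.add (Nat.mul 52707179 si) (Nat.mul 64 a.c)) 490766512128)))
        (Nat.add 16384 (ds' (Nat.add 222635124096 (Nat.mul 64 a.d))
          (Nat.add (Nat.mul 52707179 sr) 274877906944))))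
    (fN (fun r => cond (cond
      (Nat.ble (Nat.add (Nat.add (Nat.mul 2048 W.re.lo) r) (Nat.add (Nat.mul sr m)
        (Nat.add (Nat.mul si m') 549755813888)))
        (Nat.add 137438953472 (Nat.add (Nat.add (Nat.mul 4224 m) (Nat.mul 4096 m'))
          (Nat.mul 128 a.l))))
      (Nat.ble (Nat.add (Nat.add 137438953472 r) (Nat.add (Nat.add (Nat.mul 4224 m)
        (Nat.mul 4096 m')) (Nat.mul 128 a.l)))
        (Nat.add (Nat.mul 2048 W.re.hi) (Nat.add (Nat.mul sr m)
        (Nat.add (Nat.mul si m') 549755813888)))) false)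
      (cond (Nat.ble (Nat.add (Nat.add (Nat.mul 2048 W.im.lo) r) (Nat.add (Nat.add (Nat.mul si m) c2)
        (Nat.add (Nat.mul 4224 m') 549755813888)))
        (Nat.add 137438953472 (Nat.add (Nat.add (Nat.mul 4096 m) (Nat.mul sr m'))
          (Nat.add (Nat.mul 128 a.t) c1))))
      (Nat.ble (Nat.add (Nat.add 137438953472 r) (Nat.add (Nat.add (Nat.mul 4096 m)
        (Nat.mul sr m')) (Nat.add (Nat.mul 128 a.t) c1)))
        (Nat.add (Nat.mul 2048 W.im.hi) (Nat.add (Nat.add (Nat.mul si m) c2)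
        (Nat.add (Nat.mul 4224 m') 549755813888)))) false) false)
      (Nat.add (Nat.add (Nat.div (Nat.mul g y) 1250) (Nat.mul 128 a.T))
        (Nat.add 512 (Nat.mul 2 (Nat.add (ds' sr 4224) (ds' si 4096))))))
    false) false)
    (Nat.div (Nat.mul 884279719003555 (Nat.sub (Nat.mul 3 D) (Nat.mul 2 x)))
      (Nat.mul 16777216 D)))
    (Nat.div (Nat.mul 884279719003555 s) (Nat.mul 8388608 D)))
  false) false) false) false) false) false) false) false

/-- The form for an end with three half twists, 18 fields: `D`, `x`, `s`, the data of the point,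
`y`, `g`, `sr`, `si`, the rectangle. -/
def kn3 (c1 c2 : Nat) : Kn := fun U n k =>
  cut 720 n (fun h r => fN (fun D => fN (fun x => fN (fun s => rdAt h 120 (fun a =>
    fN (fun y => fN (fun g => fN (fun sr => fN (fun si => rdRc h 560 (fun W =>
      cond (ck3 c1 c2 U D x s a y g sr si W) (k sr si W r) false))
    (fld h 520)) (fld h 480)) (fld h 440)) (fld h 400)))
    (fld h 80)) (fld h 40)) (fld h 0))

/-- The relation for an end with three half twists. -/
def Q3 (c : ℝ) (K X : ℂ) : Prop := K = 2 * X + he (1 / 2 - I * X / Real.pi) + c * Real.pi * I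

private theorem end3_bm {P t m : ℝ} (hP1 : -1 ≤ P - 884279719003555) (hP2 : P - 884279719003555 ≤ 1)
    (t0 : 0 ≤ t) (t1 : t ≤ 1) (d1 : 884279719003555 * t - 1 ≤ m) (d2 : m ≤ 884279719003555 * t) :
    -2 ≤ P * t - m ∧ P * t - m ≤ 2 := by
  have a1 : -1 * t ≤ (P - 884279719003555) * t := mul_le_mul_of_nonneg_right hP1 t0
  have a2 : (P - 884279719003555) * t ≤ 1 * t := mul_le_mul_of_nonneg_right hP2 t0
  rw [sub_mul] at a1 a2
  constructor <;> linarith only [a1, a2, t0, t1, d1, d2]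

theorem ck3_sound {c1 c2 : ℕ} {c : ℝ} (hc : |2147483648 * (c * Real.pi) - ((c1 : ℝ) - c2)| ≤ 1)
    {U : Rc} {D x s : ℕ} {a : At} {y g sr si : ℕ} {W : Rc}
    (h : ck3 c1 c2 U D x s a y g sr si W = true) {K X : ℂ} (hQ : Q3 c K X) (hX : U.In X) :
    W.In (tK sr si K X) := by
  unfold ck3 at h
  simp only [fN_eq, cond_true_iff] at h
  obtain ⟨h1, h2, h3, h4, h5, h6, h7, h8, h9, h10, ⟨h11, h12⟩, ⟨h13, h14⟩⟩ := h
  have h1 := Nat.ble_eq.mp h1
  have h2 := Nat.ble_eq.mp h2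
  have h3 := Nat.ble_eq.mp h3
  have h4 : 2 * x ≤ 3 * D := Nat.ble_eq.mp h4
  have h5 := Nat.ble_eq.mp h5
  have h6 := Nat.ble_eq.mp h6
  have hπ := Real.pi_pos
  have p1 := Real.pi_gt_d20
  have p2 := Real.pi_lt_d20
  have hv := ckV_sound h8
  obtain ⟨η, hη⟩ : ∃ η : ℝ, η = (y : ℝ) / 655360000 := ⟨_, rfl⟩
  have hn := ckN_sound (η := η) (by rw [hη]; ring) hv h7
  have D1 : 1 ≤ D := h2.trans h3
  have D0 : (0 : ℝ) < D := by exact_mod_cast D1
  have s0 : (1 : ℝ) ≤ s := by exact_mod_cast h2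
  have sD : (s : ℝ) ≤ D := by exact_mod_cast h3
  have x3 : 2 * (x : ℝ) ≤ 3 * D := by exact_mod_cast h4
  have x0 : (0 : ℝ) ≤ x := Nat.cast_nonneg _
  obtain ⟨w0, hw0⟩ : ∃ w : ℂ, w = ptw x D 0 s D := ⟨_, rfl⟩
  rw [← hw0] at hv hn
  have w0re : w0.re = ((x : ℝ) - D) / D := by rw [hw0, ptw, pt_re]
  have w0im : w0.im = -(s : ℝ) / D := by
    rw [hw0, ptw, pt_im]
    push_cast
    ring
  obtain ⟨X0, hX0⟩ : ∃ z : ℂ, z = I * Real.pi * (w0 - 1 / 2) := ⟨_, rfl⟩
  have X0re : X0.re = Real.pi * s / D := by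
    rw [hX0]
    have : I * Real.pi * (w0 - 1 / 2) = (Real.pi : ℂ) * (I * (w0 - 1 / 2)) := by ring
    rw [this, re_ofReal_mul, mul_re, I_re, I_im, sub_im, w0im]
    norm_num
    ring
  have X0im : X0.im = -(Real.pi * (3 * D - 2 * x) / (2 * D)) := by
    rw [hX0]
    have : I * Real.pi * (w0 - 1 / 2) = (Real.pi : ℂ) * (I * (w0 - 1 / 2)) := by ring
    rw [this, im_ofReal_mul, mul_im, I_re, I_im, sub_re, w0re]
    norm_num
    field_simp
    ring
  have dm := div_bounds (884279719003555 * s) (m := 8388608 * D) (by omega)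
  have dm' := div_bounds (884279719003555 * (3 * D - 2 * x)) (m := 16777216 * D) (by omega)
  simp only [mul_eq', div_eq', sub_eq', add_eq'] at h9 h10 h11 h12 h13 h14
  obtain ⟨m, hm⟩ : ∃ m : ℕ, m = 884279719003555 * s / (8388608 * D) := ⟨_, rfl⟩
  obtain ⟨m', hm'⟩ : ∃ m : ℕ, m = 884279719003555 * (3 * D - 2 * x) / (16777216 * D) := ⟨_, rfl⟩
  rw [← hm] at dm h9 h11 h12 h13 h14
  rw [← hm'] at dm' h9 h11 h12 h13 h14
  push_cast [Nat.cast_sub h4] at dm dm'
  have pU := abs_le.1 pi_U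
  unfold UU at pU
  have bm : |33554432 * X0.re - m| ≤ 2 := by
    have e1 : 33554432 * X0.re = (281474976710656 * Real.pi) * (s / (8388608 * D)) := by
      rw [X0re]
      field_simp
      ring
    have e2 : 884279719003555 * (s : ℝ) / (8388608 * D) = 884279719003555 * (s / (8388608 * D)) := by
      ring
    have e3 : (s : ℝ) / (8388608 * D) ≤ 1 := by
      rw [div_le_one (by positivity)]
      linarith only [sD, D0]
    have e4 : 0 ≤ (s : ℝ) / (8388608 * D) := by positivity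
    rw [e2] at dm
    rw [e1, abs_le]
    exact end3_bm pU.1 pU.2 e4 e3 dm.1 dm.2
  have bm' : |33554432 * X0.im + m'| ≤ 2 := by
    have e1 : 33554432 * X0.im = -((281474976710656 * Real.pi) * ((3 * D - 2 * x) / (16777216 * D))) := by
      rw [X0im]
      field_simp
      ring
    have e2 : 884279719003555 * (3 * (D : ℝ) - 2 * x) / (16777216 * D) =
        884279719003555 * ((3 * D - 2 * x) / (16777216 * D)) := by
      ring
    have e3 : (3 * (D : ℝ) - 2 * x) / (16777216 * D) ≤ 1 := by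
      rw [div_le_one (by positivity)]
      linarith only []
    have e4 : 0 ≤ (3 * (D : ℝ) - 2 * x) / (16777216 * D) := by
      apply div_nonneg <;> linarith
    rw [e2] at dm'
    rw [e1, abs_le]
    have q := end3_bm pU.1 pU.2 e4 e3 dm'.1 dm'.2
    constructor <;> linarith only [q.1, q.2]
  obtain ⟨dX, hdX⟩ : ∃ z : ℂ, z = X - X0 := ⟨_, rfl⟩
  obtain ⟨⟨q1, q2⟩, ⟨q3, q4⟩⟩ := hX
  have l1 : U.re.lo ≤ U.re.hi := by
    have : (U.re.lo : ℝ) ≤ U.re.hi := by linarith only [q2, q1]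
    exact_mod_cast this
  have l2 : U.im.lo ≤ U.im.hi := by
    have : (U.im.lo : ℝ) ≤ U.im.hi := by linarith only [q4, q3]
    exact_mod_cast this
  have bm := abs_le.1 bm
  have bm' := abs_le.1 bm'
  obtain ⟨dd, hdd⟩ : ∃ d : ℕ, d = ds' (16 * (U.re.lo + U.re.hi)) (2147483648 + m) +
    (2 + 16 * (U.re.hi - U.re.lo)) := ⟨_, rfl⟩
  obtain ⟨ee, hee⟩ : ∃ d : ℕ, d = ds' (16 * (U.im.lo + U.im.hi) + m') 2147483648 +
    (2 + 16 * (U.im.hi - U.im.lo)) := ⟨_, rfl⟩
  rw [← hdd, ← hee] at h9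
  have hdd' : (dd : ℝ) = |16 * ((U.re.lo : ℝ) + U.re.hi) - (2147483648 + m)| +
      (2 + 16 * (U.re.hi - U.re.lo)) := by
    rw [hdd, Nat.cast_add, ds'_cast]
    push_cast [Nat.cast_sub l1]
    ring
  have hee' : (ee : ℝ) = |16 * ((U.im.lo : ℝ) + U.im.hi) + m' - 2147483648| +
      (2 + 16 * (U.im.hi - U.im.lo)) := by
    rw [hee, Nat.cast_add, ds'_cast]
    push_cast [Nat.cast_sub l2]
    ring
  have b1 : (33554432 * dX.re) ^ 2 ≤ (dd : ℝ) ^ 2 := by
    have a1 := neg_abs_le (16 * ((U.re.lo : ℝ) + U.re.hi) - (2147483648 + m))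
    have a2 := le_abs_self (16 * ((U.re.lo : ℝ) + U.re.hi) - (2147483648 + m))
    rw [hdX, sub_re, hdd']
    apply sq_le_sq' <;> linarith
  have b2 : (33554432 * dX.im) ^ 2 ≤ (ee : ℝ) ^ 2 := by
    have a1 := neg_abs_le (16 * ((U.im.lo : ℝ) + U.im.hi) + m' - 2147483648)
    have a2 := le_abs_self (16 * ((U.im.lo : ℝ) + U.im.hi) + m' - 2147483648)
    rw [hdX, sub_im, hee']
    apply sq_le_sq' <;> linarith
  have y0 : (0 : ℝ) ≤ y := Nat.cast_nonneg _
  have ndX : ‖dX‖ ≤ Real.pi * η := by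
    apply norm_le_of _ (by rw [hη]; positivity)
    have k1 : 10000000000000000 * ((dd : ℝ) * dd + ee * ee) ≤ (16084954 * y) * (16084954 * y) := by
      exact_mod_cast Nat.ble_eq.mp h9
    have k2 : 16084954 / 100000000 * (y : ℝ) ≤ 33554432 * (Real.pi * η) := by
      rw [hη]
      have q : 314159265 / 100000000 * (y : ℝ) ≤ Real.pi * y :=
        mul_le_mul_of_nonneg_right (by linarith only [p1]) y0
      linarith only [q, y0]
    have k3 : (16084954 / 100000000 * (y : ℝ)) ^ 2 ≤ (33554432 * (Real.pi * η)) ^ 2 :=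
      pow_le_pow_left₀ (by positivity) k2 2
    linarith only [k3, k1, b2, b1]
  obtain ⟨w, hw⟩ : ∃ z : ℂ, z = 1 / 2 - I * X / Real.pi := ⟨_, rfl⟩
  have hπc : (Real.pi : ℂ) ≠ 0 := ofReal_ne_zero.2 hπ.ne'
  have hδ : w - w0 = -(I * dX) / Real.pi := by
    rw [hw, hdX, hX0]
    field_simp
    linear_combination (-(w0 * 2) + 1) * (Real.pi : ℂ) * I_sq
  have nδ : Real.pi * ‖w - w0‖ ≤ Real.pi * η := by
    rw [hδ, norm_div, norm_neg, norm_mul, norm_I, one_mul, norm_real, Real.norm_of_nonneg hπ.le,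
      mul_div_cancel₀ _ hπ.ne']
    exact ndX
  have hwim : w.im < 0 := by
    have e : w.im = -(X.re / Real.pi) := by
      rw [hw, sub_im, div_ofReal_im, mul_im, I_re, I_im]
      norm_num
    have : 0 < X.re := by
      have h1' : (67108865 : ℝ) ≤ U.re.lo := by exact_mod_cast h1
      linarith only [h1', q1, p2, p1]
    rw [e]
    have := div_pos this hπ
    linarith only [this]
  have hw0im : w0.im < 0 := by
    rw [w0im]
    apply div_neg_of_neg_of_pos <;> linarith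
  have ht := he_tay (w := w0) (δ := w - w0) (σ := Real.pi * η) (q := qf a.n1 η)
    (by
      intro t t0 t1
      left
      have e : (w0 + t * (w - w0)).im = (1 - t) * w0.im + t * w.im := by
        rw [add_im, im_ofReal_mul, sub_im]
        ring
      rw [e]
      rcases eq_or_lt_of_le t0 with h | h
      · rw [← h]
        simp only [sub_zero, one_mul, zero_mul, add_zero]
        exact hw0im.ne
      · have k1 : (1 - t) * w0.im ≤ 0 := mul_nonpos_of_nonneg_of_nonpos (by linarith only [t1]) hw0im.le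
        have k2 : t * w.im < 0 := mul_neg_of_pos_of_neg h hwim
        exact (by linarith only [k2, k1] : (1 - t) * w0.im + t * w.im < 0).ne)
    nδ hn.σ hn.q0
    (by
      rw [mul_div_cancel_left₀ _ hπ.ne']
      unfold qf
      have k2 : 0 ≤ η := by rw [hη]; positivity
      have k3 := mul_le_mul_of_nonneg_right hn.n1 k2
      linarith only [k3])
  obtain ⟨rem, hrem⟩ : ∃ z : ℂ, z = he (w0 + (w - w0)) - he w0 - ct w0 * (w - w0) := ⟨_, rfl⟩
  rw [← hrem] at ht
  have nrem : 16777216 * ‖rem‖ + 3 ≤ a.T := by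
    have k0 : 0 ≤ ‖ct w0 ^ 2 + (Real.pi : ℂ) ^ 2‖ / qf a.n1 η := div_nonneg (norm_nonneg _) hn.q0.le
    have k1 : ‖w - w0‖ ^ 2 ≤ η ^ 2 :=
      pow_le_pow_left₀ (norm_nonneg _) (le_of_mul_le_mul_left nδ hπ) 2
    have k2 := hn.T
    have k3 := mul_le_mul_of_nonneg_left k1 k0
    have k4 : 0 ≤ (‖ct w0 ^ 2 + (Real.pi : ℂ) ^ 2‖ / qf a.n1 η) * ‖w - w0‖ ^ 2 :=
      mul_nonneg k0 (sq_nonneg _)
    linarith only [k4, k3, k2, ht]
  -- the number `G`
  obtain ⟨γ, hγ⟩ : ∃ z : ℂ, z = Real.pi * (2 - z4 sr 4096 si 4096 / 64) - I * ct w0 := ⟨_, rfl⟩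
  have hc' := abs_le.1 hv.c
  have hd' := abs_le.1 hv.d
  have sr0 : (0 : ℝ) ≤ sr := Nat.cast_nonneg _
  have si0 : (0 : ℝ) ≤ si := Nat.cast_nonneg _
  have sr1 : (sr : ℝ) ≤ 8192 := by exact_mod_cast h5
  have si1 : (si : ℝ) ≤ 8192 := by exact_mod_cast h6
  have π24 : |16777216 * Real.pi - 52707179| ≤ 1 / 2 := by
    rw [abs_le]
    constructor <;> linarith
  have f1 : |(16777216 * Real.pi - 52707179) * (4224 - sr)| ≤ 1 / 2 * 8192 := by
    rw [abs_mul]
    apply mul_le_mul π24 _ (abs_nonneg _) (by norm_num)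
    rw [abs_le]
    constructor <;> linarith
  have f2 : |(16777216 * Real.pi - 52707179) * (4096 - si)| ≤ 1 / 2 * 8192 := by
    rw [abs_mul]
    apply mul_le_mul π24 _ (abs_nonneg _) (by norm_num)
    rw [abs_le]
    constructor <;> linarith
  have f1 := abs_le.1 f1
  have f2 := abs_le.1 f2
  have z64 : (2 : ℂ) - z4 sr 4096 si 4096 / 64 = (((4224 - (sr : ℝ)) / 64 : ℝ) : ℂ) +
      (((4096 - (si : ℝ)) / 64 : ℝ) : ℂ) * I := by
    unfold z4
    push_cast
    ring
  have γre : γ.re = Real.pi * ((4224 - sr) / 64) + (ct w0).im := by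
    rw [hγ, z64, sub_re, re_ofReal_mul, pt_re, mul_re, I_re, I_im]
    ring
  have γim : γ.im = Real.pi * ((4096 - si) / 64) - (ct w0).re := by
    rw [hγ, z64, sub_im, im_ofReal_mul, pt_im, mul_im, I_re, I_im]
    ring
  have nγ : ‖γ‖ ≤ (g : ℝ) / 4096 := by
    apply norm_le_of _ (by positivity)
    have k1 := (Nat.cast_le (α := ℝ)).2 (Nat.ble_eq.mp h10)
    push_cast at k1
    rw [ds'_cast, ds'_cast] at k1
    push_cast at k1
    have k2 : (1073741824 * γ.re) ^ 2 ≤ (16384 + |222635124096 + 64 * (a.d : ℝ) -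
        (52707179 * sr + 274877906944)|) ^ 2 := by
      have a1 := neg_abs_le (222635124096 + 64 * (a.d : ℝ) - (52707179 * sr + 274877906944))
      have a2 := le_abs_self (222635124096 + 64 * (a.d : ℝ) - (52707179 * sr + 274877906944))
      rw [γre]
      apply sq_le_sq' <;> linarith
    have k3 : (1073741824 * γ.im) ^ 2 ≤ (16384 + |52707179 * (si : ℝ) + 64 * a.c -
        490766512128|) ^ 2 := by
      have a1 := neg_abs_le (52707179 * (si : ℝ) + 64 * a.c - 490766512128)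
      have a2 := le_abs_self (52707179 * (si : ℝ) + 64 * a.c - 490766512128)
      rw [γim]
      apply sq_le_sq' <;> linarith
    rw [div_pow, le_div_iff₀ (by norm_num)]
    linarith only [k3, k2, k1]
  obtain ⟨er, her⟩ : ∃ z : ℂ, z = γ * dX / Real.pi + rem := ⟨_, rfl⟩
  have ner : 2147483648 * ‖er‖ ≤ ((g * y / 1250 : ℕ) : ℝ) + 1 + 128 * (a.T - 3) := by
    have k1 : ‖γ * dX / Real.pi‖ ≤ (g : ℝ) / 4096 * η := by
      rw [norm_div, norm_mul, norm_real, Real.norm_of_nonneg hπ.le, div_le_iff₀ hπ]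
      calc ‖γ‖ * ‖dX‖ ≤ (g : ℝ) / 4096 * (Real.pi * η) :=
            mul_le_mul nγ ndX (norm_nonneg _) (by positivity)
        _ = (g : ℝ) / 4096 * η * Real.pi := by ring
    have k2 : ‖er‖ ≤ (g : ℝ) / 4096 * η + ‖rem‖ := by
      rw [her]
      exact (norm_add_le _ _).trans (add_le_add_left k1 _)
    have k3 := (div_bounds (g * y) (m := 1250) (by norm_num)).1
    push_cast at k3
    rw [hη] at k2
    have k4 : (g : ℝ) / 4096 * (y / 655360000) * 2147483648 = g * y / 1250 := by ring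
    linarith only [k3, k2, nrem]
  have main : tK sr si K X = (2 - z4 sr 4096 si 4096 / 64) * X0 + he w0 + c * Real.pi * I + er := by
    have e1 : he w = he w0 + ct w0 * (w - w0) + rem := by
      rw [hrem, add_sub_cancel]
      ring
    unfold tK
    have hQ' : K = 2 * X + he w + c * Real.pi * I := by rw [hw]; exact hQ
    rw [hQ', e1, hδ, her, hγ, hdX]
    field_simp
    ring
  have m1 := congrArg Complex.re main
  have m2 := congrArg Complex.im main
  have e1 : (c * Real.pi * I : ℂ) = ((c * Real.pi : ℝ) : ℂ) * I := by push_cast; ring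
  rw [z64, e1, add_re, add_re, add_re, re_ofReal_mul, I_re, mul_re, pt_re, pt_im] at m1
  rw [z64, e1, add_im, add_im, add_im, im_ofReal_mul, I_im, mul_im, pt_re, pt_im] at m2
  have r1 := abs_le.1 (abs_re_le_norm er)
  have r2 := abs_le.1 (abs_im_le_norm er)
  have hl := abs_le.1 hv.l
  have ht := abs_le.1 hv.t
  have hcc := abs_le.1 hc
  have hr : (((g * y / 1250 + 128 * a.T + (512 + 2 * (ds' sr 4224 + ds' si 4096)) : ℕ)) : ℝ) =
      ((g * y / 1250 : ℕ) : ℝ) + 128 * a.T + (512 + 2 * (|(sr : ℝ) - 4224| + |(si : ℝ) - 4096|)) := by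
    push_cast [ds'_cast]
    ring
  have n1 : |(4224 - (sr : ℝ)) * (33554432 * X0.re - m)| ≤ |(sr : ℝ) - 4224| * 2 := by
    rw [abs_mul, abs_sub_comm]
    exact mul_le_mul_of_nonneg_left (abs_le.2 bm) (abs_nonneg _)
  have n2 : |(4224 - (sr : ℝ)) * (33554432 * X0.im + m')| ≤ |(sr : ℝ) - 4224| * 2 := by
    rw [abs_mul, abs_sub_comm]
    exact mul_le_mul_of_nonneg_left (abs_le.2 bm') (abs_nonneg _)
  have n3 : |(4096 - (si : ℝ)) * (33554432 * X0.re - m)| ≤ |(si : ℝ) - 4096| * 2 := by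
    rw [abs_mul, abs_sub_comm]
    exact mul_le_mul_of_nonneg_left (abs_le.2 bm) (abs_nonneg _)
  have n4 : |(4096 - (si : ℝ)) * (33554432 * X0.im + m')| ≤ |(si : ℝ) - 4096| * 2 := by
    rw [abs_mul, abs_sub_comm]
    exact mul_le_mul_of_nonneg_left (abs_le.2 bm') (abs_nonneg _)
  have n1 := abs_le.1 n1
  have n2 := abs_le.1 n2
  have n3 := abs_le.1 n3
  have n4 := abs_le.1 n4
  have g11 := (Nat.cast_le (α := ℝ)).2 (Nat.ble_eq.mp h11)
  have g12 := (Nat.cast_le (α := ℝ)).2 (Nat.ble_eq.mp h12)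
  have g13 := (Nat.cast_le (α := ℝ)).2 (Nat.ble_eq.mp h13)
  have g14 := (Nat.cast_le (α := ℝ)).2 (Nat.ble_eq.mp h14)
  rw [Nat.cast_add, Nat.cast_add, hr] at g11 g13
  rw [Nat.cast_add, Nat.cast_add 137438953472, hr] at g12 g14
  push_cast at g11 g12 g13 g14
  clear h1 h2 h3 h4 h5 h6 h7 h8 h9 h10 h11 h12 h13 h14 hn b1 b2 hdd' hee' bm bm' f1 f2 q1 q2 q3 q4
    dm dm' pU p1 p2 π24 ndX nδ nrem nγ
  refine ⟨⟨?_, ?_⟩, ⟨?_, ?_⟩⟩
  · rw [m1]
    linarith only [g11, n4.2, n1.1, hl.1, r1.1, ner]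
  · rw [m1]
    linarith only [g12, n4.1, n1.2, hl.2, r1.2, ner]
  · rw [m2]
    linarith only [g13, n3.1, n2.1, hcc.1, ht.1, r2.1, ner]
  · rw [m2]
    linarith only [g14, n3.2, n2.2, hcc.2, ht.2, r2.2, ner]

/-- Soundness of `kn3`. -/
theorem kn3_ok {c1 c2 : ℕ} {c : ℝ} (hc : |2147483648 * (c * Real.pi) - ((c1 : ℝ) - c2)| ≤ 1)
    (f : Bool) : KnOK f (kn3 c1 c2) (Q3 c) := by
  intro U n k hk
  unfold kn3 at hk
  obtain ⟨h, r, hk⟩ := cut_true hk
  simp only [fN_eq] at hk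
  obtain ⟨a, hk⟩ := rdAt_true hk
  obtain ⟨W, hk⟩ := rdRc_true hk
  rw [cond_true_iff] at hk
  exact ⟨_, _, _, _, hk.2, fun _ {K X} hQ hX => ck3_sound hc hk.1 hQ hX⟩

/-- `A` edge. -/
theorem kn3_A (f : Bool) : KnOK f (kn3 6746518852 0) (Q3 1) := by
  apply kn3_ok
  have p1 := Real.pi_gt_d20
  have p2 := Real.pi_lt_d20
  rw [abs_le]
  push_cast
  constructor <;> linarith

/-- `S` edge. -/
theorem kn3_S (f : Bool) : KnOK f (kn3 13493037705 0) (Q3 2) := by
  apply kn3_ok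
  have p1 := Real.pi_gt_d20
  have p2 := Real.pi_lt_d20
  rw [abs_le]
  push_cast
  constructor <;> linarith

end Pool.Agent.S5.K3
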