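import Pool.Agent.S5.K3.Cls

/-!
# Groups for the flats: parts of a group
-/

set_option autoImplicit false

namespace Pool.Agent.S5.K3

open Pool.Agent.S5.Num Pool.Agent.S5.G3

/-- What is proved for a part of a group. -/
def FD.Bx (f : FD) (a0 a1 a2 a3 a4 a5 a6 a7 : ℕ) : Prop :=
  BxF (fun o => Y3.fl3 f.n f.f4 f.kb o = true) (f3 f.g.k1) (f3 f.g.k2) f.g.W (fk f.g.k1) (fk f.g.k2)
    (Qk f.g.k1) (Qk f.g.k2) f.g.L1 f.g.L2 ⟨⟨a0, a1⟩, ⟨a2, a3⟩⟩ ⟨⟨a4, a5⟩, ⟨a6, a7⟩⟩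

/-- The check of a part of a group. -/
def FD.chkB (f : FD) (n a0 a1 a2 a3 a4 a5 a6 a7 : ℕ) : Bool :=
  goFC (chkF f.n f.f4 f.kb) (fk (Nat.add f.g.k1 f.g.k2)) (f3 f.g.k1) (f3 f.g.k2) f.g.W
    (fk f.g.k1) (fk f.g.k2) (knk f.g.k1) (knk f.g.k2) f.g.L1 f.g.L2 n a0 a1 a2 a3 a4 a5 a6 a7

theorem FD.chkB_sound {f : FD} {n a0 a1 a2 a3 a4 a5 a6 a7 : ℕ}
    (h : f.chkB n a0 a1 a2 a3 a4 a5 a6 a7 = true) : f.Bx a0 a1 a2 a3 a4 a5 a6 a7 := by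
  unfold FD.chkB goFC at h
  obtain ⟨c, r, h⟩ := cut_true h
  obtain ⟨b, h⟩ := rdBs_true h
  rw [cond_true_iff] at h
  obtain ⟨h3, h4⟩ := h
  exact (goF_sound (el := fk (Nat.add f.g.k1 f.g.k2)) (fun o m k hc => by
    have hc' := cond_tt hc
    exact ⟨hc'.1, m, hc'.2⟩) (knk_ok _) (knk_ok _) _ _ _ _ _ _ _ _ _ _ _ _ (ckB_sound h3) h4).1

variable {f : FD} {a0 a1 a2 a3 a4 a5 a6 a7 : ℕ}

theorem FD.s0 (m : ℕ) (h1 : f.Bx a0 m a2 a3 a4 a5 a6 a7) (h2 : f.Bx m a1 a2 a3 a4 a5 a6 a7) :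
    f.Bx a0 a1 a2 a3 a4 a5 a6 a7 := by
  intro P R hd q1 q2 l1 l2 hU hV hW
  rcases Iv.split m hU.1 with h | h
  · exact h1 hd q1 q2 l1 l2 ⟨h, hU.2⟩ hV hW
  · exact h2 hd q1 q2 l1 l2 ⟨h, hU.2⟩ hV hW

theorem FD.s1 (m : ℕ) (h1 : f.Bx a0 a1 a2 m a4 a5 a6 a7) (h2 : f.Bx a0 a1 m a3 a4 a5 a6 a7) :
    f.Bx a0 a1 a2 a3 a4 a5 a6 a7 := by
  intro P R hd q1 q2 l1 l2 hU hV hW
  rcases Iv.split m hU.2 with h | h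
  · exact h1 hd q1 q2 l1 l2 ⟨hU.1, h⟩ hV hW
  · exact h2 hd q1 q2 l1 l2 ⟨hU.1, h⟩ hV hW

theorem FD.s2 (m : ℕ) (h1 : f.Bx a0 a1 a2 a3 a4 m a6 a7) (h2 : f.Bx a0 a1 a2 a3 m a5 a6 a7) :
    f.Bx a0 a1 a2 a3 a4 a5 a6 a7 := by
  intro P R hd q1 q2 l1 l2 hU hV hW
  rcases Iv.split m hV.1 with h | h
  · exact h1 hd q1 q2 l1 l2 hU ⟨h, hV.2⟩ hW
  · exact h2 hd q1 q2 l1 l2 hU ⟨h, hV.2⟩ hW

theorem FD.s3 (m : ℕ) (h1 : f.Bx a0 a1 a2 a3 a4 a5 a6 m) (h2 : f.Bx a0 a1 a2 a3 a4 a5 m a7) :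
    f.Bx a0 a1 a2 a3 a4 a5 a6 a7 := by
  intro P R hd q1 q2 l1 l2 hU hV hW
  rcases Iv.split m hV.2 with h | h
  · exact h1 hd q1 q2 l1 l2 hU ⟨hV.1, h⟩ hW
  · exact h2 hd q1 q2 l1 l2 hU ⟨hV.1, h⟩ hW

/-- A group from its parts. -/
theorem FD.ok_of (h : f.Bx a0 a1 a2 a3 a4 a5 a6 a7) (h1 : hul a0 a1 a2 a3 f.g.L1 = true)
    (h2 : hul a4 a5 a6 a7 f.g.L2 = true) : f.Ok := by
  intro P R hd q1 q2 l1 l2 hW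
  exact h hd q1 q2 l1 l2 (hul_sound h1 l1) (hul_sound h2 l2) hW

end Pool.Agent.S5.K3
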