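import Pool.Agent.S5.K3.CkS

/-!
# The forms at a base
-/

set_option autoImplicit false

namespace Pool.Agent.S5.K3

open Complex Pool.Agent.S5.Num
open Pool.Agent.H63.VC3 hiding KK
open Pool.Agent.S3 hiding UU

/-- A complex number from four natural numbers. -/
noncomputable def z4 (a b c d : ℕ) : ℂ := (((a : ℝ) - b : ℝ) : ℂ) + (((c : ℝ) - d : ℝ) : ℂ) * I

theorem z4_re (a b c d : ℕ) : (z4 a b c d).re = (a : ℝ) - b := pt_re _ _
theorem z4_im (a b c d : ℕ) : (z4 a b c d).im = (c : ℝ) - d := pt_im _ _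

/-- A form at a base. -/
structure FmOK (b : Bs) (n : Fin 8 → ℂ) (F : Fm) : Prop where
  v : 33554432 * ∑ k, n k * (b.A k).H = z4 F.v1 F.v2 F.u1 F.u2
  p : 100663296 * ∑ k, n k * (b.A k).C * da k = z4 F.p1 F.p2 F.q1 F.q2
  r : 100663296 * ∑ k, n k * (b.A k).C * db k = z4 F.r1 F.r2 F.s1 F.s2
  e0 : 4096 * n 0 = ((F.e0 : ℝ) - 65536 : ℝ)
  e1 : 4096 * n 1 = ((F.e1 : ℝ) - 65536 : ℝ)
  e2 : 4096 * n 2 = (131072 - (F.e2 : ℝ) : ℝ)
  e3 : 4096 * n 3 = ((F.e3 : ℝ) - 131072 : ℝ)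
  tl : 2 * (‖n 4‖ * b.a4.T + ‖n 5‖ * b.a5.T + ‖n 6‖ * b.a6.T + ‖n 7‖ * b.a7.T) = F.tl

theorem fLy_ok (b : Bs) : FmOK b nLy (fLy b) := by
  constructor
  · simp [Fin.sum_univ_eight, nLy, fLy, z4, Bs.A, At.H]
    ring
  · simp [Fin.sum_univ_eight, nLy, fLy, z4, Bs.A, At.C, da]
    ring
  · simp [Fin.sum_univ_eight, nLy, fLy, z4, Bs.A, At.C, db]
    ring
  · simp [nLy, fLy] <;> norm_num
  · simp [nLy, fLy] <;> norm_num
  · simp [nLy, fLy] <;> norm_num
  · simp [nLy, fLy] <;> norm_num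
  · simp [nLy, fLy] <;> ring

theorem fLb_ok (b : Bs) : FmOK b nLb (fLb b) := by
  constructor
  · simp [Fin.sum_univ_eight, nLb, fLb, z4, Bs.A, At.H]
    ring
  · simp [Fin.sum_univ_eight, nLb, fLb, z4, Bs.A, At.C, da]
    ring
  · simp [Fin.sum_univ_eight, nLb, fLb, z4, Bs.A, At.C, db]
    ring
  · simp [nLb, fLb] <;> norm_num
  · simp [nLb, fLb] <;> norm_num
  · simp [nLb, fLb] <;> norm_num
  · simp [nLb, fLb] <;> norm_num
  · simp [nLb, fLb] <;> ring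

theorem fY_ok (b : Bs) : FmOK b nY (fY b) := by
  constructor
  · simp [Fin.sum_univ_eight, nY, fY, z4, Bs.A, At.H]
    ring
  · simp [Fin.sum_univ_eight, nY, fY, z4, Bs.A, At.C, da]
    ring
  · simp [Fin.sum_univ_eight, nY, fY, z4, Bs.A, At.C, db]
    ring
  · simp [nY, fY] <;> norm_num
  · simp [nY, fY] <;> norm_num
  · simp [nY, fY] <;> norm_num
  · simp [nY, fY] <;> norm_num
  · simp [nY, fY] <;> ring

theorem fZ_ok (b : Bs) : FmOK b nZ (fZ b) := by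
  constructor
  · simp [Fin.sum_univ_eight, nZ, fZ, z4, Bs.A, At.H]
    ring
  · simp [Fin.sum_univ_eight, nZ, fZ, z4, Bs.A, At.C, da]
    ring
  · simp [Fin.sum_univ_eight, nZ, fZ, z4, Bs.A, At.C, db]
    ring
  · simp [nZ, fZ] <;> norm_num
  · simp [nZ, fZ] <;> norm_num
  · simp [nZ, fZ] <;> norm_num
  · simp [nZ, fZ] <;> norm_num
  · simp [nZ, fZ] <;> ring

theorem fB_ok (b : Bs) : FmOK b nB (fB b) := by
  constructor
  · simp [Fin.sum_univ_eight, nB, fB, z4, Bs.A, At.H]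
    ring
  · simp [Fin.sum_univ_eight, nB, fB, z4, Bs.A, At.C, da]
    ring
  · simp [Fin.sum_univ_eight, nB, fB, z4, Bs.A, At.C, db]
    ring
  · simp [nB, fB] <;> norm_num
  · simp [nB, fB] <;> norm_num
  · simp [nB, fB] <;> norm_num
  · simp [nB, fB] <;> norm_num
  · simp [nB, fB] <;> ring

theorem fK_ok (b : Bs) : FmOK b nK (fK b) := by
  constructor
  · simp [Fin.sum_univ_eight, nK, fK, z4, Bs.A, At.H]
    ring
  · simp [Fin.sum_univ_eight, nK, fK, z4, Bs.A, At.C, da]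
    ring
  · simp [Fin.sum_univ_eight, nK, fK, z4, Bs.A, At.C, db]
    ring
  · simp [nK, fK] <;> norm_num
  · simp [nK, fK] <;> norm_num
  · simp [nK, fK] <;> norm_num
  · simp [nK, fK] <;> norm_num
  · simp [nK, fK] <;> ring

theorem fHy_ok (b : Bs) : FmOK b nHy (fHy b) := by
  constructor
  · simp [Fin.sum_univ_eight, nHy, fHy, z4, Bs.A, At.H]
    ring
  · simp [Fin.sum_univ_eight, nHy, fHy, z4, Bs.A, At.C, da]
    ring
  · simp [Fin.sum_univ_eight, nHy, fHy, z4, Bs.A, At.C, db]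
    ring
  · simp [nHy, fHy] <;> norm_num
  · simp [nHy, fHy] <;> norm_num
  · simp [nHy, fHy] <;> norm_num
  · simp [nHy, fHy] <;> norm_num
  · simp [nHy, fHy] <;> ring

theorem fHb_ok (b : Bs) : FmOK b nHb (fHb b) := by
  constructor
  · simp [Fin.sum_univ_eight, nHb, fHb, z4, Bs.A, At.H]
    ring
  · simp [Fin.sum_univ_eight, nHb, fHb, z4, Bs.A, At.C, da]
    ring
  · simp [Fin.sum_univ_eight, nHb, fHb, z4, Bs.A, At.C, db]
    ring
  · simp [nHb, fHb] <;> norm_num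
  · simp [nHb, fHb] <;> norm_num
  · simp [nHb, fHb] <;> norm_num
  · simp [nHb, fHb] <;> norm_num
  · simp [nHb, fHb] <;> ring

end Pool.Agent.S5.K3
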