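import Mathlib

/-!
# Packed vectors

Vectors with `81` lanes of `44` bits in one natural number.
-/

set_option autoImplicit false

namespace Pool.Agent.S5.G3

/-- The number with the lanes `f 0, ..., f (n - 1)`. -/
def pk : (ℕ → ℕ) → ℕ → ℕ
  | _, 0 => 0
  | f, n + 1 => f 0 + 17592186044416 * pk (fun l => f (l + 1)) n

theorem pk_add (n : ℕ) : ∀ f g : ℕ → ℕ, pk (fun l => f l + g l) n = pk f n + pk g n := by
  induction n with
  | zero => intro f g; rfl
  | succ n ih =>
    intro f g
    simp only [pk]
    rw [ih (fun l => f (l + 1)) (fun l => g (l + 1))]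
    ring

theorem pk_smul (c : ℕ) (n : ℕ) : ∀ f : ℕ → ℕ, pk (fun l => c * f l) n = c * pk f n := by
  induction n with
  | zero => intro f; rfl
  | succ n ih =>
    intro f
    simp only [pk]
    rw [ih (fun l => f (l + 1))]
    ring

theorem pk_congr {f g : ℕ → ℕ} (n : ℕ) (h : ∀ l < n, f l = g l) : pk f n = pk g n := by
  induction n generalizing f g with
  | zero => rfl
  | succ n ih =>
    simp only [pk]
    rw [h 0 (by omega), ih (fun l hl => h (l + 1) (by omega))]

theorem pk_sub {f g : ℕ → ℕ} (n : ℕ) (h : ∀ l < n, g l ≤ f l) :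
    pk f n - pk g n = pk (fun l => f l - g l) n := by
  have : pk f n = pk g n + pk (fun l => f l - g l) n := by
    rw [← pk_add]
    apply pk_congr
    intro l hl
    have := h l hl
    omega
  omega

theorem pk_zero (n : ℕ) : pk (fun _ => 0) n = 0 := by
  induction n with
  | zero => rfl
  | succ n ih => simp only [pk, ih]

/-- The top lanes are zero. -/
theorem pk_ext {f : ℕ → ℕ} {n m : ℕ} (h : ∀ l, n ≤ l → f l = 0) (hm : n ≤ m) :
    pk f m = pk f n := by
  induction m generalizing f n with
  | zero =>
    have : n = 0 := by omega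
    rw [this]
  | succ m ih =>
    rcases Nat.eq_zero_or_pos n with hn | hn
    · subst hn
      have e : pk f (m + 1) = pk (fun _ => 0) (m + 1) := pk_congr _ (fun l _ => h l (by omega))
      rw [e, pk_zero]
      rfl
    · obtain ⟨k, rfl⟩ : ∃ k, n = k + 1 := ⟨n - 1, by omega⟩
      simp only [pk]
      rw [ih (f := fun l => f (l + 1)) (n := k) (fun l hl => h (l + 1) (by omega)) (by omega)]

/-- The lane `0` and the rest. -/
theorem pk_div {f : ℕ → ℕ} (n : ℕ) (h : f 0 < 17592186044416) :
    pk f (n + 1) / 17592186044416 = pk (fun l => f (l + 1)) n := by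
  simp only [pk]
  omega

theorem pk_mod {f : ℕ → ℕ} (n : ℕ) (h : f 0 < 17592186044416) :
    pk f (n + 1) % 17592186044416 = f 0 := by
  simp only [pk]
  omega

/-- Shift by `s` lanes. -/
theorem pk_shift {f : ℕ → ℕ} (s n : ℕ) (h : ∀ l, f l < 17592186044416) :
    (pk f (n + s)) >>> (44 * s) = pk (fun l => f (l + s)) n := by
  induction s generalizing f with
  | zero => simp
  | succ s ih =>
    have e : 44 * (s + 1) = 44 + 44 * s := by ring
    rw [e, Nat.shiftRight_add, Nat.shiftRight_eq_div_pow (pk f (n + (s + 1))) 44,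
      show (2 : ℕ) ^ 44 = 17592186044416 by norm_num, show n + (s + 1) = (n + s) + 1 by ring,
      pk_div _ (h 0), ih (f := fun l => f (l + 1)) (fun l => h _)]
    apply pk_congr
    intro l _
    congr 1

/-- Bitwise and. -/
theorem land_split {a b x y : ℕ} (ha : a < 17592186044416) (hb : b < 17592186044416) :
    (a + 17592186044416 * x) &&& (b + 17592186044416 * y) =
      (a &&& b) + 17592186044416 * (x &&& y) := by
  have e : (17592186044416 : ℕ) = 2 ^ 44 := by norm_num
  have hab : a &&& b < 2 ^ 44 := lt_of_le_of_lt Nat.and_le_left (by rw [← e]; exact ha)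
  rw [e] at *
  rw [add_comm a, add_comm b, add_comm (a &&& b)]
  apply Nat.eq_of_testBit_eq
  intro i
  rw [Nat.testBit_and, Nat.testBit_two_pow_mul_add _ ha, Nat.testBit_two_pow_mul_add _ hb,
    Nat.testBit_two_pow_mul_add _ hab]
  by_cases hi : i < 44
  · simp [hi, Nat.testBit_and]
  · simp [hi, Nat.testBit_and]

theorem pk_land (n : ℕ) : ∀ f g : ℕ → ℕ, (∀ l, f l < 17592186044416) → (∀ l, g l < 17592186044416) →
    pk f n &&& pk g n = pk (fun l => f l &&& g l) n := by
  induction n with
  | zero => intro f g _ _; simp [pk]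
  | succ n ih =>
    intro f g hf hg
    simp only [pk]
    rw [land_split (hf 0) (hg 0), ih _ _ (fun l => hf _) (fun l => hg _)]

theorem pk_inj_zero {f : ℕ → ℕ} (n : ℕ) (h : pk f n = 0) : ∀ l < n, f l = 0 := by
  induction n generalizing f with
  | zero => intro l hl; omega
  | succ n ih =>
    simp only [pk] at h
    intro l hl
    rcases Nat.eq_zero_or_pos l with h0 | h0
    · subst h0
      omega
    · have h1 : pk (fun l => f (l + 1)) n = 0 := by omega
      have := ih h1 (l - 1) (by omega)
      simpa [Nat.sub_add_cancel h0] using this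

/-! ### The maximum -/

/-- Ones in all lanes. -/
def ON : Nat := 0x10000000000100000000001000000000010000000000100000000001000000000010000000000100000000001000000000010000000000100000000001000000000010000000000100000000001000000000010000000000100000000001000000000010000000000100000000001000000000010000000000100000000001000000000010000000000100000000001000000000010000000000100000000001000000000010000000000100000000001000000000010000000000100000000001000000000010000000000100000000001000000000010000000000100000000001000000000010000000000100000000001000000000010000000000100000000001000000000010000000000100000000001000000000010000000000100000000001000000000010000000000100000000001000000000010000000000100000000001000000000010000000000100000000001000000000010000000000100000000001000000000010000000000100000000001000000000010000000000100000000001000000000010000000000100000000001000000000010000000000100000000001000000000010000000000100000000001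

/-- The sign bits of all lanes. -/
def HO : Nat := Nat.mul 8796093022208 ON

/-- The maximum of two vectors, lane by lane. -/
def vm (a v : Nat) : Nat :=
  Nat.add v (Nat.land (Nat.sub (Nat.add a HO) v) (Nat.sub (Nat.land (Nat.sub (Nat.add a HO) v) HO)
    (Nat.shiftRight (Nat.land (Nat.sub (Nat.add a HO) v) HO) 43)))

theorem ON_eq : ON = pk (fun _ => 1) 81 := by
  decide +kernel

theorem ON_mul (c : ℕ) : Nat.mul c ON = pk (fun _ => c) 81 := by
  change c * ON = _
  rw [ON_eq, ← pk_smul]
  apply pk_congr
  intro l _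
  ring

theorem HO_eq : HO = pk (fun _ => 8796093022208) 81 := ON_mul _

theorem land_H {x y : ℕ} (hx : x < 8796093022208) (hy : y < 8796093022208) :
    (x + 8796093022208 - y) &&& 8796093022208 = if y ≤ x then 8796093022208 else 0 := by
  have e : (8796093022208 : ℕ) = 2 ^ 43 := by norm_num
  rw [e] at *
  rw [Nat.and_two_pow]
  by_cases h : y ≤ x
  · rw [if_pos h]
    have e1 : x + 2 ^ 43 - y = 2 ^ 43 * 1 + (x - y) := by omega
    have h1 : x - y < 2 ^ 43 := by omega
    rw [e1, Nat.testBit_two_pow_mul_add _ h1]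
    simp
  · rw [if_neg h]
    have h1 : x + 2 ^ 43 - y < 2 ^ 43 := by omega
    rw [Nat.testBit_lt_two_pow h1]
    simp

theorem land_M {x : ℕ} (hx : x < 8796093022208) :
    (x + 8796093022208) &&& 8796093022207 = x := by
  have e : (8796093022207 : ℕ) = 2 ^ 43 - 1 := by norm_num
  rw [e, Nat.and_two_pow_sub_one_eq_mod]
  omega

/-- The maximum. -/
theorem vm_pk {f g : ℕ → ℕ} (hf : ∀ l, f l < 8796093022208) (hg : ∀ l, g l < 8796093022208) :
    vm (pk f 81) (pk g 81) = pk (fun l => max (f l) (g l)) 81 := by
  have hD : Nat.sub (Nat.add (pk f 81) HO) (pk g 81) =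
      pk (fun l => f l + 8796093022208 - g l) 81 := by
    change pk f 81 + HO - pk g 81 = _
    rw [HO_eq, ← pk_add, pk_sub]
    intro l _
    have := hg l
    omega
  have hG : Nat.land (Nat.sub (Nat.add (pk f 81) HO) (pk g 81)) HO =
      8796093022208 * pk (fun l => if g l ≤ f l then 1 else 0) 81 := by
    rw [hD, HO_eq, ← pk_smul]
    change pk _ 81 &&& pk _ 81 = _
    rw [pk_land _ _ _ (fun l => by have := hf l; omega) (fun l => by norm_num)]
    apply pk_congr
    intro l _
    rw [land_H (hf l) (hg l)]
    split_ifs <;> rfl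
  unfold vm
  rw [hG, hD]
  have hS : Nat.shiftRight (8796093022208 * pk (fun l => if g l ≤ f l then 1 else 0) 81) 43 =
      pk (fun l => if g l ≤ f l then 1 else 0) 81 := by
    change (8796093022208 * pk (fun l => if g l ≤ f l then 1 else 0) 81) >>> 43 = _
    rw [Nat.shiftRight_eq_div_pow, show (2 : ℕ) ^ 43 = 8796093022208 by norm_num]
    omega
  rw [hS]
  have hM : Nat.sub (8796093022208 * pk (fun l => if g l ≤ f l then 1 else 0) 81)
      (pk (fun l => if g l ≤ f l then 1 else 0) 81) =
      pk (fun l => if g l ≤ f l then 8796093022207 else 0) 81 := by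
    change 8796093022208 * pk (fun l => if g l ≤ f l then 1 else 0) 81 -
      pk (fun l => if g l ≤ f l then 1 else 0) 81 = _
    have : pk (fun l => if g l ≤ f l then 8796093022207 else 0) 81 =
        8796093022207 * pk (fun l => if g l ≤ f l then 1 else 0) 81 := by
      rw [← pk_smul]
      apply pk_congr
      intro l _
      split_ifs <;> rfl
    rw [this]
    omega
  rw [hM]
  change pk g 81 + (pk _ 81 &&& pk _ 81) = _
  rw [pk_land _ _ _ (fun l => by have := hf l; omega) (fun l => by split_ifs <;> norm_num), ← pk_add]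
  apply pk_congr
  intro l _
  by_cases h : g l ≤ f l
  · simp only [if_pos h]
    have e1 : f l + 8796093022208 - g l = (f l - g l) + 8796093022208 := by omega
    rw [e1, land_M (by have := hf l; omega), max_eq_left h]
    omega
  · simp only [if_neg h, Nat.and_zero, add_zero]
    rw [max_eq_right (by omega)]

/-! ### Lanes -/

/-- The vector `v` has the lanes `f`, all less than `c`. -/
structure Pk (v : ℕ) (f : ℕ → ℕ) (c : ℕ) : Prop where
  e : v = pk f 81
  b : ∀ l, f l < c
  z : ∀ l, 81 ≤ l → f l = 0

theorem Pk.add {v w : ℕ} {f g : ℕ → ℕ} {c d : ℕ} (h : Pk v f c) (h' : Pk w g d) :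
    Pk (Nat.add v w) (fun l => f l + g l) (c + d) where
  e := by
    change v + w = _
    rw [h.e, h'.e, pk_add]
  b := fun l => add_lt_add (h.b l) (h'.b l)
  z := fun l hl => by rw [h.z l hl, h'.z l hl]

theorem Pk.mono {v : ℕ} {f : ℕ → ℕ} {c d : ℕ} (h : Pk v f c) (hd : c ≤ d) : Pk v f d :=
  ⟨h.e, fun l => lt_of_lt_of_le (h.b l) hd, h.z⟩

theorem Pk.smul {v : ℕ} {f : ℕ → ℕ} {c : ℕ} (k : ℕ) (h : Pk v f c) (hk : 0 < k) :
    Pk (Nat.mul k v) (fun l => k * f l) (k * c) where
  e := by
    change k * v = _
    rw [h.e, pk_smul]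
  b := fun l => Nat.mul_lt_mul_of_pos_left (h.b l) hk
  z := fun l hl => by rw [h.z l hl, mul_zero]

theorem Pk.const {c d : ℕ} (h : c < d) :
    Pk (Nat.mul c ON) (fun l => if l < 81 then c else 0) d where
  e := by
    rw [ON_mul]
    apply pk_congr
    intro l hl
    rw [if_pos hl]
  b := fun l => by
    split_ifs
    · exact h
    · omega
  z := fun l hl => by rw [if_neg (by omega)]

theorem Pk.shift {v : ℕ} {f : ℕ → ℕ} {c : ℕ} (h : Pk v f c) (hc : c ≤ 17592186044416) (s : ℕ) :
    Pk (Nat.shiftRight v (Nat.mul 44 s)) (fun l => f (l + s)) c where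
  e := by
    have e1 : pk f 81 = pk f (81 + s) := (pk_ext h.z (by omega)).symm
    change v >>> (44 * s) = _
    rw [h.e, e1, pk_shift s 81 (fun l => lt_of_lt_of_le (h.b l) hc)]
  b := fun l => h.b _
  z := fun l hl => h.z _ (by omega)

theorem Pk.vm {v w : ℕ} {f g : ℕ → ℕ} {c : ℕ} (h : Pk v f c) (h' : Pk w g c)
    (hc : c ≤ 8796093022208) : Pk (vm v w) (fun l => max (f l) (g l)) c where
  e := by
    rw [h.e, h'.e, vm_pk (fun l => lt_of_lt_of_le (h.b l) hc) (fun l => lt_of_lt_of_le (h'.b l) hc)]
  b := fun l => max_lt (h.b l) (h'.b l)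
  z := fun l hl => by rw [h.z l hl, h'.z l hl, max_self]

/-! ### The fold over a list -/

/-- The maximum of `acc` and `c_q + (W shifted by q)`. -/
def lpv (l : List Nat) : Nat → Nat :=
  List.rec (motive := fun _ => Nat → Nat) (fun _ => 0)
    (fun c _ ih W => vm (ih (Nat.shiftRight W 44)) (Nat.add (Nat.mul c ON) W)) l

theorem lpv_nil (W : ℕ) : lpv [] W = 0 := rfl

theorem lpv_cons (c : ℕ) (l : List ℕ) (W : ℕ) :
    lpv (c :: l) W = vm (lpv l (Nat.shiftRight W 44)) (Nat.add (Nat.mul c ON) W) := rfl

/-- The fold: lanes. -/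
theorem lpv_ok {C D : ℕ} (hCD : C + D ≤ 8796093022208) (hC : 0 < C) (hD : 0 < D) (l : List ℕ) :
    ∀ (W : ℕ) (f : ℕ → ℕ), (∀ c ∈ l, c < C) → Pk W f D →
      ∃ g : ℕ → ℕ, Pk (lpv l W) g (C + D) ∧
        ∀ (q : ℕ) (hq : q < l.length) (J : ℕ), J < 81 → l[q] + f (J + q) ≤ g J := by
  induction l with
  | nil =>
    intro W f _ _
    refine ⟨fun _ => 0, ⟨by rw [lpv_nil, pk_zero], fun _ => by omega, fun _ _ => rfl⟩, ?_⟩
    intro q hq
    simp at hq
  | cons c l ih =>
    intro W f hc hW
    have hW1 : Pk (Nat.shiftRight W 44) (fun l => f (l + 1)) D := hW.shift (by omega) 1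
    obtain ⟨g, hg, hg1⟩ := ih _ _ (fun x hx => hc x (List.mem_cons_of_mem _ hx)) hW1
    have hcc : c < C := hc c List.mem_cons_self
    have h2 := (Pk.const hcc).add hW
    refine ⟨fun l => max (g l) ((if l < 81 then c else 0) + f l), ?_, ?_⟩
    · rw [lpv_cons]
      exact hg.vm h2 hCD
    · intro q hq J hJ
      rcases Nat.eq_zero_or_pos q with h0 | h0
      · subst h0
        simp only [List.getElem_cons_zero, add_zero]
        refine le_trans (le_of_eq ?_) (le_max_right _ _)
        rw [if_pos hJ]
      · obtain ⟨p, rfl⟩ : ∃ p, q = p + 1 := ⟨q - 1, by omega⟩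
        have h3 := hg1 p (by simp only [List.length_cons] at hq; omega) J hJ
        simp only [List.getElem_cons_succ]
        refine le_trans (le_of_eq ?_) (h3.trans (le_max_left _ _))
        rw [show J + p + 1 = J + (p + 1) by ring]

/-! ### Reversal -/

/-- The first `n` lanes in the reversed order. -/
def rv (n : Nat) : Nat → Nat → Nat :=
  Nat.rec (motive := fun _ => Nat → Nat → Nat) (fun _ r => r)
    (fun _ ih v r => ih (Nat.shiftRight v 44) (Nat.add (Nat.mul 17592186044416 r)
      (Nat.mod v 17592186044416))) n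

theorem rv_zero (v r : ℕ) : rv 0 v r = r := rfl

theorem rv_succ (n v r : ℕ) : rv (n + 1) v r = rv n (Nat.shiftRight v 44)
    (Nat.add (Nat.mul 17592186044416 r) (Nat.mod v 17592186044416)) := rfl

theorem rv_ok (n : ℕ) : ∀ (v : ℕ) (f : ℕ → ℕ) (c : ℕ) (r : ℕ) (g : ℕ → ℕ) (k : ℕ), Pk v f c →
    c ≤ 17592186044416 → r = pk g k →
    rv n v r = pk (fun l => if l < n then f (n - 1 - l) else g (l - n)) (k + n) := by
  induction n with
  | zero =>
    intro v f c r g k _ _ hr
    rw [rv_zero, hr]
    simp
  | succ n ih =>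
    intro v f c r g k hv hc hr
    have hv1 : Pk (Nat.shiftRight v 44) (fun l => f (l + 1)) c := hv.shift hc 1
    have hm : Nat.mod v 17592186044416 = f 0 := by
      change v % 17592186044416 = _
      rw [hv.e]
      exact pk_mod 80 (lt_of_lt_of_le (hv.b 0) hc)
    have hr1 : Nat.add (Nat.mul 17592186044416 r) (Nat.mod v 17592186044416) =
        pk (fun l => if l = 0 then f 0 else g (l - 1)) (k + 1) := by
      rw [hm]
      change 17592186044416 * r + f 0 = _
      rw [hr]
      simp only [pk, if_true]
      rw [add_comm]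
      congr 2
    rw [rv_succ, ih _ _ c _ _ (k + 1) hv1 hc hr1, show k + 1 + n = k + (n + 1) by ring]
    apply pk_congr
    intro l _
    by_cases h1 : l < n
    · rw [if_pos h1, if_pos (by omega)]
      congr 1
      omega
    · by_cases h2 : l = n
      · subst h2
        rw [if_neg (by omega), if_pos (by omega), if_pos (by omega)]
        congr 1
        omega
      · rw [if_neg h1, if_neg (by omega), if_neg (by omega)]
        congr 1

/-- The reversal of the first `41` lanes. -/
def rev (v : Nat) : Nat := rv 41 v 0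

theorem Pk.rev {v : ℕ} {f : ℕ → ℕ} {c : ℕ} (h : Pk v f c) (hc : c ≤ 17592186044416) (hc0 : 0 < c) :
    Pk (rev v) (fun l => if l < 41 then f (40 - l) else 0) c where
  e := by
    unfold G3.rev
    rw [rv_ok 41 v f c 0 (fun _ => 0) 0 h hc rfl]
    have e1 : pk (fun l => if l < 41 then f (40 - l) else 0) 81 =
        pk (fun l => if l < 41 then f (40 - l) else 0) 41 :=
      pk_ext (fun l hl => if_neg (by omega)) (by norm_num)
    rw [e1]
  b := fun l => by
    split_ifs
    · exact h.b _
    · exact hc0
  z := fun l hl => by rw [if_neg (by omega)]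

/-! ### The test -/

/-- The lanes of the mask are negative: `v` has an offset `K`. -/
def tz (K m v : Nat) : Bool := Nat.beq (Nat.land (Nat.add v (Nat.mul (Nat.sub 8796093022208 K) ON)) m) 0

theorem tz_ok {K m v : ℕ} {f : ℕ → ℕ} {c : ℕ} {P : ℕ → Bool} (h : Pk v f c)
    (hc : c ≤ 8796093022208) (hK0 : 0 < K) (hK : K ≤ 8796093022208)
    (hm : m = pk (fun l => if P l = true then 8796093022208 else 0) 81) (ht : tz K m v = true)
    {l : ℕ} (hl : l < 81) (hP : P l = true) : f l < K := by
  have h1 := Nat.eq_of_beq_eq_true ht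
  have h2 := h.add (Pk.const (show 8796093022208 - K < 8796093022208 by omega))
  change Nat.add v (Nat.mul (8796093022208 - K) ON) &&& m = 0 at h1
  rw [h2.e, hm, pk_land _ _ _ (fun l => lt_of_lt_of_le (h2.b l) (by omega))
    (fun l => by split_ifs <;> norm_num)] at h1
  have h3 := pk_inj_zero _ h1 l hl
  simp only [hP, if_true, if_pos hl] at h3
  by_contra h4
  push Not at h4
  have h5 := h.b l
  have e : (8796093022208 : ℕ) = 2 ^ 43 := by norm_num
  have h6 : f l + (8796093022208 - K) = 8796093022208 * 1 + (f l - K) := by omega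
  have h7 : f l - K < 2 ^ 43 := by omega
  rw [h6, e, Nat.and_two_pow, Nat.testBit_two_pow_mul_add _ h7] at h3
  simp at h3

end Pool.Agent.S5.G3
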