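import Pool.Agent.S5.I.Tl
import Pool.Agent.S5.I.TdL
import Pool.Agent.S5.I.BwP

/-!
# Interpolation of `-Rf`
-/

set_option autoImplicit false

namespace Pool.Agent.S5.G3

open Pool.Agent.H63.VC3 Pool.Agent.S3 Complex MeasureTheory Filter Topology Set
open Pool.Agent.S5.Tb

/-- `-Rf` at `u + i s`. -/
noncomputable def Fu (u s : ℝ) : ℝ := -Rf ((u : ℂ) + s * I)

theorem Fu_eq (z : ℂ) : -Rf z = Fu z.re z.im := by
  unfold Fu
  rw [re_add_im]

theorem Fu_neg (u s : ℝ) : Fu u (-s) = Fu u s := by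
  unfold Fu
  rw [Rf_line_neg]

theorem Fu_abs (u s : ℝ) : Fu u |s| = Fu u s := by
  rcases abs_choice s with h | h
  · rw [h]
  · rw [h, Fu_neg]

theorem Fu_add_one (u s : ℝ) : Fu u s = Fu (u + 1) s + Real.pi * |s| := by
  unfold Fu
  have h := Rf_shift ((u : ℂ) + s * I)
  have e : (u : ℂ) + s * I + 1 = ((u + 1 : ℝ) : ℂ) + s * I := by
    push_cast
    ring
  have e2 : ((u : ℂ) + s * I).im = s := by simp
  rw [e, e2] at h
  exact h

theorem Fu_one_sub (u s : ℝ) : Fu (1 - u) s = -Fu u s := by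
  unfold Fu
  rw [Rf_one_sub_line]

theorem Fu_zero (s : ℝ) : Fu 0 s = Real.pi * |s| / 2 := by
  unfold Fu
  rw [Rf_zero_line]
  ring

theorem Fu_one (s : ℝ) : Fu 1 s = -(Real.pi * |s| / 2) := by
  unfold Fu
  rw [Rf_one_line]

theorem ct_one_sub (z : ℂ) : ct (1 - z) = -ct z := by
  unfold ct
  have e : (Real.pi : ℂ) * (1 - z) = Real.pi - Real.pi * z := by ring
  rw [e, cos_pi_sub, sin_pi_sub]
  ring

theorem fdom_one_sub {z : ℂ} (h : fdom z) : fdom (1 - z) := by
  unfold fdom at *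
  rw [sub_im, one_im, sub_re, one_re]
  rcases h with h | ⟨h1, h2⟩
  · left
    intro h3
    apply h
    linarith
  · right
    constructor <;> linarith

/-- The chord of `-Rf`. -/
theorem chord {z0 z1 : ℂ} {K p : ℝ} (h0 : 0 ≤ p) (h1 : p ≤ 1)
    (hd : ∀ τ : ℝ, 0 ≤ τ → τ ≤ 1 → fdom (z0 + τ * (z1 - z0)))
    (hK : ∀ τ : ℝ, 0 ≤ τ → τ ≤ 1 → ‖ct (z0 + τ * (z1 - z0))‖ ≤ K) :
    -Rf (z0 + p * (z1 - z0)) ≤ (1 - p) * (-Rf z0) + p * (-Rf z1) +
      K / 8 * ((z1.re - z0.re) ^ 2 + (z1.im - z0.im) ^ 2) := by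
  have hK0 : 0 ≤ K := (norm_nonneg _).trans (hK 0 le_rfl zero_le_one)
  set z := z0 + p * (z1 - z0) with hz
  have s0 := taylor (g := 1 - z) (z := 1 - z0) (K := K)
    (by
      intro τ h2 h3
      have h4 := fdom_one_sub (hd ((1 - τ) * p) (mul_nonneg (by linarith) h0)
        (by nlinarith))
      have e : 1 - (z0 + (((1 - τ) * p : ℝ) : ℂ) * (z1 - z0)) = 1 - z + τ * (1 - z0 - (1 - z)) := by
        rw [hz]
        push_cast
        ring
      rwa [e] at h4)
    (by
      intro τ h2 h3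
      have h4 := hK ((1 - τ) * p) (mul_nonneg (by linarith) h0) (by nlinarith)
      have e : 1 - z + τ * (1 - z0 - (1 - z)) = 1 - (z0 + (((1 - τ) * p : ℝ) : ℂ) * (z1 - z0)) := by
        rw [hz]
        push_cast
        ring
      rw [e, ct_one_sub, norm_neg]
      exact h4)
  have s1 := taylor (g := 1 - z) (z := 1 - z1) (K := K)
    (by
      intro τ h2 h3
      have h4 := fdom_one_sub (hd (p + τ * (1 - p)) (by nlinarith)
        (by nlinarith))
      have e : 1 - (z0 + ((p + τ * (1 - p) : ℝ) : ℂ) * (z1 - z0)) = 1 - z + τ * (1 - z1 - (1 - z)) := by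
        rw [hz]
        push_cast
        ring
      rwa [e] at h4)
    (by
      intro τ h2 h3
      have h4 := hK (p + τ * (1 - p)) (by nlinarith) (by nlinarith)
      have e : 1 - z + τ * (1 - z1 - (1 - z)) = 1 - (z0 + ((p + τ * (1 - p) : ℝ) : ℂ) * (z1 - z0)) := by
        rw [hz]
        push_cast
        ring
      rw [e, ct_one_sub, norm_neg]
      exact h4)
  rw [Rf_one_sub, Rf_one_sub] at s0 s1
  simp only [sub_re, sub_im, one_re, one_im] at s0 s1
  have er : z.re = z0.re + p * (z1.re - z0.re) := by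
    rw [hz]
    simp
  have ei : z.im = z0.im + p * (z1.im - z0.im) := by
    rw [hz]
    simp
  rw [er, ei] at s0 s1
  have t0 := mul_le_mul_of_nonneg_left s0 (show 0 ≤ 1 - p by linarith)
  have t1 := mul_le_mul_of_nonneg_left s1 h0
  have q : p * (1 - p) ≤ 1 / 4 := by nlinarith [sq_nonneg (p - 1 / 2)]
  have hD : 0 ≤ (z1.re - z0.re) ^ 2 + (z1.im - z0.im) ^ 2 := by positivity
  have t2 := mul_le_mul_of_nonneg_left q
    (show 0 ≤ K / 2 * ((z1.re - z0.re) ^ 2 + (z1.im - z0.im) ^ 2) by positivity)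
  nlinarith [t0, t1, t2]

/-! ### Horizontal lines -/

theorem Fu_hasDerivAt {u : ℝ} (h0 : 0 < u) (h1 : u < 1) (s : ℝ) :
    HasDerivAt (fun u : ℝ => Fu u s) (-Lg s u) u :=
  neg_Rf_hasDerivAt_re h0 h1 s

theorem Fu_continuous (s : ℝ) : Continuous (fun u : ℝ => Fu u s) :=
  (Rf_continuous.comp (by fun_prop)).neg

theorem Fu_continuous' (u : ℝ) : Continuous (fun s : ℝ => Fu u s) :=
  (Rf_continuous.comp (by fun_prop)).neg

/-- `-Rf` is convex in the right half of the strip. -/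
theorem Fu_convex_right (s : ℝ) : ConvexOn ℝ (Icc (1 / 2) 1) (fun u : ℝ => Fu u s) := by
  apply MonotoneOn.convexOn_of_deriv (convex_Icc _ _) (Fu_continuous s).continuousOn
  · intro x hx
    rw [interior_Icc] at hx
    exact (Fu_hasDerivAt (by linarith [hx.1]) hx.2 s).differentiableAt.differentiableWithinAt
  · intro x hx y hy hxy
    rw [interior_Icc] at hx hy
    rw [(Fu_hasDerivAt (by linarith [hx.1]) hx.2 s).deriv,
      (Fu_hasDerivAt (by linarith [hy.1]) hy.2 s).deriv]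
    have hp : 0 < dn s y := dn_pos (Or.inr ⟨by linarith [hy.1], by
      rw [abs_lt]; constructor <;> linarith [hy.1, hy.2]⟩)
    have hc : Real.cos (2 * Real.pi * x) ≤ Real.cos (2 * Real.pi * y) := by
      have hpi := Real.pi_pos
      have e1 : Real.cos (2 * Real.pi * x) = Real.cos (2 * Real.pi * (1 - x)) := by
        rw [show 2 * Real.pi * (1 - x) = 2 * Real.pi - 2 * Real.pi * x by ring, Real.cos_two_pi_sub]
      have e2 : Real.cos (2 * Real.pi * y) = Real.cos (2 * Real.pi * (1 - y)) := by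
        rw [show 2 * Real.pi * (1 - y) = 2 * Real.pi - 2 * Real.pi * y by ring, Real.cos_two_pi_sub]
      rw [e1, e2]
      apply Real.cos_le_cos_of_nonneg_of_le_pi
      · have := hy.2
        nlinarith
      · have := hx.1
        nlinarith
      · nlinarith
    have := Lg_le hp hc
    linarith

theorem Fu_right {a b p s : ℝ} (ha : 1 / 2 ≤ a) (hb : b ≤ 1) (hab : a ≤ b) (h0 : 0 ≤ p)
    (h1 : p ≤ 1) : Fu (a + p * (b - a)) s ≤ (1 - p) * Fu a s + p * Fu b s := by
  have h := (Fu_convex_right s).2 (show a ∈ Icc (1 / 2 : ℝ) 1 from ⟨ha, hab.trans hb⟩)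
    (show b ∈ Icc (1 / 2 : ℝ) 1 from ⟨ha.trans hab, hb⟩) (show 0 ≤ 1 - p by linarith) h0 (by ring)
  simp only [smul_eq_mul] at h
  have e : a + p * (b - a) = (1 - p) * a + p * b := by ring
  rw [e]
  exact h

/-- The left half of the strip: concave with a bound. -/
theorem Fu_left {a b p s K : ℝ} (ha : 0 ≤ a) (hb : b ≤ 1 / 2) (hab : a ≤ b) (h0 : 0 ≤ p)
    (h1 : p ≤ 1) (hn : 0 < a ∨ s ≠ 0)
    (hK : ∀ z : ℂ, a ≤ z.re → z.re ≤ b → z.im = s → ‖ct z‖ ≤ K) :
    Fu (a + p * (b - a)) s ≤ (1 - p) * Fu a s + p * Fu b s + K / 8 * (b - a) ^ 2 := by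
  have e : ∀ τ : ℝ, (a : ℂ) + s * I + τ * ((b : ℂ) + s * I - ((a : ℂ) + s * I)) =
      ((a + τ * (b - a) : ℝ) : ℂ) + s * I := by
    intro τ
    push_cast
    ring
  have h := chord (z0 := (a : ℂ) + s * I) (z1 := (b : ℂ) + s * I) (K := K) h0 h1
    (by
      intro τ h2 h3
      rw [e]
      unfold fdom
      rw [Pool.Agent.S5.line_im, Pool.Agent.S5.line_re]
      rcases hn with hn | hn
      · right
        constructor <;> nlinarith
      · left
        exact hn)
    (by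
      intro τ h2 h3
      rw [e]
      apply hK
      · rw [Pool.Agent.S5.line_re]
        nlinarith
      · rw [Pool.Agent.S5.line_re]
        nlinarith
      · rw [Pool.Agent.S5.line_im])
  rw [e] at h
  simp only [Pool.Agent.S5.line_re, Pool.Agent.S5.line_im, sub_self] at h
  unfold Fu
  linarith [h]

/-! ### Near zero -/

theorem dn_ratio {s x y : ℝ} (h0 : 0 < x) (h1 : x ≤ y) (h2 : y ≤ 1 / 2) :
    dn s y * x ^ 2 ≤ dn s x * y ^ 2 := by
  have hpi := Real.pi_pos
  have key : ∀ t : ℝ, dn s t = 2 * (Real.sin (Real.pi * t) ^ 2 + Real.sinh (Real.pi * s) ^ 2) := by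
    intro t
    have h := norm_two_sin_sq s t
    rw [norm_mul, norm_ofNat, mul_pow, norm_sin_pi_sq] at h
    linarith
  rw [key, key]
  have hs := sin_ratio (u := Real.pi * x) (v := Real.pi * y) (by positivity)
    (mul_le_mul_of_nonneg_left h1 hpi.le) (by nlinarith)
  have hs' : Real.sin (Real.pi * y) * x ≤ Real.sin (Real.pi * x) * y := by
    have : Real.pi * (Real.sin (Real.pi * y) * x) ≤ Real.pi * (Real.sin (Real.pi * x) * y) := by
      linarith
    exact le_of_mul_le_mul_left this hpi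
  have hy0 : 0 ≤ Real.sin (Real.pi * y) * x := mul_nonneg
    (Real.sin_nonneg_of_nonneg_of_le_pi (by nlinarith) (by nlinarith)) h0.le
  have h3 := pow_le_pow_left₀ hy0 hs' 2
  have h4 : x ^ 2 ≤ y ^ 2 := pow_le_pow_left₀ h0.le h1 2
  nlinarith [sq_nonneg (Real.sinh (Real.pi * s)),
    mul_le_mul_of_nonneg_left h4 (sq_nonneg (Real.sinh (Real.pi * s)))]

theorem Fu_log_convex {b : ℝ} (hb : b ≤ 1 / 2) (s : ℝ) :
    ConvexOn ℝ (Icc 0 b) (fun u : ℝ => Fu u s + u * Real.log u) := by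
  have hd : ∀ x : ℝ, 0 < x → x < 1 →
      HasDerivAt (fun u : ℝ => Fu u s + u * Real.log u) (-Lg s x + (Real.log x + 1)) x :=
    fun x h0 h1 => (Fu_hasDerivAt h0 h1 s).add (Real.hasDerivAt_mul_log h0.ne')
  apply MonotoneOn.convexOn_of_deriv (convex_Icc _ _)
  · exact ((Fu_continuous s).add Real.continuous_mul_log).continuousOn
  · intro x hx
    rw [interior_Icc] at hx
    exact (hd x hx.1 (by linarith [hx.2])).differentiableAt.differentiableWithinAt
  · intro x hx y hy hxy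
    rw [interior_Icc] at hx hy
    rw [(hd x hx.1 (by linarith [hx.2])).deriv, (hd y hy.1 (by linarith [hy.2])).deriv,
      Lg_eq_log, Lg_eq_log]
    have hpx : 0 < dn s x := dn_pos (Or.inr ⟨hx.1.ne', by
      rw [abs_lt]; constructor <;> linarith [hx.1, hx.2]⟩)
    have hpy : 0 < dn s y := dn_pos (Or.inr ⟨hy.1.ne', by
      rw [abs_lt]; constructor <;> linarith [hy.1, hy.2]⟩)
    have h := dn_ratio (s := s) hx.1 hxy (by linarith [hy.2])
    have h1 := Real.log_le_log (by have := hx.1; positivity) h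
    rw [Real.log_mul hpy.ne' (by have := hx.1; positivity),
      Real.log_mul hpx.ne' (by have := hy.1; positivity), Real.log_pow, Real.log_pow] at h1
    rw [Real.log_mul (by norm_num) hpx.ne', Real.log_mul (by norm_num) hpy.ne']
    push_cast at h1
    linarith

theorem neg_mul_log_le {t : ℝ} (h : 0 ≤ t) : -(t * Real.log t) ≤ 36788 / 100000 := by
  rcases h.eq_or_lt with h0 | h0
  · rw [← h0]
    norm_num
  · have he := Real.exp_one_gt_d9
    have hpos : 0 < 1 / (Real.exp 1 * t) := by positivity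
    have h1 := Real.log_le_sub_one_of_pos hpos
    have e : Real.log (1 / (Real.exp 1 * t)) = -(1 + Real.log t) := by
      rw [one_div, Real.log_inv, Real.log_mul (Real.exp_ne_zero 1) h0.ne', Real.log_exp]
    rw [e] at h1
    have h2 := mul_le_mul_of_nonneg_right h1 h0.le
    have e2 : (1 / (Real.exp 1 * t) - 1) * t = 1 / Real.exp 1 - t := by
      field_simp
    rw [e2] at h2
    have h3 : 1 / Real.exp 1 ≤ 36788 / 100000 := by
      rw [div_le_iff₀ (by positivity)]
      linarith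
    linarith

/-- The cell at zero. -/
theorem Fu_left0 {b p s : ℝ} (hb0 : 0 < b) (hb : b ≤ 1 / 2) (h0 : 0 ≤ p) (h1 : p ≤ 1) :
    Fu (p * b) s ≤ (1 - p) * Fu 0 s + p * Fu b s + 36788 / 100000 * b := by
  rcases h0.eq_or_lt with h | h
  · rw [← h]
    norm_num
    positivity
  · have h2 := (Fu_log_convex hb s).2 (show (0 : ℝ) ∈ Icc 0 b from ⟨le_rfl, hb0.le⟩)
      (show b ∈ Icc 0 b from ⟨hb0.le, le_rfl⟩) (show 0 ≤ 1 - p by linarith) h0 (by ring)
    simp only [smul_eq_mul, mul_zero, zero_add, zero_mul, add_zero] at h2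
    rw [Real.log_mul h.ne' hb0.ne'] at h2
    have h3 := mul_le_mul_of_nonneg_right (neg_mul_log_le h0) hb0.le
    nlinarith [h2, h3]

/-! ### Vertical lines -/

/-- Convex. -/
theorem Fu_vert {u a b p : ℝ} (h0 : 0 ≤ u) (h1 : u ≤ 1 / 2) (hp0 : 0 ≤ p) (hp1 : p ≤ 1) :
    Fu u (a + p * (b - a)) ≤ (1 - p) * Fu u a + p * Fu u b := by
  have h := (neg_Rf_convex h0 h1).2 (mem_univ a) (mem_univ b) (show 0 ≤ 1 - p by linarith) hp0
    (by ring)
  simp only [smul_eq_mul] at h
  have e : a + p * (b - a) = (1 - p) * a + p * b := by ring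
  rw [e]
  exact h

theorem abs_vert (a b : ℝ) {p : ℝ} (hp0 : 0 ≤ p) (hp1 : p ≤ 1) :
    |a + p * (b - a)| ≤ (1 - p) * |a| + p * |b| := by
  have e : a + p * (b - a) = (1 - p) * a + p * b := by ring
  rw [e]
  refine (abs_add_le _ _).trans ?_
  rw [abs_mul, abs_mul, abs_of_nonneg hp0, abs_of_nonneg (by linarith : 0 ≤ 1 - p)]

/-- Right half of the strip, with a bound. -/
theorem Fu_vert' {u a b p K : ℝ} (h0 : 1 / 2 < u) (h1 : u < 1) (hp0 : 0 ≤ p) (hp1 : p ≤ 1)
    (hK : ∀ z : ℂ, z.re = u → ‖ct z‖ ≤ K) :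
    Fu u (a + p * (b - a)) ≤ (1 - p) * Fu u a + p * Fu u b + K / 8 * (b - a) ^ 2 := by
  have e : ∀ τ : ℝ, (u : ℂ) + a * I + τ * ((u : ℂ) + b * I - ((u : ℂ) + a * I)) =
      (u : ℂ) + ((a + τ * (b - a) : ℝ) : ℂ) * I := by
    intro τ
    push_cast
    ring
  have h := chord (z0 := (u : ℂ) + a * I) (z1 := (u : ℂ) + b * I) (K := K) hp0 hp1
    (by
      intro τ h2 h3
      rw [e]
      unfold fdom
      rw [Pool.Agent.S5.line_re]
      right
      constructor <;> linarith)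
    (by
      intro τ h2 h3
      rw [e]
      apply hK
      rw [Pool.Agent.S5.line_re])
  rw [e] at h
  simp only [Pool.Agent.S5.line_re, Pool.Agent.S5.line_im, sub_self] at h
  unfold Fu
  linarith [h]

/-- The line `1`. -/
theorem Fu_vert1 {a b p : ℝ} (hp0 : 0 ≤ p) (hp1 : p ≤ 1) :
    Fu 1 (a + p * (b - a)) ≤ (1 - p) * Fu 1 a + p * Fu 1 b + Real.pi / 4 * |b - a| := by
  rw [Fu_one, Fu_one, Fu_one]
  have hpi := Real.pi_pos
  have h1 : |a| ≤ |a + p * (b - a)| + p * |b - a| := by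
    have := abs_sub_abs_le_abs_sub a (a + p * (b - a))
    rw [show a - (a + p * (b - a)) = -(p * (b - a)) by ring, abs_neg, abs_mul,
      abs_of_nonneg hp0] at this
    linarith
  have h2 : |b| ≤ |a + p * (b - a)| + (1 - p) * |b - a| := by
    have := abs_sub_abs_le_abs_sub b (a + p * (b - a))
    rw [show b - (a + p * (b - a)) = (1 - p) * (b - a) by ring, abs_mul,
      abs_of_nonneg (by linarith : 0 ≤ 1 - p)] at this
    linarith
  have h3 := mul_le_mul_of_nonneg_left h1 (show 0 ≤ 1 - p by linarith)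
  have h4 := mul_le_mul_of_nonneg_left h2 hp0
  have h5 : 2 * (p * (1 - p)) ≤ 1 / 2 := by nlinarith [sq_nonneg (p - 1 / 2)]
  have h6 := mul_le_mul_of_nonneg_right h5 (abs_nonneg (b - a))
  have h7 : (1 - p) * |a| + p * |b| ≤ |a + p * (b - a)| + 1 / 2 * |b - a| := by nlinarith
  have h8 := mul_le_mul_of_nonneg_left h7 (show 0 ≤ Real.pi / 2 by positivity)
  nlinarith [h8]

end Pool.Agent.S5.G3
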