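import Pool.Agent.S5.K3.G7
import Pool.Agent.S5.K3.Sad3

/-!
# The rows of a node with three half twists: the base point and the intervals
-/

set_option autoImplicit false

namespace Pool.Agent.S5.G3

open Pool.Agent.H63.VC3 Pool.Agent.S3 Complex MeasureTheory Filter Topology Set
open Pool.Agent.S5.Tb Pool.Agent.S5.K3

variable {p : BP} {o : OutB} {ys zs bs : ℂ} {fy fb : Bool} {J1 : ℕ}

namespace GC


/-! ### The points of the table -/

/-- The data of one angle at the base point. -/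
structure Bd (w : ℂ) (E h : ℕ) : Prop where
  q : |-Rf w * 1048576 - (qE E : ℝ)| ≤ 32
  t : |(hh w).im * 1048576 - ((h : ℝ) - 67108864)| ≤ 4
  h0 : 62914560 ≤ h
  h1 : h ≤ 71303168
  r0 : 0 < w.re
  r1 : w.re ≤ 1 / 2

theorem tE_lt (e : ℕ) : tE e < 4194304 := by
  unfold tE
  exact Nat.mod_lt _ (by norm_num)

theorem Bd.of {i p n : ℕ} {w : ℂ} (h1 : 1 ≤ i) (h2 : i ≤ 100) (hd : ad p n ≤ 60)
    (hr : w.re = (i : ℝ) / 200) (hi : w.im = ((p : ℝ) - n) / 200) :
    Bd w (ent6 i (ad p n)) (sgt p n (tE (ent6 i (ad p n)))) := by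
  have hE := ent6_ok i (ad p n) h2 hd (by omega)
  have ht := tE_lt (ent6 i (ad p n))
  have h1' : (1 : ℝ) ≤ i := by exact_mod_cast h1
  have h2' : (i : ℝ) ≤ 100 := by exact_mod_cast h2
  have pr : (pt i (ad p n)).re = (i : ℝ) / 200 := by unfold pt; exact line_re _ _
  have pi' : (pt i (ad p n)).im = ((ad p n : ℕ) : ℝ) / 200 := by unfold pt; exact line_im _ _
  have r0 : 0 < w.re := by rw [hr]; linarith only [h1']
  have r1 : w.re ≤ 1 / 2 := by rw [hr]; linarith only [h2']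
  rcases Nat.lt_or_ge p n with h | h
  · have e1 : ad p n = n - p := by
      show (p - n) + (n - p) = n - p
      omega
    have e2 : ((ad p n : ℕ) : ℝ) = (n : ℝ) - p := by rw [e1, Nat.cast_sub h.le]
    have ew : w = (starRingEnd ℂ) (pt i (ad p n)) := by
      apply Complex.ext
      · rw [conj_re, pr, hr]
      · rw [conj_im, pi', hi, e2]
        ring
    have e3 : sgt p n (tE (ent6 i (ad p n))) = 67108864 - tE (ent6 i (ad p n)) := by
      unfold sgt
      rw [show Nat.ble n p = false by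
        rw [← Bool.not_eq_true, Nat.ble_eq]
        omega]
      rfl
    have e4 : ((sgt p n (tE (ent6 i (ad p n))) : ℕ) : ℝ) =
        67108864 - (tE (ent6 i (ad p n)) : ℝ) := by
      rw [e3, Nat.cast_sub (by omega)]
      norm_num
    refine ⟨?_, ?_, ?_, ?_, r0, r1⟩
    · rw [ew, Rf_conj]
      exact hE.q
    · rw [ew, hh_conj _ (by rw [pr]; linarith only [h1']) (by rw [pr]; linarith only [h2']), conj_im, e4]
      have := hE.t
      rw [abs_le] at this ⊢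
      constructor <;> linarith [this.1, this.2]
    · rw [e3]
      omega
    · rw [e3]
      omega
  · have e1 : ad p n = p - n := by
      show (p - n) + (n - p) = p - n
      omega
    have e2 : ((ad p n : ℕ) : ℝ) = (p : ℝ) - n := by rw [e1, Nat.cast_sub h]
    have ew : w = pt i (ad p n) := by
      apply Complex.ext
      · rw [pr, hr]
      · rw [pi', hi, e2]
    have e3 : sgt p n (tE (ent6 i (ad p n))) = 67108864 + tE (ent6 i (ad p n)) := by
      unfold sgt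
      rw [Nat.ble_eq_true_of_le h]
      rfl
    have e4 : ((sgt p n (tE (ent6 i (ad p n))) : ℕ) : ℝ) =
        67108864 + (tE (ent6 i (ad p n)) : ℝ) := by
      rw [e3, Nat.cast_add]
      norm_num
    refine ⟨?_, ?_, ?_, ?_, r0, r1⟩
    · rw [ew]
      exact hE.q
    · rw [ew, e4]
      have := hE.t
      rw [abs_le] at this ⊢
      constructor <;> linarith [this.1, this.2]
    · rw [e3]
      omega
    · rw [e3]
      omega

theorem ad_comm' (a b : ℕ) : ad a b = ad b a := by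
  show (a - b) + (b - a) = (b - a) + (a - b)
  omega

theorem cnd {c a : Bool} : cond c a false = true ↔ c = true ∧ a = true := by
  cases c <;> simp

/-- The bounds of the indices. -/
structure BPf (p : BP) : Prop where
  iy : p.iy ≤ 99
  ib : p.ib ≤ 99
  iz1 : 1 ≤ p.iz
  iz : p.iz ≤ 100
  yz : p.iy ≤ p.iz
  zy : p.iz ≤ p.iy + 99
  zb : 101 ≤ p.iz + p.ib
  zb1 : p.iz + p.ib ≤ 200
  jy : p.jy ≤ 60
  jz : p.jz ≤ 60
  jb : p.jb ≤ 60

theorem BPf.of {p : BP} (h : p.ok = true) : BPf p := by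
  simp only [BP.ok, cnd, Nat.ble_eq] at h
  obtain ⟨a1, a2, a3, a4, a5, a6, a7, a8, a9, a10, a11⟩ := h
  exact ⟨a1, a2, a3, a4, a5, a6, a7, a8, a9, a10, a11⟩

theorem BP.y0_re (p : BP) : p.y0.re = (p.iy : ℝ) / 200 := by unfold BP.y0; exact line_re _ _
theorem BP.y0_im (p : BP) : p.y0.im = ((p.jy : ℝ) - 30) / 200 := by
  unfold BP.y0; exact line_im _ _
theorem BP.z0_re (p : BP) : p.z0.re = ((p.iz : ℝ) - 100) / 200 := by
  unfold BP.z0; exact line_re _ _
theorem BP.z0_im (p : BP) : p.z0.im = ((p.jz : ℝ) - 30) / 200 := by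
  unfold BP.z0; exact line_im _ _
theorem BP.b0_re (p : BP) : p.b0.re = (p.ib : ℝ) / 200 := by unfold BP.b0; exact line_re _ _
theorem BP.b0_im (p : BP) : p.b0.im = ((p.jb : ℝ) - 30) / 200 := by
  unfold BP.b0; exact line_im _ _

theorem hf_re : ((1 : ℂ) / 2).re = 1 / 2 := by simp
theorem hf_im : ((1 : ℂ) / 2).im = 0 := by simp

/-- The five angles. -/
structure BPd (p : BP) : Prop where
  w1 : Bd (1 / 2 - p.y0) p.E1 p.h1
  w2 : Bd (1 / 2 - p.b0) p.E2 p.h2
  w3 : Bd (p.y0 - p.z0) p.E3 p.h3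
  w4 : Bd (p.z0 + 1 / 2) p.E4 p.h4
  w5 : Bd (p.z0 + p.b0) p.E5 p.h5

theorem ad_le {a b m : ℕ} (h1 : a ≤ b + m) (h2 : b ≤ a + m) : ad a b ≤ m := by
  show (a - b) + (b - a) ≤ m
  omega

theorem BPd.of {p : BP} (h : BPf p) : BPd p := by
  obtain ⟨a1, a2, a3, a4, a5, a6, a7, a8, a9, a10, a11⟩ := h
  refine ⟨?_, ?_, ?_, ?_, ?_⟩
  · have e : p.E1 = ent6 (100 - p.iy) (ad 30 p.jy) := by
      unfold BP.E1
      rw [ad_comm']
      rfl
    unfold BP.h1
    rw [e]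
    refine Bd.of (by omega) (by omega) (ad_le (by omega) (by omega)) ?_ ?_
    · rw [sub_re, hf_re, BP.y0_re, Nat.cast_sub (by omega)]
      push_cast
      ring
    · rw [sub_im, hf_im, BP.y0_im]
      push_cast
      ring
  · have e : p.E2 = ent6 (100 - p.ib) (ad 30 p.jb) := by
      unfold BP.E2
      rw [ad_comm']
      rfl
    unfold BP.h2
    rw [e]
    refine Bd.of (by omega) (by omega) (ad_le (by omega) (by omega)) ?_ ?_
    · rw [sub_re, hf_re, BP.b0_re, Nat.cast_sub (by omega)]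
      push_cast
      ring
    · rw [sub_im, hf_im, BP.b0_im]
      push_cast
      ring
  · have e : p.E3 = ent6 (p.iy + 100 - p.iz) (ad p.jy p.jz) := rfl
    unfold BP.h3
    rw [e]
    refine Bd.of (by omega) (by omega) (ad_le (by omega) (by omega)) ?_ ?_
    · rw [sub_re, BP.y0_re, BP.z0_re, Nat.cast_sub (by omega)]
      push_cast
      ring
    · rw [sub_im, BP.y0_im, BP.z0_im]
      ring
  · have e : p.E4 = ent6 p.iz (ad p.jz 30) := rfl
    unfold BP.h4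
    rw [e]
    refine Bd.of (by omega) (by omega) (ad_le (by omega) (by omega)) ?_ ?_
    · rw [add_re, hf_re, BP.z0_re]
      ring
    · rw [add_im, hf_im, BP.z0_im]
      push_cast
      ring
  · have e : p.E5 = ent6 (p.iz + p.ib - 100) (ad (p.jz + p.jb) 60) := rfl
    unfold BP.h5
    rw [e]
    refine Bd.of (by omega) (by omega) (ad_le (by omega) (by omega)) ?_ ?_
    · rw [add_re, BP.z0_re, BP.b0_re, Nat.cast_sub (by omega)]
      push_cast
      ring
    · rw [add_im, BP.z0_im, BP.b0_im]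
      push_cast
      ring

/-! ### The slopes at the base point -/

theorem pi_lo : (6588397 / 2 : ℝ) ≤ Real.pi * 1048576 := by
  have := Real.pi_gt_d20
  linarith only [this]

theorem pi_hi : Real.pi * 1048576 ≤ 3294199 := by
  have := Real.pi_lt_d20
  linarith only [this]

theorem div_pi {k d : ℕ} (hd : 0 < d) (hk : k ≤ d) :
    -1 ≤ ((3294199 * k / d : ℕ) : ℝ) - Real.pi * 1048576 * ((k : ℝ) / d) ∧
      ((3294199 * k / d : ℕ) : ℝ) - Real.pi * 1048576 * ((k : ℝ) / d) ≤ 1 / 2 := by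
  have hd' : (0 : ℝ) < d := by exact_mod_cast hd
  have hk' : (k : ℝ) ≤ d := by exact_mod_cast hk
  have r0 : 0 ≤ (k : ℝ) / d := by positivity
  have r1 : (k : ℝ) / d ≤ 1 := (div_le_one hd').2 hk'
  have h1 : ((3294199 * k / d : ℕ) : ℝ) ≤ 3294199 * ((k : ℝ) / d) := by
    have := Nat.cast_div_le (α := ℝ) (m := 3294199 * k) (n := d)
    push_cast at this
    rwa [mul_div_assoc] at this
  have h2 : 3294199 * ((k : ℝ) / d) ≤ ((3294199 * k / d : ℕ) : ℝ) + 1 := by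
    have h := Nat.lt_div_mul_add (a := 3294199 * k) (b := d) hd
    have h3 : ((3294199 * k : ℕ) : ℝ) < ((3294199 * k / d : ℕ) : ℝ) * d + d := by exact_mod_cast h
    push_cast at h3
    rw [← mul_div_assoc, div_le_iff₀ hd']
    linarith only [h3]
  have h3 := mul_le_mul_of_nonneg_right pi_lo r0
  have h4 := mul_le_mul_of_nonneg_right pi_hi r0
  constructor
  · linarith only [h4, h2]
  · linarith only [h3, h1, r1]

theorem l3y_im (ys zs : ℂ) : (l3y ys zs).im = 2 * (hh (1 / 2 - ys)).im - (hh (ys - zs)).im -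
    Real.pi * (ys.re + zs.re - 1 / 2) := by
  unfold l3y
  simp only [sub_im, mul_im, mul_re, add_re, sub_re, ofReal_re, ofReal_im, I_re, I_im, add_im,
    re_ofNat, im_ofNat, hf_re, hf_im]
  ring

theorem l3b_im (zs bs : ℂ) : (l3b zs bs).im = (hh (1 / 2 - bs)).im - (hh (zs + bs)).im +
    Real.pi * (zs.re + 1 / 2) := by
  unfold l3b
  simp only [sub_im, mul_im, mul_re, add_re, ofReal_re, ofReal_im, I_re, I_im, add_im,
    hf_re, hf_im]
  ring

theorem l3z_im (ys zs bs : ℂ) : (l3z ys zs bs).im = (hh (ys - zs)).im - (hh (zs + 1 / 2)).im -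
    (hh (zs + bs)).im - Real.pi * (ys.re + zs.re + 1 / 2) + Real.pi * (bs.re + 1 / 2) := by
  unfold l3z
  simp only [sub_im, mul_im, mul_re, add_re, ofReal_re, ofReal_im, I_re, I_im, add_im,
    hf_re, hf_im]
  ring

theorem dY_ok (h : BPf p) (d : BPd p) : |1048576 * (l3y p.y0 p.z0).im -
    ((p.dY : ℝ) - 67108864)| ≤ 14 ∧ 54000000 ≤ p.dY := by
  have c1 : ((p.iy + p.iz : ℕ) : ℝ) = (p.iy : ℝ) + p.iz := by push_cast; ring
  have e : p.dY = 2 * p.h1 + 3294199 * (200 - (p.iy + p.iz)) / 200 - p.h3 := rfl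
  have b1 := d.w1.h0
  have b3 := d.w3.h1
  have t1 := abs_le.1 d.w1.t
  have t3 := abs_le.1 d.w3.t
  have hk : 200 - (p.iy + p.iz) ≤ 200 := Nat.sub_le _ _
  obtain ⟨q1, q2⟩ := div_pi (k := 200 - (p.iy + p.iz)) (d := 200) (by norm_num) hk
  have hc : ((200 - (p.iy + p.iz) : ℕ) : ℝ) = 200 - (p.iy : ℝ) - p.iz := by
    rw [Nat.cast_sub (by have := h.iy; have := h.iz; omega)]
    push_cast
    ring
  rw [hc] at q1 q2
  push_cast at q1 q2
  generalize 3294199 * (200 - (p.iy + p.iz)) / 200 = X at e q1 q2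
  have e' : (p.dY : ℝ) = 2 * p.h1 + X - p.h3 := by
    rw [e, Nat.cast_sub (by omega)]
    push_cast
    ring
  refine ⟨?_, by omega⟩
  rw [l3y_im, BP.y0_re, BP.z0_re, e', abs_le]
  constructor <;> linarith

theorem dB_ok (h : BPf p) (d : BPd p) : |1048576 * (l3b p.z0 p.b0).im -
    ((p.dB : ℝ) - 67108864)| ≤ 14 ∧ 54000000 ≤ p.dB := by
  have e : p.dB = p.h2 + (67108864 + 3294199 * p.iz / 200) - p.h5 := rfl
  have b1 := d.w2.h0
  have b3 := d.w5.h1
  have t1 := abs_le.1 d.w2.t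
  have t3 := abs_le.1 d.w5.t
  obtain ⟨q1, q2⟩ := div_pi (k := p.iz) (d := 200) (by norm_num) (by have := h.iz; omega)
  push_cast at q1 q2
  generalize 3294199 * p.iz / 200 = X at e q1 q2
  have e' : (p.dB : ℝ) = p.h2 + (67108864 + X) - p.h5 := by
    rw [e, Nat.cast_sub (by omega)]
    push_cast
    ring
  refine ⟨?_, by omega⟩
  rw [l3b_im, BP.z0_re, e', abs_le]
  constructor <;> linarith

theorem dZ_ok (h : BPf p) (d : BPd p) : |1048576 * (l3z p.y0 p.z0 p.b0).im -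
    ((p.dZ : ℝ) - 67108864)| ≤ 16 ∧ 50000000 ≤ p.dZ := by
  have e : p.dZ = p.h3 + (134217728 + 3294199 * (p.ib + 100) / 200) -
      (p.h4 + p.h5 + 3294199 * (p.iy + p.iz) / 200) := rfl
  have b3 := d.w3.h0
  have b4 := d.w4.h1
  have b5 := d.w5.h1
  have t3 := abs_le.1 d.w3.t
  have t4 := abs_le.1 d.w4.t
  have t5 := abs_le.1 d.w5.t
  obtain ⟨q1, q2⟩ := div_pi (k := p.ib + 100) (d := 200) (by norm_num)
    (by have := h.ib; omega)
  obtain ⟨q3, q4⟩ := div_pi (k := p.iy + p.iz) (d := 200) (by norm_num)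
    (by have := h.iy; have := h.iz; omega)
  have hY : 3294199 * (p.iy + p.iz) / 200 ≤ 3294199 := by
    have := h.iy
    have := h.iz
    omega
  push_cast at q1 q2 q3 q4
  generalize 3294199 * (p.ib + 100) / 200 = X at e q1 q2
  generalize 3294199 * (p.iy + p.iz) / 200 = Y at e q3 q4 hY
  have e' : (p.dZ : ℝ) = p.h3 + (134217728 + X) - (p.h4 + p.h5 + Y) := by
    rw [e, Nat.cast_sub (by omega)]
    push_cast
    ring
  refine ⟨?_, by omega⟩
  rw [l3z_im, BP.y0_re, BP.z0_re, BP.b0_re, e', abs_le]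
  constructor <;> linarith

/-! ### The heights -/

theorem e_lo {lo : ℕ} {x : ℝ} (h : 817280 ≤ 25 * lo / 2048)
    (hx : (lo : ℝ) - 67108864 ≤ 1048576 * x) :
    ((25 * lo / 2048 - 817280 : ℕ) : ℝ) - 1920 ≤ 12800 * x := by
  rw [Nat.cast_sub h]
  have h1 := Nat.cast_div_le (α := ℝ) (m := 25 * lo) (n := 2048)
  push_cast at h1 ⊢
  linarith only [h1, hx]

theorem e_hi {hi : ℕ} {x : ℝ} (hx : 1048576 * x ≤ (hi : ℝ) - 67108864) :
    12800 * x ≤ ((25 * hi / 2048 - 817279 : ℕ) : ℝ) - 1920 := by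
  have h := Nat.lt_div_mul_add (a := 25 * hi) (b := 2048) (by norm_num)
  have h3 : ((25 * hi : ℕ) : ℝ) < ((25 * hi / 2048 : ℕ) : ℝ) * 2048 + 2048 := by exact_mod_cast h
  have h4 : ((25 * hi / 2048 : ℕ) : ℝ) ≤ ((25 * hi / 2048 - 817279 : ℕ) : ℝ) + 817279 := by
    have : 25 * hi / 2048 ≤ 25 * hi / 2048 - 817279 + 817279 := le_tsub_add
    exact_mod_cast this
  push_cast at h3
  linarith only [h3, h4, hx]

/-- The conditions on the heights. -/
structure Hts (o : OutB) (J1 : ℕ) : Prop where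
  y : 817280 ≤ 25 * o.ys.im.lo / 2048
  b : 817280 ≤ 25 * o.bs.im.lo / 2048
  z : 817280 ≤ 25 * o.zs.im.lo / 2048
  m1 : n1 o ≤ 3840
  m01 : n0 o < n1 o

theorem Hts.of (h : okN o J1 = true) : Hts o J1 := by
  simp only [okN, cnd, Nat.ble_eq, Num.mul_eq', Num.div_eq'] at h
  obtain ⟨a1, a2, a3, a4, a5, -⟩ := h
  exact ⟨a1, a2, a3, a4, a5⟩

end GC

open GC in
theorem C_y (hp : p.ok = true) (hN : okN o J1 = true)
    (ho : o.In fy fb (l3y ys zs) (l3b zs bs) ys zs bs (hh (1 / 2 - ys)) (hh (1 / 2 - bs))) :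
    SDok (sdY p o) (srY p ys zs) fy := by
  have hf := BPf.of hp
  have hd := BPd.of hf
  have hH := Hts.of hN
  obtain ⟨D, D0⟩ := dY_ok hf hd
  have D := abs_le.1 D
  have t1 := abs_le.1 hd.w1.t
  have q1 := abs_le.1 hd.w1.q
  have b1 := hd.w1.h1
  refine ⟨rfl, ?_, ?_, ?_, ?_, ?_, ?_, ?_, ?_, ?_, ?_, ?_, ?_, ?_, ?_, ?_, ?_, ?_⟩
  · have := hf.iy
    show p.iy ≤ 100
    omega
  · have := hf.jy
    show 64 * p.jy ≤ 3840
    omega
  · exact ho.cly.1.1
  · exact ho.cly.1.2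
  · exact ho.cly.2.1
  · exact ho.cly.2.2
  · show ((p.dY - 20 : ℕ) : ℝ) - 67108864 ≤ 1048576 * (l3y p.y0 p.z0).im
    rw [Nat.cast_sub (by omega)]
    push_cast
    linarith only [D.1]
  · show 1048576 * (l3y p.y0 p.z0).im ≤ ((p.dY + 20 : ℕ) : ℝ) - 67108864
    push_cast
    linarith only [D.2]
  · show ((p.dY + 67108864 - (p.h1 + 20) : ℕ) : ℝ) - 67108864 ≤
      1048576 * ((l3y p.y0 p.z0).im - (hh (1 / 2 - p.y0)).im)
    rw [Nat.cast_sub (by omega)]
    push_cast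
    linarith only [t1.2, D.1]
  · show 1048576 * ((l3y p.y0 p.z0).im - (hh (1 / 2 - p.y0)).im) ≤
      ((p.dY + 67108884 - p.h1 : ℕ) : ℝ) - 67108864
    rw [Nat.cast_sub (by omega)]
    push_cast
    linarith only [t1.1, D.2]
  · have e : (sdY p o).f0 = Nat.add 8388608000 (Nat.mul 8000 (Nat.add (qE p.E1) 32)) := rfl
    rw [e]
    simp only [Num.add_eq', Num.mul_eq', Nat.cast_add, Nat.cast_mul, Nat.cast_ofNat]
    show 8388608000 * (Fu (1 / 2 - p.y0.re) p.y0.im + 1) ≤ _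
    rw [← nRf_half (F := Fu) (fun _ _ => rfl)]
    linarith only [q1.2]
  · exact fun hf => (ho.chy hf).1.1
  · exact fun hf => (ho.chy hf).1.2
  · exact fun hf => (ho.chy hf).2.1
  · exact fun hf => (ho.chy hf).2.2
  · exact e_lo hH.y ho.cy.2.1
  · exact e_hi ho.cy.2.2

open GC in
theorem C_b (hp : p.ok = true) (hN : okN o J1 = true)
    (ho : o.In fy fb (l3y ys zs) (l3b zs bs) ys zs bs (hh (1 / 2 - ys)) (hh (1 / 2 - bs))) :
    SDok (sdB p o) (srB p zs bs) fb := by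
  have hf := BPf.of hp
  have hd := BPd.of hf
  have hH := Hts.of hN
  obtain ⟨D, D0⟩ := dB_ok hf hd
  have D := abs_le.1 D
  have t1 := abs_le.1 hd.w2.t
  have q1 := abs_le.1 hd.w2.q
  have b1 := hd.w2.h1
  refine ⟨rfl, ?_, ?_, ?_, ?_, ?_, ?_, ?_, ?_, ?_, ?_, ?_, ?_, ?_, ?_, ?_, ?_, ?_⟩
  · have := hf.ib
    show p.ib ≤ 100
    omega
  · have := hf.jb
    show 64 * p.jb ≤ 3840
    omega
  · exact ho.clb.1.1
  · exact ho.clb.1.2
  · exact ho.clb.2.1
  · exact ho.clb.2.2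
  · show ((p.dB - 20 : ℕ) : ℝ) - 67108864 ≤ 1048576 * (l3b p.z0 p.b0).im
    rw [Nat.cast_sub (by omega)]
    push_cast
    linarith only [D.1]
  · show 1048576 * (l3b p.z0 p.b0).im ≤ ((p.dB + 20 : ℕ) : ℝ) - 67108864
    push_cast
    linarith only [D.2]
  · show ((p.dB + 67108864 - (p.h2 + 20) : ℕ) : ℝ) - 67108864 ≤
      1048576 * ((l3b p.z0 p.b0).im - (hh (1 / 2 - p.b0)).im)
    rw [Nat.cast_sub (by omega)]
    push_cast
    linarith only [t1.2, D.1]
  · show 1048576 * ((l3b p.z0 p.b0).im - (hh (1 / 2 - p.b0)).im) ≤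
      ((p.dB + 67108884 - p.h2 : ℕ) : ℝ) - 67108864
    rw [Nat.cast_sub (by omega)]
    push_cast
    linarith only [t1.1, D.2]
  · have e : (sdB p o).f0 = Nat.add 8388608000 (Nat.mul 8000 (Nat.add (qE p.E2) 32)) := rfl
    rw [e]
    simp only [Num.add_eq', Num.mul_eq', Nat.cast_add, Nat.cast_mul, Nat.cast_ofNat]
    show 8388608000 * (Fu (1 / 2 - p.b0.re) p.b0.im + 1) ≤ _
    rw [← nRf_half (F := Fu) (fun _ _ => rfl)]
    linarith only [q1.2]
  · exact fun hf => (ho.chb hf).1.1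
  · exact fun hf => (ho.chb hf).1.2
  · exact fun hf => (ho.chb hf).2.1
  · exact fun hf => (ho.chb hf).2.2
  · exact e_lo hH.b ho.cb.2.1
  · exact e_hi ho.cb.2.2

namespace GC

/-! ### The losses of the angles -/

theorem KB_10 : VB.KB (1037 / 100) (1 / 10) := by
  apply VB.KB_of <;> norm_num

theorem anE_ok {x : ℕ} {w0 w : ℂ} (h0 : 0 < w0.re) (h1 : w0.re ≤ 1 / 2) (h2 : 0 < w.re)
    (h3 : 1048576 * (w.re - 1 / 2) ≤ x) (hx : x ≤ 104857) :
    An ((anE x : ℝ) / 8388608000) w0 w := by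
  have key : ∀ (ε : ℝ) (c : ℕ), 0 ≤ ε → ε ≤ 1 / 10 → (x : ℝ) ≤ 1048576 * ε →
      1037 / 100 * ε ^ 3 * 8388608000 ≤ (c : ℝ) → An ((c : ℝ) / 8388608000) w0 w := by
    intro ε c e0 e1 e2 e3
    have hk : VB.KB (1037 / 100) ε :=
      ⟨e1.trans (by norm_num), fun s v v0 v1 => KB_10.2 s v v0 (v1.trans e1)⟩
    refine (An_half hk (by norm_num) h0 h1 h2 (by linarith only [e2, h3]) e0 e1).mono ?_
    rw [le_div_iff₀ (by norm_num)]
    exact e3
  unfold anE
  rcases hb : Nat.beq x 0 with _ | _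
  · rcases h4 : Nat.ble x 31457 with _ | _
    · rcases h5 : Nat.ble x 62914 with _ | _
      · rcases h6 : Nat.ble x 83886 with _ | _
        · refine key (1 / 10) _ (by norm_num) le_rfl ?_ (by norm_num)
          have : (x : ℝ) ≤ 104857 := by exact_mod_cast hx
          linarith only [this, h1, h0]
        · refine key (8 / 100) _ (by norm_num) (by norm_num) ?_ (by norm_num)
          have : (x : ℝ) ≤ 83886 := by exact_mod_cast Nat.ble_eq.mp h6
          linarith only [this, h1, h0]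
      · refine key (6 / 100) _ (by norm_num) (by norm_num) ?_ (by norm_num)
        have : (x : ℝ) ≤ 62914 := by exact_mod_cast Nat.ble_eq.mp h5
        linarith only [this, h1, h0]
    · refine key (3 / 100) _ (by norm_num) (by norm_num) ?_ (by norm_num)
      have : (x : ℝ) ≤ 31457 := by exact_mod_cast Nat.ble_eq.mp h4
      linarith only [this, h1, h0]
  · have hx0 : x = 0 := Nat.beq_eq.mp hb
    rw [hx0, Nat.cast_zero] at h3
    have h4 := An_zero h0 h1 h2 (show w.re ≤ 1 / 2 by linarith only [h3])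
    refine h4.mono (le_of_eq ?_)
    show (0 : ℝ) = ((0 : ℕ) : ℝ) / 8388608000
    simp

/-! ### The constants -/

theorem nsub_ge (a b : ℕ) : (a : ℝ) - b ≤ ((a - b : ℕ) : ℝ) := by
  have : a ≤ a - b + b := le_tsub_add
  have h : (a : ℝ) ≤ ((a - b : ℕ) : ℝ) + b := by exact_mod_cast this
  linarith only [h]

/-- The linear term. -/
theorem mp_ge {lo hi nu m : ℕ} {D : ℝ} (h0 : (lo : ℝ) - 67108864 ≤ 1048576 * D)
    (h1 : 1048576 * D ≤ (hi : ℝ) - 67108864) :
    1048576 * D * ((nu : ℝ) - m) ≤ (mpp hi nu m : ℝ) - mpn lo nu m := by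
  have e1 : mpp hi nu m = hi * (nu - m) + 67108864 * (m - nu) := rfl
  have e2 : mpn lo nu m = 67108864 * (nu - m) + lo * (m - nu) := rfl
  rw [e1, e2]
  rcases le_total m nu with h | h
  · rw [Nat.sub_eq_zero_of_le h]
    push_cast
    rw [Nat.cast_sub h]
    have h2 : 0 ≤ (nu : ℝ) - m := by
      have : (m : ℝ) ≤ nu := by exact_mod_cast h
      linarith only [this]
    have := mul_le_mul_of_nonneg_right h1 h2
    linarith only [this]
  · rw [Nat.sub_eq_zero_of_le h]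
    push_cast
    rw [Nat.cast_sub h]
    have h2 : 0 ≤ (m : ℝ) - nu := by
      have : (nu : ℝ) ≤ m := by exact_mod_cast h
      linarith only [this]
    have := mul_le_mul_of_nonneg_right h0 h2
    linarith only [this]

theorem zc_ge (hf : BPf p) (hd : BPd p) (nu w : ℕ) :
    (zP p o : ℝ) - zN p + 655360 * (l3z p.y0 p.z0 p.b0).im * ((nu : ℝ) - 64 * p.jz) ≤
      (zc p o nu w : ℝ) + 4117747 * w := by
  obtain ⟨D, D0⟩ := dZ_ok hf hd
  have D := abs_le.1 D
  have h := mp_ge (lo := p.dZ - 20) (hi := p.dZ + 20) (nu := nu) (m := 64 * p.jz)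
    (D := (l3z p.y0 p.z0 p.b0).im) (by
      rw [Nat.cast_sub (by omega)]
      push_cast
      linarith only [D.1]) (by push_cast; linarith only [D.2])
  have e : zc p o nu w = zP p o + (5 * mpp (p.dZ + 20) nu (64 * p.jz) + 7) / 8 -
      (zN p + (5 * mpn (p.dZ - 20) nu (64 * p.jz) / 8 + 4117747 * w)) := rfl
  rw [e]
  generalize mpp (p.dZ + 20) nu (64 * p.jz) = A at h ⊢
  generalize mpn (p.dZ - 20) nu (64 * p.jz) = B at h ⊢
  have h1 := nsub_ge (zP p o + (5 * A + 7) / 8) (zN p + (5 * B / 8 + 4117747 * w))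
  have h2 : (5 * (A : ℝ)) ≤ 8 * (((5 * A + 7) / 8 : ℕ) : ℝ) := by
    have : 5 * A ≤ 8 * ((5 * A + 7) / 8) := by omega
    exact_mod_cast this
  have h3 : 8 * ((5 * B / 8 : ℕ) : ℝ) ≤ 5 * (B : ℝ) := by
    have : 8 * (5 * B / 8) ≤ 5 * B := by omega
    exact_mod_cast this
  push_cast at h h1
  generalize (((5 * A + 7) / 8 : ℕ) : ℝ) = A' at h1 h2 ⊢
  generalize ((5 * B / 8 : ℕ) : ℝ) = B' at h1 h3 ⊢
  linarith only [h3, h1, h2, h]

theorem qbd {F E : ℝ} (h : |F * 1048576 - E| ≤ 32) : 8000 * E - 256000 ≤ 8388608000 * F := by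
  have := (abs_le.1 h).1
  linarith only [this]

/-- The constant of the base point. -/
theorem Gz3_ge (hf : BPf p) (hd : BPd p) {a3 a4 : ℕ}
    (ha3 : a3 = anE (o.ys.re.hi - (o.zs.re.lo + 524288)))
    (ha4 : a4 = anE (o.zs.re.hi - 67108864)) :
    -(8388608000 * Gz3 p.y0 p.z0 p.b0) + a3 + a4 + 137438953472 + 66640 ≤
      (zP p o : ℝ) - zN p := by
  obtain ⟨x1, x2, x3, x4, x5, x6, x7, x8, x9, x10, x11⟩ := hf
  have eP : zP p o = 137438953472 + 1720000 + (3294199 * ((p.jy + p.jz) *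
      (200 - (p.iy + p.iz)) + (p.iz * p.jb + 30 * (100 - p.ib))) / 5 + (a3 + a4)) := by
    rw [ha3, ha4]
    rfl
  have eN : zN p = 8000 * (2 * qE p.E1 + (qE p.E2 + qE p.E3 + (qE p.E4 + qE p.E5))) +
      3294199 * (60 * (200 - (p.iy + p.iz)) + (30 * p.iz + p.jz * (100 - p.ib))) / 5 := rfl
  have hG := Gz3_ex (F := Fu) (fun _ _ => rfl) p.y0 p.z0 p.b0
  have q1 := hd.w1.q
  have q2 := hd.w2.q
  have q3 := hd.w3.q
  have q4 := hd.w4.q
  have q5 := hd.w5.q
  rw [nRf_half (F := Fu) (fun _ _ => rfl)] at q1 q2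
  rw [Fu_eq, sub_re, sub_im] at q3
  rw [Fu_eq, add_re, add_im, hf_re, hf_im, add_zero] at q4
  rw [Fu_eq, add_re, add_im] at q5
  have q1 := qbd q1
  have q2 := qbd q2
  have q3 := qbd q3
  have q4 := qbd q4
  have q5 := qbd q5
  generalize Fu (1 / 2 - p.y0.re) p.y0.im = F1 at hG q1
  generalize Fu (1 / 2 - p.b0.re) p.b0.im = F2 at hG q2
  generalize Fu (p.y0.re - p.z0.re) (p.y0.im - p.z0.im) = F3 at hG q3
  generalize Fu (p.z0.re + 1 / 2) p.z0.im = F4 at hG q4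
  generalize Fu (p.z0.re + p.b0.re) (p.z0.im + p.b0.im) = F5 at hG q5
  rw [BP.y0_re, BP.y0_im, BP.z0_re, BP.z0_im, BP.b0_re, BP.b0_im] at hG
  -- the integers
  obtain ⟨A, hA⟩ : ∃ A, A = (p.jy + p.jz) * (200 - (p.iy + p.iz)) +
    (p.iz * p.jb + 30 * (100 - p.ib)) := ⟨_, rfl⟩
  obtain ⟨B, hB⟩ : ∃ B, B = 60 * (200 - (p.iy + p.iz)) + (30 * p.iz + p.jz * (100 - p.ib)) :=
    ⟨_, rfl⟩
  have cA : (A : ℝ) = ((p.jy : ℝ) + p.jz) * (200 - (p.iy + p.iz)) +
      (p.iz * p.jb + 30 * (100 - p.ib)) := by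
    rw [hA]
    push_cast
    rw [Nat.cast_sub (by omega), Nat.cast_sub (by omega)]
    push_cast
    ring
  have cB : (B : ℝ) = 60 * (200 - ((p.iy : ℝ) + p.iz)) + (30 * p.iz + p.jz * (100 - p.ib)) := by
    rw [hB]
    push_cast
    rw [Nat.cast_sub (by omega), Nat.cast_sub (by omega)]
    push_cast
    ring
  have hBle : B ≤ 21000 := by
    have h1 : p.jz * (100 - p.ib) ≤ 60 * 100 := Nat.mul_le_mul x10 (Nat.sub_le _ _)
    omega
  have hBle' : (B : ℝ) ≤ 21000 := by exact_mod_cast hBle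
  rw [← hA] at eP
  rw [← hB] at eN
  have dA : 3294199 * (A : ℝ) ≤ 5 * ((3294199 * A / 5 : ℕ) : ℝ) + 4 := by
    have : 3294199 * A ≤ 5 * (3294199 * A / 5) + 4 := by omega
    exact_mod_cast this
  have dB : 5 * ((3294199 * B / 5 : ℕ) : ℝ) ≤ 3294199 * (B : ℝ) := by
    have : 5 * (3294199 * B / 5) ≤ 3294199 * B := by omega
    exact_mod_cast this
  have pA := mul_le_mul_of_nonneg_right pi_hi (Nat.cast_nonneg (α := ℝ) A)
  have pB := mul_le_mul_of_nonneg_right pi_lo (Nat.cast_nonneg (α := ℝ) B)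
  have hpi : 8388608000 * (Real.pi * (((p.iy : ℝ) / 200 + ((p.iz : ℝ) - 100) / 200) *
      (((p.jy : ℝ) - 30) / 200 + ((p.jz : ℝ) - 30) / 200) - ((p.jy : ℝ) - 30) / 200 / 2 -
      (((p.iz : ℝ) - 100) / 200 * (((p.jb : ℝ) - 30) / 200) +
        ((p.jz : ℝ) - 30) / 200 * ((p.ib : ℝ) / 200)) - ((p.jb : ℝ) - 30) / 200 / 2)) =
      (Real.pi * 1048576 * B - Real.pi * 1048576 * A) / 5 := by
    rw [cA, cB]
    ring
  have eP' : (zP p o : ℝ) = 137438953472 + 1720000 + (((3294199 * A / 5 : ℕ) : ℝ) +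
      ((a3 : ℝ) + a4)) := by
    rw [eP]
    push_cast
    ring
  have eN' : (zN p : ℝ) = 8000 * (2 * (qE p.E1 : ℝ) + (qE p.E2 + qE p.E3 + (qE p.E4 + qE p.E5))) +
      ((3294199 * B / 5 : ℕ) : ℝ) := by
    rw [eN]
    push_cast
    ring
  rw [eP', eN']
  generalize ((3294199 * A / 5 : ℕ) : ℝ) = A' at dA ⊢
  generalize ((3294199 * B / 5 : ℕ) : ℝ) = B' at dB ⊢
  have hG' := congrArg (8388608000 * ·) hG
  beta_reduce at hG'
  rw [mul_add, hpi] at hG'
  linarith only [dB, dA, hpi, pB, pA, hBle', q5, hG, q4, q3, q2, q1]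

/-- The conditions on the real parts. -/
structure Rps (o : OutB) : Prop where
  y0 : 67108864 ≤ o.ys.re.lo
  y1 : o.ys.re.hi ≤ 67633151
  b0 : 67108864 ≤ o.bs.re.lo
  b1 : o.bs.re.hi ≤ 67633151
  zy : o.zs.re.hi < o.ys.re.lo
  yz : o.ys.re.hi ≤ o.zs.re.lo + 629145
  z0 : 67108865 ≤ o.zs.re.lo + 524288
  z1 : o.zs.re.hi ≤ 67213721
  zb : 134217729 ≤ o.zs.re.lo + o.bs.re.lo
  bz : o.zs.re.hi + o.bs.re.hi ≤ 134742016

theorem Rps.of (h : okO o = true) : Rps o := by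
  simp only [okO, cnd, Nat.ble_eq] at h
  obtain ⟨a1, a2, a3, a4, a5, a6, a7, a8, a9, a10⟩ := h
  exact ⟨a1, a2, a3, a4, a5, a6, a7, a8, a9, a10⟩

end GC

open GC in
/-- The losses of the angles and the constants; `q` is the position of `zs.im` in `[n0, n1]`. -/
theorem C_z (hp : p.ok = true) (hO : okO o = true) (hN : okN o J1 = true)
    (ho : o.In fy fb (l3y ys zs) (l3b zs bs) ys zs bs (hh (1 / 2 - ys)) (hh (1 / 2 - bs))) :
    ∃ e3 e4 q : ℝ, An 0 (1 / 2 - p.y0) (1 / 2 - ys) ∧ An 0 (1 / 2 - p.b0) (1 / 2 - bs) ∧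
      An e3 (p.y0 - p.z0) (ys - zs) ∧ An e4 (p.z0 + 1 / 2) (zs + 1 / 2) ∧
      An 0 (p.z0 + p.b0) (zs + bs) ∧ 0 ≤ q ∧ q ≤ 1 ∧
      12800 * zs.im + 1920 = n0 o + q * ((n1 o : ℝ) - n0 o) ∧
      ∀ w : ℕ, w ≤ 1920 → Zb p zs (e3 + e4) + 137438953472 + 66640 ≤
        (1 - q) * (zc p o (n0 o) w + 4117747 * (w : ℝ)) +
          q * (zc p o (n1 o) w + 4117747 * (w : ℝ)) := by
  have hf := BPf.of hp
  have hd := BPd.of hf
  have hH := Hts.of hN
  obtain ⟨y0, y1, b0, b1, zy, yz, z0, z1, zb, bz⟩ := Rps.of hO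
  have cy := ho.cy.1
  have cb := ho.cb.1
  have cz := ho.cz.1
  have czi := ho.cz.2
  have y0' : (67108864 : ℝ) ≤ o.ys.re.lo := by exact_mod_cast y0
  have y1' : (o.ys.re.hi : ℝ) ≤ 67633151 := by exact_mod_cast y1
  have b0' : (67108864 : ℝ) ≤ o.bs.re.lo := by exact_mod_cast b0
  have b1' : (o.bs.re.hi : ℝ) ≤ 67633151 := by exact_mod_cast b1
  have zy' : (o.zs.re.hi : ℝ) + 1 ≤ o.ys.re.lo := by exact_mod_cast zy
  have yz' : (o.ys.re.hi : ℝ) ≤ o.zs.re.lo + 629145 := by exact_mod_cast yz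
  have z0' : (67108865 : ℝ) ≤ o.zs.re.lo + 524288 := by exact_mod_cast z0
  have z1' : (o.zs.re.hi : ℝ) ≤ 67213721 := by exact_mod_cast z1
  have zb' : (134217729 : ℝ) ≤ o.zs.re.lo + o.bs.re.lo := by exact_mod_cast zb
  have bz' : (o.zs.re.hi : ℝ) + o.bs.re.hi ≤ 134742016 := by exact_mod_cast bz
  obtain ⟨cy0, cy1⟩ := cy
  obtain ⟨cb0, cb1⟩ := cb
  obtain ⟨cz0, cz1⟩ := cz
  obtain ⟨a3, ha3⟩ : ∃ a3, a3 = anE (o.ys.re.hi - (o.zs.re.lo + 524288)) := ⟨_, rfl⟩
  obtain ⟨a4, ha4⟩ : ∃ a4, a4 = anE (o.zs.re.hi - 67108864) := ⟨_, rfl⟩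
  have hG := Gz3_ge hf hd ha3 ha4
  have n01 : ((n0 o : ℕ) : ℝ) < n1 o := by exact_mod_cast hH.m01
  have l0 : ((n0 o : ℕ) : ℝ) - 1920 ≤ 12800 * zs.im := e_lo hH.z czi.1
  have l1 : 12800 * zs.im ≤ ((n1 o : ℕ) : ℝ) - 1920 := e_hi czi.2
  have hn : 0 < ((n1 o : ℕ) : ℝ) - n0 o := by linarith only [n01]
  refine ⟨(a3 : ℝ) / 8388608000, (a4 : ℝ) / 8388608000,
    (12800 * zs.im + 1920 - n0 o) / ((n1 o : ℝ) - n0 o), ?_, ?_, ?_, ?_, ?_, ?_, ?_, ?_, ?_⟩
  · refine An_zero hd.w1.r0 hd.w1.r1 ?_ ?_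
    · rw [sub_re, hf_re]
      linarith only [cy1, y1']
    · rw [sub_re, hf_re]
      linarith only [cy0, y0']
  · refine An_zero hd.w2.r0 hd.w2.r1 ?_ ?_
    · rw [sub_re, hf_re]
      linarith only [cb1, b1']
    · rw [sub_re, hf_re]
      linarith only [cb0, b0']
  · rw [ha3]
    refine anE_ok hd.w3.r0 hd.w3.r1 ?_ ?_ (by omega)
    · rw [sub_re]
      linarith only [cz1, cy0, zy']
    · rw [sub_re]
      have := nsub_ge o.ys.re.hi (o.zs.re.lo + 524288)
      push_cast at this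
      linarith only [this, cz0, cy1]
  · rw [ha4]
    refine anE_ok hd.w4.r0 hd.w4.r1 ?_ ?_ (by omega)
    · rw [add_re, hf_re]
      linarith only [cz0, cb1, cb0, zb', b1']
    · rw [add_re, hf_re]
      have := nsub_ge o.zs.re.hi 67108864
      push_cast at this
      linarith only [this, cz1]
  · refine An_zero hd.w5.r0 hd.w5.r1 ?_ ?_
    · rw [add_re]
      linarith only [cz0, cb0, zb']
    · rw [add_re]
      linarith only [cz1, cb1, bz']
  · exact div_nonneg (by linarith only [l0]) hn.le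
  · rw [div_le_one hn]
    linarith only [l1]
  · rw [div_mul_cancel₀ _ hn.ne']
    ring
  · intro w _
    obtain ⟨q, hq⟩ : ∃ q, q = (12800 * zs.im + 1920 - n0 o) / ((n1 o : ℝ) - n0 o) := ⟨_, rfl⟩
    have q0 : 0 ≤ q := by
      rw [hq]
      exact div_nonneg (by linarith only [l0]) hn.le
    have q1 : q ≤ 1 := by
      rw [hq, div_le_one hn]
      linarith only [l1]
    have hz : 12800 * zs.im + 1920 = n0 o + q * ((n1 o : ℝ) - n0 o) := by
      rw [hq, div_mul_cancel₀ _ hn.ne']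
      ring
    rw [← hq]
    have g0 := mul_le_mul_of_nonneg_left (zc_ge (o := o) hf hd (n0 o) w) (sub_nonneg.2 q1)
    have g1 := mul_le_mul_of_nonneg_left (zc_ge (o := o) hf hd (n1 o) w) q0
    refine le_trans ?_ (add_le_add g0 g1)
    have e : (1 - q) * ((zP p o : ℝ) - zN p + 655360 * (l3z p.y0 p.z0 p.b0).im *
        ((n0 o : ℝ) - 64 * p.jz)) + q * ((zP p o : ℝ) - zN p + 655360 *
          (l3z p.y0 p.z0 p.b0).im * ((n1 o : ℝ) - 64 * p.jz)) =
        (zP p o : ℝ) - zN p + 655360 * (l3z p.y0 p.z0 p.b0).im *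
          (n0 o + q * ((n1 o : ℝ) - n0 o) - 64 * p.jz) := by ring
    rw [e, ← hz]
    unfold Zb
    rw [BP.z0_im]
    have e2 : 8388608000 * (-Gz3 p.y0 p.z0 p.b0 + (l3z p.y0 p.z0 p.b0).im *
        (zs.im - ((p.jz : ℝ) - 30) / 200) + ((a3 : ℝ) / 8388608000 + a4 / 8388608000)) =
        -(8388608000 * Gz3 p.y0 p.z0 p.b0) + 655360 * (l3z p.y0 p.z0 p.b0).im *
          (12800 * zs.im + 1920 - 64 * p.jz) + a3 + a4 := by ring
    rw [e2]
    linarith only [hG]

end Pool.Agent.S5.G3
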