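import Pool.Agent.S5.K3.G7b

/-!
# Gaps, levels and masks
-/

set_option autoImplicit false

namespace Pool.Agent.S5.G3

open Pool.Agent.H63.VC3 Pool.Agent.S3 Complex MeasureTheory Filter Topology Set
open Pool.Agent.S5.Tb Pool.Agent.S5.K3

/-- Integer and fractional part. -/
theorem splitJ {x : ℝ} {lo hi : ℕ} (h0 : (lo : ℝ) ≤ x) (h1 : x ≤ hi) :
    ∃ (J : ℕ) (t : ℝ), x = J + t ∧ 0 ≤ t ∧ t ≤ 1 ∧ lo ≤ J ∧ J ≤ hi ∧ (0 < t → J < hi) := by
  have hx : 0 ≤ x := le_trans (Nat.cast_nonneg _) h0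
  refine ⟨⌊x⌋₊, x - ⌊x⌋₊, by ring, ?_, ?_, ?_, ?_, ?_⟩
  · have := Nat.floor_le hx
    linarith
  · have := Nat.lt_floor_add_one x
    linarith
  · exact Nat.le_floor h0
  · exact Nat.floor_le_of_le h1
  · intro ht
    have h2 : (⌊x⌋₊ : ℝ) < hi := by linarith
    exact_mod_cast h2

theorem gM_ge (d : ℕ) : ((d : ℝ) / 64) ^ 2 ≤ (gM d : ℝ) := by
  have h : d * d ≤ 4096 * gM d := by
    change d * d ≤ 4096 * ((d * d + 4095) / 4096)
    omega
  have h1 : (d : ℝ) * d ≤ 4096 * (gM d : ℝ) := by exact_mod_cast h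
  have : ((d : ℝ) / 64) ^ 2 = (d : ℝ) * d / 4096 := by ring
  rw [this]
  linarith

theorem gL_ge (d : ℕ) : (d : ℝ) / 64 ≤ (gL d : ℝ) := by
  have h : d ≤ 64 * gL d := by
    change d ≤ 64 * ((d + 63) / 64)
    omega
  have h1 : (d : ℝ) ≤ 64 * (gL d : ℝ) := by exact_mod_cast h
  linarith

theorem gM_le {d : ℕ} (h : d ≤ 960) : gM d ≤ 225 := by
  change (d * d + 4095) / 4096 ≤ 225
  have : d * d ≤ 960 * 960 := Nat.mul_le_mul h h
  omega

theorem gL_le {d : ℕ} (h : d ≤ 960) : gL d ≤ 15 := by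
  change (d + 63) / 64 ≤ 15
  omega

theorem q4 {q : ℝ} (h0 : 0 ≤ q) (h1 : q ≤ 1) : 0 ≤ 4 * (q * (1 - q)) ∧ 4 * (q * (1 - q)) ≤ 1 ∧
    4 * (q * (1 - q)) ≤ 4 * q ∧ 4 * (q * (1 - q)) ≤ 4 * (1 - q) := by
  refine ⟨?_, ?_, ?_, ?_⟩
  · have := mul_nonneg h0 (show 0 ≤ 1 - q by linarith)
    linarith
  · nlinarith [sq_nonneg (1 - 2 * q)]
  · nlinarith
  · nlinarith

/-- The loss of the gap `d` at both ends. -/
theorem gap_two {a0 a1 d : ℕ} {p : ℝ} (h0 : 0 ≤ p) (h1 : p ≤ 1) (hd : |(a1 : ℝ) - a0| ≤ d) :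
    4 * (p * (1 - p)) * (((a1 : ℝ) - a0) / 64) ^ 2 ≤ (1 - p) * (gM d : ℝ) + p * (gM d : ℝ) ∧
    4 * (p * (1 - p)) * (|(a1 : ℝ) - a0| / 64) ≤ (1 - p) * (gL d : ℝ) + p * (gL d : ℝ) := by
  obtain ⟨q0, q1, _, _⟩ := q4 h0 h1
  have hM := gM_ge d
  have hL := gL_ge d
  have hx : (((a1 : ℝ) - a0) / 64) ^ 2 ≤ (gM d : ℝ) := by
    refine le_trans ?_ hM
    rw [div_pow, div_pow, ← sq_abs]
    have := pow_le_pow_left₀ (abs_nonneg ((a1 : ℝ) - a0)) hd 2
    linarith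
  have hy : |(a1 : ℝ) - a0| / 64 ≤ (gL d : ℝ) := by linarith
  have x0 : 0 ≤ (((a1 : ℝ) - a0) / 64) ^ 2 := by positivity
  have y0 : 0 ≤ |(a1 : ℝ) - a0| / 64 := by positivity
  constructor
  · nlinarith [mul_le_mul_of_nonneg_right q1 x0]
  · nlinarith [mul_le_mul_of_nonneg_right q1 y0]

theorem Gap.of {b0 b1 d : ℕ} (h0 : b0 ≤ 3840) (h1 : b1 ≤ 3840) (hd : |(b1 : ℝ) - b0| ≤ d)
    (hd1 : d ≤ 960) : Gap b0 b1 (gM d) (gM d) (gL d) (gL d) where
  h0 := h0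
  h1 := h1
  m0 := (gM_le hd1).trans (by norm_num)
  m1 := (gM_le hd1).trans (by norm_num)
  l0 := (gL_le hd1).trans (by norm_num)
  l1 := (gL_le hd1).trans (by norm_num)
  M := fun q hq0 hq1 => (gap_two hq0 hq1 hd).1
  L := fun q hq0 hq1 => (gap_two hq0 hq1 hd).2

/-- The same height. -/
theorem Gap.pt {b M L : ℕ} (h0 : b ≤ 3840) (hM : M ≤ 900) (hL : L ≤ 60) : Gap b b M M L L where
  h0 := h0
  h1 := h0
  m0 := hM
  m1 := hM
  l0 := hL
  l1 := hL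
  M := fun q hq0 hq1 => by
    have : (0 : ℝ) ≤ M := Nat.cast_nonneg _
    simp only [sub_self, zero_div]
    nlinarith
  L := fun q hq0 hq1 => by
    have : (0 : ℝ) ≤ L := Nat.cast_nonneg _
    simp only [sub_self, abs_zero, zero_div]
    nlinarith

/-- The near end with a small loss, the far end with the loss of the whole defect. -/
theorem Gap.near {b0 b1 M L : ℕ} (h0 : b0 ≤ 3840) (h1 : b1 ≤ 3840) (hd : |(b1 : ℝ) - b0| = 960)
    (hM : M ≤ 900) (hL : L ≤ 60) : Gap b0 b1 M 900 L 60 where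
  h0 := h0
  h1 := h1
  m0 := hM
  m1 := le_rfl
  l0 := hL
  l1 := le_rfl
  M := fun q hq0 hq1 => by
    obtain ⟨q0, q1, q2, q3⟩ := q4 hq0 hq1
    have hM0 : (0 : ℝ) ≤ M := Nat.cast_nonneg _
    have hx : (((b1 : ℝ) - b0) / 64) ^ 2 = 225 := by
      rw [div_pow, ← sq_abs, hd]
      norm_num
    rw [hx]
    push_cast
    nlinarith
  L := fun q hq0 hq1 => by
    obtain ⟨q0, q1, q2, q3⟩ := q4 hq0 hq1
    have hL0 : (0 : ℝ) ≤ L := Nat.cast_nonneg _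
    rw [hd]
    push_cast
    nlinarith

/-- The far interval of a side. -/
theorem Gap.far {b0 b1 : ℕ} (h0 : b0 ≤ 3840) (h1 : b1 ≤ 3840) (hd : |(b1 : ℝ) - b0| = 960) :
    Gap b0 b1 900 225 60 15 where
  h0 := h0
  h1 := h1
  m0 := le_rfl
  m1 := by norm_num
  l0 := le_rfl
  l1 := by norm_num
  M := fun q hq0 hq1 => by
    obtain ⟨q0, q1, q2, q3⟩ := q4 hq0 hq1
    have hx : (((b1 : ℝ) - b0) / 64) ^ 2 = 225 := by
      rw [div_pow, ← sq_abs, hd]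
      norm_num
    rw [hx]
    push_cast
    nlinarith
  L := fun q hq0 hq1 => by
    obtain ⟨q0, q1, q2, q3⟩ := q4 hq0 hq1
    rw [hd]
    push_cast
    nlinarith

theorem cast_rev {g : ℕ} (h : g ≤ 3840) : ((3840 - g : ℕ) : ℝ) = 3840 - (g : ℝ) := by
  rw [Nat.cast_sub h]
  norm_num

/-- The other sign of the heights. -/
theorem Gap.rev {b0 b1 M0 M1 L0 L1 : ℕ} (h : Gap b0 b1 M0 M1 L0 L1) :
    Gap (3840 - b0) (3840 - b1) M0 M1 L0 L1 where
  h0 := Nat.sub_le _ _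
  h1 := Nat.sub_le _ _
  m0 := h.m0
  m1 := h.m1
  l0 := h.l0
  l1 := h.l1
  M := fun q hq0 hq1 => by
    rw [cast_rev h.h0, cast_rev h.h1]
    have := h.M q hq0 hq1
    rw [show (3840 - (b1 : ℝ) - (3840 - (b0 : ℝ))) / 64 = -(((b1 : ℝ) - b0) / 64) by ring, neg_sq]
    exact this
  L := fun q hq0 hq1 => by
    rw [cast_rev h.h0, cast_rev h.h1]
    have := h.L q hq0 hq1
    rw [show 3840 - (b1 : ℝ) - (3840 - (b0 : ℝ)) = -((b1 : ℝ) - b0) by ring, abs_neg]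
    exact this

/-! ### The levels of a leg -/

/-- The heights of a leg, offset `1920`: the condition of the program. -/
structure LvOk (e0 e1 : ℕ) : Prop where
  lt : e0 < e1
  le : e1 ≤ 3840
  gap : e1 ≤ e0 + 960
  mid : 1920 ≤ e0 ∨ e1 ≤ 1920 ∨ (e1 ≤ 2880 ∧ 960 ≤ e0)

theorem lv1_A {e0 e1 : ℕ} (h : 1920 ≤ e0) : lv1 e0 e1 = (e1 + 1921) / 2 := by
  unfold lv1
  rw [ble_true h]
  rfl

theorem lv2_A {e0 e1 : ℕ} (h : 1920 ≤ e0) : lv2 e0 e1 = e1 := by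
  unfold lv2
  rw [ble_true h]
  rfl

theorem gpl_A {e0 e1 : ℕ} (h : 1920 ≤ e0) : gpl e0 e1 = (e1 + 1921) / 2 - 1920 := by
  unfold gpl
  rw [ble_true h, lv1_A h]
  rfl

theorem lv1_B {e0 e1 : ℕ} (h0 : e0 < 1920) (h : e1 ≤ 1920) : lv1 e0 e1 = (e0 + 1920) / 2 := by
  unfold lv1
  rw [ble_false h0, ble_true h]
  rfl

theorem lv2_B {e0 e1 : ℕ} (h0 : e0 < 1920) (h : e1 ≤ 1920) : lv2 e0 e1 = e0 := by
  unfold lv2
  rw [ble_false h0, ble_true h]
  rfl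

theorem gpl_B {e0 e1 : ℕ} (h0 : e0 < 1920) (h : e1 ≤ 1920) :
    gpl e0 e1 = 1920 - (e0 + 1920) / 2 := by
  unfold gpl
  rw [ble_false h0, ble_true h, lv1_B h0 h]
  rfl

theorem lv1_C {e0 e1 : ℕ} (h0 : e0 < 1920) (h : 1920 < e1) : lv1 e0 e1 = e0 := by
  unfold lv1
  rw [ble_false h0, ble_false h]
  rfl

theorem lv2_C {e0 e1 : ℕ} (h0 : e0 < 1920) (h : 1920 < e1) : lv2 e0 e1 = e1 := by
  unfold lv2
  rw [ble_false h0, ble_false h]
  rfl

theorem gpl_C {e0 e1 : ℕ} (h0 : e0 < 1920) (h : 1920 < e1) :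
    gpl e0 e1 = max (1920 - e0) (e1 - 1920) := by
  unfold gpl
  rw [ble_false h0, ble_false h]
  change mx (1920 - e0) (e1 - 1920) = _
  exact mx_eq _ _

theorem LvOk.facts {e0 e1 : ℕ} (h : LvOk e0 e1) :
    lv1 e0 e1 ≤ 3840 ∧ lv2 e0 e1 ≤ 3840 ∧ gpl e0 e1 ≤ 960 := by
  obtain ⟨h1, h2, h3, h4⟩ := h
  rcases Nat.lt_or_ge e0 1920 with h5 | h5
  · rcases Nat.lt_or_ge 1920 e1 with h6 | h6
    · rw [lv1_C h5 h6, lv2_C h5 h6, gpl_C h5 h6]
      refine ⟨by omega, by omega, max_le (by omega) (by omega)⟩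
    · rw [lv1_B h5 h6, lv2_B h5 h6, gpl_B h5 h6]
      omega
  · rw [lv1_A h5, lv2_A h5, gpl_A h5]
    omega

/-- A point between two reals, as a convex combination. -/
theorem conv_ex {u v x : ℝ} (h0 : u ≤ x) (h1 : x ≤ v) :
    ∃ p : ℝ, 0 ≤ p ∧ p ≤ 1 ∧ x = u + p * (v - u) := by
  rcases eq_or_lt_of_le (h0.trans h1) with h | h
  · exact ⟨0, le_rfl, zero_le_one, by linarith⟩
  · refine ⟨(x - u) / (v - u), div_nonneg (by linarith) (by linarith), ?_, ?_⟩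
    · rw [div_le_one (by linarith)]
      linarith
    · rw [div_mul_cancel₀ _ (by linarith)]
      ring

/-- **The levels of a leg.** -/
theorem leg_split {e0 e1 : ℕ} {e a : ℝ} (h : LvOk e0 e1) (h0 : (e0 : ℝ) - 1920 ≤ e)
    (h1 : e ≤ (e1 : ℝ) - 1920) (ha : a ∈ uIcc 0 e) :
    ∃ (a0 a1 : ℕ) (p : ℝ), (a0 = 1920 ∨ a0 = lv1 e0 e1 ∨ a0 = lv2 e0 e1) ∧
      (a1 = 1920 ∨ a1 = lv1 e0 e1 ∨ a1 = lv2 e0 e1) ∧ 0 ≤ p ∧ p ≤ 1 ∧
      a = (a0 : ℝ) - 1920 + p * ((a1 : ℝ) - a0) ∧ |(a1 : ℝ) - a0| ≤ gpl e0 e1 := by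
  have key : ∀ a0 a1 : ℕ, (a0 = 1920 ∨ a0 = lv1 e0 e1 ∨ a0 = lv2 e0 e1) →
      (a1 = 1920 ∨ a1 = lv1 e0 e1 ∨ a1 = lv2 e0 e1) → a0 ≤ a1 → a1 - a0 ≤ gpl e0 e1 →
      (a0 : ℝ) - 1920 ≤ a → a ≤ (a1 : ℝ) - 1920 →
      ∃ (a0 a1 : ℕ) (p : ℝ), (a0 = 1920 ∨ a0 = lv1 e0 e1 ∨ a0 = lv2 e0 e1) ∧
      (a1 = 1920 ∨ a1 = lv1 e0 e1 ∨ a1 = lv2 e0 e1) ∧ 0 ≤ p ∧ p ≤ 1 ∧
      a = (a0 : ℝ) - 1920 + p * ((a1 : ℝ) - a0) ∧ |(a1 : ℝ) - a0| ≤ gpl e0 e1 := by
    intro a0 a1 l0 l1 h01 hd x0 x1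
    obtain ⟨p, p0, p1, hp⟩ := conv_ex x0 x1
    refine ⟨a0, a1, p, l0, l1, p0, p1, by rw [hp]; ring, ?_⟩
    rw [abs_of_nonneg (by have : (a0 : ℝ) ≤ a1 := by exact_mod_cast h01
                          linarith), ← Nat.cast_sub h01]
    exact_mod_cast hd
  obtain ⟨h2, h3, h4, h5⟩ := h
  have c1920 : ((1920 : ℕ) : ℝ) = 1920 := by norm_num
  rcases Nat.lt_or_ge e0 1920 with h6 | h6
  · rcases Nat.lt_or_ge 1920 e1 with h7 | h7
    · -- both signs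
      have l1 := lv1_C h6 h7
      have l2 := lv2_C h6 h7
      have g := gpl_C h6 h7
      rcases le_total 0 a with ha0 | ha0
      · refine key 1920 e1 (Or.inl rfl) (Or.inr (Or.inr l2.symm)) (by omega)
          (by rw [g]; exact le_max_right _ _) (by linarith) ?_
        rcases le_total 0 e with he | he
        · rw [uIcc_of_le he] at ha
          exact ha.2.trans h1
        · rw [uIcc_of_ge he] at ha
          have : (1920 : ℝ) < e1 := by exact_mod_cast h7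
          linarith [ha.2]
      · refine key e0 1920 (Or.inr (Or.inl l1.symm)) (Or.inl rfl) (by omega)
          (by rw [g]; exact le_max_left _ _) ?_ (by linarith)
        rcases le_total 0 e with he | he
        · rw [uIcc_of_le he] at ha
          have : (e0 : ℝ) < 1920 := by exact_mod_cast h6
          linarith [ha.1]
        · rw [uIcc_of_ge he] at ha
          exact h0.trans ha.1
    · -- negative heights
      have l1 := lv1_B h6 h7
      have l2 := lv2_B h6 h7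
      have g := gpl_B h6 h7
      have he : e ≤ 0 := by
        have : (e1 : ℝ) ≤ 1920 := by exact_mod_cast h7
        linarith
      rw [uIcc_of_ge he] at ha
      have ha0 := h0.trans ha.1
      rcases le_total ((lv1 e0 e1 : ℕ) : ℝ) (a + 1920) with h8 | h8
      · refine key (lv1 e0 e1) 1920 (Or.inr (Or.inl rfl)) (Or.inl rfl) ?_ ?_ (by linarith)
          (by linarith [ha.2])
        · rw [l1]
          omega
        · rw [l1, g]
      · refine key e0 (lv1 e0 e1) (Or.inr (Or.inr l2.symm)) (Or.inr (Or.inl rfl)) ?_ ?_ ha0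
          (by linarith)
        · rw [l1]
          omega
        · rw [l1, g]
          omega
  · -- positive heights
    have l1 := lv1_A (e1 := e1) h6
    have l2 := lv2_A (e1 := e1) h6
    have g := gpl_A (e1 := e1) h6
    have he : 0 ≤ e := by
      have : (1920 : ℝ) ≤ e0 := by exact_mod_cast h6
      linarith
    rw [uIcc_of_le he] at ha
    have ha1 := ha.2.trans h1
    rcases le_total (a + 1920) ((lv1 e0 e1 : ℕ) : ℝ) with h8 | h8
    · refine key 1920 (lv1 e0 e1) (Or.inl rfl) (Or.inr (Or.inl rfl)) ?_ ?_ (by linarith [ha.1])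
        (by linarith)
      · rw [l1]
        omega
      · rw [l1, g]
    · refine key (lv1 e0 e1) e1 (Or.inr (Or.inl rfl)) (Or.inr (Or.inr l2.symm)) ?_ ?_
        (by linarith) ha1
      · rw [l1]
        omega
      · rw [l1, g]
        omega

/-! ### The masks -/

theorem mF_eq {J1 : ℕ} (h : J1 = 4 ∨ J1 = 5) : mF J1 =
    pk (fun l => if (decide (J1 ≤ l) && decide (l ≤ 40 - J1)) = true then 8796093022208 else 0)
      81 := by
  rcases h with h | h <;> subst h <;> decide +kernel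

theorem mE_eq {J1 : ℕ} (h : J1 = 4 ∨ J1 = 5) : mE J1 =
    pk (fun l => if (decide (l = J1) || decide (l = 40 - J1)) = true then 8796093022208 else 0)
      81 := by
  rcases h with h | h <;> subst h <;> decide +kernel

theorem mP_eq {J1 : ℕ} (h : J1 = 4 ∨ J1 = 5) : mP J1 =
    pk (fun l => if (decide (40 - J1 ≤ l) && decide (l ≤ 40)) = true then 8796093022208 else 0)
      81 := by
  rcases h with h | h <;> subst h <;> decide +kernel

theorem mN_eq {J1 : ℕ} (h : J1 = 4 ∨ J1 = 5) : mN J1 =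
    pk (fun l => if (decide (l ≤ J1)) = true then 8796093022208 else 0) 81 := by
  rcases h with h | h <;> subst h <;> decide +kernel

end Pool.Agent.S5.G3
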