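import Pool.Agent.S5.K3.G9n
import Pool.Agent.S5.K3.G10
import Pool.Agent.S5.K3.G12a
import Pool.Agent.S5.I.VOK

/-!
# The rows: the sum of the lanes
-/

set_option autoImplicit false

namespace Pool.Agent.S5.G3

open Pool.Agent.H63.VC3 Pool.Agent.S3 Complex MeasureTheory Filter Topology Set
open Pool.Agent.S5.Tb Pool.Agent.S5.K3

theorem Dom.mono {v0 v1 u0 u1 : ℕ} {Φ : ℝ → ℝ → ℝ} (h : Dom v0 v1 Φ)
    (h0 : ∀ J, lane v0 J ≤ lane u0 J) (h1 : ∀ J, lane v1 J ≤ lane u1 J) : Dom u0 u1 Φ := by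
  intro J t q hJ hJt ht0 ht1 hq0 hq1
  refine (h J t q hJ hJt ht0 ht1 hq0 hq1).trans ?_
  have c0 : ∀ K, (lane v0 K : ℝ) ≤ lane u0 K := fun K => by exact_mod_cast h0 K
  have c1 : ∀ K, (lane v1 K : ℝ) ≤ lane u1 K := fun K => by exact_mod_cast h1 K
  have a0 := mul_le_mul_of_nonneg_left (c0 J) (show 0 ≤ 1 - t by linarith)
  have a1 := mul_le_mul_of_nonneg_left (c0 (J + 1)) ht0
  have a2 := mul_le_mul_of_nonneg_left (c1 J) (show 0 ≤ 1 - t by linarith)
  have a3 := mul_le_mul_of_nonneg_left (c1 (J + 1)) ht0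
  exact add_le_add (mul_le_mul_of_nonneg_left (add_le_add a0 a1) (by linarith))
    (mul_le_mul_of_nonneg_left (add_le_add a2 a3) hq0)

theorem ab_natAbs (g : ℕ) : Int.natAbs ((0 : ℤ) + ((g : ℤ) - 1920)) = ab g 1920 := by
  change _ = (g + 1920 - 3840) + (3840 - (g + 1920))
  omega

/-- The lanes of the variable of the node. -/
theorem dom_z {g0 g1 M0 M1 L0 L1 c0 c1 : ℕ} (hg : Gap g0 g1 M0 M1 L0 L1)
    (hc0 : c0 < 1099511627776) (hc1 : c1 < 1099511627776) :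
    Dom (zv g0 M0 L0 c0) (zv g1 M1 L1 c1) (fun J q =>
      8388608000 * (Fu (J / 40) (((g0 : ℝ) - 1920 + q * ((g1 : ℝ) - g0)) / 12800) + 1) +
        ((1 - q) * c0 + q * c1)) := by
  intro J t q hJ hJt ht0 ht1 hq0 hq1
  have z0 := (L_zv (c := c0) hg.h0 hg.m0 hg.l0 hc0).2
  have z1 := (L_zv (c := c1) hg.h1 hg.m1 hg.l1 hc1).2
  have v0 : ∀ K ≤ 40, (lane (zv g0 M0 L0 c0) K : ℝ) =
      VxI M0 L0 0 ((g0 : ℤ) - 1920) (K + 40) + c0 := by
    intro K hK
    rw [z0 K hK]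
    unfold VxI RlI
    rw [ab_natAbs]
    push_cast
    ring
  have v1 : ∀ K ≤ 40, (lane (zv g1 M1 L1 c1) K : ℝ) =
      VxI M1 L1 0 ((g1 : ℤ) - 1920) (K + 40) + c1 := by
    intro K hK
    rw [z1 K hK]
    unfold VxI RlI
    rw [ab_natAbs]
    push_cast
    ring
  have hM := hg.M q hq0 hq1
  have hL := hg.L q hq0 hq1
  have hd : (((g1 : ℤ) - 1920 : ℤ) : ℝ) - (((g0 : ℤ) - 1920 : ℤ) : ℝ) = (g1 : ℝ) - g0 := by
    push_cast
    ring
  have e0 := hg.h0
  have e1 := hg.h1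
  have cl : ∀ (m : ℕ) (θ : ℝ), m < 80 → 0 ≤ θ → θ ≤ 1 →
      8388608000 * (Fu (((m : ℝ) + θ - 40) / 40)
        (((g0 : ℝ) - 1920 + q * ((g1 : ℝ) - g0)) / 12800) + 1) ≤
      (1 - q) * ((1 - θ) * VxI M0 L0 0 ((g0 : ℤ) - 1920) m +
        θ * VxI M0 L0 0 ((g0 : ℤ) - 1920) (m + 1)) +
      q * ((1 - θ) * VxI M1 L1 0 ((g1 : ℤ) - 1920) m +
        θ * VxI M1 L1 0 ((g1 : ℤ) - 1920) (m + 1)) := by
    intro m θ hm h0 h1
    have h := cellG (m := m) (a0 := 0) (a1 := 0) (b0 := (g0 : ℤ) - 1920) (b1 := (g1 : ℤ) - 1920)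
      (p := 0) (q := q) (θ := θ) (Ma := 0) (Mb := (((g1 : ℝ) - g0) / 64) ^ 2) (La := 0)
      (Lb := |(g1 : ℝ) - g0| / 64) (M00 := M0) (M01 := M1) (M10 := M0) (M11 := M1)
      (L00 := L0) (L01 := L1) (L10 := L0) (L11 := L1) hm le_rfl zero_le_one hq0 hq1 h0 h1
      (by simp) (by rw [hd]) (by simp) (by rw [hd]) (by unfold bl4; linarith)
      (by unfold bl4; linarith) (by omega) (by omega) (by omega) (by omega)
    have e : ((((0 : ℤ) : ℝ) + 0 * (((0 : ℤ) : ℝ) - ((0 : ℤ) : ℝ)) +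
        ((((g0 : ℤ) - 1920 : ℤ) : ℝ) + q * ((((g1 : ℤ) - 1920 : ℤ) : ℝ) -
          (((g0 : ℤ) - 1920 : ℤ) : ℝ)))) / 12800) =
        ((g0 : ℝ) - 1920 + q * ((g1 : ℝ) - g0)) / 12800 := by
      push_cast
      ring
    rw [e] at h
    refine h.trans (le_of_eq ?_)
    unfold bl4
    ring
  rcases Nat.lt_or_ge J 40 with h40 | h40
  · have h := cl (J + 40) t (by omega) ht0 ht1
    have e : (((J + 40 : ℕ) : ℝ) + t - 40) / 40 = ((J : ℝ) + t) / 40 := by push_cast; ring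
    rw [e] at h
    rw [v0 J hJ, v1 J hJ, v0 (J + 1) (by omega), v1 (J + 1) (by omega),
      show J + 1 + 40 = J + 40 + 1 by ring]
    linarith
  · have hJ' : J = 40 := by omega
    have ht : t = 0 := by
      by_contra h
      have := hJt (lt_of_le_of_ne ht0 (Ne.symm h))
      omega
    subst hJ'
    subst ht
    have h := cl 79 1 (by norm_num) zero_le_one le_rfl
    have e : (((79 : ℕ) : ℝ) + 1 - 40) / 40 = (((40 : ℕ) : ℝ) + 0) / 40 := by
      push_cast; norm_num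
    rw [e] at h
    rw [v0 40 hJ, v1 40 hJ]
    simp only [sub_self, zero_mul, one_mul, zero_add, sub_zero, add_zero] at h ⊢
    linarith

theorem conv_lt {t q K x00 x01 x10 x11 : ℝ} (ht0 : 0 ≤ t) (ht1 : t ≤ 1) (hq0 : 0 ≤ q)
    (hq1 : q ≤ 1) (h00 : x00 < K) (h01 : 0 < t → x01 < K) (h10 : x10 < K)
    (h11 : 0 < t → x11 < K) :
    (1 - q) * ((1 - t) * x00 + t * x01) + q * ((1 - t) * x10 + t * x11) < K := by
  have key : ∀ x y : ℝ, x < K → (0 < t → y < K) → (1 - t) * x + t * y < K := by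
    intro x y hx hy
    rcases ht0.eq_or_lt with h | h
    · rw [← h]
      linarith
    · have a1 := mul_le_mul_of_nonneg_left hx.le (show 0 ≤ 1 - t by linarith)
      have a2 := mul_lt_mul_of_pos_left (hy h) h
      linarith
  have k0 := key x00 x01 h00 h01
  have k1 := key x10 x11 h10 h11
  rcases hq0.eq_or_lt with h | h
  · rw [← h]
    linarith
  · have a1 := mul_le_mul_of_nonneg_left k0.le (show 0 ≤ 1 - q by linarith)
    have a2 := mul_lt_mul_of_pos_left k1 h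
    linarith

theorem KK_cast : ((KK : ℕ) : ℝ) = 550580617216 := by
  unfold KK
  norm_num

/-- The sum of the three lanes is below the threshold. -/
def SumOk (Y B Z K : ℕ) : Prop := lane (rev Y) K + lane B K + lane Z K < KK

theorem tz_sum {Y B Z m K : ℕ} {P : ℕ → Bool} (pY : Pk Y (lane Y) 2199023255552)
    (pB : Pk B (lane B) 2199023255552) (pZ : Pk Z (lane Z) 2199023255552)
    (hm : m = pk (fun l => if P l then 8796093022208 else 0) 81)
    (h : tz KK m (Nat.add (Nat.add (rev Y) B) Z) = true) (hK : K ≤ 80) (hP : P K = true) :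
    SumOk Y B Z K :=
  L_tz (L_rev pY).1 pB pZ hm h K hK hP

/-- **The sum of the three vectors.** -/
theorem row_main {p : BP} {o : OutB} {ys zs bs y z b : ℂ} {dy db : Bool} {pay pab : ℕ}
    {σy σb ly lb ε q t TV : ℝ} {Y0 Y1 B0 B1 g0 g1 M0 M1 L0 L1 c0 c1 w0 w1 J : ℕ}
    (glue : 8388608000 * TV ≤
      SR true (cuR (sdY p o) dy) (cf (sdY p o) (srY p ys zs) dy pay σy ly) (40 * y.re + 10)
        (20 - 40 * z.re) (12800 * y.im) (-(12800 * z.im)) (12800 * ys.im) - 8388608000 +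
      (SR false (cuR (sdB p o) db) (cf (sdB p o) (srB p zs bs) db pab σb lb) (40 * b.re + 10)
        (40 * z.re + 20) (12800 * b.im) (12800 * z.im) (12800 * bs.im) - 8388608000) +
      8388608000 * Fu (z.re + 1 / 2) z.im + Zb p zs ε)
    (hy : Dom Y0 Y1 (Ps (sdY p o) (srY p ys zs) dy pay σy ly (40 * y.re + 10) (12800 * y.im)
      (3840 - g0) (3840 - g1)))
    (hb : Dom B0 B1 (Ps (sdB p o) (srB p zs bs) db pab σb lb (40 * b.re + 10) (12800 * b.im)
      g0 g1))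
    (hg : Gap g0 g1 M0 M1 L0 L1) (hc0 : c0 < 1099511627776) (hc1 : c1 < 1099511627776)
    (pY0 : Pk Y0 (lane Y0) 2199023255552) (pY1 : Pk Y1 (lane Y1) 2199023255552)
    (s0 : SumOk Y0 B0 (zv g0 M0 L0 c0) J) (s0' : 0 < t → SumOk Y0 B0 (zv g0 M0 L0 c0) (J + 1))
    (s1 : SumOk Y1 B1 (zv g1 M1 L1 c1) J) (s1' : 0 < t → SumOk Y1 B1 (zv g1 M1 L1 c1) (J + 1))
    (hJ : J ≤ 40) (hJt : 0 < t → J < 40) (ht0 : 0 ≤ t) (ht1 : t ≤ 1) (hq0 : 0 ≤ q) (hq1 : q ≤ 1)
    (hz : 40 * z.re + 20 = J + t) (hzi : 12800 * z.im + 1920 = g0 + q * ((g1 : ℝ) - g0))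
    (hc : Zb p zs ε + 137438953472 + 66640 ≤
      (1 - q) * (c0 + 4117747 * (w0 : ℝ)) + q * (c1 + 4117747 * (w1 : ℝ))) :
    8388608000 * TV < 4117747 * ((1 - q) * w0 + q * w1) := by
  obtain ⟨-, r0⟩ := L_rev pY0
  obtain ⟨-, r1⟩ := L_rev pY1
  unfold SumOk at s0 s0' s1 s1'
  have hz' := dom_z hg hc0 hc1 J t q hJ hJt ht0 ht1 hq0 hq1
  have hb' := hb J t q hJ hJt ht0 ht1 hq0 hq1
  -- the slot of the Bailey step
  have hy' : Ps (sdY p o) (srY p ys zs) dy pay σy ly (40 * y.re + 10) (12800 * y.im)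
      (3840 - g0) (3840 - g1) (40 - ((J : ℝ) + t)) q ≤
      (1 - q) * ((1 - t) * lane (rev Y0) J + t * lane (rev Y0) (J + 1)) +
      q * ((1 - t) * lane (rev Y1) J + t * lane (rev Y1) (J + 1)) := by
    rcases ht0.eq_or_lt with h | h
    · have h1 := hy (40 - J) 0 q (by omega) (fun h => absurd h (lt_irrefl _)) le_rfl zero_le_one
        hq0 hq1
      have e : (((40 - J : ℕ) : ℝ) + 0) = 40 - ((J : ℝ) + t) := by
        rw [Nat.cast_sub hJ, ← h]
        push_cast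
        ring
      rw [e] at h1
      rw [r0 J hJ, r1 J hJ, ← h]
      rw [← h] at h1
      simp only [sub_zero, one_mul, zero_mul, add_zero] at h1 ⊢
      exact h1
    · have hJ' := hJt h
      have h1 := hy (39 - J) (1 - t) q (by omega) (fun _ => by omega) (by linarith) (by linarith)
        hq0 hq1
      have e : (((39 - J : ℕ) : ℝ) + (1 - t)) = 40 - ((J : ℝ) + t) := by
        rw [Nat.cast_sub (by omega)]
        push_cast
        ring
      rw [e, show 39 - J + 1 = 40 - J by omega] at h1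
      rw [r0 J hJ, r1 J hJ, r0 (J + 1) (by omega), r1 (J + 1) (by omega),
        show 40 - (J + 1) = 39 - J by omega]
      linarith
  have n0 : (lane (rev Y0) J : ℝ) + lane B0 J + lane (zv g0 M0 L0 c0) J < 550580617216 := by
    rw [← KK_cast]
    exact_mod_cast s0
  have n1 : (lane (rev Y1) J : ℝ) + lane B1 J + lane (zv g1 M1 L1 c1) J < 550580617216 := by
    rw [← KK_cast]
    exact_mod_cast s1
  have n2 : 0 < t → (lane (rev Y0) (J + 1) : ℝ) + lane B0 (J + 1) +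
      lane (zv g0 M0 L0 c0) (J + 1) < 550580617216 := fun h => by
    rw [← KK_cast]
    exact_mod_cast s0' h
  have n3 : 0 < t → (lane (rev Y1) (J + 1) : ℝ) + lane B1 (J + 1) +
      lane (zv g1 M1 L1 c1) (J + 1) < 550580617216 := fun h => by
    rw [← KK_cast]
    exact_mod_cast s1' h
  have hs := conv_lt ht0 ht1 hq0 hq1 n0 n2 n1 n3
  -- the arguments
  have a1 : (20 : ℝ) - 40 * z.re = 40 - ((J : ℝ) + t) := by linarith
  have a2 : (40 : ℝ) * z.re + 20 = (J : ℝ) + t := hz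
  have a3 : (12800 : ℝ) * z.im = (g0 : ℝ) - 1920 + q * ((g1 : ℝ) - g0) := by linarith
  have a4 : -((12800 : ℝ) * z.im) = (((3840 - g0 : ℕ) : ℝ) - 1920 +
      q * (((3840 - g1 : ℕ) : ℝ) - ((3840 - g0 : ℕ) : ℝ))) := by
    rw [a3, cast_rev hg.h0, cast_rev hg.h1]
    ring
  have a5 : z.re + 1 / 2 = ((J : ℝ) + t) / 40 := by linarith
  have a6 : z.im = ((g0 : ℝ) - 1920 + q * ((g1 : ℝ) - g0)) / 12800 := by linarith
  rw [a1, a2, a4, a3, a5] at glue
  rw [a6] at glue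
  have f1 : Ps (sdY p o) (srY p ys zs) dy pay σy ly (40 * y.re + 10) (12800 * y.im)
      (3840 - g0) (3840 - g1) (40 - ((J : ℝ) + t)) q =
      SR true (cuR (sdY p o) dy) (cf (sdY p o) (srY p ys zs) dy pay σy ly) (40 * y.re + 10)
        (40 - ((J : ℝ) + t)) (12800 * y.im) (((3840 - g0 : ℕ) : ℝ) - 1920 +
      q * (((3840 - g1 : ℕ) : ℝ) - ((3840 - g0 : ℕ) : ℝ))) (12800 * ys.im) +
      (137438953472 + 3 * 8388608000 + 51472 * 768000) - 33320 := rfl
  have f2 : Ps (sdB p o) (srB p zs bs) db pab σb lb (40 * b.re + 10) (12800 * b.im)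
      g0 g1 ((J : ℝ) + t) q =
      SR false (cuR (sdB p o) db) (cf (sdB p o) (srB p zs bs) db pab σb lb) (40 * b.re + 10)
        ((J : ℝ) + t) (12800 * b.im) ((g0 : ℝ) - 1920 + q * ((g1 : ℝ) - g0)) (12800 * bs.im) +
      (137438953472 + 2 * 8388608000 + 51472 * 614400) - 33320 := rfl
  rw [f1] at hy'
  rw [f2] at hb'
  linarith

end Pool.Agent.S5.G3
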