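import Pool.Agent.S5.K3.G12

/-!
# The rows: all positions
-/

set_option autoImplicit false

namespace Pool.Agent.S5.G3

open Pool.Agent.H63.VC3 Pool.Agent.S3 Complex MeasureTheory Filter Topology Set
open Pool.Agent.S5.Tb Pool.Agent.S5.K3

theorem condOr {a b : Bool} (h : cond a true b = true) : a = true ∨ b = true := by
  cases a
  · exact Or.inr h
  · exact Or.inl rfl

/-- The facts of the test. -/
structure R3 (py pb : Py) (p : BP) (J1 : ℕ) (o : OutB) : Prop where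
  ok : p.ok = true
  oo : okO o = true
  nn : okN o J1 = true
  sy : okS (sdY p o) py J1 = true
  sb : okS (sdB p o) pb J1 = true
  z0 : zc p o (n0 o) 0 < 1099511627776
  z1 : zc p o (n1 o) 0 < 1099511627776
  m0 : zm p o 0 < 1099511627776
  m1 : zm p o 960 < 1099511627776
  m2 : zm p o 1920 < 1099511627776
  f0 : tF (sdY p o) (sdB p o) py pb J1 (n0 o) (gM (n1 o - n0 o)) (gL (n1 o - n0 o))
    (zc p o (n0 o) 0) = true
  f1 : tF (sdY p o) (sdB p o) py pb J1 (n1 o) (gM (n1 o - n0 o)) (gL (n1 o - n0 o))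
    (zc p o (n1 o) 0) = true
  l1 : tA (sdY p o) (sdB p o) py pb (mE J1) (lv1 (n0 o) (n1 o)) (gM (gpl (n0 o) (n1 o)))
    (gL (gpl (n0 o) (n1 o))) (zm p o 0) = true
  l2 : tA (sdY p o) (sdB p o) py pb (mE J1) (lv2 (n0 o) (n1 o)) (gM (gpl (n0 o) (n1 o)))
    (gL (gpl (n0 o) (n1 o))) (zm p o 0) = true
  l0 : tA (sdY p o) (sdB p o) py pb (mE J1) 1920 (gM (gpl (n0 o) (n1 o)))
    (gL (gpl (n0 o) (n1 o))) (zm p o 0) = true
  s0 : tA (sdY p o) (sdB p o) py pb (mE J1) 960 900 60 (zm p o 960) = true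
  s1 : tA (sdY p o) (sdB p o) py pb (mE J1) 2880 900 60 (zm p o 960) = true
  t0 : tA (sdY p o) (sdB p o) py pb (mF J1) 0 225 15 (zm p o 1920) = true
  t1 : tA (sdY p o) (sdB p o) py pb (mF J1) 3840 225 15 (zm p o 1920) = true
  rr : tR (sdY p o) (sdB p o) py pb J1 (zm p o 0) = true

theorem small_cons {c : ℕ} {l : List ℕ} (h : small (c :: l) = true) :
    c < 1099511627776 ∧ small l = true := by
  have h1 : cond (Nat.ble c 1099511627775) (small l) false = true := h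
  obtain ⟨h2, h3⟩ := cond_t h1
  have := ble_t h2
  exact ⟨by omega, h3⟩

theorem rows3_R3 {py pb : Py} {p : BP} {J1 : ℕ} {o : OutB} (h : rows3 py pb p J1 o = true) :
    R3 py pb p J1 o := by
  unfold rows3 at h
  obtain ⟨h1, h⟩ := cond_t h
  obtain ⟨h2, h⟩ := cond_t h
  obtain ⟨h3, h⟩ := cond_t h
  obtain ⟨h4, h⟩ := cond_t h
  obtain ⟨h5, h⟩ := cond_t h
  obtain ⟨h6, h⟩ := cond_t h
  obtain ⟨k0, h6⟩ := small_cons h6
  obtain ⟨k1, h6⟩ := small_cons h6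
  obtain ⟨k2, h6⟩ := small_cons h6
  obtain ⟨k3, h6⟩ := small_cons h6
  obtain ⟨k4, -⟩ := small_cons h6
  unfold rowsS at h
  obtain ⟨f0, h⟩ := cond_t h
  obtain ⟨f1, h⟩ := cond_t h
  obtain ⟨l1, h⟩ := cond_t h
  obtain ⟨l2, h⟩ := cond_t h
  obtain ⟨l0, h⟩ := cond_t h
  obtain ⟨s0, h⟩ := cond_t h
  obtain ⟨s1, h⟩ := cond_t h
  obtain ⟨t0, h⟩ := cond_t h
  obtain ⟨t1, h⟩ := cond_t h
  exact ⟨h1, h2, h3, h4, h5, k0, k1, k2, k3, k4, f0, f1, l1, l2, l0, s0, s1, t0, t1, h⟩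

theorem okN_facts {o : OutB} {J1 : ℕ} (h : okN o J1 = true) :
    LvOk (n0 o) (n1 o) ∧ (J1 = 4 ∨ J1 = 5) := by
  unfold okN at h
  obtain ⟨-, h⟩ := cond_t h
  obtain ⟨-, h⟩ := cond_t h
  obtain ⟨-, h⟩ := cond_t h
  obtain ⟨h1, h⟩ := cond_t h
  obtain ⟨h2, h⟩ := cond_t h
  obtain ⟨h3, h⟩ := cond_t h
  obtain ⟨h4, h⟩ := cond_t h
  have h1' := ble_t h1
  have h2' := ble_t h2
  have h3' := ble_t h3
  have e3 : Nat.add (n0 o) 960 = n0 o + 960 := rfl
  rw [e3] at h3'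
  refine ⟨⟨h2', h1', h3', ?_⟩, ?_⟩
  · rcases condOr h4 with h5 | h5
    · exact Or.inl (ble_t h5)
    · rcases condOr h5 with h6 | h6
      · exact Or.inr (Or.inl (ble_t h6))
      · obtain ⟨h7, h8⟩ := cond_t h6
        exact Or.inr (Or.inr ⟨ble_t h7, ble_t h8⟩)
  · rcases condOr h with h5 | h5
    · exact Or.inl (Nat.eq_of_beq_eq_true h5)
    · exact Or.inr (Nat.eq_of_beq_eq_true h5)

/-- The real data of the node fit to the test. -/
structure Cx (py pb : Py) (p : BP) (J1 : ℕ) (o : OutB) (ys zs bs : ℂ) (ε q : ℝ) : Prop where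
  R : R3 py pb p J1 o
  dy : SDok (sdY p o) (srY p ys zs) (py.dF || py.dH)
  db : SDok (sdB p o) (srB p zs bs) (pb.dF || pb.dH)
  q0 : 0 ≤ q
  q1 : q ≤ 1
  hq : 12800 * zs.im + 1920 = n0 o + q * ((n1 o : ℝ) - n0 o)
  hw : ∀ w : ℕ, w ≤ 1920 → Zb p zs ε + 137438953472 + 66640 ≤
        (1 - q) * (zc p o (n0 o) w + 4117747 * (w : ℝ)) +
          q * (zc p o (n1 o) w + 4117747 * (w : ℝ))

/-- The two variables of the edges are on pieces, `TV` is the value. -/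
structure Ed (p : BP) (o : OutB) (ys zs bs y z b : ℂ) (dy db : Bool) (pay pab : ℕ)
    (σy σb ly lb ε TV : ℝ) : Prop where
  glue : 8388608000 * TV ≤
      SR true (cuR (sdY p o) dy) (cf (sdY p o) (srY p ys zs) dy pay σy ly) (40 * y.re + 10)
        (20 - 40 * z.re) (12800 * y.im) (-(12800 * z.im)) (12800 * ys.im) - 8388608000 +
      (SR false (cuR (sdB p o) db) (cf (sdB p o) (srB p zs bs) db pab σb lb) (40 * b.re + 10)
        (40 * z.re + 20) (12800 * b.im) (12800 * z.im) (12800 * bs.im) - 8388608000) +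
      8388608000 * Fu (z.re + 1 / 2) z.im + Zb p zs ε

/-- The free pieces. -/
def Fr (py : Py) (e I a : ℝ) (dl : Bool) (pay : ℕ) (σ leg : ℝ) : Prop :=
  (OnF py e I a dl pay ∧ σ = 0 ∧ leg = 1) ∨ OnN py e I a dl pay σ leg

theorem zm_ge (p : BP) (o : OutB) (w : ℕ) :
    (zc p o (n0 o) w : ℝ) ≤ zm p o w ∧ (zc p o (n1 o) w : ℝ) ≤ zm p o w := by
  have e : zm p o w = max (zc p o (n0 o) w) (zc p o (n1 o) w) := by
    unfold zm
    exact mx_eq _ _
  rw [e]
  constructor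
  · exact_mod_cast le_max_left _ _
  · exact_mod_cast le_max_right _ _

section

variable {py pb : Py} {p : BP} {J1 : ℕ} {o : OutB} {ys zs bs y z b : ℂ} {dy db : Bool}
  {pay pab : ℕ} {σy σb ly lb ε q TV : ℝ}

theorem Cx.zm (C : Cx py pb p J1 o ys zs bs ε q) {w : ℕ} (hw : w ≤ 1920) :
    Zb p zs ε + 137438953472 + 66640 ≤ (G3.zm p o w : ℝ) + 4117747 * (w : ℝ) := by
  have h := C.hw w hw
  obtain ⟨h0, h1⟩ := zm_ge p o w
  have a0 := mul_le_mul_of_nonneg_left h0 (show 0 ≤ 1 - q by linarith [C.q1])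
  have a1 := mul_le_mul_of_nonneg_left h1 C.q0
  linarith

theorem dom_A {s : SD} {r : Sr} {J1 b0 b1 M0 M1 L0 L1 : ℕ} {I a : ℝ} {dl : Bool} {pay : ℕ}
    {σ leg : ℝ} (hs : SDok s r (py.dF || py.dH)) (hk : okS s py J1 = true)
    (hg : Gap b0 b1 M0 M1 L0 L1) (h : Fr py r.e I a dl pay σ leg) :
    Dom (aA s py b0 M0 L0) (aA s py b1 M1 L1) (Ps s r dl pay σ leg I a b0 b1) := by
  have h0 := (L_aA hk hg.h0 hg.m0 hg.l0).2
  have h1 := (L_aA hk hg.h1 hg.m1 hg.l1).2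
  rcases h with ⟨h, rfl, rfl⟩ | h
  · exact (A_F hs hk hg h).mono (fun J => (h0 J).1) (fun J => (h1 J).1)
  · exact (A_N hs hk hg h).mono (fun J => (h0 J).2) (fun J => (h1 J).2)

theorem tA_ok {m g M L c K : ℕ} {P : ℕ → Bool} (R : R3 py pb p J1 o) (hg : g ≤ 3840)
    (hM : M ≤ 900) (hL : L ≤ 60) (hc : c < 1099511627776)
    (h : tA (sdY p o) (sdB p o) py pb m g M L c = true)
    (hm : m = pk (fun l => if P l = true then 8796093022208 else 0) 81) (hK : K ≤ 80)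
    (hP : P K = true) :
    SumOk (aA (sdY p o) py (3840 - g) M L) (aA (sdB p o) pb g M L) (zv g M L c) K :=
  tz_sum (L_aA R.sy (Nat.sub_le _ _) hM hL).1 (L_aA R.sb hg hM hL).1 (L_zv hg hM hL hc).1 hm h hK
    hP

/-- Both edges are free. -/
theorem any_main {g0 g1 M0 M1 L0 L1 c0 c1 w0 w1 J : ℕ} {t u : ℝ}
    (C : Cx py pb p J1 o ys zs bs ε q)
    (E : Ed p o ys zs bs y z b dy db pay pab σy σb ly lb ε TV)
    (hy : Fr py (12800 * ys.im) (40 * y.re + 10) (12800 * y.im) dy pay σy ly)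
    (hb : Fr pb (12800 * bs.im) (40 * b.re + 10) (12800 * b.im) db pab σb lb)
    (hg : Gap g0 g1 M0 M1 L0 L1) (hc0 : c0 < 1099511627776) (hc1 : c1 < 1099511627776)
    (s0 : ∀ K, K = J ∨ (0 < t ∧ K = J + 1) → SumOk (aA (sdY p o) py (3840 - g0) M0 L0)
      (aA (sdB p o) pb g0 M0 L0) (zv g0 M0 L0 c0) K)
    (s1 : ∀ K, K = J ∨ (0 < t ∧ K = J + 1) → SumOk (aA (sdY p o) py (3840 - g1) M1 L1)
      (aA (sdB p o) pb g1 M1 L1) (zv g1 M1 L1 c1) K)
    (hJ : J ≤ 40) (hJt : 0 < t → J < 40) (ht0 : 0 ≤ t) (ht1 : t ≤ 1) (hq0 : 0 ≤ u) (hq1 : u ≤ 1)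
    (hz : 40 * z.re + 20 = J + t) (hzi : 12800 * z.im + 1920 = g0 + u * ((g1 : ℝ) - g0))
    (hc : Zb p zs ε + 137438953472 + 66640 ≤
      (1 - u) * (c0 + 4117747 * (w0 : ℝ)) + u * (c1 + 4117747 * (w1 : ℝ))) :
    8388608000 * TV < 4117747 * ((1 - u) * w0 + u * w1) := by
  have hr := hg.rev
  exact row_main E.glue (dom_A C.dy C.R.sy hr hy) (dom_A C.db C.R.sb hg hb) hg hc0 hc1
    (L_aA C.R.sy hr.h0 hr.m0 hr.l0).1 (L_aA C.R.sy hr.h1 hr.m1 hr.l1).1
    (s0 J (Or.inl rfl)) (fun h => s0 _ (Or.inr ⟨h, rfl⟩)) (s1 J (Or.inl rfl))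
    (fun h => s1 _ (Or.inr ⟨h, rfl⟩)) hJ hJt ht0 ht1 hq0 hq1 hz hzi hc

/-- The flat of the variable of the node, the Bailey slot not on its flat. -/
theorem flat_y (C : Cx py pb p J1 o ys zs bs ε q)
    (E : Ed p o ys zs bs y z b dy db pay pab σy σb ly lb ε TV)
    (hy : OnN py (12800 * ys.im) (40 * y.re + 10) (12800 * y.im) dy pay σy ly)
    (hb : Fr pb (12800 * bs.im) (40 * b.re + 10) (12800 * b.im) db pab σb lb)
    (hz : z.im = zs.im) (h0 : (J1 : ℝ) ≤ 40 * z.re + 20) (h1 : 40 * z.re + 20 ≤ 40 - (J1 : ℝ)) :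
    TV < 0 := by
  obtain ⟨hl, hJ⟩ := okN_facts C.R.nn
  have hJ5 : J1 ≤ 5 := by omega
  have hd : |((n1 o : ℕ) : ℝ) - (n0 o : ℕ)| ≤ ((n1 o - n0 o : ℕ) : ℝ) := by
    rw [Nat.cast_sub hl.lt.le, abs_of_nonneg]
    have : ((n0 o : ℕ) : ℝ) ≤ (n1 o : ℕ) := by exact_mod_cast hl.lt.le
    linarith
  have hg : Gap (n0 o) (n1 o) _ _ _ _ := Gap.of (by have := hl.lt; have := hl.le; omega) hl.le hd
    (by have := hl.gap; omega)
  have hr := hg.rev
  obtain ⟨J, t, hx, ht0, ht1, hJ0, hJ1, hJt⟩ := splitJ (lo := J1) (hi := 40 - J1) h0 (by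
    rw [Nat.cast_sub (by omega)]
    push_cast
    exact h1)
  have f0 := (cond_t C.R.f0).1
  have f1 := (cond_t C.R.f1).1
  have pY0 := (L_aN C.R.sy hr.h0 hr.m0 hr.l0).1
  have pY1 := (L_aN C.R.sy hr.h1 hr.m1 hr.l1).1
  have t0 : ∀ K, K = J ∨ (0 < t ∧ K = J + 1) → _ := fun K hK =>
    tz_sum (K := K) pY0 (L_aA C.R.sb hg.h0 hg.m0 hg.l0).1 (L_zv hg.h0 hg.m0 hg.l0 C.R.z0).1
      (mF_eq hJ) f0 (by rcases hK with h | h <;> omega) (by
        simp only [Bool.and_eq_true, decide_eq_true_eq]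
        rcases hK with h | ⟨h, h'⟩
        · omega
        · have := hJt h
          omega)
  have t1 : ∀ K, K = J ∨ (0 < t ∧ K = J + 1) → _ := fun K hK =>
    tz_sum (K := K) pY1 (L_aA C.R.sb hg.h1 hg.m1 hg.l1).1 (L_zv hg.h1 hg.m1 hg.l1 C.R.z1).1
      (mF_eq hJ) f1 (by rcases hK with h | h <;> omega) (by
        simp only [Bool.and_eq_true, decide_eq_true_eq]
        rcases hK with h | ⟨h, h'⟩
        · omega
        · have := hJt h
          omega)
  have h := row_main (w0 := 0) (w1 := 0) E.glue (A_N C.dy C.R.sy hr hy)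
    (dom_A C.db C.R.sb hg hb) hg C.R.z0 C.R.z1 pY0 pY1 (t0 J (Or.inl rfl))
    (fun h => t0 _ (Or.inr ⟨h, rfl⟩)) (t1 J (Or.inl rfl)) (fun h => t1 _ (Or.inr ⟨h, rfl⟩))
    (by omega) (fun h => by have := hJt h; omega) ht0 ht1 C.q0 C.q1
    hx (by rw [hz]; exact C.hq) (by have := C.hw 0 (by norm_num); push_cast at this ⊢; exact this)
  push_cast at h
  linarith

/-- The flat of the variable of the node, the other slot not on its flat. -/
theorem flat_b (C : Cx py pb p J1 o ys zs bs ε q)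
    (E : Ed p o ys zs bs y z b dy db pay pab σy σb ly lb ε TV)
    (hy : OnF py (12800 * ys.im) (40 * y.re + 10) (12800 * y.im) dy pay) (hσ : σy = 0)
    (hly : ly = 1)
    (hb : OnN pb (12800 * bs.im) (40 * b.re + 10) (12800 * b.im) db pab σb lb)
    (hz : z.im = zs.im) (h0 : (J1 : ℝ) ≤ 40 * z.re + 20) (h1 : 40 * z.re + 20 ≤ 40 - (J1 : ℝ)) :
    TV < 0 := by
  obtain ⟨hl, hJ⟩ := okN_facts C.R.nn
  have hJ5 : J1 ≤ 5 := by omega
  have hd : |((n1 o : ℕ) : ℝ) - (n0 o : ℕ)| ≤ ((n1 o - n0 o : ℕ) : ℝ) := by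
    rw [Nat.cast_sub hl.lt.le, abs_of_nonneg]
    have : ((n0 o : ℕ) : ℝ) ≤ (n1 o : ℕ) := by exact_mod_cast hl.lt.le
    linarith
  have hg : Gap (n0 o) (n1 o) _ _ _ _ := Gap.of (by have := hl.lt; have := hl.le; omega) hl.le hd
    (by have := hl.gap; omega)
  have hr := hg.rev
  obtain ⟨J, t, hx, ht0, ht1, hJ0, hJ1, hJt⟩ := splitJ (lo := J1) (hi := 40 - J1) h0 (by
    rw [Nat.cast_sub (by omega)]
    push_cast
    exact h1)
  have f0 := (cond_t C.R.f0).2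
  have f1 := (cond_t C.R.f1).2
  subst hσ
  subst hly
  have pY0 := (L_aF C.R.sy hr.h0 hr.m0 hr.l0).1
  have pY1 := (L_aF C.R.sy hr.h1 hr.m1 hr.l1).1
  have t0 : ∀ K, K = J ∨ (0 < t ∧ K = J + 1) → _ := fun K hK =>
    tz_sum (K := K) pY0 (L_aN C.R.sb hg.h0 hg.m0 hg.l0).1 (L_zv hg.h0 hg.m0 hg.l0 C.R.z0).1
      (mF_eq hJ) f0 (by rcases hK with h | h <;> omega) (by
        simp only [Bool.and_eq_true, decide_eq_true_eq]
        rcases hK with h | ⟨h, h'⟩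
        · omega
        · have := hJt h
          omega)
  have t1 : ∀ K, K = J ∨ (0 < t ∧ K = J + 1) → _ := fun K hK =>
    tz_sum (K := K) pY1 (L_aN C.R.sb hg.h1 hg.m1 hg.l1).1 (L_zv hg.h1 hg.m1 hg.l1 C.R.z1).1
      (mF_eq hJ) f1 (by rcases hK with h | h <;> omega) (by
        simp only [Bool.and_eq_true, decide_eq_true_eq]
        rcases hK with h | ⟨h, h'⟩
        · omega
        · have := hJt h
          omega)
  have h := row_main (w0 := 0) (w1 := 0) E.glue (A_F C.dy C.R.sy hr hy)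
    (A_N C.db C.R.sb hg hb) hg C.R.z0 C.R.z1 pY0 pY1 (t0 J (Or.inl rfl))
    (fun h => t0 _ (Or.inr ⟨h, rfl⟩)) (t1 J (Or.inl rfl)) (fun h => t1 _ (Or.inr ⟨h, rfl⟩))
    (by omega) (fun h => by have := hJt h; omega) ht0 ht1 C.q0 C.q1
    hx (by rw [hz]; exact C.hq) (by have := C.hw 0 (by norm_num); push_cast at this ⊢; exact this)
  push_cast at h
  linarith

/-- A test at an end of the flat. -/
def At (py pb : Py) (p : BP) (J1 : ℕ) (o : OutB) (g M L c : ℕ) : Prop :=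
  ∀ K, (K = J1 ∨ K = 40 - J1) → SumOk (aA (sdY p o) py (3840 - g) M L)
    (aA (sdB p o) pb g M L) (zv g M L c) K

theorem At.ofE {g M L c : ℕ} (R : R3 py pb p J1 o) (hg : g ≤ 3840)
    (hM : M ≤ 900) (hL : L ≤ 60) (hc : c < 1099511627776)
    (h : tA (sdY p o) (sdB p o) py pb (mE J1) g M L c = true) : At py pb p J1 o g M L c := by
  obtain ⟨hl, hJ⟩ := okN_facts R.nn
  intro K hK
  exact tA_ok R hg hM hL hc h (mE_eq hJ) (by omega) (by
    simp only [Bool.or_eq_true, decide_eq_true_eq]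
    exact hK)

theorem At.ofF {g M L c : ℕ} (R : R3 py pb p J1 o) (hg : g ≤ 3840)
    (hM : M ≤ 900) (hL : L ≤ 60) (hc : c < 1099511627776)
    (h : tA (sdY p o) (sdB p o) py pb (mF J1) g M L c = true) : At py pb p J1 o g M L c := by
  obtain ⟨hl, hJ⟩ := okN_facts R.nn
  intro K hK
  exact tA_ok R hg hM hL hc h (mF_eq hJ) (by omega) (by
    simp only [Bool.and_eq_true, decide_eq_true_eq]
    omega)

/-- An end of the flat, between two heights. -/
theorem end_main {g0 g1 M0 M1 L0 L1 c0 c1 w0 w1 : ℕ} {u : ℝ}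
    (C : Cx py pb p J1 o ys zs bs ε q)
    (E : Ed p o ys zs bs y z b dy db pay pab σy σb ly lb ε TV)
    (hy : Fr py (12800 * ys.im) (40 * y.re + 10) (12800 * y.im) dy pay σy ly)
    (hb : Fr pb (12800 * bs.im) (40 * b.re + 10) (12800 * b.im) db pab σb lb)
    (hg : Gap g0 g1 M0 M1 L0 L1) (hc0 : c0 < 1099511627776) (hc1 : c1 < 1099511627776)
    (t0 : At py pb p J1 o g0 M0 L0 c0) (t1 : At py pb p J1 o g1 M1 L1 c1)
    (hq0 : 0 ≤ u) (hq1 : u ≤ 1)
    (hz : 40 * z.re + 20 = (J1 : ℝ) ∨ 40 * z.re + 20 = 40 - (J1 : ℝ))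
    (hzi : 12800 * z.im + 1920 = g0 + u * ((g1 : ℝ) - g0))
    (h0 : Zb p zs ε + 137438953472 + 66640 ≤ c0 + 4117747 * (w0 : ℝ))
    (h1 : Zb p zs ε + 137438953472 + 66640 ≤ c1 + 4117747 * (w1 : ℝ)) :
    8388608000 * TV < 4117747 * ((1 - u) * w0 + u * w1) := by
  obtain ⟨hl, hJ⟩ := okN_facts C.R.nn
  have hc : Zb p zs ε + 137438953472 + 66640 ≤
      (1 - u) * (c0 + 4117747 * (w0 : ℝ)) + u * (c1 + 4117747 * (w1 : ℝ)) := by
    have a0 := mul_le_mul_of_nonneg_left h0 (show 0 ≤ 1 - u by linarith)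
    have a1 := mul_le_mul_of_nonneg_left h1 hq0
    linarith
  have key : ∀ J : ℕ, (J = J1 ∨ J = 40 - J1) → 40 * z.re + 20 = (J : ℝ) →
      8388608000 * TV < 4117747 * ((1 - u) * w0 + u * w1) := by
    intro J hJ2 hzJ
    have f : ∀ K, K = J ∨ ((0 : ℝ) < 0 ∧ K = J + 1) → K = J := by
      rintro K (h | ⟨h, -⟩)
      · exact h
      · exact absurd h (lt_irrefl _)
    exact any_main (J := J) (t := 0) C E hy hb hg hc0 hc1
      (fun K hK => t0 K (by rw [f K hK]; exact hJ2)) (fun K hK => t1 K (by rw [f K hK]; exact hJ2))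
      (by omega) (fun h => absurd h (lt_irrefl _)) le_rfl zero_le_one hq0 hq1
      (by linarith) hzi hc
  rcases hz with hz | hz
  · exact key J1 (Or.inl rfl) hz
  · exact key (40 - J1) (Or.inr rfl) (by rw [Nat.cast_sub (by omega)]; push_cast; linarith)

theorem uIcc_scale {a e c : ℝ} (hc : 0 < c) (h : a ∈ uIcc 0 e) : c * a ∈ uIcc 0 (c * e) := by
  rcases le_total 0 e with he | he
  · rw [uIcc_of_le he] at h
    rw [uIcc_of_le (by positivity)]
    exact ⟨mul_nonneg hc.le h.1, mul_le_mul_of_nonneg_left h.2 hc.le⟩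
  · rw [uIcc_of_ge he] at h
    rw [uIcc_of_ge (mul_nonpos_of_nonneg_of_nonpos hc.le he)]
    exact ⟨mul_le_mul_of_nonneg_left h.1 hc.le, mul_nonpos_of_nonneg_of_nonpos hc.le h.2⟩

/-- The legs. -/
theorem leg_main (C : Cx py pb p J1 o ys zs bs ε q)
    (E : Ed p o ys zs bs y z b dy db pay pab σy σb ly lb ε TV)
    (hy : Fr py (12800 * ys.im) (40 * y.re + 10) (12800 * y.im) dy pay σy ly)
    (hb : Fr pb (12800 * bs.im) (40 * b.re + 10) (12800 * b.im) db pab σb lb)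
    (hz : 40 * z.re + 20 = (J1 : ℝ) ∨ 40 * z.re + 20 = 40 - (J1 : ℝ))
    (hzi : z.im ∈ uIcc 0 zs.im) : TV < 0 := by
  obtain ⟨hl, hJ⟩ := okN_facts C.R.nn
  have hn : ((n0 o : ℕ) : ℝ) ≤ (n1 o : ℕ) := by exact_mod_cast hl.lt.le
  have b0 : ((n0 o : ℕ) : ℝ) - 1920 ≤ 12800 * zs.im := by
    have := mul_nonneg C.q0 (show 0 ≤ ((n1 o : ℕ) : ℝ) - (n0 o : ℕ) by linarith)
    linarith [C.hq]
  have b1 : 12800 * zs.im ≤ ((n1 o : ℕ) : ℝ) - 1920 := by
    have := mul_le_mul_of_nonneg_right C.q1 (show 0 ≤ ((n1 o : ℕ) : ℝ) - (n0 o : ℕ) by linarith)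
    linarith [C.hq]
  obtain ⟨g0, g1, u, l0, l1, u0, u1, hu, hd⟩ := leg_split hl b0 b1
    (uIcc_scale (c := 12800) (by norm_num) hzi)
  obtain ⟨f1, f2, f3⟩ := hl.facts
  have hh : ∀ g : ℕ, (g = 1920 ∨ g = lv1 (n0 o) (n1 o) ∨ g = lv2 (n0 o) (n1 o)) → g ≤ 3840 := by
    rintro g (h | h | h)
    · rw [h]
      norm_num
    · rw [h]
      exact f1
    · rw [h]
      exact f2
  have hM := (gM_le f3).trans (show 225 ≤ 900 by norm_num)
  have hL := (gL_le f3).trans (show 15 ≤ 60 by norm_num)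
  have ht : ∀ g : ℕ, (g = 1920 ∨ g = lv1 (n0 o) (n1 o) ∨ g = lv2 (n0 o) (n1 o)) →
      At py pb p J1 o g (gM (gpl (n0 o) (n1 o))) (gL (gpl (n0 o) (n1 o))) (G3.zm p o 0) := by
    rintro g (h | h | h)
    · rw [h]
      exact At.ofE C.R (by norm_num) hM hL C.R.m0 C.R.l0
    · rw [h]
      exact At.ofE C.R f1 hM hL C.R.m0 C.R.l1
    · rw [h]
      exact At.ofE C.R f2 hM hL C.R.m0 C.R.l2
  have hg : Gap g0 g1 _ _ _ _ := Gap.of (hh g0 l0) (hh g1 l1) hd f3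
  have hc := C.zm (w := 0) (by norm_num)
  have h := end_main (w0 := 0) (w1 := 0) C E hy hb hg C.R.m0 C.R.m0 (ht g0 l0) (ht g1 l1) u0 u1 hz
    (by linarith) hc hc
  push_cast at h
  linarith

theorem pi_lo : (3.14159 : ℝ) < Real.pi := by
  have := Real.pi_gt_d6
  linarith

/-- The weight of the rectangle. -/
theorem w_le {a : ℝ} (ha : 0 ≤ a) : 4117747 * a ≤ 8388608000 * (2 * Real.pi * (a / 12800)) := by
  have h := Real.pi_gt_d6
  nlinarith

/-- The sides. -/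
theorem side_main (C : Cx py pb p J1 o ys zs bs ε q)
    (E : Ed p o ys zs bs y z b dy db pay pab σy σb ly lb ε TV)
    (hy : Fr py (12800 * ys.im) (40 * y.re + 10) (12800 * y.im) dy pay σy ly)
    (hb : Fr pb (12800 * bs.im) (40 * b.re + 10) (12800 * b.im) db pab σb lb)
    (hz : 40 * z.re + 20 = (J1 : ℝ) ∨ 40 * z.re + 20 = 40 - (J1 : ℝ))
    (hzi : |z.im| ≤ 3 / 20) : TV < 2 * Real.pi * |z.im| := by
  obtain ⟨hl, hJ⟩ := okN_facts C.R.nn
  obtain ⟨f1, f2, f3⟩ := hl.facts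
  have c0 := C.zm (w := 0) (by norm_num)
  have c1 := C.zm (w := 960) (by norm_num)
  have c2 := C.zm (w := 1920) (by norm_num)
  have hM := (gM_le f3).trans (show 225 ≤ 900 by norm_num)
  have hL := (gL_le f3).trans (show 15 ≤ 60 by norm_num)
  have fin : 8388608000 * TV < 4117747 * (12800 * |z.im|) → TV < 2 * Real.pi * |z.im| := by
    intro h
    have h2 := w_le (a := 12800 * |z.im|) (by positivity)
    rw [show 12800 * |z.im| / 12800 = |z.im| by ring] at h2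
    by_contra h3
    push Not at h3
    have := mul_le_mul_of_nonneg_left h3 (show (0 : ℝ) ≤ 8388608000 by norm_num)
    linarith
  apply fin
  have tl := At.ofE C.R (by norm_num) hM hL C.R.m0 C.R.l0
  have s0 := At.ofE C.R (by norm_num) (by norm_num) (by norm_num) C.R.m1 C.R.s0
  have s1 := At.ofE C.R (by norm_num) (by norm_num) (by norm_num) C.R.m1 C.R.s1
  have t0 := At.ofF C.R (by norm_num) (by norm_num) (by norm_num) C.R.m2 C.R.t0
  have t1 := At.ofF C.R (by norm_num) (by norm_num) (by norm_num) C.R.m2 C.R.t1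
  rcases le_total 0 z.im with h0 | h0
  · rw [abs_of_nonneg h0] at hzi ⊢
    rcases le_total (12800 * z.im) 960 with h9 | h9
    · obtain ⟨u, u0, u1, hu⟩ := conv_ex (u := 0) (v := 960) (x := 12800 * z.im) (by linarith) h9
      have hg : Gap 1920 2880 (gM (gpl (n0 o) (n1 o))) 900 (gL (gpl (n0 o) (n1 o))) 60 :=
        Gap.near (by norm_num) (by norm_num) (by norm_num) hM hL
      have h := end_main (w0 := 0) (w1 := 960) C E hy hb hg C.R.m0 C.R.m1 tl s1 u0 u1 hz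
        (by push_cast; linarith) c0 c1
      push_cast at h
      linarith
    · obtain ⟨u, u0, u1, hu⟩ := conv_ex (u := 960) (v := 1920) (x := 12800 * z.im) h9
        (by linarith)
      have hg : Gap 2880 3840 900 225 60 15 := Gap.far (by norm_num) (by norm_num) (by norm_num)
      have h := end_main (w0 := 960) (w1 := 1920) C E hy hb hg C.R.m1 C.R.m2 s1 t1 u0 u1
        hz (by push_cast; linarith) c1 c2
      push_cast at h
      linarith
  · rw [abs_of_nonpos h0] at hzi ⊢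
    rcases le_total (12800 * -z.im) 960 with h9 | h9
    · obtain ⟨u, u0, u1, hu⟩ := conv_ex (u := 0) (v := 960) (x := 12800 * -z.im) (by linarith) h9
      have hg : Gap 1920 960 (gM (gpl (n0 o) (n1 o))) 900 (gL (gpl (n0 o) (n1 o))) 60 :=
        Gap.near (by norm_num) (by norm_num) (by norm_num) hM hL
      have h := end_main (w0 := 0) (w1 := 960) C E hy hb hg C.R.m0 C.R.m1 tl s0 u0 u1 hz
        (by push_cast; linarith) c0 c1
      push_cast at h
      linarith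
    · obtain ⟨u, u0, u1, hu⟩ := conv_ex (u := 960) (v := 1920) (x := 12800 * -z.im) h9
        (by linarith)
      have hg : Gap 960 0 900 225 60 15 := Gap.far (by norm_num) (by norm_num) (by norm_num)
      have h := end_main (w0 := 960) (w1 := 1920) C E hy hb hg C.R.m1 C.R.m2 s0 t0 u0 u1
        hz (by push_cast; linarith) c1 c2
      push_cast at h
      linarith

end

end Pool.Agent.S5.G3
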