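import Pool.Agent.S5.K3.G13

/-!
# The rows: top, bottom, real axis, all free positions
-/

set_option autoImplicit false

namespace Pool.Agent.S5.G3

open Pool.Agent.H63.VC3 Pool.Agent.S3 Complex MeasureTheory Filter Topology Set
open Pool.Agent.S5.Tb Pool.Agent.S5.K3

variable {py pb : Py} {p : BP} {J1 : ℕ} {o : OutB} {ys zs bs y z b : ℂ} {dy db : Bool}
  {pay pab : ℕ} {σy σb ly lb ε q TV : ℝ}

/-- Top and bottom. -/
theorem top_main (C : Cx py pb p J1 o ys zs bs ε q)
    (E : Ed p o ys zs bs y z b dy db pay pab σy σb ly lb ε TV)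
    (hy : Fr py (12800 * ys.im) (40 * y.re + 10) (12800 * y.im) dy pay σy ly)
    (hb : Fr pb (12800 * bs.im) (40 * b.re + 10) (12800 * b.im) db pab σb lb)
    (h0 : (J1 : ℝ) ≤ 40 * z.re + 20) (h1 : 40 * z.re + 20 ≤ 40 - (J1 : ℝ))
    (hzi : |z.im| = 3 / 20) : TV < 2 * Real.pi * (3 / 20) := by
  obtain ⟨hl, hJ⟩ := okN_facts C.R.nn
  obtain ⟨J, t, hx, ht0, ht1, hJ0, hJ1, hJt⟩ := splitJ (lo := J1) (hi := 40 - J1) h0 (by
    rw [Nat.cast_sub (by omega)]
    push_cast
    exact h1)
  have c2 := C.zm (w := 1920) (by norm_num)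
  have fin : 8388608000 * TV < 4117747 * 1920 → TV < 2 * Real.pi * (3 / 20) := by
    intro h
    have h2 := w_le (a := 1920) (by norm_num)
    by_contra h3
    push Not at h3
    have := mul_le_mul_of_nonneg_left h3 (show (0 : ℝ) ≤ 8388608000 by norm_num)
    linarith
  have key : ∀ g : ℕ, g ≤ 3840 → 12800 * z.im + 1920 = (g : ℝ) →
      tA (sdY p o) (sdB p o) py pb (mF J1) g 225 15 (G3.zm p o 1920) = true →
      8388608000 * TV < 4117747 * 1920 := by
    intro g hg hz ht
    have hG : Gap g g 225 225 15 15 := Gap.pt hg (by norm_num) (by norm_num)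
    have s : ∀ K, K = J ∨ (0 < t ∧ K = J + 1) → _ := fun K hK =>
      tA_ok (K := K) C.R hg (by norm_num) (by norm_num) C.R.m2 ht (mF_eq hJ)
        (by rcases hK with h | h <;> omega) (by
        simp only [Bool.and_eq_true, decide_eq_true_eq]
        rcases hK with h | ⟨h, h'⟩
        · omega
        · have := hJt h
          omega)
    have h := any_main (w0 := 1920) (w1 := 1920) (u := 0) C E hy hb hG C.R.m2 C.R.m2 s s (by omega)
      (fun h => by have := hJt h; omega) ht0 ht1 le_rfl zero_le_one hx (by linarith)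
      (by push_cast at c2 ⊢; linarith)
    push_cast at h
    linarith
  apply fin
  rcases le_total 0 z.im with h | h
  · rw [abs_of_nonneg h] at hzi
    exact key 3840 le_rfl (by rw [hzi]; norm_num) C.R.t1
  · rw [abs_of_nonpos h] at hzi
    exact key 0 (by norm_num) (by
      rw [show z.im = -(3 / 20) by linarith]
      norm_num) C.R.t0

/-- The variable of the node is real and large, it forces the Bailey slot. -/
theorem P_main (C : Cx py pb p J1 o ys zs bs ε q)
    (E : Ed p o ys zs bs y z b dy db pay pab 0 σb 1 lb ε TV)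
    (hy : OnO py J1 (40 * y.re + 10) (12800 * y.im) dy pay)
    (hb : Fr pb (12800 * bs.im) (40 * b.re + 10) (12800 * b.im) db pab σb lb)
    (hz : z.im = 0) (h0 : 40 - (J1 : ℝ) ≤ 40 * z.re + 20) (h1 : 40 * z.re + 20 ≤ 40) :
    TV < 0 := by
  obtain ⟨hl, hJ⟩ := okN_facts C.R.nn
  have hJ5 : J1 ≤ 5 := by omega
  obtain ⟨J, t, hx, ht0, ht1, hJ0, hJ1, hJt⟩ := splitJ (x := 40 * z.re + 20) (lo := 40 - J1)
    (hi := 40) (by
      rw [Nat.cast_sub (by omega)]
      push_cast
      exact h0) (by push_cast; exact h1)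
  have hg : Gap 1920 1920 0 0 0 0 := Gap.pt (by norm_num) (by norm_num) (by norm_num)
  have hr : Gap (3840 - 1920) (3840 - 1920) 0 0 0 0 := hg.rev
  have c0 := C.zm (w := 0) (by norm_num)
  have pY := (L_aO (J1 := J1) (b := 3840 - 1920) (M := 0) (L := 0) C.R.sy hJ5 (by norm_num)
    (by norm_num) (by norm_num)).1
  have pB := (L_aA (b := 1920) (M := 0) (L := 0) C.R.sb (by norm_num) (by norm_num)
    (by norm_num)).1
  have pZ := (L_zv (g := 1920) (M := 0) (L := 0) (by norm_num) (by norm_num) (by norm_num)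
    C.R.m0).1
  have f0 := (cond_t C.R.rr).1
  have s : ∀ K, K = J ∨ (0 < t ∧ K = J + 1) → _ := fun K hK =>
    tz_sum (K := K) pY pB pZ (mP_eq hJ) f0 (by rcases hK with h | h <;> omega) (by
        simp only [Bool.and_eq_true, decide_eq_true_eq]
        rcases hK with h | ⟨h, h'⟩
        · omega
        · have := hJt h
          omega)
  have h := row_main (w0 := 0) (w1 := 0) (q := 0) E.glue (A_O C.dy C.R.sy hJ5 hr hy)
    (dom_A C.db C.R.sb hg hb) hg C.R.m0 C.R.m0 pY pY (s J (Or.inl rfl))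
    (fun h => s _ (Or.inr ⟨h, rfl⟩)) (s J (Or.inl rfl)) (fun h => s _ (Or.inr ⟨h, rfl⟩))
    (by omega) (fun h => by have := hJt h; omega) ht0 ht1 le_rfl zero_le_one
    hx (by rw [hz]; push_cast; ring) (by push_cast at c0 ⊢; linarith)
  push_cast at h
  linarith

/-- The variable of the node is real and small, it forces the other slot. -/
theorem N_main (C : Cx py pb p J1 o ys zs bs ε q)
    (E : Ed p o ys zs bs y z b dy db pay pab σy 0 ly 1 ε TV)
    (hy : Fr py (12800 * ys.im) (40 * y.re + 10) (12800 * y.im) dy pay σy ly)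
    (hb : OnO pb J1 (40 * b.re + 10) (12800 * b.im) db pab)
    (hz : z.im = 0) (h0 : 0 ≤ 40 * z.re + 20) (h1 : 40 * z.re + 20 ≤ (J1 : ℝ)) :
    TV < 0 := by
  obtain ⟨hl, hJ⟩ := okN_facts C.R.nn
  have hJ5 : J1 ≤ 5 := by omega
  obtain ⟨J, t, hx, ht0, ht1, hJ0, hJ1, hJt⟩ := splitJ (lo := 0) (hi := J1)
    (by push_cast; exact h0) h1
  have hg : Gap 1920 1920 0 0 0 0 := Gap.pt (by norm_num) (by norm_num) (by norm_num)
  have hr : Gap (3840 - 1920) (3840 - 1920) 0 0 0 0 := hg.rev
  have c0 := C.zm (w := 0) (by norm_num)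
  have pY := (L_aA (b := 3840 - 1920) (M := 0) (L := 0) C.R.sy (by norm_num) (by norm_num)
    (by norm_num)).1
  have pB := (L_aO (J1 := J1) (b := 1920) (M := 0) (L := 0) C.R.sb hJ5 (by norm_num)
    (by norm_num) (by norm_num)).1
  have pZ := (L_zv (g := 1920) (M := 0) (L := 0) (by norm_num) (by norm_num) (by norm_num)
    C.R.m0).1
  have f0 := (cond_t C.R.rr).2
  have s : ∀ K, K = J ∨ (0 < t ∧ K = J + 1) → _ := fun K hK =>
    tz_sum (K := K) pY pB pZ (mN_eq hJ) f0 (by rcases hK with h | h <;> omega) (by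
        simp only [decide_eq_true_eq]
        rcases hK with h | ⟨h, h'⟩
        · omega
        · have := hJt h
          omega)
  have h := row_main (w0 := 0) (w1 := 0) (q := 0) E.glue (dom_A C.dy C.R.sy hr hy)
    (A_O C.db C.R.sb hJ5 hg hb) hg C.R.m0 C.R.m0 pY pY (s J (Or.inl rfl))
    (fun h => s _ (Or.inr ⟨h, rfl⟩)) (s J (Or.inl rfl)) (fun h => s _ (Or.inr ⟨h, rfl⟩))
    (by omega) (fun h => by have := hJt h; omega) ht0 ht1 le_rfl zero_le_one
    hx (by rw [hz]; push_cast; ring) (by push_cast at c0 ⊢; linarith)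
  push_cast at h
  linarith

/-- **All free positions**, the variable of the node on its contour. -/
theorem U_main {z1 w : ℝ} (C : Cx py pb p J1 o ys zs bs ε q)
    (E : Ed p o ys zs bs y z b dy db pay pab σy σb ly lb ε TV)
    (hz1 : 40 * z1 = 20 - (J1 : ℝ))
    (hy : Fr py (12800 * ys.im) (40 * y.re + 10) (12800 * y.im) dy pay σy ly)
    (hb : Fr pb (12800 * bs.im) (40 * b.re + 10) (12800 * b.im) db pab σb lb)
    (hz : LimR (-z1) z1 (3 / 20) zs.im z w)
    (hx : ¬(w = 0 ∧ z.im = zs.im ∧ -z1 ≤ z.re ∧ z.re ≤ z1) ∨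
      OnN py (12800 * ys.im) (40 * y.re + 10) (12800 * y.im) dy pay σy ly ∨
      OnN pb (12800 * bs.im) (40 * b.re + 10) (12800 * b.im) db pab σb lb) :
    TV < w := by
  rcases hz with ⟨rfl, h1, h2, h3⟩ | ⟨rfl, h1, h2⟩ | ⟨rfl, h1, h2⟩ | ⟨rfl, h1, h2, h3⟩
  · rcases hx with hx | hx | hx
    · exact absurd ⟨rfl, h1, h2, h3⟩ hx
    · exact flat_y C E hx hb h1 (by linarith) (by linarith)
    · rcases hy with ⟨hy, h4, h5⟩ | hy
      · exact flat_b C E hy h4 h5 hx h1 (by linarith) (by linarith)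
      · exact flat_y C E hy hb h1 (by linarith) (by linarith)
  · exact leg_main C E hy hb (by
      rcases h1 with h | h
      · left
        rw [h]
        linarith
      · right
        rw [h]
        linarith) h2
  · exact side_main C E hy hb (by
      rcases h1 with h | h
      · left
        rw [h]
        linarith
      · right
        rw [h]
        linarith) h2
  · exact top_main C E hy hb (by linarith) (by linarith) h1

end Pool.Agent.S5.G3
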