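import Pool.Agent.S5.K3.G1
import Pool.Agent.S5.K3.G2
import Pool.Agent.S5.I.Te1
import Pool.Agent.S5.I.TsK

/-!
# The rows are right
-/

set_option autoImplicit false

namespace Pool.Agent.S5.G3

open Pool.Agent.H63.VC3 Pool.Agent.S3 Complex MeasureTheory Filter Topology Set
open Pool.Agent.S5.Tb

/-! ### Lanes of a number -/

/-- The lane `l` of `v`. -/
def lane (v l : Nat) : Nat := Nat.mod (Nat.shiftRight v (Nat.mul 44 l)) 17592186044416

theorem lane_lt (v l : ℕ) : lane v l < 17592186044416 := Nat.mod_lt _ (by norm_num)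

theorem pk_lanes (n : ℕ) : ∀ v : ℕ, v < 17592186044416 ^ n → pk (lane v) n = v := by
  induction n with
  | zero =>
    intro v hv
    have : v = 0 := by simpa using hv
    rw [this]
    rfl
  | succ n ih =>
    intro v hv
    have h1 : v / 17592186044416 < 17592186044416 ^ n := by
      rw [Nat.div_lt_iff_lt_mul (by norm_num)]
      calc v < 17592186044416 ^ (n + 1) := hv
        _ = _ := by ring
    have h2 : ∀ l, lane v (l + 1) = lane (v / 17592186044416) l := by
      intro l
      change (v >>> (44 * (l + 1))) % 17592186044416 = ((v / 17592186044416) >>> (44 * l)) % _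
      rw [show 44 * (l + 1) = 44 + 44 * l by ring, Nat.shiftRight_add,
        Nat.shiftRight_eq_div_pow v 44, show (2 : ℕ) ^ 44 = 17592186044416 by norm_num]
    have h3 : lane v 0 = v % 17592186044416 := rfl
    simp only [pk]
    rw [pk_congr n (fun l _ => h2 l), ih _ h1, h3]
    omega

theorem lane_ge {v l : ℕ} (hv : v < 17592186044416 ^ 81) (hl : 81 ≤ l) : lane v l = 0 := by
  change (v >>> (44 * l)) % 17592186044416 = 0
  rw [Nat.shiftRight_eq_div_pow]
  have e : (17592186044416 : ℕ) ^ 81 = 2 ^ (44 * 81) := by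
    rw [show (17592186044416 : ℕ) = 2 ^ 44 by norm_num, ← pow_mul]
  have : v / 2 ^ (44 * l) = 0 := by
    rw [Nat.div_eq_zero_iff]
    right
    rw [e] at hv
    exact lt_of_lt_of_le hv (Nat.pow_le_pow_right (by norm_num) (by omega))
  rw [this]

/-- All `n` values of a test. -/
def allb (f : Nat → Bool) (n : Nat) : Bool :=
  Nat.rec (motive := fun _ => Bool) true (fun k ih => cond (f k) ih false) n

theorem allb_ok {f : ℕ → Bool} {n : ℕ} (h : allb f n = true) : ∀ k < n, f k = true := by
  induction n with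
  | zero => intro k hk; omega
  | succ n ih =>
    have e : allb f (n + 1) = cond (f n) (allb f n) false := rfl
    rw [e] at h
    intro k hk
    cases hf : f n with
    | false => rw [hf] at h; exact absurd h (by simp)
    | true =>
      rw [hf] at h
      rcases Nat.lt_succ_iff_lt_or_eq.1 hk with h1 | h1
      · exact ih h k h1
      · rw [h1]
        exact hf

/-! ### The check -/

/-- Upper bound of the value, `40 ≤ m ≤ 80`. -/
def qv1 (j m : Nat) : Nat :=
  bif Nat.beq m 80 then Nat.sub 8388608000 (Nat.mul 65883960 j)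
  else bif Nat.beq m 40 then Nat.add 8388608000 (Nat.mul 65883980 j)
  else bif Nat.ble m 60 then
    Nat.add 8388608000 (Nat.mul 8000 (Nat.add (qE (ent6 (Nat.mul 5 (Nat.sub m 40)) j)) 32))
  else Nat.sub 8388864000 (Nat.mul 8000 (qE (ent6 (Nat.mul 5 (Nat.sub 80 m)) j)))

/-- Upper bound of the value. -/
def qv (j m : Nat) : Nat :=
  bif Nat.ble m 39 then Nat.add (qv1 j (Nat.add m 40)) (Nat.mul 131767960 j) else qv1 j m

/-- Error in the cell between `m` and `m + 1`, `40 ≤ m`. -/
def er1 (j m : Nat) : Nat :=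
  bif Nat.ble 60 m then 0
  else bif Nat.beq m 40 then
    (bif Nat.beq j 0 then 77152000
      else mn 77152000 (Nat.mul 40960 (kE (ent 0 (mn j 50)))))
  else Nat.mul 40960 (kE (ent (Nat.mul 5 (Nat.sub m 40)) (mn j 50)))

/-- Error in the cell between `m` and `m + 1`. -/
def er (j m : Nat) : Nat := bif Nat.ble m 39 then er1 j (Nat.add m 40) else er1 j m

/-- The check of a lane. -/
def ckm (j m : Nat) : Bool :=
  cond (Nat.ble (Nat.add (qv j m) (er j m)) (lane (rw j) m))
    (cond (Nat.ble (Nat.succ (lane (rw j) m)) 34359738368)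
      (bif Nat.beq m 0 then true
        else Nat.ble (Nat.add (qv j m) (er j (Nat.sub m 1))) (lane (rw j) m)) false) false

/-- The check of a row. -/
def ckr (j : Nat) : Bool :=
  cond (allb (ckm j) 81) (Nat.beq (Nat.shiftRight (rw j) 3564) 0) false

theorem rows_ok : allb ckr 61 = true := by decide +kernel

/-- The vertical error in the lane `m`. -/
def kp (m : Nat) : Nat :=
  bif Nat.ble 80 m then 0
  else bif Nat.ble m 20 then 0
  else bif Nat.ble m 39 then
    Nat.div (Nat.add (Nat.mul 8192 (kE (ent (Nat.mul 5 (Nat.sub 40 m)) 0))) 4) 5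
  else bif Nat.ble m 60 then 0
  else Nat.div (Nat.add (Nat.mul 8192 (kE (ent (Nat.mul 5 (Nat.sub 80 m)) 0))) 4) 5

/-- The linear vertical error. -/
def li (m : Nat) : Nat := bif Nat.beq m 80 then 32941990 else 0

theorem kap_ok : allb (fun m => cond (Nat.beq (kp m) (lane KAP m))
    (Nat.ble (kp m) 2000000) false) 81 = true ∧
    Nat.shiftRight KAP 3564 = 0 := by
  constructor <;> decide +kernel

theorem lin_ok : LIN = pk li 81 := by decide +kernel

/-! ### Consequences -/

theorem cond_t {a b : Bool} (h : cond a b false = true) : a = true ∧ b = true := by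
  cases a <;> cases b <;> simp_all

theorem row_lt {j : ℕ} (hj : j ≤ 60) : rw j < 17592186044416 ^ 81 := by
  have h := (cond_t (allb_ok rows_ok j (by omega))).2
  have h1 := Nat.eq_of_beq_eq_true h
  change (rw j) >>> 3564 = 0 at h1
  rw [Nat.shiftRight_eq_div_pow, Nat.div_eq_zero_iff] at h1
  rcases h1 with h1 | h1
  · exact absurd h1 (by positivity)
  · have e : (17592186044416 : ℕ) ^ 81 = 2 ^ 3564 := by
      rw [show (17592186044416 : ℕ) = 2 ^ 44 by norm_num, ← pow_mul]
    rw [e]
    exact h1

/-- The row. -/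
theorem row_Pk {j : ℕ} (hj : j ≤ 60) : Pk (rw j) (lane (rw j)) 34359738368 where
  e := (pk_lanes 81 _ (row_lt hj)).symm
  b := fun l => by
    rcases lt_or_ge l 81 with h | h
    · have h1 := (cond_t (cond_t (allb_ok (cond_t (allb_ok rows_ok j (by omega))).1 l h)).2).1
      exact ble_t h1
    · rw [lane_ge (row_lt hj) h]
      norm_num
  z := fun l hl => lane_ge (row_lt hj) hl

theorem kap_lt : KAP < 17592186044416 ^ 81 := by
  have h1 := kap_ok.2
  change KAP >>> 3564 = 0 at h1
  rw [Nat.shiftRight_eq_div_pow, Nat.div_eq_zero_iff] at h1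
  rcases h1 with h1 | h1
  · exact absurd h1 (by positivity)
  · have e : (17592186044416 : ℕ) ^ 81 = 2 ^ 3564 := by
      rw [show (17592186044416 : ℕ) = 2 ^ 44 by norm_num, ← pow_mul]
    rw [e]
    exact h1

theorem kp_ge {l : ℕ} (h : 81 ≤ l) : kp l = 0 := by
  unfold kp
  rw [show Nat.ble 80 l = true from Nat.ble_eq_true_of_le (by omega)]
  rfl

theorem li_ge {l : ℕ} (h : 81 ≤ l) : li l = 0 := by
  unfold li
  rw [show Nat.beq l 80 = false by
    rw [Bool.eq_false_iff]
    intro h1
    have := Nat.eq_of_beq_eq_true h1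
    omega]
  rfl

theorem kap_Pk : Pk KAP kp 2000001 where
  e := by
    rw [← pk_lanes 81 _ kap_lt]
    apply pk_congr
    intro l hl
    exact (Nat.eq_of_beq_eq_true (cond_t (allb_ok kap_ok.1 l hl)).1).symm
  b := fun l => by
    rcases lt_or_ge l 81 with h | h
    · have := ble_t (cond_t (allb_ok kap_ok.1 l h)).2
      omega
    · rw [kp_ge h]
      norm_num
  z := fun l hl => kp_ge hl

theorem lin_Pk : Pk LIN li 32941991 where
  e := lin_ok
  b := fun l => by
    unfold li
    cases Nat.beq l 80 <;> simp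
  z := fun l hl => li_ge hl

end Pool.Agent.S5.G3
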