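import Pool.Agent.S5.K3.G3

/-!
# The interpolation from the rows
-/

set_option autoImplicit false

namespace Pool.Agent.S5.G3

open Pool.Agent.H63.VC3 Pool.Agent.S3 Complex MeasureTheory Filter Topology Set
open Pool.Agent.S5.Tb

theorem beq_false {a b : ℕ} (h : a ≠ b) : Nat.beq a b = false := by
  rw [Bool.eq_false_iff]
  intro h1
  exact h (Nat.eq_of_beq_eq_true h1)

theorem beq_self (a : ℕ) : Nat.beq a a = true := Nat.beq_refl a

theorem ble_false {a b : ℕ} (h : b < a) : Nat.ble a b = false := by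
  rw [Bool.eq_false_iff]
  intro h1
  have := ble_t h1
  omega

theorem ble_true {a b : ℕ} (h : a ≤ b) : Nat.ble a b = true := Nat.ble_eq_true_of_le h

theorem Fu_table {i j : ℕ} (hi : i ≤ 100) (hj : j ≤ 60) (h0 : 0 < i + j) :
    |Fu ((i : ℝ) / 200) ((j : ℝ) / 200) * 1048576 - (qE (ent6 i j) : ℝ)| ≤ 32 :=
  (ent6_ok i j hi hj h0).q

theorem natsub_ge (a b : ℕ) : (a : ℝ) - b ≤ ((Nat.sub a b : ℕ) : ℝ) := by
  change (a : ℝ) - b ≤ ((a - b : ℕ) : ℝ)
  rcases le_total b a with h | h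
  · rw [Nat.cast_sub h]
  · rw [Nat.sub_eq_zero_of_le h]
    have : (a : ℝ) ≤ b := by exact_mod_cast h
    push_cast
    linarith

theorem natadd (a b : ℕ) : ((Nat.add a b : ℕ) : ℝ) = (a : ℝ) + b := Nat.cast_add a b

theorem natmul (a b : ℕ) : ((Nat.mul a b : ℕ) : ℝ) = (a : ℝ) * b := Nat.cast_mul a b

theorem nattwo (n : ℕ) [n.AtLeastTwo] : ((OfNat.ofNat n : ℕ) : ℝ) = OfNat.ofNat n := Nat.cast_ofNat

theorem c77 : ((77152000 : ℕ) : ℝ) = 77152000 := by norm_num

theorem c40 : ((40960 : ℕ) : ℝ) = 40960 := by norm_num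

/-- The values. -/
theorem qv1_ok {j m : ℕ} (hj : j ≤ 60) (h0 : 40 ≤ m) (h1 : m ≤ 80) :
    8388608000 * (Fu (((m : ℝ) - 40) / 40) ((j : ℝ) / 200) + 1) ≤ qv1 j m := by
  have p1 := pi_lt'
  have p2 := pi_gt'
  have hj' : (0 : ℝ) ≤ j := Nat.cast_nonneg _
  rcases eq_or_ne m 80 with h80 | h80
  · subst h80
    have e : qv1 j 80 = Nat.sub 8388608000 (Nat.mul 65883960 j) := rfl
    rw [e]
    refine le_trans ?_ (natsub_ge _ _)
    rw [natmul, show (((80 : ℕ) : ℝ) - 40) / 40 = 1 by norm_num, Fu_one,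
      abs_of_nonneg (by positivity)]
    push_cast
    nlinarith
  rcases eq_or_ne m 40 with h40 | h40
  · subst h40
    have e : qv1 j 40 = Nat.add 8388608000 (Nat.mul 65883980 j) := rfl
    rw [e, natadd, natmul, show (((40 : ℕ) : ℝ) - 40) / 40 = 0 by norm_num, Fu_zero,
      abs_of_nonneg (by positivity)]
    push_cast
    nlinarith
  rcases le_or_gt m 60 with h60 | h60
  · have e : qv1 j m = Nat.add 8388608000 (Nat.mul 8000 (Nat.add
        (qE (ent6 (Nat.mul 5 (Nat.sub m 40)) j)) 32)) := by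
      unfold qv1
      rw [beq_false h80, beq_false h40, ble_true h60]
      rfl
    obtain ⟨k, rfl⟩ : ∃ k, m = k + 40 := ⟨m - 40, by omega⟩
    have e2 : Nat.mul 5 (Nat.sub (k + 40) 40) = 5 * k := by
      change 5 * (k + 40 - 40) = 5 * k
      rw [Nat.add_sub_cancel]
    rw [e, e2, natadd, natmul, natadd, nattwo, nattwo, nattwo]
    have h2 := abs_le.1 (Fu_table (i := 5 * k) (j := j) (by omega) hj (by omega))
    have e3 : (((k + 40 : ℕ) : ℝ) - 40) / 40 = ((5 * k : ℕ) : ℝ) / 200 := by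
      push_cast
      ring
    rw [e3]
    linarith [h2.2]
  · have e : qv1 j m = Nat.sub 8388864000 (Nat.mul 8000
        (qE (ent6 (Nat.mul 5 (Nat.sub 80 m)) j))) := by
      unfold qv1
      rw [beq_false h80, beq_false h40, ble_false h60]
      rfl
    obtain ⟨k, rfl⟩ : ∃ k, m = 80 - k := ⟨80 - m, by omega⟩
    have hk : k ≤ 80 := by omega
    have e2 : Nat.mul 5 (Nat.sub 80 (80 - k)) = 5 * k := by
      change 5 * (80 - (80 - k)) = 5 * k
      omega
    rw [e, e2]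
    refine le_trans ?_ (natsub_ge _ _)
    rw [natmul, nattwo, nattwo]
    have h2 := abs_le.1 (Fu_table (i := 5 * k) (j := j) (by omega) hj (by omega))
    have e3 : (((80 - k : ℕ) : ℝ) - 40) / 40 = 1 - ((5 * k : ℕ) : ℝ) / 200 := by
      rw [Nat.cast_sub hk]
      push_cast
      ring
    rw [e3, Fu_one_sub]
    linarith [h2.1]

theorem qv_ok {j m : ℕ} (hj : j ≤ 60) (h1 : m ≤ 80) :
    8388608000 * (Fu (((m : ℝ) - 40) / 40) ((j : ℝ) / 200) + 1) ≤ qv j m := by
  rcases le_or_gt m 39 with h | h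
  · have e : qv j m = Nat.add (qv1 j (Nat.add m 40)) (Nat.mul 131767960 j) := by
      unfold qv
      rw [ble_true h]
      rfl
    rw [e, natadd, natmul, nattwo]
    have h2 := qv1_ok (m := m + 40) hj (by omega) (by omega)
    rw [Fu_add_one]
    have e2 : ((m : ℝ) - 40) / 40 + 1 = (((m + 40 : ℕ) : ℝ) - 40) / 40 := by
      push_cast
      ring
    have p1 := pi_lt'
    have hj' : (0 : ℝ) ≤ j := Nat.cast_nonneg _
    rw [e2, abs_of_nonneg (by positivity)]
    change _ ≤ ((qv1 j (m + 40) : ℕ) : ℝ) + 131767960 * j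
    nlinarith
  · have e : qv j m = qv1 j m := by
      unfold qv
      rw [ble_false (by omega)]
      rfl
    rw [e]
    exact qv1_ok hj (by omega) h1

/-- The errors in the cells of the left half of the strip. -/
theorem er1_ok {j m : ℕ} {p : ℝ} (hj : j ≤ 60) (h0 : 40 ≤ m) (h1 : m < 60) (hp0 : 0 ≤ p)
    (hp1 : p ≤ 1) :
    8388608000 * Fu (((m : ℝ) + p - 40) / 40) ((j : ℝ) / 200) ≤
      (1 - p) * (8388608000 * Fu (((m : ℝ) - 40) / 40) ((j : ℝ) / 200)) +
      p * (8388608000 * Fu (((m : ℝ) + 1 - 40) / 40) ((j : ℝ) / 200)) + er1 j m := by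
  obtain ⟨k, rfl⟩ : ∃ k, m = k + 40 := ⟨m - 40, by omega⟩
  have hk : k < 20 := by omega
  have hkr : (k : ℝ) + 1 ≤ 20 := by exact_mod_cast hk
  have hk0 : (0 : ℝ) ≤ k := Nat.cast_nonneg _
  have e0 : (((k + 40 : ℕ) : ℝ) - 40) / 40 = (k : ℝ) / 40 := by push_cast; ring
  have e1 : (((k + 40 : ℕ) : ℝ) + 1 - 40) / 40 = ((k : ℝ) + 1) / 40 := by push_cast; ring
  have e2 : (((k + 40 : ℕ) : ℝ) + p - 40) / 40 = (k : ℝ) / 40 + p * (((k : ℝ) + 1) / 40 - (k : ℝ) / 40) := by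
    push_cast; ring
  rw [e0, e1, e2]
  -- the bound from the table
  have key : 0 < k + j → 8388608000 * Fu ((k : ℝ) / 40 + p * (((k : ℝ) + 1) / 40 - (k : ℝ) / 40)) ((j : ℝ) / 200) ≤
      (1 - p) * (8388608000 * Fu ((k : ℝ) / 40) ((j : ℝ) / 200)) +
      p * (8388608000 * Fu (((k : ℝ) + 1) / 40) ((j : ℝ) / 200)) +
      40960 * (kE (ent (5 * k) (min j 50)) : ℝ) := by
    intro hkj
    have hE := tab_ok (5 * k) (min j 50) (by omega) (by omega) (by omega)
    have h := Fu_left (a := (k : ℝ) / 40) (b := ((k : ℝ) + 1) / 40) (s := (j : ℝ) / 200)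
      (K := (kE (ent (5 * k) (min j 50)) : ℝ) / 16) (p := p) (by positivity) (by linarith)
      (by linarith) hp0 hp1
      (by
        rcases Nat.eq_zero_or_pos k with h2 | h2
        · right
          have : 0 < (j : ℝ) := by exact_mod_cast (by omega : 0 < j)
          positivity
        · left
          have : 0 < (k : ℝ) := by exact_mod_cast h2
          positivity)
      (by
        intro z z0 z1 z2
        have hz : 0 ≤ z.re := le_trans (by positivity) z0
        apply ct_le (by omega) (by omega) hE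
        · rw [abs_of_nonneg hz]
          push_cast
          linarith
        · rw [abs_of_nonneg hz]
          push_cast
          linarith
        · rw [z2, abs_of_nonneg (by positivity)]
          have : ((min j 50 : ℕ) : ℝ) ≤ j := by exact_mod_cast min_le_left _ _
          linarith)
    have h3 := mul_le_mul_of_nonneg_left h (show (0 : ℝ) ≤ 8388608000 by norm_num)
    have e4 : (kE (ent (5 * k) (min j 50)) : ℝ) / 16 / 8 * (((k : ℝ) + 1) / 40 - (k : ℝ) / 40) ^ 2 *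
        8388608000 = 40960 * (kE (ent (5 * k) (min j 50)) : ℝ) := by ring
    linarith
  have key0 : k = 0 → 8388608000 * Fu ((k : ℝ) / 40 + p * (((k : ℝ) + 1) / 40 - (k : ℝ) / 40)) ((j : ℝ) / 200) ≤
      (1 - p) * (8388608000 * Fu ((k : ℝ) / 40) ((j : ℝ) / 200)) +
      p * (8388608000 * Fu (((k : ℝ) + 1) / 40) ((j : ℝ) / 200)) + 77152000 := by
    intro hk
    subst hk
    have h := Fu_left0 (b := 1 / 40) (s := (j : ℝ) / 200) (p := p) (by norm_num) (by norm_num) hp0 hp1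
    have e3 : ((0 : ℕ) : ℝ) / 40 + p * ((((0 : ℕ) : ℝ) + 1) / 40 - ((0 : ℕ) : ℝ) / 40) = p * (1 / 40) := by
      push_cast; ring
    have e4 : ((0 : ℕ) : ℝ) / 40 = 0 := by norm_num
    have e5 : (((0 : ℕ) : ℝ) + 1) / 40 = 1 / 40 := by norm_num
    rw [e3, e4, e5]
    linarith
  have hb : Nat.ble 60 (k + 40) = false := ble_false (by omega)
  rcases Nat.eq_zero_or_pos k with h2 | h2
  · subst h2
    rcases Nat.eq_zero_or_pos j with h3 | h3
    · subst h3
      have e : er1 0 (0 + 40) = 77152000 := rfl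
      rw [e, c77]
      exact key0 rfl
    · have e : er1 j (0 + 40) = mn 77152000 (Nat.mul 40960 (kE (ent 0 (mn j 50)))) := by
        unfold er1
        rw [hb, show Nat.beq (0 + 40) 40 = true from rfl, beq_false (by omega : j ≠ 0)]
        rfl
      rw [e, mn_eq, mn_eq]
      have k0 := key0 rfl
      have k1 := key (by omega)
      rcases le_total 77152000 (Nat.mul 40960 (kE (ent 0 (min j 50)))) with h4 | h4
      · rw [min_eq_left h4, c77]
        exact k0
      · rw [min_eq_right h4, natmul, c40]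
        exact k1
  · have e : er1 j (k + 40) = Nat.mul 40960 (kE (ent (Nat.mul 5 (Nat.sub (k + 40) 40)) (mn j 50))) := by
      unfold er1
      rw [hb, beq_false (by omega : k + 40 ≠ 40)]
      rfl
    have e5 : Nat.mul 5 (Nat.sub (k + 40) 40) = 5 * k := by
      change 5 * (k + 40 - 40) = 5 * k
      rw [Nat.add_sub_cancel]
    rw [e, e5, mn_eq, natmul, nattwo]
    exact key (by omega)

/-- The errors in the cells of the left half of the strip. -/
theorem er_ok {j m : ℕ} {p : ℝ} (hj : j ≤ 60) (hm : m < 20 ∨ (40 ≤ m ∧ m < 60)) (hp0 : 0 ≤ p)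
    (hp1 : p ≤ 1) :
    8388608000 * Fu (((m : ℝ) + p - 40) / 40) ((j : ℝ) / 200) ≤
      (1 - p) * (8388608000 * Fu (((m : ℝ) - 40) / 40) ((j : ℝ) / 200)) +
      p * (8388608000 * Fu (((m : ℝ) + 1 - 40) / 40) ((j : ℝ) / 200)) + er j m := by
  rcases hm with hm | hm
  · have e : er j m = er1 j (m + 40) := by
      unfold er
      rw [ble_true (by omega)]
      rfl
    rw [e, Fu_add_one (((m : ℝ) + p - 40) / 40), Fu_add_one (((m : ℝ) - 40) / 40),
      Fu_add_one (((m : ℝ) + 1 - 40) / 40)]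
    have h := er1_ok (m := m + 40) hj (by omega) (by omega) hp0 hp1
    have e1 : ((m : ℝ) + p - 40) / 40 + 1 = (((m + 40 : ℕ) : ℝ) + p - 40) / 40 := by
      push_cast; ring
    have e2 : ((m : ℝ) - 40) / 40 + 1 = (((m + 40 : ℕ) : ℝ) - 40) / 40 := by
      push_cast; ring
    have e3 : ((m : ℝ) + 1 - 40) / 40 + 1 = (((m + 40 : ℕ) : ℝ) + 1 - 40) / 40 := by
      push_cast; ring
    rw [e1, e2, e3]
    linarith
  · have e : er j m = er1 j m := by
      unfold er
      rw [ble_false (by omega)]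
      rfl
    rw [e]
    exact er1_ok hj hm.1 hm.2 hp0 hp1

/-- The lane, as a real number. -/
noncomputable def Rl (j m : ℕ) : ℝ := (lane (rw j) m : ℝ)

theorem Rl_vertex {j m : ℕ} (hj : j ≤ 60) (hm : m ≤ 80) :
    8388608000 * (Fu (((m : ℝ) - 40) / 40) ((j : ℝ) / 200) + 1) + er j m ≤ Rl j m := by
  have h1 := qv_ok hj hm
  have h2 := ble_t (cond_t (allb_ok (cond_t (allb_ok rows_ok j (by omega))).1 m (by omega))).1
  have h3 : ((Nat.add (qv j m) (er j m) : ℕ) : ℝ) ≤ (lane (rw j) m : ℝ) := by exact_mod_cast h2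
  rw [natadd] at h3
  unfold Rl
  linarith

theorem Rl_vertex' {j m : ℕ} (hj : j ≤ 60) (hm : m < 80) :
    8388608000 * (Fu (((m : ℝ) + 1 - 40) / 40) ((j : ℝ) / 200) + 1) + er j m ≤ Rl j (m + 1) := by
  have h1 := qv_ok (m := m + 1) hj (by omega)
  have h2 := (cond_t (cond_t (allb_ok (cond_t (allb_ok rows_ok j (by omega))).1 (m + 1)
    (by omega))).2).2
  rw [beq_false (by omega : m + 1 ≠ 0)] at h2
  change Nat.ble (Nat.add (qv j (m + 1)) (er j (m + 1 - 1))) (lane (rw j) (m + 1)) = true at h2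
  rw [Nat.add_sub_cancel] at h2
  have h3 : ((Nat.add (qv j (m + 1)) (er j m) : ℕ) : ℝ) ≤ (lane (rw j) (m + 1) : ℝ) := by
    exact_mod_cast ble_t h2
  rw [natadd] at h3
  unfold Rl
  push_cast at h1
  linarith

/-- Horizontal interpolation in the concave cells. -/
theorem Rl_cell {j m : ℕ} {p : ℝ} (hj : j ≤ 60) (hm : m < 20 ∨ (40 ≤ m ∧ m < 60)) (hp0 : 0 ≤ p)
    (hp1 : p ≤ 1) :
    8388608000 * (Fu (((m : ℝ) + p - 40) / 40) ((j : ℝ) / 200) + 1) ≤
      (1 - p) * Rl j m + p * Rl j (m + 1) := by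
  have h := er_ok hj hm hp0 hp1
  have h1 := mul_le_mul_of_nonneg_left (Rl_vertex (m := m) hj (by omega)) (show 0 ≤ 1 - p by linarith)
  have h2 := mul_le_mul_of_nonneg_left (Rl_vertex' (m := m) hj (by omega)) hp0
  linarith

theorem er_nonneg (j m : ℕ) : (0 : ℝ) ≤ er j m := Nat.cast_nonneg _

/-- Horizontal interpolation in the convex cells. -/
theorem Fu_cell {m : ℕ} {p s : ℝ} (hm : (20 ≤ m ∧ m < 40) ∨ (60 ≤ m ∧ m < 80)) (hp0 : 0 ≤ p)
    (hp1 : p ≤ 1) :
    Fu (((m : ℝ) + p - 40) / 40) s ≤ (1 - p) * Fu (((m : ℝ) - 40) / 40) s +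
      p * Fu (((m : ℝ) + 1 - 40) / 40) s := by
  have key : ∀ k : ℕ, 60 ≤ k → k < 80 → Fu (((k : ℝ) + p - 40) / 40) s ≤
      (1 - p) * Fu (((k : ℝ) - 40) / 40) s + p * Fu (((k : ℝ) + 1 - 40) / 40) s := by
    intro k h0 h1
    have h0' : (60 : ℝ) ≤ k := by exact_mod_cast h0
    have h1' : (k : ℝ) + 1 ≤ 80 := by exact_mod_cast h1
    have h := Fu_right (a := ((k : ℝ) - 40) / 40) (b := ((k : ℝ) + 1 - 40) / 40) (p := p) (s := s)
      (by linarith) (by linarith) (by linarith) hp0 hp1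
    have e : ((k : ℝ) - 40) / 40 + p * (((k : ℝ) + 1 - 40) / 40 - ((k : ℝ) - 40) / 40) =
        ((k : ℝ) + p - 40) / 40 := by ring
    rw [e] at h
    exact h
  rcases hm with hm | hm
  · have h := key (m + 40) (by omega) (by omega)
    rw [Fu_add_one (((m : ℝ) + p - 40) / 40), Fu_add_one (((m : ℝ) - 40) / 40),
      Fu_add_one (((m : ℝ) + 1 - 40) / 40)]
    have e1 : ((m : ℝ) + p - 40) / 40 + 1 = (((m + 40 : ℕ) : ℝ) + p - 40) / 40 := by
      push_cast; ring
    have e2 : ((m : ℝ) - 40) / 40 + 1 = (((m + 40 : ℕ) : ℝ) - 40) / 40 := by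
      push_cast; ring
    have e3 : ((m : ℝ) + 1 - 40) / 40 + 1 = (((m + 40 : ℕ) : ℝ) + 1 - 40) / 40 := by
      push_cast; ring
    rw [e1, e2, e3]
    linarith
  · exact key m hm.1 hm.2

/-! ### Vertical interpolation -/

/-- Vertical interpolation where the function is convex. -/
theorem Fu_vc {u a b p : ℝ} (h : (0 ≤ u ∧ u ≤ 1 / 2) ∨ (-1 ≤ u ∧ u ≤ -(1 / 2))) (hp0 : 0 ≤ p)
    (hp1 : p ≤ 1) : Fu u (a + p * (b - a)) ≤ (1 - p) * Fu u a + p * Fu u b := by
  rcases h with h | h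
  · exact Fu_vert h.1 h.2 hp0 hp1
  · have h1 := Fu_vert (u := u + 1) (a := a) (b := b) (by linarith [h.1]) (by linarith [h.2]) hp0 hp1
    have h2 := abs_vert a b hp0 hp1
    rw [Fu_add_one u, Fu_add_one u a, Fu_add_one u b]
    have := mul_le_mul_of_nonneg_left h2 Real.pi_pos.le
    linarith

theorem kp_left {m : ℕ} (h0 : 20 < m) (h1 : m < 40) :
    kp m = Nat.div (Nat.add (Nat.mul 8192 (kE (ent (Nat.mul 5 (Nat.sub 40 m)) 0))) 4) 5 := by
  unfold kp
  rw [ble_false (by omega : m < 80), ble_false (by omega : 20 < m), ble_true (by omega : m ≤ 39)]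
  rfl

theorem kp_right {m : ℕ} (h0 : 60 < m) (h1 : m < 80) :
    kp m = Nat.div (Nat.add (Nat.mul 8192 (kE (ent (Nat.mul 5 (Nat.sub 80 m)) 0))) 4) 5 := by
  unfold kp
  rw [ble_false (by omega : m < 80), ble_false (by omega : 20 < m), ble_false (by omega : 39 < m),
    ble_false (by omega : 60 < m)]
  rfl

theorem div5 (K : ℕ) : (8192 : ℝ) * K / 5 ≤
    ((Nat.div (Nat.add (Nat.mul 8192 K) 4) 5 : ℕ) : ℝ) := by
  have h : 8192 * K ≤ 5 * Nat.div (Nat.add (Nat.mul 8192 K) 4) 5 := by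
    change 8192 * K ≤ 5 * ((8192 * K + 4) / 5)
    omega
  have h1 : ((8192 * K : ℕ) : ℝ) ≤ ((5 * Nat.div (Nat.add (Nat.mul 8192 K) 4) 5 : ℕ) : ℝ) := by
    exact_mod_cast h
  push_cast at h1
  linarith

/-- Vertical interpolation on the lines of the grid. -/
theorem Fu_vv {m : ℕ} {a b p : ℝ} (hm : m ≤ 80) (hp0 : 0 ≤ p) (hp1 : p ≤ 1) :
    8388608000 * Fu (((m : ℝ) - 40) / 40) ((a + p * (b - a)) / 200) ≤
      (1 - p) * (8388608000 * Fu (((m : ℝ) - 40) / 40) (a / 200)) +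
      p * (8388608000 * Fu (((m : ℝ) - 40) / 40) (b / 200)) +
      ((kp m : ℝ) * (b - a) ^ 2 + (li m : ℝ) * |b - a|) := by
  have e0 : (a + p * (b - a)) / 200 = a / 200 + p * (b / 200 - a / 200) := by ring
  have hm' : (m : ℝ) ≤ 80 := by exact_mod_cast hm
  have hm0 : (0 : ℝ) ≤ m := Nat.cast_nonneg _
  have hk0 : (0 : ℝ) ≤ (kp m : ℝ) * (b - a) ^ 2 := by positivity
  have hl0 : (0 : ℝ) ≤ (li m : ℝ) * |b - a| := by positivity
  rw [e0]
  rcases eq_or_ne m 80 with h80 | h80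
  · subst h80
    have e1 : (((80 : ℕ) : ℝ) - 40) / 40 = 1 := by norm_num
    rw [e1] at *
    have h := Fu_vert1 (a := a / 200) (b := b / 200) hp0 hp1
    have e2 : b / 200 - a / 200 = (b - a) / 200 := by ring
    rw [e2, abs_div, abs_of_pos (show (0 : ℝ) < 200 by norm_num)] at h
    have e3 : ((li 80 : ℕ) : ℝ) = 32941990 := by
      change ((32941990 : ℕ) : ℝ) = _
      norm_num
    rw [e3, e2]
    have p1 := pi_lt'
    have := abs_nonneg (b - a)
    nlinarith
  rcases le_or_gt m 20 with h20 | h20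
  · have h2 : (m : ℝ) ≤ 20 := by exact_mod_cast h20
    have h := Fu_vc (u := ((m : ℝ) - 40) / 40) (a := a / 200) (b := b / 200) (Or.inr ⟨by linarith, by linarith⟩) hp0 hp1
    linarith
  rcases lt_or_ge m 40 with h40 | h40
  · have h2 : (21 : ℝ) ≤ m := by exact_mod_cast h20
    have h3 : (m : ℝ) + 1 ≤ 40 := by exact_mod_cast h40
    set i := 40 - m with hi
    have him : (i : ℝ) = 40 - m := by
      rw [hi, Nat.cast_sub (by omega)]
      norm_num
    have hE := tab_ok (5 * i) 0 (by omega) (by omega) (by omega)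
    have h := Fu_vert' (u := ((m : ℝ) - 40) / 40 + 1) (a := a / 200) (b := b / 200) (p := p)
      (K := (kE (ent (5 * i) 0) : ℝ) / 16) (by linarith) (by linarith) hp0 hp1
      (by
        intro z hz
        apply ct_le (by omega) (by omega) hE
        · rw [hz, abs_of_nonneg (by linarith)]
          push_cast
          rw [him]
          linarith
        · rw [hz, abs_of_nonneg (by linarith)]
          push_cast
          rw [him]
          linarith
        · simp)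
    have h4 := abs_vert (a / 200) (b / 200) hp0 hp1
    rw [Fu_add_one (((m : ℝ) - 40) / 40), Fu_add_one (((m : ℝ) - 40) / 40) (a / 200),
      Fu_add_one (((m : ℝ) - 40) / 40) (b / 200)]
    have h5 := mul_le_mul_of_nonneg_left h4 Real.pi_pos.le
    have h6 := div5 (kE (ent (5 * i) 0))
    rw [kp_left h20 h40, show Nat.mul 5 (Nat.sub 40 m) = 5 * i from rfl]
    have h7 := mul_le_mul_of_nonneg_right h6 (sq_nonneg (b - a))
    have e4 : (kE (ent (5 * i) 0) : ℝ) / 16 / 8 * (b / 200 - a / 200) ^ 2 * 8388608000 =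
      (8192 : ℝ) * (kE (ent (5 * i) 0) : ℝ) / 5 * (b - a) ^ 2 := by ring
    linarith
  rcases le_or_gt m 60 with h60 | h60
  · have h2 : (m : ℝ) ≤ 60 := by exact_mod_cast h60
    have h3 : (40 : ℝ) ≤ m := by exact_mod_cast h40
    have h := Fu_vc (u := ((m : ℝ) - 40) / 40) (a := a / 200) (b := b / 200) (Or.inl ⟨by linarith, by linarith⟩) hp0 hp1
    linarith
  · have h2 : (61 : ℝ) ≤ m := by exact_mod_cast h60
    have h3 : (m : ℝ) + 1 ≤ 80 := by exact_mod_cast (by omega : m + 1 ≤ 80)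
    set i := 80 - m with hi
    have him : (i : ℝ) = 80 - m := by
      rw [hi, Nat.cast_sub (by omega)]
      norm_num
    have hE := tab_ok (5 * i) 0 (by omega) (by omega) (by omega)
    have h := Fu_vert' (u := ((m : ℝ) - 40) / 40) (a := a / 200) (b := b / 200) (p := p)
      (K := (kE (ent (5 * i) 0) : ℝ) / 16) (by linarith) (by linarith) hp0 hp1
      (by
        intro z hz
        apply ct_le (by omega) (by omega) hE
        · rw [hz, abs_of_nonneg (by linarith)]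
          push_cast
          rw [him]
          linarith
        · rw [hz, abs_of_nonneg (by linarith)]
          push_cast
          rw [him]
          linarith
        · simp)
    have h6 := div5 (kE (ent (5 * i) 0))
    rw [kp_right h60 (by omega), show Nat.mul 5 (Nat.sub 80 m) = 5 * i from rfl]
    have h7 := mul_le_mul_of_nonneg_right h6 (sq_nonneg (b - a))
    have e4 : (kE (ent (5 * i) 0) : ℝ) / 16 / 8 * (b / 200 - a / 200) ^ 2 * 8388608000 =
      (8192 : ℝ) * (kE (ent (5 * i) 0) : ℝ) / 5 * (b - a) ^ 2 := by ring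
    linarith

/-- Bilinear combination. -/
def bl4 (p q x00 x01 x10 x11 : ℝ) : ℝ :=
  (1 - p) * ((1 - q) * x00 + q * x01) + p * ((1 - q) * x10 + q * x11)

theorem bl4_mono {p q x00 x01 x10 x11 y00 y01 y10 y11 : ℝ} (hp0 : 0 ≤ p) (hp1 : p ≤ 1)
    (hq0 : 0 ≤ q) (hq1 : q ≤ 1) (h00 : x00 ≤ y00) (h01 : x01 ≤ y01) (h10 : x10 ≤ y10)
    (h11 : x11 ≤ y11) : bl4 p q x00 x01 x10 x11 ≤ bl4 p q y00 y01 y10 y11 := by
  unfold bl4
  have a1 := mul_le_mul_of_nonneg_left h00 (show 0 ≤ 1 - q by linarith)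
  have a2 := mul_le_mul_of_nonneg_left h01 hq0
  have a3 := mul_le_mul_of_nonneg_left h10 (show 0 ≤ 1 - q by linarith)
  have a4 := mul_le_mul_of_nonneg_left h11 hq0
  have b1 := mul_le_mul_of_nonneg_left (add_le_add a1 a2) (show 0 ≤ 1 - p by linarith)
  have b2 := mul_le_mul_of_nonneg_left (add_le_add a3 a4) hp0
  linarith

/-- The two variables of the height, on a line of the grid. -/
theorem Fu_vv2 {m : ℕ} {a0 a1 b0 b1 p q M L : ℝ} (hm : m ≤ 80) (hp0 : 0 ≤ p) (hp1 : p ≤ 1)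
    (hq0 : 0 ≤ q) (hq1 : q ≤ 1) (hM : (a1 - a0) ^ 2 + (b1 - b0) ^ 2 ≤ M)
    (hL : |a1 - a0| + |b1 - b0| ≤ L) :
    8388608000 * (Fu (((m : ℝ) - 40) / 40)
      ((a0 + p * (a1 - a0) + (b0 + q * (b1 - b0))) / 200) + 1) ≤
    bl4 p q (8388608000 * (Fu (((m : ℝ) - 40) / 40) ((a0 + b0) / 200) + 1))
      (8388608000 * (Fu (((m : ℝ) - 40) / 40) ((a0 + b1) / 200) + 1))
      (8388608000 * (Fu (((m : ℝ) - 40) / 40) ((a1 + b0) / 200) + 1))
      (8388608000 * (Fu (((m : ℝ) - 40) / 40) ((a1 + b1) / 200) + 1)) + (kp m * M + li m * L) := by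
  set g := b0 + q * (b1 - b0) with hg
  have h1 := Fu_vv (m := m) (a := a0 + g) (b := a1 + g) (p := p) hm hp0 hp1
  have h2 := Fu_vv (m := m) (a := a0 + b0) (b := a0 + b1) (p := q) hm hq0 hq1
  have h3 := Fu_vv (m := m) (a := a1 + b0) (b := a1 + b1) (p := q) hm hq0 hq1
  have e1 : a0 + g + p * (a1 + g - (a0 + g)) = a0 + p * (a1 - a0) + g := by ring
  have e2 : a0 + b0 + q * (a0 + b1 - (a0 + b0)) = a0 + g := by rw [hg]; ring
  have e3 : a1 + b0 + q * (a1 + b1 - (a1 + b0)) = a1 + g := by rw [hg]; ring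
  have e4 : a1 + g - (a0 + g) = a1 - a0 := by ring
  have e5 : a0 + b1 - (a0 + b0) = b1 - b0 := by ring
  have e6 : a1 + b1 - (a1 + b0) = b1 - b0 := by ring
  rw [e1, e4] at h1
  rw [e2, e5] at h2
  rw [e3, e6] at h3
  have t2 := mul_le_mul_of_nonneg_left h2 (show 0 ≤ 1 - p by linarith)
  have t3 := mul_le_mul_of_nonneg_left h3 hp0
  have t4 := mul_le_mul_of_nonneg_left hM (Nat.cast_nonneg (α := ℝ) (kp m))
  have t5 := mul_le_mul_of_nonneg_left hL (Nat.cast_nonneg (α := ℝ) (li m))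
  unfold bl4
  linarith

/-- The two variables of the height, where the function is convex. -/
theorem Fu_vc2 {u a0 a1 b0 b1 p q : ℝ} (h : (0 ≤ u ∧ u ≤ 1 / 2) ∨ (-1 ≤ u ∧ u ≤ -(1 / 2)))
    (hp0 : 0 ≤ p) (hp1 : p ≤ 1) (hq0 : 0 ≤ q) (hq1 : q ≤ 1) :
    8388608000 * (Fu u ((a0 + p * (a1 - a0) + (b0 + q * (b1 - b0))) / 200) + 1) ≤
    bl4 p q (8388608000 * (Fu u ((a0 + b0) / 200) + 1))
      (8388608000 * (Fu u ((a0 + b1) / 200) + 1))
      (8388608000 * (Fu u ((a1 + b0) / 200) + 1))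
      (8388608000 * (Fu u ((a1 + b1) / 200) + 1)) := by
  set g := b0 + q * (b1 - b0) with hg
  have h1 := Fu_vc (u := u) (a := (a0 + g) / 200) (b := (a1 + g) / 200) (p := p) h hp0 hp1
  have h2 := Fu_vc (u := u) (a := (a0 + b0) / 200) (b := (a0 + b1) / 200) (p := q) h hq0 hq1
  have h3 := Fu_vc (u := u) (a := (a1 + b0) / 200) (b := (a1 + b1) / 200) (p := q) h hq0 hq1
  have e1 : (a0 + g) / 200 + p * ((a1 + g) / 200 - (a0 + g) / 200) =
    (a0 + p * (a1 - a0) + g) / 200 := by ring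
  have e2 : (a0 + b0) / 200 + q * ((a0 + b1) / 200 - (a0 + b0) / 200) = (a0 + g) / 200 := by
    rw [hg]; ring
  have e3 : (a1 + b0) / 200 + q * ((a1 + b1) / 200 - (a1 + b0) / 200) = (a1 + g) / 200 := by
    rw [hg]; ring
  rw [e1] at h1
  rw [e2] at h2
  rw [e3] at h3
  have t2 := mul_le_mul_of_nonneg_left h2 (show 0 ≤ 1 - p by linarith)
  have t3 := mul_le_mul_of_nonneg_left h3 hp0
  unfold bl4
  linarith

/-- The vertex values. -/
noncomputable def Vx (M L : ℝ) (a b : ℤ) (m : ℕ) : ℝ :=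
  Rl (Int.natAbs (a + b)) m + (kp m * M + li m * L)

theorem Fu_int (u : ℝ) (a b : ℤ) :
    Fu u (((a : ℝ) + b) / 200) = Fu u ((Int.natAbs (a + b) : ℝ) / 200) := by
  rw [← Fu_abs u (((a : ℝ) + b) / 200), abs_div, abs_of_pos (show (0 : ℝ) < 200 by norm_num)]
  congr 2
  rw [Nat.cast_natAbs]
  push_cast
  rfl

/-- **The interpolation in a cell.** -/
theorem cell {m : ℕ} {a0 a1 b0 b1 : ℤ} {p q θ M L : ℝ} (hm : m < 80) (hp0 : 0 ≤ p) (hp1 : p ≤ 1)
    (hq0 : 0 ≤ q) (hq1 : q ≤ 1) (ht0 : 0 ≤ θ) (ht1 : θ ≤ 1)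
    (hM : ((a1 : ℝ) - a0) ^ 2 + ((b1 : ℝ) - b0) ^ 2 ≤ M)
    (hL : |(a1 : ℝ) - a0| + |(b1 : ℝ) - b0| ≤ L)
    (h00 : Int.natAbs (a0 + b0) ≤ 60) (h01 : Int.natAbs (a0 + b1) ≤ 60)
    (h10 : Int.natAbs (a1 + b0) ≤ 60) (h11 : Int.natAbs (a1 + b1) ≤ 60) :
    8388608000 * (Fu (((m : ℝ) + θ - 40) / 40)
      (((a0 : ℝ) + p * (a1 - a0) + (b0 + q * (b1 - b0))) / 200) + 1) ≤
    bl4 p q ((1 - θ) * Vx M L a0 b0 m + θ * Vx M L a0 b0 (m + 1))
      ((1 - θ) * Vx M L a0 b1 m + θ * Vx M L a0 b1 (m + 1))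
      ((1 - θ) * Vx M L a1 b0 m + θ * Vx M L a1 b0 (m + 1))
      ((1 - θ) * Vx M L a1 b1 m + θ * Vx M L a1 b1 (m + 1)) := by
  have hM0 : 0 ≤ M := le_trans (by positivity) hM
  have hL0 : 0 ≤ L := le_trans (by positivity) hL
  have hx : ∀ k : ℕ, (0 : ℝ) ≤ kp k * M + li k * L := fun k => by positivity
  by_cases hc : (20 ≤ m ∧ m < 40) ∨ (60 ≤ m ∧ m < 80)
  · have h1 := Fu_cell (m := m) (p := θ)
      (s := ((a0 : ℝ) + p * (a1 - a0) + (b0 + q * (b1 - b0))) / 200) hc ht0 ht1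
    have h2 := Fu_vv2 (m := m) (a0 := a0) (a1 := a1) (b0 := b0) (b1 := b1) (by omega) hp0 hp1 hq0
      hq1 hM hL
    have h3 := Fu_vv2 (m := m + 1) (a0 := a0) (a1 := a1) (b0 := b0) (b1 := b1) (by omega) hp0 hp1
      hq0 hq1 hM hL
    rw [Fu_int, Fu_int, Fu_int, Fu_int] at h2 h3
    have v : ∀ k : ℕ, k ≤ 80 → ∀ j : ℕ, j ≤ 60 →
        8388608000 * (Fu (((k : ℝ) - 40) / 40) ((j : ℝ) / 200) + 1) ≤ Rl j k := by
      intro k hk j hj
      have := Rl_vertex (j := j) (m := k) hj hk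
      have := er_nonneg j k
      linarith
    have g2 := h2.trans (add_le_add_left (bl4_mono hp0 hp1 hq0 hq1 (v m (by omega) _ h00)
      (v m (by omega) _ h01) (v m (by omega) _ h10) (v m (by omega) _ h11)) _)
    have g3 := h3.trans (add_le_add_left (bl4_mono hp0 hp1 hq0 hq1 (v (m + 1) (by omega) _ h00)
      (v (m + 1) (by omega) _ h01) (v (m + 1) (by omega) _ h10) (v (m + 1) (by omega) _ h11)) _)
    have t2 := mul_le_mul_of_nonneg_left g2 (show 0 ≤ 1 - θ by linarith)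
    have t3 := mul_le_mul_of_nonneg_left g3 ht0
    have e1 : (((m + 1 : ℕ) : ℝ) - 40) / 40 = ((m : ℝ) + 1 - 40) / 40 := by push_cast; ring
    rw [e1] at t3
    unfold bl4 at *
    unfold Vx
    linarith
  · have hc' : m < 20 ∨ (40 ≤ m ∧ m < 60) := by omega
    have hu : (0 ≤ ((m : ℝ) + θ - 40) / 40 ∧ ((m : ℝ) + θ - 40) / 40 ≤ 1 / 2) ∨
        (-1 ≤ ((m : ℝ) + θ - 40) / 40 ∧ ((m : ℝ) + θ - 40) / 40 ≤ -(1 / 2)) := by
      rcases hc' with h | h
      · right
        have h1 : (m : ℝ) + 1 ≤ 20 := by exact_mod_cast h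
        have h2 : (0 : ℝ) ≤ m := Nat.cast_nonneg _
        constructor <;> linarith
      · left
        have h1 : (m : ℝ) + 1 ≤ 60 := by exact_mod_cast h.2
        have h2 : (40 : ℝ) ≤ m := by exact_mod_cast h.1
        constructor <;> linarith
    have h1 := Fu_vc2 (a0 := a0) (a1 := a1) (b0 := b0) (b1 := b1) hu hp0 hp1 hq0 hq1
    rw [Fu_int, Fu_int, Fu_int, Fu_int] at h1
    refine h1.trans (bl4_mono hp0 hp1 hq0 hq1 ?_ ?_ ?_ ?_) <;>
    · refine (Rl_cell (p := θ) (by assumption) hc' ht0 ht1).trans ?_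
      unfold Vx
      have a1 := mul_nonneg (show 0 ≤ 1 - θ by linarith) (hx m)
      have a2 := mul_nonneg ht0 (hx (m + 1))
      linarith

end Pool.Agent.S5.G3
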