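import Pool.Agent.S5.K3.G4

/-!
# The interpolation from the rows, fine heights

Heights are in units `1 / 12800` here; between two rows of the grid `1 / 200` the chord is taken.
-/

set_option autoImplicit false

namespace Pool.Agent.S5.G3

open Pool.Agent.H63.VC3 Pool.Agent.S3 Complex MeasureTheory Filter Topology Set
open Pool.Agent.S5.Tb

/-! ### The packed rows -/

/-- Shift inside of the lanes. -/
theorem pk_shr6 (n : ℕ) : ∀ f : ℕ → ℕ, (∀ l, f l < 17592186044416) → (∀ l, n ≤ l → f l = 0) →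
    (pk f n) >>> 6 = pk (fun l => f l / 64 + 274877906944 * (f (l + 1) % 64)) n := by
  induction n with
  | zero => intro f _ _; simp [pk]
  | succ n ih =>
    intro f hf hz
    have h := ih (fun l => f (l + 1)) (fun l => hf _) (fun l hl => hz _ (by omega))
    rw [Nat.shiftRight_eq_div_pow] at h ⊢
    simp only [pk]
    rw [← h]
    have e : pk (fun l => f (l + 1)) n % 64 = f 1 % 64 := by
      cases n with
      | zero =>
        rw [hz 1 (by omega)]
        rfl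
      | succ n =>
        simp only [pk]
        rw [zero_add]
        omega
    have h1 : (0 : ℕ) + 1 = 1 := rfl
    have h2 := hf 0
    rw [h1, ← e]
    generalize pk (fun l => f (l + 1)) n = y
    generalize f 0 = x at *
    norm_num
    omega

/-- The mask of the low `38` bits of the lanes. -/
def MSK : Nat := Nat.mul 274877906943 ON

theorem land_38 {x y : ℕ} (hx : x < 274877906944) :
    (x + 274877906944 * y) &&& 274877906943 = x := by
  have e : (274877906943 : ℕ) = 2 ^ 38 - 1 := by norm_num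
  rw [e, Nat.and_two_pow_sub_one_eq_mod]
  omega

/-- Division of the lanes by `64`. -/
theorem Pk.div64 {v : ℕ} {f : ℕ → ℕ} (h : Pk v f 17592186044416) :
    Pk (Nat.land (Nat.shiftRight v 6) MSK) (fun l => f l / 64) 274877906944 where
  e := by
    change (v >>> 6) &&& MSK = _
    have e1 : MSK = pk (fun _ => 274877906943) 81 := ON_mul _
    rw [h.e, pk_shr6 81 f h.b h.z, e1, pk_land]
    · apply pk_congr
      intro l _
      exact land_38 (by have := h.b l; omega)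
    · intro l
      have := h.b l
      omega
    · intro l
      norm_num
  b := fun l => by have := h.b l; omega
  z := fun l hl => by rw [h.z l hl]

/-- The error of the chord and the rounding. -/
def KL : Nat := Nat.add KAP ON

/-- The row at the height `h / 12800`. -/
def rwI (h : Nat) : Nat :=
  Nat.add (Nat.land (Nat.shiftRight
    (Nat.add (Nat.mul (Nat.sub 64 (Nat.mod h 64)) (rw (Nat.div h 64)))
      (Nat.mul (Nat.mod h 64) (rw (Nat.succ (Nat.div h 64))))) 6) MSK) KL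

/-- The lanes of the row at the height `h / 12800`. -/
def lnI (h m : Nat) : Nat :=
  if m < 81 then
    ((64 - h % 64) * lane (rw (h / 64)) m + h % 64 * lane (rw (h / 64 + 1)) m) / 64 + (kp m + 1)
  else 0

theorem rw61 : rw 61 = rw 60 := rfl

theorem row_Pk' {j : ℕ} (hj : j ≤ 61) : Pk (rw j) (lane (rw j)) 34359738368 := by
  rcases Nat.lt_or_ge 60 j with h | h
  · have e : j = 61 := by omega
    rw [e, rw61]
    exact row_Pk le_rfl
  · exact row_Pk h

theorem rwI_Pk {h : ℕ} (hh : h ≤ 3840) : Pk (rwI h) (lnI h) 34361738369 := by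
  have h1 := row_Pk' (j := h / 64) (by omega)
  have h2 := row_Pk' (j := h / 64 + 1) (by omega)
  have ht : h % 64 < 64 := Nat.mod_lt _ (by norm_num)
  have hX : Pk (Nat.add (Nat.mul (Nat.sub 64 (Nat.mod h 64)) (rw (Nat.div h 64)))
      (Nat.mul (Nat.mod h 64) (rw (Nat.succ (Nat.div h 64)))))
      (fun m => (64 - h % 64) * lane (rw (h / 64)) m + h % 64 * lane (rw (h / 64 + 1)) m)
      (64 * 34359738368) := by
    refine ⟨?_, fun m => ?_, fun m hm => ?_⟩
    · change (64 - h % 64) * rw (h / 64) + h % 64 * rw (h / 64 + 1) = _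
      rw [pk_add, pk_smul, pk_smul, ← h1.e, ← h2.e]
    · have b1 := h1.b m
      have b2 := h2.b m
      calc (64 - h % 64) * lane (rw (h / 64)) m + h % 64 * lane (rw (h / 64 + 1)) m
          ≤ (64 - h % 64) * 34359738367 + h % 64 * 34359738367 :=
            Nat.add_le_add (Nat.mul_le_mul_left _ (by omega)) (Nat.mul_le_mul_left _ (by omega))
        _ = 64 * 34359738367 := by
            rw [← Nat.add_mul]
            congr 1
            omega
        _ < 64 * 34359738368 := by norm_num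
    · rw [h1.z m hm, h2.z m hm, mul_zero, mul_zero, add_zero]
  have hX2 := hX.mono (show 64 * 34359738368 ≤ 17592186044416 by norm_num)
  have h3 := hX2.div64
  refine ⟨?_, fun m => ?_, fun m hm => ?_⟩
  · have e1 := h3.e
    change Nat.land _ _ + (KAP + ON) = _
    rw [e1, ON_eq, kap_Pk.e, ← pk_add, ← pk_add]
    apply pk_congr
    intro l hl
    unfold lnI
    rw [if_pos hl]
  · unfold lnI
    split_ifs
    · have h4 := hX.b m
      have h5 := kap_Pk.b m
      generalize kp m = k at *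
      omega
    · norm_num
  · unfold lnI
    rw [if_neg (by omega)]

/-! ### The values -/

/-- The lane, as a real number. -/
noncomputable def RlI (h m : ℕ) : ℝ := (lnI h m : ℝ)

theorem RlI_ge {h m : ℕ} (hm : m < 81) :
    (1 - ((h % 64 : ℕ) : ℝ) / 64) * Rl (h / 64) m + ((h % 64 : ℕ) : ℝ) / 64 * Rl (h / 64 + 1) m +
      kp m ≤ RlI h m := by
  have ht : h % 64 < 64 := Nat.mod_lt _ (by norm_num)
  unfold RlI lnI Rl
  rw [if_pos hm]
  generalize h % 64 = t at *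
  generalize lane (rw (h / 64)) m = x
  generalize lane (rw (h / 64 + 1)) m = y
  generalize kp m = k
  have h1 : (64 - t) * x + t * y + 64 * k ≤ 64 * (((64 - t) * x + t * y) / 64 + (k + 1)) := by
    omega
  have h2 : (((64 - t) * x + t * y : ℕ) : ℝ) + 64 * k ≤
      64 * ((((64 - t) * x + t * y) / 64 + (k + 1) : ℕ) : ℝ) := by
    exact_mod_cast h1
  have h3 : (((64 - t) * x + t * y : ℕ) : ℝ) = (64 - (t : ℝ)) * x + t * y := by
    rw [Nat.cast_add, Nat.cast_mul, Nat.cast_mul, Nat.cast_sub (by omega)]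
    norm_num
  rw [h3] at h2
  linarith

/-- The vertex values. -/
noncomputable def VxI (M L : ℝ) (a b : ℤ) (m : ℕ) : ℝ :=
  RlI (Int.natAbs (a + b)) m + (kp m * M + li m * L)

theorem FuI_int (u : ℝ) (a b : ℤ) :
    Fu u (((a : ℝ) / 64 + (b : ℝ) / 64) / 200) = Fu u ((Int.natAbs (a + b) : ℝ) / 64 / 200) := by
  rw [← Fu_abs u (((a : ℝ) / 64 + (b : ℝ) / 64) / 200)]
  congr 1
  rw [show ((a : ℝ) / 64 + (b : ℝ) / 64) / 200 = ((a + b : ℤ) : ℝ) / 64 / 200 by push_cast; ring,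
    abs_div, abs_div, abs_of_pos (show (0 : ℝ) < 200 by norm_num),
    abs_of_pos (show (0 : ℝ) < 64 by norm_num), Nat.cast_natAbs, Int.cast_abs]

theorem h64 (h : ℕ) : (h : ℝ) / 64 = ((h / 64 : ℕ) : ℝ) + ((h % 64 : ℕ) : ℝ) / 64 := by
  have : h = 64 * (h / 64) + h % 64 := by omega
  have h2 : (h : ℝ) = 64 * ((h / 64 : ℕ) : ℝ) + ((h % 64 : ℕ) : ℝ) := by exact_mod_cast this
  linarith

/-- Between two rows, on a line of the grid. -/
theorem Fu_rows {h m : ℕ} (hh : h ≤ 3840) (hm : m ≤ 80) :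
    8388608000 * (Fu (((m : ℝ) - 40) / 40) ((h : ℝ) / 64 / 200) + 1) ≤ RlI h m := by
  have ht : h % 64 < 64 := Nat.mod_lt _ (by norm_num)
  have ht' : ((h % 64 : ℕ) : ℝ) < 64 := by exact_mod_cast ht
  have ht0 : (0 : ℝ) ≤ ((h % 64 : ℕ) : ℝ) := Nat.cast_nonneg _
  have hR := RlI_ge (h := h) (m := m) (by omega)
  have hk0 : (0 : ℝ) ≤ kp m := Nat.cast_nonneg _
  have v : ∀ j : ℕ, j ≤ 60 →
      8388608000 * (Fu (((m : ℝ) - 40) / 40) ((j : ℝ) / 200) + 1) ≤ Rl j m := by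
    intro j hj
    have := Rl_vertex (j := j) (m := m) hj hm
    have := er_nonneg j m
    linarith
  rcases Nat.eq_zero_or_pos (h % 64) with h0 | h0
  · rw [h64 h, h0]
    rw [h0] at hR
    have := v (h / 64) (by omega)
    simp only [Nat.cast_zero, zero_div, add_zero, sub_zero, one_mul, zero_mul] at hR ⊢
    linarith
  · have hj : h / 64 + 1 ≤ 60 := by omega
    have v0 := v (h / 64) (by omega)
    have v1 := v (h / 64 + 1) hj
    have key : 8388608000 * Fu (((m : ℝ) - 40) / 40) ((h : ℝ) / 64 / 200) ≤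
        (1 - ((h % 64 : ℕ) : ℝ) / 64) *
          (8388608000 * Fu (((m : ℝ) - 40) / 40) (((h / 64 : ℕ) : ℝ) / 200)) +
        ((h % 64 : ℕ) : ℝ) / 64 *
          (8388608000 * Fu (((m : ℝ) - 40) / 40) (((h / 64 + 1 : ℕ) : ℝ) / 200)) + kp m := by
      have hp0 : 0 ≤ ((h % 64 : ℕ) : ℝ) / 64 := by positivity
      have hp1 : ((h % 64 : ℕ) : ℝ) / 64 ≤ 1 := by linarith
      have e1 : (h : ℝ) / 64 = ((h / 64 : ℕ) : ℝ) + ((h % 64 : ℕ) : ℝ) / 64 *
          (((h / 64 + 1 : ℕ) : ℝ) - ((h / 64 : ℕ) : ℝ)) := by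
        rw [h64 h]
        rw [Nat.cast_add, Nat.cast_one]
        ring
      rcases eq_or_ne m 80 with h80 | h80
      · subst h80
        have e2 : (((80 : ℕ) : ℝ) - 40) / 40 = 1 := by norm_num
        rw [e2, Fu_one, Fu_one, Fu_one, abs_of_nonneg (by positivity),
          abs_of_nonneg (by positivity), abs_of_nonneg (by positivity), e1]
        push_cast
        linarith
      · have h2 := Fu_vv (m := m) (a := ((h / 64 : ℕ) : ℝ)) (b := ((h / 64 + 1 : ℕ) : ℝ)) hm hp0 hp1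
        rw [← e1] at h2
        have e3 : ((h / 64 + 1 : ℕ) : ℝ) - ((h / 64 : ℕ) : ℝ) = 1 := by push_cast; ring
        have e4 : (li m : ℝ) = 0 := by
          unfold li
          rw [beq_false h80]
          simp
        rw [e3, e4] at h2
        linarith
    have t0 := mul_le_mul_of_nonneg_left v0
      (show 0 ≤ 1 - ((h % 64 : ℕ) : ℝ) / 64 by linarith)
    have t1 := mul_le_mul_of_nonneg_left v1 (show 0 ≤ ((h % 64 : ℕ) : ℝ) / 64 by positivity)
    linarith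

/-- Between two rows, in the concave cells. -/
theorem Fu_rowc {h m : ℕ} {θ : ℝ} (hh : h ≤ 3840) (hm : m < 20 ∨ (40 ≤ m ∧ m < 60))
    (ht0 : 0 ≤ θ) (ht1 : θ ≤ 1) :
    8388608000 * (Fu (((m : ℝ) + θ - 40) / 40) ((h : ℝ) / 64 / 200) + 1) ≤
      (1 - θ) * RlI h m + θ * RlI h (m + 1) := by
  have ht : h % 64 < 64 := Nat.mod_lt _ (by norm_num)
  have ht' : ((h % 64 : ℕ) : ℝ) < 64 := by exact_mod_cast ht
  have hn0 : (0 : ℝ) ≤ ((h % 64 : ℕ) : ℝ) := Nat.cast_nonneg _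
  have hR0 := mul_le_mul_of_nonneg_left (RlI_ge (h := h) (m := m) (by omega))
    (show 0 ≤ 1 - θ by linarith)
  have hR1 := mul_le_mul_of_nonneg_left (RlI_ge (h := h) (m := m + 1) (by omega)) ht0
  have hk0 : 0 ≤ (1 - θ) * (kp m : ℝ) := mul_nonneg (by linarith) (Nat.cast_nonneg _)
  have hk1 : 0 ≤ θ * (kp (m + 1) : ℝ) := mul_nonneg ht0 (Nat.cast_nonneg _)
  have hu : (0 ≤ ((m : ℝ) + θ - 40) / 40 ∧ ((m : ℝ) + θ - 40) / 40 ≤ 1 / 2) ∨
      (-1 ≤ ((m : ℝ) + θ - 40) / 40 ∧ ((m : ℝ) + θ - 40) / 40 ≤ -(1 / 2)) := by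
    rcases hm with h | h
    · right
      have h1 : (m : ℝ) + 1 ≤ 20 := by exact_mod_cast h
      have h2 : (0 : ℝ) ≤ m := Nat.cast_nonneg _
      constructor <;> linarith
    · left
      have h1 : (m : ℝ) + 1 ≤ 60 := by exact_mod_cast h.2
      have h2 : (40 : ℝ) ≤ m := by exact_mod_cast h.1
      constructor <;> linarith
  rcases Nat.eq_zero_or_pos (h % 64) with h0 | h0
  · rw [h64 h, h0]
    rw [h0] at hR0 hR1
    have := Rl_cell (j := h / 64) (by omega) hm ht0 ht1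
    simp only [Nat.cast_zero, zero_div, add_zero, sub_zero, one_mul, zero_mul] at hR0 hR1 ⊢
    linarith
  · have hj : h / 64 + 1 ≤ 60 := by omega
    have v0 := Rl_cell (j := h / 64) (by omega) hm ht0 ht1
    have v1 := Rl_cell (j := h / 64 + 1) hj hm ht0 ht1
    have hp0 : 0 ≤ ((h % 64 : ℕ) : ℝ) / 64 := by positivity
    have hp1 : ((h % 64 : ℕ) : ℝ) / 64 ≤ 1 := by linarith
    have h2 := Fu_vc (a := ((h / 64 : ℕ) : ℝ) / 200) (b := ((h / 64 + 1 : ℕ) : ℝ) / 200) hu hp0 hp1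
    have e1 : ((h / 64 : ℕ) : ℝ) / 200 + ((h % 64 : ℕ) : ℝ) / 64 *
        (((h / 64 + 1 : ℕ) : ℝ) / 200 - ((h / 64 : ℕ) : ℝ) / 200) = (h : ℝ) / 64 / 200 := by
      rw [h64 h, Nat.cast_add, Nat.cast_one]
      ring
    rw [e1] at h2
    have t0 := mul_le_mul_of_nonneg_left v0
      (show 0 ≤ 1 - ((h % 64 : ℕ) : ℝ) / 64 by linarith)
    have t1 := mul_le_mul_of_nonneg_left v1 hp0
    have t2 := mul_le_mul_of_nonneg_left h2 (show (0 : ℝ) ≤ 8388608000 by norm_num)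
    linarith

/-- **The interpolation in a cell, fine heights.** -/
theorem cellI {m : ℕ} {a0 a1 b0 b1 : ℤ} {p q θ M L : ℝ} (hm : m < 80) (hp0 : 0 ≤ p) (hp1 : p ≤ 1)
    (hq0 : 0 ≤ q) (hq1 : q ≤ 1) (ht0 : 0 ≤ θ) (ht1 : θ ≤ 1)
    (hM : (((a1 : ℝ) - a0) / 64) ^ 2 + (((b1 : ℝ) - b0) / 64) ^ 2 ≤ M)
    (hL : |(a1 : ℝ) - a0| / 64 + |(b1 : ℝ) - b0| / 64 ≤ L)
    (h00 : Int.natAbs (a0 + b0) ≤ 3840) (h01 : Int.natAbs (a0 + b1) ≤ 3840)
    (h10 : Int.natAbs (a1 + b0) ≤ 3840) (h11 : Int.natAbs (a1 + b1) ≤ 3840) :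
    8388608000 * (Fu (((m : ℝ) + θ - 40) / 40)
      (((a0 : ℝ) + p * (a1 - a0) + (b0 + q * (b1 - b0))) / 12800) + 1) ≤
    bl4 p q ((1 - θ) * VxI M L a0 b0 m + θ * VxI M L a0 b0 (m + 1))
      ((1 - θ) * VxI M L a0 b1 m + θ * VxI M L a0 b1 (m + 1))
      ((1 - θ) * VxI M L a1 b0 m + θ * VxI M L a1 b0 (m + 1))
      ((1 - θ) * VxI M L a1 b1 m + θ * VxI M L a1 b1 (m + 1)) := by
  have hM0 : 0 ≤ M := le_trans (by positivity) hM
  have hL0 : 0 ≤ L := le_trans (by positivity) hL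
  have hx : ∀ k : ℕ, (0 : ℝ) ≤ kp k * M + li k * L := fun k => by positivity
  have es : ((a0 : ℝ) + p * (a1 - a0) + (b0 + q * (b1 - b0))) / 12800 =
      ((a0 : ℝ) / 64 + p * ((a1 : ℝ) / 64 - (a0 : ℝ) / 64) +
        ((b0 : ℝ) / 64 + q * ((b1 : ℝ) / 64 - (b0 : ℝ) / 64))) / 200 := by ring
  rw [es]
  by_cases hc : (20 ≤ m ∧ m < 40) ∨ (60 ≤ m ∧ m < 80)
  · have hM' : ((a1 : ℝ) / 64 - (a0 : ℝ) / 64) ^ 2 + ((b1 : ℝ) / 64 - (b0 : ℝ) / 64) ^ 2 ≤ M := by
      have e1 : (a1 : ℝ) / 64 - (a0 : ℝ) / 64 = ((a1 : ℝ) - a0) / 64 := by ring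
      have e2 : (b1 : ℝ) / 64 - (b0 : ℝ) / 64 = ((b1 : ℝ) - b0) / 64 := by ring
      rw [e1, e2]
      linarith
    have hL' : |(a1 : ℝ) / 64 - (a0 : ℝ) / 64| + |(b1 : ℝ) / 64 - (b0 : ℝ) / 64| ≤ L := by
      have e1 : (a1 : ℝ) / 64 - (a0 : ℝ) / 64 = ((a1 : ℝ) - a0) / 64 := by ring
      have e2 : (b1 : ℝ) / 64 - (b0 : ℝ) / 64 = ((b1 : ℝ) - b0) / 64 := by ring
      rw [e1, e2, abs_div, abs_div, abs_of_pos (show (0 : ℝ) < 64 by norm_num)]
      exact hL
    have h1 := Fu_cell (m := m) (p := θ)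
      (s := ((a0 : ℝ) / 64 + p * ((a1 : ℝ) / 64 - (a0 : ℝ) / 64) +
        ((b0 : ℝ) / 64 + q * ((b1 : ℝ) / 64 - (b0 : ℝ) / 64))) / 200) hc ht0 ht1
    have h2 := Fu_vv2 (m := m) (a0 := (a0 : ℝ) / 64) (a1 := (a1 : ℝ) / 64) (b0 := (b0 : ℝ) / 64)
      (b1 := (b1 : ℝ) / 64) (by omega) hp0 hp1 hq0 hq1 hM' hL'
    have h3 := Fu_vv2 (m := m + 1) (a0 := (a0 : ℝ) / 64) (a1 := (a1 : ℝ) / 64)
      (b0 := (b0 : ℝ) / 64) (b1 := (b1 : ℝ) / 64) (by omega) hp0 hp1 hq0 hq1 hM' hL'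
    rw [FuI_int, FuI_int, FuI_int, FuI_int] at h2 h3
    have g2 := h2.trans (add_le_add_left (bl4_mono hp0 hp1 hq0 hq1 (Fu_rows h00 (by omega))
      (Fu_rows h01 (by omega)) (Fu_rows h10 (by omega)) (Fu_rows h11 (by omega))) _)
    have g3 := h3.trans (add_le_add_left (bl4_mono hp0 hp1 hq0 hq1 (Fu_rows h00 (by omega))
      (Fu_rows h01 (by omega)) (Fu_rows h10 (by omega)) (Fu_rows h11 (by omega))) _)
    have t2 := mul_le_mul_of_nonneg_left g2 (show 0 ≤ 1 - θ by linarith)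
    have t3 := mul_le_mul_of_nonneg_left g3 ht0
    have e1 : (((m + 1 : ℕ) : ℝ) - 40) / 40 = ((m : ℝ) + 1 - 40) / 40 := by push_cast; ring
    rw [e1] at t3
    unfold bl4 at *
    unfold VxI
    linarith
  · have hc' : m < 20 ∨ (40 ≤ m ∧ m < 60) := by omega
    have hu : (0 ≤ ((m : ℝ) + θ - 40) / 40 ∧ ((m : ℝ) + θ - 40) / 40 ≤ 1 / 2) ∨
        (-1 ≤ ((m : ℝ) + θ - 40) / 40 ∧ ((m : ℝ) + θ - 40) / 40 ≤ -(1 / 2)) := by
      rcases hc' with h | h
      · right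
        have h1 : (m : ℝ) + 1 ≤ 20 := by exact_mod_cast h
        have h2 : (0 : ℝ) ≤ m := Nat.cast_nonneg _
        constructor <;> linarith
      · left
        have h1 : (m : ℝ) + 1 ≤ 60 := by exact_mod_cast h.2
        have h2 : (40 : ℝ) ≤ m := by exact_mod_cast h.1
        constructor <;> linarith
    have h1 := Fu_vc2 (a0 := (a0 : ℝ) / 64) (a1 := (a1 : ℝ) / 64) (b0 := (b0 : ℝ) / 64)
      (b1 := (b1 : ℝ) / 64) hu hp0 hp1 hq0 hq1
    rw [FuI_int, FuI_int, FuI_int, FuI_int] at h1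
    refine h1.trans (bl4_mono hp0 hp1 hq0 hq1 ?_ ?_ ?_ ?_) <;>
    · refine (Fu_rowc (by assumption) hc' ht0 ht1).trans ?_
      unfold VxI
      have a1 := mul_nonneg (show 0 ≤ 1 - θ by linarith) (hx m)
      have a2 := mul_nonneg ht0 (hx (m + 1))
      linarith

/-! ### Defects with weights -/

/-- The chord of `-Rf`, with the weight of the defect. -/
theorem chordw {z0 z1 : ℂ} {K p : ℝ} (h0 : 0 ≤ p) (h1 : p ≤ 1)
    (hd : ∀ τ : ℝ, 0 ≤ τ → τ ≤ 1 → fdom (z0 + τ * (z1 - z0)))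
    (hK : ∀ τ : ℝ, 0 ≤ τ → τ ≤ 1 → ‖ct (z0 + τ * (z1 - z0))‖ ≤ K) :
    -Rf (z0 + p * (z1 - z0)) ≤ (1 - p) * (-Rf z0) + p * (-Rf z1) +
      4 * (p * (1 - p)) * (K / 8 * ((z1.re - z0.re) ^ 2 + (z1.im - z0.im) ^ 2)) := by
  have hK0 : 0 ≤ K := (norm_nonneg _).trans (hK 0 le_rfl zero_le_one)
  set z := z0 + p * (z1 - z0) with hz
  have s0 := taylor (g := 1 - z) (z := 1 - z0) (K := K)
    (by
      intro τ h2 h3
      have h4 := fdom_one_sub (hd ((1 - τ) * p) (mul_nonneg (by linarith) h0)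
        (by nlinarith))
      have e : 1 - (z0 + (((1 - τ) * p : ℝ) : ℂ) * (z1 - z0)) = 1 - z + τ * (1 - z0 - (1 - z)) := by
        rw [hz]
        push_cast
        ring
      rwa [e] at h4)
    (by
      intro τ h2 h3
      have h4 := hK ((1 - τ) * p) (mul_nonneg (by linarith) h0) (by nlinarith)
      have e : 1 - z + τ * (1 - z0 - (1 - z)) = 1 - (z0 + (((1 - τ) * p : ℝ) : ℂ) * (z1 - z0)) := by
        rw [hz]
        push_cast
        ring
      rw [e, ct_one_sub, norm_neg]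
      exact h4)
  have s1 := taylor (g := 1 - z) (z := 1 - z1) (K := K)
    (by
      intro τ h2 h3
      have h4 := fdom_one_sub (hd (p + τ * (1 - p)) (by nlinarith)
        (by nlinarith))
      have e : 1 - (z0 + ((p + τ * (1 - p) : ℝ) : ℂ) * (z1 - z0)) =
          1 - z + τ * (1 - z1 - (1 - z)) := by
        rw [hz]
        push_cast
        ring
      rwa [e] at h4)
    (by
      intro τ h2 h3
      have h4 := hK (p + τ * (1 - p)) (by nlinarith) (by nlinarith)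
      have e : 1 - z + τ * (1 - z1 - (1 - z)) =
          1 - (z0 + ((p + τ * (1 - p) : ℝ) : ℂ) * (z1 - z0)) := by
        rw [hz]
        push_cast
        ring
      rw [e, ct_one_sub, norm_neg]
      exact h4)
  rw [Rf_one_sub, Rf_one_sub] at s0 s1
  simp only [sub_re, sub_im, one_re, one_im] at s0 s1
  have er : z.re = z0.re + p * (z1.re - z0.re) := by
    rw [hz]
    simp
  have ei : z.im = z0.im + p * (z1.im - z0.im) := by
    rw [hz]
    simp
  rw [er, ei] at s0 s1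
  have t0 := mul_le_mul_of_nonneg_left s0 (show 0 ≤ 1 - p by linarith)
  have t1 := mul_le_mul_of_nonneg_left s1 h0
  linarith [t0, t1]

/-- Right half of the strip. -/
theorem Fu_vertw {u a b p K : ℝ} (h0 : 1 / 2 < u) (h1 : u < 1) (hp0 : 0 ≤ p) (hp1 : p ≤ 1)
    (hK : ∀ z : ℂ, z.re = u → ‖ct z‖ ≤ K) :
    Fu u (a + p * (b - a)) ≤ (1 - p) * Fu u a + p * Fu u b +
      4 * (p * (1 - p)) * (K / 8 * (b - a) ^ 2) := by
  have e : ∀ τ : ℝ, (u : ℂ) + a * I + τ * ((u : ℂ) + b * I - ((u : ℂ) + a * I)) =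
      (u : ℂ) + ((a + τ * (b - a) : ℝ) : ℂ) * I := by
    intro τ
    push_cast
    ring
  have h := chordw (z0 := (u : ℂ) + a * I) (z1 := (u : ℂ) + b * I) (K := K) hp0 hp1
    (by
      intro τ h2 h3
      rw [e]
      unfold fdom
      rw [Pool.Agent.S5.line_re]
      right
      constructor <;> linarith)
    (by
      intro τ h2 h3
      rw [e]
      apply hK
      rw [Pool.Agent.S5.line_re])
  rw [e] at h
  simp only [Pool.Agent.S5.line_re, Pool.Agent.S5.line_im, sub_self] at h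
  unfold Fu
  linarith [h]

/-- The line `1`. -/
theorem Fu_vert1w {a b p : ℝ} (hp0 : 0 ≤ p) (hp1 : p ≤ 1) :
    Fu 1 (a + p * (b - a)) ≤ (1 - p) * Fu 1 a + p * Fu 1 b +
      4 * (p * (1 - p)) * (Real.pi / 4 * |b - a|) := by
  rw [Fu_one, Fu_one, Fu_one]
  have hpi := Real.pi_pos
  have h1 : |a| ≤ |a + p * (b - a)| + p * |b - a| := by
    have := abs_sub_abs_le_abs_sub a (a + p * (b - a))
    rw [show a - (a + p * (b - a)) = -(p * (b - a)) by ring, abs_neg, abs_mul,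
      abs_of_nonneg hp0] at this
    linarith
  have h2 : |b| ≤ |a + p * (b - a)| + (1 - p) * |b - a| := by
    have := abs_sub_abs_le_abs_sub b (a + p * (b - a))
    rw [show b - (a + p * (b - a)) = (1 - p) * (b - a) by ring, abs_mul,
      abs_of_nonneg (by linarith : 0 ≤ 1 - p)] at this
    linarith
  have h3 := mul_le_mul_of_nonneg_left h1 (show 0 ≤ 1 - p by linarith)
  have h4 := mul_le_mul_of_nonneg_left h2 hp0
  have h7 : (1 - p) * |a| + p * |b| ≤ |a + p * (b - a)| + 2 * (p * (1 - p)) * |b - a| := by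
    linarith
  have h8 := mul_le_mul_of_nonneg_left h7 (show 0 ≤ Real.pi / 2 by positivity)
  linarith [h8]

/-- Vertical interpolation on the lines of the grid, with the weight of the defect. -/
theorem Fu_vvw {m : ℕ} {a b p : ℝ} (hm : m ≤ 80) (hp0 : 0 ≤ p) (hp1 : p ≤ 1) :
    8388608000 * Fu (((m : ℝ) - 40) / 40) ((a + p * (b - a)) / 200) ≤
      (1 - p) * (8388608000 * Fu (((m : ℝ) - 40) / 40) (a / 200)) +
      p * (8388608000 * Fu (((m : ℝ) - 40) / 40) (b / 200)) +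
      4 * (p * (1 - p)) * ((kp m : ℝ) * (b - a) ^ 2 + (li m : ℝ) * |b - a|) := by
  have e0 : (a + p * (b - a)) / 200 = a / 200 + p * (b / 200 - a / 200) := by ring
  have hm' : (m : ℝ) ≤ 80 := by exact_mod_cast hm
  have hm0 : (0 : ℝ) ≤ m := Nat.cast_nonneg _
  have hw : 0 ≤ 4 * (p * (1 - p)) := by
    have := mul_nonneg hp0 (show 0 ≤ 1 - p by linarith)
    linarith
  have hk0 : 0 ≤ 4 * (p * (1 - p)) * ((kp m : ℝ) * (b - a) ^ 2 + (li m : ℝ) * |b - a|) :=
    mul_nonneg hw (by positivity)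
  rw [e0]
  rcases eq_or_ne m 80 with h80 | h80
  · subst h80
    have e1 : (((80 : ℕ) : ℝ) - 40) / 40 = 1 := by norm_num
    rw [e1] at *
    have h := Fu_vert1w (a := a / 200) (b := b / 200) hp0 hp1
    have e2 : b / 200 - a / 200 = (b - a) / 200 := by ring
    rw [e2, abs_div, abs_of_pos (show (0 : ℝ) < 200 by norm_num)] at h
    have e3 : ((li 80 : ℕ) : ℝ) = 32941990 := by
      change ((32941990 : ℕ) : ℝ) = _
      norm_num
    rw [e3, e2]
    have p1 := pi_lt'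
    have h3 := abs_nonneg (b - a)
    have h4 : 8388608000 * (Real.pi / 4 * (|b - a| / 200)) ≤
        (kp 80 : ℝ) * (b - a) ^ 2 + 32941990 * |b - a| := by
      have : 0 ≤ (kp 80 : ℝ) * (b - a) ^ 2 := by positivity
      nlinarith
    have h5 := mul_le_mul_of_nonneg_left h4 hw
    linarith
  rcases le_or_gt m 20 with h20 | h20
  · have h2 : (m : ℝ) ≤ 20 := by exact_mod_cast h20
    have h := Fu_vc (u := ((m : ℝ) - 40) / 40) (a := a / 200) (b := b / 200) (Or.inr ⟨by linarith, by linarith⟩) hp0 hp1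
    linarith
  rcases lt_or_ge m 40 with h40 | h40
  · have h2 : (21 : ℝ) ≤ m := by exact_mod_cast h20
    have h3 : (m : ℝ) + 1 ≤ 40 := by exact_mod_cast h40
    set i := 40 - m with hi
    have him : (i : ℝ) = 40 - m := by
      rw [hi, Nat.cast_sub (by omega)]
      norm_num
    have hE := tab_ok (5 * i) 0 (by omega) (by omega) (by omega)
    have h := Fu_vertw (u := ((m : ℝ) - 40) / 40 + 1) (a := a / 200) (b := b / 200) (p := p)
      (K := (kE (ent (5 * i) 0) : ℝ) / 16) (by linarith) (by linarith) hp0 hp1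
      (by
        intro z hz
        apply ct_le (by omega) (by omega) hE
        · rw [hz, abs_of_nonneg (by linarith)]
          push_cast
          rw [him]
          linarith
        · rw [hz, abs_of_nonneg (by linarith)]
          push_cast
          rw [him]
          linarith
        · simp)
    have h4 := abs_vert (a / 200) (b / 200) hp0 hp1
    rw [Fu_add_one (((m : ℝ) - 40) / 40), Fu_add_one (((m : ℝ) - 40) / 40) (a / 200),
      Fu_add_one (((m : ℝ) - 40) / 40) (b / 200)]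
    have h5 := mul_le_mul_of_nonneg_left h4 Real.pi_pos.le
    have h6 := div5 (kE (ent (5 * i) 0))
    rw [kp_left h20 h40, show Nat.mul 5 (Nat.sub 40 m) = 5 * i from rfl]
    have h7 := mul_le_mul_of_nonneg_left (mul_le_mul_of_nonneg_right h6 (sq_nonneg (b - a))) hw
    have h8 : 0 ≤ 4 * (p * (1 - p)) * ((li m : ℝ) * |b - a|) := mul_nonneg hw (by positivity)
    have e4 : 4 * (p * (1 - p)) * ((kE (ent (5 * i) 0) : ℝ) / 16 / 8 * (b / 200 - a / 200) ^ 2) *
      8388608000 = 4 * (p * (1 - p)) *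
        ((8192 : ℝ) * (kE (ent (5 * i) 0) : ℝ) / 5 * (b - a) ^ 2) := by ring
    linarith
  rcases le_or_gt m 60 with h60 | h60
  · have h2 : (m : ℝ) ≤ 60 := by exact_mod_cast h60
    have h3 : (40 : ℝ) ≤ m := by exact_mod_cast h40
    have h := Fu_vc (u := ((m : ℝ) - 40) / 40) (a := a / 200) (b := b / 200) (Or.inl ⟨by linarith, by linarith⟩) hp0 hp1
    linarith
  · have h2 : (61 : ℝ) ≤ m := by exact_mod_cast h60
    have h3 : (m : ℝ) + 1 ≤ 80 := by exact_mod_cast (by omega : m + 1 ≤ 80)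
    set i := 80 - m with hi
    have him : (i : ℝ) = 80 - m := by
      rw [hi, Nat.cast_sub (by omega)]
      norm_num
    have hE := tab_ok (5 * i) 0 (by omega) (by omega) (by omega)
    have h := Fu_vertw (u := ((m : ℝ) - 40) / 40) (a := a / 200) (b := b / 200) (p := p)
      (K := (kE (ent (5 * i) 0) : ℝ) / 16) (by linarith) (by linarith) hp0 hp1
      (by
        intro z hz
        apply ct_le (by omega) (by omega) hE
        · rw [hz, abs_of_nonneg (by linarith)]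
          push_cast
          rw [him]
          linarith
        · rw [hz, abs_of_nonneg (by linarith)]
          push_cast
          rw [him]
          linarith
        · simp)
    have h6 := div5 (kE (ent (5 * i) 0))
    rw [kp_right h60 (by omega), show Nat.mul 5 (Nat.sub 80 m) = 5 * i from rfl]
    have h7 := mul_le_mul_of_nonneg_left (mul_le_mul_of_nonneg_right h6 (sq_nonneg (b - a))) hw
    have h8 : 0 ≤ 4 * (p * (1 - p)) * ((li m : ℝ) * |b - a|) := mul_nonneg hw (by positivity)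
    have e4 : 4 * (p * (1 - p)) * ((kE (ent (5 * i) 0) : ℝ) / 16 / 8 * (b / 200 - a / 200) ^ 2) *
      8388608000 = 4 * (p * (1 - p)) *
        ((8192 : ℝ) * (kE (ent (5 * i) 0) : ℝ) / 5 * (b - a) ^ 2) := by ring
    linarith

/-- The two variables of the height, on a line of the grid, with the weights of the defects. -/
theorem Fu_vv2w {m : ℕ} {a0 a1 b0 b1 p q : ℝ} (hm : m ≤ 80) (hp0 : 0 ≤ p) (hp1 : p ≤ 1)
    (hq0 : 0 ≤ q) (hq1 : q ≤ 1) :
    8388608000 * (Fu (((m : ℝ) - 40) / 40)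
      ((a0 + p * (a1 - a0) + (b0 + q * (b1 - b0))) / 200) + 1) ≤
    bl4 p q (8388608000 * (Fu (((m : ℝ) - 40) / 40) ((a0 + b0) / 200) + 1))
      (8388608000 * (Fu (((m : ℝ) - 40) / 40) ((a0 + b1) / 200) + 1))
      (8388608000 * (Fu (((m : ℝ) - 40) / 40) ((a1 + b0) / 200) + 1))
      (8388608000 * (Fu (((m : ℝ) - 40) / 40) ((a1 + b1) / 200) + 1)) +
    (4 * (p * (1 - p)) * ((kp m : ℝ) * (a1 - a0) ^ 2 + (li m : ℝ) * |a1 - a0|) +
      4 * (q * (1 - q)) * ((kp m : ℝ) * (b1 - b0) ^ 2 + (li m : ℝ) * |b1 - b0|)) := by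
  set g := b0 + q * (b1 - b0) with hg
  have h1 := Fu_vvw (m := m) (a := a0 + g) (b := a1 + g) (p := p) hm hp0 hp1
  have h2 := Fu_vvw (m := m) (a := a0 + b0) (b := a0 + b1) (p := q) hm hq0 hq1
  have h3 := Fu_vvw (m := m) (a := a1 + b0) (b := a1 + b1) (p := q) hm hq0 hq1
  have e1 : a0 + g + p * (a1 + g - (a0 + g)) = a0 + p * (a1 - a0) + g := by ring
  have e2 : a0 + b0 + q * (a0 + b1 - (a0 + b0)) = a0 + g := by rw [hg]; ring
  have e3 : a1 + b0 + q * (a1 + b1 - (a1 + b0)) = a1 + g := by rw [hg]; ring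
  have e4 : a1 + g - (a0 + g) = a1 - a0 := by ring
  have e5 : a0 + b1 - (a0 + b0) = b1 - b0 := by ring
  have e6 : a1 + b1 - (a1 + b0) = b1 - b0 := by ring
  rw [e1, e4] at h1
  rw [e2, e5] at h2
  rw [e3, e6] at h3
  have t2 := mul_le_mul_of_nonneg_left h2 (show 0 ≤ 1 - p by linarith)
  have t3 := mul_le_mul_of_nonneg_left h3 hp0
  unfold bl4
  linarith

/-- **The interpolation in a cell, fine heights, defects with weights.** -/
theorem cellG {m : ℕ} {a0 a1 b0 b1 : ℤ} {p q θ Ma Mb La Lb : ℝ}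
    {M00 M01 M10 M11 L00 L01 L10 L11 : ℝ} (hm : m < 80) (hp0 : 0 ≤ p) (hp1 : p ≤ 1)
    (hq0 : 0 ≤ q) (hq1 : q ≤ 1) (ht0 : 0 ≤ θ) (ht1 : θ ≤ 1)
    (hMa : (((a1 : ℝ) - a0) / 64) ^ 2 ≤ Ma) (hMb : (((b1 : ℝ) - b0) / 64) ^ 2 ≤ Mb)
    (hLa : |(a1 : ℝ) - a0| / 64 ≤ La) (hLb : |(b1 : ℝ) - b0| / 64 ≤ Lb)
    (hM : 4 * (p * (1 - p)) * Ma + 4 * (q * (1 - q)) * Mb ≤ bl4 p q M00 M01 M10 M11)
    (hL : 4 * (p * (1 - p)) * La + 4 * (q * (1 - q)) * Lb ≤ bl4 p q L00 L01 L10 L11)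
    (h00 : Int.natAbs (a0 + b0) ≤ 3840) (h01 : Int.natAbs (a0 + b1) ≤ 3840)
    (h10 : Int.natAbs (a1 + b0) ≤ 3840) (h11 : Int.natAbs (a1 + b1) ≤ 3840) :
    8388608000 * (Fu (((m : ℝ) + θ - 40) / 40)
      (((a0 : ℝ) + p * (a1 - a0) + (b0 + q * (b1 - b0))) / 12800) + 1) ≤
    bl4 p q ((1 - θ) * VxI M00 L00 a0 b0 m + θ * VxI M00 L00 a0 b0 (m + 1))
      ((1 - θ) * VxI M01 L01 a0 b1 m + θ * VxI M01 L01 a0 b1 (m + 1))
      ((1 - θ) * VxI M10 L10 a1 b0 m + θ * VxI M10 L10 a1 b0 (m + 1))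
      ((1 - θ) * VxI M11 L11 a1 b1 m + θ * VxI M11 L11 a1 b1 (m + 1)) := by
  have hwp : 0 ≤ 4 * (p * (1 - p)) := by
    have := mul_nonneg hp0 (show 0 ≤ 1 - p by linarith)
    linarith
  have hwq : 0 ≤ 4 * (q * (1 - q)) := by
    have := mul_nonneg hq0 (show 0 ≤ 1 - q by linarith)
    linarith
  have hMa0 : 0 ≤ Ma := le_trans (by positivity) hMa
  have hMb0 : 0 ≤ Mb := le_trans (by positivity) hMb
  have hLa0 : 0 ≤ La := le_trans (by positivity) hLa
  have hLb0 : 0 ≤ Lb := le_trans (by positivity) hLb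
  -- the sum of the defects of a line
  have hS : ∀ k : ℕ, 4 * (p * (1 - p)) * ((kp k : ℝ) * Ma + (li k : ℝ) * La) +
      4 * (q * (1 - q)) * ((kp k : ℝ) * Mb + (li k : ℝ) * Lb) ≤
      bl4 p q (kp k * M00 + li k * L00) (kp k * M01 + li k * L01) (kp k * M10 + li k * L10)
        (kp k * M11 + li k * L11) := by
    intro k
    have a1 := mul_le_mul_of_nonneg_left hM (Nat.cast_nonneg (α := ℝ) (kp k))
    have a2 := mul_le_mul_of_nonneg_left hL (Nat.cast_nonneg (α := ℝ) (li k))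
    unfold bl4 at *
    linarith
  have hS0 : ∀ k : ℕ, 0 ≤ bl4 p q (kp k * M00 + li k * L00) (kp k * M01 + li k * L01)
      (kp k * M10 + li k * L10) (kp k * M11 + li k * L11) := fun k => by
    refine le_trans ?_ (hS k)
    have a1 := mul_nonneg hwp (show 0 ≤ (kp k : ℝ) * Ma + (li k : ℝ) * La by positivity)
    have a2 := mul_nonneg hwq (show 0 ≤ (kp k : ℝ) * Mb + (li k : ℝ) * Lb by positivity)
    linarith
  have es : ((a0 : ℝ) + p * (a1 - a0) + (b0 + q * (b1 - b0))) / 12800 =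
      ((a0 : ℝ) / 64 + p * ((a1 : ℝ) / 64 - (a0 : ℝ) / 64) +
        ((b0 : ℝ) / 64 + q * ((b1 : ℝ) / 64 - (b0 : ℝ) / 64))) / 200 := by ring
  rw [es]
  by_cases hc : (20 ≤ m ∧ m < 40) ∨ (60 ≤ m ∧ m < 80)
  · have ea : (a1 : ℝ) / 64 - (a0 : ℝ) / 64 = ((a1 : ℝ) - a0) / 64 := by ring
    have eb : (b1 : ℝ) / 64 - (b0 : ℝ) / 64 = ((b1 : ℝ) - b0) / 64 := by ring
    have hMa' : ((a1 : ℝ) / 64 - (a0 : ℝ) / 64) ^ 2 ≤ Ma := by rw [ea]; exact hMa
    have hMb' : ((b1 : ℝ) / 64 - (b0 : ℝ) / 64) ^ 2 ≤ Mb := by rw [eb]; exact hMb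
    have hLa' : |(a1 : ℝ) / 64 - (a0 : ℝ) / 64| ≤ La := by
      rw [ea, abs_div, abs_of_pos (show (0 : ℝ) < 64 by norm_num)]
      exact hLa
    have hLb' : |(b1 : ℝ) / 64 - (b0 : ℝ) / 64| ≤ Lb := by
      rw [eb, abs_div, abs_of_pos (show (0 : ℝ) < 64 by norm_num)]
      exact hLb
    have hD : ∀ k : ℕ, 4 * (p * (1 - p)) * ((kp k : ℝ) * ((a1 : ℝ) / 64 - (a0 : ℝ) / 64) ^ 2 +
        (li k : ℝ) * |(a1 : ℝ) / 64 - (a0 : ℝ) / 64|) +
        4 * (q * (1 - q)) * ((kp k : ℝ) * ((b1 : ℝ) / 64 - (b0 : ℝ) / 64) ^ 2 +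
        (li k : ℝ) * |(b1 : ℝ) / 64 - (b0 : ℝ) / 64|) ≤
        bl4 p q (kp k * M00 + li k * L00) (kp k * M01 + li k * L01) (kp k * M10 + li k * L10)
        (kp k * M11 + li k * L11) := by
      intro k
      refine le_trans (add_le_add (mul_le_mul_of_nonneg_left (add_le_add
        (mul_le_mul_of_nonneg_left hMa' (Nat.cast_nonneg _))
        (mul_le_mul_of_nonneg_left hLa' (Nat.cast_nonneg _))) hwp)
        (mul_le_mul_of_nonneg_left (add_le_add
        (mul_le_mul_of_nonneg_left hMb' (Nat.cast_nonneg _))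
        (mul_le_mul_of_nonneg_left hLb' (Nat.cast_nonneg _))) hwq)) (hS k)
    have h1 := Fu_cell (m := m) (p := θ)
      (s := ((a0 : ℝ) / 64 + p * ((a1 : ℝ) / 64 - (a0 : ℝ) / 64) +
        ((b0 : ℝ) / 64 + q * ((b1 : ℝ) / 64 - (b0 : ℝ) / 64))) / 200) hc ht0 ht1
    have h2 := Fu_vv2w (m := m) (a0 := (a0 : ℝ) / 64) (a1 := (a1 : ℝ) / 64) (b0 := (b0 : ℝ) / 64)
      (b1 := (b1 : ℝ) / 64) (by omega) hp0 hp1 hq0 hq1
    have h3 := Fu_vv2w (m := m + 1) (a0 := (a0 : ℝ) / 64) (a1 := (a1 : ℝ) / 64)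
      (b0 := (b0 : ℝ) / 64) (b1 := (b1 : ℝ) / 64) (by omega) hp0 hp1 hq0 hq1
    rw [FuI_int, FuI_int, FuI_int, FuI_int] at h2 h3
    have g2 := h2.trans (add_le_add (bl4_mono hp0 hp1 hq0 hq1 (Fu_rows h00 (by omega))
      (Fu_rows h01 (by omega)) (Fu_rows h10 (by omega)) (Fu_rows h11 (by omega))) (hD m))
    have g3 := h3.trans (add_le_add (bl4_mono hp0 hp1 hq0 hq1 (Fu_rows h00 (by omega))
      (Fu_rows h01 (by omega)) (Fu_rows h10 (by omega)) (Fu_rows h11 (by omega))) (hD (m + 1)))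
    have t2 := mul_le_mul_of_nonneg_left g2 (show 0 ≤ 1 - θ by linarith)
    have t3 := mul_le_mul_of_nonneg_left g3 ht0
    have e1 : (((m + 1 : ℕ) : ℝ) - 40) / 40 = ((m : ℝ) + 1 - 40) / 40 := by push_cast; ring
    rw [e1] at t3
    clear hS hS0 hD g2 g3 h2 h3
    unfold bl4 at *
    unfold VxI
    linarith
  · have hc' : m < 20 ∨ (40 ≤ m ∧ m < 60) := by omega
    have hu : (0 ≤ ((m : ℝ) + θ - 40) / 40 ∧ ((m : ℝ) + θ - 40) / 40 ≤ 1 / 2) ∨
        (-1 ≤ ((m : ℝ) + θ - 40) / 40 ∧ ((m : ℝ) + θ - 40) / 40 ≤ -(1 / 2)) := by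
      rcases hc' with h | h
      · right
        have h1 : (m : ℝ) + 1 ≤ 20 := by exact_mod_cast h
        have h2 : (0 : ℝ) ≤ m := Nat.cast_nonneg _
        constructor <;> linarith
      · left
        have h1 : (m : ℝ) + 1 ≤ 60 := by exact_mod_cast h.2
        have h2 : (40 : ℝ) ≤ m := by exact_mod_cast h.1
        constructor <;> linarith
    have h1 := Fu_vc2 (a0 := (a0 : ℝ) / 64) (a1 := (a1 : ℝ) / 64) (b0 := (b0 : ℝ) / 64)
      (b1 := (b1 : ℝ) / 64) hu hp0 hp1 hq0 hq1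
    rw [FuI_int, FuI_int, FuI_int, FuI_int] at h1
    have h2 := h1.trans (bl4_mono hp0 hp1 hq0 hq1 (Fu_rowc h00 hc' ht0 ht1)
      (Fu_rowc h01 hc' ht0 ht1) (Fu_rowc h10 hc' ht0 ht1) (Fu_rowc h11 hc' ht0 ht1))
    have t2 := mul_nonneg (show 0 ≤ 1 - θ by linarith) (hS0 m)
    have t3 := mul_nonneg ht0 (hS0 (m + 1))
    clear hS hS0 h1
    unfold bl4 at *
    unfold VxI
    linarith

end Pool.Agent.S5.G3
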