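import Pool.Agent.S5.K3.G4F
import Pool.Agent.S5.K3.Out

/-!
# The rows of a node with three half twists: the program

Heights are integers in units `1 / 12800` with the offset `1920`, real parts of the edge variables are
`(i - 10) / 40`, real parts of the variable of the node `(J - 20) / 40` (with the other sign for the slot of the
Bailey step, `ty = true`). Values have the unit `1 / 8388608000`.
-/

set_option autoImplicit false

namespace Pool.Agent.S5.G3

open Pool.Agent.S5.Tb Pool.Agent.S5.K3

/-- The lanes `l`. -/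
def RMP : Nat := 0x500000000004f0000000004e0000000004d0000000004c0000000004b0000000004a000000000490000000004800000000047000000000460000000004500000000044000000000430000000004200000000041000000000400000000003f0000000003e0000000003d0000000003c0000000003b0000000003a000000000390000000003800000000037000000000360000000003500000000034000000000330000000003200000000031000000000300000000002f0000000002e0000000002d0000000002c0000000002b0000000002a000000000290000000002800000000027000000000260000000002500000000024000000000230000000002200000000021000000000200000000001f0000000001e0000000001d0000000001c0000000001b0000000001a000000000190000000001800000000017000000000160000000001500000000014000000000130000000001200000000011000000000100000000000f0000000000e0000000000d0000000000c0000000000b0000000000a00000000009000000000080000000000700000000006000000000050000000000400000000003000000000020000000000100000000000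

/-- The lanes `40 - l`. -/
def RN : Nat := 0x100000000002000000000030000000000400000000005000000000060000000000700000000008000000000090000000000a0000000000b0000000000c0000000000d0000000000e0000000000f000000000100000000001100000000012000000000130000000001400000000015000000000160000000001700000000018000000000190000000001a0000000001b0000000001c0000000001d0000000001e0000000001f000000000200000000002100000000022000000000230000000002400000000025000000000260000000002700000000028

/-- The quadratic loss of a gap. -/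
def gM (d : Nat) : Nat := Nat.div (Nat.add (Nat.mul d d) 4095) 4096

/-- The linear loss of a gap. -/
def gL (d : Nat) : Nat := Nat.div (Nat.add d 63) 64

/-- The absolute value of the sum of two heights. -/
def ab (a b : Nat) : Nat := Nat.add (Nat.sub (Nat.add a b) 3840) (Nat.sub 3840 (Nat.add a b))

/-- Slope in the lanes. -/
def sg (ty : Bool) (a b : Nat) : Nat := cond ty (Nat.sub (Nat.add 7680 a) b) (Nat.sub 9600 b)

/-- Slope of the second part. -/
def ro (ty : Bool) (a b : Nat) : Nat :=
  cond ty (Nat.sub (Nat.add 7680 (Nat.mul 2 a)) (Nat.mul 2 b)) (Nat.sub (Nat.add 7680 a) b)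

/-- Constant of the second part. -/
def ka (ty : Bool) (a b : Nat) : Nat :=
  cond ty (Nat.mul 100 (Nat.sub (Nat.add 3840 b) a))
    (Nat.mul 40 (Nat.sub (Nat.add 3840 (Nat.mul 2 b)) a))

/-- The row for the heights `a`, `b`. -/
def Wv (ty : Bool) (a b M L : Nat) : Nat :=
  Nat.add (Nat.add (rwI (ab a b)) (Nat.mul M KAP))
    (Nat.add (Nat.mul L LIN) (Nat.mul (Nat.mul 51472 (sg ty a b)) RMP))

/-- The second part. -/
def SLv (ty : Bool) (a b : Nat) : Nat :=
  Nat.add (Nat.mul (Nat.mul 51472 (ro ty a b)) RN) (Nat.mul (Nat.mul 51472 (ka ty a b)) ON)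

/-- The maximum over the positions `i0, i0 + 1, ...`. -/
def gv (ty : Bool) (l : List Nat) (i0 a b M L : Nat) : Nat :=
  Nat.add (lpv l (Nat.shiftRight (Wv ty a b M L) (Nat.mul 44 (Nat.add i0 10)))) (SLv ty a b)

/-- One position. -/
def gs (ty : Bool) (c i a b M L : Nat) : Nat :=
  Nat.add (Nat.add (Nat.mul c ON)
    (Nat.shiftRight (Wv ty a b M L) (Nat.mul 44 (Nat.add i 10)))) (SLv ty a b)

/-- The data of a slot: share, base point, slopes, `Im D`, `Im D - Im hh`, `-Rf` at the base point,
`hh (1/2 - y*)`, heights of the flat. -/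
structure SD where
  ty : Bool
  cu : Nat
  bt : Nat
  be : Nat
  lr0 : Nat
  lr1 : Nat
  li0 : Nat
  li1 : Nat
  d0 : Nat
  d1 : Nat
  m0 : Nat
  m1 : Nat
  f0 : Nat
  hr0 : Nat
  hr1 : Nat
  hi0 : Nat
  hi1 : Nat
  e0 : Nat
  e1 : Nat

/-- The potentials of a slot (`100` times minus the potential, plus `100`); `dF`, `dH`: the share is
smaller on `F`, on `H`, `G`, `L`, `U`, `u`, `P`, `p`; `re`, `rz` far, `rz` own. -/
structure Py where
  dF : Bool
  dH : Bool
  F : Nat
  H : Nat
  G : Nat
  L : Nat
  R : Nat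
  T : Nat
  t : Nat
  U : Nat
  u : Nat
  P : Nat
  p : Nat
  Q : Nat
  q : Nat
  reB : Bool
  re : Nat
  rzB : Bool
  rz : Nat
  rzi : Nat
  ow : Nat

/-- `lambda (p - n)`, plus. -/
def mpp (hi p n : Nat) : Nat := Nat.add (Nat.mul hi (Nat.sub p n)) (Nat.mul 67108864 (Nat.sub n p))

/-- `lambda (p - n)`, minus. -/
def mpn (lo p n : Nat) : Nat := Nat.add (Nat.mul 67108864 (Nat.sub p n)) (Nat.mul lo (Nat.sub n p))

/-- `-Rf (1/2 - y)`. -/
def pv (a i M : Nat) : Nat :=
  Nat.add (lane (rwI (ab a 1920)) (Nat.sub 70 i)) (Nat.mul M (lane KAP (Nat.sub 70 i)))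

/-- The part of the value which does not depend on the variable of the node. -/
def cs (s : SD) (dl : Bool) (pay : Nat) (bx : Bool) (i a e hat M : Nat) : Nat :=
  Nat.sub
    (Nat.add (Nat.add 137438953472 (Nat.mul 83886080 pay))
      (Nat.add (Nat.mul 40 (mpp s.lr1 (Nat.add s.bt 50) (Nat.mul 5 i)))
        (cond dl
          (Nat.add
            (Nat.add (Nat.mul 40 (mpp s.hr1 (Nat.mul 5 i) (Nat.add s.bt 50)))
              (Nat.div (Nat.add (Nat.mul 5 (Nat.add (mpp s.li1 hat e)
                (Nat.add (mpp s.m1 e s.be) (mpp s.hi1 e a)))) 7) 8))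
            (Nat.add s.f0 (Nat.mul (Nat.sub s.cu 1) (pv a i M))))
          (Nat.add
            (Nat.div (Nat.add (Nat.mul 5 (Nat.add (mpp s.li1 hat e) (mpp s.d1 e s.be))) 7) 8)
            (Nat.mul s.cu (pv a i M))))))
    (Nat.add (Nat.add (Nat.mul 395304960 i) (cond bx (Nat.mul 2058874 (ab a 1920)) 0))
      (Nat.add (Nat.mul 40 (mpn s.lr0 (Nat.add s.bt 50) (Nat.mul 5 i)))
        (cond dl
          (Nat.add (Nat.mul 40 (mpn s.hr0 (Nat.mul 5 i) (Nat.add s.bt 50)))
            (Nat.div (Nat.mul 5 (Nat.add (mpn s.li0 hat e)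
              (Nat.add (mpn s.m0 e s.be) (mpn s.hi0 e a)))) 8))
          (Nat.div (Nat.mul 5 (Nat.add (mpn s.li0 hat e) (mpn s.d0 e s.be))) 8))))

/-- Both ends of the interval of heights of the flat. -/
def bx2 (s : SD) (dl : Bool) (pay : Nat) (bx : Bool) (i a hat M : Nat) : Nat :=
  mx (cs s dl pay bx i a s.e0 hat M) (cs s dl pay bx i a s.e1 hat M)

/-- The list of the values `f i0, f (i0 + 1), ...`. -/
def mkl (f : Nat → Nat) (n : Nat) : Nat → List Nat :=
  Nat.rec (motive := fun _ => Nat → List Nat) (fun _ => [])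
    (fun _ ih i => f i :: ih (Nat.succ i)) n

/-- The flat. -/
def fc (s : SD) (py : Py) (M e i : Nat) : Nat :=
  cond (Nat.ble i 9) (cs s py.dH py.G false i e e e M)
    (cond (Nat.beq i 10) (mx (cs s py.dH py.G false i e e e M) (cs s py.dH py.H false i e e e M))
      (cond (Nat.ble i 15) (cs s py.dH py.H false i e e e M)
        (cond (Nat.beq i 16)
          (mx (cs s py.dH py.H false i e e e M) (cs s py.dF py.F false i e e e M))
          (cs s py.dF py.F false i e e e M))))

/-- Top and bottom. -/
def tc (s : SD) (py : Py) (a : Nat) (sm op : Bool) (i : Nat) : Nat :=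
  mx
    (cond (Nat.ble 10 i) (mx (cond sm (bx2 s false py.T true i a 1920 0) 0)
      (cond op (bx2 s false py.t true i a 1920 0) 0)) 0)
    (cond (Nat.ble i 10) (mx (cond sm (bx2 s py.dH py.U true i a 1920 0) 0)
      (cond op (bx2 s py.dH py.u true i a 1920 0) 0)) 0)

/-- Left side. -/
def vl (s : SD) (py : Py) (a : Nat) (sm op : Bool) (G : Nat) : Nat :=
  mx (cond sm (bx2 s py.dH py.P true 0 a 1920 G) 0) (cond op (bx2 s py.dH py.p true 0 a 1920 G) 0)

/-- Right side. -/
def vr (s : SD) (py : Py) (a : Nat) (sm op : Bool) (G : Nat) : Nat :=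
  mx (cond sm (bx2 s false py.Q true 30 a 1920 G) 0) (cond op (bx2 s false py.q true 30 a 1920 G) 0)

/-- The levels of a leg (besides `1920`) for heights between `e0` and `e1`. -/
def lv1 (e0 e1 : Nat) : Nat :=
  cond (Nat.ble 1920 e0) (Nat.div (Nat.add e1 1921) 2)
    (cond (Nat.ble e1 1920) (Nat.div (Nat.add e0 1920) 2) e0)

/-- The last level of a leg. -/
def lv2 (e0 e1 : Nat) : Nat := cond (Nat.ble 1920 e0) e1 (cond (Nat.ble e1 1920) e0 e1)

/-- The largest gap of the levels `1920`, `lv1`, `lv2`. -/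
def gpl (e0 e1 : Nat) : Nat :=
  cond (Nat.ble 1920 e0) (Nat.sub (lv1 e0 e1) 1920)
    (cond (Nat.ble e1 1920) (Nat.sub 1920 (lv1 e0 e1)) (mx (Nat.sub 1920 e0) (Nat.sub e1 1920)))

/-- Left leg. -/
def ll (s : SD) (py : Py) (a G : Nat) : Nat := bx2 s py.dH py.L false 0 a a G

/-- Right leg. -/
def lr (s : SD) (py : Py) (a G : Nat) : Nat := bx2 s false py.R false 30 a a G

/-- The flat piece. -/
def aF (s : SD) (py : Py) (b M L : Nat) : Nat :=
  vm
    (gv s.ty (mkl (fc s py (gM (Nat.sub s.e1 s.e0)) s.e0) 31 0) 0 s.e0 b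
      (Nat.add M (gM (Nat.sub s.e1 s.e0))) (Nat.add L (gL (Nat.sub s.e1 s.e0))))
    (gv s.ty (mkl (fc s py (gM (Nat.sub s.e1 s.e0)) s.e1) 31 0) 0 s.e1 b
      (Nat.add M (gM (Nat.sub s.e1 s.e0))) (Nat.add L (gL (Nat.sub s.e1 s.e0))))

/-- Two positions of a vertical line, with the gap loss `G`, `H`. -/
def v2 (s : SD) (c0 c1 a b M L G H : Nat) : Nat :=
  vm (gs s.ty c0 0 a b (Nat.add M G) (Nat.add L H))
    (gs s.ty c1 30 a b (Nat.add M G) (Nat.add L H))

/-- Both sides of the rectangles at the height `a`. -/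
def vs (s : SD) (py : Py) (sm op : Bool) (a b M L G H : Nat) : Nat :=
  v2 s (vl s py a sm op G) (vr s py a sm op G) a b M L G H

/-- Both legs at the height `a`. -/
def lg (s : SD) (py : Py) (a b M L G H : Nat) : Nat :=
  v2 s (ll s py a G) (lr s py a G) a b M L G H

/-- Sides and legs at the real line. -/
def v0 (s : SD) (py : Py) (b M L G H : Nat) : Nat :=
  v2 s (mx (vl s py 1920 true true G) (ll s py 1920 G))
    (mx (vr s py 1920 true true G) (lr s py 1920 G)) 1920 b M L G H

/-- The vertical pieces; `G`, `H` are the losses of the legs. -/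
def aV (s : SD) (py : Py) (b M L G H : Nat) : Nat :=
  vm
    (vm
      (vm (vs s py (Nat.ble s.e0 1920) (Nat.ble 1920 s.e1) 0 b M L 225 15)
        (vs s py (Nat.ble s.e0 1920) (Nat.ble 1920 s.e1) 960 b M L 900 60))
      (vm (vs s py (Nat.ble 1920 s.e1) (Nat.ble s.e0 1920) 2880 b M L 900 60)
        (vs s py (Nat.ble 1920 s.e1) (Nat.ble s.e0 1920) 3840 b M L 225 15)))
    (vm (v0 s py b M L G H)
      (vm (lg s py (lv1 s.e0 s.e1) b M L G H) (lg s py (lv2 s.e0 s.e1) b M L G H)))

/-- Top and bottom of the rectangles. -/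
def aT (s : SD) (py : Py) (b M L : Nat) : Nat :=
  vm
    (gv s.ty (mkl (tc s py 3840 (Nat.ble 1920 s.e1) (Nat.ble s.e0 1920)) 31 0) 0 3840 b M L)
    (gv s.ty (mkl (tc s py 0 (Nat.ble s.e0 1920) (Nat.ble 1920 s.e1)) 31 0) 0 0 b M L)

/-- The pieces on the real axis. -/
def aX (s : SD) (py : Py) (b M L : Nat) : Nat :=
  vm
    (cond py.reB
      (gv s.ty (mkl (fun i => bx2 s false py.re false i 1920 1920 0) 11 20) 20 1920 b M L) 0)
    (cond py.rzB
      (gv s.ty (mkl (fun i => bx2 s false py.rz false i 1920 1920 0) (Nat.sub 31 py.rzi) py.rzi)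
        py.rzi 1920 b M L) 0)

/-- The other free pieces. -/
def aN (s : SD) (py : Py) (b M L : Nat) : Nat :=
  vm (vm (aT s py b M L) (aV s py b M L (gM (gpl s.e0 s.e1)) (gL (gpl s.e0 s.e1))))
    (aX s py b M L)

/-- The edge is forced by the variable of the node. -/
def aO (s : SD) (py : Py) (J1 b M L : Nat) : Nat :=
  gv s.ty (mkl (fun i => bx2 s false py.ow false i 1920 1920 0) (Nat.succ J1) (Nat.sub 30 J1))
    (Nat.sub 30 J1) 1920 b M L

/-- All values of a list are small. -/
def small (l : List Nat) : Bool :=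
  List.rec (motive := fun _ => Bool) true
    (fun c _ ih => cond (Nat.ble c 1099511627775) ih false) l

/-- The bounds of the values at the sides of the rectangles. -/
def sv (s : SD) (py : Py) (sm op : Bool) (a G : Nat) : Bool :=
  cond (Nat.ble (vl s py a sm op G) 1099511627775) (Nat.ble (vr s py a sm op G) 1099511627775)
    false

/-- The bounds of the values at the legs. -/
def sl (s : SD) (py : Py) (a G : Nat) : Bool :=
  cond (Nat.ble (ll s py a G) 1099511627775) (Nat.ble (lr s py a G) 1099511627775) false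

/-- The bounds for the values of a slot. -/
def okS (s : SD) (py : Py) (J1 : Nat) : Bool :=
  cond (small (mkl (fc s py (gM (Nat.sub s.e1 s.e0)) s.e0) 31 0))
  (cond (small (mkl (fc s py (gM (Nat.sub s.e1 s.e0)) s.e1) 31 0))
  (cond (small (mkl (tc s py 3840 (Nat.ble 1920 s.e1) (Nat.ble s.e0 1920)) 31 0))
  (cond (small (mkl (tc s py 0 (Nat.ble s.e0 1920) (Nat.ble 1920 s.e1)) 31 0))
  (cond (small (mkl (fun i => bx2 s false py.re false i 1920 1920 0) 11 20))
  (cond (small (mkl (fun i => bx2 s false py.rz false i 1920 1920 0) (Nat.sub 31 py.rzi) py.rzi))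
  (cond (small (mkl (fun i => bx2 s false py.ow false i 1920 1920 0) (Nat.succ J1)
    (Nat.sub 30 J1)))
  (cond (sv s py (Nat.ble s.e0 1920) (Nat.ble 1920 s.e1) 0 225)
  (cond (sv s py (Nat.ble s.e0 1920) (Nat.ble 1920 s.e1) 960 900)
  (cond (sv s py (Nat.ble 1920 s.e1) (Nat.ble s.e0 1920) 2880 900)
  (cond (sv s py (Nat.ble 1920 s.e1) (Nat.ble s.e0 1920) 3840 225)
  (cond (sv s py true true 1920 (gM (gpl s.e0 s.e1)))
  (cond (sl s py 1920 (gM (gpl s.e0 s.e1)))
  (cond (sl s py (lv1 s.e0 s.e1) (gM (gpl s.e0 s.e1)))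
  (cond (sl s py (lv2 s.e0 s.e1) (gM (gpl s.e0 s.e1)))
  (cond (Nat.ble s.e1 3840)
  (cond (Nat.ble (Nat.succ s.e0) s.e1)
  (cond (Nat.ble s.e1 (Nat.add s.e0 960))
    (cond (Nat.ble 1920 s.e0) true (cond (Nat.ble s.e1 1920) true
      (cond (Nat.ble s.e1 2880) (Nat.ble 960 s.e0) false))) false) false) false) false) false)
    false) false) false) false) false) false) false) false) false) false) false) false) false

end Pool.Agent.S5.G3
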