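import Pool.Agent.S5.K3.G5

/-!
# The rows of a node with three half twists: the test of a cell
-/

set_option autoImplicit false

namespace Pool.Agent.S5.G3

open Pool.Agent.S5.Tb Pool.Agent.S5.K3

/-- The lanes of the flat of the variable of the node. -/
def mF (J1 : Nat) : Nat := cond (Nat.beq J1 4) 0x80000000000800000000008000000000080000000000800000000008000000000080000000000800000000008000000000080000000000800000000008000000000080000000000800000000008000000000080000000000800000000008000000000080000000000800000000008000000000080000000000800000000008000000000080000000000800000000008000000000080000000000800000000008000000000080000000000800000000008000000000000000000000000000000000000000000000000000000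
  0x800000000008000000000080000000000800000000008000000000080000000000800000000008000000000080000000000800000000008000000000080000000000800000000008000000000080000000000800000000008000000000080000000000800000000008000000000080000000000800000000008000000000080000000000800000000008000000000080000000000800000000008000000000080000000000800000000000000000000000000000000000000000000000000000000000000000

/-- The two ends of the flat. -/
def mE (J1 : Nat) : Nat := cond (Nat.beq J1 4) 0x80000000000000000000000000000000000000000000000000000000000000000000000000000000000000000000000000000000000000000000000000000000000000000000000000000000000000000000000000000000000000000000000000000000000000000000000000000000000000000000000000000000000000000000000000000000000000000000000000000000000000000000000000000000000000000000000000000000000000008000000000000000000000000000000000000000000000000000000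
  0x800000000000000000000000000000000000000000000000000000000000000000000000000000000000000000000000000000000000000000000000000000000000000000000000000000000000000000000000000000000000000000000000000000000000000000000000000000000000000000000000000000000000000000000000000000000000000000000000000000000000000000000000000000000000000000800000000000000000000000000000000000000000000000000000000000000000

/-- Large real variable of the node. -/
def mP (J1 : Nat) : Nat := cond (Nat.beq J1 4) 0x8000000000080000000000800000000008000000000080000000000000000000000000000000000000000000000000000000000000000000000000000000000000000000000000000000000000000000000000000000000000000000000000000000000000000000000000000000000000000000000000000000000000000000000000000000000000000000000000000000000000000000000000000000000000000000000000000000000000000000000000000000000000000000000000000000000000000000000000000000000000000000000000000000000000000000000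
  0x8000000000080000000000800000000008000000000080000000000800000000000000000000000000000000000000000000000000000000000000000000000000000000000000000000000000000000000000000000000000000000000000000000000000000000000000000000000000000000000000000000000000000000000000000000000000000000000000000000000000000000000000000000000000000000000000000000000000000000000000000000000000000000000000000000000000000000000000000000000000000000000000000000000000000000000

/-- Small real variable of the node. -/
def mN (J1 : Nat) : Nat := cond (Nat.beq J1 4) 0x8000000000080000000000800000000008000000000080000000000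
  0x800000000008000000000080000000000800000000008000000000080000000000

/-- Difference. -/
def ad (a b : Nat) : Nat := Nat.add (Nat.sub a b) (Nat.sub b a)

/-- `Im hh` with the sign of `p - n`. -/
def sgt (p n t : Nat) : Nat := cond (Nat.ble n p) (Nat.add 67108864 t) (Nat.sub 67108864 t)

/-- A base point: `y0 = (iy + (jy - 30) i) / 200`, `z0 = (iz - 100 + (jz - 30) i) / 200`,
`b0 = (ib + (jb - 30) i) / 200`. -/
structure BP where
  iy : Nat
  jy : Nat
  iz : Nat
  jz : Nat
  ib : Nat
  jb : Nat

def BP.E1 (p : BP) : Nat := ent6 (Nat.sub 100 p.iy) (ad p.jy 30)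
def BP.E2 (p : BP) : Nat := ent6 (Nat.sub 100 p.ib) (ad p.jb 30)
def BP.E3 (p : BP) : Nat := ent6 (Nat.sub (Nat.add p.iy 100) p.iz) (ad p.jy p.jz)
def BP.E4 (p : BP) : Nat := ent6 p.iz (ad p.jz 30)
def BP.E5 (p : BP) : Nat := ent6 (Nat.sub (Nat.add p.iz p.ib) 100) (ad (Nat.add p.jz p.jb) 60)

def BP.h1 (p : BP) : Nat := sgt 30 p.jy (tE p.E1)
def BP.h2 (p : BP) : Nat := sgt 30 p.jb (tE p.E2)
def BP.h3 (p : BP) : Nat := sgt p.jy p.jz (tE p.E3)
def BP.h4 (p : BP) : Nat := sgt p.jz 30 (tE p.E4)
def BP.h5 (p : BP) : Nat := sgt (Nat.add p.jz p.jb) 60 (tE p.E5)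

/-- The slope in `y` at the base point. -/
def BP.dY (p : BP) : Nat :=
  Nat.sub (Nat.add (Nat.mul 2 p.h1)
    (Nat.div (Nat.mul 3294199 (Nat.sub 200 (Nat.add p.iy p.iz))) 200)) p.h3

/-- The slope in `b` at the base point. -/
def BP.dB (p : BP) : Nat :=
  Nat.sub (Nat.add p.h2 (Nat.add 67108864 (Nat.div (Nat.mul 3294199 p.iz) 200))) p.h5

/-- The slope in `z` at the base point. -/
def BP.dZ (p : BP) : Nat :=
  Nat.sub (Nat.add p.h3 (Nat.add 134217728 (Nat.div (Nat.mul 3294199 (Nat.add p.ib 100)) 200)))
    (Nat.add (Nat.add p.h4 p.h5) (Nat.div (Nat.mul 3294199 (Nat.add p.iy p.iz)) 200))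

/-- The base point is admissible. -/
def BP.ok (p : BP) : Bool :=
  cond (Nat.ble p.iy 99) (cond (Nat.ble p.ib 99) (cond (Nat.ble 1 p.iz) (cond (Nat.ble p.iz 100)
    (cond (Nat.ble p.iy p.iz) (cond (Nat.ble p.iz (Nat.add p.iy 99))
      (cond (Nat.ble 101 (Nat.add p.iz p.ib)) (cond (Nat.ble (Nat.add p.iz p.ib) 200)
        (cond (Nat.ble p.jy 60) (cond (Nat.ble p.jz 60) (Nat.ble p.jb 60)
          false) false) false) false) false) false) false) false) false) false

/-- The slot of the Bailey step. -/
def sdY (p : BP) (o : OutB) : SD where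
  ty := true
  cu := 2
  bt := p.iy
  be := Nat.mul 64 p.jy
  lr0 := o.ly.re.lo
  lr1 := o.ly.re.hi
  li0 := o.ly.im.lo
  li1 := o.ly.im.hi
  d0 := Nat.sub p.dY 20
  d1 := Nat.add p.dY 20
  m0 := Nat.sub (Nat.add p.dY 67108864) (Nat.add p.h1 20)
  m1 := Nat.sub (Nat.add p.dY 67108884) p.h1
  f0 := Nat.add 8388608000 (Nat.mul 8000 (Nat.add (qE p.E1) 32))
  hr0 := o.hy.re.lo
  hr1 := o.hy.re.hi
  hi0 := o.hy.im.lo
  hi1 := o.hy.im.hi
  e0 := Nat.sub (Nat.div (Nat.mul 25 o.ys.im.lo) 2048) 817280
  e1 := Nat.sub (Nat.div (Nat.mul 25 o.ys.im.hi) 2048) 817279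

/-- The other slot. -/
def sdB (p : BP) (o : OutB) : SD where
  ty := false
  cu := 1
  bt := p.ib
  be := Nat.mul 64 p.jb
  lr0 := o.lb.re.lo
  lr1 := o.lb.re.hi
  li0 := o.lb.im.lo
  li1 := o.lb.im.hi
  d0 := Nat.sub p.dB 20
  d1 := Nat.add p.dB 20
  m0 := Nat.sub (Nat.add p.dB 67108864) (Nat.add p.h2 20)
  m1 := Nat.sub (Nat.add p.dB 67108884) p.h2
  f0 := Nat.add 8388608000 (Nat.mul 8000 (Nat.add (qE p.E2) 32))
  hr0 := o.hb.re.lo
  hr1 := o.hb.re.hi
  hi0 := o.hb.im.lo
  hi1 := o.hb.im.hi
  e0 := Nat.sub (Nat.div (Nat.mul 25 o.bs.im.lo) 2048) 817280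
  e1 := Nat.sub (Nat.div (Nat.mul 25 o.bs.im.hi) 2048) 817279

/-- The heights of the critical value of the variable of the node. -/
def n0 (o : OutB) : Nat := Nat.sub (Nat.div (Nat.mul 25 o.zs.im.lo) 2048) 817280
def n1 (o : OutB) : Nat := Nat.sub (Nat.div (Nat.mul 25 o.zs.im.hi) 2048) 817279

/-- The loss if an angle is beyond the middle of the strip, by `x`. -/
def anE (x : Nat) : Nat :=
  cond (Nat.beq x 0) 0 (cond (Nat.ble x 31457) 2350000 (cond (Nat.ble x 62914) 18800000
    (cond (Nat.ble x 83886) 44600000 87500000)))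

/-- The real parts of the critical point. -/
def okO (o : OutB) : Bool :=
  cond (Nat.ble 67108864 o.ys.re.lo) (cond (Nat.ble o.ys.re.hi 67633151)
  (cond (Nat.ble 67108864 o.bs.re.lo) (cond (Nat.ble o.bs.re.hi 67633151)
  (cond (Nat.ble (Nat.succ o.zs.re.hi) o.ys.re.lo)
  (cond (Nat.ble o.ys.re.hi (Nat.add o.zs.re.lo 629145))
  (cond (Nat.ble 67108865 (Nat.add o.zs.re.lo 524288))
  (cond (Nat.ble o.zs.re.hi 67213721)
  (cond (Nat.ble 134217729 (Nat.add o.zs.re.lo o.bs.re.lo))
  (Nat.ble (Nat.add o.zs.re.hi o.bs.re.hi) 134742016)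
  false) false) false) false) false) false) false) false) false

/-- The constant, positive part. -/
def zP (p : BP) (o : OutB) : Nat :=
  Nat.add (Nat.add 137438953472 1720000)
    (Nat.add
      (Nat.div (Nat.mul 3294199 (Nat.add
        (Nat.mul (Nat.add p.jy p.jz) (Nat.sub 200 (Nat.add p.iy p.iz)))
        (Nat.add (Nat.mul p.iz p.jb) (Nat.mul 30 (Nat.sub 100 p.ib))))) 5)
      (Nat.add (anE (Nat.sub o.ys.re.hi (Nat.add o.zs.re.lo 524288)))
        (anE (Nat.sub o.zs.re.hi 67108864))))

/-- The constant, negative part. -/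
def zN (p : BP) : Nat :=
  Nat.add
    (Nat.mul 8000 (Nat.add (Nat.mul 2 (qE p.E1)) (Nat.add (Nat.add (qE p.E2) (qE p.E3))
      (Nat.add (qE p.E4) (qE p.E5)))))
    (Nat.div (Nat.mul 3294199 (Nat.add (Nat.mul 60 (Nat.sub 200 (Nat.add p.iy p.iz)))
      (Nat.add (Nat.mul 30 p.iz) (Nat.mul p.jz (Nat.sub 100 p.ib))))) 5)

/-- The constant for the height `nu` and the weight `w`. -/
def zc (p : BP) (o : OutB) (nu w : Nat) : Nat :=
  Nat.sub (Nat.add (zP p o)
      (Nat.div (Nat.add (Nat.mul 5 (mpp (Nat.add p.dZ 20) nu (Nat.mul 64 p.jz))) 7) 8))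
    (Nat.add (zN p) (Nat.add
      (Nat.div (Nat.mul 5 (mpn (Nat.sub p.dZ 20) nu (Nat.mul 64 p.jz))) 8)
      (Nat.mul 4117747 w)))

/-- The maximum of the constants. -/
def zm (p : BP) (o : OutB) (w : Nat) : Nat := mx (zc p o (n0 o) w) (zc p o (n1 o) w)

/-- The part of the variable of the node. -/
def zv (g M L c : Nat) : Nat :=
  Nat.add (Nat.shiftRight (Nat.add (Nat.add (rwI (ab g 1920)) (Nat.mul M KAP)) (Nat.mul L LIN))
    1760) (Nat.mul c ON)

/-- The threshold. -/
def KK : Nat := 550580617216

/-- All free pieces. -/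
def aA (s : SD) (py : Py) (b M L : Nat) : Nat := vm (aF s py b M L) (aN s py b M L)

/-- The flat of the variable of the node. -/
def tF (sy sb : SD) (py pb : Py) (J1 g M L c : Nat) : Bool :=
  cond (tz KK (mF J1) (Nat.add (Nat.add (rev (aN sy py (Nat.sub 3840 g) M L)) (aA sb pb g M L))
    (zv g M L c)))
  (tz KK (mF J1) (Nat.add (Nat.add (rev (aF sy py (Nat.sub 3840 g) M L)) (aN sb pb g M L))
    (zv g M L c))) false

/-- All free pieces of the edges. -/
def tA (sy sb : SD) (py pb : Py) (m g M L c : Nat) : Bool :=
  tz KK m (Nat.add (Nat.add (rev (aA sy py (Nat.sub 3840 g) M L)) (aA sb pb g M L)) (zv g M L c))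

/-- The real parts of the contour of the variable of the node. -/
def tR (sy sb : SD) (py pb : Py) (J1 c : Nat) : Bool :=
  cond (tz KK (mP J1) (Nat.add (Nat.add (rev (aO sy py J1 1920 0 0)) (aA sb pb 1920 0 0))
    (zv 1920 0 0 c)))
  (tz KK (mN J1) (Nat.add (Nat.add (rev (aA sy py 1920 0 0)) (aO sb pb J1 1920 0 0))
    (zv 1920 0 0 c))) false

/-- The test of the rows, for the two slots: `g0`, `g1` heights of the flat, `d` their distance, `h` the
gap of the levels of the legs. -/
def rowsS (sy sb : SD) (py pb : Py) (p : BP) (o : OutB) (J1 g0 g1 d h : Nat) : Bool :=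
  cond (tF sy sb py pb J1 g0 (gM d) (gL d) (zc p o g0 0))
  (cond (tF sy sb py pb J1 g1 (gM d) (gL d) (zc p o g1 0))
  (cond (tA sy sb py pb (mE J1) (lv1 g0 g1) (gM h) (gL h) (zm p o 0))
  (cond (tA sy sb py pb (mE J1) (lv2 g0 g1) (gM h) (gL h) (zm p o 0))
  (cond (tA sy sb py pb (mE J1) 1920 (gM h) (gL h) (zm p o 0))
  (cond (tA sy sb py pb (mE J1) 960 900 60 (zm p o 960))
  (cond (tA sy sb py pb (mE J1) 2880 900 60 (zm p o 960))
  (cond (tA sy sb py pb (mF J1) 0 225 15 (zm p o 1920))
  (cond (tA sy sb py pb (mF J1) 3840 225 15 (zm p o 1920))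
  (tR sy sb py pb J1 (zm p o 0)) false) false) false) false) false) false) false) false) false

/-- The intervals. -/
def okN (o : OutB) (J1 : Nat) : Bool :=
  cond (Nat.ble 817280 (Nat.div (Nat.mul 25 o.ys.im.lo) 2048))
  (cond (Nat.ble 817280 (Nat.div (Nat.mul 25 o.bs.im.lo) 2048))
  (cond (Nat.ble 817280 (Nat.div (Nat.mul 25 o.zs.im.lo) 2048))
  (cond (Nat.ble (n1 o) 3840) (cond (Nat.ble (Nat.succ (n0 o)) (n1 o))
  (cond (Nat.ble (n1 o) (Nat.add (n0 o) 960))
  (cond (cond (Nat.ble 1920 (n0 o)) true (cond (Nat.ble (n1 o) 1920) true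
    (cond (Nat.ble (n1 o) 2880) (Nat.ble 960 (n0 o)) false)))
  (cond (Nat.beq J1 4) true (Nat.beq J1 5)) false) false) false) false) false) false) false

/-- **The test of a cell.** -/
def rows3 (py pb : Py) (p : BP) (J1 : Nat) (o : OutB) : Bool :=
  cond p.ok (cond (okO o) (cond (okN o J1) (cond (okS (sdY p o) py J1) (cond (okS (sdB p o) pb J1)
    (cond (small [zc p o (n0 o) 0, zc p o (n1 o) 0, zm p o 0, zm p o 960, zm p o 1920])
      (rowsS (sdY p o) (sdB p o) py pb p o J1 (n0 o) (n1 o) (Nat.sub (n1 o) (n0 o))
        (gpl (n0 o) (n1 o))) false) false) false) false) false) false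

end Pool.Agent.S5.G3
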