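import Pool.Agent.S5.K3.G6
import Pool.Agent.S5.I.NDefs

/-!
# The rows of a node with three half twists: the real functions

Real heights are in units `1 / 12800` (centered), positions are `I = 40 Re y + 10`, `J = 40 Re z + 20`
(with the other sign of `z` for the slot of the Bailey step, `ty = true`), values have the unit
`1 / 8388608000`.
-/

set_option autoImplicit false

namespace Pool.Agent.S5.G3

open Pool.Agent.H63.VC3 Pool.Agent.S3 Complex MeasureTheory Filter Topology Set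
open Pool.Agent.S5.Tb Pool.Agent.S5.K3

/-- The bilinear form of a slot. -/
noncomputable def Qf (ty : Bool) (I J a b : ℝ) : ℝ :=
  if ty = true then (a - b) * (I - J - 10) else -(a * J + b * (I - 30))

/-- Affine functions of the position, the height, and the height of the flat. -/
structure Cf where
  c0 : ℝ
  c1 : ℝ
  c2 : ℝ
  c3 : ℝ

/-- The value. -/
noncomputable def Cf.v (c : Cf) (I a e : ℝ) : ℝ := c.c0 + c.c1 * I + c.c2 * a + c.c3 * e

/-- The function of a slot. -/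
noncomputable def SR (ty : Bool) (cu : ℝ) (C : Cf) (I J a b e : ℝ) : ℝ :=
  cu * (8388608000 * Fu ((30 - I) / 40) (a / 12800)) +
    8388608000 * (Fu ((I + J - 30) / 40) ((a + b) / 12800) + 1) +
    Real.pi * 16384 * Qf ty I J a b + C.v I a e

/-- The value at a vertex. -/
noncomputable def vx (ty : Bool) (cu : ℝ) (C : Cf) (Mh M L : ℝ) (i J : ℕ) (a b : ℤ) (e : ℝ) : ℝ :=
  cu * (VxI Mh 0 a 0 (70 - i) - 8388608000) + VxI M L a b (i + J + 10) +
    Real.pi * 16384 * Qf ty i J a b + C.v i a e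

/-! ### The data of a slot -/

/-- The real data of a slot: the slope `lam = l3y` or `l3b` at the critical point, `hp = hh (1/2 - y*)`,
`D` the slope of the base point, `D1 = D - Im hh (1/2 - y0)`, `F0 = -Rf (1/2 - y0)`,
`e = 12800 Im y*`. -/
structure Sr where
  lam : ℂ
  hp : ℂ
  D : ℝ
  D1 : ℝ
  F0 : ℝ
  e : ℝ

/-- The numbers of the program are right. The entries `hr`, `hi` are used only if `fl = true`. -/
structure SDok (s : SD) (r : Sr) (fl : Bool) : Prop where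
  cu : s.cu = cond s.ty 2 1
  bt : s.bt ≤ 100
  be : s.be ≤ 3840
  lr0 : (s.lr0 : ℝ) - 67108864 ≤ 1048576 * r.lam.re
  lr1 : 1048576 * r.lam.re ≤ (s.lr1 : ℝ) - 67108864
  li0 : (s.li0 : ℝ) - 67108864 ≤ 1048576 * r.lam.im
  li1 : 1048576 * r.lam.im ≤ (s.li1 : ℝ) - 67108864
  d0 : (s.d0 : ℝ) - 67108864 ≤ 1048576 * r.D
  d1 : 1048576 * r.D ≤ (s.d1 : ℝ) - 67108864
  m0 : (s.m0 : ℝ) - 67108864 ≤ 1048576 * r.D1
  m1 : 1048576 * r.D1 ≤ (s.m1 : ℝ) - 67108864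
  f0 : 8388608000 * (r.F0 + 1) ≤ (s.f0 : ℝ)
  hr0 : fl = true → (s.hr0 : ℝ) - 67108864 ≤ 1048576 * r.hp.re
  hr1 : fl = true → 1048576 * r.hp.re ≤ (s.hr1 : ℝ) - 67108864
  hi0 : fl = true → (s.hi0 : ℝ) - 67108864 ≤ 1048576 * r.hp.im
  hi1 : fl = true → 1048576 * r.hp.im ≤ (s.hi1 : ℝ) - 67108864
  e0 : (s.e0 : ℝ) - 1920 ≤ r.e
  e1 : r.e ≤ (s.e1 : ℝ) - 1920

/-- The affine part: `dl` payment, `pay` potential, `σ` sign of the height on the rectangle (else `0`),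
`leg = 1` if the foot is the point itself (`0` on the rectangle). -/
noncomputable def cf (s : SD) (r : Sr) (dl : Bool) (pay : ℕ) (σ leg : ℝ) : Cf where
  c0 := 41943040 * r.lam.re * (s.bt + 50) - 655360 * (cond dl r.D1 r.D) * ((s.be : ℝ) - 1920) +
    cond dl (-(41943040 * r.hp.re * (s.bt + 50)) + 8388608000 * r.F0) 0 +
    83886080 * ((pay : ℝ) - 100)
  c1 := -(209715200 * r.lam.re) + cond dl (209715200 * r.hp.re) 0
  c2 := 655360 * (leg * r.lam.im - cond dl r.hp.im 0) - Real.pi * 655360 * σ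
  c3 := 655360 * (-r.lam.im + cond dl r.D1 r.D + cond dl r.hp.im 0)

/-- The share of the neighbour which is left. -/
noncomputable def cuR (s : SD) (dl : Bool) : ℝ := (s.cu : ℝ) - cond dl 1 0

/-- The offset of the lanes of a slot. -/
noncomputable def Ofs (ty : Bool) : ℝ :=
  cond ty (137438953472 + 3 * 8388608000 + 51472 * 768000)
    (137438953472 + 2 * 8388608000 + 51472 * 614400)

/-- The losses `M0`, `L0` at the height `b0`, `M1`, `L1` at the height `b1` cover the defect of the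
interpolation between the heights. -/
structure Gap (b0 b1 M0 M1 L0 L1 : ℕ) : Prop where
  h0 : b0 ≤ 3840
  h1 : b1 ≤ 3840
  m0 : M0 ≤ 900
  m1 : M1 ≤ 900
  l0 : L0 ≤ 60
  l1 : L1 ≤ 60
  M : ∀ q : ℝ, 0 ≤ q → q ≤ 1 →
    4 * (q * (1 - q)) * (((b1 : ℝ) - (b0 : ℝ)) / 64) ^ 2 ≤ (1 - q) * (M0 : ℝ) + q * (M1 : ℝ)
  L : ∀ q : ℝ, 0 ≤ q → q ≤ 1 →
    4 * (q * (1 - q)) * (|(b1 : ℝ) - (b0 : ℝ)| / 64) ≤ (1 - q) * (L0 : ℝ) + q * (L1 : ℝ)

/-- The lanes of `v0`, `v1` (heights `b0`, `b1` of the variable of the node) bound the function. -/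
def Dom (v0 v1 : ℕ) (Φ : ℝ → ℝ → ℝ) : Prop :=
  ∀ (J : ℕ) (t q : ℝ), J ≤ 40 → (0 < t → J < 40) → 0 ≤ t → t ≤ 1 → 0 ≤ q → q ≤ 1 →
    Φ (J + t) q ≤ (1 - q) * ((1 - t) * lane v0 J + t * lane v0 (J + 1)) +
      q * ((1 - t) * lane v1 J + t * lane v1 (J + 1))

/-- The lanes of `v` are at least the values of the row `(a, b)` with the constant `c` at the
position `i`. -/
def GE (v : ℕ) (ty : Bool) (b M L i a c : ℕ) : Prop :=
  ∀ J ≤ 40, c + (lnI (ab a b) (i + J + 10) + M * kp (i + J + 10) +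
    (L * li (i + J + 10) + 51472 * sg ty a b * (i + J + 10))) +
    (51472 * ro ty a b * (40 - J) + 51472 * ka ty a b) ≤ lane v J

/-- The slot function, as a function of `J` and of the interpolation parameter `q` between the heights
`b0`, `b1`. -/
noncomputable def Ps (s : SD) (r : Sr) (dl : Bool) (pay : ℕ) (σ leg I a : ℝ) (b0 b1 : ℕ)
    (J q : ℝ) : ℝ :=
  SR s.ty (cuR s dl) (cf s r dl pay σ leg) I J a ((b0 : ℝ) - 1920 + q * ((b1 : ℝ) - b0)) r.e +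
    Ofs s.ty - 33320

/-- The flats: `I`, `a`, payment, potential. -/
inductive OnF (py : Py) (e : ℝ) : ℝ → ℝ → Bool → ℕ → Prop
  | F {I : ℝ} (h0 : 16 ≤ I) (h1 : I ≤ 30) : OnF py e I e py.dF py.F
  | H {I : ℝ} (h0 : 10 ≤ I) (h1 : I ≤ 16) : OnF py e I e py.dH py.H
  | G {I : ℝ} (h0 : 0 ≤ I) (h1 : I ≤ 10) : OnF py e I e py.dH py.G

/-- The positions of the forced edges. -/
inductive OnO (py : Py) (J1 : ℕ) : ℝ → ℝ → Bool → ℕ → Prop
  | ow {I : ℝ} (h0 : 30 - (J1 : ℝ) ≤ I) (h1 : I ≤ 30) : OnO py J1 I 0 false py.ow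

/-- The other free pieces: `I`, `a`, payment, potential, `σ`, `leg`. -/
inductive OnN (py : Py) (e : ℝ) : ℝ → ℝ → Bool → ℕ → ℝ → ℝ → Prop
  | L {a : ℝ} (h : a ∈ uIcc 0 e) : OnN py e 0 a py.dH py.L 0 1
  | R {a : ℝ} (h : a ∈ uIcc 0 e) : OnN py e 30 a false py.R 0 1
  | T {I a σ : ℝ} (hσ : σ = 1 ∨ σ = -1) (h : σ * a = 1920) (he : 0 ≤ a * e) (h0 : 10 ≤ I)
      (h1 : I ≤ 30) : OnN py e I a false py.T σ 0
  | t {I a σ : ℝ} (hσ : σ = 1 ∨ σ = -1) (h : σ * a = 1920) (he : a * e ≤ 0) (h0 : 10 ≤ I)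
      (h1 : I ≤ 30) : OnN py e I a false py.t σ 0
  | U {I a σ : ℝ} (hσ : σ = 1 ∨ σ = -1) (h : σ * a = 1920) (he : 0 ≤ a * e) (h0 : 0 ≤ I)
      (h1 : I ≤ 10) : OnN py e I a py.dH py.U σ 0
  | u {I a σ : ℝ} (hσ : σ = 1 ∨ σ = -1) (h : σ * a = 1920) (he : a * e ≤ 0) (h0 : 0 ≤ I)
      (h1 : I ≤ 10) : OnN py e I a py.dH py.u σ 0
  | P {a σ : ℝ} (hσ : σ = 1 ∨ σ = -1) (h0 : 0 ≤ σ * a) (h : σ * a ≤ 1920) (he : 0 ≤ a * e) :
      OnN py e 0 a py.dH py.P σ 0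
  | p {a σ : ℝ} (hσ : σ = 1 ∨ σ = -1) (h0 : 0 ≤ σ * a) (h : σ * a ≤ 1920) (he : a * e ≤ 0) :
      OnN py e 0 a py.dH py.p σ 0
  | Q {a σ : ℝ} (hσ : σ = 1 ∨ σ = -1) (h0 : 0 ≤ σ * a) (h : σ * a ≤ 1920) (he : 0 ≤ a * e) :
      OnN py e 30 a false py.Q σ 0
  | q {a σ : ℝ} (hσ : σ = 1 ∨ σ = -1) (h0 : 0 ≤ σ * a) (h : σ * a ≤ 1920) (he : a * e ≤ 0) :
      OnN py e 30 a false py.q σ 0
  | re {I : ℝ} (hB : py.reB = true) (h0 : 20 ≤ I) (h1 : I ≤ 30) : OnN py e I 0 false py.re 0 1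
  | rz {I : ℝ} (hB : py.rzB = true) (h0 : (py.rzi : ℝ) ≤ I) (h1 : I ≤ 30) :
      OnN py e I 0 false py.rz 0 1

/-! ### The base point -/

/-- The base point. -/
noncomputable def BP.y0 (p : BP) : ℂ := ((p.iy : ℝ) / 200 : ℝ) + (((p.jy : ℝ) - 30) / 200 : ℝ) * I

/-- The base point. -/
noncomputable def BP.z0 (p : BP) : ℂ :=
  (((p.iz : ℝ) - 100) / 200 : ℝ) + (((p.jz : ℝ) - 30) / 200 : ℝ) * I

/-- The base point. -/
noncomputable def BP.b0 (p : BP) : ℂ := ((p.ib : ℝ) / 200 : ℝ) + (((p.jb : ℝ) - 30) / 200 : ℝ) * I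

/-- The real data of the slot of the Bailey step. -/
noncomputable def srY (p : BP) (ys zs : ℂ) : Sr where
  lam := l3y ys zs
  hp := hh (1 / 2 - ys)
  D := (l3y p.y0 p.z0).im
  D1 := (l3y p.y0 p.z0).im - (hh (1 / 2 - p.y0)).im
  F0 := Fu (1 / 2 - p.y0.re) p.y0.im
  e := 12800 * ys.im

/-- The real data of the other slot. -/
noncomputable def srB (p : BP) (zs bs : ℂ) : Sr where
  lam := l3b zs bs
  hp := hh (1 / 2 - bs)
  D := (l3b p.z0 p.b0).im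
  D1 := (l3b p.z0 p.b0).im - (hh (1 / 2 - p.b0)).im
  F0 := Fu (1 / 2 - p.b0.re) p.b0.im
  e := 12800 * bs.im

/-- The constant of the base point, with the loss `ε`. -/
noncomputable def Zb (p : BP) (zs : ℂ) (ε : ℝ) : ℝ :=
  8388608000 * (-Gz3 p.y0 p.z0 p.b0 + (l3z p.y0 p.z0 p.b0).im * (zs.im - p.z0.im) + ε)

end Pool.Agent.S5.G3
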