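import Pool.Agent.S5.K3.G7

/-!
# The interpolation in a slot
-/

set_option autoImplicit false

namespace Pool.Agent.S5.G3

open Pool.Agent.H63.VC3 Pool.Agent.S3 Complex MeasureTheory Filter Topology Set
open Pool.Agent.S5.Tb Pool.Agent.S5.K3

theorem wle {w x y : ℝ} (hw : 0 ≤ w) (h : 0 < w → x ≤ y) : w * x ≤ w * y := by
  rcases hw.eq_or_lt with h0 | h0
  · rw [← h0]
    simp
  · exact mul_le_mul_of_nonneg_left (h h0) hw

theorem triA {g0 g1 v0 v1 r X0 X1 t s : ℝ} (ht0 : 0 ≤ t) (hs0 : 0 ≤ s) (hts : t + s ≤ 1)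
    (h00 : g0 + v0 ≤ X0) (h10 : 0 < t → g1 + v1 ≤ X0) (h01 : 0 < s → g0 + v1 + r ≤ X1) :
    (1 - t) * g0 + t * g1 + ((1 - (t + s)) * v0 + (t + s) * v1) + s * r ≤
      (1 - s) * X0 + s * X1 := by
  have a1 := mul_le_mul_of_nonneg_left h00 (show 0 ≤ 1 - (t + s) by linarith)
  have a2 := wle ht0 h10
  have a3 := wle hs0 h01
  nlinarith [a1, a2, a3]

theorem triB {g0 g1 v1 v2 r X0 X1 t s : ℝ} (ht0 : 0 ≤ t) (ht1 : t ≤ 1) (hs0 : 0 ≤ s) (hs1 : s ≤ 1)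
    (hts : 1 < t + s) (h10 : 0 < t → g1 + v1 ≤ X0) (h01 : 0 < s → g0 + v1 + r ≤ X1)
    (h11 : 0 < t → 0 < s → g1 + v2 + r ≤ X1) :
    (1 - t) * g0 + t * g1 + ((2 - (t + s)) * v1 + (t + s - 1) * v2) + s * r ≤
      (1 - s) * X0 + s * X1 := by
  have a1 := mul_le_mul_of_nonneg_left (h10 (by linarith)) (show 0 ≤ 1 - s by linarith)
  have a2 := mul_le_mul_of_nonneg_left (h01 (by linarith)) (show 0 ≤ 1 - t by linarith)
  have a3 := mul_le_mul_of_nonneg_left (h11 (by linarith) (by linarith))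
    (show 0 ≤ t + s - 1 by linarith)
  nlinarith [a1, a2, a3]

/-- The bilinear form is interpolated exactly. -/
theorem Qf_bl (ty : Bool) (I J a0 a1 b0 b1 p q : ℝ) :
    Qf ty I J (a0 + p * (a1 - a0)) (b0 + q * (b1 - b0)) =
      bl4 p q (Qf ty I J a0 b0) (Qf ty I J a0 b1) (Qf ty I J a1 b0) (Qf ty I J a1 b1) := by
  unfold Qf bl4
  cases ty <;> simp <;> ring

theorem Cf_bl (C : Cf) (I a0 a1 e0 e1 p q : ℝ) :
    C.v I (a0 + p * (a1 - a0)) (e0 + p * (e1 - e0)) =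
      bl4 p q (C.v I a0 e0) (C.v I a0 e0) (C.v I a1 e1) (C.v I a1 e1) := by
  unfold Cf.v bl4
  ring

theorem li_lt {m : ℕ} (h : m ≠ 80) : li m = 0 := by
  unfold li
  rw [beq_false h]
  rfl

/-- The first term of a slot. -/
theorem slotP {i : ℕ} {t p q G0 G1 : ℝ} {a0 a1 : ℤ} (hi : i ≤ 30) (ht0 : 0 ≤ t) (ht1 : t ≤ 1)
    (hp0 : 0 ≤ p) (hp1 : p ≤ 1) (hq0 : 0 ≤ q) (hq1 : q ≤ 1)
    (hG : 4 * (p * (1 - p)) * (((a1 : ℝ) - a0) / 64) ^ 2 ≤ (1 - p) * G0 + p * G1)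
    (h0 : Int.natAbs a0 ≤ 3840) (h1 : Int.natAbs a1 ≤ 3840) :
    8388608000 * (Fu ((30 - ((i : ℝ) + t)) / 40) (((a0 : ℝ) + p * (a1 - a0)) / 12800) + 1) ≤
      bl4 p q ((1 - t) * VxI G0 0 a0 0 (70 - i) + t * VxI G0 0 a0 0 (70 - (i + 1)))
        ((1 - t) * VxI G0 0 a0 0 (70 - i) + t * VxI G0 0 a0 0 (70 - (i + 1)))
        ((1 - t) * VxI G1 0 a1 0 (70 - i) + t * VxI G1 0 a1 0 (70 - (i + 1)))
        ((1 - t) * VxI G1 0 a1 0 (70 - i) + t * VxI G1 0 a1 0 (70 - (i + 1))) := by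
  have hLp : 0 ≤ 4 * (p * (1 - p)) * (|(a1 : ℝ) - a0| / 64) := by
    have : 0 ≤ p * (1 - p) := mul_nonneg hp0 (by linarith)
    positivity
  set La := 4 * (p * (1 - p)) * (|(a1 : ℝ) - a0| / 64) with hLa
  have hc := cellG (m := 69 - i) (a0 := a0) (a1 := a1) (b0 := 0) (b1 := 0) (p := p) (q := q)
    (θ := 1 - t) (Ma := (((a1 : ℝ) - a0) / 64) ^ 2) (Mb := 0) (La := |(a1 : ℝ) - a0| / 64) (Lb := 0)
    (M00 := G0) (M01 := G0) (M10 := G1) (M11 := G1) (L00 := La) (L01 := La) (L10 := La) (L11 := La)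
    (by omega) hp0 hp1 hq0 hq1 (by linarith) (by linarith) le_rfl (by simp) le_rfl (by simp)
    (by unfold bl4; linarith) (by unfold bl4; rw [hLa]; linarith) (by simpa using h0)
    (by simpa using h0) (by simpa using h1) (by simpa using h1)
  have e1 : ((69 - i : ℕ) : ℝ) = 69 - i := by
    rw [Nat.cast_sub (by omega)]
    norm_num
  have e2 : (((69 - i : ℕ) : ℝ) + (1 - t) - 40) / 40 = (30 - ((i : ℝ) + t)) / 40 := by
    rw [e1]; ring
  have e3 : (((a0 : ℝ) + p * (a1 - a0) + (((0 : ℤ) : ℝ) + q * (((0 : ℤ) : ℝ) - ((0 : ℤ) : ℝ)))) / 12800) =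
      ((a0 : ℝ) + p * (a1 - a0)) / 12800 := by
    push_cast; ring
  rw [e2, e3] at hc
  have e4 : 69 - i + 1 = 70 - i := by omega
  have e5 : 69 - i = 70 - (i + 1) := by omega
  rw [e4, e5] at hc
  have e6 : ∀ (G : ℝ) (a : ℤ) (k : ℕ), k ≤ 70 → VxI G La a 0 k = VxI G 0 a 0 k := by
    intro G a k hk
    unfold VxI
    rw [li_lt (by omega)]
    push_cast
    ring
  rw [e6 _ _ _ (by omega), e6 _ _ _ (by omega), e6 _ _ _ (by omega), e6 _ _ _ (by omega)] at hc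
  have e7 : 1 - (1 - t) = t := by ring
  rw [e7] at hc
  refine hc.trans (le_of_eq ?_)
  unfold bl4
  ring

/-- **The interpolation in a slot**, the heights `a` and `e` together. -/
theorem slot_tied {ty : Bool} {cu : ℝ} {C : Cf} {i J : ℕ} {t s p q : ℝ}
    {G0 G1 H0 H1 M0 M1 L0 L1 : ℝ} {a0 a1 b0 b1 : ℤ} {e0 e1 : ℝ} {X0 X1 : ℕ → ℝ} (hcu : 0 ≤ cu)
    (hi : i ≤ 30) (hi1 : 0 < t → i < 30) (hJ : J ≤ 40) (hJ1 : 0 < s → J < 40) (ht0 : 0 ≤ t)
    (ht1 : t ≤ 1) (hs0 : 0 ≤ s) (hs1 : s ≤ 1) (hp0 : 0 ≤ p) (hp1 : p ≤ 1) (hq0 : 0 ≤ q)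
    (hq1 : q ≤ 1)
    (hG : 4 * (p * (1 - p)) * (((a1 : ℝ) - a0) / 64) ^ 2 ≤ (1 - p) * G0 + p * G1)
    (hH : 4 * (p * (1 - p)) * (|(a1 : ℝ) - a0| / 64) ≤ (1 - p) * H0 + p * H1)
    (hM : 4 * (q * (1 - q)) * (((b1 : ℝ) - b0) / 64) ^ 2 ≤ (1 - q) * M0 + q * M1)
    (hL : 4 * (q * (1 - q)) * (|(b1 : ℝ) - b0| / 64) ≤ (1 - q) * L0 + q * L1)
    (ha0 : Int.natAbs a0 ≤ 1920) (ha1 : Int.natAbs a1 ≤ 1920) (hb0 : Int.natAbs b0 ≤ 1920)
    (hb1 : Int.natAbs b1 ≤ 1920)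
    (hv : ∀ i' J' : ℕ, (i' = i ∨ (i' = i + 1 ∧ 0 < t)) → (J' = J ∨ (J' = J + 1 ∧ 0 < s)) →
      vx ty cu C G0 (M0 + G0) (L0 + H0) i' J' a0 b0 e0 ≤ X0 J' ∧
      vx ty cu C G0 (M1 + G0) (L1 + H0) i' J' a0 b1 e0 ≤ X1 J' ∧
      vx ty cu C G1 (M0 + G1) (L0 + H1) i' J' a1 b0 e1 ≤ X0 J' ∧
      vx ty cu C G1 (M1 + G1) (L1 + H1) i' J' a1 b1 e1 ≤ X1 J') :
    SR ty cu C (i + t) (J + s) (a0 + p * (a1 - a0)) (b0 + q * (b1 - b0)) (e0 + p * (e1 - e0)) ≤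
      (1 - q) * ((1 - s) * X0 J + s * X0 (J + 1)) + q * ((1 - s) * X1 J + s * X1 (J + 1)) := by
  have hP := slotP (q := q) hi ht0 ht1 hp0 hp1 hq0 hq1 hG (by omega) (by omega)
  have h00 : Int.natAbs (a0 + b0) ≤ 3840 := by omega
  have h01 : Int.natAbs (a0 + b1) ≤ 3840 := by omega
  have h10 : Int.natAbs (a1 + b0) ≤ 3840 := by omega
  have h11 : Int.natAbs (a1 + b1) ≤ 3840 := by omega
  have hMM : 4 * (p * (1 - p)) * (((a1 : ℝ) - a0) / 64) ^ 2 +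
      4 * (q * (1 - q)) * (((b1 : ℝ) - b0) / 64) ^ 2 ≤
      bl4 p q (M0 + G0) (M1 + G0) (M0 + G1) (M1 + G1) := by
    unfold bl4
    linarith
  have hLL : 4 * (p * (1 - p)) * (|(a1 : ℝ) - a0| / 64) +
      4 * (q * (1 - q)) * (|(b1 : ℝ) - b0| / 64) ≤
      bl4 p q (L0 + H0) (L1 + H0) (L0 + H1) (L1 + H1) := by
    unfold bl4
    linarith
  have cl : ∀ (m : ℕ) (θ : ℝ), m < 80 → 0 ≤ θ → θ ≤ 1 → _ := fun m θ hm h0 h1 =>
    cellG (m := m) (a0 := a0) (a1 := a1) (b0 := b0) (b1 := b1) (p := p) (q := q) (θ := θ)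
      hm hp0 hp1 hq0 hq1 h0 h1 le_rfl le_rfl le_rfl le_rfl hMM hLL h00 h01 h10 h11
  -- the values of the linear interpolation
  obtain ⟨U, hU, hT⟩ : ∃ U : ℝ → ℝ → ℤ → ℤ → ℝ,
      8388608000 * (Fu (((i : ℝ) + t + (J + s) - 30) / 40)
        (((a0 : ℝ) + p * (a1 - a0) + (b0 + q * (b1 - b0))) / 12800) + 1) ≤
        bl4 p q (U (M0 + G0) (L0 + H0) a0 b0) (U (M1 + G0) (L1 + H0) a0 b1)
          (U (M0 + G1) (L0 + H1) a1 b0) (U (M1 + G1) (L1 + H1) a1 b1) ∧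
      ∀ (G M L : ℝ) (a b : ℤ) (e : ℝ) (X : ℕ → ℝ),
        (∀ i' J' : ℕ, (i' = i ∨ (i' = i + 1 ∧ 0 < t)) → (J' = J ∨ (J' = J + 1 ∧ 0 < s)) →
          vx ty cu C G M L i' J' a b e ≤ X J') →
        cu * (((1 - t) * VxI G 0 a 0 (70 - i) + t * VxI G 0 a 0 (70 - (i + 1))) - 8388608000) +
          U M L a b + Real.pi * 16384 * Qf ty (i + t) (J + s) a b + C.v (i + t) a e ≤
          (1 - s) * X J + s * X (J + 1) := by
    have hQ : ∀ a b : ℝ, Qf ty (i + t) (J + s) a b = (1 - t) * Qf ty i J a b +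
        t * Qf ty ((i : ℝ) + 1) J a b + s * (Qf ty i ((J : ℝ) + 1) a b - Qf ty i J a b) := by
      intro a b
      unfold Qf
      cases ty <;> simp <;> ring
    have hQ1 : ∀ a b : ℝ, Qf ty ((i : ℝ) + 1) ((J : ℝ) + 1) a b = Qf ty ((i : ℝ) + 1) J a b +
        (Qf ty i ((J : ℝ) + 1) a b - Qf ty i J a b) := by
      intro a b
      unfold Qf
      cases ty <;> simp <;> ring
    have hC : ∀ a e : ℝ, C.v (i + t) a e = (1 - t) * C.v i a e + t * C.v ((i : ℝ) + 1) a e := by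
      intro a e
      unfold Cf.v
      ring
    by_cases hts : t + s ≤ 1
    · by_cases hm : i + J + 10 < 80
      · refine ⟨fun M L a b => (1 - (t + s)) * VxI M L a b (i + J + 10) +
          (t + s) * VxI M L a b (i + J + 10 + 1), ?_, ?_⟩
        · have hc := cl (i + J + 10) (t + s) hm (by linarith) hts
          have e1 : (((i + J + 10 : ℕ) : ℝ) + (t + s) - 40) / 40 =
              ((i : ℝ) + t + (J + s) - 30) / 40 := by push_cast; ring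
          rw [e1] at hc
          exact hc
        · intro G M L a b e X hX
          have x00 := hX i J (Or.inl rfl) (Or.inl rfl)
          have x10 : 0 < t → _ := fun h => hX (i + 1) J (Or.inr ⟨rfl, h⟩) (Or.inl rfl)
          have x01 : 0 < s → _ := fun h => hX i (J + 1) (Or.inl rfl) (Or.inr ⟨rfl, h⟩)
          unfold vx at x00 x10 x01
          rw [show i + 1 + J + 10 = i + J + 10 + 1 by ring] at x10
          rw [show i + (J + 1) + 10 = i + J + 10 + 1 by ring] at x01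
          simp only [Nat.cast_add, Nat.cast_one] at x10 x01
          have := triA (g0 := cu * (VxI G 0 a 0 (70 - i) - 8388608000) +
              Real.pi * 16384 * Qf ty i J a b + C.v i a e)
            (g1 := cu * (VxI G 0 a 0 (70 - (i + 1)) - 8388608000) +
              Real.pi * 16384 * Qf ty ((i : ℝ) + 1) J a b + C.v ((i : ℝ) + 1) a e)
            (v0 := VxI M L a b (i + J + 10)) (v1 := VxI M L a b (i + J + 10 + 1))
            (r := Real.pi * 16384 * (Qf ty i ((J : ℝ) + 1) a b - Qf ty i J a b))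
            (X0 := X J) (X1 := X (J + 1)) ht0 hs0 hts (by linarith [x00])
            (fun h => by linarith [x10 h]) (fun h => by linarith [x01 h])
          rw [hQ, hC]
          nlinarith [this]
      · have ht : t = 0 := by
          by_contra h
          have := hi1 (lt_of_le_of_ne ht0 (Ne.symm h))
          omega
        have hs : s = 0 := by
          by_contra h
          have := hJ1 (lt_of_le_of_ne hs0 (Ne.symm h))
          omega
        have hi30 : i = 30 := by omega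
        have hJ40 : J = 40 := by omega
        have hc := cl 79 1 (by norm_num) (by norm_num) le_rfl
        clear cl
        subst ht hs hi30 hJ40
        refine ⟨fun M L a b => VxI M L a b 80, ?_, ?_⟩
        · have e1 : (((79 : ℕ) : ℝ) + 1 - 40) / 40 =
              (((30 : ℕ) : ℝ) + 0 + (((40 : ℕ) : ℝ) + 0) - 30) / 40 := by push_cast; norm_num
          rw [e1] at hc
          refine hc.trans (le_of_eq ?_)
          simp only [sub_self, zero_mul, one_mul, zero_add]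
        · intro G M L a b e X hX
          have x00 := hX 30 40 (Or.inl rfl) (Or.inl rfl)
          unfold vx at x00
          simp only [sub_zero, one_mul, zero_mul, add_zero] at x00 ⊢
          exact le_trans (le_of_eq (by ring)) x00
    · push Not at hts
      have ht : 0 < t := by linarith
      have hs : 0 < s := by linarith
      have hi' := hi1 ht
      have hJ' := hJ1 hs
      refine ⟨fun M L a b => (2 - (t + s)) * VxI M L a b (i + J + 10 + 1) +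
          (t + s - 1) * VxI M L a b (i + J + 10 + 1 + 1), ?_, ?_⟩
      · have hc := cl (i + J + 10 + 1) (t + s - 1) (by omega) (by linarith) (by linarith)
        have e1 : (((i + J + 10 + 1 : ℕ) : ℝ) + (t + s - 1) - 40) / 40 =
            ((i : ℝ) + t + (J + s) - 30) / 40 := by push_cast; ring
        rw [e1, show 1 - (t + s - 1) = 2 - (t + s) by ring] at hc
        exact hc
      · intro G M L a b e X hX
        have x10 : 0 < t → _ := fun h => hX (i + 1) J (Or.inr ⟨rfl, h⟩) (Or.inl rfl)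
        have x01 : 0 < s → _ := fun h => hX i (J + 1) (Or.inl rfl) (Or.inr ⟨rfl, h⟩)
        have x11 : 0 < t → 0 < s → _ :=
          fun h h' => hX (i + 1) (J + 1) (Or.inr ⟨rfl, h⟩) (Or.inr ⟨rfl, h'⟩)
        unfold vx at x10 x01 x11
        rw [show i + 1 + J + 10 = i + J + 10 + 1 by ring] at x10
        rw [show i + (J + 1) + 10 = i + J + 10 + 1 by ring] at x01
        rw [show i + 1 + (J + 1) + 10 = i + J + 10 + 1 + 1 by ring] at x11
        simp only [Nat.cast_add, Nat.cast_one] at x10 x01 x11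
        rw [hQ1] at x11
        have := triB (g0 := cu * (VxI G 0 a 0 (70 - i) - 8388608000) +
            Real.pi * 16384 * Qf ty i J a b + C.v i a e)
          (g1 := cu * (VxI G 0 a 0 (70 - (i + 1)) - 8388608000) +
            Real.pi * 16384 * Qf ty ((i : ℝ) + 1) J a b + C.v ((i : ℝ) + 1) a e)
          (v1 := VxI M L a b (i + J + 10 + 1)) (v2 := VxI M L a b (i + J + 10 + 1 + 1))
          (r := Real.pi * 16384 * (Qf ty i ((J : ℝ) + 1) a b - Qf ty i J a b))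
          (X0 := X J) (X1 := X (J + 1)) ht0 ht1 hs0 hs1 hts
          (fun h => by linarith [x10 h]) (fun h => by linarith [x01 h])
          (fun h h' => by linarith [x11 h h'])
        rw [hQ, hC]
        nlinarith [this]
  clear cl
  have t00 := hT G0 (M0 + G0) (L0 + H0) a0 b0 e0 X0 (fun i' J' hi' hJ' => (hv i' J' hi' hJ').1)
  have t01 := hT G0 (M1 + G0) (L1 + H0) a0 b1 e0 X1 (fun i' J' hi' hJ' => (hv i' J' hi' hJ').2.1)
  have t10 := hT G1 (M0 + G1) (L0 + H1) a1 b0 e1 X0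
    (fun i' J' hi' hJ' => (hv i' J' hi' hJ').2.2.1)
  have t11 := hT G1 (M1 + G1) (L1 + H1) a1 b1 e1 X1
    (fun i' J' hi' hJ' => (hv i' J' hi' hJ').2.2.2)
  have hb := bl4_mono hp0 hp1 hq0 hq1 t00 t01 t10 t11
  have hP' := mul_le_mul_of_nonneg_left hP hcu
  clear hT t00 t01 t10 t11 hv hM hL hG hH hMM hLL
  unfold SR
  rw [Qf_bl, Cf_bl C _ _ _ _ _ p q]
  unfold bl4 at *
  nlinarith [hb, hP', hU]

theorem natAbs_sub {a : ℕ} (h : a ≤ 3840) : Int.natAbs ((a : ℤ) - 1920) ≤ 1920 := by omega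

/-- The two heights `a0`, `a1` have the losses `G0`, `H0` and `G1`, `H1`. -/
theorem slot_int {ty : Bool} {cu : ℝ} {C : Cf} {i J : ℕ} {t s p q : ℝ} {a0 a1 b0 b1 : ℕ}
    {G0 G1 H0 H1 M0 M1 L0 L1 : ℕ} {e0 e1 : ℝ} {X0 X1 : ℕ → ℝ} (hcu : 0 ≤ cu) (hi : i ≤ 30)
    (hi1 : 0 < t → i < 30) (hJ : J ≤ 40) (hJ1 : 0 < s → J < 40) (ht0 : 0 ≤ t) (ht1 : t ≤ 1)
    (hs0 : 0 ≤ s) (hs1 : s ≤ 1) (hp0 : 0 ≤ p) (hp1 : p ≤ 1) (hq0 : 0 ≤ q) (hq1 : q ≤ 1)
    (ha0 : a0 ≤ 3840) (ha1 : a1 ≤ 3840)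
    (hG : 4 * (p * (1 - p)) * (((a1 : ℝ) - a0) / 64) ^ 2 ≤ (1 - p) * G0 + p * G1)
    (hH : 4 * (p * (1 - p)) * (|(a1 : ℝ) - a0| / 64) ≤ (1 - p) * H0 + p * H1)
    (hg : Gap b0 b1 M0 M1 L0 L1)
    (hv : ∀ i' J' : ℕ, (i' = i ∨ (i' = i + 1 ∧ 0 < t)) → (J' = J ∨ (J' = J + 1 ∧ 0 < s)) →
      vx ty cu C G0 (M0 + G0) (L0 + H0) i' J' ((a0 : ℤ) - 1920) ((b0 : ℤ) - 1920) e0 ≤ X0 J' ∧
      vx ty cu C G0 (M1 + G0) (L1 + H0) i' J' ((a0 : ℤ) - 1920) ((b1 : ℤ) - 1920) e0 ≤ X1 J' ∧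
      vx ty cu C G1 (M0 + G1) (L0 + H1) i' J' ((a1 : ℤ) - 1920) ((b0 : ℤ) - 1920) e1 ≤ X0 J' ∧
      vx ty cu C G1 (M1 + G1) (L1 + H1) i' J' ((a1 : ℤ) - 1920) ((b1 : ℤ) - 1920) e1 ≤ X1 J') :
    SR ty cu C (i + t) (J + s) ((a0 : ℝ) - 1920 + p * ((a1 : ℝ) - a0))
      ((b0 : ℝ) - 1920 + q * ((b1 : ℝ) - b0)) (e0 + p * (e1 - e0)) ≤
      (1 - q) * ((1 - s) * X0 J + s * X0 (J + 1)) + q * ((1 - s) * X1 J + s * X1 (J + 1)) := by
  have c : ∀ x : ℕ, (((x : ℤ) - 1920 : ℤ) : ℝ) = (x : ℝ) - 1920 := fun x => by push_cast; ring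
  have h := slot_tied (ty := ty) (cu := cu) (C := C) (i := i) (J := J) (t := t) (s := s) (p := p)
    (q := q) (G0 := G0) (G1 := G1) (H0 := H0) (H1 := H1) (M0 := M0) (M1 := M1) (L0 := L0)
    (L1 := L1) (a0 := (a0 : ℤ) - 1920) (a1 := (a1 : ℤ) - 1920) (b0 := (b0 : ℤ) - 1920)
    (b1 := (b1 : ℤ) - 1920) (e0 := e0) (e1 := e1) (X0 := X0) (X1 := X1) hcu hi hi1 hJ hJ1 ht0 ht1
    hs0 hs1 hp0 hp1 hq0 hq1
    (by rw [c, c, show (a1 : ℝ) - 1920 - ((a0 : ℝ) - 1920) = a1 - a0 by ring]; exact hG)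
    (by rw [c, c, show (a1 : ℝ) - 1920 - ((a0 : ℝ) - 1920) = a1 - a0 by ring]; exact hH)
    (by rw [c, c, show (b1 : ℝ) - 1920 - ((b0 : ℝ) - 1920) = b1 - b0 by ring]; exact hg.M q hq0 hq1)
    (by rw [c, c, show (b1 : ℝ) - 1920 - ((b0 : ℝ) - 1920) = b1 - b0 by ring]; exact hg.L q hq0 hq1)
    (natAbs_sub ha0) (natAbs_sub ha1) (natAbs_sub hg.h0) (natAbs_sub hg.h1) hv
  rw [c, c, c, c, show (a1 : ℝ) - 1920 - ((a0 : ℝ) - 1920) = a1 - a0 by ring,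
    show (b1 : ℝ) - 1920 - ((b0 : ℝ) - 1920) = b1 - b0 by ring] at h
  exact h

end Pool.Agent.S5.G3
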