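import Pool.Agent.S5.K3.G7b

/-!
# The vectors of a slot: lanes
-/

set_option autoImplicit false

namespace Pool.Agent.S5.G3

open Pool.Agent.S5.Tb Pool.Agent.S5.K3

theorem RMP_Pk : Pk RMP (fun l => if l < 81 then l else 0) 81 where
  e := by decide +kernel
  b := fun l => by split_ifs <;> omega
  z := fun l hl => if_neg (by omega)

theorem RN_Pk : Pk RN (fun l => 40 - l) 41 where
  e := by decide +kernel
  b := fun l => by omega
  z := fun l hl => by omega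

theorem Pk.smul1 {v : ℕ} {f : ℕ → ℕ} {c : ℕ} (k : ℕ) (h : Pk v f c) :
    Pk (Nat.mul k v) (fun l => k * f l) (k * c + 1) where
  e := by
    change k * v = _
    rw [h.e, pk_smul]
  b := fun l => by
    have := Nat.mul_le_mul_left k (h.b l).le
    omega
  z := fun l hl => by rw [h.z l hl, mul_zero]

/-- The lanes of the row. -/
def Wl (ty : Bool) (a b M L l : ℕ) : ℕ :=
  lnI (ab a b) l + M * kp l + (L * li l + 51472 * sg ty a b * (if l < 81 then l else 0))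

/-- The lanes of the second part. -/
def SLl (ty : Bool) (a b J : ℕ) : ℕ :=
  51472 * ro ty a b * (40 - J) + (if J < 81 then 51472 * ka ty a b else 0)

theorem ab_le {a b : ℕ} (ha : a ≤ 3840) (hb : b ≤ 3840) : ab a b ≤ 3840 := by
  change (a + b - 3840) + (3840 - (a + b)) ≤ 3840
  omega

theorem sg_le (ty : Bool) {a b : ℕ} (ha : a ≤ 3840) : sg ty a b ≤ 11520 := by
  cases ty
  · change 9600 - b ≤ 11520
    omega
  · change 7680 + a - b ≤ 11520
    omega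

theorem ro_le (ty : Bool) {a b : ℕ} (ha : a ≤ 3840) : ro ty a b ≤ 15360 := by
  cases ty
  · change 7680 + a - b ≤ 15360
    omega
  · change 7680 + 2 * a - 2 * b ≤ 15360
    omega

theorem ka_le (ty : Bool) {a b : ℕ} (hb : b ≤ 3840) : ka ty a b ≤ 768000 := by
  cases ty
  · change 40 * (3840 + 2 * b - a) ≤ 768000
    omega
  · change 100 * (3840 + b - a) ≤ 768000
    omega

theorem Wv_Pk (ty : Bool) {a b M L : ℕ} (ha : a ≤ 3840) (hb : b ≤ 3840) (hM : M ≤ 1800) (hL : L ≤ 120) :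
    Pk (Wv ty a b M L) (Wl ty a b M L) 137438953472 := by
  have h1 := (rwI_Pk (ab_le ha hb)).add (kap_Pk.smul1 M)
  have h2 := (lin_Pk.smul1 L).add (RMP_Pk.smul1 (51472 * sg ty a b))
  have h3 := h1.add h2
  refine h3.mono ?_
  have := sg_le ty (b := b) ha
  omega

theorem SLv_Pk (ty : Bool) {a b : ℕ} (ha : a ≤ 3840) (hb : b ≤ 3840) :
    Pk (SLv ty a b) (SLl ty a b) 137438953472 := by
  have h1 := ka_le ty (a := a) hb
  have h2 := (RN_Pk.smul1 (51472 * ro ty a b)).add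
    (Pk.const (c := 51472 * ka ty a b) (d := 51472 * ka ty a b + 1) (by omega))
  refine h2.mono ?_
  have := ro_le ty (b := b) ha
  omega

theorem mkl_succ (f : ℕ → ℕ) (n i : ℕ) : mkl f (n + 1) i = f i :: mkl f n (i + 1) := rfl

theorem mkl_length (f : ℕ → ℕ) (n : ℕ) : ∀ i, (mkl f n i).length = n := by
  induction n with
  | zero => intro i; rfl
  | succ n ih =>
    intro i
    rw [mkl_succ, List.length_cons, ih]

theorem mkl_get (f : ℕ → ℕ) (n : ℕ) : ∀ (i q : ℕ) (hq : q < (mkl f n i).length),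
    (mkl f n i)[q] = f (i + q) := by
  induction n with
  | zero =>
    intro i q hq
    rw [mkl_length] at hq
    omega
  | succ n ih =>
    intro i q hq
    rcases Nat.eq_zero_or_pos q with h | h
    · subst h
      rfl
    · obtain ⟨k, rfl⟩ : ∃ k, q = k + 1 := ⟨q - 1, by omega⟩
      have h1 : k < (mkl f n (i + 1)).length := by
        rw [mkl_length] at hq ⊢
        omega
      have := ih (i + 1) k h1
      rw [show i + (k + 1) = i + 1 + k by ring, ← this]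
      rfl


theorem small_ok {l : List ℕ} (h : small l = true) : ∀ c ∈ l, c < 1099511627776 := by
  induction l with
  | nil => intro c hc; simp at hc
  | cons x l ih =>
    have h1 : cond (Nat.ble x 1099511627775) (small l) false = true := h
    obtain ⟨h2, h3⟩ := cond_t h1
    intro c hc
    rcases List.mem_cons.1 hc with h4 | h4
    · rw [h4]
      have := ble_t h2
      omega
    · exact ih h3 c h4

/-- The lanes `g` are at least the values at the position `i`. -/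
def LB (g : ℕ → ℕ) (ty : Bool) (b M L i a c : ℕ) : Prop :=
  ∀ J ≤ 40, c + Wl ty a b M L (i + J + 10) + SLl ty a b J ≤ g J

theorem LB.le {g g' : ℕ → ℕ} {ty : Bool} {b M L i a c : ℕ} (h : LB g ty b M L i a c)
    (hg : ∀ J, g J ≤ g' J) : LB g' ty b M L i a c := fun J hJ => (h J hJ).trans (hg J)

theorem LB.le_c {g : ℕ → ℕ} {ty : Bool} {b M L i a c c' : ℕ} (h : LB g ty b M L i a c)
    (hc : c' ≤ c) : LB g ty b M L i a c' := fun J hJ => by
  have := h J hJ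
  omega

theorem gv_ok {ty : Bool} {f : ℕ → ℕ} {n i0 a b M L : ℕ} (ha : a ≤ 3840) (hb : b ≤ 3840)
    (hM : M ≤ 1800) (hL : L ≤ 120) (hs : small (mkl f n i0) = true) :
    ∃ g, Pk (gv ty (mkl f n i0) i0 a b M L) g 2199023255552 ∧
      ∀ i, i0 ≤ i → i < i0 + n → LB g ty b M L i a (f i) := by
  have hW := (Wv_Pk ty ha hb hM hL).shift (by norm_num) (Nat.add i0 10)
  obtain ⟨g, hg, hg1⟩ := lpv_ok (C := 1099511627776) (D := 137438953472) (by norm_num) (by norm_num)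
    (by norm_num) (mkl f n i0) _ _ (small_ok hs) hW
  have hS := SLv_Pk ty ha hb
  refine ⟨fun l => g l + SLl ty a b l, (hg.add hS).mono (by norm_num), ?_⟩
  intro i h0 h1 J hJ
  have h2 := hg1 (i - i0) (by rw [mkl_length]; omega) J (by omega)
  rw [mkl_get, show i0 + (i - i0) = i by omega] at h2
  change f i + Wl ty a b M L (J + (i - i0) + (i0 + 10)) ≤ g J at h2
  rw [show J + (i - i0) + (i0 + 10) = i + J + 10 by omega] at h2
  change _ ≤ g J + SLl ty a b J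
  omega

theorem gs_ok {ty : Bool} {c i a b M L : ℕ} (ha : a ≤ 3840) (hb : b ≤ 3840)
    (hM : M ≤ 1800) (hL : L ≤ 120) (hs : c < 1099511627776) :
    ∃ g, Pk (gs ty c i a b M L) g 2199023255552 ∧ LB g ty b M L i a c := by
  have hW := (Wv_Pk ty ha hb hM hL).shift (by norm_num) (Nat.add i 10)
  have hS := SLv_Pk ty ha hb
  refine ⟨_, (((Pk.const hs).add hW).add hS).mono (by norm_num), ?_⟩
  intro J hJ
  change _ ≤ (if J < 81 then c else 0) + Wl ty a b M L (J + (i + 10)) + SLl ty a b J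
  rw [if_pos (by omega), show J + (i + 10) = i + J + 10 by omega]


/-! ### The lanes -/

theorem lane_eq {v : ℕ} {f : ℕ → ℕ} {c : ℕ} (h : Pk v f c) (hc : c ≤ 17592186044416) (l : ℕ) :
    lane v l = f l := by
  have h1 := (h.shift hc l).e
  change v >>> (44 * l) = pk (fun k => f (k + l)) (80 + 1) at h1
  change (v >>> (44 * l)) % 17592186044416 = f l
  rw [h1, pk_mod (f := fun k => f (k + l)) 80 (lt_of_lt_of_le (h.b _) hc), zero_add]

/-- The lanes are less than `2 ^ 41`. -/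
def VB (v : ℕ) : Prop := Pk v (lane v) 2199023255552

theorem VB_of {v : ℕ} {f : ℕ → ℕ} (h : Pk v f 2199023255552) : VB v := by
  have e : lane v = f := funext fun l => lane_eq h (by norm_num) l
  unfold VB
  rw [e]
  exact h

theorem VB_zero : VB 0 := VB_of
  { e := (pk_zero 81).symm
    b := fun _ => by norm_num
    z := fun _ _ => rfl }

theorem VB_vm {v w : ℕ} (h : VB v) (h' : VB w) : VB (vm v w) := VB_of (h.vm h' (by norm_num))

theorem lane_vm {v w : ℕ} (h : VB v) (h' : VB w) (J : ℕ) :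
    lane (vm v w) J = max (lane v J) (lane w J) :=
  lane_eq (h.vm h' (by norm_num)) (by norm_num) J

theorem lane_l {v w : ℕ} (h : VB v) (h' : VB w) (J : ℕ) : lane v J ≤ lane (vm v w) J := by
  rw [lane_vm h h']
  exact le_max_left _ _

theorem lane_r {v w : ℕ} (h : VB v) (h' : VB w) (J : ℕ) : lane w J ≤ lane (vm v w) J := by
  rw [lane_vm h h']
  exact le_max_right _ _

theorem GE_of {v : ℕ} {g : ℕ → ℕ} {ty : Bool} {b M L i a c : ℕ} (hv : Pk v g 2199023255552)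
    (hi : i ≤ 30) (h : LB g ty b M L i a c) : GE v ty b M L i a c := by
  intro J hJ
  have h1 := h J hJ
  rw [lane_eq hv (by norm_num) J]
  unfold Wl SLl at h1
  rw [if_pos (by omega), if_pos (by omega)] at h1
  exact h1

theorem GE_le {v w : ℕ} {ty : Bool} {b M L i a c : ℕ} (h : GE v ty b M L i a c)
    (hg : ∀ J, lane v J ≤ lane w J) : GE w ty b M L i a c := fun J hJ => (h J hJ).trans (hg J)

theorem GE_l {v w : ℕ} {ty : Bool} {b M L i a c : ℕ} (hv : VB v) (hw : VB w)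
    (h : GE v ty b M L i a c) : GE (vm v w) ty b M L i a c := GE_le h (lane_l hv hw)

theorem GE_r {v w : ℕ} {ty : Bool} {b M L i a c : ℕ} (hv : VB v) (hw : VB w)
    (h : GE w ty b M L i a c) : GE (vm v w) ty b M L i a c := GE_le h (lane_r hv hw)

theorem GE_c {v : ℕ} {ty : Bool} {b M L i a c c' : ℕ} (h : GE v ty b M L i a c) (hc : c' ≤ c) :
    GE v ty b M L i a c' := fun J hJ => by
  have := h J hJ
  omega

theorem gv_GE {ty : Bool} {f : ℕ → ℕ} {n i0 a b M L : ℕ} (ha : a ≤ 3840) (hb : b ≤ 3840)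
    (hM : M ≤ 1800) (hL : L ≤ 120) (hn : i0 + n ≤ 31) (hs : small (mkl f n i0) = true) :
    VB (gv ty (mkl f n i0) i0 a b M L) ∧
      ∀ i, i0 ≤ i → i < i0 + n → GE (gv ty (mkl f n i0) i0 a b M L) ty b M L i a (f i) := by
  obtain ⟨g, h1, h2⟩ := gv_ok (ty := ty) ha hb hM hL hs
  exact ⟨VB_of h1, fun i hi hi' => GE_of h1 (by omega) (h2 i hi hi')⟩

theorem gs_GE {ty : Bool} {c i a b M L : ℕ} (ha : a ≤ 3840) (hb : b ≤ 3840)
    (hM : M ≤ 1800) (hL : L ≤ 120) (hi : i ≤ 30) (hs : c < 1099511627776) :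
    VB (gs ty c i a b M L) ∧ GE (gs ty c i a b M L) ty b M L i a c := by
  obtain ⟨g, h1, h2⟩ := gs_ok (ty := ty) (i := i) ha hb hM hL hs
  exact ⟨VB_of h1, GE_of h1 hi h2⟩

theorem v2_GE {s : SD} {c0 c1 a b M L G H : ℕ} (ha : a ≤ 3840) (hb : b ≤ 3840)
    (hM : M + G ≤ 1800) (hL : L + H ≤ 120) (h0 : c0 < 1099511627776) (h1 : c1 < 1099511627776) :
    VB (v2 s c0 c1 a b M L G H) ∧ GE (v2 s c0 c1 a b M L G H) s.ty b (M + G) (L + H) 0 a c0 ∧
      GE (v2 s c0 c1 a b M L G H) s.ty b (M + G) (L + H) 30 a c1 := by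
  obtain ⟨a1, a2⟩ := gs_GE (ty := s.ty) (i := 0) (M := M + G) (L := L + H) ha hb hM hL
    (by norm_num) h0
  obtain ⟨b1, b2⟩ := gs_GE (ty := s.ty) (i := 30) (M := M + G) (L := L + H) ha hb hM hL
    (by norm_num) h1
  exact ⟨VB_vm a1 b1, GE_l a1 b1 a2, GE_r a1 b1 b2⟩

/-! ### The bounds -/

/-- The facts of `okS`. -/
structure SOK (s : SD) (py : Py) (J1 : ℕ) : Prop where
  f0 : small (mkl (fc s py (gM (s.e1 - s.e0)) s.e0) 31 0) = true
  f1 : small (mkl (fc s py (gM (s.e1 - s.e0)) s.e1) 31 0) = true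
  t1 : small (mkl (tc s py 3840 (Nat.ble 1920 s.e1) (Nat.ble s.e0 1920)) 31 0) = true
  t0 : small (mkl (tc s py 0 (Nat.ble s.e0 1920) (Nat.ble 1920 s.e1)) 31 0) = true
  re : small (mkl (fun i => bx2 s false py.re false i 1920 1920 0) 11 20) = true
  rz : small (mkl (fun i => bx2 s false py.rz false i 1920 1920 0) (31 - py.rzi) py.rzi) = true
  ow : small (mkl (fun i => bx2 s false py.ow false i 1920 1920 0) (J1 + 1) (30 - J1)) = true
  s0 : sv s py (Nat.ble s.e0 1920) (Nat.ble 1920 s.e1) 0 225 = true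
  s1 : sv s py (Nat.ble s.e0 1920) (Nat.ble 1920 s.e1) 960 900 = true
  s2 : sv s py (Nat.ble 1920 s.e1) (Nat.ble s.e0 1920) 2880 900 = true
  s3 : sv s py (Nat.ble 1920 s.e1) (Nat.ble s.e0 1920) 3840 225 = true
  s4 : sv s py true true 1920 (gM (gpl s.e0 s.e1)) = true
  l0 : sl s py 1920 (gM (gpl s.e0 s.e1)) = true
  l1 : sl s py (lv1 s.e0 s.e1) (gM (gpl s.e0 s.e1)) = true
  l2 : sl s py (lv2 s.e0 s.e1) (gM (gpl s.e0 s.e1)) = true
  e1 : s.e1 ≤ 3840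
  e01 : s.e0 < s.e1
  e15 : s.e1 ≤ s.e0 + 960
  st : 1920 ≤ s.e0 ∨ s.e1 ≤ 1920 ∨ (s.e1 ≤ 2880 ∧ 960 ≤ s.e0)

theorem cond_o8 {a b : Bool} (h : cond a true b = true) : a = true ∨ b = true := by
  cases a <;> cases b <;> simp_all

theorem okS_ok {s : SD} {py : Py} {J1 : ℕ} (h : okS s py J1 = true) : SOK s py J1 := by
  unfold okS at h
  obtain ⟨h1, h⟩ := cond_t h
  obtain ⟨h2, h⟩ := cond_t h
  obtain ⟨h3, h⟩ := cond_t h
  obtain ⟨h4, h⟩ := cond_t h
  obtain ⟨h5, h⟩ := cond_t h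
  obtain ⟨h6, h⟩ := cond_t h
  obtain ⟨h7, h⟩ := cond_t h
  obtain ⟨h8, h⟩ := cond_t h
  obtain ⟨h9, h⟩ := cond_t h
  obtain ⟨h10, h⟩ := cond_t h
  obtain ⟨h11, h⟩ := cond_t h
  obtain ⟨h12, h⟩ := cond_t h
  obtain ⟨h13, h⟩ := cond_t h
  obtain ⟨h14, h⟩ := cond_t h
  obtain ⟨h15, h⟩ := cond_t h
  obtain ⟨h16, h⟩ := cond_t h
  obtain ⟨h17, h⟩ := cond_t h
  obtain ⟨h18, h⟩ := cond_t h
  refine ⟨h1, h2, h3, h4, h5, h6, h7, h8, h9, h10, h11, h12, h13, h14, h15, ble_t h16, ble_t h17,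
    ble_t h18, ?_⟩
  rcases cond_o8 h with h19 | h19
  · exact Or.inl (ble_t h19)
  · rcases cond_o8 h19 with h20 | h20
    · exact Or.inr (Or.inl (ble_t h20))
    · obtain ⟨h21, h22⟩ := cond_t h20
      exact Or.inr (Or.inr ⟨ble_t h21, ble_t h22⟩)

theorem gM_le8 {d : ℕ} (h : d ≤ 960) : gM d ≤ 225 := by
  change (d * d + 4095) / 4096 ≤ 225
  have : d * d ≤ 960 * 960 := Nat.mul_le_mul h h
  omega

theorem gL_le8 {d : ℕ} (h : d ≤ 960) : gL d ≤ 15 := by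
  change (d + 63) / 64 ≤ 15
  omega

theorem lv_le {s : SD} {py : Py} {J1 : ℕ} (h : SOK s py J1) :
    lv1 s.e0 s.e1 ≤ 3840 ∧ lv2 s.e0 s.e1 ≤ 3840 ∧ gpl s.e0 s.e1 ≤ 960 := by
  have h1 := h.e1
  have h2 := h.e01
  have h3 := h.st
  have e1 : lv1 s.e0 s.e1 = cond (Nat.ble 1920 s.e0) ((s.e1 + 1921) / 2)
      (cond (Nat.ble s.e1 1920) ((s.e0 + 1920) / 2) s.e0) := rfl
  have e2 : lv2 s.e0 s.e1 = cond (Nat.ble 1920 s.e0) s.e1 (cond (Nat.ble s.e1 1920) s.e0 s.e1) :=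
    rfl
  have e3 : gpl s.e0 s.e1 = cond (Nat.ble 1920 s.e0) (lv1 s.e0 s.e1 - 1920)
      (cond (Nat.ble s.e1 1920) (1920 - lv1 s.e0 s.e1)
        (mx (1920 - s.e0) (s.e1 - 1920))) := rfl
  rcases Nat.lt_or_ge s.e0 1920 with a1 | a1
  · rw [ble_false a1] at e1 e2 e3
    rcases Nat.lt_or_ge 1920 s.e1 with a2 | a2
    · rw [ble_false a2] at e1 e2 e3
      simp only [cond_false] at e1 e2 e3
      have e4 : mx (1920 - s.e0) (s.e1 - 1920) ≤ 960 := by
        rw [mx_eq]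
        omega
      omega
    · rw [ble_true a2] at e1 e2 e3
      simp only [cond_false, cond_true] at e1 e2 e3
      omega
  · rw [ble_true a1] at e1 e2 e3
    simp only [cond_true] at e1 e2 e3
    omega

theorem sv_t {s : SD} {py : Py} {sm op : Bool} {a G : ℕ} (h : sv s py sm op a G = true) :
    vl s py a sm op G < 1099511627776 ∧ vr s py a sm op G < 1099511627776 := by
  obtain ⟨h1, h2⟩ := cond_t h
  have := ble_t h1
  have := ble_t h2
  omega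

theorem sl_t {s : SD} {py : Py} {a G : ℕ} (h : sl s py a G = true) :
    ll s py a G < 1099511627776 ∧ lr s py a G < 1099511627776 := by
  obtain ⟨h1, h2⟩ := cond_t h
  have := ble_t h1
  have := ble_t h2
  omega

/-! ### The vectors -/

theorem L_aF {s : SD} {py : Py} {J1 b M L : ℕ} (hk : okS s py J1 = true) (hb : b ≤ 3840)
    (hM : M ≤ 900) (hL : L ≤ 60) :
    Pk (aF s py b M L) (lane (aF s py b M L)) 2199023255552 ∧
    ∀ i ≤ 30, GE (aF s py b M L) s.ty b (M + gM (s.e1 - s.e0)) (L + gL (s.e1 - s.e0)) i s.e0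
        (fc s py (gM (s.e1 - s.e0)) s.e0 i) ∧
      GE (aF s py b M L) s.ty b (M + gM (s.e1 - s.e0)) (L + gL (s.e1 - s.e0)) i s.e1
        (fc s py (gM (s.e1 - s.e0)) s.e1 i) := by
  have h := okS_ok hk
  have h1 := h.e1
  have h2 := h.e01
  have h3 := h.e15
  have g1 := gM_le8 (d := s.e1 - s.e0) (by omega)
  have g2 := gL_le8 (d := s.e1 - s.e0) (by omega)
  obtain ⟨a1, a2⟩ := gv_GE (ty := s.ty) (a := s.e0) (b := b) (M := M + gM (s.e1 - s.e0))
    (L := L + gL (s.e1 - s.e0)) (by omega) hb (by omega) (by omega) (by norm_num) h.f0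
  obtain ⟨b1, b2⟩ := gv_GE (ty := s.ty) (a := s.e1) (b := b) (M := M + gM (s.e1 - s.e0))
    (L := L + gL (s.e1 - s.e0)) (by omega) hb (by omega) (by omega) (by norm_num) h.f1
  exact ⟨VB_vm a1 b1, fun i hi => ⟨GE_l a1 b1 (a2 i (Nat.zero_le _) (by omega)),
    GE_r a1 b1 (b2 i (Nat.zero_le _) (by omega))⟩⟩

theorem aV_GE {s : SD} {py : Py} {J1 b M L : ℕ} (h : SOK s py J1) (hb : b ≤ 3840)
    (hM : M ≤ 900) (hL : L ≤ 60) {v : ℕ}
    (hv : v = aV s py b M L (gM (gpl s.e0 s.e1)) (gL (gpl s.e0 s.e1))) :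
    VB v ∧
    (GE v s.ty b (M + 225) (L + 15) 0 0 (vl s py 0 (Nat.ble s.e0 1920) (Nat.ble 1920 s.e1) 225) ∧
      GE v s.ty b (M + 225) (L + 15) 30 0
        (vr s py 0 (Nat.ble s.e0 1920) (Nat.ble 1920 s.e1) 225) ∧
      GE v s.ty b (M + 900) (L + 60) 0 960
        (vl s py 960 (Nat.ble s.e0 1920) (Nat.ble 1920 s.e1) 900) ∧
      GE v s.ty b (M + 900) (L + 60) 30 960
        (vr s py 960 (Nat.ble s.e0 1920) (Nat.ble 1920 s.e1) 900) ∧
      GE v s.ty b (M + 900) (L + 60) 0 2880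
        (vl s py 2880 (Nat.ble 1920 s.e1) (Nat.ble s.e0 1920) 900) ∧
      GE v s.ty b (M + 900) (L + 60) 30 2880
        (vr s py 2880 (Nat.ble 1920 s.e1) (Nat.ble s.e0 1920) 900) ∧
      GE v s.ty b (M + 225) (L + 15) 0 3840
        (vl s py 3840 (Nat.ble 1920 s.e1) (Nat.ble s.e0 1920) 225) ∧
      GE v s.ty b (M + 225) (L + 15) 30 3840
        (vr s py 3840 (Nat.ble 1920 s.e1) (Nat.ble s.e0 1920) 225)) ∧
    (GE v s.ty b (M + gM (gpl s.e0 s.e1)) (L + gL (gpl s.e0 s.e1)) 0 1920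
        (vl s py 1920 true true (gM (gpl s.e0 s.e1))) ∧
      GE v s.ty b (M + gM (gpl s.e0 s.e1)) (L + gL (gpl s.e0 s.e1)) 30 1920
        (vr s py 1920 true true (gM (gpl s.e0 s.e1)))) ∧
    (∀ a, a = 1920 ∨ a = lv1 s.e0 s.e1 ∨ a = lv2 s.e0 s.e1 →
      GE v s.ty b (M + gM (gpl s.e0 s.e1)) (L + gL (gpl s.e0 s.e1)) 0 a
        (ll s py a (gM (gpl s.e0 s.e1))) ∧
      GE v s.ty b (M + gM (gpl s.e0 s.e1)) (L + gL (gpl s.e0 s.e1)) 30 a
        (lr s py a (gM (gpl s.e0 s.e1)))) := by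
  obtain ⟨k1, k2, k3⟩ := lv_le h
  have g1 := gM_le8 k3
  have g2 := gL_le8 k3
  obtain ⟨s0l, s0r⟩ := sv_t h.s0
  obtain ⟨s1l, s1r⟩ := sv_t h.s1
  obtain ⟨s2l, s2r⟩ := sv_t h.s2
  obtain ⟨s3l, s3r⟩ := sv_t h.s3
  obtain ⟨s4l, s4r⟩ := sv_t h.s4
  obtain ⟨l0l, l0r⟩ := sl_t h.l0
  obtain ⟨l1l, l1r⟩ := sl_t h.l1
  obtain ⟨l2l, l2r⟩ := sl_t h.l2
  have m1 : mx (vl s py 1920 true true (gM (gpl s.e0 s.e1))) (ll s py 1920 (gM (gpl s.e0 s.e1))) <
      1099511627776 := by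
    rw [mx_eq]
    exact max_lt s4l l0l
  have m2 : mx (vr s py 1920 true true (gM (gpl s.e0 s.e1))) (lr s py 1920 (gM (gpl s.e0 s.e1))) <
      1099511627776 := by
    rw [mx_eq]
    exact max_lt s4r l0r
  obtain ⟨a1, a2, a3⟩ := v2_GE (s := s) (a := 0) (b := b) (M := M) (L := L) (G := 225) (H := 15)
    (by norm_num) hb (by omega) (by omega) s0l s0r
  obtain ⟨b1, b2, b3⟩ := v2_GE (s := s) (a := 960) (b := b) (M := M) (L := L) (G := 900) (H := 60)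
    (by norm_num) hb (by omega) (by omega) s1l s1r
  obtain ⟨c1, c2, c3⟩ := v2_GE (s := s) (a := 2880) (b := b) (M := M) (L := L) (G := 900)
    (H := 60) (by norm_num) hb (by omega) (by omega) s2l s2r
  obtain ⟨d1, d2, d3⟩ := v2_GE (s := s) (a := 3840) (b := b) (M := M) (L := L) (G := 225)
    (H := 15) (by norm_num) hb (by omega) (by omega) s3l s3r
  obtain ⟨p1, p2, p3⟩ := v2_GE (s := s) (a := 1920) (b := b) (M := M) (L := L)
    (G := gM (gpl s.e0 s.e1)) (H := gL (gpl s.e0 s.e1)) (by norm_num) hb (by omega) (by omega)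
    m1 m2
  obtain ⟨q1, q2, q3⟩ := v2_GE (s := s) (a := lv1 s.e0 s.e1) (b := b) (M := M) (L := L)
    (G := gM (gpl s.e0 s.e1)) (H := gL (gpl s.e0 s.e1)) k1 hb (by omega) (by omega) l1l l1r
  obtain ⟨r1, r2, r3⟩ := v2_GE (s := s) (a := lv2 s.e0 s.e1) (b := b) (M := M) (L := L)
    (G := gM (gpl s.e0 s.e1)) (H := gL (gpl s.e0 s.e1)) k2 hb (by omega) (by omega) l2l l2r
  have x1 := VB_vm a1 b1
  have x2 := VB_vm c1 d1
  have x3 := VB_vm x1 x2
  have y1 := VB_vm q1 r1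
  have y2 := VB_vm p1 y1
  have e : v = _ := hv
  rw [show aV s py b M L (gM (gpl s.e0 s.e1)) (gL (gpl s.e0 s.e1)) = vm (vm (vm _ _) (vm _ _))
    (vm _ (vm _ _)) from rfl] at e
  subst e
  refine ⟨VB_vm x3 y2, ⟨GE_l x3 y2 (GE_l x1 x2 (GE_l a1 b1 a2)),
    GE_l x3 y2 (GE_l x1 x2 (GE_l a1 b1 a3)), GE_l x3 y2 (GE_l x1 x2 (GE_r a1 b1 b2)),
    GE_l x3 y2 (GE_l x1 x2 (GE_r a1 b1 b3)), GE_l x3 y2 (GE_r x1 x2 (GE_l c1 d1 c2)),
    GE_l x3 y2 (GE_r x1 x2 (GE_l c1 d1 c3)), GE_l x3 y2 (GE_r x1 x2 (GE_r c1 d1 d2)),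
    GE_l x3 y2 (GE_r x1 x2 (GE_r c1 d1 d3))⟩,
    ⟨GE_c (GE_r x3 y2 (GE_l p1 y1 p2)) ?_, GE_c (GE_r x3 y2 (GE_l p1 y1 p3)) ?_⟩, ?_⟩
  · rw [mx_eq]
    exact le_max_left _ _
  · rw [mx_eq]
    exact le_max_left _ _
  · rintro a (rfl | rfl | rfl)
    · refine ⟨GE_c (GE_r x3 y2 (GE_l p1 y1 p2)) ?_, GE_c (GE_r x3 y2 (GE_l p1 y1 p3)) ?_⟩
      · rw [mx_eq]
        exact le_max_right _ _
      · rw [mx_eq]
        exact le_max_right _ _
    · exact ⟨GE_r x3 y2 (GE_r p1 y1 (GE_l q1 r1 q2)), GE_r x3 y2 (GE_r p1 y1 (GE_l q1 r1 q3))⟩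
    · exact ⟨GE_r x3 y2 (GE_r p1 y1 (GE_r q1 r1 r2)), GE_r x3 y2 (GE_r p1 y1 (GE_r q1 r1 r3))⟩

theorem VB_cond {c : Bool} {v : ℕ} (hv : VB v) : VB (cond c v 0) := by
  cases c
  · rw [cond_false]
    exact VB_zero
  · rw [cond_true]
    exact hv

theorem GE_cond {c : Bool} {v : ℕ} {ty : Bool} {b M L i a x : ℕ} (hc : c = true)
    (h : GE v ty b M L i a x) : GE (cond c v 0) ty b M L i a x := by
  rw [hc, cond_true]
  exact h

theorem X_GE {ty : Bool} {f : ℕ → ℕ} {n i0 b M L : ℕ} (hb : b ≤ 3840)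
    (hM : M ≤ 900) (hL : L ≤ 60) (hs : small (mkl f n i0) = true) (hn : i0 + n ≤ 31) {v : ℕ}
    (hv : v = gv ty (mkl f n i0) i0 1920 b M L) :
    VB v ∧ ∀ i, i0 ≤ i → i < i0 + n → GE v ty b M L i 1920 (f i) := by
  rw [hv]
  exact gv_GE (by norm_num) hb (by omega) (by omega) hn hs

/-- The case of an empty list. -/
theorem X_GE' {ty : Bool} {f : ℕ → ℕ} {n i0 b M L : ℕ} (hb : b ≤ 3840)
    (hM : M ≤ 900) (hL : L ≤ 60) (hs : small (mkl f n i0) = true) (hn : n = 31 - i0) {v : ℕ}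
    (hv : v = gv ty (mkl f n i0) i0 1920 b M L) :
    VB v ∧ ∀ i, i0 ≤ i → i ≤ 30 → GE v ty b M L i 1920 (f i) := by
  rcases Nat.lt_or_ge 31 i0 with h0 | h0
  · obtain ⟨g, h1, -⟩ := gv_ok (ty := ty) (a := 1920) (b := b) (M := M) (L := L) (by norm_num) hb
      (by omega) (by omega) hs
    rw [hv]
    exact ⟨VB_of h1, fun i h2 h3 => by omega⟩
  · obtain ⟨h1, h2⟩ := X_GE (ty := ty) hb hM hL hs (by omega) hv
    exact ⟨h1, fun i h3 h4 => h2 i h3 (by omega)⟩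

theorem L_aN {s : SD} {py : Py} {J1 b M L : ℕ} (hk : okS s py J1 = true) (hb : b ≤ 3840)
    (hM : M ≤ 900) (hL : L ≤ 60) :
    Pk (aN s py b M L) (lane (aN s py b M L)) 2199023255552 ∧
    (∀ i ≤ 30, GE (aN s py b M L) s.ty b M L i 3840
        (tc s py 3840 (Nat.ble 1920 s.e1) (Nat.ble s.e0 1920) i) ∧
      GE (aN s py b M L) s.ty b M L i 0
        (tc s py 0 (Nat.ble s.e0 1920) (Nat.ble 1920 s.e1) i)) ∧
    (GE (aN s py b M L) s.ty b (M + 225) (L + 15) 0 0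
        (vl s py 0 (Nat.ble s.e0 1920) (Nat.ble 1920 s.e1) 225) ∧
      GE (aN s py b M L) s.ty b (M + 225) (L + 15) 30 0
        (vr s py 0 (Nat.ble s.e0 1920) (Nat.ble 1920 s.e1) 225) ∧
      GE (aN s py b M L) s.ty b (M + 900) (L + 60) 0 960
        (vl s py 960 (Nat.ble s.e0 1920) (Nat.ble 1920 s.e1) 900) ∧
      GE (aN s py b M L) s.ty b (M + 900) (L + 60) 30 960
        (vr s py 960 (Nat.ble s.e0 1920) (Nat.ble 1920 s.e1) 900) ∧
      GE (aN s py b M L) s.ty b (M + 900) (L + 60) 0 2880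
        (vl s py 2880 (Nat.ble 1920 s.e1) (Nat.ble s.e0 1920) 900) ∧
      GE (aN s py b M L) s.ty b (M + 900) (L + 60) 30 2880
        (vr s py 2880 (Nat.ble 1920 s.e1) (Nat.ble s.e0 1920) 900) ∧
      GE (aN s py b M L) s.ty b (M + 225) (L + 15) 0 3840
        (vl s py 3840 (Nat.ble 1920 s.e1) (Nat.ble s.e0 1920) 225) ∧
      GE (aN s py b M L) s.ty b (M + 225) (L + 15) 30 3840
        (vr s py 3840 (Nat.ble 1920 s.e1) (Nat.ble s.e0 1920) 225)) ∧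
    (GE (aN s py b M L) s.ty b (M + gM (gpl s.e0 s.e1)) (L + gL (gpl s.e0 s.e1)) 0 1920
        (vl s py 1920 true true (gM (gpl s.e0 s.e1))) ∧
      GE (aN s py b M L) s.ty b (M + gM (gpl s.e0 s.e1)) (L + gL (gpl s.e0 s.e1)) 30 1920
        (vr s py 1920 true true (gM (gpl s.e0 s.e1)))) ∧
    (∀ a, a = 1920 ∨ a = lv1 s.e0 s.e1 ∨ a = lv2 s.e0 s.e1 →
      GE (aN s py b M L) s.ty b (M + gM (gpl s.e0 s.e1)) (L + gL (gpl s.e0 s.e1)) 0 a
        (ll s py a (gM (gpl s.e0 s.e1))) ∧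
      GE (aN s py b M L) s.ty b (M + gM (gpl s.e0 s.e1)) (L + gL (gpl s.e0 s.e1)) 30 a
        (lr s py a (gM (gpl s.e0 s.e1)))) ∧
    (py.reB = true → ∀ i, 20 ≤ i → i ≤ 30 → GE (aN s py b M L) s.ty b M L i 1920
      (bx2 s false py.re false i 1920 1920 0)) ∧
    (py.rzB = true → ∀ i, py.rzi ≤ i → i ≤ 30 → GE (aN s py b M L) s.ty b M L i 1920
      (bx2 s false py.rz false i 1920 1920 0)) := by
  have h := okS_ok hk
  obtain ⟨V, hV⟩ : ∃ V, V = aV s py b M L (gM (gpl s.e0 s.e1)) (gL (gpl s.e0 s.e1)) := ⟨_, rfl⟩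
  obtain ⟨v0, ⟨v1, v2, v3, v4, v5, v6, v7, v8⟩, ⟨v9, v10⟩, v11⟩ := aV_GE h hb hM hL hV
  obtain ⟨a1, a2⟩ := gv_GE (ty := s.ty) (a := 3840) (b := b) (M := M)
    (L := L) (by norm_num) hb (by omega) (by omega) (by norm_num) h.t1
  obtain ⟨b1, b2⟩ := gv_GE (ty := s.ty) (a := 0) (b := b) (M := M)
    (L := L) (by norm_num) hb (by omega) (by omega) (by norm_num) h.t0
  obtain ⟨T, hT⟩ : ∃ T, T = aT s py b M L := ⟨_, rfl⟩
  have t0 : VB T := by
    rw [hT]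
    exact VB_vm a1 b1
  have t1 : ∀ i ≤ 30, GE T s.ty b M L i 3840
        (tc s py 3840 (Nat.ble 1920 s.e1) (Nat.ble s.e0 1920) i) ∧
      GE T s.ty b M L i 0 (tc s py 0 (Nat.ble s.e0 1920) (Nat.ble 1920 s.e1) i) := by
    intro i hi
    rw [hT]
    exact ⟨GE_l a1 b1 (a2 i (Nat.zero_le _) (by omega)),
      GE_r a1 b1 (b2 i (Nat.zero_le _) (by omega))⟩
  clear a1 a2 b1 b2
  obtain ⟨X, hX⟩ : ∃ X, X = aX s py b M L := ⟨_, rfl⟩
  have x : VB X ∧ (py.reB = true → ∀ i, 20 ≤ i → i ≤ 30 → GE X s.ty b M L i 1920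
      (bx2 s false py.re false i 1920 1920 0)) ∧
    (py.rzB = true → ∀ i, py.rzi ≤ i → i ≤ 30 → GE X s.ty b M L i 1920
      (bx2 s false py.rz false i 1920 1920 0)) := by
    obtain ⟨A, hA⟩ : ∃ A, A = gv s.ty (mkl (fun i => bx2 s false py.re false i 1920 1920 0) 11 20)
      20 1920 b M L := ⟨_, rfl⟩
    obtain ⟨B, hB⟩ : ∃ B, B = gv s.ty (mkl (fun i => bx2 s false py.rz false i 1920 1920 0)
      (31 - py.rzi) py.rzi) py.rzi 1920 b M L := ⟨_, rfl⟩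
    obtain ⟨c1, c2⟩ := X_GE hb hM hL h.re (by norm_num) hA
    obtain ⟨d1, d2⟩ := X_GE' hb hM hL h.rz rfl hB
    have e : aX s py b M L = vm (cond py.reB A 0) (cond py.rzB B 0) := by
      rw [hA, hB]
      rfl
    rw [hX, e]
    have c3 := VB_cond (c := py.reB) c1
    have d3 := VB_cond (c := py.rzB) d1
    exact ⟨VB_vm c3 d3, fun hc i h1 h2 => GE_l c3 d3 (GE_cond hc (c2 i h1 (by omega))),
      fun hc i h1 h2 => GE_r c3 d3 (GE_cond hc (d2 i h1 h2))⟩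
  obtain ⟨x0, x1, x2⟩ := x
  have e : aN s py b M L = vm (vm T V) X := by rw [hT, hV, hX]; rfl
  rw [e]
  clear e hT hV hX
  have w0 := VB_vm t0 v0
  refine ⟨VB_vm w0 x0, fun i hi => ⟨GE_l w0 x0 (GE_l t0 v0 (t1 i hi).1),
    GE_l w0 x0 (GE_l t0 v0 (t1 i hi).2)⟩, ⟨GE_l w0 x0 (GE_r t0 v0 v1), GE_l w0 x0 (GE_r t0 v0 v2),
    GE_l w0 x0 (GE_r t0 v0 v3), GE_l w0 x0 (GE_r t0 v0 v4), GE_l w0 x0 (GE_r t0 v0 v5),
    GE_l w0 x0 (GE_r t0 v0 v6), GE_l w0 x0 (GE_r t0 v0 v7), GE_l w0 x0 (GE_r t0 v0 v8)⟩,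
    ⟨GE_l w0 x0 (GE_r t0 v0 v9), GE_l w0 x0 (GE_r t0 v0 v10)⟩,
    fun a ha => ⟨GE_l w0 x0 (GE_r t0 v0 (v11 a ha).1), GE_l w0 x0 (GE_r t0 v0 (v11 a ha).2)⟩,
    fun hc i h1 h2 => GE_r w0 x0 (x1 hc i h1 h2), fun hc i h1 h2 => GE_r w0 x0 (x2 hc i h1 h2)⟩

theorem L_aO {s : SD} {py : Py} {J1 b M L : ℕ} (hk : okS s py J1 = true) (hJ : J1 ≤ 5)
    (hb : b ≤ 3840) (hM : M ≤ 900) (hL : L ≤ 60) :
    Pk (aO s py J1 b M L) (lane (aO s py J1 b M L)) 2199023255552 ∧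
    ∀ i, 30 - J1 ≤ i → i ≤ 30 → GE (aO s py J1 b M L) s.ty b M L i 1920
      (bx2 s false py.ow false i 1920 1920 0) := by
  have h := okS_ok hk
  obtain ⟨a1, a2⟩ := gv_GE (ty := s.ty) (a := 1920) (b := b) (M := M)
    (L := L) (by norm_num) hb (by omega) (by omega) (by omega) h.ow
  exact ⟨a1, fun i h1 h2 => a2 i h1 (by omega)⟩

theorem L_aA {s : SD} {py : Py} {J1 b M L : ℕ} (hk : okS s py J1 = true) (hb : b ≤ 3840)
    (hM : M ≤ 900) (hL : L ≤ 60) :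
    Pk (aA s py b M L) (lane (aA s py b M L)) 2199023255552 ∧
    ∀ J, lane (aF s py b M L) J ≤ lane (aA s py b M L) J ∧
      lane (aN s py b M L) J ≤ lane (aA s py b M L) J := by
  obtain ⟨a1, -⟩ := L_aF hk hb hM hL
  obtain ⟨b1, -⟩ := L_aN hk hb hM hL
  exact ⟨VB_vm a1 b1, fun J => ⟨lane_l a1 b1 J, lane_r a1 b1 J⟩⟩

/-- The `z` lanes and the reversal. -/
theorem L_zv {g M L c : ℕ} (hg : g ≤ 3840) (hM : M ≤ 900) (hL : L ≤ 60)
    (hc : c < 1099511627776) : Pk (zv g M L c) (lane (zv g M L c)) 2199023255552 ∧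
    ∀ J ≤ 40, lane (zv g M L c) J =
      lnI (ab g 1920) (J + 40) + M * kp (J + 40) + L * li (J + 40) + c := by
  have h1 := ((rwI_Pk (ab_le hg (by norm_num : 1920 ≤ 3840))).add (kap_Pk.smul1 M)).add
    (lin_Pk.smul1 L)
  have h2 := (h1.mono (d := 1099511627776) (by omega)).shift (by norm_num) 40
  have h3 := (h2.add (Pk.const hc)).mono (d := 2199023255552) (by norm_num)
  have e : Nat.add (Nat.shiftRight (Nat.add (Nat.add (rwI (ab g 1920)) (Nat.mul M KAP))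
      (Nat.mul L LIN)) (Nat.mul 44 40)) (Nat.mul c ON) = zv g M L c := rfl
  rw [e] at h3
  refine ⟨VB_of h3, fun J hJ => ?_⟩
  rw [lane_eq h3 (by norm_num) J]
  show lnI (ab g 1920) (J + 40) + M * kp (J + 40) + L * li (J + 40) + (if J < 81 then c else 0) = _
  rw [if_pos (by omega)]

theorem L_rev {v : ℕ} (h : Pk v (lane v) 2199023255552) :
    Pk (rev v) (lane (rev v)) 2199023255552 ∧ ∀ J ≤ 40, lane (rev v) J = lane v (40 - J) := by
  have h1 := h.rev (by norm_num) (by norm_num)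
  refine ⟨VB_of h1, fun J hJ => ?_⟩
  rw [lane_eq h1 (by norm_num) J, if_pos (by omega)]

theorem L_tz {x y z : ℕ} {P : ℕ → Bool} {m : ℕ} (hx : Pk x (lane x) 2199023255552)
    (hy : Pk y (lane y) 2199023255552) (hz : Pk z (lane z) 2199023255552)
    (hm : m = pk (fun l => if P l then 8796093022208 else 0) 81)
    (h : tz KK m (Nat.add (Nat.add x y) z) = true) :
    ∀ J ≤ 80, P J = true → lane x J + lane y J + lane z J < KK := by
  intro J hJ hP
  have h1 := (hx.add hy).add hz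
  exact tz_ok h1 (by norm_num) (by norm_num [KK]) (by norm_num [KK]) hm h (l := J) (by omega) hP

end Pool.Agent.S5.G3
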