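import Pool.Agent.S5.K3.G7

/-!
# The values of a slot at the vertices
-/

set_option autoImplicit false

namespace Pool.Agent.S5.G3

open Pool.Agent.S5.Tb Pool.Agent.S5.K3

theorem nsub9 {p n : ℕ} (h : n ≤ p) : ((Nat.sub p n : ℕ) : ℝ) = p - n := Nat.cast_sub h

theorem nsub9' {p n : ℕ} (h : n ≤ p) : ((Nat.sub n p : ℕ) : ℝ) = 0 := by
  have : Nat.sub n p = 0 := Nat.sub_eq_zero_of_le h
  rw [this]
  exact Nat.cast_zero

theorem mp9 {lo hi p n : ℕ} {x P N : ℝ} (h0 : (lo : ℝ) - 67108864 ≤ 1048576 * x)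
    (h1 : 1048576 * x ≤ (hi : ℝ) - 67108864) (hP : (p : ℝ) = P) (hN : (n : ℝ) = N) :
    1048576 * (x * (P - N)) ≤ ((mpp hi p n : ℕ) : ℝ) - ((mpn lo p n : ℕ) : ℝ) := by
  have e1 : ((mpp hi p n : ℕ) : ℝ) = hi * ((Nat.sub p n : ℕ) : ℝ) +
      67108864 * ((Nat.sub n p : ℕ) : ℝ) := by
    unfold mpp
    rw [natadd, natmul, natmul, nattwo]
  have e2 : ((mpn lo p n : ℕ) : ℝ) = 67108864 * ((Nat.sub p n : ℕ) : ℝ) +
      lo * ((Nat.sub n p : ℕ) : ℝ) := by
    unfold mpn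
    rw [natadd, natmul, natmul, nattwo]
  rw [e1, e2, ← hP, ← hN]
  rcases le_total n p with h | h
  · rw [nsub9 h, nsub9' h]
    have h2 : (0 : ℝ) ≤ (p : ℝ) - n := by
      have : (n : ℝ) ≤ p := by exact_mod_cast h
      linarith
    have := mul_le_mul_of_nonneg_right h1 h2
    linarith
  · rw [nsub9 h, nsub9' h]
    have h2 : (0 : ℝ) ≤ (n : ℝ) - p := by
      have : (p : ℝ) ≤ n := by exact_mod_cast h
      linarith
    have := mul_le_mul_of_nonneg_right h0 h2
    linarith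

theorem div8g (X : ℕ) : (5 : ℝ) * X / 8 ≤ ((Nat.div (Nat.add (Nat.mul 5 X) 7) 8 : ℕ) : ℝ) := by
  have h : 5 * X ≤ 8 * Nat.div (Nat.add (Nat.mul 5 X) 7) 8 := by
    change 5 * X ≤ 8 * ((5 * X + 7) / 8)
    omega
  have h1 : ((5 * X : ℕ) : ℝ) ≤ ((8 * Nat.div (Nat.add (Nat.mul 5 X) 7) 8 : ℕ) : ℝ) := by
    exact_mod_cast h
  push_cast at h1
  linarith

theorem div8l (X : ℕ) : ((Nat.div (Nat.mul 5 X) 8 : ℕ) : ℝ) ≤ (5 : ℝ) * X / 8 := by
  have h : 8 * Nat.div (Nat.mul 5 X) 8 ≤ 5 * X := by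
    change 8 * (5 * X / 8) ≤ 5 * X
    omega
  have h1 : ((8 * Nat.div (Nat.mul 5 X) 8 : ℕ) : ℝ) ≤ ((5 * X : ℕ) : ℝ) := by
    exact_mod_cast h
  push_cast at h1
  linarith

theorem d1 : ((137438953472 : ℕ) : ℝ) = 137438953472 := by norm_num

theorem d2 : ((83886080 : ℕ) : ℝ) = 83886080 := by norm_num

theorem d3 : ((40 : ℕ) : ℝ) = 40 := by norm_num

theorem d4 : ((395304960 : ℕ) : ℝ) = 395304960 := by norm_num

/-- The loss of the box, as in the program. -/
noncomputable def bxR (bx : Bool) (a : ℕ) : ℝ := cond bx (2058874 * (ab a 1920 : ℝ)) 0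

/-- The value, full share. -/
theorem cs_false9 {s : SD} {r : Sr} {fl : Bool} (h : SDok s r fl) (pay : ℕ) (bx : Bool)
    (i a e hat M : ℕ) :
    137438953472 + 83886080 * (pay : ℝ) +
      41943040 * (r.lam.re * (((s.bt : ℝ) + 50) - 5 * i)) +
      655360 * (r.lam.im * ((hat : ℝ) - e) + r.D * ((e : ℝ) - s.be)) +
      s.cu * (pv a i M : ℝ) - 395304960 * i - bxR bx a ≤
        ((cs s false pay bx i a e hat M : ℕ) : ℝ) := by
  have h1 := mp9 (p := Nat.add s.bt 50) (n := Nat.mul 5 i) h.lr0 h.lr1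
    (P := (s.bt : ℝ) + 50) (N := 5 * (i : ℝ)) (by rw [natadd, nattwo]) (by rw [natmul, nattwo])
  have h2 := mp9 (p := hat) (n := e) h.li0 h.li1 rfl rfl
  have h3 := mp9 (p := e) (n := s.be) h.d0 h.d1 rfl rfl
  have g1 := div8g (Nat.add (mpp s.li1 hat e) (mpp s.d1 e s.be))
  have g2 := div8l (Nat.add (mpn s.li0 hat e) (mpn s.d0 e s.be))
  rw [natadd] at g1 g2
  unfold cs
  refine le_trans ?_ (natsub_ge _ _)
  rw [cond_false, cond_false]
  have hb : ((cond bx (Nat.mul 2058874 (ab a 1920)) 0 : ℕ) : ℝ) = bxR bx a := by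
    unfold bxR
    cases bx
    · simp only [cond_false, Nat.cast_zero]
    · simp only [cond_true]
      rw [natmul, nattwo]
  generalize hX : Nat.div (Nat.add (Nat.mul 5 (Nat.add (mpp s.li1 hat e) (mpp s.d1 e s.be))) 7) 8 =
    X at g1 ⊢
  generalize hY : Nat.div (Nat.mul 5 (Nat.add (mpn s.li0 hat e) (mpn s.d0 e s.be))) 8 = Y at g2 ⊢
  generalize cond bx (Nat.mul 2058874 (ab a 1920)) 0 = Bx at hb ⊢
  simp only [natadd, natmul, hb]
  rw [d1, d2, d3, d4]
  linarith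

/-- The value, smaller share. -/
theorem cs_true9 {s : SD} {r : Sr} (h : SDok s r true) (pay : ℕ) (bx : Bool)
    (i a e hat M : ℕ) :
    137438953472 + 83886080 * (pay : ℝ) +
      41943040 * (r.lam.re * (((s.bt : ℝ) + 50) - 5 * i)) +
      41943040 * (r.hp.re * (5 * (i : ℝ) - ((s.bt : ℝ) + 50))) +
      655360 * (r.lam.im * ((hat : ℝ) - e) + r.D1 * ((e : ℝ) - s.be) + r.hp.im * ((e : ℝ) - a)) +
      8388608000 * (r.F0 + 1) + ((s.cu : ℝ) - 1) * (pv a i M : ℝ) -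
      395304960 * i - bxR bx a ≤ ((cs s true pay bx i a e hat M : ℕ) : ℝ) := by
  have h1 := mp9 (p := Nat.add s.bt 50) (n := Nat.mul 5 i) h.lr0 h.lr1
    (P := (s.bt : ℝ) + 50) (N := 5 * (i : ℝ)) (by rw [natadd, nattwo]) (by rw [natmul, nattwo])
  have h2 := mp9 (p := hat) (n := e) h.li0 h.li1 rfl rfl
  have h3 := mp9 (p := e) (n := s.be) h.m0 h.m1 rfl rfl
  have h4 := mp9 (n := Nat.add s.bt 50) (p := Nat.mul 5 i) (h.hr0 rfl) (h.hr1 rfl)
    (N := (s.bt : ℝ) + 50) (P := 5 * (i : ℝ)) (by rw [natmul, nattwo]) (by rw [natadd, nattwo])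
  have h5 := mp9 (p := e) (n := a) (h.hi0 rfl) (h.hi1 rfl) rfl rfl
  have g1 := div8g (Nat.add (mpp s.li1 hat e) (Nat.add (mpp s.m1 e s.be) (mpp s.hi1 e a)))
  have g2 := div8l (Nat.add (mpn s.li0 hat e) (Nat.add (mpn s.m0 e s.be) (mpn s.hi0 e a)))
  rw [natadd, natadd] at g1 g2
  have hcu : 1 ≤ s.cu := by
    rw [h.cu]
    cases s.ty <;> decide
  have g3 : ((Nat.sub s.cu 1 : ℕ) : ℝ) = s.cu - 1 := by
    rw [nsub9 hcu]
    norm_num
  have g4 := h.f0
  unfold cs
  refine le_trans ?_ (natsub_ge _ _)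
  rw [cond_true, cond_true]
  have hb : ((cond bx (Nat.mul 2058874 (ab a 1920)) 0 : ℕ) : ℝ) = bxR bx a := by
    unfold bxR
    cases bx
    · simp only [cond_false, Nat.cast_zero]
    · simp only [cond_true]
      rw [natmul, nattwo]
  generalize hX : Nat.div (Nat.add (Nat.mul 5 (Nat.add (mpp s.li1 hat e)
    (Nat.add (mpp s.m1 e s.be) (mpp s.hi1 e a)))) 7) 8 = X at g1 ⊢
  generalize hY : Nat.div (Nat.mul 5 (Nat.add (mpn s.li0 hat e)
    (Nat.add (mpn s.m0 e s.be) (mpn s.hi0 e a)))) 8 = Y at g2 ⊢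
  generalize cond bx (Nat.mul 2058874 (ab a 1920)) 0 = Bx at hb ⊢
  generalize Nat.sub s.cu 1 = c1 at g3 ⊢
  simp only [natadd, natmul, hb, g3]
  rw [d1, d2, d3, d4]
  linarith

/-- The lanes of a packed vector. -/
theorem pk_lane9 {v c l : ℕ} {f : ℕ → ℕ} (h : Pk v f c) (hc : c ≤ 17592186044416) (_hl : l < 81) :
    lane v l = f l := by
  have h1 := (h.shift hc l).e
  unfold lane
  rw [h1]
  change pk (fun k => f (k + l)) (80 + 1) % 17592186044416 = f l
  rw [pk_mod (f := fun k => f (k + l)) 80 (lt_of_lt_of_le (h.b _) hc), zero_add]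

theorem ab1920 (a : ℕ) : Int.natAbs ((a : ℤ) - 1920 + 0) = ab a 1920 := by
  change _ = (a + 1920 - 3840) + (3840 - (a + 1920))
  omega

theorem ab_int (a b : ℕ) : Int.natAbs ((a : ℤ) - 1920 + ((b : ℤ) - 1920)) = ab a b := by
  change _ = (a + b - 3840) + (3840 - (a + b))
  omega

theorem ab1920_le {a : ℕ} (ha : a ≤ 3840) : ab a 1920 ≤ 3840 := by
  change (a + 1920 - 3840) + (3840 - (a + 1920)) ≤ 3840
  omega

theorem ab1920_real {a : ℕ} : (ab a 1920 : ℝ) = |(a : ℝ) - 1920| := by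
  rw [← ab1920 a, Nat.cast_natAbs, Int.cast_abs]
  push_cast
  rw [add_zero]

theorem pv_eq {a i M : ℕ} (ha : a ≤ 3840) (hi : i ≤ 30) :
    (pv a i M : ℝ) = VxI M 0 ((a : ℤ) - 1920) 0 (70 - i) := by
  have h1 := pk_lane9 (l := 70 - i) (rwI_Pk (ab1920_le ha)) (by norm_num) (by omega)
  have h2 := pk_lane9 (l := 70 - i) kap_Pk (by norm_num) (by omega)
  have e : pv a i M = lane (rwI (ab a 1920)) (70 - i) + M * lane KAP (70 - i) := rfl
  rw [e, h1, h2]
  unfold VxI RlI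
  rw [ab1920]
  push_cast
  ring

/-- The sum of the slopes. -/
theorem slopes {ty : Bool} {a b i J : ℕ} (ha : a ≤ 3840) (hb : b ≤ 3840) (hJ : J ≤ 40) :
    (51472 : ℝ) * (sg ty a b : ℝ) * ((i : ℝ) + J + 10) +
      (51472 * (ro ty a b : ℝ) * (40 - (J : ℝ)) + 51472 * (ka ty a b : ℝ)) =
    51472 * (7680 * i + (cond ty 768000 614400 : ℝ) + Qf ty i J ((a : ℝ) - 1920) ((b : ℝ) - 1920)) := by
  cases ty
  · have h1 : ((sg false a b : ℕ) : ℝ) = 9600 - b := by
      change ((9600 - b : ℕ) : ℝ) = _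
      rw [Nat.cast_sub (by omega)]
      norm_num
    have h2 : ((ro false a b : ℕ) : ℝ) = 7680 + a - b := by
      change ((7680 + a - b : ℕ) : ℝ) = _
      rw [Nat.cast_sub (by omega)]
      norm_num
    have h3 : ((ka false a b : ℕ) : ℝ) = 40 * (3840 + 2 * b - a) := by
      change ((40 * (3840 + 2 * b - a) : ℕ) : ℝ) = _
      rw [Nat.cast_mul, Nat.cast_sub (by omega)]
      norm_num
    rw [h1, h2, h3]
    unfold Qf
    simp only [cond_false, Bool.false_eq_true, if_false]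
    ring
  · have h1 : ((sg true a b : ℕ) : ℝ) = 7680 + a - b := by
      change ((7680 + a - b : ℕ) : ℝ) = _
      rw [Nat.cast_sub (by omega)]
      norm_num
    have h2 : ((ro true a b : ℕ) : ℝ) = 7680 + 2 * a - 2 * b := by
      change ((7680 + 2 * a - 2 * b : ℕ) : ℝ) = _
      rw [Nat.cast_sub (by omega)]
      norm_num
    have h3 : ((ka true a b : ℕ) : ℝ) = 100 * (3840 + b - a) := by
      change ((100 * (3840 + b - a) : ℕ) : ℝ) = _
      rw [Nat.cast_mul, Nat.cast_sub (by omega)]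
      norm_num
    rw [h1, h2, h3]
    unfold Qf
    simp only [cond_true, if_true]
    ring

theorem Qf_ge {ty : Bool} {a b i J : ℕ} (ha : a ≤ 3840) (hb : b ≤ 3840) (hi : i ≤ 30)
    (hJ : J ≤ 40) : -192000 ≤ Qf ty i J ((a : ℝ) - 1920) ((b : ℝ) - 1920) := by
  have ha' : (a : ℝ) ≤ 3840 := by exact_mod_cast ha
  have hb' : (b : ℝ) ≤ 3840 := by exact_mod_cast hb
  have hi' : (i : ℝ) ≤ 30 := by exact_mod_cast hi
  have hJ' : (J : ℝ) ≤ 40 := by exact_mod_cast hJ
  have ha0 : (0 : ℝ) ≤ a := Nat.cast_nonneg _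
  have hb0 : (0 : ℝ) ≤ b := Nat.cast_nonneg _
  have hi0 : (0 : ℝ) ≤ i := Nat.cast_nonneg _
  have hJ0 : (0 : ℝ) ≤ J := Nat.cast_nonneg _
  unfold Qf
  cases ty
  · simp only [Bool.false_eq_true, if_false]
    have h1 : ((a : ℝ) - 1920) * J ≤ 76800 := by nlinarith
    have h2 : ((b : ℝ) - 1920) * (i - 30) ≤ 57600 := by nlinarith
    linarith
  · simp only [if_true]
    have h1 : |((a : ℝ) - 1920 - (b - 1920))| ≤ 3840 := abs_le.2 ⟨by linarith, by linarith⟩
    have h2 : |((i : ℝ) - J - 10)| ≤ 50 := abs_le.2 ⟨by linarith, by linarith⟩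
    have h3 := mul_le_mul h1 h2 (abs_nonneg _) (by norm_num)
    rw [← abs_mul] at h3
    linarith [neg_abs_le (((a : ℝ) - 1920 - (b - 1920)) * ((i : ℝ) - J - 10))]

theorem cuR_false (s : SD) : cuR s false = s.cu := by
  unfold cuR
  rw [cond_false, sub_zero]

theorem cuR_true (s : SD) : cuR s true = (s.cu : ℝ) - 1 := by
  unfold cuR
  rw [cond_true]

theorem cf_false9 (s : SD) (r : Sr) (pay : ℕ) (σ leg I a e : ℝ) :
    (cf s r false pay σ leg).v I a e = 41943040 * r.lam.re * (s.bt + 50) -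
      655360 * r.D * ((s.be : ℝ) - 1920) + 83886080 * ((pay : ℝ) - 100) -
      209715200 * r.lam.re * I + (655360 * (leg * r.lam.im) - Real.pi * 655360 * σ) * a +
      655360 * (-r.lam.im + r.D) * e := by
  unfold cf Cf.v
  dsimp only
  simp only [cond_false]
  ring

theorem cf_true9 (s : SD) (r : Sr) (pay : ℕ) (σ leg I a e : ℝ) :
    (cf s r true pay σ leg).v I a e = 41943040 * r.lam.re * (s.bt + 50) -
      655360 * r.D1 * ((s.be : ℝ) - 1920) - 41943040 * r.hp.re * (s.bt + 50) +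
      8388608000 * r.F0 + 83886080 * ((pay : ℝ) - 100) -
      209715200 * r.lam.re * I + 209715200 * r.hp.re * I +
      (655360 * (leg * r.lam.im - r.hp.im) - Real.pi * 655360 * σ) * a +
      655360 * (-r.lam.im + r.D1 + r.hp.im) * e := by
  unfold cf Cf.v
  dsimp only
  simp only [cond_true]
  ring

/-- The last step. -/
theorem vertex_false {lre lim D bt be pay σ leg i a e cu pvv c V K Q ln hat bx P : ℝ}
    (h2 : c + V + 51472 * (7680 * i + K + Q) ≤ ln)
    (h6 : 0 ≤ (51472 - P * 16384) * (Q + 192000))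
    (h7 : (51472 - P * 16384) * 192000 ≤ 33320)
    (h8 : bx + (-(P * 655360 * σ)) * (a - 1920) ≤ 0)
    (h9 : leg * (a - 1920) = hat - 1920)
    (hc : 137438953472 + 83886080 * pay + 41943040 * (lre * ((bt + 50) - 5 * i)) +
      655360 * (lim * (hat - e) + D * (e - be)) + cu * pvv - 395304960 * i - bx ≤ c) :
    cu * (pvv - 8388608000) + V + P * 16384 * Q +
      (41943040 * lre * (bt + 50) - 655360 * D * (be - 1920) + 83886080 * (pay - 100) -
      209715200 * lre * i + (655360 * (leg * lim) - P * 655360 * σ) * (a - 1920) +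
      655360 * (-lim + D) * (e - 1920)) ≤
      ln - (137438953472 + (cu + 1) * 8388608000 + 51472 * K) + 33320 := by
  have e1 : (655360 * (leg * lim) - P * 655360 * σ) * (a - 1920) =
      655360 * lim * (hat - 1920) + (-(P * 655360 * σ)) * (a - 1920) := by
    rw [← h9]
    ring
  rw [e1]
  linarith

theorem vertex_true {lre lim hre him F0 D bt be pay σ leg i a e cu pvv c V K Q ln hat bx P : ℝ}
    (h2 : c + V + 51472 * (7680 * i + K + Q) ≤ ln)
    (h6 : 0 ≤ (51472 - P * 16384) * (Q + 192000))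
    (h7 : (51472 - P * 16384) * 192000 ≤ 33320)
    (h8 : bx + (-(P * 655360 * σ)) * (a - 1920) ≤ 0)
    (h9 : leg * (a - 1920) = hat - 1920)
    (hc : 137438953472 + 83886080 * pay + 41943040 * (lre * ((bt + 50) - 5 * i)) +
      41943040 * (hre * (5 * i - (bt + 50))) +
      655360 * (lim * (hat - e) + D * (e - be) + him * (e - a)) + 8388608000 * (F0 + 1) +
      (cu - 1) * pvv - 395304960 * i - bx ≤ c) :
    (cu - 1) * (pvv - 8388608000) + V + P * 16384 * Q +
      (41943040 * lre * (bt + 50) - 655360 * D * (be - 1920) - 41943040 * hre * (bt + 50) +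
      8388608000 * F0 + 83886080 * (pay - 100) -
      209715200 * lre * i + 209715200 * hre * i +
      (655360 * (leg * lim - him) - P * 655360 * σ) * (a - 1920) +
      655360 * (-lim + D + him) * (e - 1920)) ≤
      ln - (137438953472 + (cu + 1) * 8388608000 + 51472 * K) + 33320 := by
  have e1 : (655360 * (leg * lim - him) - P * 655360 * σ) * (a - 1920) =
      655360 * lim * (hat - 1920) - 655360 * him * (a - 1920) +
        (-(P * 655360 * σ)) * (a - 1920) := by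
    rw [← h9]
    ring
  rw [e1]
  linarith

/-- Vertex inequality: from `cs` and `GE`. -/
theorem A_vertex {s : SD} {r : Sr} {fl dl bx : Bool} {pay i a e hat G M L b J v : ℕ} {σ leg : ℝ}
    (hs : SDok s r fl) (hd : dl = true → fl = true) (hi : i ≤ 30) (ha : a ≤ 3840) (hb : b ≤ 3840)
    (he : e ≤ 3840) (hJ : J ≤ 40)
    (hbx : (bx = true ∧ leg = 0 ∧ hat = 1920 ∧ σ * ((a : ℝ) - 1920) = |(a : ℝ) - 1920|) ∨
      (bx = false ∧ leg = 1 ∧ hat = a ∧ σ = 0))
    (hg : GE v s.ty b M L i a (cs s dl pay bx i a e hat G)) :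
    vx s.ty (cuR s dl) (cf s r dl pay σ leg) G M L i J ((a : ℤ) - 1920) ((b : ℤ) - 1920)
      ((e : ℝ) - 1920) ≤ (lane v J : ℝ) - Ofs s.ty + 33320 := by
  have h1 := hg J hJ
  have h2 : ((cs s dl pay bx i a e hat G : ℕ) : ℝ) +
      (VxI M L ((a : ℤ) - 1920) ((b : ℤ) - 1920) (i + J + 10)) +
      51472 * (7680 * i + (cond s.ty 768000 614400 : ℝ) +
        Qf s.ty i J ((a : ℝ) - 1920) ((b : ℝ) - 1920)) ≤ (lane v J : ℝ) := by
    have h3 : ((cs s dl pay bx i a e hat G + (lnI (ab a b) (i + J + 10) + M * kp (i + J + 10) +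
        (L * li (i + J + 10) + 51472 * sg s.ty a b * (i + J + 10))) +
        (51472 * ro s.ty a b * (40 - J) + 51472 * ka s.ty a b) : ℕ) : ℝ) ≤ (lane v J : ℝ) := by
      exact_mod_cast h1
    rw [← slopes ha hb hJ]
    unfold VxI RlI
    rw [ab_int]
    have h4 : ((40 - J : ℕ) : ℝ) = 40 - (J : ℝ) := by
      rw [Nat.cast_sub hJ]
      norm_num
    push_cast [h4] at h3
    linarith
  have h5 := Qf_ge (ty := s.ty) (i := i) ha hb hi hJ
  have p1 := pi_lt'
  have p2 := pi_gt'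
  have h6 : (0 : ℝ) ≤ (51472 - Real.pi * 16384) *
      (Qf s.ty i J ((a : ℝ) - 1920) ((b : ℝ) - 1920) + 192000) :=
    mul_nonneg (by linarith) (by linarith)
  have h7 : (51472 - Real.pi * 16384) * 192000 ≤ 33320 := by linarith
  have h8 : bxR bx a + (-(Real.pi * 655360 * σ)) * ((a : ℝ) - 1920) ≤ 0 := by
    rcases hbx with ⟨hb1, hb2, hb3, hb4⟩ | ⟨hb1, hb2, hb3, hb4⟩
    · rw [hb1]
      change 2058874 * (ab a 1920 : ℝ) + _ ≤ 0
      rw [ab1920_real, show (-(Real.pi * 655360 * σ)) * ((a : ℝ) - 1920) =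
        -(Real.pi * 655360) * (σ * ((a : ℝ) - 1920)) by ring, hb4]
      have h10 := abs_nonneg ((a : ℝ) - 1920)
      have h11 : (2058874 : ℝ) ≤ Real.pi * 655360 := by
        have := Real.pi_gt_d20
        linarith
      have h12 := mul_le_mul_of_nonneg_right h11 h10
      linarith
    · rw [hb1, hb4]
      change (0 : ℝ) + _ ≤ 0
      simp
  have h9 : leg * ((a : ℝ) - 1920) = (hat : ℝ) - 1920 := by
    rcases hbx with ⟨hb1, hb2, hb3, hb4⟩ | ⟨hb1, hb2, hb3, hb4⟩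
    · rw [hb2, hb3]
      norm_num
    · rw [hb2, hb3]
      ring
  have hQ : Qf s.ty i J (((a : ℤ) - 1920 : ℤ) : ℝ) (((b : ℤ) - 1920 : ℤ) : ℝ) =
      Qf s.ty i J ((a : ℝ) - 1920) ((b : ℝ) - 1920) := by
    push_cast
    rfl
  have hO : Ofs s.ty = 137438953472 + ((s.cu : ℝ) + 1) * 8388608000 +
      51472 * (cond s.ty 768000 614400 : ℝ) := by
    rw [hs.cu]
    unfold Ofs
    cases s.ty
    · simp only [cond_false]
      norm_num
    · simp only [cond_true]
      norm_num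
  unfold vx
  rw [hQ, hO]
  have hpv := pv_eq (M := G) ha hi
  have ea : (((a : ℤ) - 1920 : ℤ) : ℝ) = (a : ℝ) - 1920 := by push_cast; rfl
  rw [ea, ← hpv]
  cases dl
  · rw [cuR_false, cf_false9]
    exact vertex_false h2 h6 h7 h8 h9 (cs_false9 hs pay bx i a e hat G)
  · rw [cuR_true, cf_true9]
    have hf := hd rfl
    rw [hf] at hs
    exact vertex_true h2 h6 h7 h8 h9 (cs_true9 hs pay bx i a e hat G)

end Pool.Agent.S5.G3
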