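import Pool.Agent.S5.K3.G12a
import Pool.Agent.S5.K3.G8
import Pool.Agent.S5.K3.G9

/-!
# One slot: the flat and the forced edge
-/

set_option autoImplicit false

namespace Pool.Agent.S5.G3

open Pool.Agent.H63.VC3 Pool.Agent.S3 Complex MeasureTheory Filter Topology Set
open Pool.Agent.S5.Tb Pool.Agent.S5.K3

namespace Dm

theorem okS_h {s : SD} {py : Py} {J1 : ℕ} (h : okS s py J1 = true) :
    s.e1 ≤ 3840 ∧ s.e0 < s.e1 ∧ s.e1 ≤ s.e0 + 960 := by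
  unfold okS at h
  iterate 15 replace h := (cond_t h).2
  obtain ⟨h1, h⟩ := cond_t h
  obtain ⟨h2, h⟩ := cond_t h
  obtain ⟨h3, h⟩ := cond_t h
  exact ⟨ble_t h1, ble_t h2, ble_t h3⟩

theorem GE_le {v : ℕ} {ty : Bool} {b M L i a c c' : ℕ} (h : GE v ty b M L i a c) (hc : c' ≤ c) :
    GE v ty b M L i a c' := fun J hJ => by
  have := h J hJ
  omega

theorem cuR_nonneg {s : SD} {r : Sr} {fl dl : Bool} (h : SDok s r fl) : 0 ≤ cuR s dl := by
  unfold cuR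
  rw [h.cu]
  cases s.ty <;> cases dl <;> norm_num

theorem fc_F (s : SD) (py : Py) (M e : ℕ) {i : ℕ} (h : 16 ≤ i) :
    cs s py.dF py.F false i e e e M ≤ fc s py M e i := by
  unfold fc
  rw [ble_false (by omega : 9 < i), beq_false (by omega : i ≠ 10), ble_false (by omega : 15 < i)]
  rcases eq_or_ne i 16 with h1 | h1
  · rw [h1, beq_self]
    change _ ≤ mx _ _
    rw [mx_eq]
    exact le_max_right _ _
  · rw [beq_false h1]
    exact le_rfl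

theorem fc_H (s : SD) (py : Py) (M e : ℕ) {i : ℕ} (h : 10 ≤ i) (h' : i ≤ 16) :
    cs s py.dH py.H false i e e e M ≤ fc s py M e i := by
  unfold fc
  rw [ble_false (by omega : 9 < i)]
  rcases eq_or_ne i 10 with h1 | h1
  · rw [h1, beq_self]
    change _ ≤ mx _ _
    rw [mx_eq]
    exact le_max_right _ _
  · rw [beq_false h1]
    rcases eq_or_ne i 16 with h2 | h2
    · rw [h2, ble_false (by omega : 15 < 16), beq_self]
      change _ ≤ mx _ _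
      rw [mx_eq]
      exact le_max_left _ _
    · rw [ble_true (by omega : i ≤ 15)]
      exact le_rfl

theorem fc_G (s : SD) (py : Py) (M e : ℕ) {i : ℕ} (h : i ≤ 10) :
    cs s py.dH py.G false i e e e M ≤ fc s py M e i := by
  unfold fc
  rcases eq_or_ne i 10 with h1 | h1
  · rw [h1, ble_false (by omega : 9 < 10), beq_self]
    change _ ≤ mx _ _
    rw [mx_eq]
    exact le_max_left _ _
  · rw [ble_true (by omega : i ≤ 9)]
    exact le_rfl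

/-- The interpolation, from the inequalities at the vertices with the positions between `lo` and
`hi`. -/
theorem of {s : SD} {r : Sr} {dl : Bool} {pay : ℕ} {σ leg : ℝ} {lo hi : ℕ} {I a p : ℝ}
    {a0 a1 G H b0 b1 M0 M1 L0 L1 v0 v1 : ℕ} {e0 e1 : ℝ} (hcu : 0 ≤ cuR s dl)
    (hI0 : (lo : ℝ) ≤ I) (hI1 : I ≤ hi) (hhi : hi ≤ 30) (hp0 : 0 ≤ p) (hp1 : p ≤ 1)
    (ha0 : a0 ≤ 3840) (ha1 : a1 ≤ 3840)
    (hG : 4 * (p * (1 - p)) * (((a1 : ℝ) - a0) / 64) ^ 2 ≤ (1 - p) * (G : ℝ) + p * (G : ℝ))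
    (hH : 4 * (p * (1 - p)) * (|(a1 : ℝ) - a0| / 64) ≤ (1 - p) * (H : ℝ) + p * (H : ℝ))
    (hg : Gap b0 b1 M0 M1 L0 L1) (hae : a = (a0 : ℝ) - 1920 + p * ((a1 : ℝ) - a0))
    (he : r.e = e0 + p * (e1 - e0))
    (hv : ∀ i J : ℕ, lo ≤ i → i ≤ hi → J ≤ 40 →
      vx s.ty (cuR s dl) (cf s r dl pay σ leg) G ((M0 + G : ℕ) : ℝ) ((L0 + H : ℕ) : ℝ) i J
        ((a0 : ℤ) - 1920) ((b0 : ℤ) - 1920) e0 ≤ (lane v0 J : ℝ) - Ofs s.ty + 33320 ∧
      vx s.ty (cuR s dl) (cf s r dl pay σ leg) G ((M1 + G : ℕ) : ℝ) ((L1 + H : ℕ) : ℝ) i J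
        ((a0 : ℤ) - 1920) ((b1 : ℤ) - 1920) e0 ≤ (lane v1 J : ℝ) - Ofs s.ty + 33320 ∧
      vx s.ty (cuR s dl) (cf s r dl pay σ leg) G ((M0 + G : ℕ) : ℝ) ((L0 + H : ℕ) : ℝ) i J
        ((a1 : ℤ) - 1920) ((b0 : ℤ) - 1920) e1 ≤ (lane v0 J : ℝ) - Ofs s.ty + 33320 ∧
      vx s.ty (cuR s dl) (cf s r dl pay σ leg) G ((M1 + G : ℕ) : ℝ) ((L1 + H : ℕ) : ℝ) i J
        ((a1 : ℤ) - 1920) ((b1 : ℤ) - 1920) e1 ≤ (lane v1 J : ℝ) - Ofs s.ty + 33320) :
    Dom v0 v1 (Ps s r dl pay σ leg I a b0 b1) := by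
  intro J t q hJ hJt ht0 ht1 hq0 hq1
  obtain ⟨i, τ, hIi, hτ0, hτ1, hi0, hi1, hi2⟩ := splitJ hI0 hI1
  have h := slot_int (ty := s.ty) (cu := cuR s dl) (C := cf s r dl pay σ leg) (i := i) (J := J)
    (t := τ) (s := t) (p := p) (q := q) (a0 := a0) (a1 := a1) (b0 := b0) (b1 := b1) (G0 := G)
    (G1 := G) (H0 := H) (H1 := H) (M0 := M0) (M1 := M1) (L0 := L0) (L1 := L1) (e0 := e0) (e1 := e1)
    (X0 := fun J => (lane v0 J : ℝ) - Ofs s.ty + 33320)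
    (X1 := fun J => (lane v1 J : ℝ) - Ofs s.ty + 33320)
    hcu (by omega) (fun h => by have := hi2 h; omega) hJ hJt hτ0 hτ1 ht0 ht1 hp0 hp1 hq0 hq1 ha0 ha1
    hG hH hg (by
      intro i' J' hi' hJ'
      have k0 : lo ≤ i' := by omega
      have k1 : i' ≤ hi := by
        rcases hi' with h | ⟨h, h'⟩
        · omega
        · have := hi2 h'
          omega
      have k2 : J' ≤ 40 := by
        rcases hJ' with h | ⟨h, h'⟩
        · omega
        · have := hJt h'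
          omega
      have h := hv i' J' k0 k1 k2
      simp only [Nat.cast_add] at h
      exact h)
  unfold Ps
  rw [hIi, hae, he]
  have e : ∀ x0 x1 y0 y1 O : ℝ,
      (1 - q) * ((1 - t) * (x0 - O + 33320) + t * (x1 - O + 33320)) +
        q * ((1 - t) * (y0 - O + 33320) + t * (y1 - O + 33320)) =
      (1 - q) * ((1 - t) * x0 + t * x1) + q * ((1 - t) * y0 + t * y1) - O + 33320 := by
    intro x0 x1 y0 y1 O
    ring
  rw [e] at h
  linarith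

end Dm

theorem A_F {s : SD} {r : Sr} {py : Py} {J1 b0 b1 M0 M1 L0 L1 : ℕ} {I a : ℝ} {dl : Bool}
    {pay : ℕ} (hs : SDok s r (py.dF || py.dH)) (hk : okS s py J1 = true)
    (hg : Gap b0 b1 M0 M1 L0 L1) (h : OnF py r.e I a dl pay) :
    Dom (aF s py b0 M0 L0) (aF s py b1 M1 L1) (Ps s r dl pay 0 1 I a b0 b1) := by
  obtain ⟨k1, k2, k3⟩ := Dm.okS_h hk
  have g0 := (L_aF (s := s) (py := py) hk hg.h0 hg.m0 hg.l0).2
  have g1 := (L_aF (s := s) (py := py) hk hg.h1 hg.m1 hg.l1).2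
  have hd : (0 : ℝ) < (s.e1 : ℝ) - s.e0 := by
    have : (s.e0 : ℝ) < s.e1 := by exact_mod_cast k2
    linarith
  have hd1 : |(s.e1 : ℝ) - s.e0| ≤ ((s.e1 - s.e0 : ℕ) : ℝ) := by
    rw [abs_of_pos hd, Nat.cast_sub k2.le]
  obtain ⟨p, hp0, hp1, hp⟩ : ∃ p : ℝ, 0 ≤ p ∧ p ≤ 1 ∧
      r.e = (s.e0 : ℝ) - 1920 + p * ((s.e1 : ℝ) - s.e0) := by
    refine ⟨(r.e + 1920 - s.e0) / ((s.e1 : ℝ) - s.e0), ?_, ?_, ?_⟩
    · have := hs.e0
      exact div_nonneg (by linarith) hd.le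
    · rw [div_le_one hd]
      have := hs.e1
      linarith
    · rw [div_mul_cancel₀ _ hd.ne']
      ring
  obtain ⟨hG, hH⟩ := gap_two hp0 hp1 hd1
  have main : ∀ {dl : Bool} {pay lo hi : ℕ} {I : ℝ}, (dl = true → (py.dF || py.dH) = true) →
      (lo : ℝ) ≤ I → I ≤ hi → hi ≤ 30 → (∀ (i M e : ℕ), lo ≤ i → i ≤ hi →
        cs s dl pay false i e e e M ≤ fc s py M e i) →
      Dom (aF s py b0 M0 L0) (aF s py b1 M1 L1) (Ps s r dl pay 0 1 I r.e b0 b1) := by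
    intro dl pay lo hi I hdl h0 h1 h2 hc
    have hV : ∀ {b M L i J e : ℕ} {v : ℕ}, b ≤ 3840 → lo ≤ i → i ≤ hi → J ≤ 40 → e ≤ 3840 →
        GE v s.ty b M L i e (fc s py (gM (s.e1 - s.e0)) e i) →
        vx s.ty (cuR s dl) (cf s r dl pay 0 1) (gM (s.e1 - s.e0)) M L i J ((e : ℤ) - 1920)
          ((b : ℤ) - 1920) ((e : ℝ) - 1920) ≤ (lane v J : ℝ) - Ofs s.ty + 33320 := by
      intro b M L i J e v hb hi0 hi1 hJ he hge
      exact A_vertex (bx := false) (hat := e) hs hdl (by omega) he hb he hJ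
        (Or.inr ⟨rfl, rfl, rfl, rfl⟩) (Dm.GE_le hge (hc _ _ _ hi0 hi1))
    refine Dm.of (lo := lo) (hi := hi) (a0 := s.e0) (a1 := s.e1) (G := gM (s.e1 - s.e0))
      (H := gL (s.e1 - s.e0)) (e0 := (s.e0 : ℝ) - 1920) (e1 := (s.e1 : ℝ) - 1920) (p := p)
      (Dm.cuR_nonneg hs) h0 h1 h2 hp0 hp1 (by omega) k1 hG hH hg hp (by rw [hp]; ring) ?_
    intro i J hi0 hi1 hJ
    exact ⟨hV hg.h0 hi0 hi1 hJ (by omega) (g0 i (by omega)).1,
      hV hg.h1 hi0 hi1 hJ (by omega) (g1 i (by omega)).1,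
      hV hg.h0 hi0 hi1 hJ k1 (g0 i (by omega)).2, hV hg.h1 hi0 hi1 hJ k1 (g1 i (by omega)).2⟩
  cases h with
  | F h0 h1 =>
    exact main (lo := 16) (hi := 30) (fun h => by rw [h]; rfl) (by exact_mod_cast h0)
      (by exact_mod_cast h1) le_rfl (fun i M e h2 _ => Dm.fc_F s py M e h2)
  | H h0 h1 =>
    exact main (lo := 10) (hi := 16) (fun h => by rw [h]; simp) (by exact_mod_cast h0)
      (by exact_mod_cast h1) (by norm_num) (fun i M e h2 h3 => Dm.fc_H s py M e h2 h3)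
  | G h0 h1 =>
    exact main (lo := 0) (hi := 10) (fun h => by rw [h]; simp) (by exact_mod_cast h0)
      (by exact_mod_cast h1) (by norm_num) (fun i M e _ h3 => Dm.fc_G s py M e h3)

theorem A_O {s : SD} {r : Sr} {py : Py} {J1 b0 b1 M0 M1 L0 L1 : ℕ} {I a : ℝ} {dl : Bool}
    {pay : ℕ} (hs : SDok s r (py.dF || py.dH)) (hk : okS s py J1 = true) (hJ : J1 ≤ 5)
    (hg : Gap b0 b1 M0 M1 L0 L1) (h : OnO py J1 I a dl pay) :
    Dom (aO s py J1 b0 M0 L0) (aO s py J1 b1 M1 L1) (Ps s r dl pay 0 1 I a b0 b1) := by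
  obtain ⟨k1, k2, k3⟩ := Dm.okS_h hk
  have g0 := (L_aO (s := s) (py := py) hk hJ hg.h0 hg.m0 hg.l0).2
  have g1 := (L_aO (s := s) (py := py) hk hJ hg.h1 hg.m1 hg.l1).2
  have hd : (0 : ℝ) < (s.e1 : ℝ) - s.e0 := by
    have : (s.e0 : ℝ) < s.e1 := by exact_mod_cast k2
    linarith
  obtain ⟨p, hp0, hp1, hp⟩ : ∃ p : ℝ, 0 ≤ p ∧ p ≤ 1 ∧
      r.e = (s.e0 : ℝ) - 1920 + p * ((s.e1 : ℝ) - s.e0) := by
    refine ⟨(r.e + 1920 - s.e0) / ((s.e1 : ℝ) - s.e0), ?_, ?_, ?_⟩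
    · have := hs.e0
      exact div_nonneg (by linarith) hd.le
    · rw [div_le_one hd]
      have := hs.e1
      linarith
    · rw [div_mul_cancel₀ _ hd.ne']
      ring
  cases h with
  | ow h0 h1 =>
    have hV : ∀ {b M L i J : ℕ} {v : ℕ} {e : ℕ}, b ≤ 3840 → i ≤ 30 → J ≤ 40 → e ≤ 3840 →
        cs s false py.ow false i 1920 e 1920 0 ≤ bx2 s false py.ow false i 1920 1920 0 →
        GE v s.ty b M L i 1920 (bx2 s false py.ow false i 1920 1920 0) →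
        vx s.ty (cuR s false) (cf s r false py.ow 0 1) ((0 : ℕ) : ℝ) M L i J
          (((1920 : ℕ) : ℤ) - 1920) ((b : ℤ) - 1920) ((e : ℝ) - 1920) ≤
          (lane v J : ℝ) - Ofs s.ty + 33320 := by
      intro b M L i J v e hb hi hJ he hc hge
      exact A_vertex (bx := false) (hat := 1920) (G := 0) hs (fun h => absurd h (by simp)) hi
        (by norm_num) hb he hJ (Or.inr ⟨rfl, rfl, rfl, rfl⟩) (Dm.GE_le hge hc)
    have c0 : ∀ i, cs s false py.ow false i 1920 s.e0 1920 0 ≤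
        bx2 s false py.ow false i 1920 1920 0 := fun i => by
      unfold bx2
      rw [mx_eq]
      exact le_max_left _ _
    have c1 : ∀ i, cs s false py.ow false i 1920 s.e1 1920 0 ≤
        bx2 s false py.ow false i 1920 1920 0 := fun i => by
      unfold bx2
      rw [mx_eq]
      exact le_max_right _ _
    have e5 : ((30 - J1 : ℕ) : ℝ) = 30 - (J1 : ℝ) := by
      rw [Nat.cast_sub (by omega)]
      norm_num
    refine Dm.of (lo := 30 - J1) (hi := 30) (a0 := 1920) (a1 := 1920) (G := 0)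
      (H := 0) (e0 := (s.e0 : ℝ) - 1920) (e1 := (s.e1 : ℝ) - 1920) (p := p)
      (Dm.cuR_nonneg hs) (by rw [e5]; exact h0) (by exact_mod_cast h1) le_rfl hp0 hp1
      (by norm_num) (by norm_num) (by simp) (by simp) hg (by push_cast; ring)
      (by rw [hp]; ring) ?_
    intro i J hi0 hi1 hJ
    exact ⟨hV hg.h0 hi1 hJ (by omega) (c0 i) (g0 i hi0 hi1),
      hV hg.h1 hi1 hJ (by omega) (c0 i) (g1 i hi0 hi1),
      hV hg.h0 hi1 hJ k1 (c1 i) (g0 i hi0 hi1), hV hg.h1 hi1 hJ k1 (c1 i) (g1 i hi0 hi1)⟩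

end Pool.Agent.S5.G3
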