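import Pool.Agent.S5.K3.G8
import Pool.Agent.S5.K3.G12a

/-!
# One slot: the horizontal pieces
-/

set_option autoImplicit false

namespace Pool.Agent.S5.G3

open Pool.Agent.H63.VC3 Pool.Agent.S3 Complex MeasureTheory Filter Topology Set
open Pool.Agent.S5.Tb Pool.Agent.S5.K3

/-- The vertex inequality. -/
def AVtx : Prop :=
  ∀ (s : SD) (r : Sr) (fl dl bx : Bool) (pay i a e hat G M L b J v : ℕ) (σ leg : ℝ),
    SDok s r fl → (dl = true → fl = true) → i ≤ 30 → a ≤ 3840 → b ≤ 3840 → e ≤ 3840 → J ≤ 40 →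
    ((bx = true ∧ leg = 0 ∧ hat = 1920 ∧ σ * ((a : ℝ) - 1920) = |(a : ℝ) - 1920|) ∨
      (bx = false ∧ leg = 1 ∧ hat = a ∧ σ = 0)) →
    GE v s.ty b M L i a (cs s dl pay bx i a e hat G) →
    vx s.ty (cuR s dl) (cf s r dl pay σ leg) G M L i J ((a : ℤ) - 1920) ((b : ℤ) - 1920)
      ((e : ℝ) - 1920) ≤ (lane v J : ℝ) - Ofs s.ty + 33320

theorem cuR_nonneg {s : SD} {r : Sr} {fl : Bool} (hs : SDok s r fl) (dl : Bool) :
    0 ≤ cuR s dl := by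
  unfold cuR
  rw [hs.cu]
  cases s.ty <;> cases dl <;> norm_num

/-- A horizontal line. -/
theorem A_hor (AV : AVtx) {s : SD} {r : Sr} {fl dl bx : Bool}
    {pay a hat lo hi v0 v1 b0 b1 M0 M1 L0 L1 : ℕ} {σ leg I : ℝ} (hs : SDok s r fl)
    (hd : dl = true → fl = true) (ha : a ≤ 3840) (he1 : s.e1 ≤ 3840) (he01 : s.e0 < s.e1)
    (hg : Gap b0 b1 M0 M1 L0 L1) (hhi : hi ≤ 30)
    (hbx : (bx = true ∧ leg = 0 ∧ hat = 1920 ∧ σ * ((a : ℝ) - 1920) = |(a : ℝ) - 1920|) ∨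
      (bx = false ∧ leg = 1 ∧ hat = a ∧ σ = 0))
    (hv : ∀ i, lo ≤ i → i ≤ hi → GE v0 s.ty b0 M0 L0 i a (bx2 s dl pay bx i a hat 0) ∧
      GE v1 s.ty b1 M1 L1 i a (bx2 s dl pay bx i a hat 0))
    (h0 : (lo : ℝ) ≤ I) (h1 : I ≤ hi) :
    Dom v0 v1 (Ps s r dl pay σ leg I ((a : ℝ) - 1920) b0 b1) := by
  obtain ⟨i, t, rfl, ht0, ht1, hi0, hi1, hi2⟩ := splitJ h0 h1
  have he : (0 : ℝ) < (s.e1 : ℝ) - s.e0 := by
    have : (s.e0 : ℝ) < s.e1 := by exact_mod_cast he01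
    linarith
  obtain ⟨p, hp⟩ : ∃ p, p = (r.e + 1920 - s.e0) / ((s.e1 : ℝ) - s.e0) := ⟨_, rfl⟩
  have r0 := hs.e0
  have r1 := hs.e1
  have hp0 : 0 ≤ p := by
    rw [hp]
    exact div_nonneg (by linarith) he.le
  have hp1 : p ≤ 1 := by
    rw [hp, div_le_one he]
    linarith
  have hpe : (s.e0 : ℝ) - 1920 + p * ((s.e1 : ℝ) - 1920 - ((s.e0 : ℝ) - 1920)) = r.e := by
    have : p * ((s.e1 : ℝ) - s.e0) = r.e + 1920 - s.e0 := by
      rw [hp]
      field_simp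
    linarith
  intro J w q hJ hJ1 hw0 hw1 hq0 hq1
  have key : ∀ (b M L v : ℕ), b ≤ 3840 →
      (∀ i, lo ≤ i → i ≤ hi → GE v s.ty b M L i a (bx2 s dl pay bx i a hat 0)) →
      ∀ e, e = s.e0 ∨ e = s.e1 → ∀ i', lo ≤ i' → i' ≤ hi → ∀ J' ≤ 40,
      vx s.ty (cuR s dl) (cf s r dl pay σ leg) ((0 : ℕ) : ℝ) ((M : ℝ) + ((0 : ℕ) : ℝ))
        ((L : ℝ) + ((0 : ℕ) : ℝ)) i' J' ((a : ℤ) - 1920) ((b : ℤ) - 1920) ((e : ℝ) - 1920) ≤
        (lane v J' : ℝ) - Ofs s.ty + 33320 := by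
    intro b M L v hb hge e he' i' hi'0 hi'1 J' hJ'
    have g := hge i' hi'0 hi'1
    have g' : GE v s.ty b M L i' a (cs s dl pay bx i' a e hat 0) := by
      refine GE_c g ?_
      have e1 : bx2 s dl pay bx i' a hat 0 =
          max (cs s dl pay bx i' a s.e0 hat 0) (cs s dl pay bx i' a s.e1 hat 0) := mx_eq _ _
      rw [e1]
      rcases he' with rfl | rfl
      · exact le_max_left _ _
      · exact le_max_right _ _
    have h := AV s r fl dl bx pay i' a e hat 0 M L b J' v σ leg hs hd (by omega) ha hb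
      (by rcases he' with rfl | rfl <;> omega) hJ' hbx g'
    rw [Nat.cast_zero, add_zero, add_zero]
    rw [Nat.cast_zero] at h
    exact h
  have h := slot_int (ty := s.ty) (cu := cuR s dl) (C := cf s r dl pay σ leg) (i := i) (J := J)
    (t := t) (s := w) (p := p) (q := q) (a0 := a) (a1 := a) (b0 := b0) (b1 := b1) (G0 := 0)
    (G1 := 0) (H0 := 0) (H1 := 0) (M0 := M0) (M1 := M1) (L0 := L0) (L1 := L1)
    (e0 := (s.e0 : ℝ) - 1920) (e1 := (s.e1 : ℝ) - 1920)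
    (X0 := fun J => (lane v0 J : ℝ) - Ofs s.ty + 33320)
    (X1 := fun J => (lane v1 J : ℝ) - Ofs s.ty + 33320) (cuR_nonneg hs dl) (by omega)
    (fun h => by have := hi2 h; omega) hJ hJ1 ht0 ht1 hw0 hw1 hp0 hp1 hq0 hq1 ha ha
    (by simp) (by simp) hg
    (fun i' J' h1 h2 => by
      have a1 : lo ≤ i' := by omega
      have a2 : i' ≤ hi := by
        rcases h1 with h1 | ⟨h1, h3⟩
        · omega
        · have := hi2 h3
          omega
      have a3 : J' ≤ 40 := by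
        rcases h2 with h2 | ⟨h2, h3⟩
        · omega
        · have := hJ1 h3
          omega
      exact ⟨key b0 M0 L0 v0 hg.h0 (fun i h h' => (hv i h h').1) _ (Or.inl rfl) i' a1 a2 J' a3,
        key b1 M1 L1 v1 hg.h1 (fun i h h' => (hv i h h').2) _ (Or.inl rfl) i' a1 a2 J' a3,
        key b0 M0 L0 v0 hg.h0 (fun i h h' => (hv i h h').1) _ (Or.inr rfl) i' a1 a2 J' a3,
        key b1 M1 L1 v1 hg.h1 (fun i h h' => (hv i h h').2) _ (Or.inr rfl) i' a1 a2 J' a3⟩)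
  rw [hpe, sub_self, mul_zero, add_zero] at h
  unfold Ps
  have e2 : (1 - q) * ((1 - w) * ((lane v0 J : ℝ) - Ofs s.ty + 33320) +
      w * ((lane v0 (J + 1) : ℝ) - Ofs s.ty + 33320)) +
      q * ((1 - w) * ((lane v1 J : ℝ) - Ofs s.ty + 33320) +
      w * ((lane v1 (J + 1) : ℝ) - Ofs s.ty + 33320)) =
      (1 - q) * ((1 - w) * (lane v0 J : ℝ) + w * (lane v0 (J + 1) : ℝ)) +
      q * ((1 - w) * (lane v1 J : ℝ) + w * (lane v1 (J + 1) : ℝ)) - Ofs s.ty + 33320 := by ring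
  rw [e2] at h
  linarith

/-! ### The lists -/

theorem tc_eq (s : SD) (py : Py) (a : ℕ) (sm op : Bool) (i : ℕ) : tc s py a sm op i =
    max (cond (Nat.ble 10 i) (max (cond sm (bx2 s false py.T true i a 1920 0) 0)
      (cond op (bx2 s false py.t true i a 1920 0) 0)) 0)
    (cond (Nat.ble i 10) (max (cond sm (bx2 s py.dH py.U true i a 1920 0) 0)
      (cond op (bx2 s py.dH py.u true i a 1920 0) 0)) 0) := by
  unfold tc
  rw [mx_eq, mx_eq, mx_eq]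

theorem tc_T {s : SD} {py : Py} {a i : ℕ} {sm op : Bool} (h : 10 ≤ i) (hsm : sm = true) :
    bx2 s false py.T true i a 1920 0 ≤ tc s py a sm op i := by
  rw [tc_eq, ble_true h, hsm, cond_true, cond_true]
  exact (le_max_left _ _).trans (le_max_left _ _)

theorem tc_t {s : SD} {py : Py} {a i : ℕ} {sm op : Bool} (h : 10 ≤ i) (hop : op = true) :
    bx2 s false py.t true i a 1920 0 ≤ tc s py a sm op i := by
  rw [tc_eq, ble_true h, hop, cond_true, cond_true]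
  exact (le_max_right _ _).trans (le_max_left _ _)

theorem tc_U {s : SD} {py : Py} {a i : ℕ} {sm op : Bool} (h : i ≤ 10) (hsm : sm = true) :
    bx2 s py.dH py.U true i a 1920 0 ≤ tc s py a sm op i := by
  rw [tc_eq, ble_true h, hsm, cond_true, cond_true]
  exact (le_max_left _ _).trans (le_max_right _ _)

theorem tc_u {s : SD} {py : Py} {a i : ℕ} {sm op : Bool} (h : i ≤ 10) (hop : op = true) :
    bx2 s py.dH py.u true i a 1920 0 ≤ tc s py a sm op i := by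
  rw [tc_eq, ble_true h, hop, cond_true, cond_true]
  exact (le_max_right _ _).trans (le_max_right _ _)

/-! ### Signs -/

theorem sgn_lo {s : SD} {r : Sr} {fl : Bool} (hs : SDok s r fl) (h : r.e ≤ 0) :
    Nat.ble s.e0 1920 = true := by
  have h0 := hs.e0
  exact ble_true (by exact_mod_cast (by linarith : (s.e0 : ℝ) ≤ 1920))

theorem sgn_hi {s : SD} {r : Sr} {fl : Bool} (hs : SDok s r fl) (h : 0 ≤ r.e) :
    Nat.ble 1920 s.e1 = true := by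
  have h0 := hs.e1
  exact ble_true (by exact_mod_cast (by linarith : (1920 : ℝ) ≤ s.e1))

variable {s : SD} {r : Sr} {py : Py} {J1 b0 b1 M0 M1 L0 L1 : ℕ} {I a σ : ℝ}

/-- Top or bottom, on one side. -/
theorem A_top (AV : AVtx) {dl : Bool} {pay lo hi : ℕ} (hd : dl = true → (py.dF || py.dH) = true)
    (hs : SDok s r (py.dF || py.dH)) (hk : okS s py J1 = true) (hg : Gap b0 b1 M0 M1 L0 L1)
    (hσ : σ = 1 ∨ σ = -1) (h : σ * a = 1920) (hhi : hi ≤ 30)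
    (hv1 : σ = 1 → ∀ i, lo ≤ i → i ≤ hi → bx2 s dl pay true i 3840 1920 0 ≤
      tc s py 3840 (Nat.ble 1920 s.e1) (Nat.ble s.e0 1920) i)
    (hv0 : σ = -1 → ∀ i, lo ≤ i → i ≤ hi → bx2 s dl pay true i 0 1920 0 ≤
      tc s py 0 (Nat.ble s.e0 1920) (Nat.ble 1920 s.e1) i)
    (h0 : (lo : ℝ) ≤ I) (h1 : I ≤ hi) :
    Dom (aN s py b0 M0 L0) (aN s py b1 M1 L1) (Ps s r dl pay σ 0 I a b0 b1) := by
  have hS := okS_ok hk
  obtain ⟨-, x0, -⟩ := L_aN (M := M0) (L := L0) hk hg.h0 hg.m0 hg.l0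
  obtain ⟨-, x1, -⟩ := L_aN (M := M1) (L := L1) hk hg.h1 hg.m1 hg.l1
  rcases hσ with hσ | hσ
  · have ea : a = ((3840 : ℕ) : ℝ) - 1920 := by
      rw [hσ, one_mul] at h
      rw [h]
      norm_num
    rw [ea]
    refine A_hor AV hs hd (by norm_num) hS.e1 hS.e01 hg hhi
      (Or.inl ⟨rfl, rfl, rfl, ?_⟩) (fun i hi0 hi1 => ⟨GE_c (x0 i (by omega)).1 (hv1 hσ i hi0 hi1),
        GE_c (x1 i (by omega)).1 (hv1 hσ i hi0 hi1)⟩) h0 h1
    rw [hσ, abs_of_nonneg (by norm_num)]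
    norm_num
  · have ea : a = ((0 : ℕ) : ℝ) - 1920 := by
      rw [hσ] at h
      rw [Nat.cast_zero]
      linarith
    rw [ea]
    refine A_hor AV hs hd (by norm_num) hS.e1 hS.e01 hg hhi
      (Or.inl ⟨rfl, rfl, rfl, ?_⟩) (fun i hi0 hi1 => ⟨GE_c (x0 i (by omega)).2 (hv0 hσ i hi0 hi1),
        GE_c (x1 i (by omega)).2 (hv0 hσ i hi0 hi1)⟩) h0 h1
    rw [hσ, abs_of_nonpos (by norm_num)]
    norm_num

theorem sgn_of (hσ : σ = 1 ∨ σ = -1) (h : σ * a = 1920) (he : 0 ≤ a * r.e) :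
    (σ = 1 → 0 ≤ r.e) ∧ (σ = -1 → r.e ≤ 0) := by
  refine ⟨fun h1 => ?_, fun h1 => ?_⟩
  · rw [h1, one_mul] at h
    rw [h] at he
    linarith
  · rw [h1] at h
    have : a = -1920 := by linarith
    rw [this] at he
    linarith

theorem sgn_of' (hσ : σ = 1 ∨ σ = -1) (h : σ * a = 1920) (he : a * r.e ≤ 0) :
    (σ = 1 → r.e ≤ 0) ∧ (σ = -1 → 0 ≤ r.e) := by
  refine ⟨fun h1 => ?_, fun h1 => ?_⟩
  · rw [h1, one_mul] at h
    rw [h] at he
    linarith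
  · rw [h1] at h
    have : a = -1920 := by linarith
    rw [this] at he
    linarith

theorem A_T (AV : AVtx) (hs : SDok s r (py.dF || py.dH)) (hk : okS s py J1 = true)
    (hg : Gap b0 b1 M0 M1 L0 L1) (hσ : σ = 1 ∨ σ = -1) (h : σ * a = 1920) (he : 0 ≤ a * r.e)
    (h0 : 10 ≤ I) (h1 : I ≤ 30) :
    Dom (aN s py b0 M0 L0) (aN s py b1 M1 L1) (Ps s r false py.T σ 0 I a b0 b1) := by
  obtain ⟨g1, g2⟩ := sgn_of hσ h he
  exact A_top AV (lo := 10) (hi := 30) (by simp) hs hk hg hσ h le_rfl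
    (fun hs1 i hi0 _ => tc_T hi0 (sgn_hi hs (g1 hs1)))
    (fun hs1 i hi0 _ => tc_T hi0 (sgn_lo hs (g2 hs1))) (by exact_mod_cast h0)
    (by exact_mod_cast h1)

theorem A_t (AV : AVtx) (hs : SDok s r (py.dF || py.dH)) (hk : okS s py J1 = true)
    (hg : Gap b0 b1 M0 M1 L0 L1) (hσ : σ = 1 ∨ σ = -1) (h : σ * a = 1920) (he : a * r.e ≤ 0)
    (h0 : 10 ≤ I) (h1 : I ≤ 30) :
    Dom (aN s py b0 M0 L0) (aN s py b1 M1 L1) (Ps s r false py.t σ 0 I a b0 b1) := by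
  obtain ⟨g1, g2⟩ := sgn_of' hσ h he
  exact A_top AV (lo := 10) (hi := 30) (by simp) hs hk hg hσ h le_rfl
    (fun hs1 i hi0 _ => tc_t hi0 (sgn_lo hs (g1 hs1)))
    (fun hs1 i hi0 _ => tc_t hi0 (sgn_hi hs (g2 hs1))) (by exact_mod_cast h0)
    (by exact_mod_cast h1)

theorem dH_fl {py : Py} (h : py.dH = true) : (py.dF || py.dH) = true := by
  rw [h, Bool.or_true]

theorem A_U (AV : AVtx) (hs : SDok s r (py.dF || py.dH)) (hk : okS s py J1 = true)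
    (hg : Gap b0 b1 M0 M1 L0 L1) (hσ : σ = 1 ∨ σ = -1) (h : σ * a = 1920) (he : 0 ≤ a * r.e)
    (h0 : 0 ≤ I) (h1 : I ≤ 10) :
    Dom (aN s py b0 M0 L0) (aN s py b1 M1 L1) (Ps s r py.dH py.U σ 0 I a b0 b1) := by
  obtain ⟨g1, g2⟩ := sgn_of hσ h he
  exact A_top AV (lo := 0) (hi := 10) dH_fl hs hk hg hσ h (by norm_num)
    (fun hs1 i _ hi1 => tc_U hi1 (sgn_hi hs (g1 hs1)))
    (fun hs1 i _ hi1 => tc_U hi1 (sgn_lo hs (g2 hs1))) (by exact_mod_cast h0)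
    (by exact_mod_cast h1)

theorem A_u (AV : AVtx) (hs : SDok s r (py.dF || py.dH)) (hk : okS s py J1 = true)
    (hg : Gap b0 b1 M0 M1 L0 L1) (hσ : σ = 1 ∨ σ = -1) (h : σ * a = 1920) (he : a * r.e ≤ 0)
    (h0 : 0 ≤ I) (h1 : I ≤ 10) :
    Dom (aN s py b0 M0 L0) (aN s py b1 M1 L1) (Ps s r py.dH py.u σ 0 I a b0 b1) := by
  obtain ⟨g1, g2⟩ := sgn_of' hσ h he
  exact A_top AV (lo := 0) (hi := 10) dH_fl hs hk hg hσ h (by norm_num)
    (fun hs1 i _ hi1 => tc_u hi1 (sgn_lo hs (g1 hs1)))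
    (fun hs1 i _ hi1 => tc_u hi1 (sgn_hi hs (g2 hs1))) (by exact_mod_cast h0)
    (by exact_mod_cast h1)

theorem A_re (AV : AVtx) (hs : SDok s r (py.dF || py.dH)) (hk : okS s py J1 = true)
    (hg : Gap b0 b1 M0 M1 L0 L1) (hB : py.reB = true) (h0 : 20 ≤ I) (h1 : I ≤ 30) :
    Dom (aN s py b0 M0 L0) (aN s py b1 M1 L1) (Ps s r false py.re 0 1 I 0 b0 b1) := by
  have hS := okS_ok hk
  obtain ⟨-, -, -, -, -, x0, -⟩ := L_aN (M := M0) (L := L0) hk hg.h0 hg.m0 hg.l0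
  obtain ⟨-, -, -, -, -, x1, -⟩ := L_aN (M := M1) (L := L1) hk hg.h1 hg.m1 hg.l1
  have ea : (0 : ℝ) = ((1920 : ℕ) : ℝ) - 1920 := by norm_num
  have key := A_hor AV (fl := (py.dF || py.dH)) (dl := false) (bx := false) (pay := py.re)
    (a := 1920) (hat := 1920) (lo := 20) (hi := 30) (v0 := aN s py b0 M0 L0)
    (v1 := aN s py b1 M1 L1) (σ := 0) (leg := 1) (I := I) hs (by simp) (by norm_num) hS.e1 hS.e01
    hg le_rfl (Or.inr ⟨rfl, rfl, rfl, rfl⟩) (fun i hi0 hi1 => ⟨x0 hB i hi0 hi1, x1 hB i hi0 hi1⟩)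
    (by exact_mod_cast h0) (by exact_mod_cast h1)
  rw [← ea] at key
  exact key

theorem A_rz (AV : AVtx) (hs : SDok s r (py.dF || py.dH)) (hk : okS s py J1 = true)
    (hg : Gap b0 b1 M0 M1 L0 L1) (hB : py.rzB = true) (h0 : (py.rzi : ℝ) ≤ I) (h1 : I ≤ 30) :
    Dom (aN s py b0 M0 L0) (aN s py b1 M1 L1) (Ps s r false py.rz 0 1 I 0 b0 b1) := by
  have hS := okS_ok hk
  obtain ⟨-, -, -, -, -, -, x0⟩ := L_aN (M := M0) (L := L0) hk hg.h0 hg.m0 hg.l0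
  obtain ⟨-, -, -, -, -, -, x1⟩ := L_aN (M := M1) (L := L1) hk hg.h1 hg.m1 hg.l1
  have ea : (0 : ℝ) = ((1920 : ℕ) : ℝ) - 1920 := by norm_num
  have key := A_hor AV (fl := (py.dF || py.dH)) (dl := false) (bx := false) (pay := py.rz)
    (a := 1920) (hat := 1920) (lo := py.rzi) (hi := 30) (v0 := aN s py b0 M0 L0)
    (v1 := aN s py b1 M1 L1) (σ := 0) (leg := 1) (I := I) hs (by simp) (by norm_num) hS.e1 hS.e01
    hg le_rfl (Or.inr ⟨rfl, rfl, rfl, rfl⟩) (fun i hi0 hi1 => ⟨x0 hB i hi0 hi1, x1 hB i hi0 hi1⟩)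
    h0 (by exact_mod_cast h1)
  rw [← ea] at key
  exact key

end Pool.Agent.S5.G3
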