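import Pool.Agent.S5.K3.G8
import Pool.Agent.S5.K3.G9
import Pool.Agent.S5.K3.G12a

/-!
# The vertical pieces of an edge
-/

set_option autoImplicit false

namespace Pool.Agent.S5.G3

open Pool.Agent.H63.VC3 Pool.Agent.S3 Complex MeasureTheory Filter Topology Set
open Pool.Agent.S5.Tb Pool.Agent.S5.K3

theorem GE.le_c {v b M L i a c c' : ℕ} {ty : Bool} (h : GE v ty b M L i a c) (hc : c' ≤ c) :
    GE v ty b M L i a c' := fun J hJ => by
  have := h J hJ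
  omega

theorem bx2_eq (s : SD) (dl : Bool) (pay : ℕ) (bx : Bool) (i a hat M : ℕ) :
    bx2 s dl pay bx i a hat M =
      max (cs s dl pay bx i a s.e0 hat M) (cs s dl pay bx i a s.e1 hat M) := by
  unfold bx2
  exact mx_eq _ _

theorem GE.bx {v b M L i a : ℕ} {ty : Bool} {s : SD} {dl : Bool} {pay : ℕ} {bx : Bool}
    {hat G : ℕ} (h : GE v ty b M L i a (bx2 s dl pay bx i a hat G)) {e : ℕ}
    (he : e = s.e0 ∨ e = s.e1) : GE v ty b M L i a (cs s dl pay bx i a e hat G) := by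
  rw [bx2_eq] at h
  rcases he with rfl | rfl
  · exact h.le_c (le_max_left _ _)
  · exact h.le_c (le_max_right _ _)

theorem vx_e {ty : Bool} {cu : ℝ} {C : Cf} {Mh M L : ℝ} {i J : ℕ} {a b : ℤ} {e0 e1 τ : ℝ} :
    vx ty cu C Mh M L i J a b (e0 + τ * (e1 - e0)) =
      (1 - τ) * vx ty cu C Mh M L i J a b e0 + τ * vx ty cu C Mh M L i J a b e1 := by
  unfold vx Cf.v
  ring

theorem cuR_nn {s : SD} {r : Sr} {fl : Bool} (hs : SDok s r fl) (dl : Bool) :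
    0 ≤ cuR s dl := by
  unfold cuR
  rw [hs.cu]
  cases dl <;> cases s.ty <;> norm_num

/-- The vertex inequality for all heights of the flat. -/
theorem vertex_e {s : SD} {r : Sr} {fl dl bx : Bool} {pay i a hat G M L b J v : ℕ} {σ leg : ℝ}
    (hs : SDok s r fl) (hl : LvOk s.e0 s.e1) (hd : dl = true → fl = true) (hi : i ≤ 30)
    (ha : a ≤ 3840) (hb : b ≤ 3840) (hJ : J ≤ 40)
    (hbx : (bx = true ∧ leg = 0 ∧ hat = 1920 ∧ σ * ((a : ℝ) - 1920) = |(a : ℝ) - 1920|) ∨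
      (bx = false ∧ leg = 1 ∧ hat = a ∧ σ = 0))
    (hg : GE v s.ty b M L i a (bx2 s dl pay bx i a hat G)) :
    vx s.ty (cuR s dl) (cf s r dl pay σ leg) G M L i J ((a : ℤ) - 1920) ((b : ℤ) - 1920)
      r.e ≤ (lane v J : ℝ) - Ofs s.ty + 33320 := by
  have h0 := A_vertex hs hd hi ha hb (by have := hl.lt; have := hl.le; omega) hJ hbx
    (hg.bx (Or.inl rfl))
  have h1 := A_vertex hs hd hi ha hb hl.le hJ hbx (hg.bx (Or.inr rfl))
  obtain ⟨τ, t0, t1, ht⟩ := conv_ex hs.e0 hs.e1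
  rw [ht, vx_e]
  have a0 := mul_le_mul_of_nonneg_left h0 (show 0 ≤ 1 - τ by linarith)
  have a1 := mul_le_mul_of_nonneg_left h1 t0
  linarith

/-- A vertical piece between two levels. -/
theorem vert_dom {s : SD} {r : Sr} {fl dl bx : Bool}
    {pay i a0 a1 hat0 hat1 G0 G1 H0 H1 b0 b1 M0 M1 L0 L1 v0 v1 : ℕ} {σ leg p I a : ℝ}
    (hs : SDok s r fl) (hl : LvOk s.e0 s.e1) (hd : dl = true → fl = true) (hi : i ≤ 30)
    (ha0 : a0 ≤ 3840) (ha1 : a1 ≤ 3840) (hp0 : 0 ≤ p) (hp1 : p ≤ 1)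
    (hbx0 : (bx = true ∧ leg = 0 ∧ hat0 = 1920 ∧ σ * ((a0 : ℝ) - 1920) = |(a0 : ℝ) - 1920|) ∨
      (bx = false ∧ leg = 1 ∧ hat0 = a0 ∧ σ = 0))
    (hbx1 : (bx = true ∧ leg = 0 ∧ hat1 = 1920 ∧ σ * ((a1 : ℝ) - 1920) = |(a1 : ℝ) - 1920|) ∨
      (bx = false ∧ leg = 1 ∧ hat1 = a1 ∧ σ = 0))
    (hG : 4 * (p * (1 - p)) * (((a1 : ℝ) - a0) / 64) ^ 2 ≤ (1 - p) * G0 + p * G1)
    (hH : 4 * (p * (1 - p)) * (|(a1 : ℝ) - a0| / 64) ≤ (1 - p) * H0 + p * H1)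
    (hg : Gap b0 b1 M0 M1 L0 L1)
    (g00 : GE v0 s.ty b0 (M0 + G0) (L0 + H0) i a0 (bx2 s dl pay bx i a0 hat0 G0))
    (g01 : GE v1 s.ty b1 (M1 + G0) (L1 + H0) i a0 (bx2 s dl pay bx i a0 hat0 G0))
    (g10 : GE v0 s.ty b0 (M0 + G1) (L0 + H1) i a1 (bx2 s dl pay bx i a1 hat1 G1))
    (g11 : GE v1 s.ty b1 (M1 + G1) (L1 + H1) i a1 (bx2 s dl pay bx i a1 hat1 G1))
    (hI : I = i) (ha : a = (a0 : ℝ) - 1920 + p * ((a1 : ℝ) - a0)) :
    Dom v0 v1 (Ps s r dl pay σ leg I a b0 b1) := by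
  intro J t q hJ hJt ht0 ht1 hq0 hq1
  have h := slot_int (ty := s.ty) (cu := cuR s dl) (C := cf s r dl pay σ leg) (i := i) (J := J)
    (t := 0) (s := t) (p := p) (q := q) (a0 := a0) (a1 := a1) (b0 := b0) (b1 := b1) (G0 := G0)
    (G1 := G1) (H0 := H0) (H1 := H1) (M0 := M0) (M1 := M1) (L0 := L0) (L1 := L1) (e0 := r.e)
    (e1 := r.e) (X0 := fun K => (lane v0 K : ℝ) - Ofs s.ty + 33320)
    (X1 := fun K => (lane v1 K : ℝ) - Ofs s.ty + 33320) (cuR_nn hs dl) hi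
    (fun h => absurd h (lt_irrefl _)) hJ hJt le_rfl zero_le_one ht0 ht1 hp0 hp1 hq0 hq1 ha0 ha1
    hG hH hg (by
      intro i' J' hi' hJ'
      have ei : i' = i := by
        rcases hi' with h | ⟨-, h⟩
        · exact h
        · exact absurd h (lt_irrefl _)
      have eJ : J' ≤ 40 := by
        rcases hJ' with h | ⟨h, h'⟩
        · omega
        · have := hJt h'
          omega
      subst ei
      have k00 := vertex_e (J := J') hs hl hd hi ha0 hg.h0 eJ hbx0 g00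
      have k01 := vertex_e (J := J') hs hl hd hi ha0 hg.h1 eJ hbx0 g01
      have k10 := vertex_e (J := J') hs hl hd hi ha1 hg.h0 eJ hbx1 g10
      have k11 := vertex_e (J := J') hs hl hd hi ha1 hg.h1 eJ hbx1 g11
      simp only [Nat.cast_add] at k00 k01 k10 k11
      exact ⟨k00, k01, k10, k11⟩)
  have e1 : r.e + p * (r.e - r.e) = r.e := by ring
  have e2 : (i : ℝ) + 0 = I := by rw [hI, add_zero]
  rw [e1, e2, ← ha] at h
  unfold Ps
  linarith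

/-- The heights of `okS`. -/
theorem lv_of {s : SD} {py : Py} {J1 : ℕ} (h : okS s py J1 = true) : LvOk s.e0 s.e1 := by
  have := okS_ok h
  exact ⟨this.e01, this.e1, this.e15, this.st⟩

/-- The legs. -/
theorem A_leg {s : SD} {r : Sr} {py : Py} {J1 b0 b1 M0 M1 L0 L1 : ℕ} {a : ℝ}
    (hs : SDok s r (py.dF || py.dH)) (hk : okS s py J1 = true)
    (hg : Gap b0 b1 M0 M1 L0 L1) (h : a ∈ uIcc 0 r.e) :
    Dom (aN s py b0 M0 L0) (aN s py b1 M1 L1) (Ps s r py.dH py.L 0 1 0 a b0 b1) ∧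
    Dom (aN s py b0 M0 L0) (aN s py b1 M1 L1) (Ps s r false py.R 0 1 30 a b0 b1) := by
  have hl := lv_of hk
  obtain ⟨a0, a1, p, l0, l1, p0, p1, ha, hd⟩ := leg_split hl hs.e0 hs.e1 h
  obtain ⟨f1, f2, f3⟩ := hl.facts
  have hh : ∀ g : ℕ, (g = 1920 ∨ g = lv1 s.e0 s.e1 ∨ g = lv2 s.e0 s.e1) → g ≤ 3840 := by
    rintro g (h | h | h)
    · rw [h]
      norm_num
    · rw [h]
      exact f1
    · rw [h]
      exact f2
  obtain ⟨-, -, -, -, n0, -⟩ := L_aN hk hg.h0 hg.m0 hg.l0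
  obtain ⟨-, -, -, -, n1, -⟩ := L_aN hk hg.h1 hg.m1 hg.l1
  obtain ⟨hG, hH⟩ := gap_two p0 p1 hd
  constructor
  · exact vert_dom (bx := false) (hat0 := a0) (hat1 := a1) hs hl
      (fun h => by rw [h]; cases py.dF <;> rfl) (Nat.zero_le _) (hh a0 l0) (hh a1 l1) p0 p1
      (Or.inr ⟨rfl, rfl, rfl, rfl⟩) (Or.inr ⟨rfl, rfl, rfl, rfl⟩) hG hH hg (n0 a0 l0).1
      (n1 a0 l0).1 (n0 a1 l1).1 (n1 a1 l1).1 (by simp) ha
  · exact vert_dom (bx := false) (hat0 := a0) (hat1 := a1) hs hl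
      (fun h => absurd h (by simp)) le_rfl (hh a0 l0) (hh a1 l1) p0 p1
      (Or.inr ⟨rfl, rfl, rfl, rfl⟩) (Or.inr ⟨rfl, rfl, rfl, rfl⟩) hG hH hg (n0 a0 l0).2
      (n1 a0 l0).2 (n0 a1 l1).2 (n1 a1 l1).2 (by norm_num) ha

/-! ### The sides -/

theorem mxl (a b : ℕ) : a ≤ mx a b := by
  rw [mx_eq]
  exact le_max_left _ _

theorem mxr (a b : ℕ) : b ≤ mx a b := by
  rw [mx_eq]
  exact le_max_right _ _

theorem mcl {x y z : ℕ} {sm : Bool} (h : sm = true) (hz : z = mx (cond sm x 0) y) : x ≤ z := by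
  subst hz
  subst h
  exact mxl _ _

theorem mcr {x y z : ℕ} {sm : Bool} (h : sm = true) (hz : z = mx y (cond sm x 0)) : x ≤ z := by
  subst hz
  subst h
  exact mxr _ _

theorem vl_sm {s : SD} {py : Py} {a G : ℕ} {sm op : Bool} (h : sm = true) :
    bx2 s py.dH py.P true 0 a 1920 G ≤ vl s py a sm op G :=
  mcl (y := cond op (bx2 s py.dH py.p true 0 a 1920 G) 0) h rfl

theorem vl_op {s : SD} {py : Py} {a G : ℕ} {sm op : Bool} (h : op = true) :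
    bx2 s py.dH py.p true 0 a 1920 G ≤ vl s py a sm op G :=
  mcr (y := cond sm (bx2 s py.dH py.P true 0 a 1920 G) 0) h rfl

theorem vr_sm {s : SD} {py : Py} {a G : ℕ} {sm op : Bool} (h : sm = true) :
    bx2 s false py.Q true 30 a 1920 G ≤ vr s py a sm op G :=
  mcl (y := cond op (bx2 s false py.q true 30 a 1920 G) 0) h rfl

theorem vr_op {s : SD} {py : Py} {a G : ℕ} {sm op : Bool} (h : op = true) :
    bx2 s false py.q true 30 a 1920 G ≤ vr s py a sm op G :=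
  mcr (y := cond sm (bx2 s false py.Q true 30 a 1920 G) 0) h rfl

/-- A piece of a side: the constants `c a G` at the levels. -/
theorem side_dom {s : SD} {r : Sr} {fl dl : Bool} {pay i b0 b1 M0 M1 L0 L1 v0 v1 : ℕ} {σ I a : ℝ}
    (hs : SDok s r fl) (hl : LvOk s.e0 s.e1) (hd : dl = true → fl = true) (hi : i ≤ 30)
    (hσ : σ = 1 ∨ σ = -1) (h0 : 0 ≤ σ * a) (h : σ * a ≤ 1920) (hg : Gap b0 b1 M0 M1 L0 L1)
    (n0 : GE v0 s.ty b0 (M0 + gM (gpl s.e0 s.e1)) (L0 + gL (gpl s.e0 s.e1)) i 1920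
      (bx2 s dl pay true i 1920 1920 (gM (gpl s.e0 s.e1))))
    (n1 : GE v1 s.ty b1 (M1 + gM (gpl s.e0 s.e1)) (L1 + gL (gpl s.e0 s.e1)) i 1920
      (bx2 s dl pay true i 1920 1920 (gM (gpl s.e0 s.e1))))
    (up : 0 < a → GE v0 s.ty b0 (M0 + 900) (L0 + 60) i 2880 (bx2 s dl pay true i 2880 1920 900) ∧
      GE v1 s.ty b1 (M1 + 900) (L1 + 60) i 2880 (bx2 s dl pay true i 2880 1920 900) ∧
      GE v0 s.ty b0 (M0 + 225) (L0 + 15) i 3840 (bx2 s dl pay true i 3840 1920 225) ∧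
      GE v1 s.ty b1 (M1 + 225) (L1 + 15) i 3840 (bx2 s dl pay true i 3840 1920 225))
    (lo : a < 0 → GE v0 s.ty b0 (M0 + 900) (L0 + 60) i 960 (bx2 s dl pay true i 960 1920 900) ∧
      GE v1 s.ty b1 (M1 + 900) (L1 + 60) i 960 (bx2 s dl pay true i 960 1920 900) ∧
      GE v0 s.ty b0 (M0 + 225) (L0 + 15) i 0 (bx2 s dl pay true i 0 1920 225) ∧
      GE v1 s.ty b1 (M1 + 225) (L1 + 15) i 0 (bx2 s dl pay true i 0 1920 225))
    (hI : I = i) : Dom v0 v1 (Ps s r dl pay σ 0 I a b0 b1) := by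
  obtain ⟨f1, f2, f3⟩ := hl.facts
  have hM := (gM_le f3).trans (show 225 ≤ 900 by norm_num)
  have hL := (gL_le f3).trans (show 15 ≤ 60 by norm_num)
  rcases lt_trichotomy a 0 with ha | ha | ha
  · -- below
    have hs1 : σ = -1 := by
      rcases hσ with h | h
      · rw [h] at h0
        linarith
      · exact h
    obtain ⟨k0, k1, k2, k3⟩ := lo ha
    rw [hs1] at h0 h ⊢
    rcases le_total (-a) 960 with h9 | h9
    · obtain ⟨p, p0, p1, hp⟩ := conv_ex (u := 0) (v := 960) (x := -a) (by linarith) h9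
      have gp : Gap 1920 960 (gM (gpl s.e0 s.e1)) 900 (gL (gpl s.e0 s.e1)) 60 :=
        Gap.near (by norm_num) (by norm_num) (by norm_num) hM hL
      exact vert_dom (a0 := 1920) (a1 := 960) (hat0 := 1920) (hat1 := 1920) hs hl hd hi
        (by norm_num) (by norm_num) p0 p1 (Or.inl ⟨rfl, rfl, rfl, by norm_num⟩)
        (Or.inl ⟨rfl, rfl, rfl, by norm_num⟩) (gp.M p p0 p1) (gp.L p p0 p1) hg n0 n1 k0 k1 hI
        (by push_cast; linarith)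
    · obtain ⟨p, p0, p1, hp⟩ := conv_ex (u := 960) (v := 1920) (x := -a) h9 (by linarith)
      have gp : Gap 960 0 900 225 60 15 := Gap.far (by norm_num) (by norm_num) (by norm_num)
      exact vert_dom (a0 := 960) (a1 := 0) (hat0 := 1920) (hat1 := 1920) hs hl hd hi
        (by norm_num) (by norm_num) p0 p1 (Or.inl ⟨rfl, rfl, rfl, by norm_num⟩)
        (Or.inl ⟨rfl, rfl, rfl, by norm_num⟩) (gp.M p p0 p1) (gp.L p p0 p1) hg k0 k1 k2 k3 hI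
        (by push_cast; linarith)
  · -- on the real line
    exact vert_dom (a0 := 1920) (a1 := 1920) (hat0 := 1920) (hat1 := 1920) (p := 0) hs hl hd hi
      (by norm_num) (by norm_num) le_rfl zero_le_one (Or.inl ⟨rfl, rfl, rfl, by norm_num⟩)
      (Or.inl ⟨rfl, rfl, rfl, by norm_num⟩) (by simp) (by simp) hg n0 n1 n0 n1 hI
      (by rw [ha]; norm_num)
  · have hs1 : σ = 1 := by
      rcases hσ with h | h
      · exact h
      · rw [h] at h0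
        linarith
    obtain ⟨k0, k1, k2, k3⟩ := up ha
    rw [hs1] at h0 h ⊢
    rcases le_total a 960 with h9 | h9
    · obtain ⟨p, p0, p1, hp⟩ := conv_ex (u := 0) (v := 960) (x := a) (by linarith) h9
      have gp : Gap 1920 2880 (gM (gpl s.e0 s.e1)) 900 (gL (gpl s.e0 s.e1)) 60 :=
        Gap.near (by norm_num) (by norm_num) (by norm_num) hM hL
      exact vert_dom (a0 := 1920) (a1 := 2880) (hat0 := 1920) (hat1 := 1920) hs hl hd hi
        (by norm_num) (by norm_num) p0 p1 (Or.inl ⟨rfl, rfl, rfl, by norm_num⟩)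
        (Or.inl ⟨rfl, rfl, rfl, by norm_num⟩) (gp.M p p0 p1) (gp.L p p0 p1) hg n0 n1 k0 k1 hI
        (by push_cast; linarith)
    · obtain ⟨p, p0, p1, hp⟩ := conv_ex (u := 960) (v := 1920) (x := a) h9 (by linarith)
      have gp : Gap 2880 3840 900 225 60 15 := Gap.far (by norm_num) (by norm_num) (by norm_num)
      exact vert_dom (a0 := 2880) (a1 := 3840) (hat0 := 1920) (hat1 := 1920) hs hl hd hi
        (by norm_num) (by norm_num) p0 p1 (Or.inl ⟨rfl, rfl, rfl, by norm_num⟩)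
        (Or.inl ⟨rfl, rfl, rfl, by norm_num⟩) (gp.M p p0 p1) (gp.L p p0 p1) hg k0 k1 k2 k3 hI
        (by push_cast; linarith)

/-- The flags of the rectangles. -/
theorem fl_sm {e0 e1 : ℕ} {e a : ℝ} (h0 : (e0 : ℝ) - 1920 ≤ e) (h1 : e ≤ (e1 : ℝ) - 1920)
    (he : 0 ≤ a * e) : (0 < a → Nat.ble 1920 e1 = true) ∧ (a < 0 → Nat.ble e0 1920 = true) := by
  constructor
  · intro ha
    have h2 : 0 ≤ e := by
      by_contra h
      push Not at h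
      have := mul_neg_of_pos_of_neg ha h
      linarith
    have : (1920 : ℝ) ≤ e1 := by linarith
    exact ble_true (by exact_mod_cast this)
  · intro ha
    have h2 : e ≤ 0 := by
      by_contra h
      push Not at h
      have := mul_neg_of_neg_of_pos ha h
      linarith
    have : (e0 : ℝ) ≤ 1920 := by linarith
    exact ble_true (by exact_mod_cast this)

/-- The flags of the rectangles, the other side. -/
theorem fl_op {e0 e1 : ℕ} {e a : ℝ} (h0 : (e0 : ℝ) - 1920 ≤ e) (h1 : e ≤ (e1 : ℝ) - 1920)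
    (he : a * e ≤ 0) : (0 < a → Nat.ble e0 1920 = true) ∧ (a < 0 → Nat.ble 1920 e1 = true) := by
  constructor
  · intro ha
    have h2 : e ≤ 0 := by
      by_contra h
      push Not at h
      have := mul_pos ha h
      linarith
    have : (e0 : ℝ) ≤ 1920 := by linarith
    exact ble_true (by exact_mod_cast this)
  · intro ha
    have h2 : 0 ≤ e := by
      by_contra h
      push Not at h
      have := mul_pos_of_neg_of_neg ha h
      linarith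
    have : (1920 : ℝ) ≤ e1 := by linarith
    exact ble_true (by exact_mod_cast this)

theorem A_P {s : SD} {r : Sr} {py : Py} {J1 b0 b1 M0 M1 L0 L1 : ℕ} {a σ : ℝ}
    (hs : SDok s r (py.dF || py.dH)) (hk : okS s py J1 = true) (hg : Gap b0 b1 M0 M1 L0 L1)
    (hσ : σ = 1 ∨ σ = -1) (h0 : 0 ≤ σ * a) (h : σ * a ≤ 1920) (he : 0 ≤ a * r.e) :
    Dom (aN s py b0 M0 L0) (aN s py b1 M1 L1) (Ps s r py.dH py.P σ 0 0 a b0 b1) := by
  have hl := lv_of hk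
  obtain ⟨f1, f2⟩ := fl_sm hs.e0 hs.e1 he
  obtain ⟨-, -, ⟨x1, -, x2, -, x3, -, x4, -⟩, ⟨x5, -⟩, -⟩ := L_aN hk hg.h0 hg.m0 hg.l0
  obtain ⟨-, -, ⟨y1, -, y2, -, y3, -, y4, -⟩, ⟨y5, -⟩, -⟩ := L_aN hk hg.h1 hg.m1 hg.l1
  exact side_dom hs hl (fun h => by rw [h]; cases py.dF <;> rfl) (Nat.zero_le _) hσ h0 h hg
    (x5.le_c (vl_sm rfl)) (y5.le_c (vl_sm rfl))
    (fun ha => ⟨x3.le_c (vl_sm (f1 ha)), y3.le_c (vl_sm (f1 ha)), x4.le_c (vl_sm (f1 ha)),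
      y4.le_c (vl_sm (f1 ha))⟩)
    (fun ha => ⟨x2.le_c (vl_sm (f2 ha)), y2.le_c (vl_sm (f2 ha)), x1.le_c (vl_sm (f2 ha)),
      y1.le_c (vl_sm (f2 ha))⟩) (by simp)

theorem A_p {s : SD} {r : Sr} {py : Py} {J1 b0 b1 M0 M1 L0 L1 : ℕ} {a σ : ℝ}
    (hs : SDok s r (py.dF || py.dH)) (hk : okS s py J1 = true) (hg : Gap b0 b1 M0 M1 L0 L1)
    (hσ : σ = 1 ∨ σ = -1) (h0 : 0 ≤ σ * a) (h : σ * a ≤ 1920) (he : a * r.e ≤ 0) :
    Dom (aN s py b0 M0 L0) (aN s py b1 M1 L1) (Ps s r py.dH py.p σ 0 0 a b0 b1) := by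
  have hl := lv_of hk
  obtain ⟨f1, f2⟩ := fl_op hs.e0 hs.e1 he
  obtain ⟨-, -, ⟨x1, -, x2, -, x3, -, x4, -⟩, ⟨x5, -⟩, -⟩ := L_aN hk hg.h0 hg.m0 hg.l0
  obtain ⟨-, -, ⟨y1, -, y2, -, y3, -, y4, -⟩, ⟨y5, -⟩, -⟩ := L_aN hk hg.h1 hg.m1 hg.l1
  exact side_dom hs hl (fun h => by rw [h]; cases py.dF <;> rfl) (Nat.zero_le _) hσ h0 h hg
    (x5.le_c (vl_op rfl)) (y5.le_c (vl_op rfl))
    (fun ha => ⟨x3.le_c (vl_op (f1 ha)), y3.le_c (vl_op (f1 ha)), x4.le_c (vl_op (f1 ha)),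
      y4.le_c (vl_op (f1 ha))⟩)
    (fun ha => ⟨x2.le_c (vl_op (f2 ha)), y2.le_c (vl_op (f2 ha)), x1.le_c (vl_op (f2 ha)),
      y1.le_c (vl_op (f2 ha))⟩) (by simp)

theorem A_Q {s : SD} {r : Sr} {py : Py} {J1 b0 b1 M0 M1 L0 L1 : ℕ} {a σ : ℝ}
    (hs : SDok s r (py.dF || py.dH)) (hk : okS s py J1 = true) (hg : Gap b0 b1 M0 M1 L0 L1)
    (hσ : σ = 1 ∨ σ = -1) (h0 : 0 ≤ σ * a) (h : σ * a ≤ 1920) (he : 0 ≤ a * r.e) :
    Dom (aN s py b0 M0 L0) (aN s py b1 M1 L1) (Ps s r false py.Q σ 0 30 a b0 b1) := by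
  have hl := lv_of hk
  obtain ⟨f1, f2⟩ := fl_sm hs.e0 hs.e1 he
  obtain ⟨-, -, ⟨-, x1, -, x2, -, x3, -, x4⟩, ⟨-, x5⟩, -⟩ := L_aN hk hg.h0 hg.m0 hg.l0
  obtain ⟨-, -, ⟨-, y1, -, y2, -, y3, -, y4⟩, ⟨-, y5⟩, -⟩ := L_aN hk hg.h1 hg.m1 hg.l1
  exact side_dom hs hl (fun h => absurd h (by simp)) le_rfl hσ h0 h hg
    (x5.le_c (vr_sm rfl)) (y5.le_c (vr_sm rfl))
    (fun ha => ⟨x3.le_c (vr_sm (f1 ha)), y3.le_c (vr_sm (f1 ha)), x4.le_c (vr_sm (f1 ha)),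
      y4.le_c (vr_sm (f1 ha))⟩)
    (fun ha => ⟨x2.le_c (vr_sm (f2 ha)), y2.le_c (vr_sm (f2 ha)), x1.le_c (vr_sm (f2 ha)),
      y1.le_c (vr_sm (f2 ha))⟩) (by norm_num)

theorem A_q {s : SD} {r : Sr} {py : Py} {J1 b0 b1 M0 M1 L0 L1 : ℕ} {a σ : ℝ}
    (hs : SDok s r (py.dF || py.dH)) (hk : okS s py J1 = true) (hg : Gap b0 b1 M0 M1 L0 L1)
    (hσ : σ = 1 ∨ σ = -1) (h0 : 0 ≤ σ * a) (h : σ * a ≤ 1920) (he : a * r.e ≤ 0) :
    Dom (aN s py b0 M0 L0) (aN s py b1 M1 L1) (Ps s r false py.q σ 0 30 a b0 b1) := by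
  have hl := lv_of hk
  obtain ⟨f1, f2⟩ := fl_op hs.e0 hs.e1 he
  obtain ⟨-, -, ⟨-, x1, -, x2, -, x3, -, x4⟩, ⟨-, x5⟩, -⟩ := L_aN hk hg.h0 hg.m0 hg.l0
  obtain ⟨-, -, ⟨-, y1, -, y2, -, y3, -, y4⟩, ⟨-, y5⟩, -⟩ := L_aN hk hg.h1 hg.m1 hg.l1
  exact side_dom hs hl (fun h => absurd h (by simp)) le_rfl hσ h0 h hg
    (x5.le_c (vr_op rfl)) (y5.le_c (vr_op rfl))
    (fun ha => ⟨x3.le_c (vr_op (f1 ha)), y3.le_c (vr_op (f1 ha)), x4.le_c (vr_op (f1 ha)),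
      y4.le_c (vr_op (f1 ha))⟩)
    (fun ha => ⟨x2.le_c (vr_op (f2 ha)), y2.le_c (vr_op (f2 ha)), x1.le_c (vr_op (f2 ha)),
      y1.le_c (vr_op (f2 ha))⟩) (by norm_num)

end Pool.Agent.S5.G3
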