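import Pool.Agent.S5.K3.G9b
import Pool.Agent.S5.K3.G9h
import Pool.Agent.S5.K3.G9v

/-!
# One slot: all free pieces besides the flat
-/

set_option autoImplicit false

namespace Pool.Agent.S5.G3

open Pool.Agent.H63.VC3 Pool.Agent.S3 Complex MeasureTheory Filter Topology Set
open Pool.Agent.S5.Tb Pool.Agent.S5.K3

theorem avtx : AVtx := fun _ _ _ _ _ _ _ _ _ _ _ _ _ _ _ _ _ _ h1 h2 h3 h4 h5 h6 h7 h8 h9 =>
  A_vertex h1 h2 h3 h4 h5 h6 h7 h8 h9

theorem A_N {s : SD} {r : Sr} {py : Py} {J1 b0 b1 M0 M1 L0 L1 : ℕ} {I a : ℝ} {dl : Bool}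
    {pay : ℕ} {σ leg : ℝ} (hs : SDok s r (py.dF || py.dH)) (hk : okS s py J1 = true)
    (hg : Gap b0 b1 M0 M1 L0 L1) (h : OnN py r.e I a dl pay σ leg) :
    Dom (aN s py b0 M0 L0) (aN s py b1 M1 L1) (Ps s r dl pay σ leg I a b0 b1) := by
  cases h with
  | L h => exact (A_leg hs hk hg h).1
  | R h => exact (A_leg hs hk hg h).2
  | T hσ h he h0 h1 => exact A_T avtx hs hk hg hσ h he h0 h1
  | t hσ h he h0 h1 => exact A_t avtx hs hk hg hσ h he h0 h1
  | U hσ h he h0 h1 => exact A_U avtx hs hk hg hσ h he h0 h1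
  | u hσ h he h0 h1 => exact A_u avtx hs hk hg hσ h he h0 h1
  | P hσ h0 h he => exact A_P hs hk hg hσ h0 h he
  | p hσ h0 h he => exact A_p hs hk hg hσ h0 h he
  | Q hσ h0 h he => exact A_Q hs hk hg hσ h0 h he
  | q hσ h0 h he => exact A_q hs hk hg hσ h0 h he
  | re hB h0 h1 => exact A_re avtx hs hk hg hB h0 h1
  | rz hB h0 h1 => exact A_rz avtx hs hk hg hB h0 h1

end Pool.Agent.S5.G3
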