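import Pool.Agent.S5.K3.CkE
import Pool.Agent.S5.K3.GoS

/-!
# The tree of the cells with the boxes of the neighbours

The instructions are those of `goE`; `el`: the cells have the additional forms (119 fields) or not
(91 fields). The instruction `7` is followed by two bits: `0`, `1`: an empty cell by the first,
second additional form; `2`, `3`: the cell misses all the boxes of one of the two lists.
-/

set_option autoImplicit false

namespace Pool.Agent.S5.K3

open Pool.Agent.S5.Num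

/-- The rectangle `[a, b] x [c, d]` misses `r`. -/
def dj (a b c d : Nat) (r : Rc) : Bool :=
  cond (Nat.ble (Nat.succ b) r.re.lo) true (cond (Nat.ble (Nat.succ r.re.hi) a) true
    (cond (Nat.ble (Nat.succ d) r.im.lo) true (Nat.ble (Nat.succ r.im.hi) c)))

/-- The rectangle misses all the boxes. -/
def djs (a b c d : Nat) (L : List Rc) : Bool :=
  List.rec (motive := fun _ => Bool) true (fun r _ ih => cond (dj a b c d r) ih false) L

/-- The cell misses all the products of the boxes. -/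
def djp (a0 a1 a2 a3 a4 a5 a6 a7 : Nat) (L1 L2 : List Rc) : Bool :=
  cond (djs a0 a1 a2 a3 L1) true (djs a4 a5 a6 a7 L2)

/-- The tree. -/
def goF (chk : OutB → Nat → (Nat → Bool) → Bool) (el fy fb : Bool) (W : Rc) (f1 f2 : Bool)
    (kn1 kn2 : Kn) (L1 L2 : List Rc) (fuel : Nat) :
    Bs → Nat → Nat → Nat → Nat → Nat → Nat → Nat → Nat → Nat → (Bs → Nat → Bool) → Bool :=
  Nat.rec (fun _ _ _ _ _ _ _ _ _ _ _ => false)
    (fun _ ih b n a0 a1 a2 a3 a4 a5 a6 a7 k => cut 3 n (fun op r =>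
      cond (Nat.ble op 3)
        (cond (Nat.ble op 1)
          (cond (Nat.ble op 0)
            (fN (fun m => ih b r a0 m a2 a3 a4 a5 a6 a7 (fun b r =>
              ih b r m a1 a2 a3 a4 a5 a6 a7 k)) (Nat.div (Nat.add a0 a1) 2))
            (fN (fun m => ih b r a0 a1 a2 m a4 a5 a6 a7 (fun b r =>
              ih b r a0 a1 m a3 a4 a5 a6 a7 k)) (Nat.div (Nat.add a2 a3) 2)))
          (cond (Nat.ble op 2)
            (fN (fun m => ih b r a0 a1 a2 a3 a4 m a6 a7 (fun b r =>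
              ih b r a0 a1 a2 a3 m a5 a6 a7 k)) (Nat.div (Nat.add a4 a5) 2))
            (fN (fun m => ih b r a0 a1 a2 a3 a4 a5 a6 m (fun b r =>
              ih b r a0 a1 a2 a3 a4 a5 m a7 k)) (Nat.div (Nat.add a6 a7) 2))))
        (cond (Nat.ble op 4)
          (cut 360 r (fun c r => rdOu c 0 (fun o =>
            cond (ckX b ⟨⟨a0, a1⟩, ⟨a2, a3⟩⟩ ⟨⟨a4, a5⟩, ⟨a6, a7⟩⟩ o W) (k b r) false)))
        (cond (Nat.ble op 5)
          (cond el
            (kn1 ⟨⟨a0, a1⟩, ⟨a2, a3⟩⟩ r (fun sr si W1 r => kn2 ⟨⟨a4, a5⟩, ⟨a6, a7⟩⟩ r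
              (fun tr ti W2 r => cut 4760 r (fun c r => rdCE c (fun o w =>
              cond (ckCE b ⟨⟨a0, a1⟩, ⟨a2, a3⟩⟩ ⟨⟨a4, a5⟩, ⟨a6, a7⟩⟩ f1 f2 sr si W1 tr ti W2 fy fb o w)
                (chk w r (fun r => k b r)) false)))))
            (cut 3640 r (fun c r => rdCl c (fun o w =>
              cond (ckC b ⟨⟨a0, a1⟩, ⟨a2, a3⟩⟩ ⟨⟨a4, a5⟩, ⟨a6, a7⟩⟩ fy fb o w)
                (chk w r (fun r => k b r)) false))))
        (cond (Nat.ble op 6)
          (cut 2520 r (fun c r => rdBs c (fun b => cond (ckB b)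
            (ih b r a0 a1 a2 a3 a4 a5 a6 a7 k) false)))
          (cut 2 r (fun t r => cond (Nat.ble t 1)
            (cond (Nat.ble t 0)
              (cond f1 (kn1 ⟨⟨a0, a1⟩, ⟨a2, a3⟩⟩ r (fun sr si W1 r => cut 360 r (fun c r =>
                rdOu c 0 (fun o => cond (ckX1 b ⟨⟨a0, a1⟩, ⟨a2, a3⟩⟩ ⟨⟨a4, a5⟩, ⟨a6, a7⟩⟩ sr si W1 o)
                  (k b r) false)))) false)
              (cond f2 (kn2 ⟨⟨a4, a5⟩, ⟨a6, a7⟩⟩ r (fun sr si W2 r => cut 360 r (fun c r =>
                rdOu c 0 (fun o => cond (ckX2 b ⟨⟨a0, a1⟩, ⟨a2, a3⟩⟩ ⟨⟨a4, a5⟩, ⟨a6, a7⟩⟩ sr si W2 o)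
                  (k b r) false)))) false))
            (cond (djp a0 a1 a2 a3 a4 a5 a6 a7 L1 L2) (k b r) false))))))))
    fuel

/-- The whole tree; the first instruction is a base. -/
def goFC (chk : OutB → Nat → (Nat → Bool) → Bool) (el fy fb : Bool) (W : Rc) (f1 f2 : Bool)
    (kn1 kn2 : Kn) (L1 L2 : List Rc) (n a0 a1 a2 a3 a4 a5 a6 a7 : Nat) : Bool :=
  cut 2520 n (fun c r => rdBs c (fun b => cond (ckB b)
    (goF chk el fy fb W f1 f2 kn1 kn2 L1 L2 10000 b r a0 a1 a2 a3 a4 a5 a6 a7 (fun _ _ => true))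
    false))

/-- The hull of a list of boxes contains all of them. -/
def hul (a b c d : Nat) (L : List Rc) : Bool :=
  List.rec (motive := fun _ => Bool) true (fun r _ ih =>
    cond (cond (Nat.ble a r.re.lo) (cond (Nat.ble r.re.hi b) (cond (Nat.ble c r.im.lo)
      (Nat.ble r.im.hi d) false) false) false) ih false) L

/-- The check of a group. -/
def goG (chk : OutB → Nat → (Nat → Bool) → Bool) (el fy fb : Bool) (W : Rc) (f1 f2 : Bool)
    (kn1 kn2 : Kn) (L1 L2 : List Rc) (n a0 a1 a2 a3 a4 a5 a6 a7 : Nat) : Bool :=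
  cond (hul a0 a1 a2 a3 L1) (cond (hul a4 a5 a6 a7 L2)
    (goFC chk el fy fb W f1 f2 kn1 kn2 L1 L2 n a0 a1 a2 a3 a4 a5 a6 a7) false) false

end Pool.Agent.S5.K3
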