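import Pool.Agent.S5.K3.Chk3
import Pool.Agent.S5.K3.End3

/-!
# Groups of neighbours of a node with three half twists
-/

set_option autoImplicit false

namespace Pool.Agent.S5.K3

open Complex Pool.Agent.S5.Num Pool.Agent.S5.G3

/-- A group: kinds of the edges, first position of the contour of the variable of the node, kinds of
the neighbours (`0`: no relation, `2`: end with two half twists, `3`, `4`: end with three half twists
and the edge `A`, `S`), potentials, rectangle of the node, rectangles of the neighbours, hulls. -/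
structure GD where
  ty : Bool
  tb : Bool
  J1 : Nat
  k1 : Nat
  k2 : Nat
  py : Py
  pb : Py
  W : Rc
  L1 : List Rc
  L2 : List Rc
  u : Rc
  v : Rc

/-- There is a relation. -/
def fk (k : Nat) : Bool := Nat.ble 1 k

/-- End of three half twists. -/
def f3 (k : Nat) : Bool := Nat.ble 3 k

/-- The point `π / 2 i`. -/
def c2A : Rc := ⟨⟨67108864, 67108864⟩, ⟨68755963, 68755964⟩⟩

/-- The reader of the hints of an end. -/
def knk (k : Nat) : Kn :=
  cond (Nat.ble k 2) (cond (Nat.ble k 0) knZ (knC c2A))
    (cond (Nat.ble k 3) (kn3 6746518852 0) (kn3 13493037705 0))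

/-- The relation of an end. -/
def Qk (k : ℕ) (K X : ℂ) : Prop :=
  if k ≤ 2 then (if k = 0 then True else K = 2 * X + Real.pi / 2 * I)
    else if k ≤ 3 then Q3 1 K X else Q3 2 K X

theorem c2A_in : c2A.In (Real.pi / 2 * I) := by
  have pi1 := Real.pi_gt_d20
  have pi2 := Real.pi_lt_d20
  have e0 : (Real.pi / 2 * I : ℂ) = ((Real.pi / 2 : ℝ) : ℂ) * I := by push_cast; ring
  have e1 : (Real.pi / 2 * I : ℂ).re = 0 := by rw [e0, re_ofReal_mul, I_re, mul_zero]
  have e2 : (Real.pi / 2 * I : ℂ).im = Real.pi / 2 := by rw [e0, im_ofReal_mul, I_im, mul_one]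
  constructor
  · rw [e1]
    constructor
    · show ((67108864 : ℕ) : ℝ) - 67108864 ≤ 1048576 * 0
      norm_num
    · show (1048576 : ℝ) * 0 ≤ ((67108864 : ℕ) : ℝ) - 67108864
      norm_num
  · rw [e2]
    constructor
    · show ((68755963 : ℕ) : ℝ) - 67108864 ≤ 1048576 * (Real.pi / 2)
      push_cast
      linarith
    · show (1048576 : ℝ) * (Real.pi / 2) ≤ ((68755964 : ℕ) : ℝ) - 67108864
      push_cast
      linarith

theorem ble_f {a b : ℕ} (h : b < a) : Nat.ble a b = false := by
  cases e : Nat.ble a b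
  · rfl
  · exact absurd (Nat.le_of_ble_eq_true e) (by omega)

theorem ble_t {a b : ℕ} (h : a ≤ b) : Nat.ble a b = true := Nat.ble_eq_true_of_le h

theorem knk_ok (k : ℕ) : KnOK (fk k) (knk k) (Qk k) := by
  rcases Nat.lt_or_ge 2 k with h | h
  · rcases Nat.lt_or_ge 3 k with h3 | h3
    · have e1 : knk k = kn3 13493037705 0 := by
        unfold knk
        rw [ble_f h, ble_f h3, cond_false, cond_false]
      have e2 : Qk k = Q3 2 := by
        funext K X
        unfold Qk
        rw [if_neg (by omega), if_neg (by omega)]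
      rw [e1, e2]
      exact kn3_S _
    · have e1 : knk k = kn3 6746518852 0 := by
        unfold knk
        rw [ble_f h, ble_t h3, cond_false, cond_true]
      have e2 : Qk k = Q3 1 := by
        funext K X
        unfold Qk
        rw [if_neg (by omega), if_pos h3]
      rw [e1, e2]
      exact kn3_A _
  · rcases Nat.eq_zero_or_pos k with h3 | h3
    · subst h3
      exact knZ_ok _
    · have e1 : knk k = knC c2A := by
        unfold knk
        rw [ble_t h, ble_f h3, cond_false, cond_true]
      have e2 : Qk k = fun K X => K = 2 * X + Real.pi / 2 * I := by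
        funext K X
        unfold Qk
        rw [if_pos h, if_neg (by omega)]
      rw [e1, e2]
      exact knC_ok c2A_in _

/-- What is proved for a group with the test `G` of the cells. -/
def GD.OkG (g : GD) (G : OutB → Prop) : Prop :=
  BxG G (f3 g.k1) (f3 g.k2) g.W (fk g.k1) (fk g.k2) (Qk g.k1) (Qk g.k2) g.L1 g.L2

/-- The check of a group. -/
def GD.chkG (g : GD) (chk : OutB → Nat → (Nat → Bool) → Bool) (n : Nat) : Bool :=
  goG chk (fk (Nat.add g.k1 g.k2)) (f3 g.k1) (f3 g.k2) g.W (fk g.k1) (fk g.k2) (knk g.k1) (knk g.k2)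
    g.L1 g.L2 n g.u.re.lo g.u.re.hi g.u.im.lo g.u.im.hi g.v.re.lo g.v.re.hi g.v.im.lo g.v.im.hi

theorem GD.chkG_sound {g : GD} {G : OutB → Prop} {chk : OutB → ℕ → (ℕ → Bool) → Bool} {n : ℕ}
    (hchk : ∀ (o : OutB) (n : ℕ) (k : ℕ → Bool), chk o n k = true → G o ∧ ∃ n', k n' = true)
    (h : g.chkG chk n = true) : g.OkG G :=
  goG_sound hchk (knk_ok _) (knk_ok _) h

/-- What is proved for a group: rows and low edges. -/
def GD.Ok (g : GD) : Prop := g.OkG (G3c g.py g.pb g.J1 g.ty g.tb)

/-- The check of a group. -/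
def GD.chk (g : GD) (n : Nat) : Bool := g.chkG (chk3 g.py g.pb g.J1 g.ty g.tb) n

theorem GD.chk_sound {g : GD} {n : ℕ} (h : g.chk n = true) : g.Ok :=
  GD.chkG_sound (chk3_sound _ _ _ _ _) h

end Pool.Agent.S5.K3
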