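import Pool.Agent.S5.K3.An
import Pool.Agent.S5.K3.Out
import Pool.Agent.S5.I.NdC

/-!
# A node with three half twists: its data in the coordinates of its two slots
-/

set_option autoImplicit false

namespace Pool.Agent.S5.K3

open Complex Pool.Agent.H63.VC3 Pool.Agent.S3
open Pool.Agent.S5.G (Sd N3 Slot SF kp lA lB zz3)

/-- The coordinate of a slot. -/
noncomputable def cP (p : ℂ) : ℂ := -(I * p) / Real.pi

theorem pi_ne' : (Real.pi : ℂ) ≠ 0 := by exact_mod_cast Real.pi_pos.ne'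

theorem pi_cP (p : ℂ) : Real.pi * cP p = -(I * p) := by
  unfold cP
  rw [mul_div_cancel₀ _ pi_ne']

theorem cP_re (p : ℂ) : (cP p).re = p.im / Real.pi := by
  unfold cP
  rw [div_ofReal_re]
  simp

theorem cP_im (p : ℂ) : (cP p).im = -p.re / Real.pi := by
  unfold cP
  rw [div_ofReal_im]
  simp

/-- The hypotheses. -/
structure Lk (ty tb : Bool) (cy cb p r z : ℂ) : Prop where
  hz : 3 * z = Real.pi + I * (p + r)
  dm : Dm (cP p) (cP r)
  y : Sd ty cy p z
  b : Sd tb cb r z
  n3 : N3 p r z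
  ky : -(Real.pi / 4) < (kp ty cy).arg ∧ (kp ty cy).arg < Real.pi / 4
  kb : -(Real.pi / 4) < (kp tb cb).arg ∧ (kp tb cb).arg < Real.pi / 4

theorem lf_nU (P R : ℂ) : lf nU P R = he P - he (zt P R) + he (1 / 2 - zt P R) := by
  simp [lf, Fin.sum_univ_succ, nU, wt]
  ring

theorem lf_nV (P R : ℂ) : lf nV P R = he R - he (zt P R) + he (1 / 2 - zt P R) := by
  simp [lf, Fin.sum_univ_succ, nV, wt]
  ring

theorem lf_nLy (P R : ℂ) : lf nLy P R = 2 * he P - 2 * he (zt P R) := by
  simp [lf, Fin.sum_univ_succ, nLy, wt]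
  ring

theorem lf_nLb (P R : ℂ) : lf nLb P R = 2 * he R - 2 * he (zt P R) := by
  simp [lf, Fin.sum_univ_succ, nLb, wt]
  ring

theorem lf_nY (P R : ℂ) : lf nY P R = he (P + zt P R) - he (zt P R - P) := by
  simp [lf, Fin.sum_univ_succ, nY, wt]
  ring

theorem lf_nZ (P R : ℂ) : lf nZ P R = he R - he (P + zt P R) := by
  simp [lf, Fin.sum_univ_succ, nZ, wt]
  ring

theorem lf_nB (P R : ℂ) : lf nB P R = he (R + zt P R) - he (zt P R - R) := by
  simp [lf, Fin.sum_univ_succ, nB, wt]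
  ring

theorem lf_nK (P R : ℂ) : lf nK P R = he (1 / 2 - zt P R) := by
  simp [lf, Fin.sum_univ_succ, nK, wt]

theorem lf_nHy (P R : ℂ) : lf nHy P R = he P + he (1 / 2 - zt P R) -
    he (P + zt P R) / 2 - he (zt P R - P) / 2 := by
  simp [lf, Fin.sum_univ_succ, nHy, wt]
  ring

theorem lf_nHb (P R : ℂ) : lf nHb P R = he R + he (1 / 2 - zt P R) -
    he (R + zt P R) / 2 - he (zt P R - R) / 2 := by
  simp [lf, Fin.sum_univ_succ, nHb, wt]
  ring

namespace Lk

variable {ty tb : Bool} {cy cb p r z : ℂ}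

theorem symm_zt : zt (cP p) (cP r) = zt (cP r) (cP p) := (zt_symm _ _).symm

theorem zeq (h : Lk ty tb cy cb p r z) : Real.pi * zt (cP p) (cP r) = z := by
  unfold zt
  have e : (Real.pi : ℂ) * ((1 - cP p - cP r) / 3) = (Real.pi - Real.pi * cP p - Real.pi * cP r) / 3 := by
    ring
  rw [e, pi_cP, pi_cP]
  linear_combination (-1 / 3 : ℂ) * h.hz

/-! ### The imaginary parts -/

theorem neg_arg {w : ℂ} (h : w.im < 0) : -Real.pi < w.arg ∧ w.arg < 0 :=
  ⟨neg_pi_lt_arg w, arg_neg_iff.2 h⟩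

theorem him {P : ℂ} (h0 : -(1 / 10) < P.re) (h1 : P.re < 1 / 2) (h2 : P.im < 0) :
    -Real.pi < (he P).im ∧ (he P).im < 0 := by
  have hpi := Real.pi_pos
  rw [he_eq_log (Or.inl h2.ne) (by linarith) (by linarith), log_im]
  apply neg_arg
  rw [sin_pi_im]
  have : 0 < Real.cos (Real.pi * P.re) := Real.cos_pos_of_mem_Ioo ⟨by nlinarith, by nlinarith⟩
  have : Real.sinh (Real.pi * P.im) < 0 := Real.sinh_neg_iff.2 (by nlinarith)
  nlinarith

theorem zim (h : Lk ty tb cy cb p r z) : -(Real.pi / 2) < (he (zt (cP p) (cP r))).im ∧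
    (he (zt (cP p) (cP r))).im < Real.pi / 2 := by
  obtain ⟨z0, z1, -⟩ := h.dm.zt
  rw [he_eq_hh (by linarith) (by linarith)]
  exact G.hh_im_lt (by linarith) (by linarith)

theorem cre (P R : ℂ) : (1 / 2 - zt P R : ℂ).re = 1 / 2 - (zt P R).re := by simp

theorem cim (h : Lk ty tb cy cb p r z) : -(Real.pi / 2) < (he (1 / 2 - zt (cP p) (cP r))).im ∧
    (he (1 / 2 - zt (cP p) (cP r))).im < Real.pi / 2 := by
  obtain ⟨z0, z1, -⟩ := h.dm.zt
  have e := cre (cP p) (cP r)
  rw [he_eq_hh (by linarith) (by linarith)]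
  exact G.hh_im_lt (by linarith) (by linarith)

theorem exp_cos (h : Lk ty tb cy cb p r z) : exp (he (1 / 2 - zt (cP p) (cP r))) = 2 * cos z := by
  rw [exp_he (z := 1 / 2 - zt (cP p) (cP r)) (h.dm.fd 3), mul_sub, h.zeq,
    show (Real.pi * (1 / 2) : ℂ) = Real.pi / 2 by ring, Complex.sin_pi_div_two_sub]

theorem exp_sin (h : Lk ty tb cy cb p r z) : exp (he (zt (cP p) (cP r))) = 2 * sin z := by
  rw [exp_he (z := zt (cP p) (cP r)) (h.dm.fd 2), h.zeq]

theorem sin_neg_I (p : ℂ) : sin (-(I * p)) = -(I * sinh p) := by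
  rw [Complex.sin_neg, mul_comm I p, Complex.sin_mul_I, mul_comm]

theorem exp_P (h : Lk ty tb cy cb p r z) : exp (he (cP p)) = -(2 * I * sinh p) := by
  rw [exp_he (z := cP p) (h.dm.fd 0), pi_cP, sin_neg_I]
  ring

theorem exp_R (h : Lk ty tb cy cb p r z) : exp (he (cP r)) = -(2 * I * sinh r) := by
  rw [exp_he (z := cP r) (h.dm.fd 1), pi_cP, sin_neg_I]
  ring

theorem exp_A (h : Lk ty tb cy cb p r z) :
    exp (he (cP p + zt (cP p) (cP r))) = -(2 * I * sinh (p + I * z)) := by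
  rw [exp_he (z := cP p + zt (cP p) (cP r)) (h.dm.fd 4), mul_add, h.zeq, pi_cP]
  have e : -(I * p) + z = -(I * (p + I * z)) := by
    linear_combination z * I_mul_I
  rw [e, sin_neg_I]
  ring

theorem exp_B (h : Lk ty tb cy cb p r z) :
    exp (he (zt (cP p) (cP r) - cP p)) = 2 * I * sinh (p - I * z) := by
  rw [exp_he (z := zt (cP p) (cP r) - cP p) (h.dm.fd 5), mul_sub, h.zeq, pi_cP]
  have e : z - -(I * p) = -(I * -(p - I * z)) := by
    linear_combination z * I_mul_I
  rw [e, sin_neg_I, sinh_neg]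
  ring

theorem exp_A' (h : Lk ty tb cy cb p r z) :
    exp (he (cP r + zt (cP p) (cP r))) = -(2 * I * sinh (r + I * z)) := by
  rw [exp_he (z := cP r + zt (cP p) (cP r)) (h.dm.fd 6), mul_add, h.zeq, pi_cP]
  have e : -(I * r) + z = -(I * (r + I * z)) := by
    linear_combination z * I_mul_I
  rw [e, sin_neg_I]
  ring

theorem exp_B' (h : Lk ty tb cy cb p r z) :
    exp (he (zt (cP p) (cP r) - cP r)) = 2 * I * sinh (r - I * z) := by
  rw [exp_he (z := zt (cP p) (cP r) - cP r) (h.dm.fd 7), mul_sub, h.zeq, pi_cP]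
  have e : z - -(I * r) = -(I * -(r - I * z)) := by
    linear_combination z * I_mul_I
  rw [e, sin_neg_I, sinh_neg]
  ring

theorem aim (h : Lk ty tb cy cb p r z) : -(Real.pi / 2) < (he (cP p + zt (cP p) (cP r))).im ∧
    (he (cP p + zt (cP p) (cP r))).im < Real.pi / 2 := by
  have e := zt_re (cP p) (cP r)
  have := h.dm.p0
  have := h.dm.p3
  have := h.dm.r0
  have := h.dm.r3
  have := h.dm.s
  have e1 : (cP p + zt (cP p) (cP r)).re = (cP p).re + (zt (cP p) (cP r)).re := add_re _ _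
  rw [he_eq_hh (by linarith) (by linarith)]
  exact G.hh_im_lt (by linarith) (by linarith)

theorem aim' (h : Lk ty tb cy cb p r z) : -(Real.pi / 2) < (he (cP r + zt (cP p) (cP r))).im ∧
    (he (cP r + zt (cP p) (cP r))).im < Real.pi / 2 := by
  have e := zt_re (cP p) (cP r)
  have := h.dm.p0
  have := h.dm.p3
  have := h.dm.r0
  have := h.dm.r3
  have := h.dm.s
  have e1 : (cP r + zt (cP p) (cP r)).re = (cP r).re + (zt (cP p) (cP r)).re := add_re _ _
  rw [he_eq_hh (by linarith) (by linarith)]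
  exact G.hh_im_lt (by linarith) (by linarith)

theorem lim {w : ℂ} (h : 0 < w.im) (h0 : -1 / 2 < w.re) (h1 : w.re < 1) :
    -Real.pi < (he w).im ∧ (he w).im < Real.pi := he_im_bounds h h0 h1

theorem bim (h : Lk ty tb cy cb p r z) : -Real.pi < (he (zt (cP p) (cP r) - cP p)).im ∧
    (he (zt (cP p) (cP r) - cP p)).im < Real.pi := by
  have e := zt_re (cP p) (cP r)
  have e2 := zt_im (cP p) (cP r)
  have := h.dm.p0
  have := h.dm.p1
  have := h.dm.p3
  have := h.dm.r0
  have := h.dm.r1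
  have := h.dm.r3
  have := h.dm.s
  have e1 : (zt (cP p) (cP r) - cP p).re = (zt (cP p) (cP r)).re - (cP p).re := sub_re _ _
  have e3 : (zt (cP p) (cP r) - cP p).im = (zt (cP p) (cP r)).im - (cP p).im := sub_im _ _
  exact lim (by rw [e3]; linarith) (by rw [e1]; linarith) (by rw [e1]; linarith)

theorem bim' (h : Lk ty tb cy cb p r z) : -Real.pi < (he (zt (cP p) (cP r) - cP r)).im ∧
    (he (zt (cP p) (cP r) - cP r)).im < Real.pi := by
  have e := zt_re (cP p) (cP r)
  have e2 := zt_im (cP p) (cP r)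
  have := h.dm.p0
  have := h.dm.p1
  have := h.dm.p3
  have := h.dm.r0
  have := h.dm.r1
  have := h.dm.r3
  have := h.dm.s
  have e1 : (zt (cP p) (cP r) - cP r).re = (zt (cP p) (cP r)).re - (cP r).re := sub_re _ _
  have e3 : (zt (cP p) (cP r) - cP r).im = (zt (cP p) (cP r)).im - (cP r).im := sub_im _ _
  exact lim (by rw [e3]; linarith) (by rw [e1]; linarith) (by rw [e1]; linarith)

/-! ### The logarithms -/

theorem two_ne : (2 : ℂ) ≠ 0 := two_ne_zero

theorem iI : (Real.pi / 2 * I : ℂ).im = Real.pi / 2 := by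
  rw [show (Real.pi / 2 * I : ℂ) = ((Real.pi / 2 : ℝ) : ℂ) * I by push_cast; rfl, im_ofReal_mul,
    I_im, mul_one]

theorem log_cos (h : Lk ty tb cy cb p r z) : log (cos z) = he (1 / 2 - zt (cP p) (cP r)) - log 2 := by
  have hpi := Real.pi_pos
  obtain ⟨c1, c2, c3, c4, c5, c6, c7⟩ := G.sincos h.y.z0 h.y.z1 h.y.zi
  have a := h.cim
  apply G.log_unique
  · rw [c4, exp_sub, h.exp_cos, exp_log two_ne]
    field_simp
  · rw [sub_im, G.log2_im]
    linarith
  · rw [sub_im, G.log2_im]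
    linarith

theorem log_sin (h : Lk ty tb cy cb p r z) : log (sin z) = he (zt (cP p) (cP r)) - log 2 := by
  have hpi := Real.pi_pos
  obtain ⟨c1, c2, c3, c4, c5, c6, c7⟩ := G.sincos h.y.z0 h.y.z1 h.y.zi
  have a := h.zim
  apply G.log_unique
  · rw [c1, exp_sub, h.exp_sin, exp_log two_ne]
    field_simp
  · rw [sub_im, G.log2_im]
    linarith
  · rw [sub_im, G.log2_im]
    linarith

theorem log_A (h : Lk ty tb cy cb p r z) :
    lA p z = he (cP p + zt (cP p) (cP r)) + Real.pi / 2 * I - log 2 := by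
  have hpi := Real.pi_pos
  have a1 := h.n3.sp.A_im
  have a := h.aim
  apply G.log_unique
  · rw [h.n3.sp.eA, exp_sub, exp_add, h.exp_A, exp_pi_div_two_mul_I, exp_log two_ne]
    field_simp
    linear_combination (sinh (p + I * z)) * I_sq
  · rw [sub_im, add_im, iI, G.log2_im]
    linarith
  · rw [sub_im, add_im, iI, G.log2_im]
    linarith

theorem log_A' (h : Lk ty tb cy cb p r z) :
    lA r z = he (cP r + zt (cP p) (cP r)) + Real.pi / 2 * I - log 2 := by
  have hpi := Real.pi_pos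
  have a1 := h.n3.sr.A_im
  have a := h.aim'
  apply G.log_unique
  · rw [h.n3.sr.eA, exp_sub, exp_add, h.exp_A', exp_pi_div_two_mul_I, exp_log two_ne]
    field_simp
    linear_combination (sinh (r + I * z)) * I_sq
  · rw [sub_im, add_im, iI, G.log2_im]
    linarith
  · rw [sub_im, add_im, iI, G.log2_im]
    linarith

theorem exp_neg_half : exp (-(Real.pi / 2 * I)) = -I := by
  rw [exp_neg, exp_pi_div_two_mul_I, inv_I]

theorem log_B (h : Lk ty tb cy cb p r z) :
    lB p z = he (zt (cP p) (cP r) - cP p) - Real.pi / 2 * I - log 2 := by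
  have hpi := Real.pi_pos
  have a1 := h.n3.sp.B_im
  have a := h.bim
  apply G.log_unique
  · rw [h.n3.sp.eB, exp_sub, sub_eq_add_neg (he _), exp_add, h.exp_B, exp_neg_half, exp_log two_ne]
    field_simp
    linear_combination (sinh (p - I * z)) * I_sq
  · rw [sub_im, sub_im, iI, G.log2_im]
    linarith
  · rw [sub_im, sub_im, iI, G.log2_im]
    linarith

theorem log_B' (h : Lk ty tb cy cb p r z) :
    lB r z = he (zt (cP p) (cP r) - cP r) - Real.pi / 2 * I - log 2 := by
  have hpi := Real.pi_pos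
  have a1 := h.n3.sr.B_im
  have a := h.bim'
  apply G.log_unique
  · rw [h.n3.sr.eB, exp_sub, sub_eq_add_neg (he _), exp_add, h.exp_B', exp_neg_half, exp_log two_ne]
    field_simp
    linear_combination (sinh (r - I * z)) * I_sq
  · rw [sub_im, sub_im, iI, G.log2_im]
    linarith
  · rw [sub_im, sub_im, iI, G.log2_im]
    linarith

theorem log_r (h : Lk ty tb cy cb p r z) :
    log (sinh r) = he (cP r) + Real.pi / 2 * I - log 2 := by
  have hpi := Real.pi_pos
  have a := him h.dm.r0 h.dm.r3 h.dm.r1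
  have b1 := neg_pi_lt_arg (sinh r)
  have b2 := arg_le_pi (sinh r)
  have hn : sinh r ≠ 0 := fun h0 => by
    have := h.n3.s3
    rw [h0] at this
    simp at this
  apply G.log_unique
  · rw [exp_log hn, exp_sub, exp_add, h.exp_R, exp_pi_div_two_mul_I, exp_log two_ne]
    field_simp
    linear_combination I_sq
  · rw [sub_im, add_im, iI, G.log2_im, log_im]
    linarith
  · rw [sub_im, add_im, iI, G.log2_im, log_im]
    linarith

theorem log_kp (h : Lk ty tb cy cb p r z) :
    log (kp ty cy) = lf nU (cP p) (cP r) + Real.pi / 2 * I - log 2 := by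
  have hpi := Real.pi_pos
  have a := him h.dm.p0 h.dm.p3 h.dm.p1
  have b := h.zim
  have c := h.cim
  have d := h.ky
  rw [lf_nU]
  apply G.log_unique
  · rw [exp_log h.y.k_ne, exp_sub, exp_add, exp_add, exp_sub, h.exp_P, h.exp_sin, h.exp_cos,
      exp_pi_div_two_mul_I, exp_log two_ne]
    have e := h.y.sn'
    have s := h.y.sz
    field_simp
    linear_combination (-e) + (sinh p * cos z) * I_sq
  · rw [sub_im, add_im, add_im, sub_im, iI, G.log2_im, log_im]
    linarith
  · rw [sub_im, add_im, add_im, sub_im, iI, G.log2_im, log_im]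
    linarith

theorem log_kb (h : Lk ty tb cy cb p r z) :
    log (kp tb cb) = lf nV (cP p) (cP r) + Real.pi / 2 * I - log 2 := by
  have hpi := Real.pi_pos
  have a := him h.dm.r0 h.dm.r3 h.dm.r1
  have b := h.zim
  have c := h.cim
  have d := h.kb
  rw [lf_nV]
  apply G.log_unique
  · rw [exp_log h.b.k_ne, exp_sub, exp_add, exp_add, exp_sub, h.exp_R, h.exp_sin, h.exp_cos,
      exp_pi_div_two_mul_I, exp_log two_ne]
    have e := h.b.sn'
    have s := h.b.sz
    field_simp
    linear_combination (-e) + (sinh r * cos z) * I_sq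
  · rw [sub_im, add_im, add_im, sub_im, iI, G.log2_im, log_im]
    linarith
  · rw [sub_im, add_im, add_im, sub_im, iI, G.log2_im, log_im]
    linarith

/-! ### The data -/

/-- The slope of the first slot. -/
theorem ly (h : Lk ty tb cy cb p r z) :
    2 * (log (kp ty cy) - log (cos z)) = oLy (cP p) (cP r) := by
  rw [h.log_kp, h.log_cos, oLy, lf_nU, lf_nLy]
  ring

/-- The slope of the second slot. -/
theorem lb (h : Lk ty tb cy cb p r z) :
    2 * (log (kp tb cb) - log (cos z)) = oLb (cP p) (cP r) := by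
  rw [h.log_kb, h.log_cos, oLb, lf_nV, lf_nLb]
  ring

theorem ys (h : Lk ty tb cy cb p r z) : G.sy p z = oY (cP p) (cP r) := by
  unfold G.sy oY
  rw [h.log_A, h.log_B, lf_nY]
  congr 1
  ring

theorem zs (h : Lk ty tb cy cb p r z) : zz3 p r z = oZ (cP p) (cP r) := by
  unfold zz3 oZ
  rw [h.log_A, h.log_r, lf_nZ]
  congr 1
  ring

theorem bs (h : Lk ty tb cy cb p r z) : G.sy r z = oB (cP p) (cP r) := by
  unfold G.sy oB
  rw [h.log_A', h.log_B', lf_nB]
  congr 1
  ring

theorem hy (h : Lk ty tb cy cb p r z) :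
    hh (1 / 2 - G.sy p z) = lf nHy (cP p) (cP r) + Real.pi / 2 * I := by
  have e := h.n3.sfp.id h.y h.ky
  obtain ⟨c1, c2, c3, c4, c5, c6, c7⟩ := G.sincos h.y.z0 h.y.z1 h.y.zi
  rw [h.n3.sfp.e1, h.n3.sfp.e2, h.log_kp, h.log_cos, h.log_A, h.log_B, c7, h.log_cos, h.log_sin,
    hh_half_sub] at e
  rw [lf_nU] at e
  rw [lf_nHy]
  linear_combination e / 2

theorem hb (h : Lk ty tb cy cb p r z) :
    hh (1 / 2 - G.sy r z) = lf nHb (cP p) (cP r) + Real.pi / 2 * I := by
  have e := h.n3.sfr.id h.b h.kb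
  obtain ⟨c1, c2, c3, c4, c5, c6, c7⟩ := G.sincos h.y.z0 h.y.z1 h.y.zi
  rw [h.n3.sfr.e1, h.n3.sfr.e2, h.log_kb, h.log_cos, h.log_A', h.log_B', c7, h.log_cos, h.log_sin,
    hh_half_sub] at e
  rw [lf_nV] at e
  rw [lf_nHb]
  linear_combination e / 2

end Lk

end Pool.Agent.S5.K3
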