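import Pool.Agent.S5.K3.Link
import Pool.Agent.S5.K3.EndRel

/-!
# The neighbours at the ends of the chain in the coordinates of the slots
-/

set_option autoImplicit false

namespace Pool.Agent.S5.K3

open Complex Pool.Agent.H63.VC3 Pool.Agent.S3
open Pool.Agent.S5.G (Sd N3 Slot SF kp lA lB zz3)

namespace Lk

variable {ty tb : Bool} {cy cb p r z : ℂ}

/-- The imaginary part of `log κ`. -/
theorem kim (h : Lk ty tb cy cb p r z) : -(Real.pi / 2) < (lf nK (cP p) (cP r)).im ∧
    (lf nK (cP p) (cP r)).im < 0 := by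
  obtain ⟨c1, c2, c3, c4, c5, c6, c7⟩ := G.sincos h.y.z0 h.y.z1 h.y.zi
  rw [h.log_cos, sub_im, G.log2_im] at c5 c6
  rw [lf_nK]
  constructor <;> linarith

theorem exp_K (h : Lk ty tb cy cb p r z) : exp (lf nK (cP p) (cP r)) = 2 * cos z := by
  rw [lf_nK, h.exp_cos]

/-- The modulus of the neighbour. -/
theorem exp_U (h : Lk ty tb cy cb p r z) : exp (lf nU (cP p) (cP r)) = -(2 * I * kp ty cy) := by
  have e : lf nU (cP p) (cP r) = log (kp ty cy) + log 2 - Real.pi / 2 * I := by
    rw [h.log_kp]; ring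
  rw [e, exp_sub, exp_add, exp_log h.y.k_ne, exp_log two_ne, exp_pi_div_two_mul_I, div_I]
  ring

theorem exp_V (h : Lk ty tb cy cb p r z) : exp (lf nV (cP p) (cP r)) = -(2 * I * kp tb cb) := by
  have e : lf nV (cP p) (cP r) = log (kp tb cb) + log 2 - Real.pi / 2 * I := by
    rw [h.log_kb]; ring
  rw [e, exp_sub, exp_add, exp_log h.b.k_ne, exp_log two_ne, exp_pi_div_two_mul_I, div_I]
  ring

theorem uim (h : Lk ty tb cy cb p r z) :
    (lf nU (cP p) (cP r)).im = (kp ty cy).arg - Real.pi / 2 := by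
  have e : lf nU (cP p) (cP r) = log (kp ty cy) + log 2 - Real.pi / 2 * I := by
    rw [h.log_kp]; ring
  rw [e, sub_im, add_im, log_im, G.log2_im, iI]
  ring

theorem vim (h : Lk ty tb cy cb p r z) :
    (lf nV (cP p) (cP r)).im = (kp tb cb).arg - Real.pi / 2 := by
  have e : lf nV (cP p) (cP r) = log (kp tb cb) + log 2 - Real.pi / 2 * I := by
    rw [h.log_kb]; ring
  rw [e, sub_im, add_im, log_im, G.log2_im, iI]
  ring

theorem ure (h : Lk ty tb cy cb p r z) :
    (lf nU (cP p) (cP r)).re = Real.log ‖kp ty cy‖ + Real.log 2 := by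
  have e : lf nU (cP p) (cP r) = log (kp ty cy) + log 2 - Real.pi / 2 * I := by
    rw [h.log_kp]; ring
  have e2 : (Real.pi / 2 * I : ℂ).re = 0 := by
    rw [show (Real.pi / 2 * I : ℂ) = ((Real.pi / 2 : ℝ) : ℂ) * I by push_cast; rfl, re_ofReal_mul,
      I_re, mul_zero]
  rw [e, sub_re, add_re, log_re, log_re, e2, Complex.norm_ofNat]
  ring

theorem vre (h : Lk ty tb cy cb p r z) :
    (lf nV (cP p) (cP r)).re = Real.log ‖kp tb cb‖ + Real.log 2 := by
  have e : lf nV (cP p) (cP r) = log (kp tb cb) + log 2 - Real.pi / 2 * I := by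
    rw [h.log_kb]; ring
  have e2 : (Real.pi / 2 * I : ℂ).re = 0 := by
    rw [show (Real.pi / 2 * I : ℂ) = ((Real.pi / 2 : ℝ) : ℂ) * I by push_cast; rfl, re_ofReal_mul,
      I_re, mul_zero]
  rw [e, sub_re, add_re, log_re, log_re, e2, Complex.norm_ofNat]
  ring

end Lk

theorem kp_arg_S {c : ℂ} (h0 : 0 < c.re) (h1 : c.im < 0) : (kp true c).arg < 0 := by
  rw [G.kp_true]
  exact arg_neg_iff.2 h1

theorem kp_arg_A {c : ℂ} (h0 : 0 < c.re) (h1 : c.im < 0) : 0 < (kp false c).arg := by
  rw [G.kp_false, arg_conj, if_neg]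
  · linarith [arg_neg_iff.2 h1]
  · intro h
    have := arg_neg_iff.2 h1
    linarith [Real.pi_pos]

/-- The relation of a neighbour with two half twists at the end, general form. -/
theorem rel2 {b k U K : ℂ} (hk : k = 2 * eI false * b ^ 2) (eK : exp K = 2 * k)
    (eU : exp U = -(2 * I * b)) (hb : b ≠ 0) (k0 : -(Real.pi / 2) < K.im) (k1 : K.im < 0)
    (u0 : -(Real.pi / 2) < U.im) (u1 : U.im < -(Real.pi / 4)) :
    K = 2 * U + Real.pi / 2 * I := by
  have hpi := Real.pi_pos
  have e0 : (2 * U : ℂ).im = 2 * U.im := by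
    rw [show (2 * U : ℂ) = ((2 : ℝ) : ℂ) * U by push_cast; rfl, im_ofReal_mul]
  apply G.log_unique
  · rw [exp_add, eK, two_mul U, exp_add, eU, exp_pi_div_two_mul_I, hk]
    unfold eI
    simp only [Bool.false_eq_true, if_false]
    linear_combination (-(4 * b ^ 2 * I)) * I_sq
  · rw [add_im, Lk.iI, e0]
    linarith
  · rw [add_im, Lk.iI, e0]
    linarith

/-- `1 + e ^ (2 U)`. -/
theorem exp_he_cosh {U : ℂ} (hf : fdom (1 / 2 - I * U / Real.pi)) :
    exp (he (1 / 2 - I * U / Real.pi)) = exp U + exp (-U) := by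
  rw [exp_he hf, mul_sub, mul_div_cancel₀ _ pi_ne', show (Real.pi * (1 / 2) : ℂ) = Real.pi / 2 by ring,
    Complex.sin_pi_div_two_sub, mul_comm I U, Complex.cos_mul_I, Complex.cosh]
  ring

/-- The argument of `he` in the relation of a neighbour with three half twists at the end. -/
noncomputable def wE (U : ℂ) : ℂ := 1 / 2 - I * U / Real.pi

theorem wE_re (U : ℂ) : (wE U).re = 1 / 2 + U.im / Real.pi := by
  unfold wE
  rw [sub_re, div_ofReal_re, I_mul_re]
  norm_num
  ring

theorem wE_im (U : ℂ) : (wE U).im = -(U.re / Real.pi) := by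
  unfold wE
  rw [sub_im, div_ofReal_im, I_mul_im]
  norm_num

/-- The relation of a neighbour with three half twists at the end of an `A` edge, general form. -/
theorem rel3A {b k U K : ℂ} (hk : k = eI false * (b * (4 * b ^ 2 - 1))) (eK : exp K = 2 * k)
    (eU : exp U = -(2 * I * b)) (k0 : -(Real.pi / 2) < K.im) (k1 : K.im < 0)
    (u0 : -(Real.pi / 2) < U.im) (u1 : U.im < -(Real.pi / 4)) :
    K = 2 * U + he (wE U) + Real.pi * I := by
  have hpi := Real.pi_pos
  have e0 : (2 * U : ℂ).im = 2 * U.im := by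
    rw [show (2 * U : ℂ) = ((2 : ℝ) : ℂ) * U by push_cast; rfl, im_ofReal_mul]
  have e1 : (Real.pi * I : ℂ).im = Real.pi := by rw [im_ofReal_mul, I_im, mul_one]
  have r0 : 0 < (wE U).re := by
    rw [wE_re]
    have : -(1 / 2) < U.im / Real.pi := by
      rw [lt_div_iff₀ hpi]
      linarith
    linarith
  have r1 : (wE U).re < 1 := by
    rw [wE_re]
    have : U.im / Real.pi < 0 := div_neg_of_neg_of_pos (by linarith) hpi
    linarith
  have hh := G.hh_im_lt r0 r1
  rw [← he_eq_hh r0 r1] at hh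
  apply G.log_unique
  · rw [exp_add, exp_add, eK, two_mul U, exp_add, exp_pi_mul_I, wE, exp_he_cosh (Or.inr ⟨r0, r1⟩),
      exp_neg, eU, hk]
    unfold eI
    simp only [Bool.false_eq_true, if_false]
    rcases eq_or_ne b 0 with rfl | hb
    · simp
    · field_simp
      ring_nf
      simp only [I_sq, I_pow_three, I_pow_four]
      ring
  · rw [add_im, add_im, e1, e0]
    linarith
  · rw [add_im, add_im, e1, e0]
    linarith

theorem him2 {P : ℂ} (h0 : -(1 / 2) < P.re) (h1 : P.re < 1 / 2) (h2 : P.im < 0) :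
    -Real.pi < (he P).im ∧ (he P).im < 0 := by
  have hpi := Real.pi_pos
  rw [he_eq_log (Or.inl h2.ne) (by linarith) (by linarith), log_im]
  apply Lk.neg_arg
  rw [sin_pi_im]
  have : 0 < Real.cos (Real.pi * P.re) := Real.cos_pos_of_mem_Ioo ⟨by nlinarith, by nlinarith⟩
  have : Real.sinh (Real.pi * P.im) < 0 := Real.sinh_neg_iff.2 (by nlinarith)
  nlinarith

/-- The relation of a neighbour with three half twists at the end of an `S` edge, general form. -/
theorem rel3S {b k U K : ℂ} (hk : k = eI true * (b * (4 * b ^ 2 - 1))) (eK : exp K = 2 * k)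
    (eU : exp U = -(2 * I * b)) (k0 : -(Real.pi / 2) < K.im) (k1 : K.im < 0) (hU : 0 < U.re)
    (u0 : -(3 * Real.pi / 4) < U.im) (u1 : U.im < -(Real.pi / 2)) :
    K = 2 * U + he (wE U) + 2 * Real.pi * I := by
  have hpi := Real.pi_pos
  have e0 : (2 * U : ℂ).im = 2 * U.im := by
    rw [show (2 * U : ℂ) = ((2 : ℝ) : ℂ) * U by push_cast; rfl, im_ofReal_mul]
  have e1 : (2 * Real.pi * I : ℂ).im = 2 * Real.pi := by
    rw [show (2 * Real.pi * I : ℂ) = ((2 * Real.pi : ℝ) : ℂ) * I by push_cast; rfl, im_ofReal_mul,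
      I_im, mul_one]
  have r0 : -(1 / 2) < (wE U).re := by
    rw [wE_re]
    have : -(3 / 4) < U.im / Real.pi := by
      rw [lt_div_iff₀ hpi]
      linarith
    linarith
  have r1 : (wE U).re < 1 / 2 := by
    rw [wE_re]
    have : U.im / Real.pi < 0 := div_neg_of_neg_of_pos (by linarith) hpi
    linarith
  have r2 : (wE U).im < 0 := by
    rw [wE_im]
    have := div_pos hU hpi
    linarith
  have hh := him2 r0 r1 r2
  apply G.log_unique
  · rw [exp_add, exp_add, eK, two_mul U, exp_add, exp_two_pi_mul_I, wE, exp_he_cosh (Or.inl r2.ne),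
      exp_neg, eU, hk]
    unfold eI
    simp only [if_true]
    rcases eq_or_ne b 0 with rfl | hb
    · simp
    · field_simp
      ring_nf
      simp only [I_sq, I_pow_three, I_pow_four]
      ring
  · rw [add_im, add_im, e1, e0]
    linarith
  · rw [add_im, add_im, e1, e0]
    linarith

namespace Lk

variable {ty tb : Bool} {cy cb p r z : ℂ}

/-- The first neighbour is an end with two half twists, `A` edge. -/
theorem end2y (h : Lk false tb cy cb p r z) (hk : cos z = 2 * eI false * kp false cy ^ 2) :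
    lf nK (cP p) (cP r) = 2 * lf nU (cP p) (cP r) + Real.pi / 2 * I := by
  have hpi := Real.pi_pos
  have k := h.kim
  have a := kp_arg_A h.y.c0 h.y.c1
  have b := h.ky.2
  have u := h.uim
  exact rel2 hk h.exp_K h.exp_U h.y.k_ne k.1 k.2 (by linarith) (by linarith)

/-- The second neighbour is an end with two half twists, `A` edge. -/
theorem end2b (h : Lk ty false cy cb p r z) (hk : cos z = 2 * eI false * kp false cb ^ 2) :
    lf nK (cP p) (cP r) = 2 * lf nV (cP p) (cP r) + Real.pi / 2 * I := by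
  have hpi := Real.pi_pos
  have k := h.kim
  have a := kp_arg_A h.b.c0 h.b.c1
  have b := h.kb.2
  have u := h.vim
  exact rel2 hk h.exp_K h.exp_V h.b.k_ne k.1 k.2 (by linarith) (by linarith)

/-- The first neighbour is an end with three half twists, `A` edge. -/
theorem end3yA (h : Lk false tb cy cb p r z)
    (hk : cos z = eI false * (kp false cy * (4 * kp false cy ^ 2 - 1))) :
    lf nK (cP p) (cP r) = 2 * lf nU (cP p) (cP r) + he (wE (lf nU (cP p) (cP r))) +
      Real.pi * I := by
  have hpi := Real.pi_pos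
  have k := h.kim
  have a := kp_arg_A h.y.c0 h.y.c1
  have b := h.ky.2
  have u := h.uim
  exact rel3A hk h.exp_K h.exp_U k.1 k.2 (by linarith) (by linarith)

/-- The second neighbour is an end with three half twists, `A` edge. -/
theorem end3bA (h : Lk ty false cy cb p r z)
    (hk : cos z = eI false * (kp false cb * (4 * kp false cb ^ 2 - 1))) :
    lf nK (cP p) (cP r) = 2 * lf nV (cP p) (cP r) + he (wE (lf nV (cP p) (cP r))) +
      Real.pi * I := by
  have hpi := Real.pi_pos
  have k := h.kim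
  have a := kp_arg_A h.b.c0 h.b.c1
  have b := h.kb.2
  have u := h.vim
  exact rel3A hk h.exp_K h.exp_V k.1 k.2 (by linarith) (by linarith)

/-- The first neighbour is an end with three half twists, `S` edge. -/
theorem end3yS (h : Lk true tb cy cb p r z)
    (hk : cos z = eI true * (kp true cy * (4 * kp true cy ^ 2 - 1)))
    (hU : 0 < (lf nU (cP p) (cP r)).re) :
    lf nK (cP p) (cP r) = 2 * lf nU (cP p) (cP r) + he (wE (lf nU (cP p) (cP r))) +
      2 * Real.pi * I := by
  have hpi := Real.pi_pos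
  have k := h.kim
  have a := kp_arg_S h.y.c0 h.y.c1
  have b := h.ky.1
  have u := h.uim
  exact rel3S hk h.exp_K h.exp_U k.1 k.2 hU (by linarith) (by linarith)

/-- The second neighbour is an end with three half twists, `S` edge. -/
theorem end3bS (h : Lk ty true cy cb p r z)
    (hk : cos z = eI true * (kp true cb * (4 * kp true cb ^ 2 - 1)))
    (hV : 0 < (lf nV (cP p) (cP r)).re) :
    lf nK (cP p) (cP r) = 2 * lf nV (cP p) (cP r) + he (wE (lf nV (cP p) (cP r))) +
      2 * Real.pi * I := by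
  have hpi := Real.pi_pos
  have k := h.kim
  have a := kp_arg_S h.b.c0 h.b.c1
  have b := h.kb.1
  have u := h.vim
  exact rel3S hk h.exp_K h.exp_V k.1 k.2 hV (by linarith) (by linarith)

end Lk

end Pool.Agent.S5.K3
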