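import Pool.Agent.H25.RK.DGI
import Pool.Agent.H63.GO.MTaylor
import Pool.Agent.H63.VC.Asym
import Pool.Agent.H63.VC.EndB
import Pool.Agent.H63.VC.Riem
import Pool.Agent.H63.VC.SlowL
import Pool.Agent.H63.VC.SlowU
import Pool.Agent.H63.VC3.CritB
import Pool.Agent.H63.VC3.Upper
import Pool.Agent.H63.VC4.GaussN
import Pool.Agent.H63.VC4.KBN
import Pool.Agent.H63.VC4.LaplaceN
import Pool.Agent.H63.VC4.UpperN
import Pool.Agent.H63.VC5.Defs
import Pool.Agent.H63.VC6.LocU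
import Pool.Agent.H63.VC6.SlotU
import Pool.Agent.H63.VC7.Link
import Pool.Agent.S3.Asm.Def
import Pool.Agent.S3.Chain
import Pool.Agent.S3.Pot

/-!
# The function `he` near a point: explicit Taylor remainders
-/

set_option autoImplicit false

namespace Pool.Agent.S5.K3

open Complex Pool.Agent.H63.VC3 Pool.Agent.S3
open Set Filter Topology

theorem norm_sin_le (b : ℂ) : ‖sin b‖ ≤ Real.sinh ‖b‖ := by
  have h : HasSum (fun n : ℕ => (-1) ^ n * b ^ (2 * n + 1) / ((2 * n + 1).factorial : ℂ)) (sin b) :=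
    Complex.hasSum_sin b
  have h' : HasSum (fun n : ℕ => ‖b‖ ^ (2 * n + 1) / ((2 * n + 1).factorial : ℝ)) (Real.sinh ‖b‖) :=
    Real.hasSum_sinh ‖b‖
  apply h.norm_le_of_bounded h'
  intro n
  rw [norm_div, norm_mul, norm_pow, norm_neg, norm_one, one_pow, one_mul, norm_pow,
    Complex.norm_natCast]

theorem norm_cos_ge (b : ℂ) : 2 - Real.cosh ‖b‖ ≤ ‖cos b‖ := by
  have h : HasSum (fun n : ℕ => (-1) ^ n * b ^ (2 * n) / ((2 * n).factorial : ℂ)) (cos b) :=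
    Complex.hasSum_cos b
  have h' : HasSum (fun n : ℕ => ‖b‖ ^ (2 * n) / ((2 * n).factorial : ℝ)) (Real.cosh ‖b‖) :=
    Real.hasSum_cosh ‖b‖
  have g := h.sub (hasSum_ite_eq (0 : ℕ) (1 : ℂ))
  have g' := h'.sub (hasSum_ite_eq (0 : ℕ) (1 : ℝ))
  have := g.norm_le_of_bounded g' (fun n => by
    rcases n with - | n
    · simp
    · rw [if_neg (Nat.succ_ne_zero n), if_neg (Nat.succ_ne_zero n), sub_zero, sub_zero, norm_div,
        norm_mul, norm_pow, norm_neg, norm_one, one_pow, one_mul, norm_pow, Complex.norm_natCast])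
  have h2 : (1 : ℝ) - ‖cos b - 1‖ ≤ ‖cos b‖ := by
    have := norm_sub_norm_le (1 : ℂ) (1 - cos b)
    rw [norm_one, sub_sub_cancel, norm_sub_rev] at this
    exact this
  linarith

theorem exp_rem {x : ℝ} (h : |x| ≤ 1 / 2) :
    |Real.exp x - (1 + x + x ^ 2 / 2 + x ^ 3 / 6 + x ^ 4 / 24)| ≤ |x| ^ 5 / 100 := by
  have := Real.exp_bound (x := x) (by linarith) (n := 5) (by norm_num)
  simp only [Finset.sum_range_succ, Finset.sum_range_zero, Nat.factorial] at this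
  norm_num at this
  have e : |x| ^ 5 * (1 / 100) = |x| ^ 5 / 100 := by ring
  rw [e] at this
  convert this using 2

theorem sinh_le_21 {x : ℝ} (h0 : 0 ≤ x) (h1 : x ≤ 1 / 2) : Real.sinh x ≤ 21 / 20 * x := by
  have a := abs_le.1 (exp_rem (x := x) (by rw [abs_of_nonneg h0]; exact h1))
  have b := abs_le.1 (exp_rem (x := -x) (by rw [abs_neg, abs_of_nonneg h0]; exact h1))
  rw [abs_neg] at b
  rw [abs_of_nonneg h0] at a b
  rw [Real.sinh_eq]
  have h2 : x ^ 2 ≤ 1 / 4 := by nlinarith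
  have h3 : x ^ 3 ≤ x / 4 := by nlinarith [mul_le_mul_of_nonneg_left h2 h0]
  have h5 : x ^ 5 ≤ x / 16 := by nlinarith [mul_le_mul_of_nonneg_left h2 (pow_nonneg h0 3)]
  nlinarith [a.2, b.1]

theorem cosh_le_13 {x : ℝ} (h0 : 0 ≤ x) (h1 : x ≤ 1 / 2) : Real.cosh x ≤ 1 + 13 / 25 * x ^ 2 := by
  have a := abs_le.1 (exp_rem (x := x) (by rw [abs_of_nonneg h0]; exact h1))
  have b := abs_le.1 (exp_rem (x := -x) (by rw [abs_neg, abs_of_nonneg h0]; exact h1))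
  rw [abs_neg] at b
  rw [abs_of_nonneg h0] at a b
  rw [Real.cosh_eq]
  have h2 : x ^ 2 ≤ 1 / 4 := by nlinarith
  have h4 : x ^ 4 ≤ x ^ 2 / 4 := by nlinarith [mul_le_mul_of_nonneg_left h2 (sq_nonneg x)]
  have h5 : x ^ 5 ≤ x ^ 2 / 8 := by
    have h6 : x ^ 3 ≤ 1 / 8 := by nlinarith [mul_le_mul_of_nonneg_left h2 h0]
    nlinarith [mul_le_mul_of_nonneg_left h6 (sq_nonneg x)]
  nlinarith [a.2, b.2]

/-- The denominator. -/
theorem den_ge {a b : ℂ} {σ c q : ℝ} (hb : ‖b‖ ≤ σ) (hσ : σ ≤ 1 / 2) (hs : sin a ≠ 0)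
    (hc : ‖cos a / sin a‖ ≤ c) (hq : q ≤ 1 - 13 / 25 * σ ^ 2 - 21 / 20 * (c * σ)) :
    q * ‖sin a‖ ≤ ‖sin (a + b)‖ := by
  have h0 := norm_nonneg b
  have e : sin (a + b) = sin a * (cos b + cos a / sin a * sin b) := by
    rw [sin_add]
    field_simp
  rw [e, norm_mul, mul_comm]
  apply mul_le_mul_of_nonneg_left _ (norm_nonneg _)
  have h1 : 2 - Real.cosh ‖b‖ ≤ ‖cos b‖ := norm_cos_ge b
  have h2 := cosh_le_13 h0 (hb.trans hσ)
  have h3 : ‖sin b‖ ≤ 21 / 20 * ‖b‖ := (norm_sin_le b).trans (sinh_le_21 h0 (hb.trans hσ))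
  have h4 : ‖cos a / sin a * sin b‖ ≤ c * (21 / 20 * σ) := by
    rw [norm_mul]
    exact mul_le_mul hc (h3.trans (by linarith)) (norm_nonneg _) ((norm_nonneg _).trans hc)
  have h5 : ‖cos b‖ - ‖cos a / sin a * sin b‖ ≤ ‖cos b + cos a / sin a * sin b‖ := by
    have := norm_sub_norm_le (cos b) (-(cos a / sin a * sin b))
    rwa [norm_neg, sub_neg_eq_add] at this
  have h6 : ‖b‖ ^ 2 ≤ σ ^ 2 := pow_le_pow_left₀ h0 hb 2
  nlinarith

/-- `π cot` near a point. -/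
theorem ct_sub {w δ : ℂ} {σ q : ℝ} (hw : fdom w) (hδ : Real.pi * ‖δ‖ ≤ σ) (hσ : σ ≤ 1 / 2)
    (hq0 : 0 < q) (hq : q ≤ 1 - 13 / 25 * σ ^ 2 - 21 / 20 * (‖ct w‖ * (σ / Real.pi))) :
    ‖ct (w + δ) - ct w‖ ≤ 21 / 20 * (‖ct w ^ 2 + (Real.pi : ℂ) ^ 2‖ / q) * ‖δ‖ := by
  have hpi := Real.pi_pos
  have hpc : (Real.pi : ℂ) ≠ 0 := by exact_mod_cast hpi.ne'
  have hs := Pot_sin_ne hw
  set a : ℂ := Real.pi * w with ha
  set b : ℂ := Real.pi * δ with hb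
  have hbn : ‖b‖ = Real.pi * ‖δ‖ := by
    rw [hb, norm_mul, norm_real, Real.norm_of_nonneg hpi.le]
  have hc : ‖cos a / sin a‖ = ‖ct w‖ / Real.pi := by
    unfold ct
    rw [mul_div_assoc, norm_mul, norm_real, Real.norm_of_nonneg hpi.le, ← ha]
    field_simp
  have hd := den_ge (a := a) (b := b) (σ := σ) (c := ‖ct w‖ / Real.pi) (q := q) (by rw [hbn]; exact hδ)
    hσ hs hc.le (by
      have : ‖ct w‖ / Real.pi * σ = ‖ct w‖ * (σ / Real.pi) := by ring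
      rw [this]; exact hq)
  have hsn : 0 < ‖sin a‖ := norm_pos_iff.2 hs
  have hs2 : sin (a + b) ≠ 0 := by
    intro h
    rw [h, norm_zero] at hd
    have := mul_pos hq0 hsn
    linarith
  have e1 : ct (w + δ) - ct w = -(Real.pi * sin b) / (sin (a + b) * sin a) := by
    unfold ct
    rw [mul_add, ← ha, ← hb, div_sub_div _ _ hs2 hs]
    congr 1
    have : sin b = sin (a + b) * cos a - cos (a + b) * sin a := by
      rw [← sin_sub]
      congr 1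
      ring
    rw [this]
    ring
  have e2 : ct w ^ 2 + (Real.pi : ℂ) ^ 2 = Real.pi ^ 2 / sin a ^ 2 := by
    unfold ct
    rw [← ha]
    have := Complex.sin_sq_add_cos_sq a
    field_simp
    linear_combination this
  rw [e1, e2, norm_div, norm_neg, norm_mul, norm_mul, norm_div, norm_pow, norm_pow, norm_real,
    Real.norm_of_nonneg hpi.le]
  have h3 : ‖sin b‖ ≤ 21 / 20 * (Real.pi * ‖δ‖) := by
    rw [← hbn]
    exact (norm_sin_le b).trans (sinh_le_21 (norm_nonneg _) (by rw [hbn]; linarith))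
  have hs3 : 0 < ‖sin (a + b)‖ := norm_pos_iff.2 hs2
  rw [div_le_iff₀ (mul_pos hs3 hsn)]
  have h4 : Real.pi * ‖sin b‖ ≤ Real.pi * (21 / 20 * (Real.pi * ‖δ‖)) :=
    mul_le_mul_of_nonneg_left h3 hpi.le
  refine h4.trans ?_
  have h5 : 21 / 20 * (Real.pi ^ 2 / ‖sin a‖ ^ 2 / q) * ‖δ‖ * (‖sin (a + b)‖ * ‖sin a‖) =
      21 / 20 * Real.pi ^ 2 * ‖δ‖ * (‖sin (a + b)‖ / (q * ‖sin a‖)) := by
    field_simp
  rw [h5]
  have h6 : 1 ≤ ‖sin (a + b)‖ / (q * ‖sin a‖) := by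
    rw [le_div_iff₀ (mul_pos hq0 hsn)]
    linarith
  have h7 : 0 ≤ 21 / 20 * Real.pi ^ 2 * ‖δ‖ := by positivity
  nlinarith [mul_le_mul_of_nonneg_left h6 h7]

/-- The Taylor formula of order two. -/
theorem he_tay {w δ : ℂ} {σ q : ℝ} (hf : ∀ t : ℝ, 0 ≤ t → t ≤ 1 → fdom (w + t * δ))
    (hδ : Real.pi * ‖δ‖ ≤ σ) (hσ : σ ≤ 1 / 2)
    (hq0 : 0 < q) (hq : q ≤ 1 - 13 / 25 * σ ^ 2 - 21 / 20 * (‖ct w‖ * (σ / Real.pi))) :
    ‖he (w + δ) - he w - ct w * δ‖ ≤ 21 / 40 * (‖ct w ^ 2 + (Real.pi : ℂ) ^ 2‖ / q) * ‖δ‖ ^ 2 := by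
  set K : ℝ := 21 / 20 * (‖ct w ^ 2 + (Real.pi : ℂ) ^ 2‖ / q) with hK
  have hw : fdom w := by
    have := hf 0 le_rfl zero_le_one
    simpa using this
  set f : ℝ → ℂ := fun t => he (w + t * δ) - he w - t * (ct w * δ) with hfd
  have hder : ∀ t : ℝ, 0 ≤ t → t ≤ 1 →
      HasDerivAt f ((ct (w + t * δ) - ct w) * δ) t := fun t h0 h1 => by
    have h2 : HasDerivAt (fun t : ℝ => w + (t : ℂ) * δ) δ t := by
      have := ((Complex.ofRealCLM.hasDerivAt (x := t)).mul_const δ).const_add w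
      simpa using this
    have h3 := (he_hasDerivAt (hf t h0 h1)).comp_of_eq t h2 rfl
    have h4 : HasDerivAt (fun t : ℝ => (t : ℂ) * (ct w * δ)) (ct w * δ) t := by
      have := (Complex.ofRealCLM.hasDerivAt (x := t)).mul_const (ct w * δ)
      simpa using this
    have h5 := (h3.sub_const (he w)).sub h4
    exact h5.congr_deriv (by ring)
  have hb : ∀ t : ℝ, 0 ≤ t → t ≤ 1 → ‖(ct (w + t * δ) - ct w) * δ‖ ≤ K * ‖δ‖ ^ 2 * t := fun t h0 h1 => by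
    have hn : ‖(t : ℂ) * δ‖ = t * ‖δ‖ := by rw [norm_mul, norm_real, Real.norm_of_nonneg h0]
    have := ct_sub hw (δ := t * δ) (σ := σ) (q := q) (by
      rw [hn]
      have h3 : t * ‖δ‖ ≤ ‖δ‖ := by nlinarith [norm_nonneg δ]
      have := mul_le_mul_of_nonneg_left h3 Real.pi_pos.le
      linarith) hσ hq0 hq
    rw [hn, ← hK] at this
    rw [norm_mul]
    calc ‖ct (w + t * δ) - ct w‖ * ‖δ‖ ≤ K * (t * ‖δ‖) * ‖δ‖ :=
          mul_le_mul_of_nonneg_right this (norm_nonneg _)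
      _ = K * ‖δ‖ ^ 2 * t := by ring
  have main := image_norm_le_of_norm_deriv_right_le_deriv_boundary (a := (0 : ℝ)) (b := 1)
    (f := f) (f' := fun t => (ct (w + t * δ) - ct w) * δ)
    (B := fun t => K * ‖δ‖ ^ 2 * t ^ 2 / 2) (B' := fun t => K * ‖δ‖ ^ 2 * t)
    (fun t ht => (hder t ht.1 ht.2).continuousAt.continuousWithinAt)
    (fun t ht => (hder t ht.1 ht.2.le).hasDerivWithinAt)
    (by simp [hfd])
    (fun t => by
      have := ((hasDerivAt_pow 2 t).const_mul (K * ‖δ‖ ^ 2)).div_const 2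
      exact this.congr_deriv (by norm_num; ring))
    (fun t ht => hb t ht.1 ht.2.le) (x := 1) ⟨zero_le_one, le_rfl⟩
  have e1 : f 1 = he (w + δ) - he w - ct w * δ := by simp [hfd]
  rw [e1] at main
  have e2 : K * ‖δ‖ ^ 2 * (1 : ℝ) ^ 2 / 2 = 21 / 40 * (‖ct w ^ 2 + (Real.pi : ℂ) ^ 2‖ / q) * ‖δ‖ ^ 2 := by
    rw [hK]; ring
  rw [← e2]
  exact main

end Pool.Agent.S5.K3
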