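import Pool.Agent.S5.K3.Def
import Pool.Agent.S5.K3.Tay
import Pool.Agent.S5.G.Sh

/-!
# Localisation of the critical point of a node with three half twists

The map from `(P, R)` to the logarithms of the moduli of the two neighbours is monotone on the
domain `Dm`.
-/

set_option autoImplicit false

namespace Pool.Agent.S5.K3

open Complex Pool.Agent.H63.VC3 Pool.Agent.S3
open scoped ComplexConjugate

theorem Dm.symm {P R : ℂ} (h : Dm P R) : Dm R P :=
  ⟨h.r0, h.r1, h.r2, h.r3, h.p0, h.p1, h.p2, h.p3, by linarith only [h.s]⟩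

theorem seg_re (A B : ℂ) (t : ℝ) : (A + t * (B - A)).re = (1 - t) * A.re + t * B.re := by
  simp only [add_re, mul_re, sub_re, ofReal_re, ofReal_im, sub_im]
  ring

theorem seg_im (A B : ℂ) (t : ℝ) : (A + t * (B - A)).im = (1 - t) * A.im + t * B.im := by
  simp only [add_im, mul_im, sub_re, ofReal_re, ofReal_im, sub_im]
  ring

theorem seg_lt {a b c t : ℝ} (h0 : 0 ≤ t) (h1 : t ≤ 1) (ha : a < c) (hb : b < c) :
    (1 - t) * a + t * b < c := by
  rcases eq_or_lt_of_le h0 with rfl | h
  · simpa using ha
  · have h2 := mul_lt_mul_of_pos_left hb h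
    have h3 := mul_le_mul_of_nonneg_left ha.le (sub_nonneg.2 h1)
    linarith only [h3, h2]

theorem Dm.seg {P R P' R' : ℂ} (h : Dm P R) (h' : Dm P' R') {t : ℝ} (h0 : 0 ≤ t) (h1 : t ≤ 1) :
    Dm (P + t * (P' - P)) (R + t * (R' - R)) := by
  refine ⟨?_, ?_, ?_, ?_, ?_, ?_, ?_, ?_, ?_⟩
  · rw [seg_re]
    have := seg_lt (a := -P.re) (b := -P'.re) (c := 1 / 10) h0 h1 (by linarith only [h.p0])
      (by linarith only [h'.p0])
    linarith only [this]
  · rw [seg_im]; exact seg_lt h0 h1 h.p1 h'.p1
  · rw [seg_re, seg_im]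
    have := seg_lt (a := -(3 * P.re - 4 * P.im)) (b := -(3 * P'.re - 4 * P'.im)) (c := 0) h0 h1
      (by linarith only [h.p2]) (by linarith only [h'.p2])
    linarith only [this]
  · rw [seg_re]; exact seg_lt h0 h1 h.p3 h'.p3
  · rw [seg_re]
    have := seg_lt (a := -R.re) (b := -R'.re) (c := 1 / 10) h0 h1 (by linarith only [h.r0])
      (by linarith only [h'.r0])
    linarith only [this]
  · rw [seg_im]; exact seg_lt h0 h1 h.r1 h'.r1
  · rw [seg_re, seg_im]
    have := seg_lt (a := -(3 * R.re - 4 * R.im)) (b := -(3 * R'.re - 4 * R'.im)) (c := 0) h0 h1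
      (by linarith only [h.r2]) (by linarith only [h'.r2])
    linarith only [this]
  · rw [seg_re]; exact seg_lt h0 h1 h.r3 h'.r3
  · rw [seg_re, seg_re]
    have a1 := mul_le_mul_of_nonneg_left h.s (sub_nonneg.2 h1)
    have a2 := mul_le_mul_of_nonneg_left h'.s h0
    linarith only [a2, a1]

theorem zt_symm (P R : ℂ) : zt R P = zt P R := by unfold zt; ring

theorem zt_re (P R : ℂ) : (zt P R).re = (1 - P.re - R.re) / 3 := by
  unfold zt
  simp only [div_ofNat_re, sub_re, one_re]

theorem zt_im (P R : ℂ) : (zt P R).im = -(P.im + R.im) / 3 := by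
  unfold zt
  simp only [div_ofNat_im, sub_im, one_im]
  ring

theorem Dm.zt {P R : ℂ} (h : Dm P R) : 1 / 6 ≤ (zt P R).re ∧ (zt P R).re < 1 / 2 ∧
    0 < (zt P R).im := by
  rw [zt_re, zt_im]
  refine ⟨?_, ?_, ?_⟩
  · linarith only [h.s]
  · linarith only [h.r0, h.p0]
  · linarith only [h.r1, h.p1]

/-! ### Signs -/

theorem sin_ns {z : ℂ} (h : fdom z) : 0 < Complex.normSq (sin (Real.pi * z)) :=
  Complex.normSq_pos.2 (Pot_sin_ne h)

theorem pi_mul_re (z : ℂ) : (Real.pi * z : ℂ).re = Real.pi * z.re := by simp

theorem pi_mul_im (z : ℂ) : (Real.pi * z : ℂ).im = Real.pi * z.im := by simp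

theorem ct_parts {z : ℂ} (h : fdom z) :
    (ct z).re * Complex.normSq (sin (Real.pi * z)) =
      Real.pi * (Real.sin (Real.pi * z.re) * Real.cos (Real.pi * z.re)) ∧
    (ct z).im * Complex.normSq (sin (Real.pi * z)) =
      -(Real.pi * (Real.sinh (Real.pi * z.im) * Real.cosh (Real.pi * z.im))) := by
  have hs := Pot_sin_ne h
  have e : ct z * Complex.normSq (sin (Real.pi * z)) =
      Real.pi * (cos (Real.pi * z) * conj (sin (Real.pi * z))) := by
    unfold ct
    rw [Complex.normSq_eq_conj_mul_self]
    field_simp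
  have hc := Real.cosh_sq (Real.pi * z.im)
  have ht := Real.sin_sq_add_cos_sq (Real.pi * z.re)
  constructor
  · have := congrArg Complex.re e
    simp only [mul_re, ofReal_re, ofReal_im, conj_re, conj_im, mul_zero, sub_zero, zero_mul] at this
    rw [this, G.cos_re, G.cos_im, G.sin_re, G.sin_im, pi_mul_re, pi_mul_im]
    linear_combination (Real.pi * Real.sin (Real.pi * z.re) * Real.cos (Real.pi * z.re)) * hc
  · have := congrArg Complex.im e
    simp only [mul_im, ofReal_re, ofReal_im, conj_re, conj_im, mul_zero, zero_mul, add_zero,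
      zero_add] at this
    rw [this, G.cos_re, G.cos_im, G.sin_re, G.sin_im, pi_mul_re, pi_mul_im]
    linear_combination (-Real.pi * Real.sinh (Real.pi * z.im) * Real.cosh (Real.pi * z.im)) * ht

theorem rt_add (a b : ℂ) : rt (a + b) = rt a + rt b := by unfold rt; simp; ring

theorem rt_sub (a b : ℂ) : rt (a - b) = rt a - rt b := by unfold rt; simp; ring

theorem rt_mul_ofReal (a : ℂ) (x : ℝ) : rt (a * x) = rt a * x := by unfold rt; simp; ring

theorem rt_le (w : ℂ) : rt w ≤ 5 * ‖w‖ := by
  have h := Complex.sq_norm w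
  rw [Complex.normSq_apply] at h
  have h0 := norm_nonneg w
  unfold rt
  (refine le_of_not_gt fun hng => ?_; linarith only [h, sq_nonneg (4 * w.re - 3 * w.im),
    mul_nonneg (sub_nonneg.2 hng.le) (sub_nonneg.2 h0), mul_pos (sub_pos.2 hng) (sub_pos.2 hng)])

theorem le_rt (w : ℂ) : -(5 * ‖w‖) ≤ rt w := by
  have := rt_le (-w)
  rw [norm_neg] at this
  unfold rt at *
  simp at this
  linarith only [this]

theorem rt_ct_nonneg {w : ℂ} (h0 : -(1 / 10) < w.re) (h1 : w.re < 1 / 2) (h2 : w.im < 0)
    (h3 : 0 < 3 * w.re - 4 * w.im) : 0 ≤ rt (ct w) := by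
  have hf : fdom w := Or.inl h2.ne
  obtain ⟨e1, e2⟩ := ct_parts hf
  have hn := sin_ns hf
  have hpi := Real.pi_pos
  have hc0 : 0 < Real.cos (Real.pi * w.re) := Real.cos_pos_of_mem_Ioo ⟨by linarith only [hpi,
                                                                            mul_pos (sub_pos.2 h0) (sub_pos.2 hpi)], by linarith only [mul_pos (sub_pos.2 h1) (sub_pos.2 hpi)]⟩
  have hc1 := Real.cos_le_one (Real.pi * w.re)
  have hS : -(Real.pi * w.im) ≤ -Real.sinh (Real.pi * w.im) := by
    have := Real.self_le_sinh_iff.2 (show 0 ≤ Real.pi * (-w.im) by linarith only [mul_pos (sub_pos.2 h2) (sub_pos.2 hpi)])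
    rw [mul_neg, Real.sinh_neg] at this
    exact this
  have hC := Real.one_le_cosh (Real.pi * w.im)
  have k1 : -(Real.pi * w.im) ≤ -(Real.sinh (Real.pi * w.im) * Real.cosh (Real.pi * w.im)) := by
    have : 0 ≤ -(Real.pi * w.im) := by linarith only [mul_pos (sub_pos.2 h2) (sub_pos.2 hpi)]
    linarith only [hS, mul_nonneg (sub_nonneg.2 hC) (sub_nonneg.2 this),
      mul_nonneg (sub_nonneg.2 hS) (sub_nonneg.2 hC)]
  have k2 : min 0 (Real.pi * w.re) ≤ Real.sin (Real.pi * w.re) * Real.cos (Real.pi * w.re) := by
    rcases le_or_gt 0 w.re with h | h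
    · refine (min_le_left _ _).trans (mul_nonneg ?_ hc0.le)
      exact Real.sin_nonneg_of_nonneg_of_le_pi (mul_nonneg hpi.le h) (by linarith only [hpi,
                                                                           mul_pos (sub_pos.2 h1) (sub_pos.2 hpi)])
    · refine (min_le_right _ _).trans ?_
      have h4 : Real.pi * w.re ≤ 0 := by (refine le_of_not_gt fun hng => ?_; linarith only [mul_pos (sub_pos.2 hpi) (sub_pos.2 h),
                                           mul_pos (sub_pos.2 hng) (sub_pos.2 h),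
                                           mul_pos (sub_pos.2 hng) (sub_pos.2 h0)])
      have h5 := Real.le_sin h4
      have h6 : Real.sin (Real.pi * w.re) ≤ 0 :=
        Real.sin_nonpos_of_nonpos_of_neg_pi_le h4 (by (refine le_of_not_gt fun hng => ?_; linarith only [hpi,
                                                        mul_pos (sub_pos.2 h0) (sub_pos.2 hpi),
                                                        mul_pos (sub_pos.2 hng) (sub_pos.2 h),
                                                        mul_pos (sub_pos.2 hng) (sub_pos.2 h0)]))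
      (refine le_of_not_gt fun hng => ?_; linarith only [mul_nonneg (sub_nonneg.2 hc1) (sub_nonneg.2 h4),
        mul_nonneg (sub_nonneg.2 hc0.le) (sub_nonneg.2 h5), mul_pos (sub_pos.2 hng) (sub_pos.2 h),
        mul_pos (sub_pos.2 hng) (sub_pos.2 h0)])
  have key : 0 ≤ rt (ct w) * Complex.normSq (sin (Real.pi * w)) := by
    have e : rt (ct w) * Complex.normSq (sin (Real.pi * w)) = Real.pi *
        (3 * (Real.sin (Real.pi * w.re) * Real.cos (Real.pi * w.re)) +
          4 * -(Real.sinh (Real.pi * w.im) * Real.cosh (Real.pi * w.im))) := by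
      unfold rt
      linear_combination 3 * e1 + 4 * e2
    rw [e]
    apply mul_nonneg hpi.le
    rcases le_or_gt 0 w.re with h | h
    · rw [min_eq_left (mul_nonneg hpi.le h)] at k2
      linarith only [k2, k1, mul_pos (sub_pos.2 h2) (sub_pos.2 hpi)]
    · rw [min_eq_right (by (refine le_of_not_gt fun hng => ?_; linarith only [mul_pos (sub_pos.2 hpi) (sub_pos.2 h),
                             mul_pos (sub_pos.2 hng) (sub_pos.2 h),
                             mul_pos (sub_pos.2 hng) (sub_pos.2 h0)]))] at k2
      linarith only [mul_pos hpi h3, k2, k1]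
  exact le_of_mul_le_mul_right (by rw [zero_mul]; exact key) hn

theorem rt_T_nonneg {z : ℂ} (h0 : 1 / 6 ≤ z.re) (h1 : z.re < 1 / 2) (h2 : 0 < z.im) :
    0 ≤ rt (ct z + ct (1 / 2 - z)) := by
  have hf : fdom z := Or.inl h2.ne'
  have r1 : (1 / 2 - z : ℂ).re = 1 / 2 - z.re := by simp
  have r2 : (1 / 2 - z : ℂ).im = -z.im := by simp
  have hf' : fdom (1 / 2 - z) := Or.inl (by rw [r2]; linarith only [h2])
  obtain ⟨e1, e2⟩ := ct_parts hf
  obtain ⟨f1, f2⟩ := ct_parts hf'
  have hn := sin_ns hf
  have hn' := sin_ns hf'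
  have hpi := Real.pi_pos
  rw [r1, show Real.pi * (1 / 2 - z.re) = Real.pi / 2 - Real.pi * z.re by ring,
    Real.sin_pi_div_two_sub, Real.cos_pi_div_two_sub] at f1
  rw [r2, mul_neg, Real.sinh_neg, Real.cosh_neg] at f2
  have n1 : Complex.normSq (sin (Real.pi * z)) =
      Real.sin (Real.pi * z.re) ^ 2 + Real.sinh (Real.pi * z.im) ^ 2 := by
    have hc := Real.cosh_sq (Real.pi * z.im)
    have ht := Real.sin_sq_add_cos_sq (Real.pi * z.re)
    rw [Complex.normSq_apply, G.sin_re, G.sin_im, pi_mul_re, pi_mul_im]
    linear_combination Real.sin (Real.pi * z.re) ^ 2 * hc + Real.sinh (Real.pi * z.im) ^ 2 * ht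
  have n2 : Complex.normSq (sin (Real.pi * (1 / 2 - z))) =
      Real.cos (Real.pi * z.re) ^ 2 + Real.sinh (Real.pi * z.im) ^ 2 := by
    have hc := Real.cosh_sq (Real.pi * z.im)
    have ht := Real.sin_sq_add_cos_sq (Real.pi * z.re)
    rw [Complex.normSq_apply, G.sin_re, G.sin_im, pi_mul_re, pi_mul_im, r1, r2,
      show Real.pi * (1 / 2 - z.re) = Real.pi / 2 - Real.pi * z.re by ring,
      Real.sin_pi_div_two_sub, Real.cos_pi_div_two_sub, mul_neg, Real.sinh_neg, Real.cosh_neg]
    linear_combination Real.cos (Real.pi * z.re) ^ 2 * hc + Real.sinh (Real.pi * z.im) ^ 2 * ht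
  rw [n1] at e1 e2 hn
  rw [n2] at f1 f2 hn'
  have hs : 0 < Real.sin (Real.pi * z.re) :=
    Real.sin_pos_of_pos_of_lt_pi (by linarith only [hpi,
                                       mul_nonneg (sub_nonneg.2 h0) (sub_nonneg.2 hpi.le)]) (by linarith only [hpi,
                                                                                                  mul_pos (sub_pos.2 h1) (sub_pos.2 hpi)])
  have hc : 0 < Real.cos (Real.pi * z.re) :=
    Real.cos_pos_of_mem_Ioo ⟨by linarith only [hpi,
                                  mul_nonneg (sub_nonneg.2 h0) (sub_nonneg.2 hpi.le)], by linarith only [mul_pos (sub_pos.2 h1) (sub_pos.2 hpi)]⟩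
  have hS : 0 < Real.sinh (Real.pi * z.im) := Real.sinh_pos_iff.2 (mul_pos hpi h2)
  have hC : Real.sinh (Real.pi * z.im) < Real.cosh (Real.pi * z.im) := Real.sinh_lt_cosh _
  have hC2 := Real.cosh_sq (Real.pi * z.im)
  have ht := Real.sin_sq_add_cos_sq (Real.pi * z.re)
  have hCp := Real.cosh_pos (Real.pi * z.im)
  have c3 : Real.cos (Real.pi * z.re) ^ 2 ≤ 3 / 4 := by
    have : Real.cos (Real.pi * z.re) ≤ Real.cos (Real.pi / 6) :=
      Real.cos_le_cos_of_nonneg_of_le_pi (by positivity) (by (refine le_of_not_gt fun hng => ?_; linarith only [hpi,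
                                                               mul_pos (sub_pos.2 h1) (sub_pos.2 hpi),
                                                               mul_pos (sub_pos.2 hng) (sub_pos.2 h1),
                                                               mul_nonneg (sub_nonneg.2 hng.le) (sub_nonneg.2 h0)])) (by (refine le_of_not_gt fun hng => ?_; linarith only [mul_nonneg (sub_nonneg.2 h0) (sub_nonneg.2 hpi.le),
                                                                                                                           mul_pos (sub_pos.2 hng) (sub_pos.2 h1),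
                                                                                                                           mul_nonneg (sub_nonneg.2 hng.le) (sub_nonneg.2 h0)]))
    rw [Real.cos_pi_div_six] at this
    have h3 := Real.sq_sqrt (show (0 : ℝ) ≤ 3 by norm_num)
    (refine le_of_not_gt fun hng => ?_; linarith only [h3,
      mul_nonneg (sub_nonneg.2 this) (sub_nonneg.2 this),
      mul_nonneg (sub_nonneg.2 hc.le) (sub_nonneg.2 this), mul_pos (sub_pos.2 hng) (sub_pos.2 h1),
      mul_nonneg (sub_nonneg.2 hng.le) (sub_nonneg.2 h0)])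
  generalize ct z = A at *
  generalize ct (1 / 2 - z) = B at *
  generalize Real.sin (Real.pi * z.re) = s at *
  generalize Real.cos (Real.pi * z.re) = c at *
  generalize Real.sinh (Real.pi * z.im) = S at *
  generalize Real.cosh (Real.pi * z.im) = C at *
  have key : 0 ≤ rt (A + B) * ((s ^ 2 + S ^ 2) * (c ^ 2 + S ^ 2)) := by
    have e : rt (A + B) * ((s ^ 2 + S ^ 2) * (c ^ 2 + S ^ 2)) =
        Real.pi * (3 * (s * c) * (1 + 2 * S ^ 2) - 4 * (S * C) * (c ^ 2 - s ^ 2)) := by
      unfold rt
      simp only [add_re, add_im]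
      linear_combination (3 * (c ^ 2 + S ^ 2)) * e1 + (4 * (c ^ 2 + S ^ 2)) * e2 +
        (3 * (s ^ 2 + S ^ 2)) * f1 + (4 * (s ^ 2 + S ^ 2)) * f2 + (3 * Real.pi * s * c) * ht
    rw [e]
    apply mul_nonneg hpi.le
    have i2 : 0 < S * C := mul_pos hS hCp
    have i7 : 0 < s * c := mul_pos hs hc
    rcases le_or_gt (c ^ 2) (s ^ 2) with i | i
    · have : 0 ≤ 4 * (S * C) * (s ^ 2 - c ^ 2) := mul_nonneg (by positivity) (by linarith only [i])
      have : 0 ≤ 3 * (s * c) * (1 + 2 * S ^ 2) := by positivity
      linarith [this]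
    · have i1 : S * C ≤ (1 + 2 * S ^ 2) / 2 := by linarith only [sq_nonneg (C - S), hC2]
      have i3 : 3 / 16 ≤ (s * c) ^ 2 := by (refine le_of_not_gt fun hng => ?_; linarith only [ht,
                                             mul_nonneg (sub_nonneg.2 c3) (sub_nonneg.2 i.le),
                                             mul_pos (sub_pos.2 hng) (sub_pos.2 i),
                                             mul_nonneg (sub_nonneg.2 hng.le) (sub_nonneg.2 c3),
                                             mul_nonneg (sq_nonneg (1 * s * (1 * c))) (sub_nonneg.2 ht.le),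
                                             mul_nonneg (sq_nonneg (1 * s * (1 * c))) (sub_nonneg.2 ht.ge),
                                             mul_nonneg (sq_nonneg (c)) (sub_nonneg.2 ht.le),
                                             mul_nonneg (sq_nonneg (c)) (sub_nonneg.2 ht.ge),
                                             mul_nonneg (sq_nonneg (c)) (sub_nonneg.2 c3)])
      have i4 : 3 / 8 ≤ s * c := by (refine le_of_not_gt fun hng => ?_; linarith only [i3, i7,
                                      mul_pos (sub_pos.2 hng) (sub_pos.2 i7),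
                                      mul_pos (sub_pos.2 hng) (sub_pos.2 h1),
                                      mul_nonneg (sub_nonneg.2 hng.le) (sub_nonneg.2 h0)])
      have i5 : c ^ 2 - s ^ 2 ≤ 1 / 2 := by linarith only [ht, c3]
      have i6 : S * C * (c ^ 2 - s ^ 2) ≤ S * C * (1 / 2) := mul_le_mul_of_nonneg_left i5 i2.le
      linarith only [mul_le_mul_of_nonneg_right i4 (show (0 : ℝ) ≤ 1 + 2 * S ^ 2 by positivity), i6,
        i1, i, hn, ht]
  have hp : 0 < (s ^ 2 + S ^ 2) * (c ^ 2 + S ^ 2) := mul_pos hn hn'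
  exact le_of_mul_le_mul_right (by rw [zero_mul]; exact key) hp

end Pool.Agent.S5.K3
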