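import Pool.Agent.S5.K3.LinkE
import Pool.Agent.S5.K3.EndRel
import Pool.Agent.S5.K3.C3322

/-!
# Inner nodes with three half twists: the context of a node
-/

set_option autoImplicit false

namespace Pool.Agent.S5.K3

open Complex Pool.Agent.H63.VC3 Pool.Agent.S3
open Pool.Agent.S5.G (Sd N3 Slot SF kp lA lB zz3 O3 sy)
open Pool.Agent.S5.E (Vt vL vR)
open Pool.Agent.S5.E.B2 (InR)

/-- The type of a neighbour. -/
def ntV (x : Vt) : Nt := ⟨min x.a 6, x.o.isNone⟩

/-- The own type seen from an edge. -/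
def me (s t : Bool) : Vt := ⟨3, s, some t⟩

/-- The pair of the neighbours `x` (first slot), `w` (second slot) of an inner node with three
half twists, in the order of the orientation. -/
def prT (ty tb : Bool) (x w : Vt) : Bool :=
  x.ok && (w.ok && (x.s == ty && (w.s == tb && ((ty || !tb) && (E.adm (me ty tb) x w &&
    (!(ty && (tb && (decide (x = me true true) && decide (w = me true true)))) &&
    (bif ty == tb then (bif ty then Nat.ble (rkS (ntV x)) (rkS (ntV w))
      else Nat.ble (rkA (ntV w)) (rkA (ntV x))) else true)))))))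

/-- The region of the first vertex of a special pair next to an inner vertex with three half twists
and two `S` edges. -/
def q33 : E.B2.Rg := ⟨806, 926, 492, 663, 0⟩

/-- The special pairs are in the region `q33`. -/
def SpQ (T : Vt → Vt → E.B2.Rg) : Prop :=
  ∀ {R : ℕ} {a : ℕ → ℕ} {S : ℕ → Bool} {r : ℕ → ℤ} {z ql qr : ℕ → ℂ} {zF : Fin (R + 1) → ℂ},
    Ctx T R a S r z ql qr zF → ∀ {i : ℕ}, i + 3 < R → a (i + 1) = 3 → a (i + 2) = 2 →
    a (i + 3) = 2 → S i = true → S (i + 1) = true → S (i + 2) = false → S (i + 3) = true →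
    InR q33 (cos (z (i + 2))).re (-(cos (z (i + 2))).im)

/-- The context of an inner node with three half twists: `x`, `w` the types of the neighbours of
the two slots, `cy`, `cb` their numbers. -/
structure N3c (T : Vt → Vt → E.B2.Rg) (ty tb : Bool) (x w : Vt) (cy cb p r z : ℂ) : Prop where
  lk : Lk ty tb cy cb p r z
  pr : prT ty tb x w = true
  ry : InR (T x (me ty tb)) cy.re (-cy.im)
  rb : InR (T w (me tb ty)) cb.re (-cb.im)
  oy : InR (T (me ty tb) x) (cos z).re (-(cos z).im)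
  ob : InR (T (me tb ty) w) (cos z).re (-(cos z).im)
  y2 : x.o = none → x.a = 2 → cos z = 2 * eI ty * kp ty cy ^ 2
  y3 : x.o = none → x.a = 3 → cos z = eI ty * (kp ty cy * (4 * kp ty cy ^ 2 - 1))
  b2 : w.o = none → w.a = 2 → cos z = 2 * eI tb * kp tb cb ^ 2
  b3 : w.o = none → w.a = 3 → cos z = eI tb * (kp tb cb * (4 * kp tb cb ^ 2 - 1))
  c0 : ty = true → tb = true → x = ⟨3, true, none⟩ → w = ⟨2, true, some false⟩ →
    C33.Outs cy (cos z) cb
  q2 : ty = true → tb = true → x.a = 2 → InR q33 cy.re (-cy.im)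

/-- A slot of the node. -/
noncomputable def slN (s : Bool) (x : Vt) (z1 : ℝ) (c q z : ℂ) : Slt :=
  ⟨true, s, ntV x, z1, sy q z, 2 * (log (kp s c) - log (cos z))⟩

/-- The statement about a node. -/
def VN (ty tb : Bool) (x w : Vt) (z1 zy zb : ℝ) (cy cb p r z : ℂ) : Prop :=
  VZ (Ez3 (sy p z) (zz3 p r z) (sy r z)) ⟨3, false⟩ z1 (zz3 p r z) (slN ty x zy cy p z)
    (slN tb w zb cb r z)

/-- The end of the contour of the variable. -/
noncomputable def z1T (ty tb : Bool) (x w : Vt) : ℝ :=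
  if ty = true ∧ tb = true ∧ ¬(x = ⟨3, true, none⟩ ∧ w = ⟨3, true, none⟩) then 3 / 8 else 2 / 5

/-- The end of the contour of the variable of a neighbour. -/
noncomputable def zN (s : Bool) (n : Nt) : ℝ := if s = true ∧ n = ⟨3, false⟩ then 3 / 8 else 2 / 5

/-! ### The ends of the contours of the neighbours -/

theorem zN_le {m : ℕ} {a : ℕ → ℕ} {S : ℕ → Bool} {j : ℕ} {s : Bool}
    (hs : S (j - 1) = true → S j = true → s = true) : zN s (ntG m a j) ≤ z1O m a S j := by
  unfold zN z1O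
  by_cases h : 0 < j ∧ j < m ∧ a j = 3 ∧ S (j - 1) = true ∧ S j = true ∧
      ¬(m = 2 ∧ a 0 = 3 ∧ a 2 = 3)
  · have e : ntG m a j = ⟨3, false⟩ := by
      unfold ntG
      rw [h.2.2.1]
      have : decide (j = 0 ∨ j = m) = false := decide_eq_false (by omega)
      rw [this]
      rfl
    rw [if_pos h, if_pos ⟨hs h.2.2.2.1 h.2.2.2.2.1, e⟩]
  · rw [if_neg h]
    split
    · norm_num
    · exact le_refl _

theorem in_mono {e S : Bool} {x : Nt} {u v : ℝ} {ys l : ℂ} (h : u ≤ v) {pc : Pc} {y : ℂ} {w : ℝ}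
    (H : (⟨e, S, x, v, ys, l⟩ : Slt).In pc y w) : (⟨e, S, x, u, ys, l⟩ : Slt).In pc y w := by
  unfold Slt.In at H ⊢
  cases e
  · exact H
  · exact ⟨H.1, fun k => ⟨(H.2.1 k).1, h.trans (H.2.1 k).2⟩, H.2.2⟩

theorem vz_mono {E : ℂ → ℂ → ℂ → ℝ} {n : Nt} {z1 : ℝ} {zs : ℂ} {e S : Bool} {x : Nt} {u v : ℝ}
    {ys l : ℂ} {e' S' : Bool} {x' : Nt} {u' v' : ℝ} {ys' l' : ℂ} (h : u ≤ v) (h' : u' ≤ v')
    (V : VZ E n z1 zs ⟨e, S, x, u, ys, l⟩ ⟨e', S', x', u', ys', l'⟩) :
    VZ E n z1 zs ⟨e, S, x, v, ys, l⟩ ⟨e', S', x', v', ys', l'⟩ where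
  U y z b wy w wb py pb f g i j k := V.U y z b wy w wb py pb f g (in_mono h i) (in_mono h' j) k
  P y z b wy wb py pb f g i j := V.P y z b wy wb py pb f g (in_mono h i) (in_mono h' j)
  N y z b wy wb py pb f g i j := V.N y z b wy wb py pb f g (in_mono h i) (in_mono h' j)
  Ty y z b wy wb pb f g i j := V.Ty y z b wy wb pb f g (in_mono h i) (in_mono h' j)
  Tb y z b wy wb py f g i j := V.Tb y z b wy wb py f g (in_mono h i) (in_mono h' j)
  quad := V.quad

/-! ### The types of the neighbours -/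

section types

variable {R : ℕ} {a : ℕ → ℕ} {S : ℕ → Bool}

theorem ntV_L {j : ℕ} (hj : j + 1 ≤ R) : ntV (vL R a S (j + 1)) = ntG R a (j + 1) := by
  unfold ntV ntG E.vL
  have g1 : min (min (a (j + 1)) 8) 6 = min (a (j + 1)) 6 := by omega
  have g2 : (if j + 1 = R then (none : Option Bool) else some (S (j + 1))).isNone =
      decide (j + 1 = 0 ∨ j + 1 = R) := by
    by_cases hc : j + 1 = R
    · simp [hc]
    · simp [hc]
  simp only [g1, g2]

theorem ntV_R {i : ℕ} (hi : i < R) : ntV (vR a S i) = ntG R a i := by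
  unfold ntV ntG E.vR
  have g1 : min (min (a i) 8) 6 = min (a i) 6 := by omega
  have g2 : (if i = 0 then (none : Option Bool) else some (S (i - 1))).isNone =
      decide (i = 0 ∨ i = R) := by
    by_cases hc : i = 0
    · simp [hc]
    · simp [hc, hi.ne]
  simp only [g1, g2]

theorem vR_me {i : ℕ} (h3 : a (i + 1) = 3) : vR a S (i + 1) = me (S (i + 1)) (S i) := by
  rw [Pre.vR_inner, h3]
  rfl

theorem vL_me {i : ℕ} (hi : i + 1 < R) (h3 : a (i + 1) = 3) :
    vL R a S (i + 1) = me (S i) (S (i + 1)) := by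
  rw [Pre.vL_inner hi, h3]
  rfl

theorem not_me {R : ℕ} {a : ℕ → ℕ} {S : ℕ → Bool} (h : AdmS R a S) {i : ℕ} (hi : i + 1 < R)
    (h3 : a (i + 1) = 3) (h0 : S i = true) (h1 : S (i + 1) = true)
    (hl : vR a S i = me true true) (hr : vL R a S (i + 2) = me true true) : False := by
  unfold E.vR me at hl
  unfold E.vL me at hr
  rw [Vt.mk.injEq] at hl hr
  obtain ⟨l1, -, l3⟩ := hl
  obtain ⟨r1, -, r3⟩ := hr
  by_cases hc : i = 0
  · rw [if_pos hc] at l3
    exact absurd l3 (by simp)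
  by_cases hd : i + 2 = R
  · rw [if_pos hd] at r3
    exact absurd r3 (by simp)
  rw [if_neg hc] at l3
  rw [if_neg hd] at r3
  obtain ⟨j, rfl⟩ : ∃ j, i = j + 1 := ⟨i - 1, by omega⟩
  have q1 : a (j + 1) = 3 := by omega
  have q2 : a (j + 1 + 2) = 3 := by omega
  refine h.no3 j (by omega) ⟨?_, h0, h1, ?_, q1, h3, q2⟩
  · simpa using l3
  · simpa using r3

end types

/-! ### The node -/

theorem dm_of {p r z c c' : ℂ} {s s' : Bool} (O : O3 p r) (hp : Sd s c p z) (hr : Sd s' c' r z) :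
    Dm (cP p) (cP r) := by
  have hpi := Real.pi_pos
  have h4 := Real.pi_lt_d2
  have h3 := Real.pi_gt_three
  have e1 := cP_re p
  have e2 := cP_im p
  have e3 := cP_re r
  have e4 := cP_im r
  have q0 := hp.q0
  have q0' := hr.q0
  have q2 := hp.q2
  have q2' := hr.q2
  have hpp : 0 < p.im ∨ (-(16 * p.im) ≤ r.im ∧ -(24 * p.im) ≤ p.re + r.re ∧
      r.re ≤ p.re ∧ p.re ≤ 1) := by
    rcases O.p0 with h | h
    · rw [h] at q0
      simp at q0
    · exact h.2
  have k1 : -(1 / 10) * Real.pi < p.im := by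
    rcases hpp with h | h
    · nlinarith
    · have := O.r2
      nlinarith [h.1]
  have k2 : 0 < 3 * p.im + 4 * p.re := by
    rcases hpp with h | h
    · linarith
    · linarith [h.2.1, h.2.2.1]
  refine ⟨?_, ?_, ?_, ?_, ?_, ?_, ?_, ?_, ?_⟩
  · rw [e1, lt_div_iff₀ hpi]
    exact k1
  · rw [e2]
    exact div_neg_of_neg_of_pos (by linarith) hpi
  · rw [e1, e2]
    have : 3 * (p.im / Real.pi) - 4 * (-p.re / Real.pi) = (3 * p.im + 4 * p.re) / Real.pi := by
      ring
    rw [this]
    exact div_pos k2 hpi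
  · rw [e1, div_lt_iff₀ hpi]
    linarith
  · rw [e3]
    have : 0 < r.im / Real.pi := div_pos O.r1 hpi
    linarith
  · rw [e4]
    exact div_neg_of_neg_of_pos (by linarith) hpi
  · rw [e3, e4]
    have : 3 * (r.im / Real.pi) - 4 * (-r.re / Real.pi) = (3 * r.im + 4 * r.re) / Real.pi := by
      ring
    rw [this]
    exact div_pos (by linarith [O.r1]) hpi
  · rw [e3, div_lt_iff₀ hpi]
    linarith
  · rw [e1, e3, ← add_div, div_le_iff₀ hpi]
    linarith [O.s1]

variable {T : Vt → Vt → E.B2.Rg} {R : ℕ} {a : ℕ → ℕ} {S : ℕ → Bool} {r : ℕ → ℤ}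
  {z ql qr : ℕ → ℂ} {zF : Fin (R + 1) → ℂ}

theorem lk_mk (h : Ctx T R a S r z ql qr zF) {i : ℕ} (hi : i + 1 < R) (h3 : a (i + 1) = 3) :
    (flO R a S (i + 1) = true → Lk (S (i + 1)) (S i) (cos (z (i + 2))) (cos (z i)) (qr (i + 1))
      (ql (i + 1)) (z (i + 1))) ∧
    (flO R a S (i + 1) = false → Lk (S i) (S (i + 1)) (cos (z i)) (cos (z (i + 2))) (ql (i + 1))
      (qr (i + 1)) (z (i + 1))) := by
  have sr := h.sdr (i := i + 1) hi
  have sl := h.sdl (i := i) (by omega)
  have e := h.hg.crt.eq (i + 1) hi.le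
  rw [h3] at e
  push_cast at e
  have O := h.hg.bx.three (i + 1) hi.le h3
  have kr := h.hg.karg (S (i + 1)) (i + 2) (by omega)
  have kl := h.hg.karg (S i) i (by omega)
  constructor
  · intro hf
    have eB : qB' (flO R a S) ql qr (i + 1) = qr (i + 1) := if_pos hf
    have eO : qO' (flO R a S) ql qr (i + 1) = ql (i + 1) := if_pos hf
    rw [eB, eO] at O
    have hz : 3 * z (i + 1) = Real.pi + I * (qr (i + 1) + ql (i + 1)) := by
      rw [e]
      ring
    exact ⟨hz, dm_of O sr sl, sr, sl, O.N3 hz, kr, kl⟩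
  · intro hf
    have eB : qB' (flO R a S) ql qr (i + 1) = ql (i + 1) := by
      unfold qB'
      rw [hf]
      rfl
    have eO : qO' (flO R a S) ql qr (i + 1) = qr (i + 1) := by
      unfold qO'
      rw [hf]
      rfl
    rw [eB, eO] at O
    exact ⟨e, dm_of O sl sr, sl, sr, O.N3 e, kl, kr⟩

/-- The order of the neighbours. -/
theorem pr_mk (h : Ctx T R a S r z ql qr zF) {i : ℕ} (hi : i + 1 < R) (h3 : a (i + 1) = 3) :
    (flO R a S (i + 1) = true → prT (S (i + 1)) (S i) (vL R a S (i + 2)) (vR a S i) = true) ∧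
    (flO R a S (i + 1) = false → prT (S i) (S (i + 1)) (vR a S i) (vL R a S (i + 2)) = true) := by
  have o1 := h.ok_r (i := i) (by omega)
  have o2 := h.ok_l (i := i + 1) hi
  have a1 := h.adm_l hi
  have a2 := h.adm_r hi
  rw [vL_me hi h3] at a1
  rw [vR_me h3] at a2
  have n1 := ntV_R (R := R) (a := a) (S := S) (i := i) (by omega)
  have n2 := ntV_L (R := R) (a := a) (S := S) (j := i + 1) hi
  have s1 : (vR a S i).s = S i := rfl
  have s2 : (vL R a S (i + 2)).s = S (i + 1) := rfl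
  have nn : S i = true → S (i + 1) = true → ¬(vR a S i = me true true ∧
      vL R a S (i + 2) = me true true) := fun h0 h1 hh =>
    not_me h.adm hi h3 h0 h1 hh.1 hh.2
  have hf : flO R a S (i + 1) = (if S i = true then
      (if S (i + 1) = true then decide (rkS (ntG R a (i + 2)) < rkS (ntG R a i)) else false)
    else (if S (i + 1) = true then true
      else decide (rkA (ntG R a i) < rkA (ntG R a (i + 2))))) := by
    unfold flO
    rw [if_neg (by omega), if_neg (by omega), if_pos h3]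
    rfl
  constructor
  · intro hfl
    rw [hf] at hfl
    unfold prT
    rw [o1, o2, s1, s2, a2, n1, n2]
    cases hS : S i <;> cases hS' : S (i + 1)
    · rw [hS, hS'] at hfl
      simp only [Bool.false_eq_true, ↓reduceIte, decide_eq_true_eq] at hfl
      simp [hfl.le]
    · simp
    · rw [hS, hS'] at hfl
      simp at hfl
    · rw [hS, hS'] at hfl
      simp only [↓reduceIte, decide_eq_true_eq] at hfl
      have := nn hS hS'
      simp only [beq_self_eq_true, Bool.true_or, Bool.true_and, cond_true, Bool.and_eq_true,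
        Bool.not_eq_true', Bool.and_eq_false_iff, decide_eq_false_iff_not, Nat.ble_eq]
      refine ⟨?_, hfl.le⟩
      by_contra hc
      push Not at hc
      exact this ⟨hc.2, hc.1⟩
  · intro hfl
    rw [hf] at hfl
    unfold prT
    rw [o1, o2, s1, s2, a1, n1, n2]
    cases hS : S i <;> cases hS' : S (i + 1)
    · rw [hS, hS'] at hfl
      simp only [Bool.false_eq_true, ↓reduceIte, decide_eq_false_iff_not, not_lt] at hfl
      simp [hfl]
    · rw [hS, hS'] at hfl
      simp at hfl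
    · simp
    · rw [hS, hS'] at hfl
      simp only [↓reduceIte, decide_eq_false_iff_not, not_lt] at hfl
      have := nn hS hS'
      simp only [beq_self_eq_true, Bool.true_or, Bool.true_and, cond_true, Bool.and_eq_true,
        Bool.not_eq_true', Bool.and_eq_false_iff, decide_eq_false_iff_not, Nat.ble_eq]
      refine ⟨?_, hfl⟩
      by_contra hc
      push Not at hc
      exact this hc

/-- **The context of a node.** -/
theorem n3c_mk (hQ : SpQ T) (hT : C33.tab33 T = true) (h : Ctx T R a S r z ql qr zF) {i : ℕ}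
    (hi : i + 1 < R) (h3 : a (i + 1) = 3) :
    (flO R a S (i + 1) = true → N3c T (S (i + 1)) (S i) (vL R a S (i + 2)) (vR a S i)
      (cos (z (i + 2))) (cos (z i)) (qr (i + 1)) (ql (i + 1)) (z (i + 1))) ∧
    (flO R a S (i + 1) = false → N3c T (S i) (S (i + 1)) (vR a S i) (vL R a S (i + 2))
      (cos (z i)) (cos (z (i + 2))) (ql (i + 1)) (qr (i + 1)) (z (i + 1))) := by
  have L := lk_mk h hi h3
  have P := pr_mk h hi h3
  have r1 := h.rr (i := i + 1) hi
  have r2 := h.rl (i := i) (by omega)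
  have r3 := h.rl (i := i + 1) hi
  have r4 := h.rr (i := i) (by omega)
  rw [vR_me h3] at r1 r3
  rw [vL_me hi h3] at r2 r4
  have hc := h.hg.crt
  have e2 : (vL R a S (i + 2)).o = none → (vL R a S (i + 2)).a = 2 →
      cos (z (i + 1)) = 2 * eI (S (i + 1)) * kp (S (i + 1)) (cos (z (i + 2))) ^ 2 := by
    intro ho ha
    unfold E.vL at ho ha
    have hR : i + 1 + 1 = R := by
      by_contra hn
      rw [if_neg (by omega)] at ho
      exact absurd ho (by simp)
    have ha' : min (a (i + 2)) 8 = 2 := ha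
    have q : a (i + 2) = 2 := by omega
    exact j2r hc hR q
  have e3 : (vL R a S (i + 2)).o = none → (vL R a S (i + 2)).a = 3 →
      cos (z (i + 1)) = eI (S (i + 1)) * (kp (S (i + 1)) (cos (z (i + 2))) *
        (4 * kp (S (i + 1)) (cos (z (i + 2))) ^ 2 - 1)) := by
    intro ho ha
    unfold E.vL at ho ha
    have hR : i + 1 + 1 = R := by
      by_contra hn
      rw [if_neg (by omega)] at ho
      exact absurd ho (by simp)
    have ha' : min (a (i + 2)) 8 = 3 := ha
    have q : a (i + 2) = 3 := by omega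
    exact j3r hc hR q
  have f2 : (vR a S i).o = none → (vR a S i).a = 2 →
      cos (z (i + 1)) = 2 * eI (S i) * kp (S i) (cos (z i)) ^ 2 := by
    intro ho ha
    unfold E.vR at ho ha
    have hR : i = 0 := by
      by_contra hn
      rw [if_neg hn] at ho
      exact absurd ho (by simp)
    subst hR
    have ha' : min (a 0) 8 = 2 := ha
    have q : a 0 = 2 := by omega
    exact j2l hc q
  have f3 : (vR a S i).o = none → (vR a S i).a = 3 →
      cos (z (i + 1)) = eI (S i) * (kp (S i) (cos (z i)) * (4 * kp (S i) (cos (z i)) ^ 2 - 1)) := by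
    intro ho ha
    unfold E.vR at ho ha
    have hR : i = 0 := by
      by_contra hn
      rw [if_neg hn] at ho
      exact absurd ho (by simp)
    subst hR
    have ha' : min (a 0) 8 = 3 := ha
    have q : a 0 = 3 := by omega
    exact j3l hc q
  constructor
  · intro hf
    refine ⟨L.1 hf, P.1 hf, r1, r2, r3, r4, e2, e3, f2, f3, fun h1 h0 hx hw => ?_,
      fun h1 h0 hx => ?_⟩
    · exfalso
      unfold E.vR at hw
      rw [Vt.mk.injEq] at hw
      have q : a i = 2 := by
        have := hw.1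
        omega
      exact h.adm.s3l i hi h0 h1 h3 q
    · unfold E.vL at hx
      have q : a (i + 2) = 2 := by
        have hx' : min (a (i + 2)) 8 = 2 := hx
        omega
      obtain ⟨k1, k2, k3, k4⟩ := h.adm.s3r i hi h0 h1 h3 q
      exact hQ h k1 h3 q k3 h0 h1 k2 k4
  · intro hf
    refine ⟨L.2 hf, P.2 hf, r2, r1, r4, r3, f2, f3, e2, e3, fun h0 h1 hx hw => ?_,
      fun h0 h1 hx => ?_⟩
    · unfold E.vR at hx
      unfold E.vL at hw
      rw [Vt.mk.injEq] at hx hw
      have hi0 : i = 0 := by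
        by_contra hn
        rw [if_neg hn] at hx
        exact absurd hx.2.2 (by simp)
      subst hi0
      have q0 : a 0 = 3 := by
        have := hx.1
        omega
      have q2 : a (0 + 2) = 2 := by
        have := hw.1
        omega
      obtain ⟨k1, k2, k3, k4⟩ := h.adm.s3r 0 hi h0 h1 h3 q2
      exact C33.left hT h.toPre (by omega) q0 h3 q2 k3 h0 h1 k2 k4
    · exfalso
      unfold E.vR at hx
      have q : a i = 2 := by
        have hx' : min (a i) 8 = 2 := hx
        omega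
      exact h.adm.s3l i hi h0 h1 h3 q

/-- The end of the contour. -/
theorem z1_mk (h : Ctx T R a S r z ql qr zF) {i : ℕ} (hi : i + 1 < R) (h3 : a (i + 1) = 3) :
    z1O R a S (i + 1) = z1T (S (i + 1)) (S i) (vL R a S (i + 2)) (vR a S i) ∧
      z1O R a S (i + 1) = z1T (S i) (S (i + 1)) (vR a S i) (vL R a S (i + 2)) := by
  have hx : vL R a S (i + 2) = ⟨3, true, none⟩ ↔ a (i + 2) = 3 ∧ S (i + 1) = true ∧ i + 2 = R := by
    unfold E.vL
    rw [Vt.mk.injEq]
    constructor
    · rintro ⟨h1, h2, h4⟩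
      refine ⟨by omega, h2, ?_⟩
      by_contra hn
      rw [if_neg hn] at h4
      exact absurd h4 (by simp)
    · rintro ⟨h1, h2, h4⟩
      exact ⟨by omega, h2, if_pos h4⟩
  have hw : vR a S i = ⟨3, true, none⟩ ↔ a i = 3 ∧ S i = true ∧ i = 0 := by
    unfold E.vR
    rw [Vt.mk.injEq]
    constructor
    · rintro ⟨h1, h2, h4⟩
      refine ⟨by omega, h2, ?_⟩
      by_contra hn
      rw [if_neg hn] at h4
      exact absurd h4 (by simp)
    · rintro ⟨h1, h2, h4⟩
      exact ⟨by omega, h2, if_pos h4⟩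
  unfold z1O z1T
  have k1 : (0 < i + 1 ∧ i + 1 < R ∧ a (i + 1) = 3 ∧ S (i + 1 - 1) = true ∧ S (i + 1) = true ∧
      ¬(R = 2 ∧ a 0 = 3 ∧ a 2 = 3)) ↔ (S (i + 1) = true ∧ S i = true ∧
      ¬(vL R a S (i + 2) = ⟨3, true, none⟩ ∧ vR a S i = ⟨3, true, none⟩)) := by
    rw [hx, hw]
    constructor
    · rintro ⟨-, -, -, h1, h2, h4⟩
      refine ⟨h2, h1, ?_⟩
      rintro ⟨⟨g1, g2, g3⟩, g4, g5, g6⟩
      subst g6
      exact h4 ⟨g3.symm, g4, g1⟩
    · rintro ⟨h1, h2, h4⟩
      refine ⟨by omega, hi, h3, h2, h1, ?_⟩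
      rintro ⟨g1, g2, g3⟩
      have h0 : i = 0 := by omega
      subst h0
      exact h4 ⟨⟨g3, h1, g1.symm⟩, g2, h2, rfl⟩
  have k2 : (S (i + 1) = true ∧ S i = true ∧
      ¬(vL R a S (i + 2) = ⟨3, true, none⟩ ∧ vR a S i = ⟨3, true, none⟩)) ↔
      (S i = true ∧ S (i + 1) = true ∧
      ¬(vR a S i = ⟨3, true, none⟩ ∧ vL R a S (i + 2) = ⟨3, true, none⟩)) := by
    rw [and_left_comm, and_comm (a := vL R a S (i + 2) = ⟨3, true, none⟩)]
  constructor
  · exact if_congr k1 rfl rfl
  · exact if_congr (k1.trans k2) rfl rfl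

/-- **All the inner nodes with three half twists.** -/
theorem z3_mk (hQ : SpQ T) (hT : C33.tab33 T = true)
    (H : ∀ (ty tb : Bool) (x w : Vt) (cy cb p r z : ℂ), N3c T ty tb x w cy cb p r z →
      VN ty tb x w (z1T ty tb x w) (zN ty (ntV x)) (zN tb (ntV w)) cy cb p r z)
    (h : Ctx T R a S r z ql qr zF) {i : ℕ} (hi : i + 1 < R) (h3 : a (i + 1) = 3) :
    VZ (Ez3 (slB R a S (flO R a S) z ql qr (i + 1)).ys
        (zz3 (qB' (flO R a S) ql qr (i + 1)) (qO' (flO R a S) ql qr (i + 1)) (z (i + 1)))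
        (slO R a S (flO R a S) z ql qr (i + 1)).ys) (ntG R a (i + 1)) (z1O R a S (i + 1))
      (zz3 (qB' (flO R a S) ql qr (i + 1)) (qO' (flO R a S) ql qr (i + 1)) (z (i + 1)))
      (slB R a S (flO R a S) z ql qr (i + 1)) (slO R a S (flO R a S) z ql qr (i + 1)) := by
  have C := n3c_mk hQ hT h hi h3
  obtain ⟨z1, z2⟩ := z1_mk h hi h3
  have n0 : ntG R a (i + 1) = ⟨3, false⟩ := by
    unfold ntG
    rw [h3]
    have : decide (i + 1 = 0 ∨ i + 1 = R) = false := decide_eq_false (by omega)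
    rw [this]
    rfl
  have n1 := ntV_R (R := R) (a := a) (S := S) (i := i) (by omega)
  have n2 := ntV_L (R := R) (a := a) (S := S) (j := i + 1) hi
  have g1 : zN (S (i + 1)) (ntV (vL R a S (i + 2))) ≤ z1O R a S (i + 2) := by
    rw [n2]
    exact zN_le (j := i + 2) (s := S (i + 1)) fun h1 _ => h1
  have g2 : zN (S i) (ntV (vR a S i)) ≤ z1O R a S i := by
    rw [n1]
    exact zN_le fun _ h1 => h1
  cases hf : flO R a S (i + 1)
  · have V := vz_mono g2 g1 (H _ _ _ _ _ _ _ _ _ (C.2 hf))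
    unfold slB slO qB' qO'
    rw [hf, n0, z2]
    rw [n1, n2] at V
    rw [if_neg (by simp), if_neg (by simp), if_neg (by simp), if_neg (by simp), Ctx.slR_mk hi]
    exact V
  · have V := vz_mono g1 g2 (H _ _ _ _ _ _ _ _ _ (C.1 hf))
    unfold slB slO qB' qO'
    rw [hf, n0, z1]
    rw [n1, n2] at V
    rw [if_pos rfl, if_pos rfl, if_pos rfl, if_pos rfl, Ctx.slR_mk hi]
    exact V

end Pool.Agent.S5.K3
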