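import Pool.Agent.S5.K3.Fm

/-!
# The outputs: soundness
-/

set_option autoImplicit false

namespace Pool.Agent.S5.K3

open Complex Pool.Agent.S5.Num
open Pool.Agent.H63.VC3 hiding KK
open Pool.Agent.S3 hiding UU

/-- The center and the radius of a deviation. -/
structure DvOK (x : ℝ) (d d' r : ℕ) : Prop where
  h : |33554432 * x - ((d : ℝ) - d')| ≤ r

theorem dvK_eq {lo hi lp ln : ℕ} {k : ℕ → ℕ → ℕ → Bool} : dvK lo hi lp ln k =
    k ((6442450944 + (16 * (lo + hi) + 2 * ln)) - 2 * lp)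
      (2 * lp - (6442450944 + (16 * (lo + hi) + 2 * ln))) (16 * (hi - lo)) := by
  unfold dvK
  simp only [fN_eq]
  rfl

theorem sub_sub_cast (a b : ℕ) : ((a - b : ℕ) : ℝ) - ((b - a : ℕ) : ℝ) = (a : ℝ) - b := by
  rcases le_total a b with h | h
  · rw [Nat.sub_eq_zero_of_le h, Nat.cast_sub h]
    push_cast
    ring
  · rw [Nat.sub_eq_zero_of_le h, Nat.cast_sub h]
    push_cast
    ring

theorem dv_ok {lo hi lp ln : ℕ} {x y : ℝ} (hx : (⟨lo, hi⟩ : Iv).In x)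
    (hy : 16777216 * y = (lp : ℝ) - ln - 4294967296) :
    DvOK (x - y) ((6442450944 + (16 * (lo + hi) + 2 * ln)) - 2 * lp)
      (2 * lp - (6442450944 + (16 * (lo + hi) + 2 * ln))) (16 * (hi - lo)) := by
  obtain ⟨h1, h2⟩ := hx
  dsimp only at h1 h2
  have h3 : lo ≤ hi := by
    have : (lo : ℝ) ≤ hi := by linarith
    exact_mod_cast this
  constructor
  rw [sub_sub_cast]
  push_cast [Nat.cast_sub h3]
  rw [abs_le]
  constructor <;> linarith

/-- The data of a cell. -/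
def kdOf (b : Bs) (U V : Rc) : Kd where
  rho := b.rho
  T0 := b.a0.T
  T1 := b.a1.T
  T2 := b.a2.T
  T3 := b.a3.T
  X2 := 2 * (b.a2.c + b.a3.c)
  Y2 := 2 * (b.a2.d + b.a3.d)
  X1 := 6 * b.a0.c + 2 * (b.a2.c + b.a3.c)
  Y1 := 6 * b.a0.d + 2 * (b.a2.d + b.a3.d)
  X3 := 6 * b.a1.c + 2 * (b.a2.c + b.a3.c)
  Y3 := 6 * b.a1.d + 2 * (b.a2.d + b.a3.d)
  up := (6442450944 + (16 * (U.re.lo + U.re.hi) + 2 * b.a2.l)) - 2 * (b.a0.l + b.a3.l)
  un := 2 * (b.a0.l + b.a3.l) - (6442450944 + (16 * (U.re.lo + U.re.hi) + 2 * b.a2.l))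
  ur := 16 * (U.re.hi - U.re.lo)
  wp := (6442450944 + (16 * (U.im.lo + U.im.hi) + 2 * b.a2.t)) - 2 * (b.a0.t + b.a3.t)
  wn := 2 * (b.a0.t + b.a3.t) - (6442450944 + (16 * (U.im.lo + U.im.hi) + 2 * b.a2.t))
  ui := 16 * (U.im.hi - U.im.lo)
  vp := (6442450944 + (16 * (V.re.lo + V.re.hi) + 2 * b.a2.l)) - 2 * (b.a1.l + b.a3.l)
  vn := 2 * (b.a1.l + b.a3.l) - (6442450944 + (16 * (V.re.lo + V.re.hi) + 2 * b.a2.l))
  vr := 16 * (V.re.hi - V.re.lo)
  zp := (6442450944 + (16 * (V.im.lo + V.im.hi) + 2 * b.a2.t)) - 2 * (b.a1.t + b.a3.t)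
  zn := 2 * (b.a1.t + b.a3.t) - (6442450944 + (16 * (V.im.lo + V.im.hi) + 2 * b.a2.t))
  vi := 16 * (V.im.hi - V.im.lo)

/-- What is known about a point of a cell. -/
structure CpOK (b : Bs) (c : Kd) (P R : ℂ) : Prop where
  loc : ‖P - b.P‖ ^ 2 + ‖R - b.R‖ ^ 2 ≤ b.ρ ^ 2
  ur : DvOK (lf nU P R - ∑ k, nU k * (b.A k).H).re c.up c.un c.ur
  ui : DvOK (lf nU P R - ∑ k, nU k * (b.A k).H).im c.wp c.wn c.ui
  vr : DvOK (lf nV P R - ∑ k, nV k * (b.A k).H).re c.vp c.vn c.vr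
  vi : DvOK (lf nV P R - ∑ k, nV k * (b.A k).H).im c.zp c.zn c.vi

theorem sumU (A : Fin 8 → At) : ∑ k, nU k * (A k).H = (A 0).H - (A 2).H + (A 3).H := by
  simp [Fin.sum_univ_eight, nU]
  ring

theorem sumV (A : Fin 8 → At) : ∑ k, nV k * (A k).H = (A 1).H - (A 2).H + (A 3).H := by
  simp [Fin.sum_univ_eight, nV]
  ring

theorem H_re (a : At) : a.H.re = ((a.l : ℝ) - 4294967296) / 16777216 := pt_re _ _

theorem H_im (a : At) : a.H.im = ((a.t : ℝ) - 4294967296) / 16777216 := pt_im _ _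

theorem lfU (P R : ℂ) : lf nU P R = he (wt P R 0) - he (wt P R 2) + he (wt P R 3) := by
  simp [lf, Fin.sum_univ_eight, nU]
  ring

theorem lfV (P R : ℂ) : lf nV P R = he (wt P R 1) - he (wt P R 2) + he (wt P R 3) := by
  simp [lf, Fin.sum_univ_eight, nV]
  ring

/-- A bound of the true deviation. -/
theorem sq6_ge {d d' r : ℕ} {x e : ℝ} (h : DvOK x d d' r) (he : |33554432 * e| ≤ 6) :
    (33554432 * (x - e)) ^ 2 ≤ (sq6 d d' r : ℕ) := by
  have h1 := abs_le.1 h.h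
  have h2 := abs_le.1 he
  have e1 : sq6 d d' r = (6 + (r + (d + d'))) * (6 + (r + (d + d'))) := by
    unfold sq6
    rw [fN_eq]
    rfl
  rw [e1]
  push_cast
  have d0 : (0 : ℝ) ≤ d := Nat.cast_nonneg _
  have d1 : (0 : ℝ) ≤ d' := Nat.cast_nonneg _
  rw [← sq]
  apply sq_le_sq' <;> linarith

theorem mkKd_sound {b : Bs} {U V : Rc} {k : Kd → Bool} (h : mkKd b U V k = true) :
    k (kdOf b U V) = true ∧ ∀ {P R : ℂ}, BsOK b → Dm P R → U.In (lf nU P R) → V.In (lf nV P R) →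
      CpOK b (kdOf b U V) P R := by
  unfold mkKd at h
  simp only [fN_eq, dvK_eq, cond_true_iff] at h
  obtain ⟨h1, h2⟩ := h
  refine ⟨h2, fun {P R} hb hd hU hV => ?_⟩
  have k1 : DvOK (lf nU P R - ∑ k, nU k * (b.A k).H).re (kdOf b U V).up (kdOf b U V).un
      (kdOf b U V).ur := by
    rw [sub_re]
    apply dv_ok hU.1
    rw [sumU, add_re, sub_re, H_re, H_re, H_re]
    change _ = (((b.a0.l + b.a3.l : ℕ)) : ℝ) - (b.a2.l : ℝ) - 4294967296
    push_cast
    change 16777216 * (((b.a0.l : ℝ) - 4294967296) / 16777216 -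
      ((b.a2.l : ℝ) - 4294967296) / 16777216 + ((b.a3.l : ℝ) - 4294967296) / 16777216) = _
    ring
  have k2 : DvOK (lf nU P R - ∑ k, nU k * (b.A k).H).im (kdOf b U V).wp (kdOf b U V).wn
      (kdOf b U V).ui := by
    rw [sub_im]
    apply dv_ok hU.2
    rw [sumU, add_im, sub_im, H_im, H_im, H_im]
    change _ = (((b.a0.t + b.a3.t : ℕ)) : ℝ) - (b.a2.t : ℝ) - 4294967296
    push_cast
    change 16777216 * (((b.a0.t : ℝ) - 4294967296) / 16777216 -
      ((b.a2.t : ℝ) - 4294967296) / 16777216 + ((b.a3.t : ℝ) - 4294967296) / 16777216) = _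
    ring
  have k3 : DvOK (lf nV P R - ∑ k, nV k * (b.A k).H).re (kdOf b U V).vp (kdOf b U V).vn
      (kdOf b U V).vr := by
    rw [sub_re]
    apply dv_ok hV.1
    rw [sumV, add_re, sub_re, H_re, H_re, H_re]
    change _ = (((b.a1.l + b.a3.l : ℕ)) : ℝ) - (b.a2.l : ℝ) - 4294967296
    push_cast
    change 16777216 * (((b.a1.l : ℝ) - 4294967296) / 16777216 -
      ((b.a2.l : ℝ) - 4294967296) / 16777216 + ((b.a3.l : ℝ) - 4294967296) / 16777216) = _
    ring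
  have k4 : DvOK (lf nV P R - ∑ k, nV k * (b.A k).H).im (kdOf b U V).zp (kdOf b U V).zn
      (kdOf b U V).vi := by
    rw [sub_im]
    apply dv_ok hV.2
    rw [sumV, add_im, sub_im, H_im, H_im, H_im]
    change _ = (((b.a1.t + b.a3.t : ℕ)) : ℝ) - (b.a2.t : ℝ) - 4294967296
    push_cast
    change 16777216 * (((b.a1.t : ℝ) - 4294967296) / 16777216 -
      ((b.a2.t : ℝ) - 4294967296) / 16777216 + ((b.a3.t : ℝ) - 4294967296) / 16777216) = _
    ring
  refine ⟨?_, k1, k2, k3, k4⟩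
  apply cell_loc hd hb.bp hb.lc
  have e1 : ∀ i : Fin 8, |16777216 * ((he (wt b.P b.R i)).re - (b.A i).H.re)| ≤ 1 := by
    intro i
    have := (hb.vl i).l
    rw [H_re, mul_sub, mul_div_cancel₀ _ (by norm_num : (16777216 : ℝ) ≠ 0)]
    exact this
  have e2 : ∀ i : Fin 8, |16777216 * ((he (wt b.P b.R i)).im - (b.A i).H.im)| ≤ 1 := by
    intro i
    have := (hb.vl i).t
    rw [H_im, mul_sub, mul_div_cancel₀ _ (by norm_num : (16777216 : ℝ) ≠ 0)]
    exact this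
  have s1 : (sq6 (kdOf b U V).up (kdOf b U V).un (kdOf b U V).ur : ℕ) ≥
      (33554432 * (lf nU P R - lf nU b.P b.R).re) ^ 2 := by
    have h3 := sq6_ge k1 (e := (lf nU b.P b.R - ∑ k, nU k * (b.A k).H).re) (by
      rw [sumU, lfU]
      simp only [sub_re, add_re]
      have f0 := abs_le.1 (e1 0)
      have f2 := abs_le.1 (e1 2)
      have f3 := abs_le.1 (e1 3)
      rw [abs_le]
      constructor <;> linarith)
    refine le_trans (le_of_eq ?_) h3
    rw [sub_re, sub_re, sub_re]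
    ring
  have s2 : (sq6 (kdOf b U V).wp (kdOf b U V).wn (kdOf b U V).ui : ℕ) ≥
      (33554432 * (lf nU P R - lf nU b.P b.R).im) ^ 2 := by
    have h3 := sq6_ge k2 (e := (lf nU b.P b.R - ∑ k, nU k * (b.A k).H).im) (by
      rw [sumU, lfU]
      simp only [sub_im, add_im]
      have f0 := abs_le.1 (e2 0)
      have f2 := abs_le.1 (e2 2)
      have f3 := abs_le.1 (e2 3)
      rw [abs_le]
      constructor <;> linarith)
    refine le_trans (le_of_eq ?_) h3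
    rw [sub_im, sub_im, sub_im]
    ring
  have s3 : (sq6 (kdOf b U V).vp (kdOf b U V).vn (kdOf b U V).vr : ℕ) ≥
      (33554432 * (lf nV P R - lf nV b.P b.R).re) ^ 2 := by
    have h3 := sq6_ge k3 (e := (lf nV b.P b.R - ∑ k, nV k * (b.A k).H).re) (by
      rw [sumV, lfV]
      simp only [sub_re, add_re]
      have f0 := abs_le.1 (e1 1)
      have f2 := abs_le.1 (e1 2)
      have f3 := abs_le.1 (e1 3)
      rw [abs_le]
      constructor <;> linarith)
    refine le_trans (le_of_eq ?_) h3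
    rw [sub_re, sub_re, sub_re]
    ring
  have s4 : (sq6 (kdOf b U V).zp (kdOf b U V).zn (kdOf b U V).vi : ℕ) ≥
      (33554432 * (lf nV P R - lf nV b.P b.R).im) ^ 2 := by
    have h3 := sq6_ge k4 (e := (lf nV b.P b.R - ∑ k, nV k * (b.A k).H).im) (by
      rw [sumV, lfV]
      simp only [sub_im, add_im]
      have f0 := abs_le.1 (e2 1)
      have f2 := abs_le.1 (e2 2)
      have f3 := abs_le.1 (e2 3)
      rw [abs_le]
      constructor <;> linarith)
    refine le_trans (le_of_eq ?_) h3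
    rw [sub_im, sub_im, sub_im]
    ring
  have h3 : 409600 * ((sq6 (kdOf b U V).up (kdOf b U V).un (kdOf b U V).ur +
      sq6 (kdOf b U V).wp (kdOf b U V).wn (kdOf b U V).ui) +
      (sq6 (kdOf b U V).vp (kdOf b U V).vn (kdOf b U V).vr +
      sq6 (kdOf b U V).zp (kdOf b U V).zn (kdOf b U V).vi)) + 1 ≤
      (b.mu * b.rho) * (b.mu * b.rho) := Nat.ble_eq.mp h1
  have h4 : 409600 * ((((sq6 (kdOf b U V).up (kdOf b U V).un (kdOf b U V).ur : ℕ) : ℝ) +
      (sq6 (kdOf b U V).wp (kdOf b U V).wn (kdOf b U V).ui : ℕ)) +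
      ((sq6 (kdOf b U V).vp (kdOf b U V).vn (kdOf b U V).vr : ℕ) +
      (sq6 (kdOf b U V).zp (kdOf b U V).zn (kdOf b U V).vi : ℕ))) + 1 ≤
      (b.mu * b.rho) * (b.mu * b.rho) := by exact_mod_cast h3
  rw [norm_sq_ri, norm_sq_ri]
  have e3 : b.m * b.ρ = (b.mu * b.rho) / 4294967296 := by
    unfold Bs.m Bs.ρ
    ring
  rw [e3, div_pow, lt_div_iff₀ (by norm_num)]
  nlinarith

end Pool.Agent.S5.K3
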