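import Pool.Agent.S5.K3.OutS

/-!
# The outputs: soundness of the evaluation of a linear form
-/

set_option autoImplicit false

namespace Pool.Agent.S5.K3

open Complex Pool.Agent.S5.Num
open Pool.Agent.H63.VC3 hiding KK
open Pool.Agent.S3 hiding UU

theorem rp_eq (a p n : ℕ) : rp a p n = a * p + 65536 * n := rfl

theorem mr_cast (a b x x' y y' : ℕ) : ((mr a b x x' y y' : ℕ) : ℝ) - (mr a b x' x y' y : ℕ) =
    ((a : ℝ) - 65536) * (x - x') - ((b : ℝ) - 65536) * (y - y') := by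
  have e : ∀ x x' y y' : ℕ, mr a b x x' y y' = (a * x + 65536 * x') + (b * y' + 65536 * y) :=
    fun _ _ _ _ => rfl
  rw [e, e]
  push_cast
  ring

theorem mi_cast (a b x x' y y' : ℕ) : ((mi a b x x' y y' : ℕ) : ℝ) - (mi a b x' x y' y : ℕ) =
    ((a : ℝ) - 65536) * (y - y') + ((b : ℝ) - 65536) * (x - x') := by
  have e : ∀ x x' y y' : ℕ, mi a b x x' y y' = (a * y + 65536 * y') + (b * x + 65536 * x') :=
    fun _ _ _ _ => rfl
  rw [e, e]
  push_cast
  ring

theorem nrm_sound {h a a' b b' : ℕ} (hh : nrm h a a' b b' = true) :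
    ((a : ℝ) - a') ^ 2 + ((b : ℝ) - b') ^ 2 ≤ (h : ℝ) ^ 2 := by
  unfold nrm at hh
  simp only [fN_eq] at hh
  have h1 : ds' a a' * ds' a a' + ds' b b' * ds' b b' ≤ h * h := Nat.ble_eq.mp hh
  have h2 : ((ds' a a' : ℕ) : ℝ) * (ds' a a' : ℕ) + ((ds' b b' : ℕ) : ℝ) * (ds' b b' : ℕ) ≤
      h * h := by exact_mod_cast h1
  rw [ds'_cast, ds'_cast, abs_mul_abs_self, abs_mul_abs_self] at h2
  linarith

/-- The derivatives of the known forms. -/
structure KdOK (b : Bs) (c : Kd) : Prop where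
  rho : c.rho = b.rho
  T0 : c.T0 = b.a0.T
  T1 : c.T1 = b.a1.T
  T2 : c.T2 = b.a2.T
  T3 : c.T3 = b.a3.T
  up : 100663296 * ∑ k, nU k * (b.A k).C * da k = z4 c.X1 42949672960 c.Y1 42949672960
  ur : 100663296 * ∑ k, nU k * (b.A k).C * db k = z4 c.X2 17179869184 c.Y2 17179869184
  vp : 100663296 * ∑ k, nV k * (b.A k).C * da k = z4 c.X2 17179869184 c.Y2 17179869184
  vr : 100663296 * ∑ k, nV k * (b.A k).C * db k = z4 c.X3 42949672960 c.Y3 42949672960

theorem kdOf_ok (b : Bs) (U V : Rc) : KdOK b (kdOf b U V) := by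
  refine ⟨rfl, rfl, rfl, rfl, rfl, ?_, ?_, ?_, ?_⟩
  · simp [Fin.sum_univ_eight, nU, kdOf, z4, Bs.A, At.C, da]
    ring
  · simp [Fin.sum_univ_eight, nU, kdOf, z4, Bs.A, At.C, db]
    ring
  · simp [Fin.sum_univ_eight, nV, kdOf, z4, Bs.A, At.C, da]
    ring
  · simp [Fin.sum_univ_eight, nV, kdOf, z4, Bs.A, At.C, db]
    ring

theorem z4_mul_sub (a b : ℕ) {d d' e e' r s : ℕ} {z : ℂ} (h1 : DvOK z.re d d' r)
    (h2 : DvOK z.im e e' s) :
    |(z4 a 65536 b 65536 * (33554432 * z)).re -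
      (((a : ℝ) - 65536) * (d - d') - ((b : ℝ) - 65536) * (e - e'))| ≤
      |(a : ℝ) - 65536| * r + |(b : ℝ) - 65536| * s ∧
    |(z4 a 65536 b 65536 * (33554432 * z)).im -
      (((a : ℝ) - 65536) * (e - e') + ((b : ℝ) - 65536) * (d - d'))| ≤
      |(a : ℝ) - 65536| * s + |(b : ℝ) - 65536| * r := by
  have g1 := h1.h
  have g2 := h2.h
  have e1 : (33554432 * z).re = 33554432 * z.re := by
    rw [mul_re]
    have : (33554432 : ℂ).re = 33554432 := rfl
    have : (33554432 : ℂ).im = 0 := rfl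
    simp
  have e2 : (33554432 * z).im = 33554432 * z.im := by
    rw [mul_im]
    simp
  constructor
  · rw [mul_re, z4_re, z4_im, e1, e2]
    push_cast
    have k : ((a : ℝ) - 65536) * (33554432 * z.re) - ((b : ℝ) - 65536) * (33554432 * z.im) -
        (((a : ℝ) - 65536) * (d - d') - ((b : ℝ) - 65536) * (e - e')) =
        ((a : ℝ) - 65536) * (33554432 * z.re - (d - d')) +
        (-(((b : ℝ) - 65536) * (33554432 * z.im - (e - e')))) := by ring
    rw [k]
    refine (abs_add_le _ _).trans ?_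
    rw [abs_neg, abs_mul, abs_mul]
    apply add_le_add
    · exact mul_le_mul_of_nonneg_left g1 (abs_nonneg _)
    · exact mul_le_mul_of_nonneg_left g2 (abs_nonneg _)
  · rw [mul_im, z4_re, z4_im, e1, e2]
    push_cast
    have k : ((a : ℝ) - 65536) * (33554432 * z.im) + ((b : ℝ) - 65536) * (33554432 * z.re) -
        (((a : ℝ) - 65536) * (e - e') + ((b : ℝ) - 65536) * (d - d')) =
        ((a : ℝ) - 65536) * (33554432 * z.im - (e - e')) +
        ((b : ℝ) - 65536) * (33554432 * z.re - (d - d')) := by ring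
    rw [k]
    refine (abs_add_le _ _).trans ?_
    rw [abs_mul, abs_mul]
    apply add_le_add
    · exact mul_le_mul_of_nonneg_left g2 (abs_nonneg _)
    · exact mul_le_mul_of_nonneg_left g1 (abs_nonneg _)

/-- The remainder vector: `n - A nU - B nV`. -/
noncomputable def Nv (n : Fin 8 → ℂ) (al be : ℂ) (k : Fin 8) : ℂ :=
  n k - (al * nU k + be * nV k) / 4096

theorem Nv_sum (n : Fin 8 → ℂ) (al be : ℂ) (x : Fin 8 → ℂ) :
    ∑ k, Nv n al be k * x k = ∑ k, n k * x k - (al * ∑ k, nU k * x k + be * ∑ k, nV k * x k) / 4096 := by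
  unfold Nv
  simp only [Fin.sum_univ_eight]
  ring

theorem Nv_lf (n : Fin 8 → ℂ) (al be : ℂ) (P R : ℂ) :
    lf (Nv n al be) P R = lf n P R - (al * lf nU P R + be * lf nV P R) / 4096 := by
  unfold lf
  exact Nv_sum n al be _

theorem Nv_norm {b : Bs} {n : Fin 8 → ℂ} {F : Fm} (hF : FmOK b n F) {ar ai br bi h0 h1 h2 h3 : ℕ}
    (k0 : nrm h0 F.e0 ar 65536 ai = true) (k1 : nrm h1 F.e1 br 65536 bi = true)
    (k2 : nrm h2 (Nat.add ar br) F.e2 (Nat.add ai bi) 131072 = true)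
    (k3 : nrm h3 F.e3 (Nat.add ar br) 131072 (Nat.add ai bi) = true) (k : Fin 8) :
    ‖Nv n (z4 ar 65536 ai 65536) (z4 br 65536 bi 65536) k‖ ≤
      (![(h0 : ℝ) / 4096, (h1 : ℝ) / 4096, (h2 : ℝ) / 4096, (h3 : ℝ) / 4096, ‖n 4‖, ‖n 5‖, ‖n 6‖,
        ‖n 7‖] : Fin 8 → ℝ) k := by
  have k0 := nrm_sound k0
  have k1 := nrm_sound k1
  have k2 := nrm_sound k2
  have k3 := nrm_sound k3
  rw [add_eq', add_eq'] at k2 k3
  push_cast at k0 k1 k2 k3
  have key : ∀ {z w : ℂ} {h : ℕ}, 4096 * z = w → w.re ^ 2 + w.im ^ 2 ≤ (h : ℝ) ^ 2 →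
      ‖z‖ ≤ (h : ℝ) / 4096 := by
    intro z w h hz hw
    have e : ‖w‖ = 4096 * ‖z‖ := by
      rw [← hz, norm_mul]
      simp
    have h1 := norm_le_of hw (Nat.cast_nonneg h)
    rw [le_div_iff₀ (by norm_num)]
    linarith
  have tail : ∀ k : Fin 8, nU k = 0 → nV k = 0 →
      Nv n (z4 ar 65536 ai 65536) (z4 br 65536 bi 65536) k = n k := by
    intro k h1 h2
    unfold Nv
    rw [h1, h2]
    ring
  fin_cases k
  · apply key (w := z4 F.e0 ar 65536 ai)
    · change 4096 * (n 0 - (z4 ar 65536 ai 65536 * 1 + z4 br 65536 bi 65536 * 0) / 4096) = _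
      have := hF.e0
      unfold z4
      push_cast at this ⊢
      linear_combination this
    · rw [z4_re, z4_im]
      push_cast
      exact k0
  · apply key (w := z4 F.e1 br 65536 bi)
    · change 4096 * (n 1 - (z4 ar 65536 ai 65536 * 0 + z4 br 65536 bi 65536 * 1) / 4096) = _
      have := hF.e1
      unfold z4
      push_cast at this ⊢
      linear_combination this
    · rw [z4_re, z4_im]
      push_cast
      exact k1
  · apply key (w := z4 (ar + br) F.e2 (ai + bi) 131072)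
    · change 4096 * (n 2 - (z4 ar 65536 ai 65536 * (-1) + z4 br 65536 bi 65536 * (-1)) / 4096) = _
      have := hF.e2
      unfold z4
      push_cast at this ⊢
      linear_combination this
    · rw [z4_re, z4_im]
      push_cast
      exact k2
  · apply key (w := z4 F.e3 (ar + br) 131072 (ai + bi))
    · change 4096 * (n 3 - (z4 ar 65536 ai 65536 * 1 + z4 br 65536 bi 65536 * 1) / 4096) = _
      have := hF.e3
      unfold z4
      push_cast at this ⊢
      linear_combination this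
    · rw [z4_re, z4_im]
      push_cast
      exact k3
  · exact (congrArg norm (tail 4 rfl rfl)).le
  · exact (congrArg norm (tail 5 rfl rfl)).le
  · exact (congrArg norm (tail 6 rfl rfl)).le
  · exact (congrArg norm (tail 7 rfl rfl)).le

theorem pair_sq {a b c d : ℕ} : ‖z4 a b c d‖ ^ 2 = ((ds' a b : ℕ) : ℝ) * (ds' a b : ℕ) +
    ((ds' c d : ℕ) : ℝ) * (ds' c d : ℕ) := by
  rw [norm_sq_ri, z4_re, z4_im, ds'_cast, ds'_cast, abs_mul_abs_self, abs_mul_abs_self]
  ring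

/-- The derivative of the remainder. -/
theorem Nv_grad {n : Fin 8 → ℂ} {x : Fin 8 → ℂ} {ar ai br bi p1 p2 q1 q2 u1 u2 v1 v2 s1 s2 t1 t2 : ℕ}
    (h1 : 100663296 * ∑ k, n k * x k = z4 p1 p2 q1 q2)
    (h2 : 100663296 * ∑ k, nU k * x k = z4 u1 u2 v1 v2)
    (h3 : 100663296 * ∑ k, nV k * x k = z4 s1 s2 t1 t2) :
    412316860416 * ∑ k, Nv n (z4 ar 65536 ai 65536) (z4 br 65536 bi 65536) k * x k =
      z4 (4096 * p1 + (mr ar ai u2 u1 v2 v1 + mr br bi s2 s1 t2 t1))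
        (4096 * p2 + (mr ar ai u1 u2 v1 v2 + mr br bi s1 s2 t1 t2))
        (4096 * q1 + (mi ar ai u2 u1 v2 v1 + mi br bi s2 s1 t2 t1))
        (4096 * q2 + (mi ar ai u1 u2 v1 v2 + mi br bi s1 s2 t1 t2)) := by
  rw [Nv_sum]
  have e : 412316860416 * (∑ k, n k * x k - (z4 ar 65536 ai 65536 * ∑ k, nU k * x k +
      z4 br 65536 bi 65536 * ∑ k, nV k * x k) / 4096) = 4096 * (100663296 * ∑ k, n k * x k) -
      (z4 ar 65536 ai 65536 * (100663296 * ∑ k, nU k * x k) +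
        z4 br 65536 bi 65536 * (100663296 * ∑ k, nV k * x k)) := by ring
  rw [e, h1, h2, h3]
  have m1 := mr_cast ar ai u2 u1 v2 v1
  have m2 := mr_cast br bi s2 s1 t2 t1
  have m3 := mi_cast ar ai u2 u1 v2 v1
  have m4 := mi_cast br bi s2 s1 t2 t1
  have c4 : ((4096 : ℂ)) = ((4096 : ℝ) : ℂ) := by push_cast; rfl
  apply Complex.ext
  · rw [c4]
    simp only [sub_re, add_re, mul_re, z4_re, z4_im, ofReal_re, ofReal_im]
    push_cast
    linarith
  · rw [c4]
    simp only [sub_im, add_im, mul_im, z4_re, z4_im, ofReal_re, ofReal_im]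
    push_cast
    linarith

theorem z4_eq_sq {S : ℂ} {a b c d : ℕ} (h : 412316860416 * S = z4 a b c d) :
    412316860416 ^ 2 * ‖S‖ ^ 2 = ((ds' a b : ℕ) : ℝ) * (ds' a b : ℕ) +
      ((ds' c d : ℕ) : ℝ) * (ds' c d : ℕ) := by
  rw [← pair_sq, ← h, norm_mul, mul_pow]
  congr 2
  simp

theorem ckO_sound {b : Bs} {c : Kd} {F : Fm} {n : Fin 8 → ℂ} {o : Ou}
    {k : ℕ → ℕ → ℕ → ℕ → ℕ → ℕ → Bool} (hF : FmOK b n F) (hk : KdOK b c) (h : ckO c F o k = true) :
    ∃ M1 M2 R1 N1 N2 R2 : ℕ, (∀ {P R : ℂ}, BsOK b → Dm P R → CpOK b c P R →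
      |137438953472 * (lf n P R).re - ((M1 : ℝ) - M2)| ≤ R1 ∧
      |137438953472 * (lf n P R).im - ((N1 : ℝ) - N2)| ≤ R2) ∧ k M1 M2 R1 N1 N2 R2 = true := by
  unfold ckO at h
  simp only [fN_eq, cond_true_iff] at h
  obtain ⟨k0, k1, ⟨k2, k3⟩, kG, h⟩ := h
  refine ⟨_, _, _, _, _, _, fun {P R} hb hd hc => ?_, h⟩
  generalize o.ar = ar at *
  generalize o.ai = ai at *
  generalize o.br = br at *
  generalize o.bi = bi at *
  generalize o.g = g at *
  generalize o.h0 = h0 at *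
  generalize o.h1 = h1 at *
  generalize o.h2 = h2 at *
  generalize o.h3 = h3 at *
  have hN := Nv_norm hF k0 k1 k2 k3
  have gP := Nv_grad (ar := ar) (ai := ai) (br := br) (bi := bi)
    (x := fun k => (b.A k).C * da k) (p1 := F.p1) (p2 := F.p2) (q1 := F.q1) (q2 := F.q2)
    (by simp only [← mul_assoc]; exact hF.p) (by simp only [← mul_assoc]; exact hk.up)
    (by simp only [← mul_assoc]; exact hk.vp)
  have gR := Nv_grad (ar := ar) (ai := ai) (br := br) (bi := bi)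
    (x := fun k => (b.A k).C * db k) (p1 := F.r1) (p2 := F.r2) (q1 := F.s1) (q2 := F.s2)
    (by simp only [← mul_assoc]; exact hF.r) (by simp only [← mul_assoc]; exact hk.ur)
    (by simp only [← mul_assoc]; exact hk.vr)
  have G0 : (0 : ℝ) ≤ (g : ℝ) / 4096 := by positivity
  have kG := Nat.ble_eq.mp kG
  simp only [add_eq', mul_eq'] at kG
  have hG : ‖∑ k, Nv n (z4 ar 65536 ai 65536) (z4 br 65536 bi 65536) k * (b.A k).C * da k‖ ^ 2 +
      ‖∑ k, Nv n (z4 ar 65536 ai 65536) (z4 br 65536 bi 65536) k * (b.A k).C * db k‖ ^ 2 ≤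
      ((g : ℝ) / 4096) ^ 2 := by
    have eP := z4_eq_sq gP
    have eR := z4_eq_sq gR
    simp only [← mul_assoc] at eP eR
    generalize ‖∑ k, Nv n (z4 ar 65536 ai 65536) (z4 br 65536 bi 65536) k * (b.A k).C * da k‖ = SP
      at *
    generalize ‖∑ k, Nv n (z4 ar 65536 ai 65536) (z4 br 65536 bi 65536) k * (b.A k).C * db k‖ = SR
      at *
    have kG' := (Nat.cast_le (α := ℝ)).2 kG
    rw [Nat.cast_add, Nat.cast_add, Nat.cast_add, Nat.cast_mul, Nat.cast_mul, Nat.cast_mul,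
      Nat.cast_mul, ← eP, ← eR, Nat.cast_mul, Nat.cast_mul] at kG'
    push_cast at kG'
    rw [div_pow, le_div_iff₀ (by norm_num)]
    nlinarith
  have err := lf_err hb hd hc.loc _ _ hN G0 hG
  have gV : 33554432 * ∑ k, n k * (b.A k).H = z4 F.v1 F.v2 F.u1 F.u2 := hF.v
  rw [Nv_lf, Nv_sum] at err
  obtain ⟨zU, hzU⟩ : ∃ z : ℂ, z = lf nU P R - ∑ k, nU k * (b.A k).H := ⟨_, rfl⟩
  obtain ⟨zV, hzV⟩ : ∃ z : ℂ, z = lf nV P R - ∑ k, nV k * (b.A k).H := ⟨_, rfl⟩
  have u1 := hc.ur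
  have u2 := hc.ui
  have v1 := hc.vr
  have v2 := hc.vi
  rw [← hzU] at u1 u2
  rw [← hzV] at v1 v2
  obtain ⟨mU1, mU2⟩ := z4_mul_sub ar ai u1 u2
  obtain ⟨mV1, mV2⟩ := z4_mul_sub br bi v1 v2
  obtain ⟨er, her⟩ : ∃ z : ℂ, z = lf n P R - (z4 ar 65536 ai 65536 * lf nU P R +
      z4 br 65536 bi 65536 * lf nV P R) / 4096 - (∑ k, n k * (b.A k).H -
      (z4 ar 65536 ai 65536 * ∑ k, nU k * (b.A k).H +
      z4 br 65536 bi 65536 * ∑ k, nV k * (b.A k).H) / 4096) := ⟨_, rfl⟩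
  rw [← her] at err
  have main : 137438953472 * lf n P R = 4096 * z4 F.v1 F.v2 F.u1 F.u2 +
      (z4 ar 65536 ai 65536 * (33554432 * zU) + z4 br 65536 bi 65536 * (33554432 * zV)) +
      137438953472 * er := by
    rw [← gV, hzU, hzV, her]
    ring
  have eE : 137438953472 * ‖er‖ ≤ ((512 * (g * c.rho) + (4096 * F.tl +
      2 * (h0 * c.T0 + h1 * c.T1 + (h2 * c.T2 + h3 * c.T3))) : ℕ) : ℝ) := by
    have ht := hF.tl
    simp only [Fin.sum_univ_eight] at err
    change _ ≤ (g : ℝ) / 4096 * b.ρ + ((h0 : ℝ) / 4096 * ((b.a0.T : ℝ) / 16777216) +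
      (h1 : ℝ) / 4096 * ((b.a1.T : ℝ) / 16777216) + (h2 : ℝ) / 4096 * ((b.a2.T : ℝ) / 16777216) +
      (h3 : ℝ) / 4096 * ((b.a3.T : ℝ) / 16777216) + ‖n 4‖ * ((b.a4.T : ℝ) / 16777216) +
      ‖n 5‖ * ((b.a5.T : ℝ) / 16777216) + ‖n 6‖ * ((b.a6.T : ℝ) / 16777216) +
      ‖n 7‖ * ((b.a7.T : ℝ) / 16777216)) at err
    rw [hk.T0, hk.T1, hk.T2, hk.T3, hk.rho]
    unfold Bs.ρ at err
    push_cast
    linarith
  have cr : ((137438953472 : ℂ)) = ((137438953472 : ℝ) : ℂ) := by push_cast; rfl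
  have c4 : ((4096 : ℂ)) = ((4096 : ℝ) : ℂ) := by push_cast; rfl
  have r1 := abs_re_le_norm er
  have r2 := abs_im_le_norm er
  have main1 := congrArg Complex.re main
  have main2 := congrArg Complex.im main
  rw [cr, c4] at main1 main2
  simp only [add_re, re_ofReal_mul, z4_re] at main1
  simp only [add_im, im_ofReal_mul, z4_im] at main2
  have m1 := mr_cast ar ai c.up c.un c.wp c.wn
  have m2 := mr_cast br bi c.vp c.vn c.zp c.zn
  have m3 := mi_cast ar ai c.up c.un c.wp c.wn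
  have m4 := mi_cast br bi c.vp c.vn c.zp c.zn
  have d1 := ds'_cast ar 65536
  have d2 := ds'_cast ai 65536
  have d3 := ds'_cast br 65536
  have d4 := ds'_cast bi 65536
  simp only [add_eq', mul_eq']
  push_cast at d1 d2 d3 d4 eE ⊢
  rw [main1, main2, d1, d2, d3, d4]
  have a1 := abs_le.1 mU1
  have a2 := abs_le.1 mU2
  have a3 := abs_le.1 mV1
  have a4 := abs_le.1 mV2
  have a5 := abs_le.1 r1
  have a6 := abs_le.1 r2
  constructor
  · rw [abs_le]
    constructor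
    · linarith
    · linarith
  · rw [abs_le]
    constructor
    · linarith
    · linarith

end Pool.Agent.S5.K3
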