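import Pool.Agent.S5.K3.PyS

/-!
# The rows of a node with three half twists: the pieces in the form of the assembly
-/

set_option autoImplicit false

namespace Pool.Agent.S5.G3

open Pool.Agent.H63.VC3 Pool.Agent.S3 Complex Set
open Pool.Agent.S5.Tb Pool.Agent.S5.K3

variable {s : Slt} {py : Py} {y : ℂ} {w : ℝ}

theorem slt_InE (ex : s.ex = true) {pc : Pc} (h : s.In pc y w) : s.InE pc y w := by
  unfold Slt.In at h
  rwa [if_pos ex] at h

/-- **The free pieces.** -/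
theorem slt_free2 {pc : Pc} (hP : PyOK py s.S s.x s.z1) (ex : s.ex = true) (hpc : pc.free)
    (h : s.In pc y w) : ∃ (dl : Bool) (pay : ℕ) (σ leg : ℝ),
      ((OnF py (12800 * s.ys.im) (40 * y.re + 10) (12800 * y.im) dl pay ∧ σ = 0 ∧ leg = 1) ∨
        OnN py (12800 * s.ys.im) (40 * y.re + 10) (12800 * y.im) dl pay σ leg) ∧
      (¬(pc = .F ∨ pc = .H ∨ pc = .G) →
        OnN py (12800 * s.ys.im) (40 * y.re + 10) (12800 * y.im) dl pay σ leg) ∧
      w / 2 = Real.pi * (σ * y.im) ∧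
      s.e ⟨3, false⟩ pc y w ≤ (s.lam * (y - ((y.re : ℂ) + ((leg * y.im : ℝ) : ℂ) * I))).re -
        cond dl (Td (1 / 2 - s.ys) (1 / 2 - y)) 0 + ((pay : ℝ) - 100) / 100 - w / 2 := by
  obtain ⟨dl, pay, σ, leg, h1, h2, h3⟩ := slt_free hP ex hpc (slt_InE ex h)
  refine ⟨dl, pay, σ, leg, ?_, ?_, h3, h2⟩
  · rcases h1 with h1 | h1
    · exact Or.inl ⟨h1.1, h1.2.1, h1.2.2.1⟩
    · exact Or.inr h1
  · intro k
    rcases h1 with h1 | h1
    · exact absurd h1.2.2.2 k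
    · exact h1

/-- **The forced pieces.** -/
theorem slt_frc2 {pc : Pc} {J1 : ℕ} (hP : PyOK py s.S s.x s.z1) (ex : s.ex = true)
    (hpc : pc.frcZ) (h : s.In pc y w) (hJ : 30 - (J1 : ℝ) ≤ 40 * y.re + 10) :
    OnO py J1 (40 * y.re + 10) (12800 * y.im) false py.ow ∧ w = 0 ∧
      s.e ⟨3, false⟩ pc y w ≤ (s.lam * (y - ((y.re : ℂ) + ((1 * y.im : ℝ) : ℂ) * I))).re -
        cond false (Td (1 / 2 - s.ys) (1 / 2 - y)) 0 + ((py.ow : ℝ) - 100) / 100 - w / 2 := by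
  obtain ⟨h1, h2, h3⟩ := slt_frc hP ex hpc (slt_InE ex h) hJ
  refine ⟨h1, ?_, h2⟩
  rw [zero_mul, mul_zero] at h3
  linarith

end Pool.Agent.S5.G3
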